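import Pool.Agent.Lib_helper2.K4.DefsC

set_option autoImplicit false

/-!
The explicit classes on the three special curves with a point of order six, in Tate's
coordinates `(x, y)`: `t = 1` (`b = 2`, `c = 1`), `t = -2` (`b = 2`, `c = -2`),
`t = -1/2` (`b = -1/4`, `c = -1/2`).
-/

namespace Pool.Agent.FK4

open Pool.Agent.MK4

variable {F : Type*} [Field F]

/-- the coordinates of `z + P` -/
def nx (b : F) (p : F × F) : F × F := (b * p.2 / p.1 ^ 2, b ^ 2 * (p.1 ^ 2 - p.2) / p.1 ^ 3)

/-- the coordinates of `z + 2P` -/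
def nx2 (b : F) (p : F × F) : F × F := nx b (nx b p)

/-- the function `ψ` -/
def psi6 (b c x y : F) : F := (x + y - b) / (y - c * x)

/-- the sum over the translates by `0`, `2P`, `4P` -/
noncomputable def sum6 (b : F) (f : F → F → HK F) (x y : F) : HK F :=
  f x y + f (nx2 b (x, y)).1 (nx2 b (x, y)).2 +
    f (nx2 b (nx2 b (x, y))).1 (nx2 b (nx2 b (x, y))).2

/-- `t = 1` -/
noncomputable def term6a (x y : F) : HK F :=
  hk (sy (x / 2)) (lg (y / (2 - y))) +
    hk (sy x) (lg (-psi6 2 1 x y * y / (2 - y))) +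
    hk (sy (psi6 2 1 x y)) (lg ((x - 2) / (4 * (x - 1) ^ 2)))

/-- `t = -2` -/
noncomputable def term6b (x y : F) : HK F :=
  hk (sy (x / 2)) (lg (psi6 2 (-2) x y)⁻¹) +
    hk (sy (-x / 2)) (lg (psi6 2 (-2) x y)) +
    hk (sy (psi6 2 (-2) x y)) (lg (x ^ 2 / (x - 2)))

/-- `t = -1/2` -/
noncomputable def term6c (x y : F) : HK F :=
  hk (sy (psi6 (-1 / 4) (-1 / 2) x y)) (lg (x / (4 * (x + 1 / 4) * (x + 1 / 2))))

/-- the class on the curve `t = 1` -/
noncomputable def xi6a (x y : F) : HK F := sum6 2 term6a x y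

/-- the class on the curve `t = -2` -/
noncomputable def xi6b (x y : F) : HK F := sum6 2 term6b x y

/-- the class on the curve `t = -1/2` -/
noncomputable def xi6c (x y : F) : HK F := sum6 (-1 / 4) term6c x y

end Pool.Agent.FK4
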