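import Pool.Agent.Lib_helper60.FAM.Ln8X

/-!
# The clause `Line`, when the regulator is known for another closed element
-/

set_option autoImplicit false
set_option linter.unusedSectionVars false
set_option linter.unusedVariables false

open scoped TensorProduct WithZero

namespace Pool.Agent.FK4

open Pool.Agent.MK4 WeierstrassCurve.Affine Pool.Agent.KC72 Pool.Agent.MC

section

variable {k : Type*} [Field k] [DecidableEq k] {W W' : WeierstrassCurve.Affine k} {F : Type*}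
  [Field F] [Algebra k F] {X Y x y : F} {H : AddSubgroup W.Point} {H' : AddSubgroup W'.Point}
  [CharZero k]

/-- the closed elements are multiples of one element up to the constants -/
theorem mul_rcertX {R : RCert} {LL : List (List Tm)} (hR : ROkX R LL) {n r : ℕ} (hn : R.n = n)
    (hr : R.r = r) {cls : List (Mo × Mo)} (hcl : sameC R.cls cls = true) {G : Fin n → F}
    (hrn : r ≤ n) (hsupp : ∀ i, Supp H' x y (G i))
    (hk : ∀ i : Fin n, r ≤ i.val → ∃ c : k, G i = algebraMap k F c)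
    (hM : ∀ (e : Fin r → ℤ) (c : k), c ≠ 0 →
      ∏ i, G (Fin.castLE hrn i) ^ e i = algebraMap k F c → e = 0)
    (hc : ∀ e : Fin n → ℤ, (∀ i : Fin n, i.val < r → e i = 0) → ∏ i, G i ^ e i = 1 → e = 0)
    (hs : Sols (List.ofFn G) cls)
    (hU : ∀ f, Supp H' x y f → Supp H' x y (1 - f) → sy f ∈ SC k F ⊔
      Submodule.span ℚ {a : B2 F | ∃ p ∈ cls, a = sy (ev (List.ofFn G) p.1)})
    {ξ : HK F} (hmul : ∀ L' ∈ LL, ∃ β : ℚ, KC72.zt (List.ofFn G) R.cls L' - β • ξ ∈ Cst k F)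
    {z : HK F} (hz : z ∈ Sp H' x y) (hcz : Closed z) : ∃ β : ℚ, z - β • ξ ∈ Cst k F := by
  have h1 := closed_rcertLX hR hn hr hcl hrn hsupp hk hM hc hs hU hz hcz
  obtain ⟨a, ha, b, hb, rfl⟩ := Submodule.mem_sup.mp h1
  rw [TN.KC_eq] at ha
  have key : ∃ β : ℚ, b - β • ξ ∈ Cst k F := by
    clear hz hcz h1
    induction hb using Submodule.span_induction with
    | mem c hc =>
      obtain ⟨L', hL', rfl⟩ := hc
      exact hmul L' hL'
    | zero => exact ⟨0, by rw [zero_smul, sub_zero]; exact Submodule.zero_mem _⟩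
    | add c d hc hd ic id =>
      obtain ⟨β, hβ⟩ := ic
      obtain ⟨γ, hγ⟩ := id
      refine ⟨β + γ, ?_⟩
      rw [add_smul, add_sub_add_comm]
      exact Submodule.add_mem _ hβ hγ
    | smul q c hc ic =>
      obtain ⟨β, hβ⟩ := ic
      refine ⟨q * β, ?_⟩
      rw [mul_smul, ← smul_sub]
      exact Submodule.smul_mem _ q hβ
  obtain ⟨β, hβ⟩ := key
  refine ⟨β, ?_⟩
  rw [add_sub_assoc]
  exact Submodule.add_mem _ ha hβ

/-- the clause `Line` from a modular certificate: one explicit class, and classes which are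
known to be multiples of it up to the constants; the regulator is known for the element `L₂` -/
theorem line_rcertX2 (hg : Generic W X Y) {P : W.Point}
    (hS : Same (AddSubgroup.zmultiples P) X Y H' x y)
    {R : RCert} {LL : List (List Tm)} (hR : ROkX R LL) {n r : ℕ} (hn : R.n = n) (hr : R.r = r)
    {cls : List (Mo × Mo)} (hcl : sameC R.cls cls = true) {G : Fin n → F} (hrn : r ≤ n)
    (hsupp : ∀ i, Supp H' x y (G i))
    (hk : ∀ i : Fin n, r ≤ i.val → ∃ c : k, G i = algebraMap k F c)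
    (hM : ∀ (e : Fin r → ℤ) (c : k), c ≠ 0 →
      ∏ i, G (Fin.castLE hrn i) ^ e i = algebraMap k F c → e = 0)
    (hc : ∀ e : Fin n → ℤ, (∀ i : Fin n, i.val < r → e i = 0) → ∏ i, G i ^ e i = 1 → e = 0)
    (hs : Sols (List.ofFn G) cls)
    (hU : ∀ f, Supp H' x y f → Supp H' x y (1 - f) → sy f ∈ SC k F ⊔
      Submodule.span ℚ {a : B2 F | ∃ p ∈ cls, a = sy (ev (List.ofFn G) p.1)})
    {L : List Tm} (hL : okT n cls L = true) (hD : chkD n cls L = true)
    {ξ : HK F} (hξ : ξ = KC72.zt (List.ofFn G) cls L)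
    (hmul : ∀ L' ∈ LL, ∃ β : ℚ, KC72.zt (List.ofFn G) R.cls L' - β • ξ ∈ Cst k F)
    (hun : Unram k ξ) {L2 : List Tm} (hL2 : okT n cls L2 = true) (hD2 : chkD n cls L2 = true)
    (hnz : ∀ β : ℚ, KC72.zt (List.ofFn G) cls L2 - β • ξ ∈ Cst k F → RegNonZero k X Y ξ) :
    Line P X Y := by
  have : CharZero F := charZero_of_injective_algebraMap (algebraMap k F).injective
  have hG : ∀ i, G i ≠ 0 := fun i => (hsupp i).1
  have hgl : ∀ z ∈ List.ofFn G, Supp H' x y z := by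
    intro z hz
    rw [List.mem_ofFn] at hz
    obtain ⟨i, rfl⟩ := hz
    exact hsupp i
  obtain ⟨β, hβ⟩ := mul_rcertX hR hn hr hcl hrn hsupp hk hM hc hs hU hmul (zt_mem' hgl hs hL2)
    (zt_closed hG hs hL2 hD2)
  exact line_rcertX hg hS hR hn hr hcl hrn hsupp hk hM hc hs hU hL hD hξ hmul hun (hnz β hβ)

end

section

open Pool.Agent.TN (Wt)
open Pool.Agent.UEG (P0)
open Pool.Agent.N6 (G6 M)
open Pool.Agent.N6S (G6S glS KdS TcS)

variable {k : Type*} [Field k] [DecidableEq k] [CharZero k] {W : WeierstrassCurve.Affine k}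
  {F : Type*} [Field F] [Algebra k F] {X Y : F}

/-- **the clause `Line`** for `t = 1/3, -1/3, -1/5`, when the regulator is known for `L₂` -/
theorem line6S_of2 {κ : Fin 3} {t : k} (hk : KdS κ t) (hg : Generic W X Y) {P : W.Point}
    (h6 : To6t t P X Y) {R : RCert} {LL : List (List Tm)} (hR : ROkX R LL) (hn : R.n = 7)
    (hr : R.r = 5) {clsF clsK : List (Mo × Mo)} (hcl : sameC R.cls clsK = true)
    (hKF : ∀ p ∈ clsK, p ∈ clsF)
    (hsF : ∀ x y : F, G6 t x y → Sols (glS κ t x y) clsF)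
    (hF : ∀ x y : F, G6 t x y → ∀ {c c' : k} (_ : c ≠ 0) (_ : c' ≠ 0)
      {a₀ a₁ a₂ a₃ a₄ b₀ b₁ b₂ b₃ b₄ : ℤ}
      (_ : algebraMap k F c * M t x y a₀ a₁ a₂ a₃ a₄ +
        algebraMap k F c' * M t x y b₀ b₁ b₂ b₃ b₄ = 1),
      (∃ s : k, algebraMap k F c * M t x y a₀ a₁ a₂ a₃ a₄ = algebraMap k F s) ∨
        TcS κ clsF t x y (algebraMap k F c * M t x y a₀ a₁ a₂ a₃ a₄))
    (hred : ∀ x y : F, G6 t x y → ∀ p ∈ clsF, sy (ev (glS κ t x y) p.1) ∈ SC k F ⊔
      Submodule.span ℚ {a : B2 F | ∃ p ∈ clsK, a = sy (ev (glS κ t x y) p.1)})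
    {L : List Tm} (hL : okT 7 clsK L = true) (hD : chkD 7 clsK L = true)
    (hmul : ∀ x y : F, G6 t x y → ∀ L' ∈ LL, ∃ β : ℚ,
      KC72.zt (glS κ t x y) R.cls L' - β • KC72.zt (glS κ t x y) clsK L ∈ Cst k F)
    (hun : ∀ x y : F, G6 t x y → Unram k (KC72.zt (glS κ t x y) clsK L))
    {L2 : List Tm} (hL2 : okT 7 clsK L2 = true) (hD2 : chkD 7 clsK L2 = true)
    (hnz : ∀ (φ : k →+* ℝ) (x y : F), G6 t x y → IntermediateField.adjoin k {x, y} = ⊤ →
      ∀ (β : ℚ) (ξ : HK F), KC72.zt (glS κ t x y) clsK L2 - β • ξ ∈ Cst k F → RegNe φ ξ) :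
    Line P X Y := by
  obtain ⟨hb, x, y, hG, hO, hS, htop⟩ := h6
  have : CharZero F := charZero_of_injective_algebraMap (algebraMap k F).injective
  have hgen : G6 t x y := UE6.gen6 hG
  have hgl : List.ofFn (G6S κ t x y) = glS κ t x y := N6S.ofFn_G6S κ
  refine line_rcertX2 (k := k) hg hS.toSame hR (n := 7) (r := 5) hn hr (cls := clsK) hcl
    (G := G6S κ t x y) (by norm_num) (N6S.G6S_supp hk hb hO hG) (fun i hi => N6S.G6S_const κ i hi)
    (fun e c hc he => N6S.G6S_hM hk hgen e c hc he) (fun e he hp => N6S.G6S_hc (k := k) κ e he hp)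
    ?_ ?_ hL hD (ξ := KC72.zt (glS κ t x y) clsK L) (by rw [hgl]) ?_ (hun x y hgen) hL2 hD2 ?_
  · rw [hgl]
    exact fun p hp => hsF x y hgen p (hKF p hp)
  · intro f h1 h2
    have h3 := N6S.hU_of hk hb hO hG (hF x y hgen) f h1 h2
    rw [hgl] at h3 ⊢
    exact span_red (hred x y hgen) (sy_mem_orb (N6S.glS_ne κ hgen) (hsF x y hgen) h3)
  · rw [hgl]
    exact hmul x y hgen
  · intro β hβ φ ht
    rw [hgl] at hβ
    exact hnz φ x y hgen (htop ht) β _ hβ

/-- **the clause `Line`** for `d = 3 / 2`, when the regulator is known for `L₂` -/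
theorem line8c_of2 (hg : Generic W X Y) {P : W.Point} (h8 : To8t (3 / 2 : k) P X Y)
    {R : RCert} {LL : List (List Tm)} (hR : ROkX R LL) (hn : R.n = 9) (hr : R.r = 7)
    {clsK : List (Mo × Mo)} (hcl : sameC R.cls clsK = true) (hKF : ∀ p ∈ clsK, p ∈ K8c.clsA)
    (hred : ∀ x y : F, TN.Gen (1 : k) (2/3) x y → ∀ p ∈ K8c.clsA,
      sy (ev (List.ofFn (K8c.G8 x y)) p.1) ∈ SC k F ⊔
        Submodule.span ℚ {a : B2 F | ∃ p ∈ clsK, a = sy (ev (List.ofFn (K8c.G8 x y)) p.1)})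
    {L : List Tm} (hL : okT 9 clsK L = true) (hD : chkD 9 clsK L = true)
    (hmul : ∀ x y : F, TN.Gen (1 : k) (2/3) x y → ∀ L' ∈ LL, ∃ β : ℚ,
      KC72.zt (List.ofFn (K8c.G8 x y)) R.cls L' -
        β • KC72.zt (List.ofFn (K8c.G8 x y)) clsK L ∈ Cst k F)
    (hun : ∀ x y : F, TN.Gen (1 : k) (2/3) x y →
      Unram k (KC72.zt (List.ofFn (K8c.G8 x y)) clsK L))
    {L2 : List Tm} (hL2 : okT 9 clsK L2 = true) (hD2 : chkD 9 clsK L2 = true)
    (hnz : ∀ (φ : k →+* ℝ) (x y : F), TN.Gen (1 : k) (2/3) x y →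
      IntermediateField.adjoin k {x, y} = ⊤ → ∀ (β : ℚ) (ξ : HK F),
      KC72.zt (List.ofFn (K8c.G8 x y)) clsK L2 - β • ξ ∈ Cst k F → RegNe φ ξ) :
    Line P X Y := by
  obtain ⟨hb, x, y, hG, hO, hS, htop⟩ := h8
  have : CharZero F := charZero_of_injective_algebraMap (algebraMap k F).injective
  have hgen := K8c.gen hG
  refine line_rcertX2 (k := k) hg hS.toSame hR (n := 9) (r := 7) hn hr (cls := clsK) hcl
    (G := K8c.G8 x y) (by norm_num) (K8c.G8_supp hb hO hG) (fun i hi => K8c.G8_const i hi)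
    (fun e c hc he => K8c.G8_hM hgen e c hc he) (fun e he hp => K8c.G8_hc hgen e he hp)
    (fun p hp => K8c.solsA hgen p (hKF p hp)) ?_ hL hD
    (ξ := KC72.zt (List.ofFn (K8c.G8 x y)) clsK L) rfl (hmul x y hgen) (hun x y hgen) hL2 hD2 ?_
  · intro f h1 h2
    exact span_red (hred x y hgen) (K8c.hUS hb hO hG f h1 h2)
  · intro β hβ φ ht
    exact hnz φ x y hgen (htop ht) β _ hβ

/-- **the clause `Line`** for `d = 3 / 4`, when the regulator is known for `L₂` -/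
theorem line8d_of2 (hg : Generic W X Y) {P : W.Point} (h8 : To8t (3 / 4 : k) P X Y)
    {R : RCert} {LL : List (List Tm)} (hR : ROkX R LL) (hn : R.n = 9) (hr : R.r = 7)
    {clsK : List (Mo × Mo)} (hcl : sameC R.cls clsK = true) (hKF : ∀ p ∈ clsK, p ∈ K8d.clsA)
    (hred : ∀ x y : F, TN.Gen (-1/8 : k) (-1/6) x y → ∀ p ∈ K8d.clsA,
      sy (ev (List.ofFn (K8d.G8 x y)) p.1) ∈ SC k F ⊔
        Submodule.span ℚ {a : B2 F | ∃ p ∈ clsK, a = sy (ev (List.ofFn (K8d.G8 x y)) p.1)})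
    {L : List Tm} (hL : okT 9 clsK L = true) (hD : chkD 9 clsK L = true)
    (hmul : ∀ x y : F, TN.Gen (-1/8 : k) (-1/6) x y → ∀ L' ∈ LL, ∃ β : ℚ,
      KC72.zt (List.ofFn (K8d.G8 x y)) R.cls L' -
        β • KC72.zt (List.ofFn (K8d.G8 x y)) clsK L ∈ Cst k F)
    (hun : ∀ x y : F, TN.Gen (-1/8 : k) (-1/6) x y →
      Unram k (KC72.zt (List.ofFn (K8d.G8 x y)) clsK L))
    {L2 : List Tm} (hL2 : okT 9 clsK L2 = true) (hD2 : chkD 9 clsK L2 = true)
    (hnz : ∀ (φ : k →+* ℝ) (x y : F), TN.Gen (-1/8 : k) (-1/6) x y →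
      IntermediateField.adjoin k {x, y} = ⊤ → ∀ (β : ℚ) (ξ : HK F),
      KC72.zt (List.ofFn (K8d.G8 x y)) clsK L2 - β • ξ ∈ Cst k F → RegNe φ ξ) :
    Line P X Y := by
  obtain ⟨hb, x, y, hG, hO, hS, htop⟩ := h8
  have : CharZero F := charZero_of_injective_algebraMap (algebraMap k F).injective
  have hgen := K8d.gen hG
  refine line_rcertX2 (k := k) hg hS.toSame hR (n := 9) (r := 7) hn hr (cls := clsK) hcl
    (G := K8d.G8 x y) (by norm_num) (K8d.G8_supp hb hO hG) (fun i hi => K8d.G8_const i hi)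
    (fun e c hc he => K8d.G8_hM hgen e c hc he) (fun e he hp => K8d.G8_hc hgen e he hp)
    (fun p hp => K8d.solsA hgen p (hKF p hp)) ?_ hL hD
    (ξ := KC72.zt (List.ofFn (K8d.G8 x y)) clsK L) rfl (hmul x y hgen) (hun x y hgen) hL2 hD2 ?_
  · intro f h1 h2
    exact span_red (hred x y hgen) (K8d.hUS hb hO hG f h1 h2)
  · intro β hβ φ ht
    exact hnz φ x y hgen (htop ht) β _ hβ

end

end Pool.Agent.FK4
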