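import Pool.Agent.Lib_helper54.FAM.RC2

set_option autoImplicit false
set_option linter.unusedSectionVars false
set_option linter.unusedVariables false
set_option linter.unusedSimpArgs false

/-!
Local data at the places of the first special curve with a point of order eight.
-/

namespace Pool.Agent.FK4R

open Pool.Agent.K4R Pool.Agent.KC72
open scoped WithZero TensorProduct

/-- the generators -/
def g8a {F : Type*} [Field F] (x y : F) : List F :=
  [x, x - 3, x - (3 / 2), x - 2, y, y - (3 / 2) * x, y - x, 2, 3]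

/-- the local data at the points -/
def locs8a : List (List (ℤ × Mo)) :=
  [[(2, (false, [])), (2, (false, [])), (2, (false, [])), (2, (false, [])), (3, (false, [])), (3, (false, [])), (3, (false, [])), (0, (false, [1])), (0, (false, [0, 1]))],
   [(1, (false, [])), (0, (true, [0, 1])), (0, (true, [-1, 1])), (0, (true, [1])), (2, (false, [])), (1, (true, [-1, 1])), (1, (true, [])), (0, (false, [1])), (0, (false, [0, 1]))],
   [(1, (false, [])), (0, (true, [0, 1])), (0, (true, [-1, 1])), (0, (true, [1])), (0, (false, [0, 1])), (0, (false, [0, 1])), (0, (false, [0, 1])), (0, (false, [1])), (0, (false, [0, 1]))],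
   [(0, (false, [0, 1])), (1, (false, [])), (0, (false, [-1, 1])), (0, (false, [])), (0, (false, [-1, 2])), (1, (false, [])), (0, (false, [-1, 1])), (0, (false, [1])), (0, (false, [0, 1]))],
   [(0, (false, [0, 1])), (1, (false, [])), (0, (false, [-1, 1])), (0, (false, [])), (1, (true, [1])), (0, (true, [-1, 2])), (0, (true, [0, 1])), (0, (false, [1])), (0, (false, [0, 1]))],
   [(0, (false, [-1, 1])), (0, (true, [-1, 1])), (1, (false, [])), (0, (true, [-1])), (0, (false, [-1, 1])), (0, (true, [-2, 1])), (1, (false, [])), (0, (false, [1])), (0, (false, [0, 1]))],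
   [(0, (false, [-1, 1])), (0, (true, [-1, 1])), (1, (false, [])), (0, (true, [-1])), (0, (false, [-2, 2])), (1, (true, [0, 1])), (0, (false, [-2, 1])), (0, (false, [1])), (0, (false, [0, 1]))],
   [(0, (false, [1])), (0, (true, [])), (0, (false, [-1])), (2, (false, [])), (0, (false, [1])), (0, (true, [])), (1, (false, [])), (0, (false, [1])), (0, (false, [0, 1]))]]

section s8a

variable {F : Type*} [Field F] [CharZero F] {v : Valuation F ℤᵐ⁰} {x y : F}

theorem places8a (hT : Tq v) (heq : y ^ 2 - (1 / 2) * x * y - 3 * y = x ^ 3 - 3 * x ^ 2)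
    (hne : ∀ z ∈ g8a x y, z ≠ 0) : (∀ z ∈ g8a x y, v z = 1) ∨
      ∃ loc ∈ locs8a, ∃ t : F, t ≠ 0 ∧ v t ≠ 1 ∧ Loc v [2, 3] t (g8a x y) loc := by
  have hbq : v (3 : F) ≤ 1 := by
    have := hT.le 3
    norm_num at this ⊢
    exact this
  have hcq : v ((3 / 2) : F) ≤ 1 := by
    have := hT.le (3 / 2)
    norm_num at this ⊢
    exact this
  have hE : y ^ 2 + (1 - (3 / 2)) * x * y - 3 * y = x ^ 3 - 3 * x ^ 2 := by
    linear_combination heq
  have nx0 : x ≠ 0 := hne _ (by simp [g8a])
  have nx1 : x - 3 ≠ 0 := hne _ (by simp [g8a])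
  have nx2 : x - (3 / 2) ≠ 0 := hne _ (by simp [g8a])
  have nx3 : x - 2 ≠ 0 := hne _ (by simp [g8a])
  have ny0 : y ≠ 0 := hne _ (by simp [g8a])
  have ny1 : y - (3 / 2) * x ≠ 0 := hne _ (by simp [g8a])
  have ny2 : y - x ≠ 0 := hne _ (by simp [g8a])
  have n1d2 : Nq v ((1 / 2) : F) (1 / 2) := Nq.num _ (by norm_num)
  have n1 : Nq v (1 : F) 1 := Nq.num _ (by norm_num)
  have n3d2 : Nq v ((3 / 2) : F) (3 / 2) := Nq.num _ (by norm_num)
  have n2 : Nq v (2 : F) 2 := Nq.num _ (by norm_num)
  have n3 : Nq v (3 : F) 3 := Nq.num _ (by norm_num)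
  have P1 : Nq v x 0 → Nq v y 0 →
      ∃ loc ∈ locs8a, ∃ t : F, t ≠ 0 ∧ v t ≠ 1 ∧ Loc v [2, 3] t (g8a x y) loc := by
    intro hx hy
    refine ⟨[(1, (false, [])), (0, (true, [0, 1])), (0, (true, [-1, 1])), (0, (true, [1])), (2, (false, [])), (1, (true, [-1, 1])), (1, (true, [])), (0, (false, [1])), (0, (false, [0, 1]))], by decide, x, nx0, ?_, ?_⟩
    · have h := hx
      have h' : v (x) < 1 := by
        unfold Nq at h
        norm_num at h
        exact h
      exact h'.ne
    · refine List.Forall₂.cons ?_ (List.Forall₂.cons ?_ (List.Forall₂.cons ?_ (List.Forall₂.cons ?_ (List.Forall₂.cons ?_ (List.Forall₂.cons ?_ (List.Forall₂.cons ?_ (List.Forall₂.cons ?_ (List.Forall₂.cons ?_ (List.Forall₂.nil)))))))))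
      · exact Lc_self _
      · exact Lc_unit hT (hx.sub n3) (by norm_num) (by norm_num [ev, evl]) _
      · exact Lc_unit hT (hx.sub n3d2) (by norm_num) (by norm_num [ev, evl]) _
      · exact Lc_unit hT (hx.sub n2) (by norm_num) (by norm_num [ev, evl]) _
      · exact Lc_quot (m := 2) hT (A := y) (B := y - (1 / 2) * x - 3) (C := (x - 3))
          (by linear_combination heq) ((hy.sub (n1d2.mul hT hx)).sub n3)
          (hx.sub n3) (by norm_num) (by norm_num) (by norm_num [ev, evl])
      · exact Lc_quot (m := 1) hT (A := y - (3 / 2) * x) (B := y + x - 3) (C := ((x - 3) * (x - (3 / 2))))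
          (by linear_combination heq) ((hy.add hx).sub n3)
          ((hx.sub n3).mul hT (hx.sub n3d2)) (by norm_num) (by norm_num) (by norm_num [ev, evl])
      · exact Lc_quot (m := 1) hT (A := y - x) (B := y + (1 / 2) * x - 3) (C := ((x - (3 / 2)) * (x - 2)))
          (by linear_combination heq) ((hy.add (n1d2.mul hT hx)).sub n3)
          ((hx.sub n3d2).mul hT (hx.sub n2)) (by norm_num) (by norm_num) (by norm_num [ev, evl])
      · exact Lc_unit hT n2 (by norm_num) (by norm_num [ev, evl]) _
      · exact Lc_unit hT n3 (by norm_num) (by norm_num [ev, evl]) _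
  have M1 : Nq v x 0 → Nq v y 3 →
      ∃ loc ∈ locs8a, ∃ t : F, t ≠ 0 ∧ v t ≠ 1 ∧ Loc v [2, 3] t (g8a x y) loc := by
    intro hx hy
    refine ⟨[(1, (false, [])), (0, (true, [0, 1])), (0, (true, [-1, 1])), (0, (true, [1])), (0, (false, [0, 1])), (0, (false, [0, 1])), (0, (false, [0, 1])), (0, (false, [1])), (0, (false, [0, 1]))], by decide, x, nx0, ?_, ?_⟩
    · have h := hx
      have h' : v (x) < 1 := by
        unfold Nq at h
        norm_num at h
        exact h
      exact h'.ne
    · refine List.Forall₂.cons ?_ (List.Forall₂.cons ?_ (List.Forall₂.cons ?_ (List.Forall₂.cons ?_ (List.Forall₂.cons ?_ (List.Forall₂.cons ?_ (List.Forall₂.cons ?_ (List.Forall₂.cons ?_ (List.Forall₂.cons ?_ (List.Forall₂.nil)))))))))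
      · exact Lc_self _
      · exact Lc_unit hT (hx.sub n3) (by norm_num) (by norm_num [ev, evl]) _
      · exact Lc_unit hT (hx.sub n3d2) (by norm_num) (by norm_num [ev, evl]) _
      · exact Lc_unit hT (hx.sub n2) (by norm_num) (by norm_num [ev, evl]) _
      · exact Lc_unit hT hy (by norm_num) (by norm_num [ev, evl]) _
      · exact Lc_unit hT (hy.sub (n3d2.mul hT hx)) (by norm_num) (by norm_num [ev, evl]) _
      · exact Lc_unit hT (hy.sub hx) (by norm_num) (by norm_num [ev, evl]) _
      · exact Lc_unit hT n2 (by norm_num) (by norm_num [ev, evl]) _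
      · exact Lc_unit hT n3 (by norm_num) (by norm_num [ev, evl]) _
  have P2 : Nq v x 3 → Nq v y (9 / 2) →
      ∃ loc ∈ locs8a, ∃ t : F, t ≠ 0 ∧ v t ≠ 1 ∧ Loc v [2, 3] t (g8a x y) loc := by
    intro hx hy
    refine ⟨[(0, (false, [0, 1])), (1, (false, [])), (0, (false, [-1, 1])), (0, (false, [])), (0, (false, [-1, 2])), (1, (false, [])), (0, (false, [-1, 1])), (0, (false, [1])), (0, (false, [0, 1]))], by decide, x - 3, nx1, ?_, ?_⟩
    · have h := (hx.sub n3)
      have h' : v (x - 3) < 1 := by
        unfold Nq at h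
        norm_num at h
        exact h
      exact h'.ne
    · refine List.Forall₂.cons ?_ (List.Forall₂.cons ?_ (List.Forall₂.cons ?_ (List.Forall₂.cons ?_ (List.Forall₂.cons ?_ (List.Forall₂.cons ?_ (List.Forall₂.cons ?_ (List.Forall₂.cons ?_ (List.Forall₂.cons ?_ (List.Forall₂.nil)))))))))
      · exact Lc_unit hT hx (by norm_num) (by norm_num [ev, evl]) _
      · exact Lc_self _
      · exact Lc_unit hT (hx.sub n3d2) (by norm_num) (by norm_num [ev, evl]) _
      · exact Lc_unit hT (hx.sub n2) (by norm_num) (by norm_num [ev, evl]) _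
      · exact Lc_unit hT hy (by norm_num) (by norm_num [ev, evl]) _
      · exact Lc_quot (m := 1) hT (A := y - (3 / 2) * x) (B := y + x - 3) (C := ((x) * (x - (3 / 2))))
          (by linear_combination heq) ((hy.add hx).sub n3)
          (hx.mul hT (hx.sub n3d2)) (by norm_num) (by norm_num) (by norm_num [ev, evl])
      · exact Lc_unit hT (hy.sub hx) (by norm_num) (by norm_num [ev, evl]) _
      · exact Lc_unit hT n2 (by norm_num) (by norm_num [ev, evl]) _
      · exact Lc_unit hT n3 (by norm_num) (by norm_num [ev, evl]) _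
  have M2 : Nq v x 3 → Nq v y 0 →
      ∃ loc ∈ locs8a, ∃ t : F, t ≠ 0 ∧ v t ≠ 1 ∧ Loc v [2, 3] t (g8a x y) loc := by
    intro hx hy
    refine ⟨[(0, (false, [0, 1])), (1, (false, [])), (0, (false, [-1, 1])), (0, (false, [])), (1, (true, [1])), (0, (true, [-1, 2])), (0, (true, [0, 1])), (0, (false, [1])), (0, (false, [0, 1]))], by decide, x - 3, nx1, ?_, ?_⟩
    · have h := (hx.sub n3)
      have h' : v (x - 3) < 1 := by
        unfold Nq at h
        norm_num at h
        exact h
      exact h'.ne
    · refine List.Forall₂.cons ?_ (List.Forall₂.cons ?_ (List.Forall₂.cons ?_ (List.Forall₂.cons ?_ (List.Forall₂.cons ?_ (List.Forall₂.cons ?_ (List.Forall₂.cons ?_ (List.Forall₂.cons ?_ (List.Forall₂.cons ?_ (List.Forall₂.nil)))))))))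
      · exact Lc_unit hT hx (by norm_num) (by norm_num [ev, evl]) _
      · exact Lc_self _
      · exact Lc_unit hT (hx.sub n3d2) (by norm_num) (by norm_num [ev, evl]) _
      · exact Lc_unit hT (hx.sub n2) (by norm_num) (by norm_num [ev, evl]) _
      · exact Lc_quot (m := 1) hT (A := y) (B := y - (1 / 2) * x - 3) (C := ((x) * (x)))
          (by linear_combination heq) ((hy.sub (n1d2.mul hT hx)).sub n3)
          (hx.mul hT hx) (by norm_num) (by norm_num) (by norm_num [ev, evl])
      · exact Lc_unit hT (hy.sub (n3d2.mul hT hx)) (by norm_num) (by norm_num [ev, evl]) _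
      · exact Lc_unit hT (hy.sub hx) (by norm_num) (by norm_num [ev, evl]) _
      · exact Lc_unit hT n2 (by norm_num) (by norm_num [ev, evl]) _
      · exact Lc_unit hT n3 (by norm_num) (by norm_num [ev, evl]) _
  have P3 : Nq v x (3 / 2) → Nq v y (3 / 2) →
      ∃ loc ∈ locs8a, ∃ t : F, t ≠ 0 ∧ v t ≠ 1 ∧ Loc v [2, 3] t (g8a x y) loc := by
    intro hx hy
    refine ⟨[(0, (false, [-1, 1])), (0, (true, [-1, 1])), (1, (false, [])), (0, (true, [-1])), (0, (false, [-1, 1])), (0, (true, [-2, 1])), (1, (false, [])), (0, (false, [1])), (0, (false, [0, 1]))], by decide, x - (3 / 2), nx2, ?_, ?_⟩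
    · have h := (hx.sub n3d2)
      have h' : v (x - (3 / 2)) < 1 := by
        unfold Nq at h
        norm_num at h
        exact h
      exact h'.ne
    · refine List.Forall₂.cons ?_ (List.Forall₂.cons ?_ (List.Forall₂.cons ?_ (List.Forall₂.cons ?_ (List.Forall₂.cons ?_ (List.Forall₂.cons ?_ (List.Forall₂.cons ?_ (List.Forall₂.cons ?_ (List.Forall₂.cons ?_ (List.Forall₂.nil)))))))))
      · exact Lc_unit hT hx (by norm_num) (by norm_num [ev, evl]) _
      · exact Lc_unit hT (hx.sub n3) (by norm_num) (by norm_num [ev, evl]) _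
      · exact Lc_self _
      · exact Lc_unit hT (hx.sub n2) (by norm_num) (by norm_num [ev, evl]) _
      · exact Lc_unit hT hy (by norm_num) (by norm_num [ev, evl]) _
      · exact Lc_unit hT (hy.sub (n3d2.mul hT hx)) (by norm_num) (by norm_num [ev, evl]) _
      · exact Lc_quot (m := 1) hT (A := y - x) (B := y + (1 / 2) * x - 3) (C := ((x) * (x - 2)))
          (by linear_combination heq) ((hy.add (n1d2.mul hT hx)).sub n3)
          (hx.mul hT (hx.sub n2)) (by norm_num) (by norm_num) (by norm_num [ev, evl])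
      · exact Lc_unit hT n2 (by norm_num) (by norm_num [ev, evl]) _
      · exact Lc_unit hT n3 (by norm_num) (by norm_num [ev, evl]) _
  have M3 : Nq v x (3 / 2) → Nq v y (9 / 4) →
      ∃ loc ∈ locs8a, ∃ t : F, t ≠ 0 ∧ v t ≠ 1 ∧ Loc v [2, 3] t (g8a x y) loc := by
    intro hx hy
    refine ⟨[(0, (false, [-1, 1])), (0, (true, [-1, 1])), (1, (false, [])), (0, (true, [-1])), (0, (false, [-2, 2])), (1, (true, [0, 1])), (0, (false, [-2, 1])), (0, (false, [1])), (0, (false, [0, 1]))], by decide, x - (3 / 2), nx2, ?_, ?_⟩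
    · have h := (hx.sub n3d2)
      have h' : v (x - (3 / 2)) < 1 := by
        unfold Nq at h
        norm_num at h
        exact h
      exact h'.ne
    · refine List.Forall₂.cons ?_ (List.Forall₂.cons ?_ (List.Forall₂.cons ?_ (List.Forall₂.cons ?_ (List.Forall₂.cons ?_ (List.Forall₂.cons ?_ (List.Forall₂.cons ?_ (List.Forall₂.cons ?_ (List.Forall₂.cons ?_ (List.Forall₂.nil)))))))))
      · exact Lc_unit hT hx (by norm_num) (by norm_num [ev, evl]) _
      · exact Lc_unit hT (hx.sub n3) (by norm_num) (by norm_num [ev, evl]) _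
      · exact Lc_self _
      · exact Lc_unit hT (hx.sub n2) (by norm_num) (by norm_num [ev, evl]) _
      · exact Lc_unit hT hy (by norm_num) (by norm_num [ev, evl]) _
      · exact Lc_quot (m := 1) hT (A := y - (3 / 2) * x) (B := y + x - 3) (C := ((x) * (x - 3)))
          (by linear_combination heq) ((hy.add hx).sub n3)
          (hx.mul hT (hx.sub n3)) (by norm_num) (by norm_num) (by norm_num [ev, evl])
      · exact Lc_unit hT (hy.sub hx) (by norm_num) (by norm_num [ev, evl]) _
      · exact Lc_unit hT n2 (by norm_num) (by norm_num [ev, evl]) _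
      · exact Lc_unit hT n3 (by norm_num) (by norm_num [ev, evl]) _
  have P4 : Nq v x 2 → Nq v y 2 →
      ∃ loc ∈ locs8a, ∃ t : F, t ≠ 0 ∧ v t ≠ 1 ∧ Loc v [2, 3] t (g8a x y) loc := by
    intro hx hy
    refine ⟨[(0, (false, [1])), (0, (true, [])), (0, (false, [-1])), (2, (false, [])), (0, (false, [1])), (0, (true, [])), (1, (false, [])), (0, (false, [1])), (0, (false, [0, 1]))], by decide, y - x, ny2, ?_, ?_⟩
    · have h := (hy.sub hx)
      have h' : v (y - x) < 1 := by
        unfold Nq at h
        norm_num at h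
        exact h
      exact h'.ne
    · refine List.Forall₂.cons ?_ (List.Forall₂.cons ?_ (List.Forall₂.cons ?_ (List.Forall₂.cons ?_ (List.Forall₂.cons ?_ (List.Forall₂.cons ?_ (List.Forall₂.cons ?_ (List.Forall₂.cons ?_ (List.Forall₂.cons ?_ (List.Forall₂.nil)))))))))
      · exact Lc_unit hT hx (by norm_num) (by norm_num [ev, evl]) _
      · exact Lc_unit hT (hx.sub n3) (by norm_num) (by norm_num [ev, evl]) _
      · exact Lc_unit hT (hx.sub n3d2) (by norm_num) (by norm_num [ev, evl]) _
      · exact Lc_quot (m := 2) hT (A := x - 2) (B := x * (x - (3 / 2)) - (3 / 2) * (y - x)) (C := 1) (by linear_combination (-1) * heq)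
          ((hx.mul hT (hx.sub n3d2)).sub (n3d2.mul hT (hy.sub hx))) n1 (by norm_num) (by norm_num) (by norm_num [ev, evl])
      · exact Lc_unit hT hy (by norm_num) (by norm_num [ev, evl]) _
      · exact Lc_unit hT (hy.sub (n3d2.mul hT hx)) (by norm_num) (by norm_num [ev, evl]) _
      · exact Lc_self _
      · exact Lc_unit hT n2 (by norm_num) (by norm_num [ev, evl]) _
      · exact Lc_unit hT n3 (by norm_num) (by norm_num [ev, evl]) _
  by_cases hO : 1 < v x
  · right
    obtain ⟨h1, h2, h3, h4⟩ := at_O hE hbq hcq hO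
    refine ⟨[(2, (false, [])), (2, (false, [])), (2, (false, [])), (2, (false, [])), (3, (false, [])), (3, (false, [])), (3, (false, [])), (0, (false, [1])), (0, (false, [0, 1]))], by decide, y / x, h2, h1, List.Forall₂.cons ?_ (List.Forall₂.cons ?_ (List.Forall₂.cons ?_ (List.Forall₂.cons ?_ (List.Forall₂.cons ?_ (List.Forall₂.cons ?_ (List.Forall₂.cons ?_ (List.Forall₂.cons ?_ (List.Forall₂.cons ?_ (List.Forall₂.nil)))))))))⟩
    · simpa using h3 0 (by simpa using hT.le 0)
    · simpa using h3 3 (by simpa using hT.le 3)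
    · simpa using h3 (3 / 2) (by simpa using hT.le (3 / 2))
    · simpa using h3 2 (by simpa using hT.le 2)
    · simpa using h4 0 (by simpa using hT.le 0)
    · simpa using h4 (3 / 2) (by simpa using hT.le (3 / 2))
    · simpa using h4 1 (by simpa using hT.le 1)
    · exact Lc_unit hT n2 (by norm_num) (by norm_num [ev, evl]) _
    · exact Lc_unit hT n3 (by norm_num) (by norm_num [ev, evl]) _
  rw [not_lt] at hO
  have hy1 := vy_le hE hbq hcq hO
  by_cases h : v (x) < 1
  · right
    have hx : Nq v x 0 := by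
      unfold Nq
      norm_num
      exact h
    have hd := two_pts hE hbq hcq hO (α := 0) (β := 0) (γ := 3)
      (by norm_num; exact h) (by simpa using hT.le 0) (by norm_num) (by norm_num)
    rcases hd with hd | hd
    · exact P1 hx (by unfold Nq; norm_num at hd ⊢; exact hd)
    · exact M1 hx (by unfold Nq; norm_num at hd ⊢; exact hd)
  have hx0 : v (x) = 1 := one_of_not_lt (hO) h
  clear h
  by_cases h : v (x - 3) < 1
  · right
    have hx : Nq v x 3 := by
      unfold Nq
      norm_num
      exact h
    have hd := two_pts hE hbq hcq hO (α := 3) (β := (9 / 2)) (γ := 0)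
      (by norm_num; exact h) (by simpa using hT.le 3) (by norm_num) (by norm_num)
    rcases hd with hd | hd
    · exact P2 hx (by unfold Nq; norm_num at hd ⊢; exact hd)
    · exact M2 hx (by unfold Nq; norm_num at hd ⊢; exact hd)
  have hx1 : v (x - 3) = 1 := one_of_not_lt (Valuation.map_sub_le _ hO (by simpa using hT.le 3)) h
  clear h
  by_cases h : v (x - (3 / 2)) < 1
  · right
    have hx : Nq v x (3 / 2) := by
      unfold Nq
      norm_num
      exact h
    have hd := two_pts hE hbq hcq hO (α := (3 / 2)) (β := (3 / 2)) (γ := (9 / 4))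
      (by norm_num; exact h) (by simpa using hT.le (3 / 2)) (by norm_num) (by norm_num)
    rcases hd with hd | hd
    · exact P3 hx (by unfold Nq; norm_num at hd ⊢; exact hd)
    · exact M3 hx (by unfold Nq; norm_num at hd ⊢; exact hd)
  have hx2 : v (x - (3 / 2)) = 1 := one_of_not_lt (Valuation.map_sub_le _ hO (by simpa using hT.le (3 / 2))) h
  clear h
  by_cases h : v (x - 2) < 1
  · right
    have hx : Nq v x 2 := by
      unfold Nq
      norm_num
      exact h
    have hd := two_pts hE hbq hcq hO (α := 2) (β := 2) (γ := 2)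
      (by norm_num; exact h) (by simpa using hT.le 2) (by norm_num) (by norm_num)
    rcases hd with hd | hd
    · exact P4 hx (by unfold Nq; norm_num at hd ⊢; exact hd)
    · exact P4 hx (by unfold Nq; norm_num at hd ⊢; exact hd)
  have hx3 : v (x - 2) = 1 := one_of_not_lt (Valuation.map_sub_le _ hO (by simpa using hT.le 2)) h
  clear h
  left
  have hy_0 : v (y) = 1 := by
    refine one_of_mul (B := y - (1 / 2) * x - 3) (C := (x) * (x) * (x - 3)) hy1
      (Valuation.map_sub_le _ (Valuation.map_sub_le _ hy1 (by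
      rw [map_mul]
      exact mul_le_one' (by simpa using hT.le (1 / 2)) hO)) (by simpa using hT.le 3)) (by linear_combination heq) ?_
    simp only [map_mul, hx0, hx1, mul_one]
  have hy_1 : v (y - (3 / 2) * x) = 1 := by
    refine one_of_mul (B := y + x - 3) (C := (x) * (x - 3) * (x - (3 / 2))) (Valuation.map_sub_le _ hy1 (by
      rw [map_mul]
      exact mul_le_one' (by simpa using hT.le (3 / 2)) hO))
      (Valuation.map_sub_le _ (Valuation.map_add_le _ hy1 hO) (by simpa using hT.le 3)) (by linear_combination heq) ?_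
    simp only [map_mul, hx0, hx1, hx2, mul_one]
  have hy_2 : v (y - x) = 1 := by
    refine one_of_mul (B := y + (1 / 2) * x - 3) (C := (x) * (x - (3 / 2)) * (x - 2)) (Valuation.map_sub_le _ hy1 hO)
      (Valuation.map_sub_le _ (Valuation.map_add_le _ hy1 (by
      rw [map_mul]
      exact mul_le_one' (by simpa using hT.le (1 / 2)) hO)) (by simpa using hT.le 3)) (by linear_combination heq) ?_
    simp only [map_mul, hx0, hx2, hx3, mul_one]
  intro z hz
  simp only [g8a, List.mem_cons, List.not_mem_nil, or_false] at hz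
  rcases hz with rfl | rfl | rfl | rfl | rfl | rfl | rfl | rfl | rfl
  · exact hx0
  · exact hx1
  · exact hx2
  · exact hx3
  · exact hy_0
  · exact hy_1
  · exact hy_2
  · simpa using hT 2 (by norm_num)
  · simpa using hT 3 (by norm_num)

end s8a

end Pool.Agent.FK4R
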