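import Pool.Agent.Lib_helper54.FAM.RC2

set_option autoImplicit false
set_option linter.unusedSectionVars false

/-!
The symbols of the constants, and the residues of explicit elements in general.
-/

namespace Pool.Agent.FK4R

open Pool.Agent.K4R Pool.Agent.KC72
open scoped WithZero TensorProduct

/-- the symbols of the constants, as multiples of the symbol of `3` -/
def tab23 : List (Mo × ℤ) :=
  [((false, []), 0),
   ((false, [1]), 0),
   ((true, []), 0),
   ((false, [-1]), 0),
   ((false, [0, 1]), 1),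
   ((true, [1]), -1),
   ((false, [0, -1]), -1),
   ((false, [1, -1]), 1),
   ((true, [-1]), 1),
   ((false, [-1, 1]), -1),
   ((false, [2]), -2),
   ((true, [0, 1]), 2),
   ((false, [-2]), 2),
   ((false, [-2, 1]), -2),
   ((true, [0, -1]), -2),
   ((false, [2, -1]), 2),
   ((false, [0, 2]), 6),
   ((true, [3]), -6),
   ((false, [0, -2]), -6),
   ((false, [3, -2]), 6),
   ((true, [-3]), 6),
   ((false, [-3, 2]), -6)]

section tab

variable {F : Type*} [Field F] [CharZero F] {v : Valuation F ℤᵐ⁰} [Infinite (rf v)]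

lemma sp_orb {z w : F} (h : z + w = 1) : sp v w = - sp v z := by
  have e : w = 1 - z := by linear_combination h
  rw [e, sp_compl]

lemma sp_four : sp v (4 : F) = (-2 : ℚ) • sp v 3 := by
  have h := zz_zero v (x := (2⁻¹ : F)) (y := 2) (by norm_num) (by norm_num) (by norm_num)
    (by norm_num)
  unfold zz at h
  have e1 : (2 : F) / 2⁻¹ = 4 := by norm_num
  have e2 : (1 - (2⁻¹ : F)⁻¹) / (1 - 2⁻¹) = -2 := by norm_num
  have e3 : (1 - (2⁻¹ : F)) / (1 - 2) = (-2)⁻¹ := by norm_num
  have h2 : sp v (-2 : F) = - sp v (3 : F) := sp_orb (by norm_num)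
  rw [e1, e2, e3, sp_inv, sp_inv, h2, sp_two] at h
  have h3 : sp v (4 : F) + (2 : ℚ) • sp v (3 : F) = 0 := by
    rw [← h]; module
  have h4 := eq_neg_of_add_eq_zero_left h3
  rw [h4]; module

lemma sp_nine : sp v (9 : F) = (6 : ℚ) • sp v 3 := by
  have h := zz_zero v (x := (-2⁻¹ : F)) (y := 3 / 2) (by norm_num) (by norm_num) (by norm_num)
    (by norm_num)
  unfold zz at h
  have e1 : (3 / 2 : F) / (-2⁻¹) = -3 := by norm_num
  have e2 : (1 - (-2⁻¹ : F)⁻¹) / (1 - (3 / 2)⁻¹) = 9 := by norm_num
  have e3 : (1 - (-2⁻¹ : F)) / (1 - 3 / 2) = -3 := by norm_num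
  have h2 : sp v (-2 : F) = - sp v (3 : F) := sp_orb (by norm_num)
  have h3 : sp v (-3 : F) = - sp v (4 : F) := sp_orb (by norm_num)
  have h4 : sp v (-2⁻¹ : F) = sp v (3 : F) := by
    have e : (-2⁻¹ : F) = (-2)⁻¹ := by norm_num
    rw [e, sp_inv, h2, neg_neg]
  have h5 : sp v (3 / 2 : F) = - sp v (3 : F) := by
    rw [← h4]
    exact sp_orb (by norm_num)
  rw [e1, e2, e3, h3, h4, h5, sp_four] at h
  have h6 : (6 : ℚ) • sp v (3 : F) - sp v (9 : F) = 0 := by
    rw [← h]; module
  exact (sub_eq_zero.mp h6).symm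

lemma sp_cases {z : F} {r : ℚ} (h : sp v z = r • sp v (3 : F)) (w : F) :
    (w = 1 - z → sp v w = (-r) • sp v (3 : F)) ∧ (w = z⁻¹ → sp v w = (-r) • sp v (3 : F)) ∧
      (w = 1 - z⁻¹ → sp v w = r • sp v (3 : F)) ∧ (w = (1 - z)⁻¹ → sp v w = r • sp v (3 : F)) ∧
      (w = 1 - (1 - z)⁻¹ → sp v w = (-r) • sp v (3 : F)) := by
  refine ⟨?_, ?_, ?_, ?_, ?_⟩ <;> rintro rfl
  · rw [sp_compl, h, neg_smul]
  · rw [sp_inv, h, neg_smul]
  · rw [sp_compl, sp_inv, h, neg_neg]
  · rw [sp_inv, sp_compl, h, neg_neg]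
  · rw [sp_compl, sp_inv, sp_compl, h, neg_neg, neg_smul]

theorem tab23_spec : ∀ p ∈ tab23, sp v (ev ([2, 3] : List F) p.1) = (p.2 : ℚ) • sp v (3 : F) := by
  have b2 : sp v (2 : F) = (0 : ℚ) • sp v (3 : F) := by rw [sp_two, zero_smul]
  have b3 : sp v (3 : F) = (1 : ℚ) • sp v (3 : F) := (one_smul _ _).symm
  have b4 := sp_four (v := v) (F := F)
  have b9 := sp_nine (v := v) (F := F)
  intro p hp
  simp only [tab23, List.mem_cons, List.not_mem_nil, or_false] at hp
  rcases hp with rfl | rfl | rfl | rfl | rfl | rfl | rfl | rfl | rfl | rfl | rfl | rfl |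
    rfl | rfl | rfl | rfl | rfl | rfl | rfl | rfl | rfl | rfl
  · have e : ev ([2, 3] : List F) (false, []) = 1 := by norm_num [ev, evl]
    simp only [e, sp_one, Int.cast_zero, zero_smul]
  · have e : ev ([2, 3] : List F) (false, [1]) = 2 := by norm_num [ev, evl]
    refine (congrArg (sp v) e).trans ?_
    have h : sp v (2 : F) = _ := b2
    rw [h]
    norm_num
  · have e : ev ([2, 3] : List F) (true, []) = -1 := by norm_num [ev, evl]
    refine (congrArg (sp v) e).trans ?_
    have h : sp v (-1 : F) = _ := (sp_cases b2 _).1 (by norm_num)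
    rw [h]
    norm_num
  · have e : ev ([2, 3] : List F) (false, [-1]) = 1 / 2 := by norm_num [ev, evl]
    refine (congrArg (sp v) e).trans ?_
    have h : sp v (1 / 2 : F) = _ := (sp_cases b2 _).2.1 (by norm_num)
    rw [h]
    norm_num
  · have e : ev ([2, 3] : List F) (false, [0, 1]) = 3 := by norm_num [ev, evl]
    refine (congrArg (sp v) e).trans ?_
    have h : sp v (3 : F) = _ := b3
    rw [h]
    norm_num
  · have e : ev ([2, 3] : List F) (true, [1]) = -2 := by norm_num [ev, evl]
    refine (congrArg (sp v) e).trans ?_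
    have h : sp v (-2 : F) = _ := (sp_cases b3 _).1 (by norm_num)
    rw [h]
    norm_num
  · have e : ev ([2, 3] : List F) (false, [0, -1]) = 1 / 3 := by norm_num [ev, evl]
    refine (congrArg (sp v) e).trans ?_
    have h : sp v (1 / 3 : F) = _ := (sp_cases b3 _).2.1 (by norm_num)
    rw [h]
    norm_num
  · have e : ev ([2, 3] : List F) (false, [1, -1]) = 2 / 3 := by norm_num [ev, evl]
    refine (congrArg (sp v) e).trans ?_
    have h : sp v (2 / 3 : F) = _ := (sp_cases b3 _).2.2.1 (by norm_num)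
    rw [h]
    norm_num
  · have e : ev ([2, 3] : List F) (true, [-1]) = -1 / 2 := by norm_num [ev, evl]
    refine (congrArg (sp v) e).trans ?_
    have h : sp v (-1 / 2 : F) = _ := (sp_cases b3 _).2.2.2.1 (by norm_num)
    rw [h]
    norm_num
  · have e : ev ([2, 3] : List F) (false, [-1, 1]) = 3 / 2 := by norm_num [ev, evl]
    refine (congrArg (sp v) e).trans ?_
    have h : sp v (3 / 2 : F) = _ := (sp_cases b3 _).2.2.2.2 (by norm_num)
    rw [h]
    norm_num
  · have e : ev ([2, 3] : List F) (false, [2]) = 4 := by norm_num [ev, evl]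
    refine (congrArg (sp v) e).trans ?_
    have h : sp v (4 : F) = _ := b4
    rw [h]
    norm_num
  · have e : ev ([2, 3] : List F) (true, [0, 1]) = -3 := by norm_num [ev, evl]
    refine (congrArg (sp v) e).trans ?_
    have h : sp v (-3 : F) = _ := (sp_cases b4 _).1 (by norm_num)
    rw [h]
    norm_num
  · have e : ev ([2, 3] : List F) (false, [-2]) = 1 / 4 := by norm_num [ev, evl]
    refine (congrArg (sp v) e).trans ?_
    have h : sp v (1 / 4 : F) = _ := (sp_cases b4 _).2.1 (by norm_num)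
    rw [h]
    norm_num
  · have e : ev ([2, 3] : List F) (false, [-2, 1]) = 3 / 4 := by norm_num [ev, evl]
    refine (congrArg (sp v) e).trans ?_
    have h : sp v (3 / 4 : F) = _ := (sp_cases b4 _).2.2.1 (by norm_num)
    rw [h]
    norm_num
  · have e : ev ([2, 3] : List F) (true, [0, -1]) = -1 / 3 := by norm_num [ev, evl]
    refine (congrArg (sp v) e).trans ?_
    have h : sp v (-1 / 3 : F) = _ := (sp_cases b4 _).2.2.2.1 (by norm_num)
    rw [h]
    norm_num
  · have e : ev ([2, 3] : List F) (false, [2, -1]) = 4 / 3 := by norm_num [ev, evl]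
    refine (congrArg (sp v) e).trans ?_
    have h : sp v (4 / 3 : F) = _ := (sp_cases b4 _).2.2.2.2 (by norm_num)
    rw [h]
    norm_num
  · have e : ev ([2, 3] : List F) (false, [0, 2]) = 9 := by norm_num [ev, evl]
    refine (congrArg (sp v) e).trans ?_
    have h : sp v (9 : F) = _ := b9
    rw [h]
    norm_num
  · have e : ev ([2, 3] : List F) (true, [3]) = -8 := by norm_num [ev, evl]
    refine (congrArg (sp v) e).trans ?_
    have h : sp v (-8 : F) = _ := (sp_cases b9 _).1 (by norm_num)
    rw [h]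
    norm_num
  · have e : ev ([2, 3] : List F) (false, [0, -2]) = 1 / 9 := by norm_num [ev, evl]
    refine (congrArg (sp v) e).trans ?_
    have h : sp v (1 / 9 : F) = _ := (sp_cases b9 _).2.1 (by norm_num)
    rw [h]
    norm_num
  · have e : ev ([2, 3] : List F) (false, [3, -2]) = 8 / 9 := by norm_num [ev, evl]
    refine (congrArg (sp v) e).trans ?_
    have h : sp v (8 / 9 : F) = _ := (sp_cases b9 _).2.2.1 (by norm_num)
    rw [h]
    norm_num
  · have e : ev ([2, 3] : List F) (true, [-3]) = -1 / 8 := by norm_num [ev, evl]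
    refine (congrArg (sp v) e).trans ?_
    have h : sp v (-1 / 8 : F) = _ := (sp_cases b9 _).2.2.2.1 (by norm_num)
    rw [h]
    norm_num
  · have e : ev ([2, 3] : List F) (false, [-3, 2]) = 9 / 8 := by norm_num [ev, evl]
    refine (congrArg (sp v) e).trans ?_
    have h : sp v (9 / 8 : F) = _ := (sp_cases b9 _).2.2.2.2 (by norm_num)
    rw [h]
    norm_num

end tab

section final

variable {k : Type*} [Field k] [CharZero k] {F : Type*} [Field F] [Algebra k F]

lemma tq_of {v : Valuation F ℤᵐ⁰} (hv : ∀ c : k, c ≠ 0 → v (algebraMap k F c) = 1)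
    [CharZero F] : Tq v := by
  intro q hq
  have h := hv (q : k) (by exact_mod_cast hq)
  rwa [map_ratCast] at h

/-- the general form -/
theorem unram_of {g : List F} {locs : List (List (ℤ × Mo))}
    (hpl : ∀ (_ : CharZero F) (v : Valuation F ℤᵐ⁰), Tq v → (∀ z ∈ g, v z = 1) ∨
      ∃ loc ∈ locs, ∃ t : F, t ≠ 0 ∧ v t ≠ 1 ∧ Loc v [2, 3] t g loc)
    {cls : List (Mo × Mo)} {L : List Tm} (hc : chkRes locs tab23 cls L = true) :
    FK4.Unram k (zt g cls L) := by
  intro v hv
  have : CharZero F := charZero_of_injective_algebraMap (algebraMap k F).injective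
  have : Infinite (rf v) := infinite_RF hv
  have hT : Tq v := tq_of hv
  rcases hpl inferInstance v hT with h | ⟨loc, hloc, t, ht0, ht, h⟩
  · exact noRes_zt_unit h
  · refine noRes_zt (gc := [2, 3]) ?_ ht ht0 h tab23_spec ?_
    · intro x hx
      simp only [List.mem_cons, List.not_mem_nil, or_false] at hx
      rcases hx with rfl | rfl
      · simpa using hT 2 (by norm_num)
      · simpa using hT 3 (by norm_num)
    · exact of_decide_eq_true (List.all_eq_true.mp hc loc hloc)

end final

end Pool.Agent.FK4R
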