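import Pool.Agent.Lib_helper54.FAM.Pl7
import Pool.Agent.Lib_helper54.FAM.Pl8a
import Pool.Agent.Lib_helper54.FAM.Pl8b
import Pool.Agent.Lib_helper54.FAM.RC3a

set_option autoImplicit false
set_option linter.unusedSectionVars false

/-!
The residues of the explicit elements on the special curves with a point of order seven or eight.
-/

namespace Pool.Agent.FK4R

open Pool.Agent.K4R Pool.Agent.KC72
open scoped WithZero TensorProduct

section final

variable {k : Type*} [Field k] [CharZero k] {F : Type*} [Field F] [Algebra k F]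

/-- **Order seven** (`b = 4`, `c = 2`). -/
theorem unram7 {x y : F} (heq : y ^ 2 - x * y - 4 * y = x ^ 3 - 4 * x ^ 2)
    (hne : ∀ z ∈ g7 x y, z ≠ 0) {cls : List (Mo × Mo)} {L : List Tm}
    (hc : chkRes locs7 tab23 cls L = true) : FK4.Unram k (zt (g7 x y) cls L) :=
  unram_of (fun _ _ hT => places7 hT heq hne) hc

/-- **Order eight** (`b = 3`, `c = 3/2`). -/
theorem unram8a {x y : F} (heq : y ^ 2 - 1 / 2 * x * y - 3 * y = x ^ 3 - 3 * x ^ 2)
    (hne : ∀ z ∈ g8a x y, z ≠ 0) {cls : List (Mo × Mo)} {L : List Tm}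
    (hc : chkRes locs8a tab23 cls L = true) : FK4.Unram k (zt (g8a x y) cls L) :=
  unram_of (fun _ _ hT => places8a hT (by linear_combination heq) hne) hc

/-- **Order eight** (`b = 2/9`, `c = 2/3`). -/
theorem unram8b {x y : F} (heq : y ^ 2 + 1 / 3 * x * y - 2 / 9 * y = x ^ 3 - 2 / 9 * x ^ 2)
    (hne : ∀ z ∈ g8b x y, z ≠ 0) {cls : List (Mo × Mo)} {L : List Tm}
    (hc : chkRes locs8b tab23 cls L = true) : FK4.Unram k (zt (g8b x y) cls L) :=
  unram_of (fun _ _ hT => places8b hT (by linear_combination heq) hne) hc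

/-- the generators do not vanish at a generic point -/
lemma g7_ne {b c : k} {x y : F} (h : TN.Gen b c x y) : ∀ z ∈ g7 x y, z ≠ 0 := by
  intro z hz
  simp only [g7, List.mem_cons, List.not_mem_nil, or_false] at hz
  have a := fun q : ℚ => h.xc_ne (q : k)
  have b := fun q : ℚ => h.yab_ne (q : k) 0
  simp only [map_ratCast, map_zero, add_zero] at a b
  rcases hz with rfl | rfl | rfl | rfl | rfl | rfl | rfl
  · exact h.x_ne
  · simpa using a 4
  · simpa using a 2
  · exact h.y_ne
  · simpa [sub_eq_add_neg] using b (-2)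
  · simpa [sub_eq_add_neg] using b (-1)
  · have : CharZero F := charZero_of_injective_algebraMap (algebraMap k F).injective
    norm_num

lemma g8a_ne {b c : k} {x y : F} (h : TN.Gen b c x y) : ∀ z ∈ g8a x y, z ≠ 0 := by
  intro z hz
  simp only [g8a, List.mem_cons, List.not_mem_nil, or_false] at hz
  have a := fun q : ℚ => h.xc_ne (q : k)
  have b := fun q : ℚ => h.yab_ne (q : k) 0
  simp only [map_ratCast, map_zero, add_zero] at a b
  have : CharZero F := charZero_of_injective_algebraMap (algebraMap k F).injective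
  rcases hz with rfl | rfl | rfl | rfl | rfl | rfl | rfl | rfl | rfl
  · exact h.x_ne
  · simpa using a 3
  · simpa using a (3 / 2)
  · simpa using a 2
  · exact h.y_ne
  · simpa [sub_eq_add_neg] using b (-(3 / 2))
  · simpa [sub_eq_add_neg] using b (-1)
  · norm_num
  · norm_num

lemma g8b_ne {b c : k} {x y : F} (h : TN.Gen b c x y) : ∀ z ∈ g8b x y, z ≠ 0 := by
  intro z hz
  simp only [g8b, List.mem_cons, List.not_mem_nil, or_false] at hz
  have a := fun q : ℚ => h.xc_ne (q : k)
  have b := fun q : ℚ => h.yab_ne (q : k) 0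
  simp only [map_ratCast, map_zero, add_zero] at a b
  have : CharZero F := charZero_of_injective_algebraMap (algebraMap k F).injective
  rcases hz with rfl | rfl | rfl | rfl | rfl | rfl | rfl | rfl | rfl
  · exact h.x_ne
  · simpa using a (2 / 9)
  · simpa using a (2 / 3)
  · simpa using a (-(2 / 9))
  · exact h.y_ne
  · simpa [sub_eq_add_neg] using b (-(2 / 3))
  · simpa using b (2 / 3)
  · norm_num
  · norm_num

end final

end Pool.Agent.FK4R
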