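import Pool.Agent.Lib_helper24.FAM.LK
import Pool.Agent.Lib_helper2.K4N.Q7X
import Pool.Agent.Lib_helper54.FAM.RC3

set_option autoImplicit false
set_option linter.unusedSectionVars false
set_option linter.unusedVariables false
set_option linter.unusedSimpArgs false
set_option maxRecDepth 100000

/-!
# The second special curve with a point of order eight: the units at the translates
-/

open scoped TensorProduct

namespace Pool.Agent.FK4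

open Pool.Agent.MK4 Pool.Agent.TN Pool.Agent.KC72

section tup

variable {F : Type*} [Field F] {x y A B C H D E G : F}

/-- the seven units at a point of the curve -/
structure Q8b (x y A B C H D E G : F) : Prop where
  hA : x = A
  hB : x - (2 / 9) = B
  hC : x - (2 / 3) = C
  hH : x + (2 / 9) = H
  hD : y = D
  hE : y - (2 / 3) * x = E
  hG : y + (2 / 3) * x = G
  A0 : A ≠ 0
  B0 : B ≠ 0
  C0 : C ≠ 0
  H0 : H ≠ 0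
  D0 : D ≠ 0
  E0 : E ≠ 0
  G0 : G ≠ 0
  eq : y ^ 2 + (1 / 3) * x * y - (2 / 9) * y = x ^ 3 - (2 / 9) * x ^ 2

lemma Q8b.congr {A' B' C' H' D' E' G' : F} (h : Q8b x y A B C H D E G) (a : A = A') (b : B = B')
    (c : C = C') (e : H = H') (d : D = D') (f : E = E') (g : G = G') :
    Q8b x y A' B' C' H' D' E' G' := by
  subst a b c d e f g
  exact h

/-- translation by `P` -/
lemma Q8b.step [CharZero F] {p : F × F} (h : Q8b p.1 p.2 A B C H D E G) :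
    Q8b (K4N.Tn ((2 / 9) : F) p).1 (K4N.Tn ((2 / 9) : F) p).2
      (2 * D / (9 * A ^ 2)) (-(2 * D * E) / (9 * A ^ 2 * B))
      (-(2 * E * G) / (3 * A ^ 2 * C)) (2 * G ^ 2 / (9 * A ^ 2 * H))
      (4 * D * E / (81 * A ^ 3 * B)) (-(4 * D * E * G) / (27 * A ^ 3 * B * C))
      (4 * E * G ^ 2 / (27 * A ^ 3 * C * H)) := by
  obtain ⟨x, y⟩ := p
  obtain ⟨hA, hB, hC, hH, hD, hE, hG, A0, B0, C0, H0, D0, E0, G0, he⟩ := h
  dsimp only at hA hB hC hH hD hE hG he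
  subst hA hB hC hH hD hE hG
  have p2 : (2 : F) ≠ 0 := two_ne_zero
  have p3 : (3 : F) ≠ 0 := three_ne_zero
  have x2 : x ^ 2 ≠ 0 := pow_ne_zero 2 A0
  have x3 : x ^ 3 ≠ 0 := pow_ne_zero 3 A0
  have d0 : 9 * x ^ 2 ≠ 0 := by
    exact (mul_ne_zero (by norm_num : (9 : F) ≠ 0) (pow_ne_zero 2 A0))
  have d1 : 9 * x ^ 2 * (x - (2 / 9)) ≠ 0 := by
    exact (mul_ne_zero (mul_ne_zero (by norm_num : (9 : F) ≠ 0) (pow_ne_zero 2 A0)) B0)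
  have d2 : 3 * x ^ 2 * (x - (2 / 3)) ≠ 0 := by
    exact (mul_ne_zero (mul_ne_zero (by norm_num : (3 : F) ≠ 0) (pow_ne_zero 2 A0)) C0)
  have d3 : 9 * x ^ 2 * (x + (2 / 9)) ≠ 0 := by
    exact (mul_ne_zero (mul_ne_zero (by norm_num : (9 : F) ≠ 0) (pow_ne_zero 2 A0)) H0)
  have d4 : 81 * x ^ 3 * (x - (2 / 9)) ≠ 0 := by
    exact (mul_ne_zero (mul_ne_zero (by norm_num : (81 : F) ≠ 0) (pow_ne_zero 3 A0)) B0)
  have d5 : 27 * x ^ 3 * (x - (2 / 9)) * (x - (2 / 3)) ≠ 0 := by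
    exact (mul_ne_zero (mul_ne_zero (mul_ne_zero (by norm_num : (27 : F) ≠ 0) (pow_ne_zero 3 A0)) B0) C0)
  have d6 : 27 * x ^ 3 * (x - (2 / 3)) * (x + (2 / 9)) ≠ 0 := by
    exact (mul_ne_zero (mul_ne_zero (mul_ne_zero (by norm_num : (27 : F) ≠ 0) (pow_ne_zero 3 A0)) C0) H0)
  refine ⟨?_, ?_, ?_, ?_, ?_, ?_, ?_, ?_, ?_, ?_, ?_, ?_, ?_, ?_, ?_⟩
  · show (2 / 9) * y / x ^ 2 = 2 * y / (9 * x ^ 2)
    have e : (2 / 9) * y / x ^ 2 = ((2 / 9) * y) / x ^ 2 := by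
      field_simp
    rw [e, div_eq_div_iff x2 d0]
    linear_combination (0) * he
  · show (2 / 9) * y / x ^ 2 - (2 / 9) = -(2 * y * (y - (2 / 3) * x)) / (9 * x ^ 2 * (x - (2 / 9)))
    have e : (2 / 9) * y / x ^ 2 - (2 / 9) = ((2 / 9) * y - (2 / 9) * x ^ 2) / x ^ 2 := by
      field_simp
    rw [e, div_eq_div_iff x2 d1]
    linear_combination (2 * x ^ 2) * he
  · show (2 / 9) * y / x ^ 2 - (2 / 3) = -(2 * (y - (2 / 3) * x) * (y + (2 / 3) * x)) / (3 * x ^ 2 * (x - (2 / 3)))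
    have e : (2 / 9) * y / x ^ 2 - (2 / 3) = ((2 / 9) * y - (2 / 3) * x ^ 2) / x ^ 2 := by
      field_simp
    rw [e, div_eq_div_iff x2 d2]
    linear_combination (2 * x ^ 2) * he
  · show (2 / 9) * y / x ^ 2 + (2 / 9) = 2 * (y + (2 / 3) * x) ^ 2 / (9 * x ^ 2 * (x + (2 / 9)))
    have e : (2 / 9) * y / x ^ 2 + (2 / 9) = ((2 / 9) * y + (2 / 9) * x ^ 2) / x ^ 2 := by
      field_simp
    rw [e, div_eq_div_iff x2 d3]
    linear_combination ((-2) * x ^ 2) * he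
  · show (2 / 9) ^ 2 * (x ^ 2 - y) / x ^ 3 = 4 * y * (y - (2 / 3) * x) / (81 * x ^ 3 * (x - (2 / 9)))
    have e : (2 / 9) ^ 2 * (x ^ 2 - y) / x ^ 3 = ((2 / 9) ^ 2 * (x ^ 2 - y)) / x ^ 3 := by
      field_simp
    rw [e, div_eq_div_iff x3 d4]
    linear_combination ((-4) * x ^ 3) * he
  · show (2 / 9) ^ 2 * (x ^ 2 - y) / x ^ 3 - (2 / 3) * ((2 / 9) * y / x ^ 2) = -(4 * y * (y - (2 / 3) * x) * (y + (2 / 3) * x)) / (27 * x ^ 3 * (x - (2 / 9)) * (x - (2 / 3)))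
    have e : (2 / 9) ^ 2 * (x ^ 2 - y) / x ^ 3 - (2 / 3) * ((2 / 9) * y / x ^ 2) = ((2 / 9) ^ 2 * (x ^ 2 - y) - (2 / 3) * (2 / 9) * x * y) / x ^ 3 := by
      field_simp
    rw [e, div_eq_div_iff x3 d5]
    linear_combination ((8 / 9) * x ^ 3 + 4 * x ^ 3 * y + (-4 / 3) * x ^ 4) * he
  · show (2 / 9) ^ 2 * (x ^ 2 - y) / x ^ 3 + (2 / 3) * ((2 / 9) * y / x ^ 2) = 4 * (y - (2 / 3) * x) * (y + (2 / 3) * x) ^ 2 / (27 * x ^ 3 * (x - (2 / 3)) * (x + (2 / 9)))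
    have e : (2 / 9) ^ 2 * (x ^ 2 - y) / x ^ 3 + (2 / 3) * ((2 / 9) * y / x ^ 2) = ((2 / 9) ^ 2 * (x ^ 2 - y) + (2 / 3) * (2 / 9) * x * y) / x ^ 3 := by
      field_simp
    rw [e, div_eq_div_iff x3 d6]
    linear_combination ((-8 / 9) * x ^ 3 + (-4) * x ^ 3 * y + (-4 / 3) * x ^ 4) * he
  · exact div_ne_zero (mul_ne_zero (by norm_num : (2 : F) ≠ 0) D0) d0
  · exact div_ne_zero (neg_ne_zero.mpr (mul_ne_zero (mul_ne_zero (by norm_num : (2 : F) ≠ 0) D0) E0)) d1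
  · exact div_ne_zero (neg_ne_zero.mpr (mul_ne_zero (mul_ne_zero (by norm_num : (2 : F) ≠ 0) E0) G0)) d2
  · exact div_ne_zero (mul_ne_zero (by norm_num : (2 : F) ≠ 0) (pow_ne_zero 2 G0)) d3
  · exact div_ne_zero (mul_ne_zero (mul_ne_zero (by norm_num : (4 : F) ≠ 0) D0) E0) d4
  · exact div_ne_zero (neg_ne_zero.mpr (mul_ne_zero (mul_ne_zero (mul_ne_zero (by norm_num : (4 : F) ≠ 0) D0) E0) G0)) d5
  · exact div_ne_zero (mul_ne_zero (mul_ne_zero (by norm_num : (4 : F) ≠ 0) E0) (pow_ne_zero 2 G0)) d6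
  · show ((2 / 9) ^ 2 * (x ^ 2 - y) / x ^ 3) ^ 2 + (1 / 3) * ((2 / 9) * y / x ^ 2) * ((2 / 9) ^ 2 * (x ^ 2 - y) / x ^ 3) - (2 / 9) * ((2 / 9) ^ 2 * (x ^ 2 - y) / x ^ 3) = ((2 / 9) * y / x ^ 2) ^ 3 - (2 / 9) * ((2 / 9) * y / x ^ 2) ^ 2
    have e1 : ((2 / 9) ^ 2 * (x ^ 2 - y) / x ^ 3) ^ 2 + (1 / 3) * ((2 / 9) * y / x ^ 2) * ((2 / 9) ^ 2 * (x ^ 2 - y) / x ^ 3) - (2 / 9) * ((2 / 9) ^ 2 * (x ^ 2 - y) / x ^ 3) = (((2 / 9) ^ 2 * (x ^ 2 - y)) ^ 2 + (1 / 3) * ((2 / 9) * y * x * ((2 / 9) ^ 2 * (x ^ 2 - y))) - (2 / 9) * (x ^ 3 * ((2 / 9) ^ 2 * (x ^ 2 - y)))) / x ^ 6 := by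
      field_simp
    have e2 : ((2 / 9) * y / x ^ 2) ^ 3 - (2 / 9) * ((2 / 9) * y / x ^ 2) ^ 2 = (((2 / 9) * y) ^ 3 - (2 / 9) * (x ^ 2 * ((2 / 9) * y) ^ 2)) / x ^ 6 := by
      field_simp
    rw [e1, e2]
    congr 1
    linear_combination ((-8 / 729) * y + (8 / 729) * x ^ 2) * he

/-- the units at the translates -/
lemma Q8b.all [CharZero F] (h : Q8b x y A B C H D E G) :
    Q8b (K4N.It ((2 / 9) : F) 0 (x, y)).1 (K4N.It ((2 / 9) : F) 0 (x, y)).2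
      (A) (B) (C)
      (H) (D) (E)
      (G) ∧
    Q8b (K4N.It ((2 / 9) : F) 1 (x, y)).1 (K4N.It ((2 / 9) : F) 1 (x, y)).2
      (2 * D / (9 * A ^ 2)) (-(2 * D * E) / (9 * A ^ 2 * B)) (-(2 * E * G) / (3 * A ^ 2 * C))
      (2 * G ^ 2 / (9 * A ^ 2 * H)) (4 * D * E / (81 * A ^ 3 * B)) (-(4 * D * E * G) / (27 * A ^ 3 * B * C))
      (4 * E * G ^ 2 / (27 * A ^ 3 * C * H)) ∧
    Q8b (K4N.It ((2 / 9) : F) 2 (x, y)).1 (K4N.It ((2 / 9) : F) 2 (x, y)).2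
      (2 * A * E / (9 * B * D)) (-(4 * E * G) / (27 * B * C * D)) (-(4 * E * G ^ 2) / (9 * B * C * H * D))
      (4 * E ^ 2 * G ^ 2 / (9 * C ^ 2 * H * D ^ 2)) (4 * A ^ 2 * E * G / (27 * B * C * D ^ 2)) (8 * A * E * G ^ 2 / (81 * B * C * H * D ^ 2))
      (8 * A * E ^ 2 * G ^ 2 / (27 * B * C ^ 2 * H * D ^ 2)) ∧
    Q8b (K4N.It ((2 / 9) : F) 3 (x, y)).1 (K4N.It ((2 / 9) : F) 3 (x, y)).2
      (2 * B * G / (3 * C * E)) (4 * A * B * G ^ 2 / (9 * C * H * D * E)) (8 * B * G ^ 2 / (9 * C ^ 2 * H * D))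
      (8 * G ^ 2 / (9 * C ^ 2 * H)) (-(4 * B ^ 2 * G ^ 2) / (9 * C * H * E ^ 2)) (-(8 * A * B ^ 2 * G ^ 2) / (9 * C ^ 2 * H * D * E))
      (-(16 * B * G ^ 2) / (27 * C ^ 2 * H * E)) ∧
    Q8b (K4N.It ((2 / 9) : F) 4 (x, y)).1 (K4N.It ((2 / 9) : F) 4 (x, y)).2
      (-(2 * C) / (9 * H)) (-(4 * B) / (9 * H)) (-(8 * A) / (9 * H))
      (16 / (81 * H)) (4 * C * E / (27 * H * G)) (8 * C * D / (27 * H * G))
      (-(16 * A * C) / (81 * H * G)) ∧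
    Q8b (K4N.It ((2 / 9) : F) 5 (x, y)).1 (K4N.It ((2 / 9) : F) 5 (x, y)).2
      (2 * H * E / (3 * C * G)) (4 * H * D * E / (9 * B * G ^ 2)) (-(8 * H * D) / (9 * G ^ 2))
      (8 * A ^ 2 * H / (9 * G ^ 2)) (4 * H ^ 2 * D * E / (9 * B * C * G ^ 2)) (-(8 * H ^ 2 * D * E) / (27 * B * G ^ 3))
      (8 * A * H ^ 2 * D / (9 * G ^ 3)) ∧
    Q8b (K4N.It ((2 / 9) : F) 6 (x, y)).1 (K4N.It ((2 / 9) : F) 6 (x, y)).2
      (2 * C * D / (9 * B * E)) (4 * C * H * D / (27 * B * E * G)) (-(4 * A * C ^ 2 * H * D) / (9 * B * E * G ^ 2))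
      (4 * C ^ 2 * H * D ^ 2 / (9 * E ^ 2 * G ^ 2)) (-(4 * C ^ 2 * D) / (81 * B * E ^ 2)) (-(4 * A * C ^ 2 * H * D) / (27 * B * E ^ 2 * G))
      (4 * C ^ 3 * H * D ^ 2 / (27 * B * E ^ 2 * G ^ 2)) ∧
    Q8b (K4N.It ((2 / 9) : F) 7 (x, y)).1 (K4N.It ((2 / 9) : F) 7 (x, y)).2
      (-(2 * B) / (9 * D)) (-(2 * A * B * C) / (9 * D * E)) (-(2 * B * C * H) / (3 * E * G))
      (2 * C ^ 2 * H / (9 * G ^ 2)) (2 * A * B ^ 2 / (9 * D ^ 2)) (2 * B ^ 2 * C / (9 * D * E))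
      (2 * B * C * H / (9 * D * G)) := by
  have A0 := h.A0
  have B0 := h.B0
  have C0 := h.C0
  have H0 := h.H0
  have D0 := h.D0
  have E0 := h.E0
  have G0 := h.G0
  have h0 : Q8b (K4N.It ((2 / 9) : F) 0 (x, y)).1 (K4N.It ((2 / 9) : F) 0 (x, y)).2 A B C H D E G := h
  have h1 :
    Q8b (K4N.It ((2 / 9) : F) 1 (x, y)).1 (K4N.It ((2 / 9) : F) 1 (x, y)).2
      (2 * D / (9 * A ^ 2)) (-(2 * D * E) / (9 * A ^ 2 * B)) (-(2 * E * G) / (3 * A ^ 2 * C))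
      (2 * G ^ 2 / (9 * A ^ 2 * H)) (4 * D * E / (81 * A ^ 3 * B)) (-(4 * D * E * G) / (27 * A ^ 3 * B * C))
      (4 * E * G ^ 2 / (27 * A ^ 3 * C * H)) := by
    rw [K4N.It_succ]
    refine h0.step.congr ?_ ?_ ?_ ?_ ?_ ?_ ?_ <;> (field_simp; try ring)
  have h2 :
    Q8b (K4N.It ((2 / 9) : F) 2 (x, y)).1 (K4N.It ((2 / 9) : F) 2 (x, y)).2
      (2 * A * E / (9 * B * D)) (-(4 * E * G) / (27 * B * C * D)) (-(4 * E * G ^ 2) / (9 * B * C * H * D))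
      (4 * E ^ 2 * G ^ 2 / (9 * C ^ 2 * H * D ^ 2)) (4 * A ^ 2 * E * G / (27 * B * C * D ^ 2)) (8 * A * E * G ^ 2 / (81 * B * C * H * D ^ 2))
      (8 * A * E ^ 2 * G ^ 2 / (27 * B * C ^ 2 * H * D ^ 2)) := by
    rw [K4N.It_succ]
    refine h1.step.congr ?_ ?_ ?_ ?_ ?_ ?_ ?_ <;> (field_simp; try ring)
  have h3 :
    Q8b (K4N.It ((2 / 9) : F) 3 (x, y)).1 (K4N.It ((2 / 9) : F) 3 (x, y)).2
      (2 * B * G / (3 * C * E)) (4 * A * B * G ^ 2 / (9 * C * H * D * E)) (8 * B * G ^ 2 / (9 * C ^ 2 * H * D))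
      (8 * G ^ 2 / (9 * C ^ 2 * H)) (-(4 * B ^ 2 * G ^ 2) / (9 * C * H * E ^ 2)) (-(8 * A * B ^ 2 * G ^ 2) / (9 * C ^ 2 * H * D * E))
      (-(16 * B * G ^ 2) / (27 * C ^ 2 * H * E)) := by
    rw [K4N.It_succ]
    refine h2.step.congr ?_ ?_ ?_ ?_ ?_ ?_ ?_ <;> (field_simp; try ring)
  have h4 :
    Q8b (K4N.It ((2 / 9) : F) 4 (x, y)).1 (K4N.It ((2 / 9) : F) 4 (x, y)).2
      (-(2 * C) / (9 * H)) (-(4 * B) / (9 * H)) (-(8 * A) / (9 * H))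
      (16 / (81 * H)) (4 * C * E / (27 * H * G)) (8 * C * D / (27 * H * G))
      (-(16 * A * C) / (81 * H * G)) := by
    rw [K4N.It_succ]
    refine h3.step.congr ?_ ?_ ?_ ?_ ?_ ?_ ?_ <;> (field_simp; try ring)
  have h5 :
    Q8b (K4N.It ((2 / 9) : F) 5 (x, y)).1 (K4N.It ((2 / 9) : F) 5 (x, y)).2
      (2 * H * E / (3 * C * G)) (4 * H * D * E / (9 * B * G ^ 2)) (-(8 * H * D) / (9 * G ^ 2))
      (8 * A ^ 2 * H / (9 * G ^ 2)) (4 * H ^ 2 * D * E / (9 * B * C * G ^ 2)) (-(8 * H ^ 2 * D * E) / (27 * B * G ^ 3))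
      (8 * A * H ^ 2 * D / (9 * G ^ 3)) := by
    rw [K4N.It_succ]
    refine h4.step.congr ?_ ?_ ?_ ?_ ?_ ?_ ?_ <;> (field_simp; try ring)
  have h6 :
    Q8b (K4N.It ((2 / 9) : F) 6 (x, y)).1 (K4N.It ((2 / 9) : F) 6 (x, y)).2
      (2 * C * D / (9 * B * E)) (4 * C * H * D / (27 * B * E * G)) (-(4 * A * C ^ 2 * H * D) / (9 * B * E * G ^ 2))
      (4 * C ^ 2 * H * D ^ 2 / (9 * E ^ 2 * G ^ 2)) (-(4 * C ^ 2 * D) / (81 * B * E ^ 2)) (-(4 * A * C ^ 2 * H * D) / (27 * B * E ^ 2 * G))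
      (4 * C ^ 3 * H * D ^ 2 / (27 * B * E ^ 2 * G ^ 2)) := by
    rw [K4N.It_succ]
    refine h5.step.congr ?_ ?_ ?_ ?_ ?_ ?_ ?_ <;> (field_simp; try ring)
  have h7 :
    Q8b (K4N.It ((2 / 9) : F) 7 (x, y)).1 (K4N.It ((2 / 9) : F) 7 (x, y)).2
      (-(2 * B) / (9 * D)) (-(2 * A * B * C) / (9 * D * E)) (-(2 * B * C * H) / (3 * E * G))
      (2 * C ^ 2 * H / (9 * G ^ 2)) (2 * A * B ^ 2 / (9 * D ^ 2)) (2 * B ^ 2 * C / (9 * D * E))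
      (2 * B * C * H / (9 * D * G)) := by
    rw [K4N.It_succ]
    refine h6.step.congr ?_ ?_ ?_ ?_ ?_ ?_ ?_ <;> (field_simp; try ring)
  exact ⟨h0, h1, h2, h3, h4, h5, h6, h7⟩

end tup

end Pool.Agent.FK4
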