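import Pool.Agent.Lib_helper54.FAM.L8b
import Pool.Agent.Lib_helper54.FAM.T8b
import Pool.Agent.Lib_helper2.K4N.Q8BX

set_option autoImplicit false
set_option linter.unusedSectionVars false
set_option linter.unusedVariables false
set_option linter.unusedSimpArgs false
set_option maxRecDepth 100000

/-!
# The second special curve with a point of order eight: the explicit class as monomials
-/

open scoped TensorProduct

namespace Pool.Agent.FK4

open Pool.Agent.MK4 Pool.Agent.TN Pool.Agent.KC72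

section eq

variable {F : Type*} [Field F] {x y A B C H D E G : F}

lemma hkc8b {f f' u u' : F} (h : f = f') (h' : u = u') :
    hk (sy f) (lg u) = hk (sy f') (lg u') := by
  rw [h, h']

lemma hkc8b' {f f' u u' : F} (h : f = f') (h' : u = -u') :
    hk (sy f) (lg u) = hk (sy f') (lg u') := by
  rw [h, h', TN.lgneg]

lemma Q8b.tm [CharZero F] (h : Q8b x y A B C H D E G) : K4N.term8b x y =
    hk (sy (E * G ^ 2 / (2 * A * C * H * D))) (lg (C ^ 2 * D ^ 2 / (2 * A ^ 2 * E ^ 2))⁻¹) +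
      hk (sy (E * G / (A * B * C))) (lg ((C ^ 2 * D ^ 2 / (2 * A ^ 2 * E ^ 2)) ^ 4)) +
      hk (sy (E * G / (A * B * C))) (lg (9 * C ^ 2 * H ^ 2 / (8 * G ^ 2))⁻¹) +
      hk (sy (C ^ 2 * H * D / (2 * E * G ^ 2))) (lg (E ^ 2 / (2 * D ^ 2))) +
      hk (sy (A * C * H / (E * G))) (lg ((E ^ 2 / (2 * D ^ 2)) ^ 4)⁻¹) +
      hk (sy (A * C * H / (E * G))) (lg (9 * G ^ 2 / (8 * A ^ 2))) := by
  have A0 := h.A0
  have B0 := h.B0
  have C0 := h.C0
  have H0 := h.H0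
  have D0 := h.D0
  have E0 := h.E0
  have G0 := h.G0
  have p2 : (2 : F) ≠ 0 := two_ne_zero
  have n1 : C ^ 2 * D ^ 2 / (2 * A ^ 2 * E ^ 2) ≠ 0 :=
    div_ne_zero (mul_ne_zero (pow_ne_zero 2 C0) (pow_ne_zero 2 D0))
      (mul_ne_zero (mul_ne_zero p2 (pow_ne_zero 2 A0)) (pow_ne_zero 2 E0))
  have n2 : E ^ 2 / (2 * D ^ 2) ≠ 0 :=
    div_ne_zero (pow_ne_zero 2 E0) (mul_ne_zero p2 (pow_ne_zero 2 D0))
  rw [TN.lginv, TN.lginv, TN.lginv, TN.lgpow n1, TN.lgpow n2, hk_neg_right, hk_neg_right,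
    hk_neg_right, hk_smul_right, hk_smul_right]
  unfold K4N.term8b
  rw [h.hB, h.hC, h.hH, h.hE, h.hG, h.hA, h.hD]
  push_cast
  abel

/-- the class as a combination of monomials -/
theorem xi8b_eq [CharZero F] (he : y ^ 2 + 1 / 3 * x * y - 2 / 9 * y = x ^ 3 - 2 / 9 * x ^ 2)
    (hne : ∀ z ∈ FK4R.g8b x y, z ≠ 0) :
    K4N.xi8b x y = zt (FK4R.g8b x y) N8C.c8b_cls L8b := by
  have A0 : x ≠ 0 := hne _ (by simp [FK4R.g8b])
  have B0 : x - (2 / 9) ≠ 0 := hne _ (by simp [FK4R.g8b])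
  have C0 : x - (2 / 3) ≠ 0 := hne _ (by simp [FK4R.g8b])
  have H0 : x + (2 / 9) ≠ 0 := hne _ (by simp [FK4R.g8b])
  have D0 : y ≠ 0 := hne _ (by simp [FK4R.g8b])
  have E0 : y - (2 / 3) * x ≠ 0 := hne _ (by simp [FK4R.g8b])
  have G0 : y + (2 / 3) * x ≠ 0 := hne _ (by simp [FK4R.g8b])
  obtain ⟨B, hB⟩ : ∃ B, x - (2 / 9) = B := ⟨_, rfl⟩
  obtain ⟨C, hC⟩ : ∃ C, x - (2 / 3) = C := ⟨_, rfl⟩
  obtain ⟨H, hH⟩ : ∃ H, x + (2 / 9) = H := ⟨_, rfl⟩
  obtain ⟨E, hE⟩ : ∃ E, y - (2 / 3) * x = E := ⟨_, rfl⟩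
  obtain ⟨G, hG⟩ : ∃ G, y + (2 / 3) * x = G := ⟨_, rfl⟩
  have hg : FK4R.g8b x y = [x, B, C, H, y, E, G, 2, 3] := by
    rw [← hB, ← hC, ← hH, ← hE, ← hG]; rfl
  have hQ : Q8b x y x B C H y E G := by
    refine ⟨rfl, hB, hC, hH, rfl, hE, hG, A0, ?_, ?_, ?_, D0, ?_, ?_, by linear_combination he⟩
    · rw [← hB]; exact B0
    · rw [← hC]; exact C0
    · rw [← hH]; exact H0
    · rw [← hE]; exact E0
    · rw [← hG]; exact G0
  rw [hB] at B0
  rw [hC] at C0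
  rw [hH] at H0
  rw [hE] at E0
  rw [hG] at G0
  obtain ⟨h0, h1, h2, h3, h4, h5, h6, h7⟩ := hQ.all
  have e0 := h0.tm
  have e1 := h1.tm
  have e2 := h2.tm
  have e3 := h3.tm
  have e4 := h4.tm
  have e5 := h5.tm
  have e6 := h6.tm
  have e7 := h7.tm
  have s1 : K4N.xi8b x y =
      K4N.term8b (K4N.It ((2 / 9) : F) 0 (x, y)).1 (K4N.It ((2 / 9) : F) 0 (x, y)).2 +
      K4N.term8b (K4N.It ((2 / 9) : F) 1 (x, y)).1 (K4N.It ((2 / 9) : F) 1 (x, y)).2 +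
      K4N.term8b (K4N.It ((2 / 9) : F) 2 (x, y)).1 (K4N.It ((2 / 9) : F) 2 (x, y)).2 +
      K4N.term8b (K4N.It ((2 / 9) : F) 3 (x, y)).1 (K4N.It ((2 / 9) : F) 3 (x, y)).2 +
      K4N.term8b (K4N.It ((2 / 9) : F) 4 (x, y)).1 (K4N.It ((2 / 9) : F) 4 (x, y)).2 +
      K4N.term8b (K4N.It ((2 / 9) : F) 5 (x, y)).1 (K4N.It ((2 / 9) : F) 5 (x, y)).2 +
      K4N.term8b (K4N.It ((2 / 9) : F) 6 (x, y)).1 (K4N.It ((2 / 9) : F) 6 (x, y)).2 +
      K4N.term8b (K4N.It ((2 / 9) : F) 7 (x, y)).1 (K4N.It ((2 / 9) : F) 7 (x, y)).2 := by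
    unfold K4N.xi8b
    rw [Fin.sum_univ_eight]
    rfl
  rw [s1, e0, e1, e2, e3, e4, e5, e6, e7]
  generalize hgg : FK4R.g8b x y = g at hg ⊢
  have p0 : oo N8C.c8b_cls (10, 0) = (false, [-1, 0, -1, -1, -1, 1, 2, -1, 0]) := by decide +kernel
  have p1 : oo N8C.c8b_cls (12, 0) = (false, [-1, -1, -1, 0, 0, 1, 1, 0, 0]) := by decide +kernel
  have p2 : oo N8C.c8b_cls (12, 0) = (false, [-1, -1, -1, 0, 0, 1, 1, 0, 0]) := by decide +kernel
  have p3 : oo N8C.c8b_cls (24, 4) = (false, [0, 0, 2, 1, 1, -1, -2, -1, 0]) := by decide +kernel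
  have p4 : oo N8C.c8b_cls (27, 2) = (false, [1, 0, 1, 1, 0, -1, -1, 0, 0]) := by decide +kernel
  have p5 : oo N8C.c8b_cls (27, 2) = (false, [1, 0, 1, 1, 0, -1, -1, 0, 0]) := by decide +kernel
  have p6 : oo N8C.c8b_cls (26, 0) = (false, [0, 0, -2, -1, -1, 1, 2, 0, 0]) := by decide +kernel
  have p7 : oo N8C.c8b_cls (25, 1) = (true, [0, 0, -1, -1, -1, 0, 2, 1, -1]) := by decide +kernel
  have p8 : oo N8C.c8b_cls (25, 1) = (true, [0, 0, -1, -1, -1, 0, 2, 1, -1]) := by decide +kernel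
  have p9 : oo N8C.c8b_cls (39, 4) = (true, [0, 0, 1, 1, 0, 0, -1, -2, 1]) := by decide +kernel
  have p10 : oo N8C.c8b_cls (41, 4) = (false, [0, 1, 1, 0, 0, -1, 0, -1, 1]) := by decide +kernel
  have p11 : oo N8C.c8b_cls (41, 4) = (false, [0, 1, 1, 0, 0, -1, 0, -1, 1]) := by decide +kernel
  have p12 : oo N8C.c8b_cls (40, 1) = (true, [0, 0, -1, -1, 0, 0, 1, 1, -1]) := by decide +kernel
  have p13 : oo N8C.c8b_cls (38, 1) = (false, [1, 1, -1, -1, -1, 0, 1, 1, 0]) := by decide +kernel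
  have p14 : oo N8C.c8b_cls (38, 1) = (false, [1, 1, -1, -1, -1, 0, 1, 1, 0]) := by decide +kernel
  have p15 : oo N8C.c8b_cls (53, 4) = (false, [-1, 0, 0, 0, 0, 0, 1, -2, 1]) := by decide +kernel
  have p16 : oo N8C.c8b_cls (55, 4) = (true, [-1, 0, 0, 0, 0, 1, 0, -1, 1]) := by decide +kernel
  have p17 : oo N8C.c8b_cls (55, 4) = (true, [-1, 0, 0, 0, 0, 1, 0, -1, 1]) := by decide +kernel
  have p18 : oo N8C.c8b_cls (54, 1) = (false, [1, 0, 0, 0, 0, 0, -1, 1, -1]) := by decide +kernel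
  have p19 : oo N8C.c8b_cls (52, 1) = (false, [0, 0, 0, 0, 1, 0, -1, 1, 0]) := by decide +kernel
  have p20 : oo N8C.c8b_cls (52, 1) = (false, [0, 0, 0, 0, 1, 0, -1, 1, 0]) := by decide +kernel
  have p21 : oo N8C.c8b_cls (10, 0) = (false, [-1, 0, -1, -1, -1, 1, 2, -1, 0]) := by decide +kernel
  have p22 : oo N8C.c8b_cls (12, 0) = (false, [-1, -1, -1, 0, 0, 1, 1, 0, 0]) := by decide +kernel
  have p23 : oo N8C.c8b_cls (12, 0) = (false, [-1, -1, -1, 0, 0, 1, 1, 0, 0]) := by decide +kernel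
  have p24 : oo N8C.c8b_cls (11, 2) = (false, [1, 0, 1, 1, 1, -1, -2, 0, 0]) := by decide +kernel
  have p25 : oo N8C.c8b_cls (13, 1) = (false, [0, -1, 1, 1, 1, 0, -2, 1, -1]) := by decide +kernel
  have p26 : oo N8C.c8b_cls (13, 1) = (false, [0, -1, 1, 1, 1, 0, -2, 1, -1]) := by decide +kernel
  have p27 : oo N8C.c8b_cls (26, 0) = (false, [0, 0, -2, -1, -1, 1, 2, 0, 0]) := by decide +kernel
  have p28 : oo N8C.c8b_cls (25, 1) = (true, [0, 0, -1, -1, -1, 0, 2, 1, -1]) := by decide +kernel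
  have p29 : oo N8C.c8b_cls (25, 1) = (true, [0, 0, -1, -1, -1, 0, 2, 1, -1]) := by decide +kernel
  have p30 : oo N8C.c8b_cls (24, 4) = (false, [0, 0, 2, 1, 1, -1, -2, -1, 0]) := by decide +kernel
  have p31 : oo N8C.c8b_cls (27, 2) = (false, [1, 0, 1, 1, 0, -1, -1, 0, 0]) := by decide +kernel
  have p32 : oo N8C.c8b_cls (27, 2) = (false, [1, 0, 1, 1, 0, -1, -1, 0, 0]) := by decide +kernel
  have p33 : oo N8C.c8b_cls (40, 1) = (true, [0, 0, -1, -1, 0, 0, 1, 1, -1]) := by decide +kernel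
  have p34 : oo N8C.c8b_cls (38, 1) = (false, [1, 1, -1, -1, -1, 0, 1, 1, 0]) := by decide +kernel
  have p35 : oo N8C.c8b_cls (38, 1) = (false, [1, 1, -1, -1, -1, 0, 1, 1, 0]) := by decide +kernel
  have p36 : oo N8C.c8b_cls (39, 4) = (true, [0, 0, 1, 1, 0, 0, -1, -2, 1]) := by decide +kernel
  have p37 : oo N8C.c8b_cls (41, 4) = (false, [0, 1, 1, 0, 0, -1, 0, -1, 1]) := by decide +kernel
  have p38 : oo N8C.c8b_cls (41, 4) = (false, [0, 1, 1, 0, 0, -1, 0, -1, 1]) := by decide +kernel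
  have p39 : oo N8C.c8b_cls (54, 1) = (false, [1, 0, 0, 0, 0, 0, -1, 1, -1]) := by decide +kernel
  have p40 : oo N8C.c8b_cls (52, 1) = (false, [0, 0, 0, 0, 1, 0, -1, 1, 0]) := by decide +kernel
  have p41 : oo N8C.c8b_cls (52, 1) = (false, [0, 0, 0, 0, 1, 0, -1, 1, 0]) := by decide +kernel
  have p42 : oo N8C.c8b_cls (53, 4) = (false, [-1, 0, 0, 0, 0, 0, 1, -2, 1]) := by decide +kernel
  have p43 : oo N8C.c8b_cls (55, 4) = (true, [-1, 0, 0, 0, 0, 1, 0, -1, 1]) := by decide +kernel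
  have p44 : oo N8C.c8b_cls (55, 4) = (true, [-1, 0, 0, 0, 0, 1, 0, -1, 1]) := by decide +kernel
  have p45 : oo N8C.c8b_cls (11, 2) = (false, [1, 0, 1, 1, 1, -1, -2, 0, 0]) := by decide +kernel
  have p46 : oo N8C.c8b_cls (13, 1) = (false, [0, -1, 1, 1, 1, 0, -2, 1, -1]) := by decide +kernel
  have p47 : oo N8C.c8b_cls (13, 1) = (false, [0, -1, 1, 1, 1, 0, -2, 1, -1]) := by decide +kernel
  have z : zt g N8C.c8b_cls L8b =
    hk (sy (ev g (false, [-1, 0, -1, -1, -1, 1, 2, -1, 0]))) (lg (evl g [2, 0, -2, 0, -2, 2, 0, 1, 0])) + (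
    hk (sy (ev g (false, [-1, -1, -1, 0, 0, 1, 1, 0, 0]))) (lg (evl g [-8, 0, 8, 0, 8, -8, 0, -4, 0])) + (
    hk (sy (ev g (false, [-1, -1, -1, 0, 0, 1, 1, 0, 0]))) (lg (evl g [0, 0, -2, -2, 0, 0, 2, 3, -2])) + (
    hk (sy (ev g (false, [0, 0, 2, 1, 1, -1, -2, -1, 0]))) (lg (evl g [0, 0, 0, 0, -2, 2, 0, -1, 0])) + (
    hk (sy (ev g (false, [1, 0, 1, 1, 0, -1, -1, 0, 0]))) (lg (evl g [0, 0, 0, 0, 8, -8, 0, 4, 0])) + (
    hk (sy (ev g (false, [1, 0, 1, 1, 0, -1, -1, 0, 0]))) (lg (evl g [-2, 0, 0, 0, 0, 0, 2, -3, 2])) + (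
    hk (sy (ev g (false, [0, 0, -2, -1, -1, 1, 2, 0, 0]))) (lg (evl g [0, 0, 0, 0, 2, -2, 0, 1, 0])) + (
    hk (sy (ev g (true, [0, 0, -1, -1, -1, 0, 2, 1, -1]))) (lg (evl g [0, 0, 0, 0, -8, 8, 0, -4, 0])) + (
    hk (sy (ev g (true, [0, 0, -1, -1, -1, 0, 2, 1, -1]))) (lg (evl g [2, 0, 0, 0, 0, 0, -2, 3, -2])) + (
    hk (sy (ev g (true, [0, 0, 1, 1, 0, 0, -1, -2, 1]))) (lg (evl g [0, 0, -2, 0, 0, 0, 2, -1, 2])) + (
    hk (sy (ev g (false, [0, 1, 1, 0, 0, -1, 0, -1, 1]))) (lg (evl g [0, 0, 8, 0, 0, 0, -8, 4, -8])) + (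
    hk (sy (ev g (false, [0, 1, 1, 0, 0, -1, 0, -1, 1]))) (lg (evl g [-2, 0, -2, -2, -2, 2, 4, -1, 0])) + (
    hk (sy (ev g (true, [0, 0, -1, -1, 0, 0, 1, 1, -1]))) (lg (evl g [0, 0, 2, 0, 0, 0, -2, 1, -2])) + (
    hk (sy (ev g (false, [1, 1, -1, -1, -1, 0, 1, 1, 0]))) (lg (evl g [0, 0, -8, 0, 0, 0, 8, -4, 8])) + (
    hk (sy (ev g (false, [1, 1, -1, -1, -1, 0, 1, 1, 0]))) (lg (evl g [2, 0, 2, 2, 2, -2, -4, 1, 0])) + (
    hk (sy (ev g (false, [-1, 0, 0, 0, 0, 0, 1, -2, 1]))) (lg (evl g [-2, 0, 0, -2, 0, 0, 2, 1, -2])) + (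
    hk (sy (ev g (true, [-1, 0, 0, 0, 0, 1, 0, -1, 1]))) (lg (evl g [8, 0, 0, 8, 0, 0, -8, -4, 8])) + (
    hk (sy (ev g (true, [-1, 0, 0, 0, 0, 1, 0, -1, 1]))) (lg (evl g [0, 0, -4, -2, -2, 2, 4, 1, 0])) + (
    hk (sy (ev g (false, [1, 0, 0, 0, 0, 0, -1, 1, -1]))) (lg (evl g [2, 0, 0, 2, 0, 0, -2, -1, 2])) + (
    hk (sy (ev g (false, [0, 0, 0, 0, 1, 0, -1, 1, 0]))) (lg (evl g [-8, 0, 0, -8, 0, 0, 8, 4, -8])) + (
    hk (sy (ev g (false, [0, 0, 0, 0, 1, 0, -1, 1, 0]))) (lg (evl g [0, 0, 4, 2, 2, -2, -4, -1, 0])) + (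
    hk (sy (ev g (false, [-1, 0, -1, -1, -1, 1, 2, -1, 0]))) (lg (evl g [2, 0, -2, 0, -2, 2, 0, 1, 0])) + (
    hk (sy (ev g (false, [-1, -1, -1, 0, 0, 1, 1, 0, 0]))) (lg (evl g [-8, 0, 8, 0, 8, -8, 0, -4, 0])) + (
    hk (sy (ev g (false, [-1, -1, -1, 0, 0, 1, 1, 0, 0]))) (lg (evl g [0, 0, -2, -2, 0, 0, 2, 3, -2])) + (
    hk (sy (ev g (false, [1, 0, 1, 1, 1, -1, -2, 0, 0]))) (lg (evl g [-2, 0, 2, 0, 2, -2, 0, -1, 0])) + (
    hk (sy (ev g (false, [0, -1, 1, 1, 1, 0, -2, 1, -1]))) (lg (evl g [8, 0, -8, 0, -8, 8, 0, 4, 0])) + (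
    hk (sy (ev g (false, [0, -1, 1, 1, 1, 0, -2, 1, -1]))) (lg (evl g [0, 0, 2, 2, 0, 0, -2, -3, 2])) + (
    hk (sy (ev g (false, [0, 0, -2, -1, -1, 1, 2, 0, 0]))) (lg (evl g [0, 0, 0, 0, 2, -2, 0, 1, 0])) + (
    hk (sy (ev g (true, [0, 0, -1, -1, -1, 0, 2, 1, -1]))) (lg (evl g [0, 0, 0, 0, -8, 8, 0, -4, 0])) + (
    hk (sy (ev g (true, [0, 0, -1, -1, -1, 0, 2, 1, -1]))) (lg (evl g [2, 0, 0, 0, 0, 0, -2, 3, -2])) + (
    hk (sy (ev g (false, [0, 0, 2, 1, 1, -1, -2, -1, 0]))) (lg (evl g [0, 0, 0, 0, -2, 2, 0, -1, 0])) + (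
    hk (sy (ev g (false, [1, 0, 1, 1, 0, -1, -1, 0, 0]))) (lg (evl g [0, 0, 0, 0, 8, -8, 0, 4, 0])) + (
    hk (sy (ev g (false, [1, 0, 1, 1, 0, -1, -1, 0, 0]))) (lg (evl g [-2, 0, 0, 0, 0, 0, 2, -3, 2])) + (
    hk (sy (ev g (true, [0, 0, -1, -1, 0, 0, 1, 1, -1]))) (lg (evl g [0, 0, 2, 0, 0, 0, -2, 1, -2])) + (
    hk (sy (ev g (false, [1, 1, -1, -1, -1, 0, 1, 1, 0]))) (lg (evl g [0, 0, -8, 0, 0, 0, 8, -4, 8])) + (
    hk (sy (ev g (false, [1, 1, -1, -1, -1, 0, 1, 1, 0]))) (lg (evl g [2, 0, 2, 2, 2, -2, -4, 1, 0])) + (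
    hk (sy (ev g (true, [0, 0, 1, 1, 0, 0, -1, -2, 1]))) (lg (evl g [0, 0, -2, 0, 0, 0, 2, -1, 2])) + (
    hk (sy (ev g (false, [0, 1, 1, 0, 0, -1, 0, -1, 1]))) (lg (evl g [0, 0, 8, 0, 0, 0, -8, 4, -8])) + (
    hk (sy (ev g (false, [0, 1, 1, 0, 0, -1, 0, -1, 1]))) (lg (evl g [-2, 0, -2, -2, -2, 2, 4, -1, 0])) + (
    hk (sy (ev g (false, [1, 0, 0, 0, 0, 0, -1, 1, -1]))) (lg (evl g [2, 0, 0, 2, 0, 0, -2, -1, 2])) + (
    hk (sy (ev g (false, [0, 0, 0, 0, 1, 0, -1, 1, 0]))) (lg (evl g [-8, 0, 0, -8, 0, 0, 8, 4, -8])) + (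
    hk (sy (ev g (false, [0, 0, 0, 0, 1, 0, -1, 1, 0]))) (lg (evl g [0, 0, 4, 2, 2, -2, -4, -1, 0])) + (
    hk (sy (ev g (false, [-1, 0, 0, 0, 0, 0, 1, -2, 1]))) (lg (evl g [-2, 0, 0, -2, 0, 0, 2, 1, -2])) + (
    hk (sy (ev g (true, [-1, 0, 0, 0, 0, 1, 0, -1, 1]))) (lg (evl g [8, 0, 0, 8, 0, 0, -8, -4, 8])) + (
    hk (sy (ev g (true, [-1, 0, 0, 0, 0, 1, 0, -1, 1]))) (lg (evl g [0, 0, -4, -2, -2, 2, 4, 1, 0])) + (
    hk (sy (ev g (false, [1, 0, 1, 1, 1, -1, -2, 0, 0]))) (lg (evl g [-2, 0, 2, 0, 2, -2, 0, -1, 0])) + (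
    hk (sy (ev g (false, [0, -1, 1, 1, 1, 0, -2, 1, -1]))) (lg (evl g [8, 0, -8, 0, -8, 8, 0, 4, 0])) + (
    hk (sy (ev g (false, [0, -1, 1, 1, 1, 0, -2, 1, -1]))) (lg (evl g [0, 0, 2, 2, 0, 0, -2, -3, 2])) + 0))))))))))))))))))))))))))))))))))))))))))))))) := by
    rw [← p0, ← p1, ← p3, ← p4, ← p6, ← p7, ← p9, ← p10, ← p12, ← p13, ← p15, ← p16, ← p18, ← p19, ← p24, ← p25]
    rfl
  rw [z, hg]
  clear z hgg
  have c0 := hkc8b (f := (E) * (G) ^ 2 / (2 * (x) * (C) * (H) * (y)))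
    (f' := ev [x, B, C, H, y, E, G, 2, 3] (false, [-1, 0, -1, -1, -1, 1, 2, -1, 0]))
    (u := ((C) ^ 2 * (y) ^ 2 / (2 * (x) ^ 2 * (E) ^ 2))⁻¹)
    (u' := evl [x, B, C, H, y, E, G, 2, 3] [2, 0, -2, 0, -2, 2, 0, 1, 0])
    (by
      simp only [ev, evl_cons, evl_nil_left, evl_nil_right, cond_true, cond_false, zpow_neg, zpow_ofNat, zpow_zero, zpow_one]
      field_simp
      try ring)
    (by
      simp only [ev, evl_cons, evl_nil_left, evl_nil_right, cond_true, cond_false, zpow_neg, zpow_ofNat, zpow_zero, zpow_one]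
      field_simp
      try ring)
  have c1 := hkc8b (f := (E) * (G) / ((x) * (B) * (C)))
    (f' := ev [x, B, C, H, y, E, G, 2, 3] (false, [-1, -1, -1, 0, 0, 1, 1, 0, 0]))
    (u := ((C) ^ 2 * (y) ^ 2 / (2 * (x) ^ 2 * (E) ^ 2)) ^ 4)
    (u' := evl [x, B, C, H, y, E, G, 2, 3] [-8, 0, 8, 0, 8, -8, 0, -4, 0])
    (by
      simp only [ev, evl_cons, evl_nil_left, evl_nil_right, cond_true, cond_false, zpow_neg, zpow_ofNat, zpow_zero, zpow_one]
      field_simp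
      try ring)
    (by
      simp only [ev, evl_cons, evl_nil_left, evl_nil_right, cond_true, cond_false, zpow_neg, zpow_ofNat, zpow_zero, zpow_one]
      field_simp
      try ring)
  have c2 := hkc8b (f := (E) * (G) / ((x) * (B) * (C)))
    (f' := ev [x, B, C, H, y, E, G, 2, 3] (false, [-1, -1, -1, 0, 0, 1, 1, 0, 0]))
    (u := (9 * (C) ^ 2 * (H) ^ 2 / (8 * (G) ^ 2))⁻¹)
    (u' := evl [x, B, C, H, y, E, G, 2, 3] [0, 0, -2, -2, 0, 0, 2, 3, -2])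
    (by
      simp only [ev, evl_cons, evl_nil_left, evl_nil_right, cond_true, cond_false, zpow_neg, zpow_ofNat, zpow_zero, zpow_one]
      field_simp
      try ring)
    (by
      simp only [ev, evl_cons, evl_nil_left, evl_nil_right, cond_true, cond_false, zpow_neg, zpow_ofNat, zpow_zero, zpow_one]
      field_simp
      try ring)
  have c3 := hkc8b (f := (C) ^ 2 * (H) * (y) / (2 * (E) * (G) ^ 2))
    (f' := ev [x, B, C, H, y, E, G, 2, 3] (false, [0, 0, 2, 1, 1, -1, -2, -1, 0]))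
    (u := (E) ^ 2 / (2 * (y) ^ 2))
    (u' := evl [x, B, C, H, y, E, G, 2, 3] [0, 0, 0, 0, -2, 2, 0, -1, 0])
    (by
      simp only [ev, evl_cons, evl_nil_left, evl_nil_right, cond_true, cond_false, zpow_neg, zpow_ofNat, zpow_zero, zpow_one]
      field_simp
      try ring)
    (by
      simp only [ev, evl_cons, evl_nil_left, evl_nil_right, cond_true, cond_false, zpow_neg, zpow_ofNat, zpow_zero, zpow_one]
      field_simp
      try ring)
  have c4 := hkc8b (f := (x) * (C) * (H) / ((E) * (G)))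
    (f' := ev [x, B, C, H, y, E, G, 2, 3] (false, [1, 0, 1, 1, 0, -1, -1, 0, 0]))
    (u := (((E) ^ 2 / (2 * (y) ^ 2)) ^ 4)⁻¹)
    (u' := evl [x, B, C, H, y, E, G, 2, 3] [0, 0, 0, 0, 8, -8, 0, 4, 0])
    (by
      simp only [ev, evl_cons, evl_nil_left, evl_nil_right, cond_true, cond_false, zpow_neg, zpow_ofNat, zpow_zero, zpow_one]
      field_simp
      try ring)
    (by
      simp only [ev, evl_cons, evl_nil_left, evl_nil_right, cond_true, cond_false, zpow_neg, zpow_ofNat, zpow_zero, zpow_one]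
      field_simp
      try ring)
  have c5 := hkc8b (f := (x) * (C) * (H) / ((E) * (G)))
    (f' := ev [x, B, C, H, y, E, G, 2, 3] (false, [1, 0, 1, 1, 0, -1, -1, 0, 0]))
    (u := 9 * (G) ^ 2 / (8 * (x) ^ 2))
    (u' := evl [x, B, C, H, y, E, G, 2, 3] [-2, 0, 0, 0, 0, 0, 2, -3, 2])
    (by
      simp only [ev, evl_cons, evl_nil_left, evl_nil_right, cond_true, cond_false, zpow_neg, zpow_ofNat, zpow_zero, zpow_one]
      field_simp
      try ring)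
    (by
      simp only [ev, evl_cons, evl_nil_left, evl_nil_right, cond_true, cond_false, zpow_neg, zpow_ofNat, zpow_zero, zpow_one]
      field_simp
      try ring)
  have c6 := hkc8b (f := (-(4 * y * E * G) / (27 * x ^ 3 * B * C)) * (4 * E * G ^ 2 / (27 * x ^ 3 * C * H)) ^ 2 / (2 * (2 * y / (9 * x ^ 2)) * (-(2 * E * G) / (3 * x ^ 2 * C)) * (2 * G ^ 2 / (9 * x ^ 2 * H)) * (4 * y * E / (81 * x ^ 3 * B))))
    (f' := ev [x, B, C, H, y, E, G, 2, 3] (false, [0, 0, -2, -1, -1, 1, 2, 0, 0]))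
    (u := ((-(2 * E * G) / (3 * x ^ 2 * C)) ^ 2 * (4 * y * E / (81 * x ^ 3 * B)) ^ 2 / (2 * (2 * y / (9 * x ^ 2)) ^ 2 * (-(4 * y * E * G) / (27 * x ^ 3 * B * C)) ^ 2))⁻¹)
    (u' := evl [x, B, C, H, y, E, G, 2, 3] [0, 0, 0, 0, 2, -2, 0, 1, 0])
    (by
      simp only [ev, evl_cons, evl_nil_left, evl_nil_right, cond_true, cond_false, zpow_neg, zpow_ofNat, zpow_zero, zpow_one]
      field_simp
      try ring)
    (by
      simp only [ev, evl_cons, evl_nil_left, evl_nil_right, cond_true, cond_false, zpow_neg, zpow_ofNat, zpow_zero, zpow_one]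
      field_simp
      try ring)
  have c7 := hkc8b (f := (-(4 * y * E * G) / (27 * x ^ 3 * B * C)) * (4 * E * G ^ 2 / (27 * x ^ 3 * C * H)) / ((2 * y / (9 * x ^ 2)) * (-(2 * y * E) / (9 * x ^ 2 * B)) * (-(2 * E * G) / (3 * x ^ 2 * C))))
    (f' := ev [x, B, C, H, y, E, G, 2, 3] (true, [0, 0, -1, -1, -1, 0, 2, 1, -1]))
    (u := ((-(2 * E * G) / (3 * x ^ 2 * C)) ^ 2 * (4 * y * E / (81 * x ^ 3 * B)) ^ 2 / (2 * (2 * y / (9 * x ^ 2)) ^ 2 * (-(4 * y * E * G) / (27 * x ^ 3 * B * C)) ^ 2)) ^ 4)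
    (u' := evl [x, B, C, H, y, E, G, 2, 3] [0, 0, 0, 0, -8, 8, 0, -4, 0])
    (by
      simp only [ev, evl_cons, evl_nil_left, evl_nil_right, cond_true, cond_false, zpow_neg, zpow_ofNat, zpow_zero, zpow_one]
      field_simp
      try ring)
    (by
      simp only [ev, evl_cons, evl_nil_left, evl_nil_right, cond_true, cond_false, zpow_neg, zpow_ofNat, zpow_zero, zpow_one]
      field_simp
      try ring)
  have c8 := hkc8b (f := (-(4 * y * E * G) / (27 * x ^ 3 * B * C)) * (4 * E * G ^ 2 / (27 * x ^ 3 * C * H)) / ((2 * y / (9 * x ^ 2)) * (-(2 * y * E) / (9 * x ^ 2 * B)) * (-(2 * E * G) / (3 * x ^ 2 * C))))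
    (f' := ev [x, B, C, H, y, E, G, 2, 3] (true, [0, 0, -1, -1, -1, 0, 2, 1, -1]))
    (u := (9 * (-(2 * E * G) / (3 * x ^ 2 * C)) ^ 2 * (2 * G ^ 2 / (9 * x ^ 2 * H)) ^ 2 / (8 * (4 * E * G ^ 2 / (27 * x ^ 3 * C * H)) ^ 2))⁻¹)
    (u' := evl [x, B, C, H, y, E, G, 2, 3] [2, 0, 0, 0, 0, 0, -2, 3, -2])
    (by
      simp only [ev, evl_cons, evl_nil_left, evl_nil_right, cond_true, cond_false, zpow_neg, zpow_ofNat, zpow_zero, zpow_one]
      field_simp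
      try ring)
    (by
      simp only [ev, evl_cons, evl_nil_left, evl_nil_right, cond_true, cond_false, zpow_neg, zpow_ofNat, zpow_zero, zpow_one]
      field_simp
      try ring)
  have c9 := hkc8b (f := (-(2 * E * G) / (3 * x ^ 2 * C)) ^ 2 * (2 * G ^ 2 / (9 * x ^ 2 * H)) * (4 * y * E / (81 * x ^ 3 * B)) / (2 * (-(4 * y * E * G) / (27 * x ^ 3 * B * C)) * (4 * E * G ^ 2 / (27 * x ^ 3 * C * H)) ^ 2))
    (f' := ev [x, B, C, H, y, E, G, 2, 3] (true, [0, 0, 1, 1, 0, 0, -1, -2, 1]))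
    (u := (-(4 * y * E * G) / (27 * x ^ 3 * B * C)) ^ 2 / (2 * (4 * y * E / (81 * x ^ 3 * B)) ^ 2))
    (u' := evl [x, B, C, H, y, E, G, 2, 3] [0, 0, -2, 0, 0, 0, 2, -1, 2])
    (by
      simp only [ev, evl_cons, evl_nil_left, evl_nil_right, cond_true, cond_false, zpow_neg, zpow_ofNat, zpow_zero, zpow_one]
      field_simp
      try ring)
    (by
      simp only [ev, evl_cons, evl_nil_left, evl_nil_right, cond_true, cond_false, zpow_neg, zpow_ofNat, zpow_zero, zpow_one]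
      field_simp
      try ring)
  have c10 := hkc8b (f := (2 * y / (9 * x ^ 2)) * (-(2 * E * G) / (3 * x ^ 2 * C)) * (2 * G ^ 2 / (9 * x ^ 2 * H)) / ((-(4 * y * E * G) / (27 * x ^ 3 * B * C)) * (4 * E * G ^ 2 / (27 * x ^ 3 * C * H))))
    (f' := ev [x, B, C, H, y, E, G, 2, 3] (false, [0, 1, 1, 0, 0, -1, 0, -1, 1]))
    (u := (((-(4 * y * E * G) / (27 * x ^ 3 * B * C)) ^ 2 / (2 * (4 * y * E / (81 * x ^ 3 * B)) ^ 2)) ^ 4)⁻¹)
    (u' := evl [x, B, C, H, y, E, G, 2, 3] [0, 0, 8, 0, 0, 0, -8, 4, -8])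
    (by
      simp only [ev, evl_cons, evl_nil_left, evl_nil_right, cond_true, cond_false, zpow_neg, zpow_ofNat, zpow_zero, zpow_one]
      field_simp
      try ring)
    (by
      simp only [ev, evl_cons, evl_nil_left, evl_nil_right, cond_true, cond_false, zpow_neg, zpow_ofNat, zpow_zero, zpow_one]
      field_simp
      try ring)
  have c11 := hkc8b (f := (2 * y / (9 * x ^ 2)) * (-(2 * E * G) / (3 * x ^ 2 * C)) * (2 * G ^ 2 / (9 * x ^ 2 * H)) / ((-(4 * y * E * G) / (27 * x ^ 3 * B * C)) * (4 * E * G ^ 2 / (27 * x ^ 3 * C * H))))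
    (f' := ev [x, B, C, H, y, E, G, 2, 3] (false, [0, 1, 1, 0, 0, -1, 0, -1, 1]))
    (u := 9 * (4 * E * G ^ 2 / (27 * x ^ 3 * C * H)) ^ 2 / (8 * (2 * y / (9 * x ^ 2)) ^ 2))
    (u' := evl [x, B, C, H, y, E, G, 2, 3] [-2, 0, -2, -2, -2, 2, 4, -1, 0])
    (by
      simp only [ev, evl_cons, evl_nil_left, evl_nil_right, cond_true, cond_false, zpow_neg, zpow_ofNat, zpow_zero, zpow_one]
      field_simp
      try ring)
    (by
      simp only [ev, evl_cons, evl_nil_left, evl_nil_right, cond_true, cond_false, zpow_neg, zpow_ofNat, zpow_zero, zpow_one]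
      field_simp
      try ring)
  have c12 := hkc8b (f := (8 * x * E * G ^ 2 / (81 * B * C * H * y ^ 2)) * (8 * x * E ^ 2 * G ^ 2 / (27 * B * C ^ 2 * H * y ^ 2)) ^ 2 / (2 * (2 * x * E / (9 * B * y)) * (-(4 * E * G ^ 2) / (9 * B * C * H * y)) * (4 * E ^ 2 * G ^ 2 / (9 * C ^ 2 * H * y ^ 2)) * (4 * x ^ 2 * E * G / (27 * B * C * y ^ 2))))
    (f' := ev [x, B, C, H, y, E, G, 2, 3] (true, [0, 0, -1, -1, 0, 0, 1, 1, -1]))
    (u := ((-(4 * E * G ^ 2) / (9 * B * C * H * y)) ^ 2 * (4 * x ^ 2 * E * G / (27 * B * C * y ^ 2)) ^ 2 / (2 * (2 * x * E / (9 * B * y)) ^ 2 * (8 * x * E * G ^ 2 / (81 * B * C * H * y ^ 2)) ^ 2))⁻¹)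
    (u' := evl [x, B, C, H, y, E, G, 2, 3] [0, 0, 2, 0, 0, 0, -2, 1, -2])
    (by
      simp only [ev, evl_cons, evl_nil_left, evl_nil_right, cond_true, cond_false, zpow_neg, zpow_ofNat, zpow_zero, zpow_one]
      field_simp
      try ring)
    (by
      simp only [ev, evl_cons, evl_nil_left, evl_nil_right, cond_true, cond_false, zpow_neg, zpow_ofNat, zpow_zero, zpow_one]
      field_simp
      try ring)
  have c13 := hkc8b (f := (8 * x * E * G ^ 2 / (81 * B * C * H * y ^ 2)) * (8 * x * E ^ 2 * G ^ 2 / (27 * B * C ^ 2 * H * y ^ 2)) / ((2 * x * E / (9 * B * y)) * (-(4 * E * G) / (27 * B * C * y)) * (-(4 * E * G ^ 2) / (9 * B * C * H * y))))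
    (f' := ev [x, B, C, H, y, E, G, 2, 3] (false, [1, 1, -1, -1, -1, 0, 1, 1, 0]))
    (u := ((-(4 * E * G ^ 2) / (9 * B * C * H * y)) ^ 2 * (4 * x ^ 2 * E * G / (27 * B * C * y ^ 2)) ^ 2 / (2 * (2 * x * E / (9 * B * y)) ^ 2 * (8 * x * E * G ^ 2 / (81 * B * C * H * y ^ 2)) ^ 2)) ^ 4)
    (u' := evl [x, B, C, H, y, E, G, 2, 3] [0, 0, -8, 0, 0, 0, 8, -4, 8])
    (by
      simp only [ev, evl_cons, evl_nil_left, evl_nil_right, cond_true, cond_false, zpow_neg, zpow_ofNat, zpow_zero, zpow_one]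
      field_simp
      try ring)
    (by
      simp only [ev, evl_cons, evl_nil_left, evl_nil_right, cond_true, cond_false, zpow_neg, zpow_ofNat, zpow_zero, zpow_one]
      field_simp
      try ring)
  have c14 := hkc8b (f := (8 * x * E * G ^ 2 / (81 * B * C * H * y ^ 2)) * (8 * x * E ^ 2 * G ^ 2 / (27 * B * C ^ 2 * H * y ^ 2)) / ((2 * x * E / (9 * B * y)) * (-(4 * E * G) / (27 * B * C * y)) * (-(4 * E * G ^ 2) / (9 * B * C * H * y))))
    (f' := ev [x, B, C, H, y, E, G, 2, 3] (false, [1, 1, -1, -1, -1, 0, 1, 1, 0]))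
    (u := (9 * (-(4 * E * G ^ 2) / (9 * B * C * H * y)) ^ 2 * (4 * E ^ 2 * G ^ 2 / (9 * C ^ 2 * H * y ^ 2)) ^ 2 / (8 * (8 * x * E ^ 2 * G ^ 2 / (27 * B * C ^ 2 * H * y ^ 2)) ^ 2))⁻¹)
    (u' := evl [x, B, C, H, y, E, G, 2, 3] [2, 0, 2, 2, 2, -2, -4, 1, 0])
    (by
      simp only [ev, evl_cons, evl_nil_left, evl_nil_right, cond_true, cond_false, zpow_neg, zpow_ofNat, zpow_zero, zpow_one]
      field_simp
      try ring)
    (by
      simp only [ev, evl_cons, evl_nil_left, evl_nil_right, cond_true, cond_false, zpow_neg, zpow_ofNat, zpow_zero, zpow_one]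
      field_simp
      try ring)
  have c15 := hkc8b (f := (-(4 * E * G ^ 2) / (9 * B * C * H * y)) ^ 2 * (4 * E ^ 2 * G ^ 2 / (9 * C ^ 2 * H * y ^ 2)) * (4 * x ^ 2 * E * G / (27 * B * C * y ^ 2)) / (2 * (8 * x * E * G ^ 2 / (81 * B * C * H * y ^ 2)) * (8 * x * E ^ 2 * G ^ 2 / (27 * B * C ^ 2 * H * y ^ 2)) ^ 2))
    (f' := ev [x, B, C, H, y, E, G, 2, 3] (false, [-1, 0, 0, 0, 0, 0, 1, -2, 1]))
    (u := (8 * x * E * G ^ 2 / (81 * B * C * H * y ^ 2)) ^ 2 / (2 * (4 * x ^ 2 * E * G / (27 * B * C * y ^ 2)) ^ 2))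
    (u' := evl [x, B, C, H, y, E, G, 2, 3] [-2, 0, 0, -2, 0, 0, 2, 1, -2])
    (by
      simp only [ev, evl_cons, evl_nil_left, evl_nil_right, cond_true, cond_false, zpow_neg, zpow_ofNat, zpow_zero, zpow_one]
      field_simp
      try ring)
    (by
      simp only [ev, evl_cons, evl_nil_left, evl_nil_right, cond_true, cond_false, zpow_neg, zpow_ofNat, zpow_zero, zpow_one]
      field_simp
      try ring)
  have c16 := hkc8b (f := (2 * x * E / (9 * B * y)) * (-(4 * E * G ^ 2) / (9 * B * C * H * y)) * (4 * E ^ 2 * G ^ 2 / (9 * C ^ 2 * H * y ^ 2)) / ((8 * x * E * G ^ 2 / (81 * B * C * H * y ^ 2)) * (8 * x * E ^ 2 * G ^ 2 / (27 * B * C ^ 2 * H * y ^ 2))))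
    (f' := ev [x, B, C, H, y, E, G, 2, 3] (true, [-1, 0, 0, 0, 0, 1, 0, -1, 1]))
    (u := (((8 * x * E * G ^ 2 / (81 * B * C * H * y ^ 2)) ^ 2 / (2 * (4 * x ^ 2 * E * G / (27 * B * C * y ^ 2)) ^ 2)) ^ 4)⁻¹)
    (u' := evl [x, B, C, H, y, E, G, 2, 3] [8, 0, 0, 8, 0, 0, -8, -4, 8])
    (by
      simp only [ev, evl_cons, evl_nil_left, evl_nil_right, cond_true, cond_false, zpow_neg, zpow_ofNat, zpow_zero, zpow_one]
      field_simp
      try ring)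
    (by
      simp only [ev, evl_cons, evl_nil_left, evl_nil_right, cond_true, cond_false, zpow_neg, zpow_ofNat, zpow_zero, zpow_one]
      field_simp
      try ring)
  have c17 := hkc8b (f := (2 * x * E / (9 * B * y)) * (-(4 * E * G ^ 2) / (9 * B * C * H * y)) * (4 * E ^ 2 * G ^ 2 / (9 * C ^ 2 * H * y ^ 2)) / ((8 * x * E * G ^ 2 / (81 * B * C * H * y ^ 2)) * (8 * x * E ^ 2 * G ^ 2 / (27 * B * C ^ 2 * H * y ^ 2))))
    (f' := ev [x, B, C, H, y, E, G, 2, 3] (true, [-1, 0, 0, 0, 0, 1, 0, -1, 1]))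
    (u := 9 * (8 * x * E ^ 2 * G ^ 2 / (27 * B * C ^ 2 * H * y ^ 2)) ^ 2 / (8 * (2 * x * E / (9 * B * y)) ^ 2))
    (u' := evl [x, B, C, H, y, E, G, 2, 3] [0, 0, -4, -2, -2, 2, 4, 1, 0])
    (by
      simp only [ev, evl_cons, evl_nil_left, evl_nil_right, cond_true, cond_false, zpow_neg, zpow_ofNat, zpow_zero, zpow_one]
      field_simp
      try ring)
    (by
      simp only [ev, evl_cons, evl_nil_left, evl_nil_right, cond_true, cond_false, zpow_neg, zpow_ofNat, zpow_zero, zpow_one]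
      field_simp
      try ring)
  have c18 := hkc8b (f := (-(8 * x * B ^ 2 * G ^ 2) / (9 * C ^ 2 * H * y * E)) * (-(16 * B * G ^ 2) / (27 * C ^ 2 * H * E)) ^ 2 / (2 * (2 * B * G / (3 * C * E)) * (8 * B * G ^ 2 / (9 * C ^ 2 * H * y)) * (8 * G ^ 2 / (9 * C ^ 2 * H)) * (-(4 * B ^ 2 * G ^ 2) / (9 * C * H * E ^ 2))))
    (f' := ev [x, B, C, H, y, E, G, 2, 3] (false, [1, 0, 0, 0, 0, 0, -1, 1, -1]))
    (u := ((8 * B * G ^ 2 / (9 * C ^ 2 * H * y)) ^ 2 * (-(4 * B ^ 2 * G ^ 2) / (9 * C * H * E ^ 2)) ^ 2 / (2 * (2 * B * G / (3 * C * E)) ^ 2 * (-(8 * x * B ^ 2 * G ^ 2) / (9 * C ^ 2 * H * y * E)) ^ 2))⁻¹)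
    (u' := evl [x, B, C, H, y, E, G, 2, 3] [2, 0, 0, 2, 0, 0, -2, -1, 2])
    (by
      simp only [ev, evl_cons, evl_nil_left, evl_nil_right, cond_true, cond_false, zpow_neg, zpow_ofNat, zpow_zero, zpow_one]
      field_simp
      try ring)
    (by
      simp only [ev, evl_cons, evl_nil_left, evl_nil_right, cond_true, cond_false, zpow_neg, zpow_ofNat, zpow_zero, zpow_one]
      field_simp
      try ring)
  have c19 := hkc8b (f := (-(8 * x * B ^ 2 * G ^ 2) / (9 * C ^ 2 * H * y * E)) * (-(16 * B * G ^ 2) / (27 * C ^ 2 * H * E)) / ((2 * B * G / (3 * C * E)) * (4 * x * B * G ^ 2 / (9 * C * H * y * E)) * (8 * B * G ^ 2 / (9 * C ^ 2 * H * y))))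
    (f' := ev [x, B, C, H, y, E, G, 2, 3] (false, [0, 0, 0, 0, 1, 0, -1, 1, 0]))
    (u := ((8 * B * G ^ 2 / (9 * C ^ 2 * H * y)) ^ 2 * (-(4 * B ^ 2 * G ^ 2) / (9 * C * H * E ^ 2)) ^ 2 / (2 * (2 * B * G / (3 * C * E)) ^ 2 * (-(8 * x * B ^ 2 * G ^ 2) / (9 * C ^ 2 * H * y * E)) ^ 2)) ^ 4)
    (u' := evl [x, B, C, H, y, E, G, 2, 3] [-8, 0, 0, -8, 0, 0, 8, 4, -8])
    (by
      simp only [ev, evl_cons, evl_nil_left, evl_nil_right, cond_true, cond_false, zpow_neg, zpow_ofNat, zpow_zero, zpow_one]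
      field_simp
      try ring)
    (by
      simp only [ev, evl_cons, evl_nil_left, evl_nil_right, cond_true, cond_false, zpow_neg, zpow_ofNat, zpow_zero, zpow_one]
      field_simp
      try ring)
  have c20 := hkc8b (f := (-(8 * x * B ^ 2 * G ^ 2) / (9 * C ^ 2 * H * y * E)) * (-(16 * B * G ^ 2) / (27 * C ^ 2 * H * E)) / ((2 * B * G / (3 * C * E)) * (4 * x * B * G ^ 2 / (9 * C * H * y * E)) * (8 * B * G ^ 2 / (9 * C ^ 2 * H * y))))
    (f' := ev [x, B, C, H, y, E, G, 2, 3] (false, [0, 0, 0, 0, 1, 0, -1, 1, 0]))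
    (u := (9 * (8 * B * G ^ 2 / (9 * C ^ 2 * H * y)) ^ 2 * (8 * G ^ 2 / (9 * C ^ 2 * H)) ^ 2 / (8 * (-(16 * B * G ^ 2) / (27 * C ^ 2 * H * E)) ^ 2))⁻¹)
    (u' := evl [x, B, C, H, y, E, G, 2, 3] [0, 0, 4, 2, 2, -2, -4, -1, 0])
    (by
      simp only [ev, evl_cons, evl_nil_left, evl_nil_right, cond_true, cond_false, zpow_neg, zpow_ofNat, zpow_zero, zpow_one]
      field_simp
      try ring)
    (by
      simp only [ev, evl_cons, evl_nil_left, evl_nil_right, cond_true, cond_false, zpow_neg, zpow_ofNat, zpow_zero, zpow_one]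
      field_simp
      try ring)
  have c21 := hkc8b (f := (8 * B * G ^ 2 / (9 * C ^ 2 * H * y)) ^ 2 * (8 * G ^ 2 / (9 * C ^ 2 * H)) * (-(4 * B ^ 2 * G ^ 2) / (9 * C * H * E ^ 2)) / (2 * (-(8 * x * B ^ 2 * G ^ 2) / (9 * C ^ 2 * H * y * E)) * (-(16 * B * G ^ 2) / (27 * C ^ 2 * H * E)) ^ 2))
    (f' := ev [x, B, C, H, y, E, G, 2, 3] (false, [-1, 0, -1, -1, -1, 1, 2, -1, 0]))
    (u := (-(8 * x * B ^ 2 * G ^ 2) / (9 * C ^ 2 * H * y * E)) ^ 2 / (2 * (-(4 * B ^ 2 * G ^ 2) / (9 * C * H * E ^ 2)) ^ 2))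
    (u' := evl [x, B, C, H, y, E, G, 2, 3] [2, 0, -2, 0, -2, 2, 0, 1, 0])
    (by
      simp only [ev, evl_cons, evl_nil_left, evl_nil_right, cond_true, cond_false, zpow_neg, zpow_ofNat, zpow_zero, zpow_one]
      field_simp
      try ring)
    (by
      simp only [ev, evl_cons, evl_nil_left, evl_nil_right, cond_true, cond_false, zpow_neg, zpow_ofNat, zpow_zero, zpow_one]
      field_simp
      try ring)
  have c22 := hkc8b (f := (2 * B * G / (3 * C * E)) * (8 * B * G ^ 2 / (9 * C ^ 2 * H * y)) * (8 * G ^ 2 / (9 * C ^ 2 * H)) / ((-(8 * x * B ^ 2 * G ^ 2) / (9 * C ^ 2 * H * y * E)) * (-(16 * B * G ^ 2) / (27 * C ^ 2 * H * E))))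
    (f' := ev [x, B, C, H, y, E, G, 2, 3] (false, [-1, -1, -1, 0, 0, 1, 1, 0, 0]))
    (u := (((-(8 * x * B ^ 2 * G ^ 2) / (9 * C ^ 2 * H * y * E)) ^ 2 / (2 * (-(4 * B ^ 2 * G ^ 2) / (9 * C * H * E ^ 2)) ^ 2)) ^ 4)⁻¹)
    (u' := evl [x, B, C, H, y, E, G, 2, 3] [-8, 0, 8, 0, 8, -8, 0, -4, 0])
    (by
      simp only [ev, evl_cons, evl_nil_left, evl_nil_right, cond_true, cond_false, zpow_neg, zpow_ofNat, zpow_zero, zpow_one]
      field_simp
      try ring)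
    (by
      simp only [ev, evl_cons, evl_nil_left, evl_nil_right, cond_true, cond_false, zpow_neg, zpow_ofNat, zpow_zero, zpow_one]
      field_simp
      try ring)
  have c23 := hkc8b (f := (2 * B * G / (3 * C * E)) * (8 * B * G ^ 2 / (9 * C ^ 2 * H * y)) * (8 * G ^ 2 / (9 * C ^ 2 * H)) / ((-(8 * x * B ^ 2 * G ^ 2) / (9 * C ^ 2 * H * y * E)) * (-(16 * B * G ^ 2) / (27 * C ^ 2 * H * E))))
    (f' := ev [x, B, C, H, y, E, G, 2, 3] (false, [-1, -1, -1, 0, 0, 1, 1, 0, 0]))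
    (u := 9 * (-(16 * B * G ^ 2) / (27 * C ^ 2 * H * E)) ^ 2 / (8 * (2 * B * G / (3 * C * E)) ^ 2))
    (u' := evl [x, B, C, H, y, E, G, 2, 3] [0, 0, -2, -2, 0, 0, 2, 3, -2])
    (by
      simp only [ev, evl_cons, evl_nil_left, evl_nil_right, cond_true, cond_false, zpow_neg, zpow_ofNat, zpow_zero, zpow_one]
      field_simp
      try ring)
    (by
      simp only [ev, evl_cons, evl_nil_left, evl_nil_right, cond_true, cond_false, zpow_neg, zpow_ofNat, zpow_zero, zpow_one]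
      field_simp
      try ring)
  have c24 := hkc8b (f := (8 * C * y / (27 * H * G)) * (-(16 * x * C) / (81 * H * G)) ^ 2 / (2 * (-(2 * C) / (9 * H)) * (-(8 * x) / (9 * H)) * (16 / (81 * H)) * (4 * C * E / (27 * H * G))))
    (f' := ev [x, B, C, H, y, E, G, 2, 3] (false, [1, 0, 1, 1, 1, -1, -2, 0, 0]))
    (u := ((-(8 * x) / (9 * H)) ^ 2 * (4 * C * E / (27 * H * G)) ^ 2 / (2 * (-(2 * C) / (9 * H)) ^ 2 * (8 * C * y / (27 * H * G)) ^ 2))⁻¹)
    (u' := evl [x, B, C, H, y, E, G, 2, 3] [-2, 0, 2, 0, 2, -2, 0, -1, 0])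
    (by
      simp only [ev, evl_cons, evl_nil_left, evl_nil_right, cond_true, cond_false, zpow_neg, zpow_ofNat, zpow_zero, zpow_one]
      field_simp
      try ring)
    (by
      simp only [ev, evl_cons, evl_nil_left, evl_nil_right, cond_true, cond_false, zpow_neg, zpow_ofNat, zpow_zero, zpow_one]
      field_simp
      try ring)
  have c25 := hkc8b (f := (8 * C * y / (27 * H * G)) * (-(16 * x * C) / (81 * H * G)) / ((-(2 * C) / (9 * H)) * (-(4 * B) / (9 * H)) * (-(8 * x) / (9 * H))))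
    (f' := ev [x, B, C, H, y, E, G, 2, 3] (false, [0, -1, 1, 1, 1, 0, -2, 1, -1]))
    (u := ((-(8 * x) / (9 * H)) ^ 2 * (4 * C * E / (27 * H * G)) ^ 2 / (2 * (-(2 * C) / (9 * H)) ^ 2 * (8 * C * y / (27 * H * G)) ^ 2)) ^ 4)
    (u' := evl [x, B, C, H, y, E, G, 2, 3] [8, 0, -8, 0, -8, 8, 0, 4, 0])
    (by
      simp only [ev, evl_cons, evl_nil_left, evl_nil_right, cond_true, cond_false, zpow_neg, zpow_ofNat, zpow_zero, zpow_one]
      field_simp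
      try ring)
    (by
      simp only [ev, evl_cons, evl_nil_left, evl_nil_right, cond_true, cond_false, zpow_neg, zpow_ofNat, zpow_zero, zpow_one]
      field_simp
      try ring)
  have c26 := hkc8b (f := (8 * C * y / (27 * H * G)) * (-(16 * x * C) / (81 * H * G)) / ((-(2 * C) / (9 * H)) * (-(4 * B) / (9 * H)) * (-(8 * x) / (9 * H))))
    (f' := ev [x, B, C, H, y, E, G, 2, 3] (false, [0, -1, 1, 1, 1, 0, -2, 1, -1]))
    (u := (9 * (-(8 * x) / (9 * H)) ^ 2 * (16 / (81 * H)) ^ 2 / (8 * (-(16 * x * C) / (81 * H * G)) ^ 2))⁻¹)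
    (u' := evl [x, B, C, H, y, E, G, 2, 3] [0, 0, 2, 2, 0, 0, -2, -3, 2])
    (by
      simp only [ev, evl_cons, evl_nil_left, evl_nil_right, cond_true, cond_false, zpow_neg, zpow_ofNat, zpow_zero, zpow_one]
      field_simp
      try ring)
    (by
      simp only [ev, evl_cons, evl_nil_left, evl_nil_right, cond_true, cond_false, zpow_neg, zpow_ofNat, zpow_zero, zpow_one]
      field_simp
      try ring)
  have c27 := hkc8b (f := (-(8 * x) / (9 * H)) ^ 2 * (16 / (81 * H)) * (4 * C * E / (27 * H * G)) / (2 * (8 * C * y / (27 * H * G)) * (-(16 * x * C) / (81 * H * G)) ^ 2))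
    (f' := ev [x, B, C, H, y, E, G, 2, 3] (false, [0, 0, -2, -1, -1, 1, 2, 0, 0]))
    (u := (8 * C * y / (27 * H * G)) ^ 2 / (2 * (4 * C * E / (27 * H * G)) ^ 2))
    (u' := evl [x, B, C, H, y, E, G, 2, 3] [0, 0, 0, 0, 2, -2, 0, 1, 0])
    (by
      simp only [ev, evl_cons, evl_nil_left, evl_nil_right, cond_true, cond_false, zpow_neg, zpow_ofNat, zpow_zero, zpow_one]
      field_simp
      try ring)
    (by
      simp only [ev, evl_cons, evl_nil_left, evl_nil_right, cond_true, cond_false, zpow_neg, zpow_ofNat, zpow_zero, zpow_one]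
      field_simp
      try ring)
  have c28 := hkc8b (f := (-(2 * C) / (9 * H)) * (-(8 * x) / (9 * H)) * (16 / (81 * H)) / ((8 * C * y / (27 * H * G)) * (-(16 * x * C) / (81 * H * G))))
    (f' := ev [x, B, C, H, y, E, G, 2, 3] (true, [0, 0, -1, -1, -1, 0, 2, 1, -1]))
    (u := (((8 * C * y / (27 * H * G)) ^ 2 / (2 * (4 * C * E / (27 * H * G)) ^ 2)) ^ 4)⁻¹)
    (u' := evl [x, B, C, H, y, E, G, 2, 3] [0, 0, 0, 0, -8, 8, 0, -4, 0])
    (by
      simp only [ev, evl_cons, evl_nil_left, evl_nil_right, cond_true, cond_false, zpow_neg, zpow_ofNat, zpow_zero, zpow_one]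
      field_simp
      try ring)
    (by
      simp only [ev, evl_cons, evl_nil_left, evl_nil_right, cond_true, cond_false, zpow_neg, zpow_ofNat, zpow_zero, zpow_one]
      field_simp
      try ring)
  have c29 := hkc8b (f := (-(2 * C) / (9 * H)) * (-(8 * x) / (9 * H)) * (16 / (81 * H)) / ((8 * C * y / (27 * H * G)) * (-(16 * x * C) / (81 * H * G))))
    (f' := ev [x, B, C, H, y, E, G, 2, 3] (true, [0, 0, -1, -1, -1, 0, 2, 1, -1]))
    (u := 9 * (-(16 * x * C) / (81 * H * G)) ^ 2 / (8 * (-(2 * C) / (9 * H)) ^ 2))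
    (u' := evl [x, B, C, H, y, E, G, 2, 3] [2, 0, 0, 0, 0, 0, -2, 3, -2])
    (by
      simp only [ev, evl_cons, evl_nil_left, evl_nil_right, cond_true, cond_false, zpow_neg, zpow_ofNat, zpow_zero, zpow_one]
      field_simp
      try ring)
    (by
      simp only [ev, evl_cons, evl_nil_left, evl_nil_right, cond_true, cond_false, zpow_neg, zpow_ofNat, zpow_zero, zpow_one]
      field_simp
      try ring)
  have c30 := hkc8b (f := (-(8 * H ^ 2 * y * E) / (27 * B * G ^ 3)) * (8 * x * H ^ 2 * y / (9 * G ^ 3)) ^ 2 / (2 * (2 * H * E / (3 * C * G)) * (-(8 * H * y) / (9 * G ^ 2)) * (8 * x ^ 2 * H / (9 * G ^ 2)) * (4 * H ^ 2 * y * E / (9 * B * C * G ^ 2))))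
    (f' := ev [x, B, C, H, y, E, G, 2, 3] (false, [0, 0, 2, 1, 1, -1, -2, -1, 0]))
    (u := ((-(8 * H * y) / (9 * G ^ 2)) ^ 2 * (4 * H ^ 2 * y * E / (9 * B * C * G ^ 2)) ^ 2 / (2 * (2 * H * E / (3 * C * G)) ^ 2 * (-(8 * H ^ 2 * y * E) / (27 * B * G ^ 3)) ^ 2))⁻¹)
    (u' := evl [x, B, C, H, y, E, G, 2, 3] [0, 0, 0, 0, -2, 2, 0, -1, 0])
    (by
      simp only [ev, evl_cons, evl_nil_left, evl_nil_right, cond_true, cond_false, zpow_neg, zpow_ofNat, zpow_zero, zpow_one]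
      field_simp
      try ring)
    (by
      simp only [ev, evl_cons, evl_nil_left, evl_nil_right, cond_true, cond_false, zpow_neg, zpow_ofNat, zpow_zero, zpow_one]
      field_simp
      try ring)
  have c31 := hkc8b (f := (-(8 * H ^ 2 * y * E) / (27 * B * G ^ 3)) * (8 * x * H ^ 2 * y / (9 * G ^ 3)) / ((2 * H * E / (3 * C * G)) * (4 * H * y * E / (9 * B * G ^ 2)) * (-(8 * H * y) / (9 * G ^ 2))))
    (f' := ev [x, B, C, H, y, E, G, 2, 3] (false, [1, 0, 1, 1, 0, -1, -1, 0, 0]))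
    (u := ((-(8 * H * y) / (9 * G ^ 2)) ^ 2 * (4 * H ^ 2 * y * E / (9 * B * C * G ^ 2)) ^ 2 / (2 * (2 * H * E / (3 * C * G)) ^ 2 * (-(8 * H ^ 2 * y * E) / (27 * B * G ^ 3)) ^ 2)) ^ 4)
    (u' := evl [x, B, C, H, y, E, G, 2, 3] [0, 0, 0, 0, 8, -8, 0, 4, 0])
    (by
      simp only [ev, evl_cons, evl_nil_left, evl_nil_right, cond_true, cond_false, zpow_neg, zpow_ofNat, zpow_zero, zpow_one]
      field_simp
      try ring)
    (by
      simp only [ev, evl_cons, evl_nil_left, evl_nil_right, cond_true, cond_false, zpow_neg, zpow_ofNat, zpow_zero, zpow_one]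
      field_simp
      try ring)
  have c32 := hkc8b (f := (-(8 * H ^ 2 * y * E) / (27 * B * G ^ 3)) * (8 * x * H ^ 2 * y / (9 * G ^ 3)) / ((2 * H * E / (3 * C * G)) * (4 * H * y * E / (9 * B * G ^ 2)) * (-(8 * H * y) / (9 * G ^ 2))))
    (f' := ev [x, B, C, H, y, E, G, 2, 3] (false, [1, 0, 1, 1, 0, -1, -1, 0, 0]))
    (u := (9 * (-(8 * H * y) / (9 * G ^ 2)) ^ 2 * (8 * x ^ 2 * H / (9 * G ^ 2)) ^ 2 / (8 * (8 * x * H ^ 2 * y / (9 * G ^ 3)) ^ 2))⁻¹)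
    (u' := evl [x, B, C, H, y, E, G, 2, 3] [-2, 0, 0, 0, 0, 0, 2, -3, 2])
    (by
      simp only [ev, evl_cons, evl_nil_left, evl_nil_right, cond_true, cond_false, zpow_neg, zpow_ofNat, zpow_zero, zpow_one]
      field_simp
      try ring)
    (by
      simp only [ev, evl_cons, evl_nil_left, evl_nil_right, cond_true, cond_false, zpow_neg, zpow_ofNat, zpow_zero, zpow_one]
      field_simp
      try ring)
  have c33 := hkc8b (f := (-(8 * H * y) / (9 * G ^ 2)) ^ 2 * (8 * x ^ 2 * H / (9 * G ^ 2)) * (4 * H ^ 2 * y * E / (9 * B * C * G ^ 2)) / (2 * (-(8 * H ^ 2 * y * E) / (27 * B * G ^ 3)) * (8 * x * H ^ 2 * y / (9 * G ^ 3)) ^ 2))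
    (f' := ev [x, B, C, H, y, E, G, 2, 3] (true, [0, 0, -1, -1, 0, 0, 1, 1, -1]))
    (u := (-(8 * H ^ 2 * y * E) / (27 * B * G ^ 3)) ^ 2 / (2 * (4 * H ^ 2 * y * E / (9 * B * C * G ^ 2)) ^ 2))
    (u' := evl [x, B, C, H, y, E, G, 2, 3] [0, 0, 2, 0, 0, 0, -2, 1, -2])
    (by
      simp only [ev, evl_cons, evl_nil_left, evl_nil_right, cond_true, cond_false, zpow_neg, zpow_ofNat, zpow_zero, zpow_one]
      field_simp
      try ring)
    (by
      simp only [ev, evl_cons, evl_nil_left, evl_nil_right, cond_true, cond_false, zpow_neg, zpow_ofNat, zpow_zero, zpow_one]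
      field_simp
      try ring)
  have c34 := hkc8b (f := (2 * H * E / (3 * C * G)) * (-(8 * H * y) / (9 * G ^ 2)) * (8 * x ^ 2 * H / (9 * G ^ 2)) / ((-(8 * H ^ 2 * y * E) / (27 * B * G ^ 3)) * (8 * x * H ^ 2 * y / (9 * G ^ 3))))
    (f' := ev [x, B, C, H, y, E, G, 2, 3] (false, [1, 1, -1, -1, -1, 0, 1, 1, 0]))
    (u := (((-(8 * H ^ 2 * y * E) / (27 * B * G ^ 3)) ^ 2 / (2 * (4 * H ^ 2 * y * E / (9 * B * C * G ^ 2)) ^ 2)) ^ 4)⁻¹)
    (u' := evl [x, B, C, H, y, E, G, 2, 3] [0, 0, -8, 0, 0, 0, 8, -4, 8])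
    (by
      simp only [ev, evl_cons, evl_nil_left, evl_nil_right, cond_true, cond_false, zpow_neg, zpow_ofNat, zpow_zero, zpow_one]
      field_simp
      try ring)
    (by
      simp only [ev, evl_cons, evl_nil_left, evl_nil_right, cond_true, cond_false, zpow_neg, zpow_ofNat, zpow_zero, zpow_one]
      field_simp
      try ring)
  have c35 := hkc8b (f := (2 * H * E / (3 * C * G)) * (-(8 * H * y) / (9 * G ^ 2)) * (8 * x ^ 2 * H / (9 * G ^ 2)) / ((-(8 * H ^ 2 * y * E) / (27 * B * G ^ 3)) * (8 * x * H ^ 2 * y / (9 * G ^ 3))))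
    (f' := ev [x, B, C, H, y, E, G, 2, 3] (false, [1, 1, -1, -1, -1, 0, 1, 1, 0]))
    (u := 9 * (8 * x * H ^ 2 * y / (9 * G ^ 3)) ^ 2 / (8 * (2 * H * E / (3 * C * G)) ^ 2))
    (u' := evl [x, B, C, H, y, E, G, 2, 3] [2, 0, 2, 2, 2, -2, -4, 1, 0])
    (by
      simp only [ev, evl_cons, evl_nil_left, evl_nil_right, cond_true, cond_false, zpow_neg, zpow_ofNat, zpow_zero, zpow_one]
      field_simp
      try ring)
    (by
      simp only [ev, evl_cons, evl_nil_left, evl_nil_right, cond_true, cond_false, zpow_neg, zpow_ofNat, zpow_zero, zpow_one]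
      field_simp
      try ring)
  have c36 := hkc8b (f := (-(4 * x * C ^ 2 * H * y) / (27 * B * E ^ 2 * G)) * (4 * C ^ 3 * H * y ^ 2 / (27 * B * E ^ 2 * G ^ 2)) ^ 2 / (2 * (2 * C * y / (9 * B * E)) * (-(4 * x * C ^ 2 * H * y) / (9 * B * E * G ^ 2)) * (4 * C ^ 2 * H * y ^ 2 / (9 * E ^ 2 * G ^ 2)) * (-(4 * C ^ 2 * y) / (81 * B * E ^ 2))))
    (f' := ev [x, B, C, H, y, E, G, 2, 3] (true, [0, 0, 1, 1, 0, 0, -1, -2, 1]))
    (u := ((-(4 * x * C ^ 2 * H * y) / (9 * B * E * G ^ 2)) ^ 2 * (-(4 * C ^ 2 * y) / (81 * B * E ^ 2)) ^ 2 / (2 * (2 * C * y / (9 * B * E)) ^ 2 * (-(4 * x * C ^ 2 * H * y) / (27 * B * E ^ 2 * G)) ^ 2))⁻¹)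
    (u' := evl [x, B, C, H, y, E, G, 2, 3] [0, 0, -2, 0, 0, 0, 2, -1, 2])
    (by
      simp only [ev, evl_cons, evl_nil_left, evl_nil_right, cond_true, cond_false, zpow_neg, zpow_ofNat, zpow_zero, zpow_one]
      field_simp
      try ring)
    (by
      simp only [ev, evl_cons, evl_nil_left, evl_nil_right, cond_true, cond_false, zpow_neg, zpow_ofNat, zpow_zero, zpow_one]
      field_simp
      try ring)
  have c37 := hkc8b (f := (-(4 * x * C ^ 2 * H * y) / (27 * B * E ^ 2 * G)) * (4 * C ^ 3 * H * y ^ 2 / (27 * B * E ^ 2 * G ^ 2)) / ((2 * C * y / (9 * B * E)) * (4 * C * H * y / (27 * B * E * G)) * (-(4 * x * C ^ 2 * H * y) / (9 * B * E * G ^ 2))))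
    (f' := ev [x, B, C, H, y, E, G, 2, 3] (false, [0, 1, 1, 0, 0, -1, 0, -1, 1]))
    (u := ((-(4 * x * C ^ 2 * H * y) / (9 * B * E * G ^ 2)) ^ 2 * (-(4 * C ^ 2 * y) / (81 * B * E ^ 2)) ^ 2 / (2 * (2 * C * y / (9 * B * E)) ^ 2 * (-(4 * x * C ^ 2 * H * y) / (27 * B * E ^ 2 * G)) ^ 2)) ^ 4)
    (u' := evl [x, B, C, H, y, E, G, 2, 3] [0, 0, 8, 0, 0, 0, -8, 4, -8])
    (by
      simp only [ev, evl_cons, evl_nil_left, evl_nil_right, cond_true, cond_false, zpow_neg, zpow_ofNat, zpow_zero, zpow_one]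
      field_simp
      try ring)
    (by
      simp only [ev, evl_cons, evl_nil_left, evl_nil_right, cond_true, cond_false, zpow_neg, zpow_ofNat, zpow_zero, zpow_one]
      field_simp
      try ring)
  have c38 := hkc8b (f := (-(4 * x * C ^ 2 * H * y) / (27 * B * E ^ 2 * G)) * (4 * C ^ 3 * H * y ^ 2 / (27 * B * E ^ 2 * G ^ 2)) / ((2 * C * y / (9 * B * E)) * (4 * C * H * y / (27 * B * E * G)) * (-(4 * x * C ^ 2 * H * y) / (9 * B * E * G ^ 2))))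
    (f' := ev [x, B, C, H, y, E, G, 2, 3] (false, [0, 1, 1, 0, 0, -1, 0, -1, 1]))
    (u := (9 * (-(4 * x * C ^ 2 * H * y) / (9 * B * E * G ^ 2)) ^ 2 * (4 * C ^ 2 * H * y ^ 2 / (9 * E ^ 2 * G ^ 2)) ^ 2 / (8 * (4 * C ^ 3 * H * y ^ 2 / (27 * B * E ^ 2 * G ^ 2)) ^ 2))⁻¹)
    (u' := evl [x, B, C, H, y, E, G, 2, 3] [-2, 0, -2, -2, -2, 2, 4, -1, 0])
    (by
      simp only [ev, evl_cons, evl_nil_left, evl_nil_right, cond_true, cond_false, zpow_neg, zpow_ofNat, zpow_zero, zpow_one]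
      field_simp
      try ring)
    (by
      simp only [ev, evl_cons, evl_nil_left, evl_nil_right, cond_true, cond_false, zpow_neg, zpow_ofNat, zpow_zero, zpow_one]
      field_simp
      try ring)
  have c39 := hkc8b (f := (-(4 * x * C ^ 2 * H * y) / (9 * B * E * G ^ 2)) ^ 2 * (4 * C ^ 2 * H * y ^ 2 / (9 * E ^ 2 * G ^ 2)) * (-(4 * C ^ 2 * y) / (81 * B * E ^ 2)) / (2 * (-(4 * x * C ^ 2 * H * y) / (27 * B * E ^ 2 * G)) * (4 * C ^ 3 * H * y ^ 2 / (27 * B * E ^ 2 * G ^ 2)) ^ 2))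
    (f' := ev [x, B, C, H, y, E, G, 2, 3] (false, [1, 0, 0, 0, 0, 0, -1, 1, -1]))
    (u := (-(4 * x * C ^ 2 * H * y) / (27 * B * E ^ 2 * G)) ^ 2 / (2 * (-(4 * C ^ 2 * y) / (81 * B * E ^ 2)) ^ 2))
    (u' := evl [x, B, C, H, y, E, G, 2, 3] [2, 0, 0, 2, 0, 0, -2, -1, 2])
    (by
      simp only [ev, evl_cons, evl_nil_left, evl_nil_right, cond_true, cond_false, zpow_neg, zpow_ofNat, zpow_zero, zpow_one]
      field_simp
      try ring)
    (by
      simp only [ev, evl_cons, evl_nil_left, evl_nil_right, cond_true, cond_false, zpow_neg, zpow_ofNat, zpow_zero, zpow_one]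
      field_simp
      try ring)
  have c40 := hkc8b (f := (2 * C * y / (9 * B * E)) * (-(4 * x * C ^ 2 * H * y) / (9 * B * E * G ^ 2)) * (4 * C ^ 2 * H * y ^ 2 / (9 * E ^ 2 * G ^ 2)) / ((-(4 * x * C ^ 2 * H * y) / (27 * B * E ^ 2 * G)) * (4 * C ^ 3 * H * y ^ 2 / (27 * B * E ^ 2 * G ^ 2))))
    (f' := ev [x, B, C, H, y, E, G, 2, 3] (false, [0, 0, 0, 0, 1, 0, -1, 1, 0]))
    (u := (((-(4 * x * C ^ 2 * H * y) / (27 * B * E ^ 2 * G)) ^ 2 / (2 * (-(4 * C ^ 2 * y) / (81 * B * E ^ 2)) ^ 2)) ^ 4)⁻¹)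
    (u' := evl [x, B, C, H, y, E, G, 2, 3] [-8, 0, 0, -8, 0, 0, 8, 4, -8])
    (by
      simp only [ev, evl_cons, evl_nil_left, evl_nil_right, cond_true, cond_false, zpow_neg, zpow_ofNat, zpow_zero, zpow_one]
      field_simp
      try ring)
    (by
      simp only [ev, evl_cons, evl_nil_left, evl_nil_right, cond_true, cond_false, zpow_neg, zpow_ofNat, zpow_zero, zpow_one]
      field_simp
      try ring)
  have c41 := hkc8b (f := (2 * C * y / (9 * B * E)) * (-(4 * x * C ^ 2 * H * y) / (9 * B * E * G ^ 2)) * (4 * C ^ 2 * H * y ^ 2 / (9 * E ^ 2 * G ^ 2)) / ((-(4 * x * C ^ 2 * H * y) / (27 * B * E ^ 2 * G)) * (4 * C ^ 3 * H * y ^ 2 / (27 * B * E ^ 2 * G ^ 2))))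
    (f' := ev [x, B, C, H, y, E, G, 2, 3] (false, [0, 0, 0, 0, 1, 0, -1, 1, 0]))
    (u := 9 * (4 * C ^ 3 * H * y ^ 2 / (27 * B * E ^ 2 * G ^ 2)) ^ 2 / (8 * (2 * C * y / (9 * B * E)) ^ 2))
    (u' := evl [x, B, C, H, y, E, G, 2, 3] [0, 0, 4, 2, 2, -2, -4, -1, 0])
    (by
      simp only [ev, evl_cons, evl_nil_left, evl_nil_right, cond_true, cond_false, zpow_neg, zpow_ofNat, zpow_zero, zpow_one]
      field_simp
      try ring)
    (by
      simp only [ev, evl_cons, evl_nil_left, evl_nil_right, cond_true, cond_false, zpow_neg, zpow_ofNat, zpow_zero, zpow_one]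
      field_simp
      try ring)
  have c42 := hkc8b (f := (2 * B ^ 2 * C / (9 * y * E)) * (2 * B * C * H / (9 * y * G)) ^ 2 / (2 * (-(2 * B) / (9 * y)) * (-(2 * B * C * H) / (3 * E * G)) * (2 * C ^ 2 * H / (9 * G ^ 2)) * (2 * x * B ^ 2 / (9 * y ^ 2))))
    (f' := ev [x, B, C, H, y, E, G, 2, 3] (false, [-1, 0, 0, 0, 0, 0, 1, -2, 1]))
    (u := ((-(2 * B * C * H) / (3 * E * G)) ^ 2 * (2 * x * B ^ 2 / (9 * y ^ 2)) ^ 2 / (2 * (-(2 * B) / (9 * y)) ^ 2 * (2 * B ^ 2 * C / (9 * y * E)) ^ 2))⁻¹)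
    (u' := evl [x, B, C, H, y, E, G, 2, 3] [-2, 0, 0, -2, 0, 0, 2, 1, -2])
    (by
      simp only [ev, evl_cons, evl_nil_left, evl_nil_right, cond_true, cond_false, zpow_neg, zpow_ofNat, zpow_zero, zpow_one]
      field_simp
      try ring)
    (by
      simp only [ev, evl_cons, evl_nil_left, evl_nil_right, cond_true, cond_false, zpow_neg, zpow_ofNat, zpow_zero, zpow_one]
      field_simp
      try ring)
  have c43 := hkc8b (f := (2 * B ^ 2 * C / (9 * y * E)) * (2 * B * C * H / (9 * y * G)) / ((-(2 * B) / (9 * y)) * (-(2 * x * B * C) / (9 * y * E)) * (-(2 * B * C * H) / (3 * E * G))))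
    (f' := ev [x, B, C, H, y, E, G, 2, 3] (true, [-1, 0, 0, 0, 0, 1, 0, -1, 1]))
    (u := ((-(2 * B * C * H) / (3 * E * G)) ^ 2 * (2 * x * B ^ 2 / (9 * y ^ 2)) ^ 2 / (2 * (-(2 * B) / (9 * y)) ^ 2 * (2 * B ^ 2 * C / (9 * y * E)) ^ 2)) ^ 4)
    (u' := evl [x, B, C, H, y, E, G, 2, 3] [8, 0, 0, 8, 0, 0, -8, -4, 8])
    (by
      simp only [ev, evl_cons, evl_nil_left, evl_nil_right, cond_true, cond_false, zpow_neg, zpow_ofNat, zpow_zero, zpow_one]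
      field_simp
      try ring)
    (by
      simp only [ev, evl_cons, evl_nil_left, evl_nil_right, cond_true, cond_false, zpow_neg, zpow_ofNat, zpow_zero, zpow_one]
      field_simp
      try ring)
  have c44 := hkc8b (f := (2 * B ^ 2 * C / (9 * y * E)) * (2 * B * C * H / (9 * y * G)) / ((-(2 * B) / (9 * y)) * (-(2 * x * B * C) / (9 * y * E)) * (-(2 * B * C * H) / (3 * E * G))))
    (f' := ev [x, B, C, H, y, E, G, 2, 3] (true, [-1, 0, 0, 0, 0, 1, 0, -1, 1]))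
    (u := (9 * (-(2 * B * C * H) / (3 * E * G)) ^ 2 * (2 * C ^ 2 * H / (9 * G ^ 2)) ^ 2 / (8 * (2 * B * C * H / (9 * y * G)) ^ 2))⁻¹)
    (u' := evl [x, B, C, H, y, E, G, 2, 3] [0, 0, -4, -2, -2, 2, 4, 1, 0])
    (by
      simp only [ev, evl_cons, evl_nil_left, evl_nil_right, cond_true, cond_false, zpow_neg, zpow_ofNat, zpow_zero, zpow_one]
      field_simp
      try ring)
    (by
      simp only [ev, evl_cons, evl_nil_left, evl_nil_right, cond_true, cond_false, zpow_neg, zpow_ofNat, zpow_zero, zpow_one]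
      field_simp
      try ring)
  have c45 := hkc8b (f := (-(2 * B * C * H) / (3 * E * G)) ^ 2 * (2 * C ^ 2 * H / (9 * G ^ 2)) * (2 * x * B ^ 2 / (9 * y ^ 2)) / (2 * (2 * B ^ 2 * C / (9 * y * E)) * (2 * B * C * H / (9 * y * G)) ^ 2))
    (f' := ev [x, B, C, H, y, E, G, 2, 3] (false, [1, 0, 1, 1, 1, -1, -2, 0, 0]))
    (u := (2 * B ^ 2 * C / (9 * y * E)) ^ 2 / (2 * (2 * x * B ^ 2 / (9 * y ^ 2)) ^ 2))
    (u' := evl [x, B, C, H, y, E, G, 2, 3] [-2, 0, 2, 0, 2, -2, 0, -1, 0])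
    (by
      simp only [ev, evl_cons, evl_nil_left, evl_nil_right, cond_true, cond_false, zpow_neg, zpow_ofNat, zpow_zero, zpow_one]
      field_simp
      try ring)
    (by
      simp only [ev, evl_cons, evl_nil_left, evl_nil_right, cond_true, cond_false, zpow_neg, zpow_ofNat, zpow_zero, zpow_one]
      field_simp
      try ring)
  have c46 := hkc8b (f := (-(2 * B) / (9 * y)) * (-(2 * B * C * H) / (3 * E * G)) * (2 * C ^ 2 * H / (9 * G ^ 2)) / ((2 * B ^ 2 * C / (9 * y * E)) * (2 * B * C * H / (9 * y * G))))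
    (f' := ev [x, B, C, H, y, E, G, 2, 3] (false, [0, -1, 1, 1, 1, 0, -2, 1, -1]))
    (u := (((2 * B ^ 2 * C / (9 * y * E)) ^ 2 / (2 * (2 * x * B ^ 2 / (9 * y ^ 2)) ^ 2)) ^ 4)⁻¹)
    (u' := evl [x, B, C, H, y, E, G, 2, 3] [8, 0, -8, 0, -8, 8, 0, 4, 0])
    (by
      simp only [ev, evl_cons, evl_nil_left, evl_nil_right, cond_true, cond_false, zpow_neg, zpow_ofNat, zpow_zero, zpow_one]
      field_simp
      try ring)
    (by
      simp only [ev, evl_cons, evl_nil_left, evl_nil_right, cond_true, cond_false, zpow_neg, zpow_ofNat, zpow_zero, zpow_one]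
      field_simp
      try ring)
  have c47 := hkc8b (f := (-(2 * B) / (9 * y)) * (-(2 * B * C * H) / (3 * E * G)) * (2 * C ^ 2 * H / (9 * G ^ 2)) / ((2 * B ^ 2 * C / (9 * y * E)) * (2 * B * C * H / (9 * y * G))))
    (f' := ev [x, B, C, H, y, E, G, 2, 3] (false, [0, -1, 1, 1, 1, 0, -2, 1, -1]))
    (u := 9 * (2 * B * C * H / (9 * y * G)) ^ 2 / (8 * (-(2 * B) / (9 * y)) ^ 2))
    (u' := evl [x, B, C, H, y, E, G, 2, 3] [0, 0, 2, 2, 0, 0, -2, -3, 2])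
    (by
      simp only [ev, evl_cons, evl_nil_left, evl_nil_right, cond_true, cond_false, zpow_neg, zpow_ofNat, zpow_zero, zpow_one]
      field_simp
      try ring)
    (by
      simp only [ev, evl_cons, evl_nil_left, evl_nil_right, cond_true, cond_false, zpow_neg, zpow_ofNat, zpow_zero, zpow_one]
      field_simp
      try ring)
  rw [c0, c1, c2, c3, c4, c5, c6, c7, c8, c9, c10, c11, c12, c13, c14, c15, c16, c17, c18, c19, c20, c21, c22, c23, c24, c25, c26, c27, c28, c29, c30, c31, c32, c33, c34, c35, c36, c37, c38, c39, c40, c41, c42, c43, c44, c45, c46, c47]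
  abel

/-- the class has no residues -/
theorem unram_xi8b {k : Type*} [Field k] [CharZero k] [Algebra k F]
    (he : y ^ 2 + 1 / 3 * x * y - 2 / 9 * y = x ^ 3 - 2 / 9 * x ^ 2)
    (hne : ∀ z ∈ FK4R.g8b x y, z ≠ 0) : Unram k (K4N.xi8b x y) := by
  have : CharZero F := charZero_of_injective_algebraMap (algebraMap k F).injective
  rw [xi8b_eq he hne]
  exact FK4R.unram8b he hne L8b_res

end eq

end Pool.Agent.FK4
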