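import Pool.Agent.Lib_helper54.FAM.RC3
import Pool.Agent.Lib_helper54.FAM.Pl9

set_option autoImplicit false

/-!
The residues of the explicit elements on the special curve with a point of order nine.
-/

namespace Pool.Agent.FK4R

open Pool.Agent.K4R Pool.Agent.KC72
open scoped WithZero TensorProduct

variable {k : Type*} [Field k] [CharZero k] {F : Type*} [Field F] [Algebra k F]

/-- **Order nine** (`b = 12`, `c = 4`). -/
theorem unram9 {x y : F} (heq : y ^ 2 - 3 * x * y - 12 * y = x ^ 3 - 12 * x ^ 2)
    (hne : ∀ z ∈ g9 x y, z ≠ 0) {cls : List (Mo × Mo)} {L : List Tm}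
    (hc : chkRes locs9 tab23 cls L = true) : FK4.Unram k (zt (g9 x y) cls L) :=
  unram_of (fun _ _ hT => places9 hT heq hne) hc

/-- the generators do not vanish at a generic point -/
lemma g9_ne {b c : k} {x y : F} (h : TN.Gen b c x y) : ∀ z ∈ g9 x y, z ≠ 0 := by
  intro z hz
  simp only [g9, List.mem_cons, List.not_mem_nil, or_false] at hz
  have a := fun q : ℚ => h.xc_ne (q : k)
  have b := fun q : ℚ => h.yab_ne (q : k) 0
  simp only [map_ratCast, map_zero, add_zero] at a b
  have : CharZero F := charZero_of_injective_algebraMap (algebraMap k F).injective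
  rcases hz with rfl | rfl | rfl | rfl | rfl | rfl | rfl | rfl | rfl | rfl
  · exact h.x_ne
  · simpa using a 12
  · simpa using a 4
  · simpa using a 6
  · exact h.y_ne
  · simpa [sub_eq_add_neg] using b (-4)
  · simpa [sub_eq_add_neg] using b (-2)
  · simpa [sub_eq_add_neg] using b (-3)
  · norm_num
  · norm_num

end Pool.Agent.FK4R
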