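import Pool.Agent.Lib_helper24.FAM.LK
import Pool.Agent.Lib_helper2.K4N.Q7X
import Pool.Agent.Lib_helper54.FAM.RC9

set_option autoImplicit false
set_option linter.unusedSectionVars false
set_option linter.unusedVariables false
set_option linter.unusedSimpArgs false
set_option maxRecDepth 100000

/-!
# The special curve with a point of order nine: the units at the translates
-/

open scoped TensorProduct

namespace Pool.Agent.FK4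

open Pool.Agent.MK4 Pool.Agent.TN Pool.Agent.KC72

section tup

variable {F : Type*} [Field F] {x y A B C H D E G J : F}

/-- the eight units at a point of the curve -/
structure Q9 (x y A B C H D E G J : F) : Prop where
  hA : x = A
  hB : x - 12 = B
  hC : x - 4 = C
  hH : x - 6 = H
  hD : y = D
  hE : y - 4 * x = E
  hG : y - 2 * x = G
  hJ : y - 3 * x = J
  A0 : A ≠ 0
  B0 : B ≠ 0
  C0 : C ≠ 0
  H0 : H ≠ 0
  D0 : D ≠ 0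
  E0 : E ≠ 0
  G0 : G ≠ 0
  J0 : J ≠ 0
  eq : y ^ 2 - 3 * x * y - 12 * y = x ^ 3 - 12 * x ^ 2

lemma Q9.congr {A' B' C' H' D' E' G' J' : F} (h : Q9 x y A B C H D E G J) (a : A = A')
    (b : B = B') (c : C = C') (e : H = H') (d : D = D') (f : E = E') (g : G = G') (j : J = J') :
    Q9 x y A' B' C' H' D' E' G' J' := by
  subst a b c d e f g j
  exact h

/-- translation by `P` -/
lemma Q9.step [CharZero F] {p : F × F} (h : Q9 p.1 p.2 A B C H D E G J) :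
    Q9 (K4N.Tn (12 : F) p).1 (K4N.Tn (12 : F) p).2
      (12 * D / (A ^ 2)) (-(12 * D * E) / (A ^ 2 * B))
      (-(4 * E * G) / (A ^ 2 * C)) (-(6 * G * J) / (A ^ 2 * H))
      (144 * D * E / (A ^ 3 * B)) (-(48 * D * E * G) / (A ^ 3 * B * C))
      (-(24 * E * G * J) / (A ^ 3 * C * H)) (-(36 * G ^ 2 * J) / (A ^ 3 * H ^ 2)) := by
  obtain ⟨x, y⟩ := p
  obtain ⟨hA, hB, hC, hH, hD, hE, hG, hJ, A0, B0, C0, H0, D0, E0, G0, J0, he⟩ := h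
  dsimp only at hA hB hC hH hD hE hG hJ he
  subst hA hB hC hH hD hE hG hJ
  have p2 : (2 : F) ≠ 0 := two_ne_zero
  have p3 : (3 : F) ≠ 0 := three_ne_zero
  have x2 : x ^ 2 ≠ 0 := pow_ne_zero 2 A0
  have x3 : x ^ 3 ≠ 0 := pow_ne_zero 3 A0
  have d0 : x ^ 2 ≠ 0 := by
    exact (pow_ne_zero 2 A0)
  have d1 : x ^ 2 * (x - 12) ≠ 0 := by
    exact (mul_ne_zero (pow_ne_zero 2 A0) B0)
  have d2 : x ^ 2 * (x - 4) ≠ 0 := by
    exact (mul_ne_zero (pow_ne_zero 2 A0) C0)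
  have d3 : x ^ 2 * (x - 6) ≠ 0 := by
    exact (mul_ne_zero (pow_ne_zero 2 A0) H0)
  have d4 : x ^ 3 * (x - 12) ≠ 0 := by
    exact (mul_ne_zero (pow_ne_zero 3 A0) B0)
  have d5 : x ^ 3 * (x - 12) * (x - 4) ≠ 0 := by
    exact (mul_ne_zero (mul_ne_zero (pow_ne_zero 3 A0) B0) C0)
  have d6 : x ^ 3 * (x - 4) * (x - 6) ≠ 0 := by
    exact (mul_ne_zero (mul_ne_zero (pow_ne_zero 3 A0) C0) H0)
  have d7 : x ^ 3 * (x - 6) ^ 2 ≠ 0 := by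
    exact (mul_ne_zero (pow_ne_zero 3 A0) (pow_ne_zero 2 H0))
  refine ⟨?_, ?_, ?_, ?_, ?_, ?_, ?_, ?_, ?_, ?_, ?_, ?_, ?_, ?_, ?_, ?_, ?_⟩
  · show 12 * y / x ^ 2 = 12 * y / (x ^ 2)
    rfl
  · show 12 * y / x ^ 2 - 12 = -(12 * y * (y - 4 * x)) / (x ^ 2 * (x - 12))
    have e : 12 * y / x ^ 2 - 12 = (12 * y - 12 * x ^ 2) / x ^ 2 := by
      field_simp
    rw [e, div_eq_div_iff x2 d1]
    linear_combination (12 * x ^ 2) * he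
  · show 12 * y / x ^ 2 - 4 = -(4 * (y - 4 * x) * (y - 2 * x)) / (x ^ 2 * (x - 4))
    have e : 12 * y / x ^ 2 - 4 = (12 * y - 4 * x ^ 2) / x ^ 2 := by
      field_simp
    rw [e, div_eq_div_iff x2 d2]
    linear_combination (4 * x ^ 2) * he
  · show 12 * y / x ^ 2 - 6 = -(6 * (y - 2 * x) * (y - 3 * x)) / (x ^ 2 * (x - 6))
    have e : 12 * y / x ^ 2 - 6 = (12 * y - 6 * x ^ 2) / x ^ 2 := by
      field_simp
    rw [e, div_eq_div_iff x2 d3]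
    linear_combination (6 * x ^ 2) * he
  · show 12 ^ 2 * (x ^ 2 - y) / x ^ 3 = 144 * y * (y - 4 * x) / (x ^ 3 * (x - 12))
    have e : 12 ^ 2 * (x ^ 2 - y) / x ^ 3 = (12 ^ 2 * (x ^ 2 - y)) / x ^ 3 := by
      field_simp
    rw [e, div_eq_div_iff x3 d4]
    linear_combination ((-144) * x ^ 3) * he
  · show 12 ^ 2 * (x ^ 2 - y) / x ^ 3 - 4 * (12 * y / x ^ 2) = -(48 * y * (y - 4 * x) * (y - 2 * x)) / (x ^ 3 * (x - 12) * (x - 4))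
    have e : 12 ^ 2 * (x ^ 2 - y) / x ^ 3 - 4 * (12 * y / x ^ 2) = (12 ^ 2 * (x ^ 2 - y) - 4 * 12 * x * y) / x ^ 3 := by
      field_simp
    rw [e, div_eq_div_iff x3 d5]
    linear_combination (576 * x ^ 3 + 48 * x ^ 3 * y + (-144) * x ^ 4) * he
  · show 12 ^ 2 * (x ^ 2 - y) / x ^ 3 - 2 * (12 * y / x ^ 2) = -(24 * (y - 4 * x) * (y - 2 * x) * (y - 3 * x)) / (x ^ 3 * (x - 4) * (x - 6))
    have e : 12 ^ 2 * (x ^ 2 - y) / x ^ 3 - 2 * (12 * y / x ^ 2) = (12 ^ 2 * (x ^ 2 - y) - 2 * 12 * x * y) / x ^ 3 := by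
      field_simp
    rw [e, div_eq_div_iff x3 d6]
    linear_combination (288 * x ^ 3 + 24 * x ^ 3 * y + (-144) * x ^ 4) * he
  · show 12 ^ 2 * (x ^ 2 - y) / x ^ 3 - 3 * (12 * y / x ^ 2) = -(36 * (y - 2 * x) ^ 2 * (y - 3 * x)) / (x ^ 3 * (x - 6) ^ 2)
    have e : 12 ^ 2 * (x ^ 2 - y) / x ^ 3 - 3 * (12 * y / x ^ 2) = (12 ^ 2 * (x ^ 2 - y) - 3 * 12 * x * y) / x ^ 3 := by
      field_simp
    rw [e, div_eq_div_iff x3 d7]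
    linear_combination (432 * x ^ 3 + 36 * x ^ 3 * y + (-144) * x ^ 4) * he
  · exact div_ne_zero (mul_ne_zero (by norm_num : (12 : F) ≠ 0) D0) d0
  · exact div_ne_zero (neg_ne_zero.mpr (mul_ne_zero (mul_ne_zero (by norm_num : (12 : F) ≠ 0) D0) E0)) d1
  · exact div_ne_zero (neg_ne_zero.mpr (mul_ne_zero (mul_ne_zero (by norm_num : (4 : F) ≠ 0) E0) G0)) d2
  · exact div_ne_zero (neg_ne_zero.mpr (mul_ne_zero (mul_ne_zero (by norm_num : (6 : F) ≠ 0) G0) J0)) d3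
  · exact div_ne_zero (mul_ne_zero (mul_ne_zero (by norm_num : (144 : F) ≠ 0) D0) E0) d4
  · exact div_ne_zero (neg_ne_zero.mpr (mul_ne_zero (mul_ne_zero (mul_ne_zero (by norm_num : (48 : F) ≠ 0) D0) E0) G0)) d5
  · exact div_ne_zero (neg_ne_zero.mpr (mul_ne_zero (mul_ne_zero (mul_ne_zero (by norm_num : (24 : F) ≠ 0) E0) G0) J0)) d6
  · exact div_ne_zero (neg_ne_zero.mpr (mul_ne_zero (mul_ne_zero (by norm_num : (36 : F) ≠ 0) (pow_ne_zero 2 G0)) J0)) d7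
  · show (12 ^ 2 * (x ^ 2 - y) / x ^ 3) ^ 2 - 3 * (12 * y / x ^ 2) * (12 ^ 2 * (x ^ 2 - y) / x ^ 3) - 12 * (12 ^ 2 * (x ^ 2 - y) / x ^ 3) = (12 * y / x ^ 2) ^ 3 - 12 * (12 * y / x ^ 2) ^ 2
    have e1 : (12 ^ 2 * (x ^ 2 - y) / x ^ 3) ^ 2 - 3 * (12 * y / x ^ 2) * (12 ^ 2 * (x ^ 2 - y) / x ^ 3) - 12 * (12 ^ 2 * (x ^ 2 - y) / x ^ 3) = ((12 ^ 2 * (x ^ 2 - y)) ^ 2 - 3 * (12 * y * x * (12 ^ 2 * (x ^ 2 - y))) - 12 * (x ^ 3 * (12 ^ 2 * (x ^ 2 - y)))) / x ^ 6 := by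
      field_simp
    have e2 : (12 * y / x ^ 2) ^ 3 - 12 * (12 * y / x ^ 2) ^ 2 = ((12 * y) ^ 3 - 12 * (x ^ 2 * (12 * y) ^ 2)) / x ^ 6 := by
      field_simp
    rw [e1, e2]
    congr 1
    linear_combination ((-1728) * y + 1728 * x ^ 2) * he

/-- the units at the translates -/
lemma Q9.all [CharZero F] (h : Q9 x y A B C H D E G J) :
    Q9 (K4N.It (12 : F) 0 (x, y)).1 (K4N.It (12 : F) 0 (x, y)).2
      (A) (B) (C)
      (H) (D) (E)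
      (G) (J) ∧
    Q9 (K4N.It (12 : F) 1 (x, y)).1 (K4N.It (12 : F) 1 (x, y)).2
      (12 * D / (A ^ 2)) (-(12 * D * E) / (A ^ 2 * B)) (-(4 * E * G) / (A ^ 2 * C))
      (-(6 * G * J) / (A ^ 2 * H)) (144 * D * E / (A ^ 3 * B)) (-(48 * D * E * G) / (A ^ 3 * B * C))
      (-(24 * E * G * J) / (A ^ 3 * C * H)) (-(36 * G ^ 2 * J) / (A ^ 3 * H ^ 2)) ∧
    Q9 (K4N.It (12 : F) 2 (x, y)).1 (K4N.It (12 : F) 2 (x, y)).2
      (12 * A * E / (B * D)) (-(48 * E * G) / (B * C * D)) (8 * E * G * J / (B * C * H * D))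
      (6 * E * G ^ 2 * J / (C * H ^ 2 * D ^ 2)) (48 * A ^ 2 * E * G / (B * C * D ^ 2)) (-(96 * A * E * G * J) / (B * C * H * D ^ 2))
      (24 * A * E * G ^ 2 * J / (B * C * H ^ 2 * D ^ 2)) (12 * A * E ^ 2 * G ^ 2 * J / (C ^ 2 * H ^ 2 * D ^ 3)) ∧
    Q9 (K4N.It (12 : F) 3 (x, y)).1 (K4N.It (12 : F) 3 (x, y)).2
      (4 * B * G / (C * E)) (-(8 * A * B * G * J) / (C * H * D * E)) (8 * B * G ^ 2 * J / (C * H ^ 2 * D * E))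
      (-(2 * B * G ^ 2 * J) / (C ^ 2 * H ^ 2 * D)) (8 * B ^ 2 * G * J / (C * H * E ^ 2)) (-(8 * A * B ^ 2 * G ^ 2 * J) / (C * H ^ 2 * D * E ^ 2))
      (8 * B ^ 2 * G ^ 2 * J / (C ^ 2 * H ^ 2 * D * E)) (-(4 * B * G ^ 2 * J) / (C ^ 2 * H ^ 2 * E)) ∧
    Q9 (K4N.It (12 : F) 4 (x, y)).1 (K4N.It (12 : F) 4 (x, y)).2
      (6 * C * J / (H * G)) (-(6 * B * C * J) / (H ^ 2 * E)) (2 * A * B * J / (H ^ 2 * D))
      (-(6 * J) / (H ^ 2)) (18 * C ^ 2 * J / (H ^ 2 * G)) (-(6 * B * C * J) / (H ^ 2 * G))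
      (6 * A * C * J / (H ^ 2 * G)) (36 * C * J / (H ^ 2 * G)) ∧
    Q9 (K4N.It (12 : F) 5 (x, y)).1 (K4N.It (12 : F) 5 (x, y)).2
      (6 * G / J) (-(6 * E) / J) (2 * D / J)
      (6 * A / J) (12 * H * E * G / (C * J ^ 2)) (-(12 * H * D * E) / (B * J ^ 2))
      (-(12 * H * D) / (J ^ 2)) (-(6 * A ^ 2 * H) / (J ^ 2)) ∧
    Q9 (K4N.It (12 : F) 6 (x, y)).1 (K4N.It (12 : F) 6 (x, y)).2
      (4 * H * E / (C * G)) (-(8 * H ^ 2 * D * E) / (B * C * G * J)) (-(8 * H ^ 2 * D * E) / (B * G ^ 2 * J))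
      (-(2 * A * H ^ 2 * D) / (G ^ 2 * J)) (16 * H ^ 2 * D * E / (B * C * G ^ 2)) (32 * H ^ 3 * D * E / (B * C * G ^ 2 * J))
      (8 * A * H ^ 3 * D * E / (B * G ^ 3 * J)) (4 * H ^ 3 * D ^ 2 / (G ^ 3 * J)) ∧
    Q9 (K4N.It (12 : F) 7 (x, y)).1 (K4N.It (12 : F) 7 (x, y)).2
      (12 * C * D / (B * E)) (48 * C * H * D / (B * E * G)) (8 * A * C * H ^ 2 * D / (B * E * G * J))
      (6 * C ^ 2 * H ^ 2 * D ^ 2 / (B * E * G ^ 2 * J)) (-(144 * C ^ 2 * D) / (B * E ^ 2)) (-(48 * A * C ^ 2 * H * D) / (B * E ^ 2 * G))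
      (-(24 * C ^ 2 * H ^ 2 * D ^ 2) / (B * E ^ 2 * G * J)) (-(36 * C ^ 3 * H ^ 2 * D ^ 2) / (B ^ 2 * E * G ^ 2 * J)) ∧
    Q9 (K4N.It (12 : F) 8 (x, y)).1 (K4N.It (12 : F) 8 (x, y)).2
      (-(12 * B) / D) (-(12 * A * B * C) / (D * E)) (-(4 * B * C * H) / (E * G))
      (-(6 * C * H ^ 2) / (G * J)) (12 * A * B ^ 2 / (D ^ 2)) (12 * B ^ 2 * C / (D * E))
      (12 * B * C * H / (D * G)) (12 * B * H ^ 2 / (D * J)) := by
  have A0 := h.A0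
  have B0 := h.B0
  have C0 := h.C0
  have H0 := h.H0
  have D0 := h.D0
  have E0 := h.E0
  have G0 := h.G0
  have J0 := h.J0
  have h0 : Q9 (K4N.It (12 : F) 0 (x, y)).1 (K4N.It (12 : F) 0 (x, y)).2 A B C H D E G J := h
  have h1 :
    Q9 (K4N.It (12 : F) 1 (x, y)).1 (K4N.It (12 : F) 1 (x, y)).2
      (12 * D / (A ^ 2)) (-(12 * D * E) / (A ^ 2 * B)) (-(4 * E * G) / (A ^ 2 * C))
      (-(6 * G * J) / (A ^ 2 * H)) (144 * D * E / (A ^ 3 * B)) (-(48 * D * E * G) / (A ^ 3 * B * C))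
      (-(24 * E * G * J) / (A ^ 3 * C * H)) (-(36 * G ^ 2 * J) / (A ^ 3 * H ^ 2)) := by
    rw [K4N.It_succ]
    refine h0.step.congr ?_ ?_ ?_ ?_ ?_ ?_ ?_ ?_ <;> (field_simp; try ring)
  have h2 :
    Q9 (K4N.It (12 : F) 2 (x, y)).1 (K4N.It (12 : F) 2 (x, y)).2
      (12 * A * E / (B * D)) (-(48 * E * G) / (B * C * D)) (8 * E * G * J / (B * C * H * D))
      (6 * E * G ^ 2 * J / (C * H ^ 2 * D ^ 2)) (48 * A ^ 2 * E * G / (B * C * D ^ 2)) (-(96 * A * E * G * J) / (B * C * H * D ^ 2))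
      (24 * A * E * G ^ 2 * J / (B * C * H ^ 2 * D ^ 2)) (12 * A * E ^ 2 * G ^ 2 * J / (C ^ 2 * H ^ 2 * D ^ 3)) := by
    rw [K4N.It_succ]
    refine h1.step.congr ?_ ?_ ?_ ?_ ?_ ?_ ?_ ?_ <;> (field_simp; try ring)
  have h3 :
    Q9 (K4N.It (12 : F) 3 (x, y)).1 (K4N.It (12 : F) 3 (x, y)).2
      (4 * B * G / (C * E)) (-(8 * A * B * G * J) / (C * H * D * E)) (8 * B * G ^ 2 * J / (C * H ^ 2 * D * E))
      (-(2 * B * G ^ 2 * J) / (C ^ 2 * H ^ 2 * D)) (8 * B ^ 2 * G * J / (C * H * E ^ 2)) (-(8 * A * B ^ 2 * G ^ 2 * J) / (C * H ^ 2 * D * E ^ 2))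
      (8 * B ^ 2 * G ^ 2 * J / (C ^ 2 * H ^ 2 * D * E)) (-(4 * B * G ^ 2 * J) / (C ^ 2 * H ^ 2 * E)) := by
    rw [K4N.It_succ]
    refine h2.step.congr ?_ ?_ ?_ ?_ ?_ ?_ ?_ ?_ <;> (field_simp; try ring)
  have h4 :
    Q9 (K4N.It (12 : F) 4 (x, y)).1 (K4N.It (12 : F) 4 (x, y)).2
      (6 * C * J / (H * G)) (-(6 * B * C * J) / (H ^ 2 * E)) (2 * A * B * J / (H ^ 2 * D))
      (-(6 * J) / (H ^ 2)) (18 * C ^ 2 * J / (H ^ 2 * G)) (-(6 * B * C * J) / (H ^ 2 * G))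
      (6 * A * C * J / (H ^ 2 * G)) (36 * C * J / (H ^ 2 * G)) := by
    rw [K4N.It_succ]
    refine h3.step.congr ?_ ?_ ?_ ?_ ?_ ?_ ?_ ?_ <;> (field_simp; try ring)
  have h5 :
    Q9 (K4N.It (12 : F) 5 (x, y)).1 (K4N.It (12 : F) 5 (x, y)).2
      (6 * G / J) (-(6 * E) / J) (2 * D / J)
      (6 * A / J) (12 * H * E * G / (C * J ^ 2)) (-(12 * H * D * E) / (B * J ^ 2))
      (-(12 * H * D) / (J ^ 2)) (-(6 * A ^ 2 * H) / (J ^ 2)) := by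
    rw [K4N.It_succ]
    refine h4.step.congr ?_ ?_ ?_ ?_ ?_ ?_ ?_ ?_ <;> (field_simp; try ring)
  have h6 :
    Q9 (K4N.It (12 : F) 6 (x, y)).1 (K4N.It (12 : F) 6 (x, y)).2
      (4 * H * E / (C * G)) (-(8 * H ^ 2 * D * E) / (B * C * G * J)) (-(8 * H ^ 2 * D * E) / (B * G ^ 2 * J))
      (-(2 * A * H ^ 2 * D) / (G ^ 2 * J)) (16 * H ^ 2 * D * E / (B * C * G ^ 2)) (32 * H ^ 3 * D * E / (B * C * G ^ 2 * J))
      (8 * A * H ^ 3 * D * E / (B * G ^ 3 * J)) (4 * H ^ 3 * D ^ 2 / (G ^ 3 * J)) := by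
    rw [K4N.It_succ]
    refine h5.step.congr ?_ ?_ ?_ ?_ ?_ ?_ ?_ ?_ <;> (field_simp; try ring)
  have h7 :
    Q9 (K4N.It (12 : F) 7 (x, y)).1 (K4N.It (12 : F) 7 (x, y)).2
      (12 * C * D / (B * E)) (48 * C * H * D / (B * E * G)) (8 * A * C * H ^ 2 * D / (B * E * G * J))
      (6 * C ^ 2 * H ^ 2 * D ^ 2 / (B * E * G ^ 2 * J)) (-(144 * C ^ 2 * D) / (B * E ^ 2)) (-(48 * A * C ^ 2 * H * D) / (B * E ^ 2 * G))
      (-(24 * C ^ 2 * H ^ 2 * D ^ 2) / (B * E ^ 2 * G * J)) (-(36 * C ^ 3 * H ^ 2 * D ^ 2) / (B ^ 2 * E * G ^ 2 * J)) := by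
    rw [K4N.It_succ]
    refine h6.step.congr ?_ ?_ ?_ ?_ ?_ ?_ ?_ ?_ <;> (field_simp; try ring)
  have h8 :
    Q9 (K4N.It (12 : F) 8 (x, y)).1 (K4N.It (12 : F) 8 (x, y)).2
      (-(12 * B) / D) (-(12 * A * B * C) / (D * E)) (-(4 * B * C * H) / (E * G))
      (-(6 * C * H ^ 2) / (G * J)) (12 * A * B ^ 2 / (D ^ 2)) (12 * B ^ 2 * C / (D * E))
      (12 * B * C * H / (D * G)) (12 * B * H ^ 2 / (D * J)) := by
    rw [K4N.It_succ]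
    refine h7.step.congr ?_ ?_ ?_ ?_ ?_ ?_ ?_ ?_ <;> (field_simp; try ring)
  exact ⟨h0, h1, h2, h3, h4, h5, h6, h7, h8⟩

end tup

end Pool.Agent.FK4
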