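import Pool.Agent.Lib_helper54.FAM.L9
import Pool.Agent.Lib_helper54.FAM.T9
import Pool.Agent.Lib_helper2.K4N.Q9X

set_option autoImplicit false
set_option linter.unusedSectionVars false
set_option linter.unusedVariables false
set_option linter.unusedSimpArgs false
set_option maxRecDepth 100000

/-!
# The special curve with a point of order nine: the explicit class as monomials
-/

open scoped TensorProduct

namespace Pool.Agent.FK4

open Pool.Agent.MK4 Pool.Agent.TN Pool.Agent.KC72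

section eq

variable {F : Type*} [Field F] {x y A B C H D E G J : F}

lemma hkc9 {f f' u u' : F} (h : f = f') (h' : u = u') :
    hk (sy f) (lg u) = hk (sy f') (lg u') := by
  rw [h, h']

lemma hkc9' {f f' u u' : F} (h : f = f') (h' : u = -u') :
    hk (sy f) (lg u) = hk (sy f') (lg u') := by
  rw [h, h', TN.lgneg]

lemma Q9.tm (h : Q9 x y A B C H D E G J) : K4N.term9 x y =
    hk (sy (-4 / C)) (lg (A ^ 3 * H ^ 2 * E ^ 10 / (B ^ 2 * C ^ 3 * D ^ 6 * G ^ 4))) +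
      hk (sy (-6 / H)) (lg ((H * E ^ 2 / (B * G ^ 2)) ^ 2)) +
      hk (sy (8 / C)) (lg ((B * D ^ 2 * G ^ 4 / (A * E ^ 4 * J ^ 2)) ^ 2)) +
      hk (sy (B / (4 * H))) (lg ((H * E ^ 2 / (B * G ^ 2)) ^ 4)) := by
  have A0 := h.A0
  have B0 := h.B0
  have C0 := h.C0
  have H0 := h.H0
  have D0 := h.D0
  have E0 := h.E0
  have G0 := h.G0
  have J0 := h.J0
  have n1 : H * E ^ 2 / (B * G ^ 2) ≠ 0 :=
    div_ne_zero (mul_ne_zero H0 (pow_ne_zero 2 E0)) (mul_ne_zero B0 (pow_ne_zero 2 G0))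
  have n2 : B * D ^ 2 * G ^ 4 / (A * E ^ 4 * J ^ 2) ≠ 0 :=
    div_ne_zero (mul_ne_zero (mul_ne_zero B0 (pow_ne_zero 2 D0)) (pow_ne_zero 4 G0))
      (mul_ne_zero (mul_ne_zero A0 (pow_ne_zero 4 E0)) (pow_ne_zero 2 J0))
  rw [TN.lgpow n1, TN.lgpow n1, TN.lgpow n2, hk_smul_right, hk_smul_right, hk_smul_right]
  unfold K4N.term9
  rw [h.hB, h.hC, h.hH, h.hE, h.hG, h.hJ, h.hA, h.hD]
  push_cast
  rfl

/-- the class as a combination of monomials -/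
theorem xi9_eq [CharZero F] (he : y ^ 2 - 3 * x * y - 12 * y = x ^ 3 - 12 * x ^ 2)
    (hne : ∀ z ∈ FK4R.g9 x y, z ≠ 0) :
    K4N.xi9 x y = zt (FK4R.g9 x y) N9C.c9_cls L9 := by
  have A0 : x ≠ 0 := hne _ (by simp [FK4R.g9])
  have B0 : x - 12 ≠ 0 := hne _ (by simp [FK4R.g9])
  have C0 : x - 4 ≠ 0 := hne _ (by simp [FK4R.g9])
  have H0 : x - 6 ≠ 0 := hne _ (by simp [FK4R.g9])
  have D0 : y ≠ 0 := hne _ (by simp [FK4R.g9])
  have E0 : y - 4 * x ≠ 0 := hne _ (by simp [FK4R.g9])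
  have G0 : y - 2 * x ≠ 0 := hne _ (by simp [FK4R.g9])
  have J0 : y - 3 * x ≠ 0 := hne _ (by simp [FK4R.g9])
  obtain ⟨B, hB⟩ : ∃ B, x - 12 = B := ⟨_, rfl⟩
  obtain ⟨C, hC⟩ : ∃ C, x - 4 = C := ⟨_, rfl⟩
  obtain ⟨H, hH⟩ : ∃ H, x - 6 = H := ⟨_, rfl⟩
  obtain ⟨E, hE⟩ : ∃ E, y - 4 * x = E := ⟨_, rfl⟩
  obtain ⟨G, hG⟩ : ∃ G, y - 2 * x = G := ⟨_, rfl⟩
  obtain ⟨J, hJ⟩ : ∃ J, y - 3 * x = J := ⟨_, rfl⟩
  have hg : FK4R.g9 x y = [x, B, C, H, y, E, G, J, 2, 3] := by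
    rw [← hB, ← hC, ← hH, ← hE, ← hG, ← hJ]; rfl
  have hQ : Q9 x y x B C H y E G J := by
    refine ⟨rfl, hB, hC, hH, rfl, hE, hG, hJ, A0, ?_, ?_, ?_, D0, ?_, ?_, ?_,
      by linear_combination he⟩
    · rw [← hB]; exact B0
    · rw [← hC]; exact C0
    · rw [← hH]; exact H0
    · rw [← hE]; exact E0
    · rw [← hG]; exact G0
    · rw [← hJ]; exact J0
  rw [hB] at B0
  rw [hC] at C0
  rw [hH] at H0
  rw [hE] at E0
  rw [hG] at G0
  rw [hJ] at J0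
  obtain ⟨h0, h1, h2, h3, h4, h5, h6, h7, h8⟩ := hQ.all
  have e0 := h0.tm
  have e1 := h1.tm
  have e2 := h2.tm
  have e3 := h3.tm
  have e4 := h4.tm
  have e5 := h5.tm
  have e6 := h6.tm
  have e7 := h7.tm
  have e8 := h8.tm
  have s1 : K4N.xi9 x y =
      K4N.term9 (K4N.It (12 : F) 0 (x, y)).1 (K4N.It (12 : F) 0 (x, y)).2 +
      K4N.term9 (K4N.It (12 : F) 1 (x, y)).1 (K4N.It (12 : F) 1 (x, y)).2 +
      K4N.term9 (K4N.It (12 : F) 2 (x, y)).1 (K4N.It (12 : F) 2 (x, y)).2 +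
      K4N.term9 (K4N.It (12 : F) 3 (x, y)).1 (K4N.It (12 : F) 3 (x, y)).2 +
      K4N.term9 (K4N.It (12 : F) 4 (x, y)).1 (K4N.It (12 : F) 4 (x, y)).2 +
      K4N.term9 (K4N.It (12 : F) 5 (x, y)).1 (K4N.It (12 : F) 5 (x, y)).2 +
      K4N.term9 (K4N.It (12 : F) 6 (x, y)).1 (K4N.It (12 : F) 6 (x, y)).2 +
      K4N.term9 (K4N.It (12 : F) 7 (x, y)).1 (K4N.It (12 : F) 7 (x, y)).2 +
      K4N.term9 (K4N.It (12 : F) 8 (x, y)).1 (K4N.It (12 : F) 8 (x, y)).2 := by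
    unfold K4N.xi9
    rw [Fin.sum_univ_castSucc, Fin.sum_univ_eight]
    rfl
  rw [s1, e0, e1, e2, e3, e4, e5, e6, e7, e8]
  generalize hgg : FK4R.g9 x y = g at hg ⊢
  have p0 : oo N9C.c9_cls (78, 1) = (true, [0, 0, -1, 0, 0, 0, 0, 0, 2, 0]) := by decide +kernel
  have p1 : oo N9C.c9_cls (75, 1) = (true, [0, 0, 0, -1, 0, 0, 0, 0, 1, 1]) := by decide +kernel
  have p2 : oo N9C.c9_cls (77, 1) = (false, [0, 0, -1, 0, 0, 0, 0, 0, 3, 0]) := by decide +kernel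
  have p3 : oo N9C.c9_cls (70, 1) = (false, [0, 1, 0, -1, 0, 0, 0, 0, -2, 0]) := by decide +kernel
  have p4 : oo N9C.c9_cls (4, 2) = (false, [2, 0, 1, 0, 0, -1, -1, 0, 0, 0]) := by decide +kernel
  have p5 : oo N9C.c9_cls (2, 2) = (false, [2, 0, 0, 1, 0, 0, -1, -1, 0, 0]) := by decide +kernel
  have p6 : oo N9C.c9_cls (3, 2) = (true, [2, 0, 1, 0, 0, -1, -1, 0, 1, 0]) := by decide +kernel
  have p7 : oo N9C.c9_cls (6, 1) = (false, [0, -1, 0, 1, 1, 1, -1, -1, -1, 0]) := by decide +kernel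
  have p8 : oo N9C.c9_cls (21, 4) = (true, [0, 1, 1, 1, 1, -1, -1, -1, -1, 0]) := by decide +kernel
  have p9 : oo N9C.c9_cls (20, 4) = (true, [0, 0, 1, 2, 2, -1, -2, -1, 0, 0]) := by decide +kernel
  have p10 : oo N9C.c9_cls (25, 2) = (false, [0, 1, 1, 1, 1, -1, -1, -1, 0, 0]) := by decide +kernel
  have p11 : oo N9C.c9_cls (29, 1) = (true, [0, -1, 0, 2, 1, 0, -1, -1, 1, 0]) := by decide +kernel
  have p12 : oo N9C.c9_cls (42, 4) = (true, [0, -1, 1, 2, 1, 1, -2, -1, -1, 0]) := by decide +kernel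
  have p13 : oo N9C.c9_cls (41, 4) = (false, [0, -1, 2, 2, 1, 0, -2, -1, 0, 1]) := by decide +kernel
  have p14 : oo N9C.c9_cls (44, 4) = (false, [0, -1, 1, 2, 1, 1, -2, -1, 0, 0]) := by decide +kernel
  have p15 : oo N9C.c9_cls (49, 2) = (false, [1, 0, 1, 1, 0, -1, -1, 0, 0, 0]) := by decide +kernel
  have p16 : oo N9C.c9_cls (61, 4) = (true, [-1, -1, 0, 2, 1, 0, 0, -1, 1, 0]) := by decide +kernel
  have p17 : oo N9C.c9_cls (62, 4) = (false, [0, 0, 0, 2, 0, 0, 0, -1, 0, 0]) := by decide +kernel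
  have p18 : oo N9C.c9_cls (63, 4) = (false, [-1, -1, 0, 2, 1, 0, 0, -1, 2, 0]) := by decide +kernel
  have p19 : oo N9C.c9_cls (69, 4) = (false, [0, 1, 1, 0, 0, -1, 0, 0, -2, 0]) := by decide +kernel
  have p20 : oo N9C.c9_cls (81, 4) = (true, [0, 0, 0, 0, -1, 0, 0, 1, 1, 0]) := by decide +kernel
  have p21 : oo N9C.c9_cls (82, 4) = (true, [-1, 0, 0, 0, 0, 0, 0, 1, 0, 0]) := by decide +kernel
  have p22 : oo N9C.c9_cls (83, 4) = (false, [0, 0, 0, 0, -1, 0, 0, 1, 2, 0]) := by decide +kernel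
  have p23 : oo N9C.c9_cls (89, 4) = (true, [-1, 0, 0, 0, 0, 1, 0, 0, -2, 0]) := by decide +kernel
  have p24 : oo N9C.c9_cls (17, 4) = (false, [0, 1, 0, -2, -1, -1, 2, 1, -1, 0]) := by decide +kernel
  have p25 : oo N9C.c9_cls (10, 0) = (false, [-1, 0, 0, -2, -1, 0, 2, 1, 0, 1]) := by decide +kernel
  have p26 : oo N9C.c9_cls (18, 4) = (true, [0, 1, 0, -2, -1, -1, 2, 1, 0, 0]) := by decide +kernel
  have p27 : oo N9C.c9_cls (15, 0) = (false, [-1, -1, -1, 0, 0, 1, 1, 0, 0, 0]) := by decide +kernel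
  have p28 : oo N9C.c9_cls (36, 0) = (true, [-1, 1, -1, -2, -1, 1, 1, 1, -1, 0]) := by decide +kernel
  have p29 : oo N9C.c9_cls (33, 0) = (true, [0, 1, -2, -2, -2, 1, 2, 1, 0, 0]) := by decide +kernel
  have p30 : oo N9C.c9_cls (37, 0) = (false, [-1, 1, -1, -2, -1, 1, 1, 1, 0, 0]) := by decide +kernel
  have p31 : oo N9C.c9_cls (32, 1) = (false, [0, 0, -1, -1, -1, 0, 1, 1, 1, 0]) := by decide +kernel
  have p32 : oo N9C.c9_cls (58, 0) = (false, [0, -1, -1, -1, 0, 1, 1, 0, 0, 0]) := by decide +kernel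
  have p33 : oo N9C.c9_cls (55, 0) = (false, [0, 0, -1, -2, 0, 0, 1, 1, 0, 0]) := by decide +kernel
  have p34 : oo N9C.c9_cls (56, 1) = (true, [0, -1, -1, -1, 0, 1, 1, 0, 1, 0]) := by decide +kernel
  have p35 : oo N9C.c9_cls (50, 1) = (false, [1, 1, 0, -2, -1, -1, 1, 1, -1, 0]) := by decide +kernel
  have z : zt g N9C.c9_cls L9 =
    hk (sy (ev g (true, [0, 0, -1, 0, 0, 0, 0, 0, 2, 0]))) (lg (evl g [3, -2, -3, 2, -6, 10, -4, 0, 0, 0])) + (
    hk (sy (ev g (true, [0, 0, 0, -1, 0, 0, 0, 0, 1, 1]))) (lg (evl g [0, -2, 0, 2, 0, 4, -4, 0, 0, 0])) + (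
    hk (sy (ev g (false, [0, 0, -1, 0, 0, 0, 0, 0, 3, 0]))) (lg (evl g [-2, 2, 0, 0, 4, -8, 8, -4, 0, 0])) + (
    hk (sy (ev g (false, [0, 1, 0, -1, 0, 0, 0, 0, -2, 0]))) (lg (evl g [0, -4, 0, 4, 0, 8, -8, 0, 0, 0])) + (
    hk (sy (ev g (false, [2, 0, 1, 0, 0, -1, -1, 0, 0, 0]))) (lg (evl g [0, -2, -3, 2, 5, -5, 5, -2, 2, -3])) + (
    hk (sy (ev g (false, [2, 0, 0, 1, 0, 0, -1, -1, 0, 0]))) (lg (evl g [0, -2, 0, 2, 2, -2, 2, -2, 2, 0])) + (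
    hk (sy (ev g (true, [2, 0, 1, 0, 0, -1, -1, 0, 1, 0]))) (lg (evl g [0, 2, 0, 0, -4, 6, -8, 4, 0, 0])) + (
    hk (sy (ev g (false, [0, -1, 0, 1, 1, 1, -1, -1, -1, 0]))) (lg (evl g [0, -4, 0, 4, 4, -4, 4, -4, 4, 0])) + (
    hk (sy (ev g (true, [0, 1, 1, 1, 1, -1, -1, -1, -1, 0]))) (lg (evl g [-3, 2, 3, -3, -2, 0, -5, 5, 5, 3])) + (
    hk (sy (ev g (true, [0, 0, 1, 2, 2, -1, -2, -1, 0, 0]))) (lg (evl g [0, 2, 0, 0, -2, 0, -2, 2, 2, 0])) + (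
    hk (sy (ev g (false, [0, 1, 1, 1, 1, -1, -1, -1, 0, 0]))) (lg (evl g [2, -4, 2, 0, 4, -4, 6, -4, -4, 0])) + (
    hk (sy (ev g (true, [0, -1, 0, 2, 1, 0, -1, -1, 1, 0]))) (lg (evl g [0, 4, 0, 0, -4, 0, -4, 4, 4, 0])) + (
    hk (sy (ev g (true, [0, -1, 1, 2, 1, 1, -2, -1, -1, 0]))) (lg (evl g [8, 0, 2, -2, -3, -2, 5, -3, -7, 0])) + (
    hk (sy (ev g (false, [0, -1, 2, 2, 1, 0, -2, -1, 0, 1]))) (lg (evl g [2, 0, 2, -2, 0, -2, 2, 0, -4, 0])) + (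
    hk (sy (ev g (false, [0, -1, 1, 2, 1, 1, -2, -1, 0, 0]))) (lg (evl g [-6, 4, -4, 2, -2, 4, -4, 2, 6, 0])) + (
    hk (sy (ev g (false, [1, 0, 1, 1, 0, -1, -1, 0, 0, 0]))) (lg (evl g [4, 0, 4, -4, 0, -4, 4, 0, -8, 0])) + (
    hk (sy (ev g (true, [-1, -1, 0, 2, 1, 0, 0, -1, 1, 0]))) (lg (evl g [-7, 5, -5, 3, 3, 2, -3, 0, 0, -3])) + (
    hk (sy (ev g (false, [0, 0, 0, 2, 0, 0, 0, -1, 0, 0]))) (lg (evl g [-4, 2, -2, 0, 0, 2, 0, 0, 0, 0])) + (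
    hk (sy (ev g (false, [-1, -1, 0, 2, 1, 0, 0, -1, 2, 0]))) (lg (evl g [8, -6, 4, -2, 0, -2, 2, 0, -4, 0])) + (
    hk (sy (ev g (false, [0, 1, 1, 0, 0, -1, 0, 0, -2, 0]))) (lg (evl g [-8, 4, -4, 0, 0, 4, 0, 0, 0, 0])) + (
    hk (sy (ev g (true, [0, 0, 0, 0, -1, 0, 0, 1, 1, 0]))) (lg (evl g [2, -10, 6, 0, 3, 2, -3, 0, 0, 3])) + (
    hk (sy (ev g (true, [-1, 0, 0, 0, 0, 0, 0, 1, 0, 0]))) (lg (evl g [2, -4, 0, 0, 0, 2, 0, 0, 0, 0])) + (
    hk (sy (ev g (false, [0, 0, 0, 0, -1, 0, 0, 1, 2, 0]))) (lg (evl g [-8, 8, -4, 0, 0, -2, 2, 0, 4, 0])) + (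
    hk (sy (ev g (true, [-1, 0, 0, 0, 0, 1, 0, 0, -2, 0]))) (lg (evl g [4, -8, 0, 0, 0, 4, 0, 0, 0, 0])) + (
    hk (sy (ev g (false, [0, 1, 0, -2, -1, -1, 2, 1, -1, 0]))) (lg (evl g [-2, 5, -5, 3, -3, -2, 5, -3, 7, 0])) + (
    hk (sy (ev g (false, [-1, 0, 0, -2, -1, 0, 2, 1, 0, 1]))) (lg (evl g [-2, 2, -2, 0, 0, -2, 2, 0, 4, 0])) + (
    hk (sy (ev g (true, [0, 1, 0, -2, -1, -1, 2, 1, 0, 0]))) (lg (evl g [8, -6, 4, -2, -2, 4, -4, 2, -6, 0])) + (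
    hk (sy (ev g (false, [-1, -1, -1, 0, 0, 1, 1, 0, 0, 0]))) (lg (evl g [-4, 4, -4, 0, 0, -4, 4, 0, 8, 0])) + (
    hk (sy (ev g (true, [-1, 1, -1, -2, -1, 1, 1, 1, -1, 0]))) (lg (evl g [7, 0, 2, -2, -2, 0, -5, 5, -5, -3])) + (
    hk (sy (ev g (true, [0, 1, -2, -2, -2, 1, 2, 1, 0, 0]))) (lg (evl g [4, 0, 2, -2, -2, 0, -2, 2, -2, 0])) + (
    hk (sy (ev g (false, [-1, 1, -1, -2, -1, 1, 1, 1, 0, 0]))) (lg (evl g [-8, 4, -4, 2, 4, -4, 6, -4, 4, 0])) + (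
    hk (sy (ev g (false, [0, 0, -1, -1, -1, 0, 1, 1, 1, 0]))) (lg (evl g [8, 0, 4, -4, -4, 0, -4, 4, -4, 0])) + (
    hk (sy (ev g (false, [0, -1, -1, -1, 0, 1, 1, 0, 0, 0]))) (lg (evl g [-8, 2, 3, -3, 5, -5, 5, -2, -2, 3])) + (
    hk (sy (ev g (false, [0, 0, -1, -2, 0, 0, 1, 1, 0, 0]))) (lg (evl g [-2, 2, 0, 0, 2, -2, 2, -2, -2, 0])) + (
    hk (sy (ev g (true, [0, -1, -1, -1, 0, 1, 1, 0, 1, 0]))) (lg (evl g [6, -4, 2, 0, -4, 6, -8, 4, 0, 0])) + (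
    hk (sy (ev g (false, [1, 1, 0, -2, -1, -1, 1, 1, -1, 0]))) (lg (evl g [-4, 4, 0, 0, 4, -4, 4, -4, -4, 0])) + 0))))))))))))))))))))))))))))))))))) := by
    rw [← p0, ← p1, ← p2, ← p3, ← p4, ← p5, ← p6, ← p7, ← p8, ← p9, ← p10, ← p11, ← p12, ← p13, ← p14, ← p15, ← p16, ← p17, ← p18, ← p19, ← p20, ← p21, ← p22, ← p23, ← p24, ← p25, ← p26, ← p27, ← p28, ← p29, ← p30, ← p31, ← p32, ← p33, ← p34, ← p35]
    rfl
  rw [z, hg]
  clear z hgg
  have c0 := hkc9 (f := -4 / (C))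
    (f' := ev [x, B, C, H, y, E, G, J, 2, 3] (true, [0, 0, -1, 0, 0, 0, 0, 0, 2, 0]))
    (u := (x) ^ 3 * (H) ^ 2 * (E) ^ 10 / ((B) ^ 2 * (C) ^ 3 * (y) ^ 6 * (G) ^ 4))
    (u' := evl [x, B, C, H, y, E, G, J, 2, 3] [3, -2, -3, 2, -6, 10, -4, 0, 0, 0])
    (by
      simp only [ev, evl_cons, evl_nil_left, evl_nil_right, cond_true, cond_false, zpow_neg, zpow_ofNat, zpow_zero, zpow_one]
      field_simp
      try ring)
    (by
      simp only [ev, evl_cons, evl_nil_left, evl_nil_right, cond_true, cond_false, zpow_neg, zpow_ofNat, zpow_zero, zpow_one]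
      field_simp
      try ring)
  have c1 := hkc9 (f := -6 / (H))
    (f' := ev [x, B, C, H, y, E, G, J, 2, 3] (true, [0, 0, 0, -1, 0, 0, 0, 0, 1, 1]))
    (u := ((H) * (E) ^ 2 / ((B) * (G) ^ 2)) ^ 2)
    (u' := evl [x, B, C, H, y, E, G, J, 2, 3] [0, -2, 0, 2, 0, 4, -4, 0, 0, 0])
    (by
      simp only [ev, evl_cons, evl_nil_left, evl_nil_right, cond_true, cond_false, zpow_neg, zpow_ofNat, zpow_zero, zpow_one]
      field_simp
      try ring)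
    (by
      simp only [ev, evl_cons, evl_nil_left, evl_nil_right, cond_true, cond_false, zpow_neg, zpow_ofNat, zpow_zero, zpow_one]
      field_simp
      try ring)
  have c2 := hkc9 (f := 8 / (C))
    (f' := ev [x, B, C, H, y, E, G, J, 2, 3] (false, [0, 0, -1, 0, 0, 0, 0, 0, 3, 0]))
    (u := ((B) * (y) ^ 2 * (G) ^ 4 / ((x) * (E) ^ 4 * (J) ^ 2)) ^ 2)
    (u' := evl [x, B, C, H, y, E, G, J, 2, 3] [-2, 2, 0, 0, 4, -8, 8, -4, 0, 0])
    (by
      simp only [ev, evl_cons, evl_nil_left, evl_nil_right, cond_true, cond_false, zpow_neg, zpow_ofNat, zpow_zero, zpow_one]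
      field_simp
      try ring)
    (by
      simp only [ev, evl_cons, evl_nil_left, evl_nil_right, cond_true, cond_false, zpow_neg, zpow_ofNat, zpow_zero, zpow_one]
      field_simp
      try ring)
  have c3 := hkc9 (f := (B) / (4 * (H)))
    (f' := ev [x, B, C, H, y, E, G, J, 2, 3] (false, [0, 1, 0, -1, 0, 0, 0, 0, -2, 0]))
    (u := ((H) * (E) ^ 2 / ((B) * (G) ^ 2)) ^ 4)
    (u' := evl [x, B, C, H, y, E, G, J, 2, 3] [0, -4, 0, 4, 0, 8, -8, 0, 0, 0])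
    (by
      simp only [ev, evl_cons, evl_nil_left, evl_nil_right, cond_true, cond_false, zpow_neg, zpow_ofNat, zpow_zero, zpow_one]
      field_simp
      try ring)
    (by
      simp only [ev, evl_cons, evl_nil_left, evl_nil_right, cond_true, cond_false, zpow_neg, zpow_ofNat, zpow_zero, zpow_one]
      field_simp
      try ring)
  have c4 := hkc9' (f := -4 / (-(4 * E * G) / (x ^ 2 * C)))
    (f' := ev [x, B, C, H, y, E, G, J, 2, 3] (false, [2, 0, 1, 0, 0, -1, -1, 0, 0, 0]))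
    (u := (12 * y / (x ^ 2)) ^ 3 * (-(6 * G * J) / (x ^ 2 * H)) ^ 2 * (-(48 * y * E * G) / (x ^ 3 * B * C)) ^ 10 / ((-(12 * y * E) / (x ^ 2 * B)) ^ 2 * (-(4 * E * G) / (x ^ 2 * C)) ^ 3 * (144 * y * E / (x ^ 3 * B)) ^ 6 * (-(24 * E * G * J) / (x ^ 3 * C * H)) ^ 4))
    (u' := evl [x, B, C, H, y, E, G, J, 2, 3] [0, -2, -3, 2, 5, -5, 5, -2, 2, -3])
    (by
      simp only [ev, evl_cons, evl_nil_left, evl_nil_right, cond_true, cond_false, zpow_neg, zpow_ofNat, zpow_zero, zpow_one]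
      field_simp
      try ring)
    (by
      simp only [ev, evl_cons, evl_nil_left, evl_nil_right, cond_true, cond_false, zpow_neg, zpow_ofNat, zpow_zero, zpow_one]
      field_simp
      try ring)
  have c5 := hkc9 (f := -6 / (-(6 * G * J) / (x ^ 2 * H)))
    (f' := ev [x, B, C, H, y, E, G, J, 2, 3] (false, [2, 0, 0, 1, 0, 0, -1, -1, 0, 0]))
    (u := ((-(6 * G * J) / (x ^ 2 * H)) * (-(48 * y * E * G) / (x ^ 3 * B * C)) ^ 2 / ((-(12 * y * E) / (x ^ 2 * B)) * (-(24 * E * G * J) / (x ^ 3 * C * H)) ^ 2)) ^ 2)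
    (u' := evl [x, B, C, H, y, E, G, J, 2, 3] [0, -2, 0, 2, 2, -2, 2, -2, 2, 0])
    (by
      simp only [ev, evl_cons, evl_nil_left, evl_nil_right, cond_true, cond_false, zpow_neg, zpow_ofNat, zpow_zero, zpow_one]
      field_simp
      try ring)
    (by
      simp only [ev, evl_cons, evl_nil_left, evl_nil_right, cond_true, cond_false, zpow_neg, zpow_ofNat, zpow_zero, zpow_one]
      field_simp
      try ring)
  have c6 := hkc9 (f := 8 / (-(4 * E * G) / (x ^ 2 * C)))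
    (f' := ev [x, B, C, H, y, E, G, J, 2, 3] (true, [2, 0, 1, 0, 0, -1, -1, 0, 1, 0]))
    (u := ((-(12 * y * E) / (x ^ 2 * B)) * (144 * y * E / (x ^ 3 * B)) ^ 2 * (-(24 * E * G * J) / (x ^ 3 * C * H)) ^ 4 / ((12 * y / (x ^ 2)) * (-(48 * y * E * G) / (x ^ 3 * B * C)) ^ 4 * (-(36 * G ^ 2 * J) / (x ^ 3 * H ^ 2)) ^ 2)) ^ 2)
    (u' := evl [x, B, C, H, y, E, G, J, 2, 3] [0, 2, 0, 0, -4, 6, -8, 4, 0, 0])
    (by
      simp only [ev, evl_cons, evl_nil_left, evl_nil_right, cond_true, cond_false, zpow_neg, zpow_ofNat, zpow_zero, zpow_one]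
      field_simp
      try ring)
    (by
      simp only [ev, evl_cons, evl_nil_left, evl_nil_right, cond_true, cond_false, zpow_neg, zpow_ofNat, zpow_zero, zpow_one]
      field_simp
      try ring)
  have c7 := hkc9 (f := (-(12 * y * E) / (x ^ 2 * B)) / (4 * (-(6 * G * J) / (x ^ 2 * H))))
    (f' := ev [x, B, C, H, y, E, G, J, 2, 3] (false, [0, -1, 0, 1, 1, 1, -1, -1, -1, 0]))
    (u := ((-(6 * G * J) / (x ^ 2 * H)) * (-(48 * y * E * G) / (x ^ 3 * B * C)) ^ 2 / ((-(12 * y * E) / (x ^ 2 * B)) * (-(24 * E * G * J) / (x ^ 3 * C * H)) ^ 2)) ^ 4)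
    (u' := evl [x, B, C, H, y, E, G, J, 2, 3] [0, -4, 0, 4, 4, -4, 4, -4, 4, 0])
    (by
      simp only [ev, evl_cons, evl_nil_left, evl_nil_right, cond_true, cond_false, zpow_neg, zpow_ofNat, zpow_zero, zpow_one]
      field_simp
      try ring)
    (by
      simp only [ev, evl_cons, evl_nil_left, evl_nil_right, cond_true, cond_false, zpow_neg, zpow_ofNat, zpow_zero, zpow_one]
      field_simp
      try ring)
  have c8 := hkc9 (f := -4 / (8 * E * G * J / (B * C * H * y)))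
    (f' := ev [x, B, C, H, y, E, G, J, 2, 3] (true, [0, 1, 1, 1, 1, -1, -1, -1, -1, 0]))
    (u := (12 * x * E / (B * y)) ^ 3 * (6 * E * G ^ 2 * J / (C * H ^ 2 * y ^ 2)) ^ 2 * (-(96 * x * E * G * J) / (B * C * H * y ^ 2)) ^ 10 / ((-(48 * E * G) / (B * C * y)) ^ 2 * (8 * E * G * J / (B * C * H * y)) ^ 3 * (48 * x ^ 2 * E * G / (B * C * y ^ 2)) ^ 6 * (24 * x * E * G ^ 2 * J / (B * C * H ^ 2 * y ^ 2)) ^ 4))
    (u' := evl [x, B, C, H, y, E, G, J, 2, 3] [-3, 2, 3, -3, -2, 0, -5, 5, 5, 3])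
    (by
      simp only [ev, evl_cons, evl_nil_left, evl_nil_right, cond_true, cond_false, zpow_neg, zpow_ofNat, zpow_zero, zpow_one]
      field_simp
      try ring)
    (by
      simp only [ev, evl_cons, evl_nil_left, evl_nil_right, cond_true, cond_false, zpow_neg, zpow_ofNat, zpow_zero, zpow_one]
      field_simp
      try ring)
  have c9 := hkc9 (f := -6 / (6 * E * G ^ 2 * J / (C * H ^ 2 * y ^ 2)))
    (f' := ev [x, B, C, H, y, E, G, J, 2, 3] (true, [0, 0, 1, 2, 2, -1, -2, -1, 0, 0]))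
    (u := ((6 * E * G ^ 2 * J / (C * H ^ 2 * y ^ 2)) * (-(96 * x * E * G * J) / (B * C * H * y ^ 2)) ^ 2 / ((-(48 * E * G) / (B * C * y)) * (24 * x * E * G ^ 2 * J / (B * C * H ^ 2 * y ^ 2)) ^ 2)) ^ 2)
    (u' := evl [x, B, C, H, y, E, G, J, 2, 3] [0, 2, 0, 0, -2, 0, -2, 2, 2, 0])
    (by
      simp only [ev, evl_cons, evl_nil_left, evl_nil_right, cond_true, cond_false, zpow_neg, zpow_ofNat, zpow_zero, zpow_one]
      field_simp
      try ring)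
    (by
      simp only [ev, evl_cons, evl_nil_left, evl_nil_right, cond_true, cond_false, zpow_neg, zpow_ofNat, zpow_zero, zpow_one]
      field_simp
      try ring)
  have c10 := hkc9 (f := 8 / (8 * E * G * J / (B * C * H * y)))
    (f' := ev [x, B, C, H, y, E, G, J, 2, 3] (false, [0, 1, 1, 1, 1, -1, -1, -1, 0, 0]))
    (u := ((-(48 * E * G) / (B * C * y)) * (48 * x ^ 2 * E * G / (B * C * y ^ 2)) ^ 2 * (24 * x * E * G ^ 2 * J / (B * C * H ^ 2 * y ^ 2)) ^ 4 / ((12 * x * E / (B * y)) * (-(96 * x * E * G * J) / (B * C * H * y ^ 2)) ^ 4 * (12 * x * E ^ 2 * G ^ 2 * J / (C ^ 2 * H ^ 2 * y ^ 3)) ^ 2)) ^ 2)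
    (u' := evl [x, B, C, H, y, E, G, J, 2, 3] [2, -4, 2, 0, 4, -4, 6, -4, -4, 0])
    (by
      simp only [ev, evl_cons, evl_nil_left, evl_nil_right, cond_true, cond_false, zpow_neg, zpow_ofNat, zpow_zero, zpow_one]
      field_simp
      try ring)
    (by
      simp only [ev, evl_cons, evl_nil_left, evl_nil_right, cond_true, cond_false, zpow_neg, zpow_ofNat, zpow_zero, zpow_one]
      field_simp
      try ring)
  have c11 := hkc9 (f := (-(48 * E * G) / (B * C * y)) / (4 * (6 * E * G ^ 2 * J / (C * H ^ 2 * y ^ 2))))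
    (f' := ev [x, B, C, H, y, E, G, J, 2, 3] (true, [0, -1, 0, 2, 1, 0, -1, -1, 1, 0]))
    (u := ((6 * E * G ^ 2 * J / (C * H ^ 2 * y ^ 2)) * (-(96 * x * E * G * J) / (B * C * H * y ^ 2)) ^ 2 / ((-(48 * E * G) / (B * C * y)) * (24 * x * E * G ^ 2 * J / (B * C * H ^ 2 * y ^ 2)) ^ 2)) ^ 4)
    (u' := evl [x, B, C, H, y, E, G, J, 2, 3] [0, 4, 0, 0, -4, 0, -4, 4, 4, 0])
    (by
      simp only [ev, evl_cons, evl_nil_left, evl_nil_right, cond_true, cond_false, zpow_neg, zpow_ofNat, zpow_zero, zpow_one]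
      field_simp
      try ring)
    (by
      simp only [ev, evl_cons, evl_nil_left, evl_nil_right, cond_true, cond_false, zpow_neg, zpow_ofNat, zpow_zero, zpow_one]
      field_simp
      try ring)
  have c12 := hkc9 (f := -4 / (8 * B * G ^ 2 * J / (C * H ^ 2 * y * E)))
    (f' := ev [x, B, C, H, y, E, G, J, 2, 3] (true, [0, -1, 1, 2, 1, 1, -2, -1, -1, 0]))
    (u := (4 * B * G / (C * E)) ^ 3 * (-(2 * B * G ^ 2 * J) / (C ^ 2 * H ^ 2 * y)) ^ 2 * (-(8 * x * B ^ 2 * G ^ 2 * J) / (C * H ^ 2 * y * E ^ 2)) ^ 10 / ((-(8 * x * B * G * J) / (C * H * y * E)) ^ 2 * (8 * B * G ^ 2 * J / (C * H ^ 2 * y * E)) ^ 3 * (8 * B ^ 2 * G * J / (C * H * E ^ 2)) ^ 6 * (8 * B ^ 2 * G ^ 2 * J / (C ^ 2 * H ^ 2 * y * E)) ^ 4))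
    (u' := evl [x, B, C, H, y, E, G, J, 2, 3] [8, 0, 2, -2, -3, -2, 5, -3, -7, 0])
    (by
      simp only [ev, evl_cons, evl_nil_left, evl_nil_right, cond_true, cond_false, zpow_neg, zpow_ofNat, zpow_zero, zpow_one]
      field_simp
      try ring)
    (by
      simp only [ev, evl_cons, evl_nil_left, evl_nil_right, cond_true, cond_false, zpow_neg, zpow_ofNat, zpow_zero, zpow_one]
      field_simp
      try ring)
  have c13 := hkc9 (f := -6 / (-(2 * B * G ^ 2 * J) / (C ^ 2 * H ^ 2 * y)))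
    (f' := ev [x, B, C, H, y, E, G, J, 2, 3] (false, [0, -1, 2, 2, 1, 0, -2, -1, 0, 1]))
    (u := ((-(2 * B * G ^ 2 * J) / (C ^ 2 * H ^ 2 * y)) * (-(8 * x * B ^ 2 * G ^ 2 * J) / (C * H ^ 2 * y * E ^ 2)) ^ 2 / ((-(8 * x * B * G * J) / (C * H * y * E)) * (8 * B ^ 2 * G ^ 2 * J / (C ^ 2 * H ^ 2 * y * E)) ^ 2)) ^ 2)
    (u' := evl [x, B, C, H, y, E, G, J, 2, 3] [2, 0, 2, -2, 0, -2, 2, 0, -4, 0])
    (by
      simp only [ev, evl_cons, evl_nil_left, evl_nil_right, cond_true, cond_false, zpow_neg, zpow_ofNat, zpow_zero, zpow_one]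
      field_simp
      try ring)
    (by
      simp only [ev, evl_cons, evl_nil_left, evl_nil_right, cond_true, cond_false, zpow_neg, zpow_ofNat, zpow_zero, zpow_one]
      field_simp
      try ring)
  have c14 := hkc9 (f := 8 / (8 * B * G ^ 2 * J / (C * H ^ 2 * y * E)))
    (f' := ev [x, B, C, H, y, E, G, J, 2, 3] (false, [0, -1, 1, 2, 1, 1, -2, -1, 0, 0]))
    (u := ((-(8 * x * B * G * J) / (C * H * y * E)) * (8 * B ^ 2 * G * J / (C * H * E ^ 2)) ^ 2 * (8 * B ^ 2 * G ^ 2 * J / (C ^ 2 * H ^ 2 * y * E)) ^ 4 / ((4 * B * G / (C * E)) * (-(8 * x * B ^ 2 * G ^ 2 * J) / (C * H ^ 2 * y * E ^ 2)) ^ 4 * (-(4 * B * G ^ 2 * J) / (C ^ 2 * H ^ 2 * E)) ^ 2)) ^ 2)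
    (u' := evl [x, B, C, H, y, E, G, J, 2, 3] [-6, 4, -4, 2, -2, 4, -4, 2, 6, 0])
    (by
      simp only [ev, evl_cons, evl_nil_left, evl_nil_right, cond_true, cond_false, zpow_neg, zpow_ofNat, zpow_zero, zpow_one]
      field_simp
      try ring)
    (by
      simp only [ev, evl_cons, evl_nil_left, evl_nil_right, cond_true, cond_false, zpow_neg, zpow_ofNat, zpow_zero, zpow_one]
      field_simp
      try ring)
  have c15 := hkc9 (f := (-(8 * x * B * G * J) / (C * H * y * E)) / (4 * (-(2 * B * G ^ 2 * J) / (C ^ 2 * H ^ 2 * y))))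
    (f' := ev [x, B, C, H, y, E, G, J, 2, 3] (false, [1, 0, 1, 1, 0, -1, -1, 0, 0, 0]))
    (u := ((-(2 * B * G ^ 2 * J) / (C ^ 2 * H ^ 2 * y)) * (-(8 * x * B ^ 2 * G ^ 2 * J) / (C * H ^ 2 * y * E ^ 2)) ^ 2 / ((-(8 * x * B * G * J) / (C * H * y * E)) * (8 * B ^ 2 * G ^ 2 * J / (C ^ 2 * H ^ 2 * y * E)) ^ 2)) ^ 4)
    (u' := evl [x, B, C, H, y, E, G, J, 2, 3] [4, 0, 4, -4, 0, -4, 4, 0, -8, 0])
    (by
      simp only [ev, evl_cons, evl_nil_left, evl_nil_right, cond_true, cond_false, zpow_neg, zpow_ofNat, zpow_zero, zpow_one]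
      field_simp
      try ring)
    (by
      simp only [ev, evl_cons, evl_nil_left, evl_nil_right, cond_true, cond_false, zpow_neg, zpow_ofNat, zpow_zero, zpow_one]
      field_simp
      try ring)
  have c16 := hkc9 (f := -4 / (2 * x * B * J / (H ^ 2 * y)))
    (f' := ev [x, B, C, H, y, E, G, J, 2, 3] (true, [-1, -1, 0, 2, 1, 0, 0, -1, 1, 0]))
    (u := (6 * C * J / (H * G)) ^ 3 * (-(6 * J) / (H ^ 2)) ^ 2 * (-(6 * B * C * J) / (H ^ 2 * G)) ^ 10 / ((-(6 * B * C * J) / (H ^ 2 * E)) ^ 2 * (2 * x * B * J / (H ^ 2 * y)) ^ 3 * (18 * C ^ 2 * J / (H ^ 2 * G)) ^ 6 * (6 * x * C * J / (H ^ 2 * G)) ^ 4))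
    (u' := evl [x, B, C, H, y, E, G, J, 2, 3] [-7, 5, -5, 3, 3, 2, -3, 0, 0, -3])
    (by
      simp only [ev, evl_cons, evl_nil_left, evl_nil_right, cond_true, cond_false, zpow_neg, zpow_ofNat, zpow_zero, zpow_one]
      field_simp
      try ring)
    (by
      simp only [ev, evl_cons, evl_nil_left, evl_nil_right, cond_true, cond_false, zpow_neg, zpow_ofNat, zpow_zero, zpow_one]
      field_simp
      try ring)
  have c17 := hkc9 (f := -6 / (-(6 * J) / (H ^ 2)))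
    (f' := ev [x, B, C, H, y, E, G, J, 2, 3] (false, [0, 0, 0, 2, 0, 0, 0, -1, 0, 0]))
    (u := ((-(6 * J) / (H ^ 2)) * (-(6 * B * C * J) / (H ^ 2 * G)) ^ 2 / ((-(6 * B * C * J) / (H ^ 2 * E)) * (6 * x * C * J / (H ^ 2 * G)) ^ 2)) ^ 2)
    (u' := evl [x, B, C, H, y, E, G, J, 2, 3] [-4, 2, -2, 0, 0, 2, 0, 0, 0, 0])
    (by
      simp only [ev, evl_cons, evl_nil_left, evl_nil_right, cond_true, cond_false, zpow_neg, zpow_ofNat, zpow_zero, zpow_one]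
      field_simp
      try ring)
    (by
      simp only [ev, evl_cons, evl_nil_left, evl_nil_right, cond_true, cond_false, zpow_neg, zpow_ofNat, zpow_zero, zpow_one]
      field_simp
      try ring)
  have c18 := hkc9 (f := 8 / (2 * x * B * J / (H ^ 2 * y)))
    (f' := ev [x, B, C, H, y, E, G, J, 2, 3] (false, [-1, -1, 0, 2, 1, 0, 0, -1, 2, 0]))
    (u := ((-(6 * B * C * J) / (H ^ 2 * E)) * (18 * C ^ 2 * J / (H ^ 2 * G)) ^ 2 * (6 * x * C * J / (H ^ 2 * G)) ^ 4 / ((6 * C * J / (H * G)) * (-(6 * B * C * J) / (H ^ 2 * G)) ^ 4 * (36 * C * J / (H ^ 2 * G)) ^ 2)) ^ 2)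
    (u' := evl [x, B, C, H, y, E, G, J, 2, 3] [8, -6, 4, -2, 0, -2, 2, 0, -4, 0])
    (by
      simp only [ev, evl_cons, evl_nil_left, evl_nil_right, cond_true, cond_false, zpow_neg, zpow_ofNat, zpow_zero, zpow_one]
      field_simp
      try ring)
    (by
      simp only [ev, evl_cons, evl_nil_left, evl_nil_right, cond_true, cond_false, zpow_neg, zpow_ofNat, zpow_zero, zpow_one]
      field_simp
      try ring)
  have c19 := hkc9 (f := (-(6 * B * C * J) / (H ^ 2 * E)) / (4 * (-(6 * J) / (H ^ 2))))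
    (f' := ev [x, B, C, H, y, E, G, J, 2, 3] (false, [0, 1, 1, 0, 0, -1, 0, 0, -2, 0]))
    (u := ((-(6 * J) / (H ^ 2)) * (-(6 * B * C * J) / (H ^ 2 * G)) ^ 2 / ((-(6 * B * C * J) / (H ^ 2 * E)) * (6 * x * C * J / (H ^ 2 * G)) ^ 2)) ^ 4)
    (u' := evl [x, B, C, H, y, E, G, J, 2, 3] [-8, 4, -4, 0, 0, 4, 0, 0, 0, 0])
    (by
      simp only [ev, evl_cons, evl_nil_left, evl_nil_right, cond_true, cond_false, zpow_neg, zpow_ofNat, zpow_zero, zpow_one]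
      field_simp
      try ring)
    (by
      simp only [ev, evl_cons, evl_nil_left, evl_nil_right, cond_true, cond_false, zpow_neg, zpow_ofNat, zpow_zero, zpow_one]
      field_simp
      try ring)
  have c20 := hkc9 (f := -4 / (2 * y / J))
    (f' := ev [x, B, C, H, y, E, G, J, 2, 3] (true, [0, 0, 0, 0, -1, 0, 0, 1, 1, 0]))
    (u := (6 * G / J) ^ 3 * (6 * x / J) ^ 2 * (-(12 * H * y * E) / (B * J ^ 2)) ^ 10 / ((-(6 * E) / J) ^ 2 * (2 * y / J) ^ 3 * (12 * H * E * G / (C * J ^ 2)) ^ 6 * (-(12 * H * y) / (J ^ 2)) ^ 4))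
    (u' := evl [x, B, C, H, y, E, G, J, 2, 3] [2, -10, 6, 0, 3, 2, -3, 0, 0, 3])
    (by
      simp only [ev, evl_cons, evl_nil_left, evl_nil_right, cond_true, cond_false, zpow_neg, zpow_ofNat, zpow_zero, zpow_one]
      field_simp
      try ring)
    (by
      simp only [ev, evl_cons, evl_nil_left, evl_nil_right, cond_true, cond_false, zpow_neg, zpow_ofNat, zpow_zero, zpow_one]
      field_simp
      try ring)
  have c21 := hkc9 (f := -6 / (6 * x / J))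
    (f' := ev [x, B, C, H, y, E, G, J, 2, 3] (true, [-1, 0, 0, 0, 0, 0, 0, 1, 0, 0]))
    (u := ((6 * x / J) * (-(12 * H * y * E) / (B * J ^ 2)) ^ 2 / ((-(6 * E) / J) * (-(12 * H * y) / (J ^ 2)) ^ 2)) ^ 2)
    (u' := evl [x, B, C, H, y, E, G, J, 2, 3] [2, -4, 0, 0, 0, 2, 0, 0, 0, 0])
    (by
      simp only [ev, evl_cons, evl_nil_left, evl_nil_right, cond_true, cond_false, zpow_neg, zpow_ofNat, zpow_zero, zpow_one]
      field_simp
      try ring)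
    (by
      simp only [ev, evl_cons, evl_nil_left, evl_nil_right, cond_true, cond_false, zpow_neg, zpow_ofNat, zpow_zero, zpow_one]
      field_simp
      try ring)
  have c22 := hkc9 (f := 8 / (2 * y / J))
    (f' := ev [x, B, C, H, y, E, G, J, 2, 3] (false, [0, 0, 0, 0, -1, 0, 0, 1, 2, 0]))
    (u := ((-(6 * E) / J) * (12 * H * E * G / (C * J ^ 2)) ^ 2 * (-(12 * H * y) / (J ^ 2)) ^ 4 / ((6 * G / J) * (-(12 * H * y * E) / (B * J ^ 2)) ^ 4 * (-(6 * x ^ 2 * H) / (J ^ 2)) ^ 2)) ^ 2)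
    (u' := evl [x, B, C, H, y, E, G, J, 2, 3] [-8, 8, -4, 0, 0, -2, 2, 0, 4, 0])
    (by
      simp only [ev, evl_cons, evl_nil_left, evl_nil_right, cond_true, cond_false, zpow_neg, zpow_ofNat, zpow_zero, zpow_one]
      field_simp
      try ring)
    (by
      simp only [ev, evl_cons, evl_nil_left, evl_nil_right, cond_true, cond_false, zpow_neg, zpow_ofNat, zpow_zero, zpow_one]
      field_simp
      try ring)
  have c23 := hkc9 (f := (-(6 * E) / J) / (4 * (6 * x / J)))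
    (f' := ev [x, B, C, H, y, E, G, J, 2, 3] (true, [-1, 0, 0, 0, 0, 1, 0, 0, -2, 0]))
    (u := ((6 * x / J) * (-(12 * H * y * E) / (B * J ^ 2)) ^ 2 / ((-(6 * E) / J) * (-(12 * H * y) / (J ^ 2)) ^ 2)) ^ 4)
    (u' := evl [x, B, C, H, y, E, G, J, 2, 3] [4, -8, 0, 0, 0, 4, 0, 0, 0, 0])
    (by
      simp only [ev, evl_cons, evl_nil_left, evl_nil_right, cond_true, cond_false, zpow_neg, zpow_ofNat, zpow_zero, zpow_one]
      field_simp
      try ring)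
    (by
      simp only [ev, evl_cons, evl_nil_left, evl_nil_right, cond_true, cond_false, zpow_neg, zpow_ofNat, zpow_zero, zpow_one]
      field_simp
      try ring)
  have c24 := hkc9' (f := -4 / (-(8 * H ^ 2 * y * E) / (B * G ^ 2 * J)))
    (f' := ev [x, B, C, H, y, E, G, J, 2, 3] (false, [0, 1, 0, -2, -1, -1, 2, 1, -1, 0]))
    (u := (4 * H * E / (C * G)) ^ 3 * (-(2 * x * H ^ 2 * y) / (G ^ 2 * J)) ^ 2 * (32 * H ^ 3 * y * E / (B * C * G ^ 2 * J)) ^ 10 / ((-(8 * H ^ 2 * y * E) / (B * C * G * J)) ^ 2 * (-(8 * H ^ 2 * y * E) / (B * G ^ 2 * J)) ^ 3 * (16 * H ^ 2 * y * E / (B * C * G ^ 2)) ^ 6 * (8 * x * H ^ 3 * y * E / (B * G ^ 3 * J)) ^ 4))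
    (u' := evl [x, B, C, H, y, E, G, J, 2, 3] [-2, 5, -5, 3, -3, -2, 5, -3, 7, 0])
    (by
      simp only [ev, evl_cons, evl_nil_left, evl_nil_right, cond_true, cond_false, zpow_neg, zpow_ofNat, zpow_zero, zpow_one]
      field_simp
      try ring)
    (by
      simp only [ev, evl_cons, evl_nil_left, evl_nil_right, cond_true, cond_false, zpow_neg, zpow_ofNat, zpow_zero, zpow_one]
      field_simp
      try ring)
  have c25 := hkc9 (f := -6 / (-(2 * x * H ^ 2 * y) / (G ^ 2 * J)))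
    (f' := ev [x, B, C, H, y, E, G, J, 2, 3] (false, [-1, 0, 0, -2, -1, 0, 2, 1, 0, 1]))
    (u := ((-(2 * x * H ^ 2 * y) / (G ^ 2 * J)) * (32 * H ^ 3 * y * E / (B * C * G ^ 2 * J)) ^ 2 / ((-(8 * H ^ 2 * y * E) / (B * C * G * J)) * (8 * x * H ^ 3 * y * E / (B * G ^ 3 * J)) ^ 2)) ^ 2)
    (u' := evl [x, B, C, H, y, E, G, J, 2, 3] [-2, 2, -2, 0, 0, -2, 2, 0, 4, 0])
    (by
      simp only [ev, evl_cons, evl_nil_left, evl_nil_right, cond_true, cond_false, zpow_neg, zpow_ofNat, zpow_zero, zpow_one]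
      field_simp
      try ring)
    (by
      simp only [ev, evl_cons, evl_nil_left, evl_nil_right, cond_true, cond_false, zpow_neg, zpow_ofNat, zpow_zero, zpow_one]
      field_simp
      try ring)
  have c26 := hkc9 (f := 8 / (-(8 * H ^ 2 * y * E) / (B * G ^ 2 * J)))
    (f' := ev [x, B, C, H, y, E, G, J, 2, 3] (true, [0, 1, 0, -2, -1, -1, 2, 1, 0, 0]))
    (u := ((-(8 * H ^ 2 * y * E) / (B * C * G * J)) * (16 * H ^ 2 * y * E / (B * C * G ^ 2)) ^ 2 * (8 * x * H ^ 3 * y * E / (B * G ^ 3 * J)) ^ 4 / ((4 * H * E / (C * G)) * (32 * H ^ 3 * y * E / (B * C * G ^ 2 * J)) ^ 4 * (4 * H ^ 3 * y ^ 2 / (G ^ 3 * J)) ^ 2)) ^ 2)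
    (u' := evl [x, B, C, H, y, E, G, J, 2, 3] [8, -6, 4, -2, -2, 4, -4, 2, -6, 0])
    (by
      simp only [ev, evl_cons, evl_nil_left, evl_nil_right, cond_true, cond_false, zpow_neg, zpow_ofNat, zpow_zero, zpow_one]
      field_simp
      try ring)
    (by
      simp only [ev, evl_cons, evl_nil_left, evl_nil_right, cond_true, cond_false, zpow_neg, zpow_ofNat, zpow_zero, zpow_one]
      field_simp
      try ring)
  have c27 := hkc9 (f := (-(8 * H ^ 2 * y * E) / (B * C * G * J)) / (4 * (-(2 * x * H ^ 2 * y) / (G ^ 2 * J))))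
    (f' := ev [x, B, C, H, y, E, G, J, 2, 3] (false, [-1, -1, -1, 0, 0, 1, 1, 0, 0, 0]))
    (u := ((-(2 * x * H ^ 2 * y) / (G ^ 2 * J)) * (32 * H ^ 3 * y * E / (B * C * G ^ 2 * J)) ^ 2 / ((-(8 * H ^ 2 * y * E) / (B * C * G * J)) * (8 * x * H ^ 3 * y * E / (B * G ^ 3 * J)) ^ 2)) ^ 4)
    (u' := evl [x, B, C, H, y, E, G, J, 2, 3] [-4, 4, -4, 0, 0, -4, 4, 0, 8, 0])
    (by
      simp only [ev, evl_cons, evl_nil_left, evl_nil_right, cond_true, cond_false, zpow_neg, zpow_ofNat, zpow_zero, zpow_one]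
      field_simp
      try ring)
    (by
      simp only [ev, evl_cons, evl_nil_left, evl_nil_right, cond_true, cond_false, zpow_neg, zpow_ofNat, zpow_zero, zpow_one]
      field_simp
      try ring)
  have c28 := hkc9 (f := -4 / (8 * x * C * H ^ 2 * y / (B * E * G * J)))
    (f' := ev [x, B, C, H, y, E, G, J, 2, 3] (true, [-1, 1, -1, -2, -1, 1, 1, 1, -1, 0]))
    (u := (12 * C * y / (B * E)) ^ 3 * (6 * C ^ 2 * H ^ 2 * y ^ 2 / (B * E * G ^ 2 * J)) ^ 2 * (-(48 * x * C ^ 2 * H * y) / (B * E ^ 2 * G)) ^ 10 / ((48 * C * H * y / (B * E * G)) ^ 2 * (8 * x * C * H ^ 2 * y / (B * E * G * J)) ^ 3 * (-(144 * C ^ 2 * y) / (B * E ^ 2)) ^ 6 * (-(24 * C ^ 2 * H ^ 2 * y ^ 2) / (B * E ^ 2 * G * J)) ^ 4))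
    (u' := evl [x, B, C, H, y, E, G, J, 2, 3] [7, 0, 2, -2, -2, 0, -5, 5, -5, -3])
    (by
      simp only [ev, evl_cons, evl_nil_left, evl_nil_right, cond_true, cond_false, zpow_neg, zpow_ofNat, zpow_zero, zpow_one]
      field_simp
      try ring)
    (by
      simp only [ev, evl_cons, evl_nil_left, evl_nil_right, cond_true, cond_false, zpow_neg, zpow_ofNat, zpow_zero, zpow_one]
      field_simp
      try ring)
  have c29 := hkc9 (f := -6 / (6 * C ^ 2 * H ^ 2 * y ^ 2 / (B * E * G ^ 2 * J)))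
    (f' := ev [x, B, C, H, y, E, G, J, 2, 3] (true, [0, 1, -2, -2, -2, 1, 2, 1, 0, 0]))
    (u := ((6 * C ^ 2 * H ^ 2 * y ^ 2 / (B * E * G ^ 2 * J)) * (-(48 * x * C ^ 2 * H * y) / (B * E ^ 2 * G)) ^ 2 / ((48 * C * H * y / (B * E * G)) * (-(24 * C ^ 2 * H ^ 2 * y ^ 2) / (B * E ^ 2 * G * J)) ^ 2)) ^ 2)
    (u' := evl [x, B, C, H, y, E, G, J, 2, 3] [4, 0, 2, -2, -2, 0, -2, 2, -2, 0])
    (by
      simp only [ev, evl_cons, evl_nil_left, evl_nil_right, cond_true, cond_false, zpow_neg, zpow_ofNat, zpow_zero, zpow_one]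
      field_simp
      try ring)
    (by
      simp only [ev, evl_cons, evl_nil_left, evl_nil_right, cond_true, cond_false, zpow_neg, zpow_ofNat, zpow_zero, zpow_one]
      field_simp
      try ring)
  have c30 := hkc9 (f := 8 / (8 * x * C * H ^ 2 * y / (B * E * G * J)))
    (f' := ev [x, B, C, H, y, E, G, J, 2, 3] (false, [-1, 1, -1, -2, -1, 1, 1, 1, 0, 0]))
    (u := ((48 * C * H * y / (B * E * G)) * (-(144 * C ^ 2 * y) / (B * E ^ 2)) ^ 2 * (-(24 * C ^ 2 * H ^ 2 * y ^ 2) / (B * E ^ 2 * G * J)) ^ 4 / ((12 * C * y / (B * E)) * (-(48 * x * C ^ 2 * H * y) / (B * E ^ 2 * G)) ^ 4 * (-(36 * C ^ 3 * H ^ 2 * y ^ 2) / (B ^ 2 * E * G ^ 2 * J)) ^ 2)) ^ 2)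
    (u' := evl [x, B, C, H, y, E, G, J, 2, 3] [-8, 4, -4, 2, 4, -4, 6, -4, 4, 0])
    (by
      simp only [ev, evl_cons, evl_nil_left, evl_nil_right, cond_true, cond_false, zpow_neg, zpow_ofNat, zpow_zero, zpow_one]
      field_simp
      try ring)
    (by
      simp only [ev, evl_cons, evl_nil_left, evl_nil_right, cond_true, cond_false, zpow_neg, zpow_ofNat, zpow_zero, zpow_one]
      field_simp
      try ring)
  have c31 := hkc9 (f := (48 * C * H * y / (B * E * G)) / (4 * (6 * C ^ 2 * H ^ 2 * y ^ 2 / (B * E * G ^ 2 * J))))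
    (f' := ev [x, B, C, H, y, E, G, J, 2, 3] (false, [0, 0, -1, -1, -1, 0, 1, 1, 1, 0]))
    (u := ((6 * C ^ 2 * H ^ 2 * y ^ 2 / (B * E * G ^ 2 * J)) * (-(48 * x * C ^ 2 * H * y) / (B * E ^ 2 * G)) ^ 2 / ((48 * C * H * y / (B * E * G)) * (-(24 * C ^ 2 * H ^ 2 * y ^ 2) / (B * E ^ 2 * G * J)) ^ 2)) ^ 4)
    (u' := evl [x, B, C, H, y, E, G, J, 2, 3] [8, 0, 4, -4, -4, 0, -4, 4, -4, 0])
    (by
      simp only [ev, evl_cons, evl_nil_left, evl_nil_right, cond_true, cond_false, zpow_neg, zpow_ofNat, zpow_zero, zpow_one]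
      field_simp
      try ring)
    (by
      simp only [ev, evl_cons, evl_nil_left, evl_nil_right, cond_true, cond_false, zpow_neg, zpow_ofNat, zpow_zero, zpow_one]
      field_simp
      try ring)
  have c32 := hkc9 (f := -4 / (-(4 * B * C * H) / (E * G)))
    (f' := ev [x, B, C, H, y, E, G, J, 2, 3] (false, [0, -1, -1, -1, 0, 1, 1, 0, 0, 0]))
    (u := (-(12 * B) / y) ^ 3 * (-(6 * C * H ^ 2) / (G * J)) ^ 2 * (12 * B ^ 2 * C / (y * E)) ^ 10 / ((-(12 * x * B * C) / (y * E)) ^ 2 * (-(4 * B * C * H) / (E * G)) ^ 3 * (12 * x * B ^ 2 / (y ^ 2)) ^ 6 * (12 * B * C * H / (y * G)) ^ 4))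
    (u' := evl [x, B, C, H, y, E, G, J, 2, 3] [-8, 2, 3, -3, 5, -5, 5, -2, -2, 3])
    (by
      simp only [ev, evl_cons, evl_nil_left, evl_nil_right, cond_true, cond_false, zpow_neg, zpow_ofNat, zpow_zero, zpow_one]
      field_simp
      try ring)
    (by
      simp only [ev, evl_cons, evl_nil_left, evl_nil_right, cond_true, cond_false, zpow_neg, zpow_ofNat, zpow_zero, zpow_one]
      field_simp
      try ring)
  have c33 := hkc9 (f := -6 / (-(6 * C * H ^ 2) / (G * J)))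
    (f' := ev [x, B, C, H, y, E, G, J, 2, 3] (false, [0, 0, -1, -2, 0, 0, 1, 1, 0, 0]))
    (u := ((-(6 * C * H ^ 2) / (G * J)) * (12 * B ^ 2 * C / (y * E)) ^ 2 / ((-(12 * x * B * C) / (y * E)) * (12 * B * C * H / (y * G)) ^ 2)) ^ 2)
    (u' := evl [x, B, C, H, y, E, G, J, 2, 3] [-2, 2, 0, 0, 2, -2, 2, -2, -2, 0])
    (by
      simp only [ev, evl_cons, evl_nil_left, evl_nil_right, cond_true, cond_false, zpow_neg, zpow_ofNat, zpow_zero, zpow_one]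
      field_simp
      try ring)
    (by
      simp only [ev, evl_cons, evl_nil_left, evl_nil_right, cond_true, cond_false, zpow_neg, zpow_ofNat, zpow_zero, zpow_one]
      field_simp
      try ring)
  have c34 := hkc9 (f := 8 / (-(4 * B * C * H) / (E * G)))
    (f' := ev [x, B, C, H, y, E, G, J, 2, 3] (true, [0, -1, -1, -1, 0, 1, 1, 0, 1, 0]))
    (u := ((-(12 * x * B * C) / (y * E)) * (12 * x * B ^ 2 / (y ^ 2)) ^ 2 * (12 * B * C * H / (y * G)) ^ 4 / ((-(12 * B) / y) * (12 * B ^ 2 * C / (y * E)) ^ 4 * (12 * B * H ^ 2 / (y * J)) ^ 2)) ^ 2)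
    (u' := evl [x, B, C, H, y, E, G, J, 2, 3] [6, -4, 2, 0, -4, 6, -8, 4, 0, 0])
    (by
      simp only [ev, evl_cons, evl_nil_left, evl_nil_right, cond_true, cond_false, zpow_neg, zpow_ofNat, zpow_zero, zpow_one]
      field_simp
      try ring)
    (by
      simp only [ev, evl_cons, evl_nil_left, evl_nil_right, cond_true, cond_false, zpow_neg, zpow_ofNat, zpow_zero, zpow_one]
      field_simp
      try ring)
  have c35 := hkc9 (f := (-(12 * x * B * C) / (y * E)) / (4 * (-(6 * C * H ^ 2) / (G * J))))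
    (f' := ev [x, B, C, H, y, E, G, J, 2, 3] (false, [1, 1, 0, -2, -1, -1, 1, 1, -1, 0]))
    (u := ((-(6 * C * H ^ 2) / (G * J)) * (12 * B ^ 2 * C / (y * E)) ^ 2 / ((-(12 * x * B * C) / (y * E)) * (12 * B * C * H / (y * G)) ^ 2)) ^ 4)
    (u' := evl [x, B, C, H, y, E, G, J, 2, 3] [-4, 4, 0, 0, 4, -4, 4, -4, -4, 0])
    (by
      simp only [ev, evl_cons, evl_nil_left, evl_nil_right, cond_true, cond_false, zpow_neg, zpow_ofNat, zpow_zero, zpow_one]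
      field_simp
      try ring)
    (by
      simp only [ev, evl_cons, evl_nil_left, evl_nil_right, cond_true, cond_false, zpow_neg, zpow_ofNat, zpow_zero, zpow_one]
      field_simp
      try ring)
  rw [c0, c1, c2, c3, c4, c5, c6, c7, c8, c9, c10, c11, c12, c13, c14, c15, c16, c17, c18, c19, c20, c21, c22, c23, c24, c25, c26, c27, c28, c29, c30, c31, c32, c33, c34, c35]
  abel

/-- the class has no residues -/
theorem unram_xi9 {k : Type*} [Field k] [CharZero k] [Algebra k F]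
    (he : y ^ 2 - 3 * x * y - 12 * y = x ^ 3 - 12 * x ^ 2)
    (hne : ∀ z ∈ FK4R.g9 x y, z ≠ 0) : Unram k (K4N.xi9 x y) := by
  have : CharZero F := charZero_of_injective_algebraMap (algebraMap k F).injective
  rw [xi9_eq he hne]
  exact FK4R.unram9 he hne L9_res

end eq

end Pool.Agent.FK4
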