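import Pool.Agent.Lib_helper2.K4C.Asm2
import Pool.Agent.Lib_helper24.TN.N4K
import Pool.Agent.Lib_helper24.TN.N5C
import Pool.Agent.Lib_helper24.FAM.Defs

set_option autoImplicit false
set_option linter.unusedSectionVars false

/-!
Residues of the classes of the family (points of order four and five) and the constants.
-/

namespace Pool.Agent.FK4R

open Pool.Agent.K4R
open scoped WithZero TensorProduct

section Basic

variable {F : Type*} [Field F] {v : Valuation F ℤᵐ⁰}

theorem noRes_iff [Infinite (rf v)] (z : MK4.HK F) : MK4.NoRes v z ↔ resL v z = 0 := by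
  constructor
  · exact K4CC.res_of_noRes v z
  · intro h
    refine ⟨resL v, fun x u hu => ?_, h⟩
    have h1 : (resL v (K4M.hk (K4M.sy x) (K4M.lg u)) : K4M.B2 (rf v)) =
        ((WithZero.log (v u) : ℤ) : ℚ) • sp v x := by
      rw [resL_hk, valL_lg v hu, spL_sy]
    exact h1

theorem noRes_add [Infinite (rf v)] {z w : MK4.HK F} (hz : MK4.NoRes v z) (hw : MK4.NoRes v w) :
    MK4.NoRes v (z + w) := by
  rw [noRes_iff] at *
  exact (map_add (resL v) z w).trans ((congrArg₂ (· + ·) hz hw).trans (add_zero 0))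

theorem noRes_smul [Infinite (rf v)] {z : MK4.HK F} (hz : MK4.NoRes v z) (r : ℚ) :
    MK4.NoRes v (r • z) := by
  rw [noRes_iff] at *
  exact (map_smul (resL v) r z).trans ((congrArg (r • ·) hz).trans (smul_zero r))

theorem noRes_sub [Infinite (rf v)] {z w : MK4.HK F} (hz : MK4.NoRes v z) (hw : MK4.NoRes v w) :
    MK4.NoRes v (z - w) := by
  have := noRes_add hz (noRes_smul hw (-1))
  rw [neg_one_smul, ← sub_eq_add_neg] at this
  exact this

/-- the residue field is infinite -/
theorem infinite_RF {k : Type*} [Field k] [Algebra k F] [Infinite k]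
    (hv : ∀ c : k, c ≠ 0 → v (algebraMap k F c) = 1) : Infinite (MK4.RF v) :=
  K4CC.infinite_rf v hv

/-! ### orders -/

variable [CharZero F] [DecidableEq F]

lemma tri {a b c : F} (ha : a ≠ 0) (hb : b ≠ 0) (hc : c ≠ 0) (h : a + b = c) :
    min (od v a) (od v b) ≤ od v c ∧ min (od v c) (od v b) ≤ od v a ∧
      min (od v c) (od v a) ≤ od v b := by
  refine ⟨?_, ?_, ?_⟩
  · have := od_add v ha hb (by rw [h]; exact hc)
    rwa [h] at this
  · have e : c + -b = a := by rw [← h]; ring
    have := od_add v hc (neg_ne_zero.mpr hb) (by rw [e]; exact ha)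
    rwa [e, od_neg] at this
  · have e : c + -a = b := by rw [← h]; ring
    have := od_add v hc (neg_ne_zero.mpr ha) (by rw [e]; exact hb)
    rwa [e, od_neg] at this

lemma v_lt_of_od {r : F} (hr : r ≠ 0) (h : 0 < od v r) : v r < 1 := by
  have n := (Valuation.ne_zero_iff v).mpr hr
  rw [← WithZero.log_lt_log n one_ne_zero, WithZero.log_one]
  unfold od at h
  omega

lemma od_of_v_one {r : F} (h : v r = 1) : od v r = 0 := by
  unfold od
  rw [h, WithZero.log_one, neg_zero]

lemma v_root {τ : F} {n : ℕ} (hn : n ≠ 0) (h : τ ^ n = 1) : v τ = 1 := by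
  have h1 : (v τ) ^ n = 1 := by rw [← map_pow, h, map_one]
  rcases lt_trichotomy (v τ) 1 with h2 | h2 | h2
  · exact absurd h1 (pow_lt_one₀ zero_le h2 hn).ne
  · exact h2
  · exact absurd h1 (one_lt_pow₀ h2 hn).ne'

lemma sp_near {r s : F} (hs : s ≠ 0) (h : r - 1 = s) (ho : 0 < od v s) : sp v r = 0 := by
  rw [← sp_one v]
  refine sp_congr v ?_
  rw [h]
  exact v_lt_of_od hs ho

lemma term_zero [Infinite (rf v)] {a b : F} (hb : b ≠ 0) (h : od v b ≠ 0 → sp v a = 0) :
    resL v (K4M.hk (K4M.sy a) (K4M.lg b)) = 0 := by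
  rw [resL_hk, valL_lg v hb, spL_sy]
  by_cases h0 : od v b = 0
  · have : WithZero.log (v b) = 0 := by
      unfold od at h0
      omega
    rw [this, Int.cast_zero, zero_smul]
  · rw [h h0, smul_zero]

end Basic

section Four

variable {F : Type*} [Field F] [CharZero F] [DecidableEq F] {v : Valuation F ℤᵐ⁰}

theorem res4 [Infinite (rf v)] {x y τ : F} (hx : x ≠ 0) (hy : y ≠ 0)
    (he : y * (y + x - τ) = x ^ 2 * (x - τ)) (hτ : v τ = 1) :
    resL v (K4M.hk (K4M.sy (x / τ)) (K4M.lg y)) = 0 ∧
      resL v (K4M.hk (K4M.sy (y / x ^ 2)) (K4M.lg x)) = 0 := by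
  have hτ0 : τ ≠ 0 := by
    rintro rfl
    rw [map_zero] at hτ
    exact zero_ne_one hτ
  have hu : x - τ ≠ 0 := by
    intro h
    rw [h, mul_zero, show y + x - τ = y + (x - τ) by ring, h, add_zero, mul_eq_zero] at he
    exact hy (or_self_iff.mp he)
  have hw : y + x - τ ≠ 0 := by
    intro h
    rw [h, mul_zero] at he
    exact mul_ne_zero (pow_ne_zero 2 hx) hu he.symm
  have T : od v τ = 0 := od_of_v_one hτ
  have e1 : od v y + od v (y + x - τ) = 2 * od v x + od v (x - τ) := by
    rw [← od_mul v hy hw, he, od_mul v (pow_ne_zero 2 hx) hu, pow_two, od_mul v hx hx]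
    ring
  obtain ⟨t1, t2, t3⟩ := tri (v := v) hu hτ0 hx (by ring)
  obtain ⟨s1, s2, s3⟩ := tri (v := v) hy hu hw (by ring)
  rw [T] at t1 t2 t3
  constructor
  · refine term_zero hy fun h0 => ?_
    by_cases hX : od v x = 0
    · have hU : 0 < od v (x - τ) := by
        generalize od v x = X at *
        generalize od v y = Y at *
        generalize od v (x - τ) = U at *
        generalize od v (y + x - τ) = W at *
        omega
      refine sp_near (s := (x - τ) / τ) (div_ne_zero hu hτ0) (by field_simp) ?_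
      rw [od_div v hu hτ0, T, sub_zero]
      exact hU
    · refine sp_od v ?_
      rw [od_div v hx hτ0, T, sub_zero]
      exact hX
  · refine term_zero hx fun h0 => ?_
    by_cases hX : od v y = 2 * od v x
    · have hU : 0 < od v y - od v (y + x - τ) := by
        generalize od v x = X at *
        generalize od v y = Y at *
        generalize od v (x - τ) = U at *
        generalize od v (y + x - τ) = W at *
        omega
      refine sp_near (s := -y / (y + x - τ)) (div_ne_zero (neg_ne_zero.mpr hy) hw) ?_ ?_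
      · rw [div_sub_one (pow_ne_zero 2 hx), div_eq_div_iff (pow_ne_zero 2 hx) hw]
        linear_combination he
      · rw [od_div v (neg_ne_zero.mpr hy) hw, od_neg]
        exact hU
    · refine sp_od v ?_
      rw [od_div v hy (pow_ne_zero 2 hx), pow_two, od_mul v hx hx]
      omega

end Four

section Five

variable {F : Type*} [Field F] [CharZero F] [DecidableEq F] {v : Valuation F ℤᵐ⁰}

lemma idx {a p q : F} (ha : a ≠ 0) (hp : p ≠ 0) (hq : q ≠ 0) (h : p * q = 1 - a) :
    (min (od v p + od v q) (od v a) ≤ 0 ∧ min 0 (od v a) ≤ od v p + od v q ∧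
      min 0 (od v p + od v q) ≤ od v a) ∧
    (od v a ≠ 0 ∨ 0 < od v p + od v q → sp v a = 0) := by
  have hpq := mul_ne_zero hp hq
  have t := tri (v := v) hpq ha one_ne_zero (by rw [h]; ring)
  rw [od_one, od_mul v hp hq] at t
  refine ⟨⟨t.1, t.2.1, t.2.2⟩, ?_⟩
  rintro (h0 | h0)
  · exact sp_od v h0
  · refine sp_near (s := -(p * q)) (neg_ne_zero.mpr hpq) (by rw [h]; ring) ?_
    rw [od_neg, od_mul v hp hq]
    exact h0

theorem penta (a : Fin 5 → F) (ha : ∀ j, a j ≠ 0) (hp : ∀ j, a (j - 1) * a (j + 1) = 1 - a j)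
    (hs : v (a 0 * a 1 * a 2 * a 3 * a 4) = 1) : (∀ j, od v (a j) = 0) ∨ ∀ j, sp v (a j) = 0 := by
  have hsum : od v (a 0) + od v (a 1) + od v (a 2) + od v (a 3) + od v (a 4) = 0 := by
    rw [← od_mul v (ha 0) (ha 1), ← od_mul v (mul_ne_zero (ha 0) (ha 1)) (ha 2),
      ← od_mul v (mul_ne_zero (mul_ne_zero (ha 0) (ha 1)) (ha 2)) (ha 3),
      ← od_mul v (mul_ne_zero (mul_ne_zero (mul_ne_zero (ha 0) (ha 1)) (ha 2)) (ha 3)) (ha 4)]
    exact od_of_v_one hs
  obtain ⟨⟨a0, b0, c0⟩, s0⟩ := idx (v := v) (ha 0) (ha 4) (ha 1) (hp 0)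
  obtain ⟨⟨a1, b1, c1⟩, s1⟩ := idx (v := v) (ha 1) (ha 0) (ha 2) (hp 1)
  obtain ⟨⟨a2, b2, c2⟩, s2⟩ := idx (v := v) (ha 2) (ha 1) (ha 3) (hp 2)
  obtain ⟨⟨a3, b3, c3⟩, s3⟩ := idx (v := v) (ha 3) (ha 2) (ha 4) (hp 3)
  obtain ⟨⟨a4, b4, c4⟩, s4⟩ := idx (v := v) (ha 4) (ha 3) (ha 0) (hp 4)
  by_cases h : od v (a 0) = 0 ∧ od v (a 1) = 0 ∧ od v (a 2) = 0 ∧ od v (a 3) = 0 ∧ od v (a 4) = 0
  · left
    obtain ⟨h0, h1, h2, h3, h4⟩ := h
    intro j
    fin_cases j <;> assumption
  · right
    have g0 := s0 (by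
      generalize od v (a 0) = A at *
      generalize od v (a 1) = B at *
      generalize od v (a 2) = C at *
      generalize od v (a 3) = D at *
      generalize od v (a 4) = E at *
      omega)
    have g1 := s1 (by
      generalize od v (a 0) = A at *
      generalize od v (a 1) = B at *
      generalize od v (a 2) = C at *
      generalize od v (a 3) = D at *
      generalize od v (a 4) = E at *
      omega)
    have g2 := s2 (by
      generalize od v (a 0) = A at *
      generalize od v (a 1) = B at *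
      generalize od v (a 2) = C at *
      generalize od v (a 3) = D at *
      generalize od v (a 4) = E at *
      omega)
    have g3 := s3 (by
      generalize od v (a 0) = A at *
      generalize od v (a 1) = B at *
      generalize od v (a 2) = C at *
      generalize od v (a 3) = D at *
      generalize od v (a 4) = E at *
      omega)
    have g4 := s4 (by
      generalize od v (a 0) = A at *
      generalize od v (a 1) = B at *
      generalize od v (a 2) = C at *
      generalize od v (a 3) = D at *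
      generalize od v (a 4) = E at *
      omega)
    intro j
    fin_cases j <;> assumption

end Five

section Final

variable {k : Type*} [Field k] {F : Type*} [Field F] [Algebra k F] {t : k} {x y : F}

/-- **Order four.** -/
theorem noRes_four [CharZero k] {n : ℕ} (hn : n ≠ 0) (ht : t ^ n = 1) (h : TN.Gen t 0 x y)
    (v : Valuation F ℤᵐ⁰) (hv : Infinite (MK4.RF v)) :
    MK4.NoRes v (TN.N4.xi x y (algebraMap k F t)) := by
  classical
  have : CharZero F := charZero_of_injective_algebraMap (algebraMap k F).injective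
  have hi : Infinite (rf v) := hv
  have hτ : v (algebraMap k F t) = 1 := v_root hn (by rw [← map_pow, ht, map_one])
  have he : y * (y + x - algebraMap k F t) = x ^ 2 * (x - algebraMap k F t) := by
    have h1 := h.eq
    rw [map_zero] at h1
    linear_combination h1
  obtain ⟨h1, h2⟩ := res4 (v := v) h.x_ne h.y_ne he hτ
  unfold TN.N4.xi
  exact noRes_sub ((noRes_iff _).mpr h1) ((noRes_iff _).mpr h2)

theorem noRes_five_aux [CharZero k] {n : ℕ} (hn : n ≠ 0) (ht : t ^ n = 1) (h : TN.Gen t t x y)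
    (v : Valuation F ℤᵐ⁰) [Infinite (rf v)] (j l : Fin 5) :
    resL v (K4M.hk (K4M.sy (TN.N5.v t x y j)) (K4M.lg (TN.N5.v t x y l))) = 0 := by
  classical
  have : CharZero F := charZero_of_injective_algebraMap (algebraMap k F).injective
  have ht0 : t ≠ 0 := by
    rintro rfl
    rw [zero_pow hn] at ht
    exact zero_ne_one ht
  have hτ : v (algebraMap k F t) = 1 := v_root hn (by rw [← map_pow, ht, map_one])
  have e : TN.N5.v t x y 0 * TN.N5.v t x y 1 * TN.N5.v t x y 2 * TN.N5.v t x y 3 *
      TN.N5.v t x y 4 = - algebraMap k F t := by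
    have hx := h.x_ne
    have hx1 := h.xc_ne t
    have hy := h.y_ne
    have hw := TN.N5.Gen.w_ne h
    show algebraMap k F t / x * (y * (x - algebraMap k F t) / (x * (y - algebraMap k F t * x))) *
      (-y / (x - algebraMap k F t)) * (x ^ 2 / y) * ((y - algebraMap k F t * x) / y) = _
    field_simp
  refine term_zero (TN.N5.v_ne ht0 h l) fun h0 => ?_
  rcases penta (v := v) (TN.N5.v t x y) (TN.N5.v_ne ht0 h) (TN.N5.v_penta ht0 h)
    (by rw [e, Valuation.map_neg]; exact hτ) with h1 | h1
  · exact absurd (h1 l) h0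
  · exact h1 j

/-- **Order five**, first class. -/
theorem noRes_five1 [CharZero k] {n : ℕ} (hn : n ≠ 0) (ht : t ^ n = 1) (h : TN.Gen t t x y)
    (v : Valuation F ℤᵐ⁰) (hv : Infinite (MK4.RF v)) : MK4.NoRes v (TN.N5.Z1 t x y) := by
  have hi : Infinite (rf v) := hv
  rw [noRes_iff]
  have e : TN.N5.Z1 t x y = ∑ j : Fin 5, K4M.hk (K4M.sy (TN.N5.v t x y j))
    (K4M.lg (TN.N5.v t x y (j + 1))) := rfl
  have h2 := map_sum (resL v) (fun j : Fin 5 => K4M.hk (K4M.sy (TN.N5.v t x y j))
    (K4M.lg (TN.N5.v t x y (j + 1)))) Finset.univ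
  rw [Finset.sum_eq_zero fun j _ => noRes_five_aux hn ht h v j (j + 1)] at h2
  exact h2

/-- **Order five**, second class. -/
theorem noRes_five2 [CharZero k] {n : ℕ} (hn : n ≠ 0) (ht : t ^ n = 1) (h : TN.Gen t t x y)
    (v : Valuation F ℤᵐ⁰) (hv : Infinite (MK4.RF v)) : MK4.NoRes v (TN.N5.Z2 t x y) := by
  have hi : Infinite (rf v) := hv
  rw [noRes_iff]
  have h2 := map_sum (resL v) (fun j : Fin 5 => K4M.hk (K4M.sy (TN.N5.v t x y j))
    (K4M.lg (TN.N5.v t x y (j + 2)))) Finset.univ
  rw [Finset.sum_eq_zero fun j _ => noRes_five_aux hn ht h v j (j + 2)] at h2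
  exact h2

/-- **Constants**: over an algebraically closed field of constants, an element of the span of the
`{c} ⊗ u` without residues at the places is in the span of the `{c} ⊗ κ`. -/
theorem const_res [IsAlgClosed k] [CharZero k] {W : WeierstrassCurve.Affine k} {X Y : F}
    (h : FK4.Generic W X Y) (hF : IntermediateField.adjoin k {X, Y} = ⊤) {z : MK4.HK F}
    (hz : z ∈ MK4.Cst k F)
    (hr : ∀ v : Valuation F ℤᵐ⁰, (∀ c : k, c ≠ 0 → v (algebraMap k F c) = 1) → MK4.NoRes v z) :
    z ∈ MK4.Cst₀ k F := by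
  have halg : IsAlgebraic (IntermediateField.adjoin k {X}) Y := by
    let ξ : IntermediateField.adjoin k {X} := ⟨X, IntermediateField.mem_adjoin_simple_self k X⟩
    let b : k → IntermediateField.adjoin k {X} := algebraMap k _
    refine ⟨Polynomial.X ^ 2 + Polynomial.C (b W.a₁ * ξ + b W.a₃) * Polynomial.X -
      Polynomial.C (ξ ^ 3 + b W.a₂ * ξ ^ 2 + b W.a₄ * ξ + b W.a₆), ?_, ?_⟩
    · intro h
      have h1 := congrArg (fun p => Polynomial.coeff p 2) h
      simp only [Polynomial.coeff_sub, Polynomial.coeff_add, Polynomial.coeff_X_pow,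
        Polynomial.coeff_zero] at h1
      rw [Polynomial.coeff_C_of_ne_zero (by norm_num), Polynomial.coeff_C_mul,
        Polynomial.coeff_X] at h1
      norm_num at h1
    · simp only [map_sub, map_add, map_pow, map_mul, Polynomial.aeval_X, Polynomial.aeval_C]
      show Y ^ 2 + (algebraMap k F W.a₁ * X + algebraMap k F W.a₃) * Y -
        (X ^ 3 + algebraMap k F W.a₂ * X ^ 2 + algebraMap k F W.a₄ * X + algebraMap k F W.a₆) = 0
      linear_combination h.eq
  have h1 : z ∈ K4CC.CC k F := by
    refine K4CC.const_kill_all X Y halg hF z ?_ ?_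
    · refine (Submodule.span_mono ?_) hz
      rintro w ⟨c, u, rfl⟩
      exact ⟨c, K4M.lg u, rfl⟩
    · intro v hv htv
      exact K4CC.res_of_noRes v z (hr v htv)
  refine (Submodule.span_mono ?_) h1
  rintro w ⟨c, κ, _, rfl⟩
  exact ⟨c, κ, rfl⟩

end Final

end Pool.Agent.FK4R
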