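import Pool.Agent.Lib_helper54.FAM.RC2

set_option autoImplicit false
set_option linter.unusedSectionVars false
set_option linter.unusedVariables false
set_option linter.unusedSimpArgs false

/-!
Local data at the places of the second special curve with a point of order six.
-/

namespace Pool.Agent.FK4R

open Pool.Agent.K4R Pool.Agent.KC72
open scoped WithZero TensorProduct

/-- the generators -/
def g6d {F : Type*} [Field F] (x y : F) : List F :=
  [x, x + (2 / 9), x + (1 / 3), y, y + (1 / 3) * x, 2, 3]

/-- the local data at the points -/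
def locs6d : List (List (ℤ × Mo)) :=
  [[(2, (false, [])), (2, (false, [])), (2, (false, [])), (3, (false, [])), (3, (false, [])), (0, (false, [1])), (0, (false, [0, 1]))],
   [(1, (false, [])), (0, (false, [1, -2])), (0, (false, [0, -1])), (2, (false, [])), (1, (false, [0, -1])), (0, (false, [1])), (0, (false, [0, 1]))],
   [(1, (false, [])), (0, (false, [1, -2])), (0, (false, [0, -1])), (0, (true, [1, -2])), (0, (true, [1, -2])), (0, (false, [1])), (0, (false, [0, 1]))],
   [(0, (true, [1, -2])), (1, (false, [])), (0, (false, [0, -2])), (0, (false, [1, -3])), (1, (true, [0, -1])), (0, (false, [1])), (0, (false, [0, 1]))],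
   [(0, (true, [1, -2])), (1, (false, [])), (0, (false, [0, -2])), (1, (true, [1, -1])), (0, (true, [1, -3])), (0, (false, [1])), (0, (false, [0, 1]))],
   [(0, (true, [0, -1])), (0, (true, [0, -2])), (2, (false, [0, 3])), (0, (false, [0, -2])), (1, (false, [])), (0, (false, [1])), (0, (false, [0, 1]))]]

section s6d

variable {F : Type*} [Field F] [CharZero F] {v : Valuation F ℤᵐ⁰} {x y : F}

theorem places6d (hT : Tq v) (heq : y ^ 2 + (4 / 3) * x * y + (2 / 9) * y = x ^ 3 + (2 / 9) * x ^ 2)
    (hne : ∀ z ∈ g6d x y, z ≠ 0) : (∀ z ∈ g6d x y, v z = 1) ∨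
      ∃ loc ∈ locs6d, ∃ t : F, t ≠ 0 ∧ v t ≠ 1 ∧ Loc v [2, 3] t (g6d x y) loc := by
  have hbq : v ((-2 / 9) : F) ≤ 1 := by
    have := hT.le (-2 / 9)
    norm_num at this ⊢
    exact this
  have hcq : v ((-1 / 3) : F) ≤ 1 := by
    have := hT.le (-1 / 3)
    norm_num at this ⊢
    exact this
  have hE : y ^ 2 + (1 - (-1 / 3)) * x * y - (-2 / 9) * y = x ^ 3 - (-2 / 9) * x ^ 2 := by
    linear_combination heq
  have nx0 : x ≠ 0 := hne _ (by simp [g6d])
  have nx1 : x + (2 / 9) ≠ 0 := hne _ (by simp [g6d])
  have nx2 : x + (1 / 3) ≠ 0 := hne _ (by simp [g6d])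
  have ny0 : y ≠ 0 := hne _ (by simp [g6d])
  have ny1 : y + (1 / 3) * x ≠ 0 := hne _ (by simp [g6d])
  have n2d9 : Nq v ((2 / 9) : F) (2 / 9) := Nq.num _ (by norm_num)
  have n1d3 : Nq v ((1 / 3) : F) (1 / 3) := Nq.num _ (by norm_num)
  have n2d3 : Nq v ((2 / 3) : F) (2 / 3) := Nq.num _ (by norm_num)
  have n1 : Nq v (1 : F) 1 := Nq.num _ (by norm_num)
  have n4d3 : Nq v ((4 / 3) : F) (4 / 3) := Nq.num _ (by norm_num)
  have n2 : Nq v (2 : F) 2 := Nq.num _ (by norm_num)
  have n3 : Nq v (3 : F) 3 := Nq.num _ (by norm_num)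
  have P1 : Nq v x 0 → Nq v y 0 →
      ∃ loc ∈ locs6d, ∃ t : F, t ≠ 0 ∧ v t ≠ 1 ∧ Loc v [2, 3] t (g6d x y) loc := by
    intro hx hy
    refine ⟨[(1, (false, [])), (0, (false, [1, -2])), (0, (false, [0, -1])), (2, (false, [])), (1, (false, [0, -1])), (0, (false, [1])), (0, (false, [0, 1]))], by decide, x, nx0, ?_, ?_⟩
    · have h := hx
      have h' : v (x) < 1 := by
        unfold Nq at h
        norm_num at h
        exact h
      exact h'.ne
    · refine List.Forall₂.cons ?_ (List.Forall₂.cons ?_ (List.Forall₂.cons ?_ (List.Forall₂.cons ?_ (List.Forall₂.cons ?_ (List.Forall₂.cons ?_ (List.Forall₂.cons ?_ (List.Forall₂.nil)))))))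
      · exact Lc_self _
      · exact Lc_unit hT (hx.add n2d9) (by norm_num) (by norm_num [ev, evl]) _
      · exact Lc_unit hT (hx.add n1d3) (by norm_num) (by norm_num [ev, evl]) _
      · exact Lc_quot (m := 2) hT (A := y) (B := y + (4 / 3) * x + (2 / 9)) (C := (x + (2 / 9)))
          (by linear_combination heq) ((hy.add (n4d3.mul hT hx)).add n2d9)
          (hx.add n2d9) (by norm_num) (by norm_num) (by norm_num [ev, evl])
      · exact Lc_quot (m := 1) hT (A := y + (1 / 3) * x) (B := y + x + (2 / 9)) (C := ((x + (2 / 9)) * (x + (1 / 3))))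
          (by linear_combination heq) ((hy.add hx).add n2d9)
          ((hx.add n2d9).mul hT (hx.add n1d3)) (by norm_num) (by norm_num) (by norm_num [ev, evl])
      · exact Lc_unit hT n2 (by norm_num) (by norm_num [ev, evl]) _
      · exact Lc_unit hT n3 (by norm_num) (by norm_num [ev, evl]) _
  have M1 : Nq v x 0 → Nq v y (-2 / 9) →
      ∃ loc ∈ locs6d, ∃ t : F, t ≠ 0 ∧ v t ≠ 1 ∧ Loc v [2, 3] t (g6d x y) loc := by
    intro hx hy
    refine ⟨[(1, (false, [])), (0, (false, [1, -2])), (0, (false, [0, -1])), (0, (true, [1, -2])), (0, (true, [1, -2])), (0, (false, [1])), (0, (false, [0, 1]))], by decide, x, nx0, ?_, ?_⟩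
    · have h := hx
      have h' : v (x) < 1 := by
        unfold Nq at h
        norm_num at h
        exact h
      exact h'.ne
    · refine List.Forall₂.cons ?_ (List.Forall₂.cons ?_ (List.Forall₂.cons ?_ (List.Forall₂.cons ?_ (List.Forall₂.cons ?_ (List.Forall₂.cons ?_ (List.Forall₂.cons ?_ (List.Forall₂.nil)))))))
      · exact Lc_self _
      · exact Lc_unit hT (hx.add n2d9) (by norm_num) (by norm_num [ev, evl]) _
      · exact Lc_unit hT (hx.add n1d3) (by norm_num) (by norm_num [ev, evl]) _
      · exact Lc_unit hT hy (by norm_num) (by norm_num [ev, evl]) _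
      · exact Lc_unit hT (hy.add (n1d3.mul hT hx)) (by norm_num) (by norm_num [ev, evl]) _
      · exact Lc_unit hT n2 (by norm_num) (by norm_num [ev, evl]) _
      · exact Lc_unit hT n3 (by norm_num) (by norm_num [ev, evl]) _
  have P2 : Nq v x (-2 / 9) → Nq v y (2 / 27) →
      ∃ loc ∈ locs6d, ∃ t : F, t ≠ 0 ∧ v t ≠ 1 ∧ Loc v [2, 3] t (g6d x y) loc := by
    intro hx hy
    refine ⟨[(0, (true, [1, -2])), (1, (false, [])), (0, (false, [0, -2])), (0, (false, [1, -3])), (1, (true, [0, -1])), (0, (false, [1])), (0, (false, [0, 1]))], by decide, x + (2 / 9), nx1, ?_, ?_⟩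
    · have h := (hx.add n2d9)
      have h' : v (x + (2 / 9)) < 1 := by
        unfold Nq at h
        norm_num at h
        exact h
      exact h'.ne
    · refine List.Forall₂.cons ?_ (List.Forall₂.cons ?_ (List.Forall₂.cons ?_ (List.Forall₂.cons ?_ (List.Forall₂.cons ?_ (List.Forall₂.cons ?_ (List.Forall₂.cons ?_ (List.Forall₂.nil)))))))
      · exact Lc_unit hT hx (by norm_num) (by norm_num [ev, evl]) _
      · exact Lc_self _
      · exact Lc_unit hT (hx.add n1d3) (by norm_num) (by norm_num [ev, evl]) _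
      · exact Lc_unit hT hy (by norm_num) (by norm_num [ev, evl]) _
      · exact Lc_quot (m := 1) hT (A := y + (1 / 3) * x) (B := y + x + (2 / 9)) (C := ((x) * (x + (1 / 3))))
          (by linear_combination heq) ((hy.add hx).add n2d9)
          (hx.mul hT (hx.add n1d3)) (by norm_num) (by norm_num) (by norm_num [ev, evl])
      · exact Lc_unit hT n2 (by norm_num) (by norm_num [ev, evl]) _
      · exact Lc_unit hT n3 (by norm_num) (by norm_num [ev, evl]) _
  have M2 : Nq v x (-2 / 9) → Nq v y 0 →
      ∃ loc ∈ locs6d, ∃ t : F, t ≠ 0 ∧ v t ≠ 1 ∧ Loc v [2, 3] t (g6d x y) loc := by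
    intro hx hy
    refine ⟨[(0, (true, [1, -2])), (1, (false, [])), (0, (false, [0, -2])), (1, (true, [1, -1])), (0, (true, [1, -3])), (0, (false, [1])), (0, (false, [0, 1]))], by decide, x + (2 / 9), nx1, ?_, ?_⟩
    · have h := (hx.add n2d9)
      have h' : v (x + (2 / 9)) < 1 := by
        unfold Nq at h
        norm_num at h
        exact h
      exact h'.ne
    · refine List.Forall₂.cons ?_ (List.Forall₂.cons ?_ (List.Forall₂.cons ?_ (List.Forall₂.cons ?_ (List.Forall₂.cons ?_ (List.Forall₂.cons ?_ (List.Forall₂.cons ?_ (List.Forall₂.nil)))))))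
      · exact Lc_unit hT hx (by norm_num) (by norm_num [ev, evl]) _
      · exact Lc_self _
      · exact Lc_unit hT (hx.add n1d3) (by norm_num) (by norm_num [ev, evl]) _
      · exact Lc_quot (m := 1) hT (A := y) (B := y + (4 / 3) * x + (2 / 9)) (C := ((x) * (x)))
          (by linear_combination heq) ((hy.add (n4d3.mul hT hx)).add n2d9)
          (hx.mul hT hx) (by norm_num) (by norm_num) (by norm_num [ev, evl])
      · exact Lc_unit hT (hy.add (n1d3.mul hT hx)) (by norm_num) (by norm_num [ev, evl]) _
      · exact Lc_unit hT n2 (by norm_num) (by norm_num [ev, evl]) _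
      · exact Lc_unit hT n3 (by norm_num) (by norm_num [ev, evl]) _
  have P3 : Nq v x (-1 / 3) → Nq v y (1 / 9) →
      ∃ loc ∈ locs6d, ∃ t : F, t ≠ 0 ∧ v t ≠ 1 ∧ Loc v [2, 3] t (g6d x y) loc := by
    intro hx hy
    refine ⟨[(0, (true, [0, -1])), (0, (true, [0, -2])), (2, (false, [0, 3])), (0, (false, [0, -2])), (1, (false, [])), (0, (false, [1])), (0, (false, [0, 1]))], by decide, y + (1 / 3) * x, ny1, ?_, ?_⟩
    · have h := (hy.add (n1d3.mul hT hx))
      have h' : v (y + (1 / 3) * x) < 1 := by
        unfold Nq at h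
        norm_num at h
        exact h
      exact h'.ne
    · refine List.Forall₂.cons ?_ (List.Forall₂.cons ?_ (List.Forall₂.cons ?_ (List.Forall₂.cons ?_ (List.Forall₂.cons ?_ (List.Forall₂.cons ?_ (List.Forall₂.cons ?_ (List.Forall₂.nil)))))))
      · exact Lc_unit hT hx (by norm_num) (by norm_num [ev, evl]) _
      · exact Lc_unit hT (hx.add n2d9) (by norm_num) (by norm_num [ev, evl]) _
      · exact Lc_quot (m := 2) hT (A := x + (1 / 3)) (B := x * (x + (2 / 9)) - (2 / 3) * (y + (1 / 3) * x)) (C := 1) (by linear_combination (-1) * heq)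
          ((hx.mul hT (hx.add n2d9)).sub (n2d3.mul hT (hy.add (n1d3.mul hT hx)))) n1 (by norm_num) (by norm_num) (by norm_num [ev, evl])
      · exact Lc_unit hT hy (by norm_num) (by norm_num [ev, evl]) _
      · exact Lc_self _
      · exact Lc_unit hT n2 (by norm_num) (by norm_num [ev, evl]) _
      · exact Lc_unit hT n3 (by norm_num) (by norm_num [ev, evl]) _
  by_cases hO : 1 < v x
  · right
    obtain ⟨h1, h2, h3, h4⟩ := at_O hE hbq hcq hO
    refine ⟨[(2, (false, [])), (2, (false, [])), (2, (false, [])), (3, (false, [])), (3, (false, [])), (0, (false, [1])), (0, (false, [0, 1]))], by decide, y / x, h2, h1, List.Forall₂.cons ?_ (List.Forall₂.cons ?_ (List.Forall₂.cons ?_ (List.Forall₂.cons ?_ (List.Forall₂.cons ?_ (List.Forall₂.cons ?_ (List.Forall₂.cons ?_ (List.Forall₂.nil)))))))⟩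
    · have h := h3 0 (by simpa using hT.le 0)
      simp only [sub_zero, zero_mul] at h
      exact h
    · have h := h3 (-((2 / 9))) (by simpa using hT.le (-2 / 9))
      rw [sub_neg_eq_add] at h
      exact h
    · have h := h3 (-((1 / 3))) (by simpa using hT.le (-1 / 3))
      rw [sub_neg_eq_add] at h
      exact h
    · have h := h4 0 (by simpa using hT.le 0)
      simp only [sub_zero, zero_mul] at h
      exact h
    · have h := h4 (-((1 / 3))) (by simpa using hT.le (-1 / 3))
      rw [neg_mul, sub_neg_eq_add] at h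
      exact h
    · exact Lc_unit hT n2 (by norm_num) (by norm_num [ev, evl]) _
    · exact Lc_unit hT n3 (by norm_num) (by norm_num [ev, evl]) _
  rw [not_lt] at hO
  have hy1 := vy_le hE hbq hcq hO
  by_cases h : v (x) < 1
  · right
    have hx : Nq v x 0 := by
      unfold Nq
      norm_num
      exact h
    have hd := two_pts hE hbq hcq hO (α := 0) (β := 0) (γ := (-2 / 9))
      (by norm_num; exact h) (by simpa using hT.le 0) (by norm_num) (by norm_num)
    rcases hd with hd | hd
    · exact P1 hx (by unfold Nq; norm_num at hd ⊢; exact hd)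
    · exact M1 hx (by unfold Nq; norm_num at hd ⊢; exact hd)
  have hx0 : v (x) = 1 := one_of_not_lt (hO) h
  clear h
  by_cases h : v (x + (2 / 9)) < 1
  · right
    have hx : Nq v x (-2 / 9) := by
      unfold Nq
      norm_num
      exact h
    have hd := two_pts hE hbq hcq hO (α := (-2 / 9)) (β := (2 / 27)) (γ := 0)
      (by norm_num; exact h) (by simpa using hT.le (-2 / 9)) (by norm_num) (by norm_num)
    rcases hd with hd | hd
    · exact P2 hx (by unfold Nq; norm_num at hd ⊢; exact hd)
    · exact M2 hx (by unfold Nq; norm_num at hd ⊢; exact hd)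
  have hx1 : v (x + (2 / 9)) = 1 := one_of_not_lt (Valuation.map_add_le _ hO (by simpa using hT.le (2 / 9))) h
  clear h
  by_cases h : v (x + (1 / 3)) < 1
  · right
    have hx : Nq v x (-1 / 3) := by
      unfold Nq
      norm_num
      exact h
    have hd := two_pts hE hbq hcq hO (α := (-1 / 3)) (β := (1 / 9)) (γ := (1 / 9))
      (by norm_num; exact h) (by simpa using hT.le (-1 / 3)) (by norm_num) (by norm_num)
    rcases hd with hd | hd
    · exact P3 hx (by unfold Nq; norm_num at hd ⊢; exact hd)
    · exact P3 hx (by unfold Nq; norm_num at hd ⊢; exact hd)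
  have hx2 : v (x + (1 / 3)) = 1 := one_of_not_lt (Valuation.map_add_le _ hO (by simpa using hT.le (1 / 3))) h
  clear h
  left
  have hy_0 : v (y) = 1 := by
    refine one_of_mul (B := y + (4 / 3) * x + (2 / 9)) (C := (x) * (x) * (x + (2 / 9))) hy1
      (Valuation.map_add_le _ (Valuation.map_add_le _ hy1 (by
      rw [map_mul]
      exact mul_le_one' (by simpa using hT.le (4 / 3)) hO)) (by simpa using hT.le (2 / 9))) (by linear_combination heq) ?_
    simp only [map_mul, hx0, hx1, mul_one]
  have hy_1 : v (y + (1 / 3) * x) = 1 := by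
    refine one_of_mul (B := y + x + (2 / 9)) (C := (x) * (x + (2 / 9)) * (x + (1 / 3))) (Valuation.map_add_le _ hy1 (by
      rw [map_mul]
      exact mul_le_one' (by simpa using hT.le (1 / 3)) hO))
      (Valuation.map_add_le _ (Valuation.map_add_le _ hy1 hO) (by simpa using hT.le (2 / 9))) (by linear_combination heq) ?_
    simp only [map_mul, hx0, hx1, hx2, mul_one]
  intro z hz
  simp only [g6d, List.mem_cons, List.not_mem_nil, or_false] at hz
  rcases hz with rfl | rfl | rfl | rfl | rfl | rfl | rfl
  · exact hx0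
  · exact hx1
  · exact hx2
  · exact hy_0
  · exact hy_1
  · simpa using hT 2 (by norm_num)
  · simpa using hT 3 (by norm_num)

end s6d

end Pool.Agent.FK4R
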