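import Pool.Agent.Lib_helper54.FAM.RC4

set_option autoImplicit false
set_option linter.unusedSectionVars false
set_option linter.unusedVariables false
set_option linter.unusedSimpArgs false

/-!
Local data at the places of the third special curve with a point of order six.
-/

namespace Pool.Agent.FK4R

open Pool.Agent.K4R Pool.Agent.KC72
open scoped WithZero TensorProduct

/-- the generators -/
def g6e {F : Type*} [Field F] (x y : F) : List F :=
  [x, x + (4 / 25), x + (1 / 5), y, y + (1 / 5) * x, 2, 5]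

/-- the local data at the points -/
def locs6e : List (List (ℤ × Mo)) :=
  [[(2, (false, [])), (2, (false, [])), (2, (false, [])), (3, (false, [])), (3, (false, [])), (0, (false, [1])), (0, (false, [0, 0, 1]))],
   [(1, (false, [])), (0, (false, [2, 0, -2])), (0, (false, [0, 0, -1])), (2, (false, [])), (1, (false, [0, 0, -1])), (0, (false, [1])), (0, (false, [0, 0, 1]))],
   [(1, (false, [])), (0, (false, [2, 0, -2])), (0, (false, [0, 0, -1])), (0, (true, [2, 0, -2])), (0, (true, [2, 0, -2])), (0, (false, [1])), (0, (false, [0, 0, 1]))],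
   [(0, (true, [2, 0, -2])), (1, (false, [])), (0, (false, [0, 0, -2])), (0, (false, [2, 0, -3])), (1, (true, [0, 0, -1])), (0, (false, [1])), (0, (false, [0, 0, 1]))],
   [(0, (true, [2, 0, -2])), (1, (false, [])), (0, (false, [0, 0, -2])), (1, (true, [2, 0, -1])), (0, (true, [2, 0, -3])), (0, (false, [1])), (0, (false, [0, 0, 1]))],
   [(0, (true, [0, 0, -1])), (0, (true, [0, 0, -2])), (2, (false, [0, 0, 3])), (0, (false, [0, 0, -2])), (1, (false, [])), (0, (false, [1])), (0, (false, [0, 0, 1]))]]

section s6e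

variable {F : Type*} [Field F] [CharZero F] {v : Valuation F ℤᵐ⁰} {x y : F}

theorem places6e (hT : Tq v) (heq : y ^ 2 + (6 / 5) * x * y + (4 / 25) * y = x ^ 3 + (4 / 25) * x ^ 2)
    (hne : ∀ z ∈ g6e x y, z ≠ 0) : (∀ z ∈ g6e x y, v z = 1) ∨
      ∃ loc ∈ locs6e, ∃ t : F, t ≠ 0 ∧ v t ≠ 1 ∧ Loc v [2, 3, 5] t (g6e x y) loc := by
  have hbq : v ((-4 / 25) : F) ≤ 1 := by
    have := hT.le (-4 / 25)
    norm_num at this ⊢
    exact this
  have hcq : v ((-1 / 5) : F) ≤ 1 := by
    have := hT.le (-1 / 5)
    norm_num at this ⊢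
    exact this
  have hE : y ^ 2 + (1 - (-1 / 5)) * x * y - (-4 / 25) * y = x ^ 3 - (-4 / 25) * x ^ 2 := by
    linear_combination heq
  have nx0 : x ≠ 0 := hne _ (by simp [g6e])
  have nx1 : x + (4 / 25) ≠ 0 := hne _ (by simp [g6e])
  have nx2 : x + (1 / 5) ≠ 0 := hne _ (by simp [g6e])
  have ny0 : y ≠ 0 := hne _ (by simp [g6e])
  have ny1 : y + (1 / 5) * x ≠ 0 := hne _ (by simp [g6e])
  have n4d25 : Nq v ((4 / 25) : F) (4 / 25) := Nq.num _ (by norm_num)
  have n1d5 : Nq v ((1 / 5) : F) (1 / 5) := Nq.num _ (by norm_num)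
  have n4d5 : Nq v ((4 / 5) : F) (4 / 5) := Nq.num _ (by norm_num)
  have n1 : Nq v (1 : F) 1 := Nq.num _ (by norm_num)
  have n6d5 : Nq v ((6 / 5) : F) (6 / 5) := Nq.num _ (by norm_num)
  have n2 : Nq v (2 : F) 2 := Nq.num _ (by norm_num)
  have n5 : Nq v (5 : F) 5 := Nq.num _ (by norm_num)
  have P1 : Nq v x 0 → Nq v y 0 →
      ∃ loc ∈ locs6e, ∃ t : F, t ≠ 0 ∧ v t ≠ 1 ∧ Loc v [2, 3, 5] t (g6e x y) loc := by
    intro hx hy
    refine ⟨[(1, (false, [])), (0, (false, [2, 0, -2])), (0, (false, [0, 0, -1])), (2, (false, [])), (1, (false, [0, 0, -1])), (0, (false, [1])), (0, (false, [0, 0, 1]))], by decide, x, nx0, ?_, ?_⟩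
    · have h := hx
      have h' : v (x) < 1 := by
        unfold Nq at h
        norm_num at h
        exact h
      exact h'.ne
    · refine List.Forall₂.cons ?_ (List.Forall₂.cons ?_ (List.Forall₂.cons ?_ (List.Forall₂.cons ?_ (List.Forall₂.cons ?_ (List.Forall₂.cons ?_ (List.Forall₂.cons ?_ (List.Forall₂.nil)))))))
      · exact Lc_self5 _
      · exact Lc_unit5 hT (hx.add n4d25) (by norm_num) (by norm_num [ev, evl]) _
      · exact Lc_unit5 hT (hx.add n1d5) (by norm_num) (by norm_num [ev, evl]) _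
      · exact Lc_quot5 (m := 2) hT (A := y) (B := y + (6 / 5) * x + (4 / 25)) (C := (x + (4 / 25)))
          (by linear_combination heq) ((hy.add (n6d5.mul hT hx)).add n4d25)
          (hx.add n4d25) (by norm_num) (by norm_num) (by norm_num [ev, evl])
      · exact Lc_quot5 (m := 1) hT (A := y + (1 / 5) * x) (B := y + x + (4 / 25)) (C := ((x + (4 / 25)) * (x + (1 / 5))))
          (by linear_combination heq) ((hy.add hx).add n4d25)
          ((hx.add n4d25).mul hT (hx.add n1d5)) (by norm_num) (by norm_num) (by norm_num [ev, evl])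
      · exact Lc_unit5 hT n2 (by norm_num) (by norm_num [ev, evl]) _
      · exact Lc_unit5 hT n5 (by norm_num) (by norm_num [ev, evl]) _
  have M1 : Nq v x 0 → Nq v y (-4 / 25) →
      ∃ loc ∈ locs6e, ∃ t : F, t ≠ 0 ∧ v t ≠ 1 ∧ Loc v [2, 3, 5] t (g6e x y) loc := by
    intro hx hy
    refine ⟨[(1, (false, [])), (0, (false, [2, 0, -2])), (0, (false, [0, 0, -1])), (0, (true, [2, 0, -2])), (0, (true, [2, 0, -2])), (0, (false, [1])), (0, (false, [0, 0, 1]))], by decide, x, nx0, ?_, ?_⟩
    · have h := hx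
      have h' : v (x) < 1 := by
        unfold Nq at h
        norm_num at h
        exact h
      exact h'.ne
    · refine List.Forall₂.cons ?_ (List.Forall₂.cons ?_ (List.Forall₂.cons ?_ (List.Forall₂.cons ?_ (List.Forall₂.cons ?_ (List.Forall₂.cons ?_ (List.Forall₂.cons ?_ (List.Forall₂.nil)))))))
      · exact Lc_self5 _
      · exact Lc_unit5 hT (hx.add n4d25) (by norm_num) (by norm_num [ev, evl]) _
      · exact Lc_unit5 hT (hx.add n1d5) (by norm_num) (by norm_num [ev, evl]) _
      · exact Lc_unit5 hT hy (by norm_num) (by norm_num [ev, evl]) _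
      · exact Lc_unit5 hT (hy.add (n1d5.mul hT hx)) (by norm_num) (by norm_num [ev, evl]) _
      · exact Lc_unit5 hT n2 (by norm_num) (by norm_num [ev, evl]) _
      · exact Lc_unit5 hT n5 (by norm_num) (by norm_num [ev, evl]) _
  have P2 : Nq v x (-4 / 25) → Nq v y (4 / 125) →
      ∃ loc ∈ locs6e, ∃ t : F, t ≠ 0 ∧ v t ≠ 1 ∧ Loc v [2, 3, 5] t (g6e x y) loc := by
    intro hx hy
    refine ⟨[(0, (true, [2, 0, -2])), (1, (false, [])), (0, (false, [0, 0, -2])), (0, (false, [2, 0, -3])), (1, (true, [0, 0, -1])), (0, (false, [1])), (0, (false, [0, 0, 1]))], by decide, x + (4 / 25), nx1, ?_, ?_⟩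
    · have h := (hx.add n4d25)
      have h' : v (x + (4 / 25)) < 1 := by
        unfold Nq at h
        norm_num at h
        exact h
      exact h'.ne
    · refine List.Forall₂.cons ?_ (List.Forall₂.cons ?_ (List.Forall₂.cons ?_ (List.Forall₂.cons ?_ (List.Forall₂.cons ?_ (List.Forall₂.cons ?_ (List.Forall₂.cons ?_ (List.Forall₂.nil)))))))
      · exact Lc_unit5 hT hx (by norm_num) (by norm_num [ev, evl]) _
      · exact Lc_self5 _
      · exact Lc_unit5 hT (hx.add n1d5) (by norm_num) (by norm_num [ev, evl]) _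
      · exact Lc_unit5 hT hy (by norm_num) (by norm_num [ev, evl]) _
      · exact Lc_quot5 (m := 1) hT (A := y + (1 / 5) * x) (B := y + x + (4 / 25)) (C := ((x) * (x + (1 / 5))))
          (by linear_combination heq) ((hy.add hx).add n4d25)
          (hx.mul hT (hx.add n1d5)) (by norm_num) (by norm_num) (by norm_num [ev, evl])
      · exact Lc_unit5 hT n2 (by norm_num) (by norm_num [ev, evl]) _
      · exact Lc_unit5 hT n5 (by norm_num) (by norm_num [ev, evl]) _
  have M2 : Nq v x (-4 / 25) → Nq v y 0 →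
      ∃ loc ∈ locs6e, ∃ t : F, t ≠ 0 ∧ v t ≠ 1 ∧ Loc v [2, 3, 5] t (g6e x y) loc := by
    intro hx hy
    refine ⟨[(0, (true, [2, 0, -2])), (1, (false, [])), (0, (false, [0, 0, -2])), (1, (true, [2, 0, -1])), (0, (true, [2, 0, -3])), (0, (false, [1])), (0, (false, [0, 0, 1]))], by decide, x + (4 / 25), nx1, ?_, ?_⟩
    · have h := (hx.add n4d25)
      have h' : v (x + (4 / 25)) < 1 := by
        unfold Nq at h
        norm_num at h
        exact h
      exact h'.ne
    · refine List.Forall₂.cons ?_ (List.Forall₂.cons ?_ (List.Forall₂.cons ?_ (List.Forall₂.cons ?_ (List.Forall₂.cons ?_ (List.Forall₂.cons ?_ (List.Forall₂.cons ?_ (List.Forall₂.nil)))))))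
      · exact Lc_unit5 hT hx (by norm_num) (by norm_num [ev, evl]) _
      · exact Lc_self5 _
      · exact Lc_unit5 hT (hx.add n1d5) (by norm_num) (by norm_num [ev, evl]) _
      · exact Lc_quot5 (m := 1) hT (A := y) (B := y + (6 / 5) * x + (4 / 25)) (C := ((x) * (x)))
          (by linear_combination heq) ((hy.add (n6d5.mul hT hx)).add n4d25)
          (hx.mul hT hx) (by norm_num) (by norm_num) (by norm_num [ev, evl])
      · exact Lc_unit5 hT (hy.add (n1d5.mul hT hx)) (by norm_num) (by norm_num [ev, evl]) _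
      · exact Lc_unit5 hT n2 (by norm_num) (by norm_num [ev, evl]) _
      · exact Lc_unit5 hT n5 (by norm_num) (by norm_num [ev, evl]) _
  have P3 : Nq v x (-1 / 5) → Nq v y (1 / 25) →
      ∃ loc ∈ locs6e, ∃ t : F, t ≠ 0 ∧ v t ≠ 1 ∧ Loc v [2, 3, 5] t (g6e x y) loc := by
    intro hx hy
    refine ⟨[(0, (true, [0, 0, -1])), (0, (true, [0, 0, -2])), (2, (false, [0, 0, 3])), (0, (false, [0, 0, -2])), (1, (false, [])), (0, (false, [1])), (0, (false, [0, 0, 1]))], by decide, y + (1 / 5) * x, ny1, ?_, ?_⟩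
    · have h := (hy.add (n1d5.mul hT hx))
      have h' : v (y + (1 / 5) * x) < 1 := by
        unfold Nq at h
        norm_num at h
        exact h
      exact h'.ne
    · refine List.Forall₂.cons ?_ (List.Forall₂.cons ?_ (List.Forall₂.cons ?_ (List.Forall₂.cons ?_ (List.Forall₂.cons ?_ (List.Forall₂.cons ?_ (List.Forall₂.cons ?_ (List.Forall₂.nil)))))))
      · exact Lc_unit5 hT hx (by norm_num) (by norm_num [ev, evl]) _
      · exact Lc_unit5 hT (hx.add n4d25) (by norm_num) (by norm_num [ev, evl]) _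
      · exact Lc_quot5 (m := 2) hT (A := x + (1 / 5)) (B := x * (x + (4 / 25)) - (4 / 5) * (y + (1 / 5) * x)) (C := 1) (by linear_combination (-1) * heq)
          ((hx.mul hT (hx.add n4d25)).sub (n4d5.mul hT (hy.add (n1d5.mul hT hx)))) n1 (by norm_num) (by norm_num) (by norm_num [ev, evl])
      · exact Lc_unit5 hT hy (by norm_num) (by norm_num [ev, evl]) _
      · exact Lc_self5 _
      · exact Lc_unit5 hT n2 (by norm_num) (by norm_num [ev, evl]) _
      · exact Lc_unit5 hT n5 (by norm_num) (by norm_num [ev, evl]) _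
  by_cases hO : 1 < v x
  · right
    obtain ⟨h1, h2, h3, h4⟩ := at_O hE hbq hcq hO
    refine ⟨[(2, (false, [])), (2, (false, [])), (2, (false, [])), (3, (false, [])), (3, (false, [])), (0, (false, [1])), (0, (false, [0, 0, 1]))], by decide, y / x, h2, h1, List.Forall₂.cons ?_ (List.Forall₂.cons ?_ (List.Forall₂.cons ?_ (List.Forall₂.cons ?_ (List.Forall₂.cons ?_ (List.Forall₂.cons ?_ (List.Forall₂.cons ?_ (List.Forall₂.nil)))))))⟩
    · have h := h3 0 (by simpa using hT.le 0)
      simp only [sub_zero, zero_mul] at h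
      exact h.five
    · have h := h3 (-((4 / 25))) (by simpa using hT.le (-4 / 25))
      rw [sub_neg_eq_add] at h
      exact h.five
    · have h := h3 (-((1 / 5))) (by simpa using hT.le (-1 / 5))
      rw [sub_neg_eq_add] at h
      exact h.five
    · have h := h4 0 (by simpa using hT.le 0)
      simp only [sub_zero, zero_mul] at h
      exact h.five
    · have h := h4 (-((1 / 5))) (by simpa using hT.le (-1 / 5))
      rw [neg_mul, sub_neg_eq_add] at h
      exact h.five
    · exact Lc_unit5 hT n2 (by norm_num) (by norm_num [ev, evl]) _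
    · exact Lc_unit5 hT n5 (by norm_num) (by norm_num [ev, evl]) _
  rw [not_lt] at hO
  have hy1 := vy_le hE hbq hcq hO
  by_cases h : v (x) < 1
  · right
    have hx : Nq v x 0 := by
      unfold Nq
      norm_num
      exact h
    have hd := two_pts hE hbq hcq hO (α := 0) (β := 0) (γ := (-4 / 25))
      (by norm_num; exact h) (by simpa using hT.le 0) (by norm_num) (by norm_num)
    rcases hd with hd | hd
    · exact P1 hx (by unfold Nq; norm_num at hd ⊢; exact hd)
    · exact M1 hx (by unfold Nq; norm_num at hd ⊢; exact hd)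
  have hx0 : v (x) = 1 := one_of_not_lt (hO) h
  clear h
  by_cases h : v (x + (4 / 25)) < 1
  · right
    have hx : Nq v x (-4 / 25) := by
      unfold Nq
      norm_num
      exact h
    have hd := two_pts hE hbq hcq hO (α := (-4 / 25)) (β := (4 / 125)) (γ := 0)
      (by norm_num; exact h) (by simpa using hT.le (-4 / 25)) (by norm_num) (by norm_num)
    rcases hd with hd | hd
    · exact P2 hx (by unfold Nq; norm_num at hd ⊢; exact hd)
    · exact M2 hx (by unfold Nq; norm_num at hd ⊢; exact hd)
  have hx1 : v (x + (4 / 25)) = 1 := one_of_not_lt (Valuation.map_add_le _ hO (by simpa using hT.le (4 / 25))) h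
  clear h
  by_cases h : v (x + (1 / 5)) < 1
  · right
    have hx : Nq v x (-1 / 5) := by
      unfold Nq
      norm_num
      exact h
    have hd := two_pts hE hbq hcq hO (α := (-1 / 5)) (β := (1 / 25)) (γ := (1 / 25))
      (by norm_num; exact h) (by simpa using hT.le (-1 / 5)) (by norm_num) (by norm_num)
    rcases hd with hd | hd
    · exact P3 hx (by unfold Nq; norm_num at hd ⊢; exact hd)
    · exact P3 hx (by unfold Nq; norm_num at hd ⊢; exact hd)
  have hx2 : v (x + (1 / 5)) = 1 := one_of_not_lt (Valuation.map_add_le _ hO (by simpa using hT.le (1 / 5))) h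
  clear h
  left
  have hy_0 : v (y) = 1 := by
    refine one_of_mul (B := y + (6 / 5) * x + (4 / 25)) (C := (x) * (x) * (x + (4 / 25))) hy1
      (Valuation.map_add_le _ (Valuation.map_add_le _ hy1 (by
      rw [map_mul]
      exact mul_le_one' (by simpa using hT.le (6 / 5)) hO)) (by simpa using hT.le (4 / 25))) (by linear_combination heq) ?_
    simp only [map_mul, hx0, hx1, mul_one]
  have hy_1 : v (y + (1 / 5) * x) = 1 := by
    refine one_of_mul (B := y + x + (4 / 25)) (C := (x) * (x + (4 / 25)) * (x + (1 / 5))) (Valuation.map_add_le _ hy1 (by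
      rw [map_mul]
      exact mul_le_one' (by simpa using hT.le (1 / 5)) hO))
      (Valuation.map_add_le _ (Valuation.map_add_le _ hy1 hO) (by simpa using hT.le (4 / 25))) (by linear_combination heq) ?_
    simp only [map_mul, hx0, hx1, hx2, mul_one]
  intro z hz
  simp only [g6e, List.mem_cons, List.not_mem_nil, or_false] at hz
  rcases hz with rfl | rfl | rfl | rfl | rfl | rfl | rfl
  · exact hx0
  · exact hx1
  · exact hx2
  · exact hy_0
  · exact hy_1
  · simpa using hT 2 (by norm_num)
  · simpa using hT 5 (by norm_num)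

end s6e

end Pool.Agent.FK4R
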