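import Pool.Agent.Lib_helper54.FAM.RC2

set_option autoImplicit false
set_option linter.unusedSectionVars false
set_option linter.unusedVariables false
set_option linter.unusedSimpArgs false

/-!
Local data at the places of the fourth special curve with a point of order eight.
-/

namespace Pool.Agent.FK4R

open Pool.Agent.K4R Pool.Agent.KC72
open scoped WithZero TensorProduct

/-- the generators -/
def g8d {F : Type*} [Field F] (x y : F) : List F :=
  [x, x + (1 / 8), x + (1 / 6), x + (3 / 16), y, y + (1 / 6) * x, y + (1 / 4) * x, 2, 3]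

/-- the local data at the points -/
def locs8d : List (List (ℤ × Mo)) :=
  [[(2, (false, [])), (2, (false, [])), (2, (false, [])), (2, (false, [])), (3, (false, [])), (3, (false, [])), (3, (false, [])), (0, (false, [1])), (0, (false, [0, 1]))],
   [(1, (false, [])), (0, (false, [-3])), (0, (false, [-1, -1])), (0, (false, [-4, 1])), (2, (false, [])), (1, (false, [-1, -1])), (1, (false, [-2])), (0, (false, [1])), (0, (false, [0, 1]))],
   [(1, (false, [])), (0, (false, [-3])), (0, (false, [-1, -1])), (0, (false, [-4, 1])), (0, (true, [-3])), (0, (true, [-3])), (0, (true, [-3])), (0, (false, [1])), (0, (false, [0, 1]))],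
   [(0, (true, [-3])), (1, (false, [])), (0, (false, [-3, -1])), (0, (false, [-4])), (0, (false, [-4, -1])), (1, (true, [-2])), (0, (true, [-5, -1])), (0, (false, [1])), (0, (false, [0, 1]))],
   [(0, (true, [-3])), (1, (false, [])), (0, (false, [-3, -1])), (0, (false, [-4])), (1, (true, [-2, 1])), (0, (true, [-4, -1])), (0, (true, [-5])), (0, (false, [1])), (0, (false, [0, 1]))],
   [(0, (true, [-1, -1])), (0, (true, [-3, -1])), (1, (false, [])), (0, (false, [-4, -1])), (0, (false, [-3, -1])), (0, (false, [-3, -2])), (1, (true, [-2])), (0, (false, [1])), (0, (false, [0, 1]))],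
   [(0, (true, [-1, -1])), (0, (true, [-3, -1])), (1, (false, [])), (0, (false, [-4, -1])), (0, (false, [-2, -2])), (1, (true, [-1])), (0, (true, [-3, -2])), (0, (false, [1])), (0, (false, [0, 1]))],
   [(0, (true, [-4, 1])), (0, (true, [-4])), (0, (true, [-4, -1])), (2, (false, [8])), (0, (false, [-6, 1])), (0, (false, [-6])), (1, (false, [])), (0, (false, [1])), (0, (false, [0, 1]))]]

section s8d

variable {F : Type*} [Field F] [CharZero F] {v : Valuation F ℤᵐ⁰} {x y : F}

theorem places8d (hT : Tq v) (heq : y ^ 2 + (7 / 6) * x * y + (1 / 8) * y = x ^ 3 + (1 / 8) * x ^ 2)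
    (hne : ∀ z ∈ g8d x y, z ≠ 0) : (∀ z ∈ g8d x y, v z = 1) ∨
      ∃ loc ∈ locs8d, ∃ t : F, t ≠ 0 ∧ v t ≠ 1 ∧ Loc v [2, 3] t (g8d x y) loc := by
  have hbq : v ((-1 / 8) : F) ≤ 1 := by
    have := hT.le (-1 / 8)
    norm_num at this ⊢
    exact this
  have hcq : v ((-1 / 6) : F) ≤ 1 := by
    have := hT.le (-1 / 6)
    norm_num at this ⊢
    exact this
  have hE : y ^ 2 + (1 - (-1 / 6)) * x * y - (-1 / 8) * y = x ^ 3 - (-1 / 8) * x ^ 2 := by
    linear_combination heq
  have nx0 : x ≠ 0 := hne _ (by simp [g8d])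
  have nx1 : x + (1 / 8) ≠ 0 := hne _ (by simp [g8d])
  have nx2 : x + (1 / 6) ≠ 0 := hne _ (by simp [g8d])
  have nx3 : x + (3 / 16) ≠ 0 := hne _ (by simp [g8d])
  have ny0 : y ≠ 0 := hne _ (by simp [g8d])
  have ny1 : y + (1 / 6) * x ≠ 0 := hne _ (by simp [g8d])
  have ny2 : y + (1 / 4) * x ≠ 0 := hne _ (by simp [g8d])
  have n1d8 : Nq v ((1 / 8) : F) (1 / 8) := Nq.num _ (by norm_num)
  have n1d6 : Nq v ((1 / 6) : F) (1 / 6) := Nq.num _ (by norm_num)
  have n3d16 : Nq v ((3 / 16) : F) (3 / 16) := Nq.num _ (by norm_num)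
  have n1d4 : Nq v ((1 / 4) : F) (1 / 4) := Nq.num _ (by norm_num)
  have n2d3 : Nq v ((2 / 3) : F) (2 / 3) := Nq.num _ (by norm_num)
  have n11d12 : Nq v ((11 / 12) : F) (11 / 12) := Nq.num _ (by norm_num)
  have n1 : Nq v (1 : F) 1 := Nq.num _ (by norm_num)
  have n7d6 : Nq v ((7 / 6) : F) (7 / 6) := Nq.num _ (by norm_num)
  have n2 : Nq v (2 : F) 2 := Nq.num _ (by norm_num)
  have n3 : Nq v (3 : F) 3 := Nq.num _ (by norm_num)
  have P1 : Nq v x 0 → Nq v y 0 →
      ∃ loc ∈ locs8d, ∃ t : F, t ≠ 0 ∧ v t ≠ 1 ∧ Loc v [2, 3] t (g8d x y) loc := by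
    intro hx hy
    refine ⟨[(1, (false, [])), (0, (false, [-3])), (0, (false, [-1, -1])), (0, (false, [-4, 1])), (2, (false, [])), (1, (false, [-1, -1])), (1, (false, [-2])), (0, (false, [1])), (0, (false, [0, 1]))], by decide, x, nx0, ?_, ?_⟩
    · have h := hx
      have h' : v (x) < 1 := by
        unfold Nq at h
        norm_num at h
        exact h
      exact h'.ne
    · refine List.Forall₂.cons ?_ (List.Forall₂.cons ?_ (List.Forall₂.cons ?_ (List.Forall₂.cons ?_ (List.Forall₂.cons ?_ (List.Forall₂.cons ?_ (List.Forall₂.cons ?_ (List.Forall₂.cons ?_ (List.Forall₂.cons ?_ (List.Forall₂.nil)))))))))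
      · exact Lc_self _
      · exact Lc_unit hT (hx.add n1d8) (by norm_num) (by norm_num [ev, evl]) _
      · exact Lc_unit hT (hx.add n1d6) (by norm_num) (by norm_num [ev, evl]) _
      · exact Lc_unit hT (hx.add n3d16) (by norm_num) (by norm_num [ev, evl]) _
      · exact Lc_quot (m := 2) hT (A := y) (B := y + (7 / 6) * x + (1 / 8)) (C := (x + (1 / 8)))
          (by linear_combination heq) ((hy.add (n7d6.mul hT hx)).add n1d8)
          (hx.add n1d8) (by norm_num) (by norm_num) (by norm_num [ev, evl])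
      · exact Lc_quot (m := 1) hT (A := y + (1 / 6) * x) (B := y + x + (1 / 8)) (C := ((x + (1 / 8)) * (x + (1 / 6))))
          (by linear_combination heq) ((hy.add hx).add n1d8)
          ((hx.add n1d8).mul hT (hx.add n1d6)) (by norm_num) (by norm_num) (by norm_num [ev, evl])
      · exact Lc_quot (m := 1) hT (A := y + (1 / 4) * x) (B := y + (11 / 12) * x + (1 / 8)) (C := ((x + (1 / 6)) * (x + (3 / 16))))
          (by linear_combination heq) ((hy.add (n11d12.mul hT hx)).add n1d8)
          ((hx.add n1d6).mul hT (hx.add n3d16)) (by norm_num) (by norm_num) (by norm_num [ev, evl])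
      · exact Lc_unit hT n2 (by norm_num) (by norm_num [ev, evl]) _
      · exact Lc_unit hT n3 (by norm_num) (by norm_num [ev, evl]) _
  have M1 : Nq v x 0 → Nq v y (-1 / 8) →
      ∃ loc ∈ locs8d, ∃ t : F, t ≠ 0 ∧ v t ≠ 1 ∧ Loc v [2, 3] t (g8d x y) loc := by
    intro hx hy
    refine ⟨[(1, (false, [])), (0, (false, [-3])), (0, (false, [-1, -1])), (0, (false, [-4, 1])), (0, (true, [-3])), (0, (true, [-3])), (0, (true, [-3])), (0, (false, [1])), (0, (false, [0, 1]))], by decide, x, nx0, ?_, ?_⟩
    · have h := hx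
      have h' : v (x) < 1 := by
        unfold Nq at h
        norm_num at h
        exact h
      exact h'.ne
    · refine List.Forall₂.cons ?_ (List.Forall₂.cons ?_ (List.Forall₂.cons ?_ (List.Forall₂.cons ?_ (List.Forall₂.cons ?_ (List.Forall₂.cons ?_ (List.Forall₂.cons ?_ (List.Forall₂.cons ?_ (List.Forall₂.cons ?_ (List.Forall₂.nil)))))))))
      · exact Lc_self _
      · exact Lc_unit hT (hx.add n1d8) (by norm_num) (by norm_num [ev, evl]) _
      · exact Lc_unit hT (hx.add n1d6) (by norm_num) (by norm_num [ev, evl]) _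
      · exact Lc_unit hT (hx.add n3d16) (by norm_num) (by norm_num [ev, evl]) _
      · exact Lc_unit hT hy (by norm_num) (by norm_num [ev, evl]) _
      · exact Lc_unit hT (hy.add (n1d6.mul hT hx)) (by norm_num) (by norm_num [ev, evl]) _
      · exact Lc_unit hT (hy.add (n1d4.mul hT hx)) (by norm_num) (by norm_num [ev, evl]) _
      · exact Lc_unit hT n2 (by norm_num) (by norm_num [ev, evl]) _
      · exact Lc_unit hT n3 (by norm_num) (by norm_num [ev, evl]) _
  have P2 : Nq v x (-1 / 8) → Nq v y (1 / 48) →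
      ∃ loc ∈ locs8d, ∃ t : F, t ≠ 0 ∧ v t ≠ 1 ∧ Loc v [2, 3] t (g8d x y) loc := by
    intro hx hy
    refine ⟨[(0, (true, [-3])), (1, (false, [])), (0, (false, [-3, -1])), (0, (false, [-4])), (0, (false, [-4, -1])), (1, (true, [-2])), (0, (true, [-5, -1])), (0, (false, [1])), (0, (false, [0, 1]))], by decide, x + (1 / 8), nx1, ?_, ?_⟩
    · have h := (hx.add n1d8)
      have h' : v (x + (1 / 8)) < 1 := by
        unfold Nq at h
        norm_num at h
        exact h
      exact h'.ne
    · refine List.Forall₂.cons ?_ (List.Forall₂.cons ?_ (List.Forall₂.cons ?_ (List.Forall₂.cons ?_ (List.Forall₂.cons ?_ (List.Forall₂.cons ?_ (List.Forall₂.cons ?_ (List.Forall₂.cons ?_ (List.Forall₂.cons ?_ (List.Forall₂.nil)))))))))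
      · exact Lc_unit hT hx (by norm_num) (by norm_num [ev, evl]) _
      · exact Lc_self _
      · exact Lc_unit hT (hx.add n1d6) (by norm_num) (by norm_num [ev, evl]) _
      · exact Lc_unit hT (hx.add n3d16) (by norm_num) (by norm_num [ev, evl]) _
      · exact Lc_unit hT hy (by norm_num) (by norm_num [ev, evl]) _
      · exact Lc_quot (m := 1) hT (A := y + (1 / 6) * x) (B := y + x + (1 / 8)) (C := ((x) * (x + (1 / 6))))
          (by linear_combination heq) ((hy.add hx).add n1d8)
          (hx.mul hT (hx.add n1d6)) (by norm_num) (by norm_num) (by norm_num [ev, evl])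
      · exact Lc_unit hT (hy.add (n1d4.mul hT hx)) (by norm_num) (by norm_num [ev, evl]) _
      · exact Lc_unit hT n2 (by norm_num) (by norm_num [ev, evl]) _
      · exact Lc_unit hT n3 (by norm_num) (by norm_num [ev, evl]) _
  have M2 : Nq v x (-1 / 8) → Nq v y 0 →
      ∃ loc ∈ locs8d, ∃ t : F, t ≠ 0 ∧ v t ≠ 1 ∧ Loc v [2, 3] t (g8d x y) loc := by
    intro hx hy
    refine ⟨[(0, (true, [-3])), (1, (false, [])), (0, (false, [-3, -1])), (0, (false, [-4])), (1, (true, [-2, 1])), (0, (true, [-4, -1])), (0, (true, [-5])), (0, (false, [1])), (0, (false, [0, 1]))], by decide, x + (1 / 8), nx1, ?_, ?_⟩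
    · have h := (hx.add n1d8)
      have h' : v (x + (1 / 8)) < 1 := by
        unfold Nq at h
        norm_num at h
        exact h
      exact h'.ne
    · refine List.Forall₂.cons ?_ (List.Forall₂.cons ?_ (List.Forall₂.cons ?_ (List.Forall₂.cons ?_ (List.Forall₂.cons ?_ (List.Forall₂.cons ?_ (List.Forall₂.cons ?_ (List.Forall₂.cons ?_ (List.Forall₂.cons ?_ (List.Forall₂.nil)))))))))
      · exact Lc_unit hT hx (by norm_num) (by norm_num [ev, evl]) _
      · exact Lc_self _
      · exact Lc_unit hT (hx.add n1d6) (by norm_num) (by norm_num [ev, evl]) _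
      · exact Lc_unit hT (hx.add n3d16) (by norm_num) (by norm_num [ev, evl]) _
      · exact Lc_quot (m := 1) hT (A := y) (B := y + (7 / 6) * x + (1 / 8)) (C := ((x) * (x)))
          (by linear_combination heq) ((hy.add (n7d6.mul hT hx)).add n1d8)
          (hx.mul hT hx) (by norm_num) (by norm_num) (by norm_num [ev, evl])
      · exact Lc_unit hT (hy.add (n1d6.mul hT hx)) (by norm_num) (by norm_num [ev, evl]) _
      · exact Lc_unit hT (hy.add (n1d4.mul hT hx)) (by norm_num) (by norm_num [ev, evl]) _
      · exact Lc_unit hT n2 (by norm_num) (by norm_num [ev, evl]) _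
      · exact Lc_unit hT n3 (by norm_num) (by norm_num [ev, evl]) _
  have P3 : Nq v x (-1 / 6) → Nq v y (1 / 24) →
      ∃ loc ∈ locs8d, ∃ t : F, t ≠ 0 ∧ v t ≠ 1 ∧ Loc v [2, 3] t (g8d x y) loc := by
    intro hx hy
    refine ⟨[(0, (true, [-1, -1])), (0, (true, [-3, -1])), (1, (false, [])), (0, (false, [-4, -1])), (0, (false, [-3, -1])), (0, (false, [-3, -2])), (1, (true, [-2])), (0, (false, [1])), (0, (false, [0, 1]))], by decide, x + (1 / 6), nx2, ?_, ?_⟩
    · have h := (hx.add n1d6)
      have h' : v (x + (1 / 6)) < 1 := by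
        unfold Nq at h
        norm_num at h
        exact h
      exact h'.ne
    · refine List.Forall₂.cons ?_ (List.Forall₂.cons ?_ (List.Forall₂.cons ?_ (List.Forall₂.cons ?_ (List.Forall₂.cons ?_ (List.Forall₂.cons ?_ (List.Forall₂.cons ?_ (List.Forall₂.cons ?_ (List.Forall₂.cons ?_ (List.Forall₂.nil)))))))))
      · exact Lc_unit hT hx (by norm_num) (by norm_num [ev, evl]) _
      · exact Lc_unit hT (hx.add n1d8) (by norm_num) (by norm_num [ev, evl]) _
      · exact Lc_self _
      · exact Lc_unit hT (hx.add n3d16) (by norm_num) (by norm_num [ev, evl]) _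
      · exact Lc_unit hT hy (by norm_num) (by norm_num [ev, evl]) _
      · exact Lc_unit hT (hy.add (n1d6.mul hT hx)) (by norm_num) (by norm_num [ev, evl]) _
      · exact Lc_quot (m := 1) hT (A := y + (1 / 4) * x) (B := y + (11 / 12) * x + (1 / 8)) (C := ((x) * (x + (3 / 16))))
          (by linear_combination heq) ((hy.add (n11d12.mul hT hx)).add n1d8)
          (hx.mul hT (hx.add n3d16)) (by norm_num) (by norm_num) (by norm_num [ev, evl])
      · exact Lc_unit hT n2 (by norm_num) (by norm_num [ev, evl]) _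
      · exact Lc_unit hT n3 (by norm_num) (by norm_num [ev, evl]) _
  have M3 : Nq v x (-1 / 6) → Nq v y (1 / 36) →
      ∃ loc ∈ locs8d, ∃ t : F, t ≠ 0 ∧ v t ≠ 1 ∧ Loc v [2, 3] t (g8d x y) loc := by
    intro hx hy
    refine ⟨[(0, (true, [-1, -1])), (0, (true, [-3, -1])), (1, (false, [])), (0, (false, [-4, -1])), (0, (false, [-2, -2])), (1, (true, [-1])), (0, (true, [-3, -2])), (0, (false, [1])), (0, (false, [0, 1]))], by decide, x + (1 / 6), nx2, ?_, ?_⟩
    · have h := (hx.add n1d6)
      have h' : v (x + (1 / 6)) < 1 := by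
        unfold Nq at h
        norm_num at h
        exact h
      exact h'.ne
    · refine List.Forall₂.cons ?_ (List.Forall₂.cons ?_ (List.Forall₂.cons ?_ (List.Forall₂.cons ?_ (List.Forall₂.cons ?_ (List.Forall₂.cons ?_ (List.Forall₂.cons ?_ (List.Forall₂.cons ?_ (List.Forall₂.cons ?_ (List.Forall₂.nil)))))))))
      · exact Lc_unit hT hx (by norm_num) (by norm_num [ev, evl]) _
      · exact Lc_unit hT (hx.add n1d8) (by norm_num) (by norm_num [ev, evl]) _
      · exact Lc_self _
      · exact Lc_unit hT (hx.add n3d16) (by norm_num) (by norm_num [ev, evl]) _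
      · exact Lc_unit hT hy (by norm_num) (by norm_num [ev, evl]) _
      · exact Lc_quot (m := 1) hT (A := y + (1 / 6) * x) (B := y + x + (1 / 8)) (C := ((x) * (x + (1 / 8))))
          (by linear_combination heq) ((hy.add hx).add n1d8)
          (hx.mul hT (hx.add n1d8)) (by norm_num) (by norm_num) (by norm_num [ev, evl])
      · exact Lc_unit hT (hy.add (n1d4.mul hT hx)) (by norm_num) (by norm_num [ev, evl]) _
      · exact Lc_unit hT n2 (by norm_num) (by norm_num [ev, evl]) _
      · exact Lc_unit hT n3 (by norm_num) (by norm_num [ev, evl]) _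
  have P4 : Nq v x (-3 / 16) → Nq v y (3 / 64) →
      ∃ loc ∈ locs8d, ∃ t : F, t ≠ 0 ∧ v t ≠ 1 ∧ Loc v [2, 3] t (g8d x y) loc := by
    intro hx hy
    refine ⟨[(0, (true, [-4, 1])), (0, (true, [-4])), (0, (true, [-4, -1])), (2, (false, [8])), (0, (false, [-6, 1])), (0, (false, [-6])), (1, (false, [])), (0, (false, [1])), (0, (false, [0, 1]))], by decide, y + (1 / 4) * x, ny2, ?_, ?_⟩
    · have h := (hy.add (n1d4.mul hT hx))
      have h' : v (y + (1 / 4) * x) < 1 := by
        unfold Nq at h
        norm_num at h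
        exact h
      exact h'.ne
    · refine List.Forall₂.cons ?_ (List.Forall₂.cons ?_ (List.Forall₂.cons ?_ (List.Forall₂.cons ?_ (List.Forall₂.cons ?_ (List.Forall₂.cons ?_ (List.Forall₂.cons ?_ (List.Forall₂.cons ?_ (List.Forall₂.cons ?_ (List.Forall₂.nil)))))))))
      · exact Lc_unit hT hx (by norm_num) (by norm_num [ev, evl]) _
      · exact Lc_unit hT (hx.add n1d8) (by norm_num) (by norm_num [ev, evl]) _
      · exact Lc_unit hT (hx.add n1d6) (by norm_num) (by norm_num [ev, evl]) _
      · exact Lc_quot (m := 2) hT (A := x + (3 / 16)) (B := x * (x + (1 / 6)) - (2 / 3) * (y + (1 / 4) * x)) (C := 1) (by linear_combination (-1) * heq)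
          ((hx.mul hT (hx.add n1d6)).sub (n2d3.mul hT (hy.add (n1d4.mul hT hx)))) n1 (by norm_num) (by norm_num) (by norm_num [ev, evl])
      · exact Lc_unit hT hy (by norm_num) (by norm_num [ev, evl]) _
      · exact Lc_unit hT (hy.add (n1d6.mul hT hx)) (by norm_num) (by norm_num [ev, evl]) _
      · exact Lc_self _
      · exact Lc_unit hT n2 (by norm_num) (by norm_num [ev, evl]) _
      · exact Lc_unit hT n3 (by norm_num) (by norm_num [ev, evl]) _
  by_cases hO : 1 < v x
  · right
    obtain ⟨h1, h2, h3, h4⟩ := at_O hE hbq hcq hO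
    refine ⟨[(2, (false, [])), (2, (false, [])), (2, (false, [])), (2, (false, [])), (3, (false, [])), (3, (false, [])), (3, (false, [])), (0, (false, [1])), (0, (false, [0, 1]))], by decide, y / x, h2, h1, List.Forall₂.cons ?_ (List.Forall₂.cons ?_ (List.Forall₂.cons ?_ (List.Forall₂.cons ?_ (List.Forall₂.cons ?_ (List.Forall₂.cons ?_ (List.Forall₂.cons ?_ (List.Forall₂.cons ?_ (List.Forall₂.cons ?_ (List.Forall₂.nil)))))))))⟩
    · have h := h3 0 (by simpa using hT.le 0)
      simp only [sub_zero, zero_mul] at h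
      exact h
    · have h := h3 (-((1 / 8))) (by simpa using hT.le (-1 / 8))
      rw [sub_neg_eq_add] at h
      exact h
    · have h := h3 (-((1 / 6))) (by simpa using hT.le (-1 / 6))
      rw [sub_neg_eq_add] at h
      exact h
    · have h := h3 (-((3 / 16))) (by simpa using hT.le (-3 / 16))
      rw [sub_neg_eq_add] at h
      exact h
    · have h := h4 0 (by simpa using hT.le 0)
      simp only [sub_zero, zero_mul] at h
      exact h
    · have h := h4 (-((1 / 6))) (by simpa using hT.le (-1 / 6))
      rw [neg_mul, sub_neg_eq_add] at h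
      exact h
    · have h := h4 (-((1 / 4))) (by simpa using hT.le (-1 / 4))
      rw [neg_mul, sub_neg_eq_add] at h
      exact h
    · exact Lc_unit hT n2 (by norm_num) (by norm_num [ev, evl]) _
    · exact Lc_unit hT n3 (by norm_num) (by norm_num [ev, evl]) _
  rw [not_lt] at hO
  have hy1 := vy_le hE hbq hcq hO
  by_cases h : v (x) < 1
  · right
    have hx : Nq v x 0 := by
      unfold Nq
      norm_num
      exact h
    have hd := two_pts hE hbq hcq hO (α := 0) (β := 0) (γ := (-1 / 8))
      (by norm_num; exact h) (by simpa using hT.le 0) (by norm_num) (by norm_num)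
    rcases hd with hd | hd
    · exact P1 hx (by unfold Nq; norm_num at hd ⊢; exact hd)
    · exact M1 hx (by unfold Nq; norm_num at hd ⊢; exact hd)
  have hx0 : v (x) = 1 := one_of_not_lt (hO) h
  clear h
  by_cases h : v (x + (1 / 8)) < 1
  · right
    have hx : Nq v x (-1 / 8) := by
      unfold Nq
      norm_num
      exact h
    have hd := two_pts hE hbq hcq hO (α := (-1 / 8)) (β := (1 / 48)) (γ := 0)
      (by norm_num; exact h) (by simpa using hT.le (-1 / 8)) (by norm_num) (by norm_num)
    rcases hd with hd | hd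
    · exact P2 hx (by unfold Nq; norm_num at hd ⊢; exact hd)
    · exact M2 hx (by unfold Nq; norm_num at hd ⊢; exact hd)
  have hx1 : v (x + (1 / 8)) = 1 := one_of_not_lt (Valuation.map_add_le _ hO (by simpa using hT.le (1 / 8))) h
  clear h
  by_cases h : v (x + (1 / 6)) < 1
  · right
    have hx : Nq v x (-1 / 6) := by
      unfold Nq
      norm_num
      exact h
    have hd := two_pts hE hbq hcq hO (α := (-1 / 6)) (β := (1 / 24)) (γ := (1 / 36))
      (by norm_num; exact h) (by simpa using hT.le (-1 / 6)) (by norm_num) (by norm_num)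
    rcases hd with hd | hd
    · exact P3 hx (by unfold Nq; norm_num at hd ⊢; exact hd)
    · exact M3 hx (by unfold Nq; norm_num at hd ⊢; exact hd)
  have hx2 : v (x + (1 / 6)) = 1 := one_of_not_lt (Valuation.map_add_le _ hO (by simpa using hT.le (1 / 6))) h
  clear h
  by_cases h : v (x + (3 / 16)) < 1
  · right
    have hx : Nq v x (-3 / 16) := by
      unfold Nq
      norm_num
      exact h
    have hd := two_pts hE hbq hcq hO (α := (-3 / 16)) (β := (3 / 64)) (γ := (3 / 64))
      (by norm_num; exact h) (by simpa using hT.le (-3 / 16)) (by norm_num) (by norm_num)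
    rcases hd with hd | hd
    · exact P4 hx (by unfold Nq; norm_num at hd ⊢; exact hd)
    · exact P4 hx (by unfold Nq; norm_num at hd ⊢; exact hd)
  have hx3 : v (x + (3 / 16)) = 1 := one_of_not_lt (Valuation.map_add_le _ hO (by simpa using hT.le (3 / 16))) h
  clear h
  left
  have hy_0 : v (y) = 1 := by
    refine one_of_mul (B := y + (7 / 6) * x + (1 / 8)) (C := (x) * (x) * (x + (1 / 8))) hy1
      (Valuation.map_add_le _ (Valuation.map_add_le _ hy1 (by
      rw [map_mul]
      exact mul_le_one' (by simpa using hT.le (7 / 6)) hO)) (by simpa using hT.le (1 / 8))) (by linear_combination heq) ?_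
    simp only [map_mul, hx0, hx1, mul_one]
  have hy_1 : v (y + (1 / 6) * x) = 1 := by
    refine one_of_mul (B := y + x + (1 / 8)) (C := (x) * (x + (1 / 8)) * (x + (1 / 6))) (Valuation.map_add_le _ hy1 (by
      rw [map_mul]
      exact mul_le_one' (by simpa using hT.le (1 / 6)) hO))
      (Valuation.map_add_le _ (Valuation.map_add_le _ hy1 hO) (by simpa using hT.le (1 / 8))) (by linear_combination heq) ?_
    simp only [map_mul, hx0, hx1, hx2, mul_one]
  have hy_2 : v (y + (1 / 4) * x) = 1 := by
    refine one_of_mul (B := y + (11 / 12) * x + (1 / 8)) (C := (x) * (x + (1 / 6)) * (x + (3 / 16))) (Valuation.map_add_le _ hy1 (by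
      rw [map_mul]
      exact mul_le_one' (by simpa using hT.le (1 / 4)) hO))
      (Valuation.map_add_le _ (Valuation.map_add_le _ hy1 (by
      rw [map_mul]
      exact mul_le_one' (by simpa using hT.le (11 / 12)) hO)) (by simpa using hT.le (1 / 8))) (by linear_combination heq) ?_
    simp only [map_mul, hx0, hx2, hx3, mul_one]
  intro z hz
  simp only [g8d, List.mem_cons, List.not_mem_nil, or_false] at hz
  rcases hz with rfl | rfl | rfl | rfl | rfl | rfl | rfl | rfl | rfl
  · exact hx0
  · exact hx1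
  · exact hx2
  · exact hx3
  · exact hy_0
  · exact hy_1
  · exact hy_2
  · simpa using hT 2 (by norm_num)
  · simpa using hT 3 (by norm_num)

end s8d

end Pool.Agent.FK4R
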