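import Pool.Agent.Lib_helper54.FAM.RC5

set_option autoImplicit false
set_option linter.unusedSectionVars false

/-!
The residues of explicit elements in general, with three symbols of constants.
-/

namespace Pool.Agent.FK4R

open Pool.Agent.K4R Pool.Agent.KC72
open scoped WithZero TensorProduct

section final

variable {k : Type*} [Field k] [CharZero k] {F : Type*} [Field F] [Algebra k F]

/-- the general form with three symbols -/
theorem unram_of3 {g : List F} {locs : List (List (ℤ × Mo))}
    (hpl : ∀ (_ : CharZero F) (v : Valuation F ℤᵐ⁰), Tq v → (∀ z ∈ g, v z = 1) ∨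
      ∃ loc ∈ locs, ∃ t : F, t ≠ 0 ∧ v t ≠ 1 ∧ Loc v [2, 3, 5] t g loc)
    {cls : List (Mo × Mo)} {L : List Tm} (hc : chkRes3 locs tab235 cls L = true) :
    FK4.Unram k (zt g cls L) := by
  intro v hv
  have : CharZero F := charZero_of_injective_algebraMap (algebraMap k F).injective
  have : Infinite (rf v) := infinite_RF hv
  have hT : Tq v := tq_of hv
  rcases hpl inferInstance v hT with h | ⟨loc, hloc, t, ht0, ht, h⟩
  · exact noRes_zt_unit h
  · refine noRes_zt3 (gc := [2, 3, 5]) (s := s235 v) ?_ ht ht0 h tab235_spec ?_
    · intro x hx
      simp only [List.mem_cons, List.not_mem_nil, or_false] at hx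
      rcases hx with rfl | rfl | rfl
      · simpa using hT 2 (by norm_num)
      · simpa using hT 3 (by norm_num)
      · simpa using hT 5 (by norm_num)
    · exact of_decide_eq_true (List.all_eq_true.mp hc loc hloc)

end final

end Pool.Agent.FK4R
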