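import Pool.Agent.Lib_helper54.FAM.Pl8c
import Pool.Agent.Lib_helper54.FAM.Pl8d
import Pool.Agent.Lib_helper54.FAM.Pl6c
import Pool.Agent.Lib_helper54.FAM.Pl6d
import Pool.Agent.Lib_helper54.FAM.Pl6e
import Pool.Agent.Lib_helper54.FAM.RC5a

set_option autoImplicit false
set_option linter.unusedSectionVars false

/-!
The residues of the explicit elements on the exceptional curves with a point of order six or eight.
-/

namespace Pool.Agent.FK4R

open Pool.Agent.K4R Pool.Agent.KC72
open scoped WithZero TensorProduct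

section final

variable {k : Type*} [Field k] [CharZero k] {F : Type*} [Field F] [Algebra k F]

/-- **Order eight** (`b = 1`, `c = 2/3`). -/
theorem unram8c {x y : F} (heq : y ^ 2 + 1 / 3 * x * y - y = x ^ 3 - x ^ 2)
    (hne : ∀ z ∈ g8c x y, z ≠ 0) {cls : List (Mo × Mo)} {L : List Tm}
    (hc : chkRes locs8c tab23 cls L = true) : FK4.Unram k (zt (g8c x y) cls L) :=
  unram_of (fun _ _ hT => places8c hT (by linear_combination heq) hne) hc

/-- **Order eight** (`b = -1/8`, `c = -1/6`). -/
theorem unram8d {x y : F} (heq : y ^ 2 + 7 / 6 * x * y + 1 / 8 * y = x ^ 3 + 1 / 8 * x ^ 2)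
    (hne : ∀ z ∈ g8d x y, z ≠ 0) {cls : List (Mo × Mo)} {L : List Tm}
    (hc : chkRes locs8d tab23 cls L = true) : FK4.Unram k (zt (g8d x y) cls L) :=
  unram_of (fun _ _ hT => places8d hT (by linear_combination heq) hne) hc

/-- **Order six** (`b = 4/9`, `c = 1/3`). -/
theorem unram6c {x y : F} (heq : y ^ 2 + 2 / 3 * x * y - 4 / 9 * y = x ^ 3 - 4 / 9 * x ^ 2)
    (hne : ∀ z ∈ g6c x y, z ≠ 0) {cls : List (Mo × Mo)} {L : List Tm}
    (hc : chkRes locs6c tab23 cls L = true) : FK4.Unram k (zt (g6c x y) cls L) :=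
  unram_of (fun _ _ hT => places6c hT (by linear_combination heq) hne) hc

/-- **Order six** (`b = -2/9`, `c = -1/3`). -/
theorem unram6d {x y : F} (heq : y ^ 2 + 4 / 3 * x * y + 2 / 9 * y = x ^ 3 + 2 / 9 * x ^ 2)
    (hne : ∀ z ∈ g6d x y, z ≠ 0) {cls : List (Mo × Mo)} {L : List Tm}
    (hc : chkRes locs6d tab23 cls L = true) : FK4.Unram k (zt (g6d x y) cls L) :=
  unram_of (fun _ _ hT => places6d hT (by linear_combination heq) hne) hc

/-- **Order six** (`b = -4/25`, `c = -1/5`). -/
theorem unram6e {x y : F} (heq : y ^ 2 + 6 / 5 * x * y + 4 / 25 * y = x ^ 3 + 4 / 25 * x ^ 2)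
    (hne : ∀ z ∈ g6e x y, z ≠ 0) {cls : List (Mo × Mo)} {L : List Tm}
    (hc : chkRes3 locs6e tab235 cls L = true) : FK4.Unram k (zt (g6e x y) cls L) :=
  unram_of3 (fun _ _ hT => places6e hT (by linear_combination heq) hne) hc

/-- the generators do not vanish at a generic point -/
lemma g8c_ne {b c : k} {x y : F} (h : TN.Gen b c x y) : ∀ z ∈ g8c x y, z ≠ 0 := by
  intro z hz
  simp only [g8c, List.mem_cons, List.not_mem_nil, or_false] at hz
  have a := fun q : ℚ => h.xc_ne (q : k)
  have b := fun q : ℚ => h.yab_ne (q : k) 0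
  simp only [map_ratCast, map_zero, add_zero] at a b
  have : CharZero F := charZero_of_injective_algebraMap (algebraMap k F).injective
  rcases hz with rfl | rfl | rfl | rfl | rfl | rfl | rfl | rfl | rfl
  · exact h.x_ne
  · simpa using a 1
  · simpa using a (2 / 3)
  · simpa using a (3 / 4)
  · exact h.y_ne
  · simpa [sub_eq_add_neg] using b (-(2 / 3))
  · simpa [sub_eq_add_neg] using b (-(1 / 2))
  · norm_num
  · norm_num

lemma g8d_ne {b c : k} {x y : F} (h : TN.Gen b c x y) : ∀ z ∈ g8d x y, z ≠ 0 := by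
  intro z hz
  simp only [g8d, List.mem_cons, List.not_mem_nil, or_false] at hz
  have a := fun q : ℚ => h.xc_ne (q : k)
  have b := fun q : ℚ => h.yab_ne (q : k) 0
  simp only [map_ratCast, map_zero, add_zero] at a b
  have : CharZero F := charZero_of_injective_algebraMap (algebraMap k F).injective
  rcases hz with rfl | rfl | rfl | rfl | rfl | rfl | rfl | rfl | rfl
  · exact h.x_ne
  · simpa [sub_neg_eq_add] using a (-(1 / 8))
  · simpa [sub_neg_eq_add] using a (-(1 / 6))
  · simpa [sub_neg_eq_add] using a (-(3 / 16))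
  · exact h.y_ne
  · simpa using b (1 / 6)
  · simpa using b (1 / 4)
  · norm_num
  · norm_num

lemma g6c_ne {b c : k} {x y : F} (h : TN.Gen b c x y) : ∀ z ∈ g6c x y, z ≠ 0 := by
  intro z hz
  simp only [g6c, List.mem_cons, List.not_mem_nil, or_false] at hz
  have a := fun q : ℚ => h.xc_ne (q : k)
  have b := fun q : ℚ => h.yab_ne (q : k) 0
  simp only [map_ratCast, map_zero, add_zero] at a b
  have : CharZero F := charZero_of_injective_algebraMap (algebraMap k F).injective
  rcases hz with rfl | rfl | rfl | rfl | rfl | rfl | rfl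
  · exact h.x_ne
  · simpa using a (4 / 9)
  · simpa using a (1 / 3)
  · exact h.y_ne
  · simpa [sub_eq_add_neg] using b (-(1 / 3))
  · norm_num
  · norm_num

lemma g6d_ne {b c : k} {x y : F} (h : TN.Gen b c x y) : ∀ z ∈ g6d x y, z ≠ 0 := by
  intro z hz
  simp only [g6d, List.mem_cons, List.not_mem_nil, or_false] at hz
  have a := fun q : ℚ => h.xc_ne (q : k)
  have b := fun q : ℚ => h.yab_ne (q : k) 0
  simp only [map_ratCast, map_zero, add_zero] at a b
  have : CharZero F := charZero_of_injective_algebraMap (algebraMap k F).injective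
  rcases hz with rfl | rfl | rfl | rfl | rfl | rfl | rfl
  · exact h.x_ne
  · simpa [sub_neg_eq_add] using a (-(2 / 9))
  · simpa [sub_neg_eq_add] using a (-(1 / 3))
  · exact h.y_ne
  · simpa using b (1 / 3)
  · norm_num
  · norm_num

lemma g6e_ne {b c : k} {x y : F} (h : TN.Gen b c x y) : ∀ z ∈ g6e x y, z ≠ 0 := by
  intro z hz
  simp only [g6e, List.mem_cons, List.not_mem_nil, or_false] at hz
  have a := fun q : ℚ => h.xc_ne (q : k)
  have b := fun q : ℚ => h.yab_ne (q : k) 0
  simp only [map_ratCast, map_zero, add_zero] at a b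
  have : CharZero F := charZero_of_injective_algebraMap (algebraMap k F).injective
  rcases hz with rfl | rfl | rfl | rfl | rfl | rfl | rfl
  · exact h.x_ne
  · simpa [sub_neg_eq_add] using a (-(4 / 25))
  · simpa [sub_neg_eq_add] using a (-(1 / 5))
  · exact h.y_ne
  · simpa using b (1 / 5)
  · norm_num
  · norm_num

end final

end Pool.Agent.FK4R
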