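import Pool.Agent.Lib_helper24.FAM.LK
import Pool.Agent.Lib_helper54.FAM.RC11
import Pool.Agent.Lib_helper60.K8c.C
import Pool.Agent.Lib_helper60.K8d.C

set_option autoImplicit false
set_option linter.unusedSectionVars false
set_option maxRecDepth 100000

/-!
# Points of order eight, `d = 3/2` and `d = 3/4`: unramified elements
-/

namespace Pool.Agent.FK4

open Pool.Agent.KC72

section

variable {k : Type*} [Field k] [CharZero k] {F : Type*} [Field F] [Algebra k F] {x y : F}

lemma ofFn_8c : List.ofFn (K8c.G8 x y) = FK4R.g8c x y := by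
  simp only [List.ofFn_succ, List.ofFn_zero]
  rfl

lemma ofFn_8d : List.ofFn (K8d.G8 x y) = FK4R.g8d x y := by
  simp only [List.ofFn_succ, List.ofFn_zero]
  rfl

/-- **`d = 3/2`: the element is unramified.** -/
theorem unram8cx (h : TN.Gen (1 : k) (2 / 3) x y) {L : List Tm} {cls : List (Mo × Mo)}
    (hL : FK4R.chkRes FK4R.locs8c FK4R.tab23 cls L = true) :
    Unram k (zt (List.ofFn (K8c.G8 x y)) cls L) := by
  have : CharZero F := charZero_of_injective_algebraMap (algebraMap k F).injective
  rw [ofFn_8c]
  refine FK4R.unram8c ?_ (FK4R.g8c_ne h) hL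
  have h1 := h.eq
  have e : algebraMap k F (2 / 3) = 2 / 3 := by
    rw [map_div₀, map_ofNat, map_ofNat]
  rw [map_one, e] at h1
  linear_combination h1

/-- **`d = 3/4`: the element is unramified.** -/
theorem unram8dx (h : TN.Gen (-1 / 8 : k) (-1 / 6) x y) {L : List Tm} {cls : List (Mo × Mo)}
    (hL : FK4R.chkRes FK4R.locs8d FK4R.tab23 cls L = true) :
    Unram k (zt (List.ofFn (K8d.G8 x y)) cls L) := by
  have : CharZero F := charZero_of_injective_algebraMap (algebraMap k F).injective
  rw [ofFn_8d]
  refine FK4R.unram8d ?_ (FK4R.g8d_ne h) hL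
  have h1 := h.eq
  have e1 : algebraMap k F (-1 / 8) = -1 / 8 := by
    rw [map_div₀, map_neg, map_one, map_ofNat]
  have e2 : algebraMap k F (-1 / 6) = -1 / 6 := by
    rw [map_div₀, map_neg, map_one, map_ofNat]
  rw [e1, e2] at h1
  linear_combination h1

end

end Pool.Agent.FK4
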