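import Pool.Agent.Lib_helper54.FAM.Pl10bb

set_option autoImplicit false
set_option linter.unusedSectionVars false
set_option linter.unusedVariables false
set_option linter.unusedSimpArgs false

/-!
Local data at the places of The second special curve with a point of order ten: the points, part 3.
-/

namespace Pool.Agent.FK4R

open Pool.Agent.K4R Pool.Agent.KC72
open scoped WithZero TensorProduct

section s10b

variable {F : Type*} [Field F] [CharZero F] {v : Valuation F ℤᵐ⁰} {x y : F}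

theorem pl10b_P4 (hT : Tq v) (heq : y ^ 2 - (1 / 5) * x * y + (6 / 25) * y = x ^ 3 + (6 / 25) * x ^ 2)
    (hne : ∀ z ∈ g10b x y, z ≠ 0) :
    Nq v x (6 / 25) → Nq v y (12 / 125) →
      ∃ loc ∈ locs10b, ∃ t : F, t ≠ 0 ∧ v t ≠ 1 ∧ Loc v [2, 3, 5] t (g10b x y) loc := by
  have hbq : v ((-6 / 25) : F) ≤ 1 := by
    have := hT.le (-6 / 25)
    norm_num at this ⊢
    exact this
  have hcq : v ((6 / 5) : F) ≤ 1 := by
    have := hT.le (6 / 5)
    norm_num at this ⊢
    exact this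
  have hE : y ^ 2 + (1 - (6 / 5)) * x * y - (-6 / 25) * y = x ^ 3 - (-6 / 25) * x ^ 2 := by
    linear_combination heq
  have nx0 : x ≠ 0 := hne _ (by simp [g10b])
  have nx1 : x + (6 / 25) ≠ 0 := hne _ (by simp [g10b])
  have nx2 : x - (6 / 5) ≠ 0 := hne _ (by simp [g10b])
  have nx3 : x - (6 / 25) ≠ 0 := hne _ (by simp [g10b])
  have nx4 : x + (2 / 5) ≠ 0 := hne _ (by simp [g10b])
  have ny0 : y ≠ 0 := hne _ (by simp [g10b])
  have ny1 : y - (6 / 5) * x ≠ 0 := hne _ (by simp [g10b])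
  have ny2 : y + (6 / 5) * x ≠ 0 := hne _ (by simp [g10b])
  have ny3 : y - (2 / 5) * x ≠ 0 := hne _ (by simp [g10b])
  have n1d5 : Nq v ((1 / 5) : F) (1 / 5) := Nq.num _ (by norm_num)
  have n6d25 : Nq v ((6 / 25) : F) (6 / 25) := Nq.num _ (by norm_num)
  have n2d5 : Nq v ((2 / 5) : F) (2 / 5) := Nq.num _ (by norm_num)
  have n3d5 : Nq v ((3 / 5) : F) (3 / 5) := Nq.num _ (by norm_num)
  have n1 : Nq v (1 : F) 1 := Nq.num _ (by norm_num)
  have n6d5 : Nq v ((6 / 5) : F) (6 / 5) := Nq.num _ (by norm_num)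
  have n7d5 : Nq v ((7 / 5) : F) (7 / 5) := Nq.num _ (by norm_num)
  have n2 : Nq v (2 : F) 2 := Nq.num _ (by norm_num)
  have n3 : Nq v (3 : F) 3 := Nq.num _ (by norm_num)
  have n5 : Nq v (5 : F) 5 := Nq.num _ (by norm_num)
  have P4 : Nq v x (6 / 25) → Nq v y (12 / 125) →
      ∃ loc ∈ locs10b, ∃ t : F, t ≠ 0 ∧ v t ≠ 1 ∧ Loc v [2, 3, 5] t (g10b x y) loc := by
    intro hx hy
    refine ⟨[(0, (false, [1, 1, -2])), (0, (false, [2, 1, -2])), (0, (true, [3, 1, -2])), (1, (false, [])), (0, (false, [4, 0, -2])), (0, (false, [2, 1, -3])), (0, (true, [3, 1, -3])), (0, (false, [4, 1, -3])), (1, (false, [1, 0, -1])), (0, (false, [1])), (0, (false, [0, 1])), (0, (false, [0, 0, 1]))], by decide, x - (6 / 25), nx3, ?_, ?_⟩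
    · have h := (hx.sub n6d25)
      have h' : v (x - (6 / 25)) < 1 := by
        unfold Nq at h
        norm_num at h
        exact h
      exact h'.ne
    · refine List.Forall₂.cons ?_ (List.Forall₂.cons ?_ (List.Forall₂.cons ?_ (List.Forall₂.cons ?_ (List.Forall₂.cons ?_ (List.Forall₂.cons ?_ (List.Forall₂.cons ?_ (List.Forall₂.cons ?_ (List.Forall₂.cons ?_ (List.Forall₂.cons ?_ (List.Forall₂.cons ?_ (List.Forall₂.cons ?_ (List.Forall₂.nil))))))))))))
      · exact Lc_unit5 hT hx (by norm_num) (by norm_num [ev, evl]) _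
      · exact Lc_unit5 hT (hx.add n6d25) (by norm_num) (by norm_num [ev, evl]) _
      · exact Lc_unit5 hT (hx.sub n6d5) (by norm_num) (by norm_num [ev, evl]) _
      · exact Lc_self5 _
      · exact Lc_unit5 hT (hx.add n2d5) (by norm_num) (by norm_num [ev, evl]) _
      · exact Lc_unit5 hT hy (by norm_num) (by norm_num [ev, evl]) _
      · exact Lc_unit5 hT (hy.sub (n6d5.mul hT hx)) (by norm_num) (by norm_num [ev, evl]) _
      · exact Lc_unit5 hT (hy.add (n6d5.mul hT hx)) (by norm_num) (by norm_num [ev, evl]) _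
      · exact Lc_quot5 (m := 1) hT (A := y - (2 / 5) * x) (B := y + (1 / 5) * x + (6 / 25)) (C := ((x) * (x + (2 / 5))))
          (by linear_combination heq) ((hy.add (n1d5.mul hT hx)).add n6d25)
          (hx.mul hT (hx.add n2d5)) (by norm_num) (by norm_num) (by norm_num [ev, evl])
      · exact Lc_unit5 hT n2 (by norm_num) (by norm_num [ev, evl]) _
      · exact Lc_unit5 hT n3 (by norm_num) (by norm_num [ev, evl]) _
      · exact Lc_unit5 hT n5 (by norm_num) (by norm_num [ev, evl]) _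
  exact P4

theorem pl10b_M4 (hT : Tq v) (heq : y ^ 2 - (1 / 5) * x * y + (6 / 25) * y = x ^ 3 + (6 / 25) * x ^ 2)
    (hne : ∀ z ∈ g10b x y, z ≠ 0) :
    Nq v x (6 / 25) → Nq v y (-36 / 125) →
      ∃ loc ∈ locs10b, ∃ t : F, t ≠ 0 ∧ v t ≠ 1 ∧ Loc v [2, 3, 5] t (g10b x y) loc := by
  have hbq : v ((-6 / 25) : F) ≤ 1 := by
    have := hT.le (-6 / 25)
    norm_num at this ⊢
    exact this
  have hcq : v ((6 / 5) : F) ≤ 1 := by
    have := hT.le (6 / 5)
    norm_num at this ⊢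
    exact this
  have hE : y ^ 2 + (1 - (6 / 5)) * x * y - (-6 / 25) * y = x ^ 3 - (-6 / 25) * x ^ 2 := by
    linear_combination heq
  have nx0 : x ≠ 0 := hne _ (by simp [g10b])
  have nx1 : x + (6 / 25) ≠ 0 := hne _ (by simp [g10b])
  have nx2 : x - (6 / 5) ≠ 0 := hne _ (by simp [g10b])
  have nx3 : x - (6 / 25) ≠ 0 := hne _ (by simp [g10b])
  have nx4 : x + (2 / 5) ≠ 0 := hne _ (by simp [g10b])
  have ny0 : y ≠ 0 := hne _ (by simp [g10b])
  have ny1 : y - (6 / 5) * x ≠ 0 := hne _ (by simp [g10b])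
  have ny2 : y + (6 / 5) * x ≠ 0 := hne _ (by simp [g10b])
  have ny3 : y - (2 / 5) * x ≠ 0 := hne _ (by simp [g10b])
  have n1d5 : Nq v ((1 / 5) : F) (1 / 5) := Nq.num _ (by norm_num)
  have n6d25 : Nq v ((6 / 25) : F) (6 / 25) := Nq.num _ (by norm_num)
  have n2d5 : Nq v ((2 / 5) : F) (2 / 5) := Nq.num _ (by norm_num)
  have n3d5 : Nq v ((3 / 5) : F) (3 / 5) := Nq.num _ (by norm_num)
  have n1 : Nq v (1 : F) 1 := Nq.num _ (by norm_num)
  have n6d5 : Nq v ((6 / 5) : F) (6 / 5) := Nq.num _ (by norm_num)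
  have n7d5 : Nq v ((7 / 5) : F) (7 / 5) := Nq.num _ (by norm_num)
  have n2 : Nq v (2 : F) 2 := Nq.num _ (by norm_num)
  have n3 : Nq v (3 : F) 3 := Nq.num _ (by norm_num)
  have n5 : Nq v (5 : F) 5 := Nq.num _ (by norm_num)
  have M4 : Nq v x (6 / 25) → Nq v y (-36 / 125) →
      ∃ loc ∈ locs10b, ∃ t : F, t ≠ 0 ∧ v t ≠ 1 ∧ Loc v [2, 3, 5] t (g10b x y) loc := by
    intro hx hy
    refine ⟨[(0, (false, [1, 1, -2])), (0, (false, [2, 1, -2])), (0, (true, [3, 1, -2])), (1, (false, [])), (0, (false, [4, 0, -2])), (0, (true, [2, 2, -3])), (0, (true, [3, 2, -3])), (1, (false, [0, 1, -1])), (0, (true, [4, 1, -3])), (0, (false, [1])), (0, (false, [0, 1])), (0, (false, [0, 0, 1]))], by decide, x - (6 / 25), nx3, ?_, ?_⟩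
    · have h := (hx.sub n6d25)
      have h' : v (x - (6 / 25)) < 1 := by
        unfold Nq at h
        norm_num at h
        exact h
      exact h'.ne
    · refine List.Forall₂.cons ?_ (List.Forall₂.cons ?_ (List.Forall₂.cons ?_ (List.Forall₂.cons ?_ (List.Forall₂.cons ?_ (List.Forall₂.cons ?_ (List.Forall₂.cons ?_ (List.Forall₂.cons ?_ (List.Forall₂.cons ?_ (List.Forall₂.cons ?_ (List.Forall₂.cons ?_ (List.Forall₂.cons ?_ (List.Forall₂.nil))))))))))))
      · exact Lc_unit5 hT hx (by norm_num) (by norm_num [ev, evl]) _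
      · exact Lc_unit5 hT (hx.add n6d25) (by norm_num) (by norm_num [ev, evl]) _
      · exact Lc_unit5 hT (hx.sub n6d5) (by norm_num) (by norm_num [ev, evl]) _
      · exact Lc_self5 _
      · exact Lc_unit5 hT (hx.add n2d5) (by norm_num) (by norm_num [ev, evl]) _
      · exact Lc_unit5 hT hy (by norm_num) (by norm_num [ev, evl]) _
      · exact Lc_unit5 hT (hy.sub (n6d5.mul hT hx)) (by norm_num) (by norm_num [ev, evl]) _
      · exact Lc_quot5 (m := 1) hT (A := y + (6 / 5) * x) (B := y - (7 / 5) * x + (6 / 25)) (C := ((x) * (x - (6 / 5))))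
          (by linear_combination heq) ((hy.sub (n7d5.mul hT hx)).add n6d25)
          (hx.mul hT (hx.sub n6d5)) (by norm_num) (by norm_num) (by norm_num [ev, evl])
      · exact Lc_unit5 hT (hy.sub (n2d5.mul hT hx)) (by norm_num) (by norm_num [ev, evl]) _
      · exact Lc_unit5 hT n2 (by norm_num) (by norm_num [ev, evl]) _
      · exact Lc_unit5 hT n3 (by norm_num) (by norm_num [ev, evl]) _
      · exact Lc_unit5 hT n5 (by norm_num) (by norm_num [ev, evl]) _
  exact M4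

theorem pl10b_P5 (hT : Tq v) (heq : y ^ 2 - (1 / 5) * x * y + (6 / 25) * y = x ^ 3 + (6 / 25) * x ^ 2)
    (hne : ∀ z ∈ g10b x y, z ≠ 0) :
    Nq v x (-2 / 5) → Nq v y (-4 / 25) →
      ∃ loc ∈ locs10b, ∃ t : F, t ≠ 0 ∧ v t ≠ 1 ∧ Loc v [2, 3, 5] t (g10b x y) loc := by
  have hbq : v ((-6 / 25) : F) ≤ 1 := by
    have := hT.le (-6 / 25)
    norm_num at this ⊢
    exact this
  have hcq : v ((6 / 5) : F) ≤ 1 := by
    have := hT.le (6 / 5)
    norm_num at this ⊢
    exact this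
  have hE : y ^ 2 + (1 - (6 / 5)) * x * y - (-6 / 25) * y = x ^ 3 - (-6 / 25) * x ^ 2 := by
    linear_combination heq
  have nx0 : x ≠ 0 := hne _ (by simp [g10b])
  have nx1 : x + (6 / 25) ≠ 0 := hne _ (by simp [g10b])
  have nx2 : x - (6 / 5) ≠ 0 := hne _ (by simp [g10b])
  have nx3 : x - (6 / 25) ≠ 0 := hne _ (by simp [g10b])
  have nx4 : x + (2 / 5) ≠ 0 := hne _ (by simp [g10b])
  have ny0 : y ≠ 0 := hne _ (by simp [g10b])
  have ny1 : y - (6 / 5) * x ≠ 0 := hne _ (by simp [g10b])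
  have ny2 : y + (6 / 5) * x ≠ 0 := hne _ (by simp [g10b])
  have ny3 : y - (2 / 5) * x ≠ 0 := hne _ (by simp [g10b])
  have n1d5 : Nq v ((1 / 5) : F) (1 / 5) := Nq.num _ (by norm_num)
  have n6d25 : Nq v ((6 / 25) : F) (6 / 25) := Nq.num _ (by norm_num)
  have n2d5 : Nq v ((2 / 5) : F) (2 / 5) := Nq.num _ (by norm_num)
  have n3d5 : Nq v ((3 / 5) : F) (3 / 5) := Nq.num _ (by norm_num)
  have n1 : Nq v (1 : F) 1 := Nq.num _ (by norm_num)
  have n6d5 : Nq v ((6 / 5) : F) (6 / 5) := Nq.num _ (by norm_num)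
  have n7d5 : Nq v ((7 / 5) : F) (7 / 5) := Nq.num _ (by norm_num)
  have n2 : Nq v (2 : F) 2 := Nq.num _ (by norm_num)
  have n3 : Nq v (3 : F) 3 := Nq.num _ (by norm_num)
  have n5 : Nq v (5 : F) 5 := Nq.num _ (by norm_num)
  have P5 : Nq v x (-2 / 5) → Nq v y (-4 / 25) →
      ∃ loc ∈ locs10b, ∃ t : F, t ≠ 0 ∧ v t ≠ 1 ∧ Loc v [2, 3, 5] t (g10b x y) loc := by
    intro hx hy
    refine ⟨[(0, (true, [1, 0, -1])), (0, (true, [2, 0, -2])), (0, (true, [3, 0, -1])), (0, (true, [4, 0, -2])), (2, (false, [-5, 0, 3])), (0, (true, [2, 0, -2])), (0, (false, [3, 0, -2])), (0, (true, [4, 0, -2])), (1, (false, [])), (0, (false, [1])), (0, (false, [0, 1])), (0, (false, [0, 0, 1]))], by decide, y - (2 / 5) * x, ny3, ?_, ?_⟩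
    · have h := (hy.sub (n2d5.mul hT hx))
      have h' : v (y - (2 / 5) * x) < 1 := by
        unfold Nq at h
        norm_num at h
        exact h
      exact h'.ne
    · refine List.Forall₂.cons ?_ (List.Forall₂.cons ?_ (List.Forall₂.cons ?_ (List.Forall₂.cons ?_ (List.Forall₂.cons ?_ (List.Forall₂.cons ?_ (List.Forall₂.cons ?_ (List.Forall₂.cons ?_ (List.Forall₂.cons ?_ (List.Forall₂.cons ?_ (List.Forall₂.cons ?_ (List.Forall₂.cons ?_ (List.Forall₂.nil))))))))))))
      · exact Lc_unit5 hT hx (by norm_num) (by norm_num [ev, evl]) _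
      · exact Lc_unit5 hT (hx.add n6d25) (by norm_num) (by norm_num [ev, evl]) _
      · exact Lc_unit5 hT (hx.sub n6d5) (by norm_num) (by norm_num [ev, evl]) _
      · exact Lc_unit5 hT (hx.sub n6d25) (by norm_num) (by norm_num [ev, evl]) _
      · exact Lc_quot5 (m := 2) hT (A := x + (2 / 5)) (B := x * (x - (6 / 25)) - (3 / 5) * (y - (2 / 5) * x)) (C := 1) (by linear_combination (-1) * heq)
          ((hx.mul hT (hx.sub n6d25)).sub (n3d5.mul hT (hy.sub (n2d5.mul hT hx)))) n1 (by norm_num) (by norm_num) (by norm_num [ev, evl])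
      · exact Lc_unit5 hT hy (by norm_num) (by norm_num [ev, evl]) _
      · exact Lc_unit5 hT (hy.sub (n6d5.mul hT hx)) (by norm_num) (by norm_num [ev, evl]) _
      · exact Lc_unit5 hT (hy.add (n6d5.mul hT hx)) (by norm_num) (by norm_num [ev, evl]) _
      · exact Lc_self5 _
      · exact Lc_unit5 hT n2 (by norm_num) (by norm_num [ev, evl]) _
      · exact Lc_unit5 hT n3 (by norm_num) (by norm_num [ev, evl]) _
      · exact Lc_unit5 hT n5 (by norm_num) (by norm_num [ev, evl]) _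
  exact P5

end s10b

end Pool.Agent.FK4R
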