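import Pool.Agent.Lib_helper54.FAM.Pl10a
import Pool.Agent.Lib_helper54.FAM.Pl10b
import Pool.Agent.Lib_helper54.FAM.RC5a

set_option autoImplicit false
set_option linter.unusedSectionVars false

/-!
The residues of the explicit elements on the special curves with a point of order ten.
-/

namespace Pool.Agent.FK4R

open Pool.Agent.K4R Pool.Agent.KC72
open scoped WithZero TensorProduct

section final

variable {k : Type*} [Field k] [CharZero k] {F : Type*} [Field F] [Algebra k F]

/-- **Order ten** (`b = 24`, `c = 6`). -/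
theorem unram10a {x y : F} (heq : y ^ 2 - 5 * x * y - 24 * y = x ^ 3 - 24 * x ^ 2)
    (hne : ∀ z ∈ g10a x y, z ≠ 0) {cls : List (Mo × Mo)} {L : List Tm}
    (hc : chkRes locs10a tab23 cls L = true) : FK4.Unram k (zt (g10a x y) cls L) :=
  unram_of (fun _ _ hT => places10a hT (by linear_combination heq) hne) hc

/-- **Order ten** (`b = -6/25`, `c = 6/5`). -/
theorem unram10b {x y : F} (heq : y ^ 2 - 1 / 5 * x * y + 6 / 25 * y = x ^ 3 + 6 / 25 * x ^ 2)
    (hne : ∀ z ∈ g10b x y, z ≠ 0) {cls : List (Mo × Mo)} {L : List Tm}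
    (hc : chkRes3 locs10b tab235 cls L = true) : FK4.Unram k (zt (g10b x y) cls L) :=
  unram_of3 (fun _ _ hT => places10b hT (by linear_combination heq) hne) hc

/-- the generators do not vanish at a generic point -/
lemma g10a_ne {b c : k} {x y : F} (h : TN.Gen b c x y) : ∀ z ∈ g10a x y, z ≠ 0 := by
  intro z hz
  simp only [g10a, List.mem_cons, List.not_mem_nil, or_false] at hz
  have a := fun q : ℚ => h.xc_ne (q : k)
  have b := fun q : ℚ => h.yab_ne (q : k) 0
  simp only [map_ratCast, map_zero, add_zero] at a b
  have : CharZero F := charZero_of_injective_algebraMap (algebraMap k F).injective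
  rcases hz with rfl | rfl | rfl | rfl | rfl | rfl | rfl | rfl | rfl | rfl | rfl
  · exact h.x_ne
  · simpa using a 24
  · simpa using a 6
  · simpa using a 12
  · simpa using a 8
  · exact h.y_ne
  · simpa [sub_eq_add_neg] using b (-6)
  · simpa [sub_eq_add_neg] using b (-3)
  · simpa [sub_eq_add_neg] using b (-4)
  · norm_num
  · norm_num

/-- the generators do not vanish at a generic point -/
lemma g10b_ne {b c : k} {x y : F} (h : TN.Gen b c x y) : ∀ z ∈ g10b x y, z ≠ 0 := by
  intro z hz
  simp only [g10b, List.mem_cons, List.not_mem_nil, or_false] at hz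
  have a := fun q : ℚ => h.xc_ne (q : k)
  have b := fun q : ℚ => h.yab_ne (q : k) 0
  simp only [map_ratCast, map_zero, add_zero] at a b
  have : CharZero F := charZero_of_injective_algebraMap (algebraMap k F).injective
  rcases hz with rfl | rfl | rfl | rfl | rfl | rfl | rfl | rfl | rfl | rfl | rfl | rfl
  · exact h.x_ne
  · simpa [sub_neg_eq_add] using a (-(6 / 25))
  · simpa using a (6 / 5)
  · simpa using a (6 / 25)
  · simpa [sub_neg_eq_add] using a (-(2 / 5))
  · exact h.y_ne
  · simpa [sub_eq_add_neg] using b (-(6 / 5))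
  · simpa using b (6 / 5)
  · simpa [sub_eq_add_neg] using b (-(2 / 5))
  · norm_num
  · norm_num
  · norm_num

end final

end Pool.Agent.FK4R
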