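import Pool.Agent.Lib_helper54.FAM.L10ac
import Pool.Agent.Lib_helper54.FAM.RC10

set_option autoImplicit false
set_option maxRecDepth 100000

/-!
# The first special curve with a point of order ten: the terms of the class
-/

namespace Pool.Agent.FK4

open Pool.Agent.KC72

lemma L10a_res : FK4R.chkRes FK4R.locs10a FK4R.tab23 N10C.c10a_cls L10a = true := by
  decide +kernel

end Pool.Agent.FK4
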