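import Pool.Agent.Lib_helper54.FAM.LK10be
import Pool.Agent.Lib_helper54.FAM.L10b

set_option autoImplicit false
set_option linter.unusedSectionVars false
set_option linter.unusedVariables false
set_option linter.unusedSimpArgs false
set_option linter.unusedTactic false
set_option linter.unreachableTactic false
set_option maxRecDepth 100000

/-!
# The second special curve with a point of order ten: the explicit class
-/

open scoped TensorProduct

namespace Pool.Agent.FK4

open Pool.Agent.MK4 Pool.Agent.TN Pool.Agent.KC72

section eq

variable {F : Type*} [Field F] {x y A B C H K D E G J : F}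

/-- the class has no residues -/
theorem unram_xi10b {k : Type*} [Field k] [CharZero k] [Algebra k F]
    (he : y ^ 2 - 1 / 5 * x * y + 6 / 25 * y = x ^ 3 + 6 / 25 * x ^ 2)
    (hne : ∀ z ∈ FK4R.g10b x y, z ≠ 0) : Unram k (K4N.xi10b x y) := by
  have : CharZero F := charZero_of_injective_algebraMap (algebraMap k F).injective
  rw [xi10b_eq he hne]
  exact FK4R.unram10b he hne L10b_res

end eq

end Pool.Agent.FK4
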