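import Pool.Agent.Lib_helper54.FAM.L12
import Pool.Agent.Lib_helper54.MC.T12.Ok

set_option autoImplicit false
set_option maxRecDepth 100000

/-!
# The special curve with a point of order twelve: the class and the certificate
-/

namespace Pool.Agent.FK4

open Pool.Agent.KC72 Pool.Agent.MC

lemma sameC_of {L M : List (Mo × Mo)} {m n : ℕ} (hm : L.length = m) (hn : M.length = n)
    (p q : List ℕ) (hp : (p.all fun i => decide (i < n)) = true)
    (hq : (q.all fun i => decide (i < m)) = true)
    (hL : L = p.map (fun i => M.getD i default)) (hM : M = q.map (fun i => L.getD i default)) :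
    sameC L M = true := by
  unfold sameC
  rw [Bool.and_eq_true, List.all_eq_true, List.all_eq_true]
  rw [List.all_eq_true] at hp hq
  refine ⟨fun a ha => ?_, fun a ha => ?_⟩
  · rw [hL, List.mem_map] at ha
    obtain ⟨i, hi, rfl⟩ := ha
    have h := of_decide_eq_true (hp i hi)
    rw [← hn] at h
    rw [decide_eq_true_eq, List.getD_eq_getElem _ _ h]
    exact List.getElem_mem h
  · rw [hM, List.mem_map] at ha
    obtain ⟨i, hi, rfl⟩ := ha
    have h := of_decide_eq_true (hq i hi)
    rw [← hm] at h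
    rw [decide_eq_true_eq, List.getD_eq_getElem _ _ h]
    exact List.getElem_mem h

lemma eq_of_blocks {α : Type*} {A B : List α} (b n : ℕ) (hA : A.length ≤ b * n)
    (hB : B.length ≤ b * n)
    (h : ∀ k < n, (A.drop (b * k)).take b = (B.drop (b * k)).take b) : A = B := by
  rcases Nat.eq_zero_or_pos b with rfl | hb
  · rw [zero_mul, Nat.le_zero, List.length_eq_zero_iff] at hA hB
    rw [hA, hB]
  refine List.ext_getElem? fun i => ?_
  by_cases hi : i < b * n
  · have hk : i / b < n := Nat.div_lt_of_lt_mul hi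
    have hj : i % b < b := Nat.mod_lt _ hb
    have e : b * (i / b) + i % b = i := Nat.div_add_mod i b
    have := congrArg (fun l : List α => l[i % b]?) (h _ hk)
    simp only [List.getElem?_take, List.getElem?_drop, hj, if_true, e] at this
    exact this
  · rw [List.getElem?_eq_none (by omega), List.getElem?_eq_none (by omega)]

/-- the places of the classes of the certificate -/
def p12 : List ℕ :=
  [192, 140, 136, 194, 270, 144, 145, 271, 703, 193, 118, 121, 117, 78, 72, 77, 79, 690, 617, 116,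
  504, 413, 381, 412, 503, 600, 415, 679, 64, 516, 408, 588, 389, 300, 387, 313, 580, 518, 398,
  131, 380, 680, 294, 205, 474, 126, 594, 656, 593, 295, 592, 188, 229, 137, 173, 254, 349, 196,
  322, 139, 142, 175, 141, 305, 174, 707, 711, 143, 269, 731, 138, 195, 197, 166, 619, 669, 146,
  75, 624, 106, 74, 81, 107, 726, 80, 108, 622, 76, 692, 618, 668, 73, 119, 120, 289, 23, 478,
  463, 566, 95, 385, 586, 614, 697, 716, 480, 678, 309, 479, 207, 436, 551, 290, 288, 537, 219,
  158, 472, 493, 218, 414, 417, 220, 316, 489, 515, 409, 315, 338, 222, 506, 374, 539, 411, 416,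
  508, 550, 587, 445, 286, 312, 425, 456, 477, 462, 491, 610, 464, 677, 653, 553, 629, 363, 525,
  528, 563, 304, 717, 693, 22, 28, 240, 347, 310, 317, 272, 46, 365, 10, 27, 582, 599, 273, 279,
  314, 318, 343, 476, 90, 644, 364, 605, 510, 571, 469, 287, 403, 514, 422, 21, 24, 30, 217, 224,
  223, 216, 470, 26, 336, 485, 52, 498, 263, 51, 311, 390, 25, 29, 696, 39, 41, 156, 376, 682,
  410, 494, 598, 284, 375, 285, 163, 541, 1, 513, 386, 388, 3, 517, 50, 215, 221, 490, 346, 642,
  492, 685, 446, 92, 241, 701, 246, 662, 184, 377, 543, 405, 325, 356, 569, 604, 519, 570, 261,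
  447, 262, 89, 423, 35, 483, 505, 700, 62, 87, 98, 154, 297, 306, 339, 358, 203, 179, 359, 56,
  60, 67, 33, 37, 584, 335, 150, 210, 481, 341, 152, 649, 8, 44, 484, 277, 124, 591, 511, 713,
  298, 394, 157, 686, 344, 533, 302, 133, 500, 159, 238, 630, 280, 547, 360, 637, 40, 129, 719,
  608, 502, 303, 564, 278, 509, 168, 164, 130, 307, 42, 334, 369, 535, 727, 127, 162, 434, 38,
  565, 573, 6, 486, 13, 134, 45, 47, 155, 674, 235, 538, 169, 187, 275, 330, 161, 167, 332, 245,
  337, 342, 396, 401, 372, 702, 132, 475, 695, 53, 180, 536, 58, 299, 432, 439, 55, 176, 574,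
  228, 357, 181, 366, 698, 442, 170, 728, 548, 567, 522, 658, 191, 251, 579, 640, 523, 266, 17,
  250, 171, 190, 660, 549, 426, 427, 532, 418, 670, 172, 530, 20, 595, 671, 189, 83, 578, 448,
  82, 291, 249, 521, 639, 659, 657, 718, 252, 497, 556, 355, 602, 641, 71, 268, 149, 424, 265,
  554, 672, 531, 293, 407, 673, 147, 589, 352, 308, 581, 444, 473, 378, 382, 620, 601, 370, 460,
  714, 301, 577, 99, 704, 379, 438, 88, 296, 383, 97, 433, 440, 109, 111, 114, 467, 113, 466,
  435, 520, 68, 48, 402, 676, 36, 596, 597, 634, 281, 105, 675, 351, 606, 400, 709, 437, 627,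
  501, 590, 206, 451, 151, 465, 626, 557, 431, 66, 202, 231, 552, 689, 61, 208, 100, 395, 419,
  687, 49, 345, 333, 212, 527, 230, 561, 354, 430, 102, 732, 256, 258, 694, 69, 428, 524, 15, 16,
  0, 4, 7, 14, 373, 65, 32, 204, 283, 225, 63, 234, 242, 319, 85, 93, 609, 237, 125, 688, 274,
  198, 186, 496, 276, 199, 259, 211, 607, 226, 248, 683, 488, 720, 540, 684, 5, 2, 59, 165, 11,
  471, 34, 544, 391, 350, 12, 631, 482, 31, 282, 91, 603, 104, 340, 710, 722, 681, 54, 244, 705,
  292, 583, 487, 495, 585, 393, 399, 101, 160, 638, 725, 421, 371, 636, 457, 643, 706, 9, 86, 84,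
  103, 236, 70, 96, 153, 545, 182, 243, 43, 320, 213, 331, 397, 233, 257, 209, 57, 239, 135, 148,
  555, 621, 260, 635, 666, 94, 651, 615, 559, 177, 454, 449, 420, 327, 368, 453, 461, 623, 247,
  329, 326, 361, 611, 178, 362, 384, 110, 112, 665, 185, 128, 534, 712, 730, 625, 723, 507, 201,
  232, 729, 321, 452, 724, 443, 323, 353, 633, 200, 324, 721, 404, 664, 612, 255, 632, 450, 455,
  529, 699, 572, 558, 691, 613, 715, 122, 392, 328, 628, 183, 526, 253, 661, 663, 123, 499, 645,
  646, 406, 560, 458, 115, 652, 348, 367, 429, 562, 441, 654, 647, 214, 19, 650, 648, 459, 546,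
  542, 708, 667, 512, 655, 576, 616, 468, 264, 227, 568, 575, 18, 267]

/-- the places of the classes in the certificate -/
def q12 : List ℕ :=
  [523, 222, 560, 226, 524, 559, 333, 525, 285, 601, 168, 563, 569, 335, 526, 521, 522, 388, 731,
  714, 401, 189, 159, 95, 190, 206, 197, 169, 160, 207, 191, 572, 529, 275, 565, 257, 471, 276,
  330, 209, 309, 210, 322, 612, 286, 337, 166, 338, 468, 504, 228, 203, 200, 360, 581, 367, 272,
  620, 363, 561, 273, 498, 261, 533, 28, 528, 493, 274, 467, 518, 606, 422, 14, 91, 80, 77, 87,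
  15, 13, 16, 84, 81, 408, 405, 603, 537, 602, 262, 453, 255, 178, 574, 237, 538, 629, 99, 607,
  456, 263, 449, 500, 591, 513, 604, 576, 476, 79, 82, 85, 459, 650, 460, 651, 463, 461, 704, 19,
  12, 10, 92, 93, 11, 688, 697, 289, 541, 45, 327, 654, 310, 320, 39, 357, 300, 336, 622, 2, 53,
  70, 59, 1, 62, 60, 67, 5, 6, 76, 433, 623, 424, 279, 488, 283, 608, 264, 339, 211, 295, 116,
  302, 592, 347, 328, 220, 319, 562, 73, 348, 318, 343, 376, 390, 399, 54, 64, 61, 368, 633, 647,
  270, 361, 372, 610, 692, 242, 653, 545, 344, 51, 404, 391, 382, 0, 9, 3, 71, 57, 72, 544, 548,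
  671, 661, 494, 269, 530, 43, 486, 109, 499, 619, 280, 550, 507, 614, 713, 229, 195, 192, 119,
  115, 122, 230, 129, 194, 193, 532, 552, 728, 370, 52, 509, 495, 662, 617, 534, 341, 605, 540,
  303, 621, 161, 238, 535, 611, 582, 350, 240, 642, 553, 410, 389, 383, 416, 694, 55, 677, 515,
  618, 516, 549, 626, 252, 254, 202, 727, 426, 387, 732, 423, 68, 4, 7, 165, 172, 543, 345, 547,
  288, 316, 173, 305, 475, 573, 531, 217, 219, 139, 185, 113, 94, 112, 409, 584, 430, 42, 49,
  454, 265, 293, 364, 33, 447, 299, 314, 156, 63, 266, 321, 436, 107, 163, 204, 140, 35, 174,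
  127, 123, 164, 175, 536, 613, 664, 58, 668, 672, 246, 644, 637, 690, 643, 346, 615, 349, 506,
  323, 278, 198, 351, 128, 267, 577, 282, 352, 176, 297, 505, 232, 162, 706, 56, 568, 478, 435,
  669, 511, 419, 247, 371, 268, 271, 307, 645, 648, 152, 180, 167, 373, 707, 638, 324, 444, 596,
  355, 527, 131, 218, 212, 243, 440, 451, 40, 22, 441, 455, 649, 100, 224, 34, 225, 32, 205, 567,
  689, 589, 294, 501, 353, 616, 38, 590, 480, 354, 469, 186, 674, 245, 701, 431, 30, 126, 214,
  133, 23, 21, 120, 26, 134, 121, 397, 502, 636, 595, 188, 256, 425, 141, 394, 395, 519, 708,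
  512, 492, 365, 457, 329, 465, 110, 482, 452, 366, 458, 710, 375, 667, 438, 138, 236, 253, 407,
  635, 679, 487, 665, 639, 634, 680, 142, 598, 703, 717, 445, 640, 144, 97, 147, 489, 464, 462,
  726, 184, 196, 564, 117, 439, 44, 358, 177, 143, 96, 108, 105, 281, 571, 258, 287, 199, 334,
  586, 555, 124, 231, 145, 234, 118, 215, 587, 546, 417, 201, 698, 301, 484, 313, 24, 20, 259,
  130, 660, 135, 317, 182, 291, 722, 223, 187, 125, 29, 227, 37, 250, 466, 411, 380, 386, 520,
  153, 693, 508, 154, 681, 400, 429, 396, 298, 655, 325, 362, 114, 342, 132, 557, 221, 719, 244,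
  566, 609, 718, 306, 378, 393, 136, 111, 496, 150, 427, 624, 418, 491, 684, 632, 702, 510, 709,
  155, 315, 331, 98, 379, 729, 248, 251, 183, 683, 332, 369, 730, 724, 448, 406, 384, 36, 437,
  170, 585, 277, 588, 101, 137, 31, 434, 485, 290, 50, 48, 46, 402, 472, 473, 216, 171, 25, 443,
  420, 575, 249, 181, 479, 551, 312, 539, 146, 646, 676, 686, 102, 631, 725, 18, 89, 74, 442,
  625, 86, 641, 78, 658, 490, 483, 691, 151, 304, 570, 678, 670, 474, 627, 597, 308, 593, 412,
  385, 421, 233, 599, 179, 699, 700, 712, 716, 284, 715, 630, 705, 149, 711, 723, 47, 414, 381,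
  413, 392, 695, 241, 696, 675, 652, 628, 721, 90, 75, 398, 403, 428, 432, 340, 477, 470, 148,
  106, 27, 41, 580, 213, 554, 558, 235, 296, 503, 542, 497, 17, 685, 88, 158, 517, 359, 208, 103,
  374, 682, 260, 239, 356, 8, 450, 583, 600, 65, 720, 481, 578, 66, 656, 292, 446, 687, 104, 157,
  415, 311, 556, 673, 579, 659, 666, 594, 83, 326, 377, 663, 657, 69, 514]

lemma p12_m : MC12t.c12t.cls.length = 733 := by decide +kernel

lemma p12_n : N12T.cls12_cls.length = 733 := by decide +kernel

lemma p12_l : (p12.all fun i => decide (i < 733)) = true := by decide +kernel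

lemma q12_l : (q12.all fun i => decide (i < 733)) = true := by decide +kernel

lemma p12_len : p12.length = 733 := by decide +kernel

lemma q12_len : q12.length = 733 := by decide +kernel

/-- the classes at these places -/
def p12_f : List (Mo × Mo) := p12.map (fun i => N12T.cls12_cls.getD i default)

lemma p12_b0 : (MC12t.c12t.cls.drop (57 * 0)).take 57 = (p12_f.drop (57 * 0)).take 57 := by
  decide +kernel

lemma p12_b1 : (MC12t.c12t.cls.drop (57 * 1)).take 57 = (p12_f.drop (57 * 1)).take 57 := by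
  decide +kernel

lemma p12_b2 : (MC12t.c12t.cls.drop (57 * 2)).take 57 = (p12_f.drop (57 * 2)).take 57 := by
  decide +kernel

lemma p12_b3 : (MC12t.c12t.cls.drop (57 * 3)).take 57 = (p12_f.drop (57 * 3)).take 57 := by
  decide +kernel

lemma p12_b4 : (MC12t.c12t.cls.drop (57 * 4)).take 57 = (p12_f.drop (57 * 4)).take 57 := by
  decide +kernel

lemma p12_b5 : (MC12t.c12t.cls.drop (57 * 5)).take 57 = (p12_f.drop (57 * 5)).take 57 := by
  decide +kernel

lemma p12_b6 : (MC12t.c12t.cls.drop (57 * 6)).take 57 = (p12_f.drop (57 * 6)).take 57 := by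
  decide +kernel

lemma p12_b7 : (MC12t.c12t.cls.drop (57 * 7)).take 57 = (p12_f.drop (57 * 7)).take 57 := by
  decide +kernel

lemma p12_b8 : (MC12t.c12t.cls.drop (57 * 8)).take 57 = (p12_f.drop (57 * 8)).take 57 := by
  decide +kernel

lemma p12_b9 : (MC12t.c12t.cls.drop (57 * 9)).take 57 = (p12_f.drop (57 * 9)).take 57 := by
  decide +kernel

lemma p12_b10 : (MC12t.c12t.cls.drop (57 * 10)).take 57 = (p12_f.drop (57 * 10)).take 57 := by
  decide +kernel

lemma p12_b11 : (MC12t.c12t.cls.drop (57 * 11)).take 57 = (p12_f.drop (57 * 11)).take 57 := by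
  decide +kernel

lemma p12_b12 : (MC12t.c12t.cls.drop (57 * 12)).take 57 = (p12_f.drop (57 * 12)).take 57 := by
  decide +kernel

lemma p12_eq : MC12t.c12t.cls = p12.map (fun i => N12T.cls12_cls.getD i default) := by
  refine eq_of_blocks (B := p12_f) 57 13 ?_ ?_ (fun k hk => ?_)
  · rw [p12_m]; norm_num
  · rw [p12_f, List.length_map, p12_len]; norm_num
  · interval_cases k
    · exact p12_b0
    · exact p12_b1
    · exact p12_b2
    · exact p12_b3
    · exact p12_b4
    · exact p12_b5
    · exact p12_b6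
    · exact p12_b7
    · exact p12_b8
    · exact p12_b9
    · exact p12_b10
    · exact p12_b11
    · exact p12_b12

/-- the classes at these places -/
def q12_f : List (Mo × Mo) := q12.map (fun i => MC12t.c12t.cls.getD i default)

lemma q12_b0 : (N12T.cls12_cls.drop (57 * 0)).take 57 = (q12_f.drop (57 * 0)).take 57 := by
  decide +kernel

lemma q12_b1 : (N12T.cls12_cls.drop (57 * 1)).take 57 = (q12_f.drop (57 * 1)).take 57 := by
  decide +kernel

lemma q12_b2 : (N12T.cls12_cls.drop (57 * 2)).take 57 = (q12_f.drop (57 * 2)).take 57 := by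
  decide +kernel

lemma q12_b3 : (N12T.cls12_cls.drop (57 * 3)).take 57 = (q12_f.drop (57 * 3)).take 57 := by
  decide +kernel

lemma q12_b4 : (N12T.cls12_cls.drop (57 * 4)).take 57 = (q12_f.drop (57 * 4)).take 57 := by
  decide +kernel

lemma q12_b5 : (N12T.cls12_cls.drop (57 * 5)).take 57 = (q12_f.drop (57 * 5)).take 57 := by
  decide +kernel

lemma q12_b6 : (N12T.cls12_cls.drop (57 * 6)).take 57 = (q12_f.drop (57 * 6)).take 57 := by
  decide +kernel

lemma q12_b7 : (N12T.cls12_cls.drop (57 * 7)).take 57 = (q12_f.drop (57 * 7)).take 57 := by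
  decide +kernel

lemma q12_b8 : (N12T.cls12_cls.drop (57 * 8)).take 57 = (q12_f.drop (57 * 8)).take 57 := by
  decide +kernel

lemma q12_b9 : (N12T.cls12_cls.drop (57 * 9)).take 57 = (q12_f.drop (57 * 9)).take 57 := by
  decide +kernel

lemma q12_b10 : (N12T.cls12_cls.drop (57 * 10)).take 57 = (q12_f.drop (57 * 10)).take 57 := by
  decide +kernel

lemma q12_b11 : (N12T.cls12_cls.drop (57 * 11)).take 57 = (q12_f.drop (57 * 11)).take 57 := by
  decide +kernel

lemma q12_b12 : (N12T.cls12_cls.drop (57 * 12)).take 57 = (q12_f.drop (57 * 12)).take 57 := by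
  decide +kernel

lemma q12_eq : N12T.cls12_cls = q12.map (fun i => MC12t.c12t.cls.getD i default) := by
  refine eq_of_blocks (B := q12_f) 57 13 ?_ ?_ (fun k hk => ?_)
  · rw [p12_n]; norm_num
  · rw [q12_f, List.length_map, q12_len]; norm_num
  · interval_cases k
    · exact q12_b0
    · exact q12_b1
    · exact q12_b2
    · exact q12_b3
    · exact q12_b4
    · exact q12_b5
    · exact q12_b6
    · exact q12_b7
    · exact q12_b8
    · exact q12_b9
    · exact q12_b10
    · exact q12_b11
    · exact q12_b12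

lemma c12t_sameC : sameC MC12t.c12t.cls N12T.cls12_cls = true :=
  sameC_of p12_m p12_n p12 q12 p12_l q12_l p12_eq q12_eq

lemma L12_LL : L12.map (fun t => (oo N12T.cls12_cls (t.c, t.s), t.u)) =
    MC12t.c12t_l0.map (fun t => (oo MC12t.c12t.cls (t.c, t.s), t.u)) := by decide +kernel

end Pool.Agent.FK4
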