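import Pool.Agent.Lib_helper54.FAM.LK12h

set_option autoImplicit false
set_option linter.unusedSectionVars false
set_option linter.unusedVariables false
set_option linter.unusedSimpArgs false
set_option linter.unusedTactic false
set_option linter.unreachableTactic false
set_option maxRecDepth 100000

/-!
# The special curve with a point of order twelve: monomials, part 1
-/

open scoped TensorProduct

namespace Pool.Agent.FK4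

open Pool.Agent.MK4 Pool.Agent.TN Pool.Agent.KC72

section eq

variable {F : Type*} [Field F] [CharZero F] {x y B C H K M E G J N : F}

theorem c12_0 (A0 : x ≠ 0) (B0 : B ≠ 0) (C0 : C ≠ 0) (H0 : H ≠ 0) (K0 : K ≠ 0) (M0 : M ≠ 0) (D0 : y ≠ 0) (E0 : E ≠ 0) (G0 : G ≠ 0) (J0 : J ≠ 0) (N0 : N ≠ 0) :
    hk (sy (-(C) / 2)) (lg (((B) ^ 4 * (G) ^ 6 * (J) ^ 2 * (N) ^ 2 / ((H) ^ 4 * (K) ^ 2 * (M) * (y) ^ 2 * (E) ^ 6)) ^ 2)) =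
      hk (sy (ev [x, B, C, H, K, M, y, E, G, J, N, 2, 3, 5] (true, [0, 0, 1, 0, 0, 0, 0, 0, 0, 0, 0, -1, 0, 0]))) (lg (evl [x, B, C, H, K, M, y, E, G, J, N, 2, 3, 5] [0, 8, 0, -8, -4, -2, -4, -12, 12, 4, 4, 0, 0, 0])) :=
  hkc12a
    (by
      simp only [ev, evl_cons, evl_nil_left, evl_nil_right, cond_true, cond_false, zpow_neg, zpow_ofNat, zpow_zero, zpow_one]
      field_simp
      try ring)
    (by
      simp only [ev, evl_cons, evl_nil_left, evl_nil_right, cond_true, cond_false, zpow_neg, zpow_ofNat, zpow_zero, zpow_one]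
      field_simp
      try ring)

theorem c12_1 (A0 : x ≠ 0) (B0 : B ≠ 0) (C0 : C ≠ 0) (H0 : H ≠ 0) (K0 : K ≠ 0) (M0 : M ≠ 0) (D0 : y ≠ 0) (E0 : E ≠ 0) (G0 : G ≠ 0) (J0 : J ≠ 0) (N0 : N ≠ 0) :
    hk (sy ((M) / 4)) (lg ((((B) ^ 2 * (G) ^ 2 * (J) ^ 2 * (N) ^ 2 / ((H) ^ 2 * (K) ^ 2 * (M) * (y) ^ 2 * (E) ^ 2)) ^ 3)⁻¹)) =
      hk (sy (ev [x, B, C, H, K, M, y, E, G, J, N, 2, 3, 5] (false, [0, 0, 0, 0, 0, 1, 0, 0, 0, 0, 0, -2, 0, 0]))) (lg (evl [x, B, C, H, K, M, y, E, G, J, N, 2, 3, 5] [0, -6, 0, 6, 6, 3, 6, 6, -6, -6, -6, 0, 0, 0])) :=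
  hkc12a
    (by
      simp only [ev, evl_cons, evl_nil_left, evl_nil_right, cond_true, cond_false, zpow_neg, zpow_ofNat, zpow_zero, zpow_one]
      field_simp
      try ring)
    (by
      simp only [ev, evl_cons, evl_nil_left, evl_nil_right, cond_true, cond_false, zpow_neg, zpow_ofNat, zpow_zero, zpow_one]
      field_simp
      try ring)

theorem c12_2 (A0 : x ≠ 0) (B0 : B ≠ 0) (C0 : C ≠ 0) (H0 : H ≠ 0) (K0 : K ≠ 0) (M0 : M ≠ 0) (D0 : y ≠ 0) (E0 : E ≠ 0) (G0 : G ≠ 0) (J0 : J ≠ 0) (N0 : N ≠ 0) :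
    hk (sy (-(K) / (2 * (x)))) (lg (((H) * (K) ^ 3 * (M) * (y) ^ 4 * (G) ^ 2 / ((x) * (B) * (E) ^ 2 * (J) ^ 4 * (N) ^ 2)) ^ 2)) =
      hk (sy (ev [x, B, C, H, K, M, y, E, G, J, N, 2, 3, 5] (true, [-1, 0, 0, 0, 1, 0, 0, 0, 0, 0, 0, -1, 0, 0]))) (lg (evl [x, B, C, H, K, M, y, E, G, J, N, 2, 3, 5] [-2, -2, 0, 2, 6, 2, 8, -4, 4, -8, -4, 0, 0, 0])) :=
  hkc12a
    (by
      simp only [ev, evl_cons, evl_nil_left, evl_nil_right, cond_true, cond_false, zpow_neg, zpow_ofNat, zpow_zero, zpow_one]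
      field_simp
      try ring)
    (by
      simp only [ev, evl_cons, evl_nil_left, evl_nil_right, cond_true, cond_false, zpow_neg, zpow_ofNat, zpow_zero, zpow_one]
      field_simp
      try ring)

theorem c12_3 (A0 : x ≠ 0) (B0 : B ≠ 0) (C0 : C ≠ 0) (H0 : H ≠ 0) (K0 : K ≠ 0) (M0 : M ≠ 0) (D0 : y ≠ 0) (E0 : E ≠ 0) (G0 : G ≠ 0) (J0 : J ≠ 0) (N0 : N ≠ 0) :
    hk (sy (-(K) / (4 * (x)))) (lg (((B) ^ 2 * (G) ^ 2 * (J) ^ 2 * (N) ^ 6 / ((x) ^ 2 * (H) ^ 2 * (K) ^ 4 * (M) ^ 3 * (y) ^ 2 * (E) ^ 2)) ^ 2)) =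
      hk (sy (ev [x, B, C, H, K, M, y, E, G, J, N, 2, 3, 5] (true, [-1, 0, 0, 0, 1, 0, 0, 0, 0, 0, 0, -2, 0, 0]))) (lg (evl [x, B, C, H, K, M, y, E, G, J, N, 2, 3, 5] [-4, 4, 0, -4, -8, -6, -4, -4, 4, 4, 12, 0, 0, 0])) :=
  hkc12a
    (by
      simp only [ev, evl_cons, evl_nil_left, evl_nil_right, cond_true, cond_false, zpow_neg, zpow_ofNat, zpow_zero, zpow_one]
      field_simp
      try ring)
    (by
      simp only [ev, evl_cons, evl_nil_left, evl_nil_right, cond_true, cond_false, zpow_neg, zpow_ofNat, zpow_zero, zpow_one]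
      field_simp
      try ring)

theorem c12_4 (A0 : x ≠ 0) (B0 : B ≠ 0) (C0 : C ≠ 0) (H0 : H ≠ 0) (K0 : K ≠ 0) (M0 : M ≠ 0) (D0 : y ≠ 0) (E0 : E ≠ 0) (G0 : G ≠ 0) (J0 : J ≠ 0) (N0 : N ≠ 0) :
    hk (sy (-(-(2 * E * G) / (x ^ 2 * C)) / 2)) (lg (((-(10 * y * E) / (3 * x ^ 2 * B)) ^ 4 * (-(20 * E * G * J) / (9 * x ^ 3 * C * H)) ^ 6 * (-(100 * G * J * N) / (9 * x ^ 3 * H * K)) ^ 2 * (20 * J * N ^ 2 / (3 * x ^ 3 * K * M)) ^ 2 / ((-(10 * G * J) / (9 * x ^ 2 * H)) ^ 4 * (-(10 * J * N) / (x ^ 2 * K)) ^ 2 * (2 * N ^ 2 / (3 * x ^ 2 * M)) * (100 * y * E / (9 * x ^ 3 * B)) ^ 2 * (-(20 * y * E * G) / (3 * x ^ 3 * B * C)) ^ 6)) ^ 2)) =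
      hk (sy (ev [x, B, C, H, K, M, y, E, G, J, N, 2, 3, 5] (false, [-2, 0, -1, 0, 0, 0, 0, 1, 1, 0, 0, 0, 0, 0]))) (lg (evl [x, B, C, H, K, M, y, E, G, J, N, 2, 3, 5] [0, 8, 0, -8, -4, -2, -8, 4, -4, 8, 4, 2, -6, 0])) :=
  hkc12a
    (by
      simp only [ev, evl_cons, evl_nil_left, evl_nil_right, cond_true, cond_false, zpow_neg, zpow_ofNat, zpow_zero, zpow_one]
      field_simp
      try ring)
    (by
      simp only [ev, evl_cons, evl_nil_left, evl_nil_right, cond_true, cond_false, zpow_neg, zpow_ofNat, zpow_zero, zpow_one]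
      field_simp
      try ring)

theorem c12_5 (A0 : x ≠ 0) (B0 : B ≠ 0) (C0 : C ≠ 0) (H0 : H ≠ 0) (K0 : K ≠ 0) (M0 : M ≠ 0) (D0 : y ≠ 0) (E0 : E ≠ 0) (G0 : G ≠ 0) (J0 : J ≠ 0) (N0 : N ≠ 0) :
    hk (sy ((2 * N ^ 2 / (3 * x ^ 2 * M)) / 4)) (lg ((((-(10 * y * E) / (3 * x ^ 2 * B)) ^ 2 * (-(20 * E * G * J) / (9 * x ^ 3 * C * H)) ^ 2 * (-(100 * G * J * N) / (9 * x ^ 3 * H * K)) ^ 2 * (20 * J * N ^ 2 / (3 * x ^ 3 * K * M)) ^ 2 / ((-(10 * G * J) / (9 * x ^ 2 * H)) ^ 2 * (-(10 * J * N) / (x ^ 2 * K)) ^ 2 * (2 * N ^ 2 / (3 * x ^ 2 * M)) * (100 * y * E / (9 * x ^ 3 * B)) ^ 2 * (-(20 * y * E * G) / (3 * x ^ 3 * B * C)) ^ 2)) ^ 3)⁻¹)) =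
      hk (sy (ev [x, B, C, H, K, M, y, E, G, J, N, 2, 3, 5] (false, [-2, 0, 0, 0, 0, -1, 0, 0, 0, 0, 2, -1, -1, 0]))) (lg (evl [x, B, C, H, K, M, y, E, G, J, N, 2, 3, 5] [0, -6, 0, 6, 6, 3, 6, 0, 0, -6, -6, -3, 3, 0])) :=
  hkc12a
    (by
      simp only [ev, evl_cons, evl_nil_left, evl_nil_right, cond_true, cond_false, zpow_neg, zpow_ofNat, zpow_zero, zpow_one]
      field_simp
      try ring)
    (by
      simp only [ev, evl_cons, evl_nil_left, evl_nil_right, cond_true, cond_false, zpow_neg, zpow_ofNat, zpow_zero, zpow_one]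
      field_simp
      try ring)

theorem c12_6 (A0 : x ≠ 0) (B0 : B ≠ 0) (C0 : C ≠ 0) (H0 : H ≠ 0) (K0 : K ≠ 0) (M0 : M ≠ 0) (D0 : y ≠ 0) (E0 : E ≠ 0) (G0 : G ≠ 0) (J0 : J ≠ 0) (N0 : N ≠ 0) :
    hk (sy (-(-(10 * J * N) / (x ^ 2 * K)) / (2 * (10 * y / (3 * x ^ 2))))) (lg (((-(10 * G * J) / (9 * x ^ 2 * H)) * (-(10 * J * N) / (x ^ 2 * K)) ^ 3 * (2 * N ^ 2 / (3 * x ^ 2 * M)) * (100 * y * E / (9 * x ^ 3 * B)) ^ 4 * (-(20 * E * G * J) / (9 * x ^ 3 * C * H)) ^ 2 / ((10 * y / (3 * x ^ 2)) * (-(10 * y * E) / (3 * x ^ 2 * B)) * (-(20 * y * E * G) / (3 * x ^ 3 * B * C)) ^ 2 * (-(100 * G * J * N) / (9 * x ^ 3 * H * K)) ^ 4 * (20 * J * N ^ 2 / (3 * x ^ 3 * K * M)) ^ 2)) ^ 2)) =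
      hk (sy (ev [x, B, C, H, K, M, y, E, G, J, N, 2, 3, 5] (false, [0, 0, 0, 0, -1, 0, -1, 0, 0, 1, 1, -1, 1, 0]))) (lg (evl [x, B, C, H, K, M, y, E, G, J, N, 2, 3, 5] [0, -2, 0, 2, 6, 2, 0, 6, -6, 0, -6, -2, -2, 0])) :=
  hkc12a
    (by
      simp only [ev, evl_cons, evl_nil_left, evl_nil_right, cond_true, cond_false, zpow_neg, zpow_ofNat, zpow_zero, zpow_one]
      field_simp
      try ring)
    (by
      simp only [ev, evl_cons, evl_nil_left, evl_nil_right, cond_true, cond_false, zpow_neg, zpow_ofNat, zpow_zero, zpow_one]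
      field_simp
      try ring)

theorem c12_7 (A0 : x ≠ 0) (B0 : B ≠ 0) (C0 : C ≠ 0) (H0 : H ≠ 0) (K0 : K ≠ 0) (M0 : M ≠ 0) (D0 : y ≠ 0) (E0 : E ≠ 0) (G0 : G ≠ 0) (J0 : J ≠ 0) (N0 : N ≠ 0) :
    hk (sy (-(-(10 * J * N) / (x ^ 2 * K)) / (4 * (10 * y / (3 * x ^ 2))))) (lg (((-(10 * y * E) / (3 * x ^ 2 * B)) ^ 2 * (-(20 * E * G * J) / (9 * x ^ 3 * C * H)) ^ 2 * (-(100 * G * J * N) / (9 * x ^ 3 * H * K)) ^ 2 * (20 * J * N ^ 2 / (3 * x ^ 3 * K * M)) ^ 6 / ((10 * y / (3 * x ^ 2)) ^ 2 * (-(10 * G * J) / (9 * x ^ 2 * H)) ^ 2 * (-(10 * J * N) / (x ^ 2 * K)) ^ 4 * (2 * N ^ 2 / (3 * x ^ 2 * M)) ^ 3 * (100 * y * E / (9 * x ^ 3 * B)) ^ 2 * (-(20 * y * E * G) / (3 * x ^ 3 * B * C)) ^ 2)) ^ 2)) =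
      hk (sy (ev [x, B, C, H, K, M, y, E, G, J, N, 2, 3, 5] (false, [0, 0, 0, 0, -1, 0, -1, 0, 0, 1, 1, -2, 1, 0]))) (lg (evl [x, B, C, H, K, M, y, E, G, J, N, 2, 3, 5] [0, 4, 0, -4, -8, -6, -8, 0, 0, 8, 8, 6, -2, 0])) :=
  hkc12a
    (by
      simp only [ev, evl_cons, evl_nil_left, evl_nil_right, cond_true, cond_false, zpow_neg, zpow_ofNat, zpow_zero, zpow_one]
      field_simp
      try ring)
    (by
      simp only [ev, evl_cons, evl_nil_left, evl_nil_right, cond_true, cond_false, zpow_neg, zpow_ofNat, zpow_zero, zpow_one]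
      field_simp
      try ring)

end eq

end Pool.Agent.FK4
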