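import Pool.Agent.Lib_helper54.FAM.LK12h

set_option autoImplicit false
set_option linter.unusedSectionVars false
set_option linter.unusedVariables false
set_option linter.unusedSimpArgs false
set_option linter.unusedTactic false
set_option linter.unreachableTactic false
set_option maxRecDepth 100000

/-!
# The special curve with a point of order twelve: monomials, part 2
-/

open scoped TensorProduct

namespace Pool.Agent.FK4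

open Pool.Agent.MK4 Pool.Agent.TN Pool.Agent.KC72

section eq

variable {F : Type*} [Field F] [CharZero F] {x y B C H K M E G J N : F}

theorem c12_8 (A0 : x ≠ 0) (B0 : B ≠ 0) (C0 : C ≠ 0) (H0 : H ≠ 0) (K0 : K ≠ 0) (M0 : M ≠ 0) (D0 : y ≠ 0) (E0 : E ≠ 0) (G0 : G ≠ 0) (J0 : J ≠ 0) (N0 : N ≠ 0) :
    hk (sy (-(4 * E * G * J / (3 * B * C * H * y)) / 2)) (lg (((-(20 * E * G) / (3 * B * C * y)) ^ 4 * (40 * x * E * G * J * N / (9 * B * C * H * K * y ^ 2)) ^ 6 * (-(40 * x * E * G * J * N ^ 2) / (9 * C * H * K * M * y ^ 3)) ^ 2 * (40 * x * G * J ^ 2 * N ^ 2 / (3 * H * K ^ 2 * M * y ^ 3)) ^ 2 / ((20 * E * G * J * N / (9 * C * H * K * y ^ 2)) ^ 4 * (-(20 * G * J * N ^ 2) / (3 * H * K * M * y ^ 2)) ^ 2 * (4 * J ^ 2 * N ^ 2 / (K ^ 2 * M * y ^ 2)) * (20 * x ^ 2 * E * G / (3 * B * C * y ^ 2)) ^ 2 * (-(40 * x * E * G * J) / (9 * B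 * C * H * y ^ 2)) ^ 6)) ^ 2)) =
      hk (sy (ev [x, B, C, H, K, M, y, E, G, J, N, 2, 3, 5] (true, [0, -1, -1, -1, 0, 0, -1, 1, 1, 1, 0, 1, -1, 0]))) (lg (evl [x, B, C, H, K, M, y, E, G, J, N, 2, 3, 5] [0, -4, 0, 4, -8, -2, 4, 0, 0, -4, 8, 4, 4, 0])) :=
  hkc12a
    (by
      simp only [ev, evl_cons, evl_nil_left, evl_nil_right, cond_true, cond_false, zpow_neg, zpow_ofNat, zpow_zero, zpow_one]
      field_simp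
      try ring)
    (by
      simp only [ev, evl_cons, evl_nil_left, evl_nil_right, cond_true, cond_false, zpow_neg, zpow_ofNat, zpow_zero, zpow_one]
      field_simp
      try ring)

theorem c12_9 (A0 : x ≠ 0) (B0 : B ≠ 0) (C0 : C ≠ 0) (H0 : H ≠ 0) (K0 : K ≠ 0) (M0 : M ≠ 0) (D0 : y ≠ 0) (E0 : E ≠ 0) (G0 : G ≠ 0) (J0 : J ≠ 0) (N0 : N ≠ 0) :
    hk (sy ((4 * J ^ 2 * N ^ 2 / (K ^ 2 * M * y ^ 2)) / 4)) (lg ((((-(20 * E * G) / (3 * B * C * y)) ^ 2 * (40 * x * E * G * J * N / (9 * B * C * H * K * y ^ 2)) ^ 2 * (-(40 * x * E * G * J * N ^ 2) / (9 * C * H * K * M * y ^ 3)) ^ 2 * (40 * x * G * J ^ 2 * N ^ 2 / (3 * H * K ^ 2 * M * y ^ 3)) ^ 2 / ((20 * E * G * J * N / (9 * C * H * K * y ^ 2)) ^ 2 * (-(20 * G * J * N ^ 2) / (3 * H * K * M * y ^ 2)) ^ 2 * (4 * J ^ 2 * N ^ 2 / (K ^ 2 * M * y ^ 2)) * (20 * x ^ 2 * E * G / (3 * B *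 C * y ^ 2)) ^ 2 * (-(40 * x * E * G * J) / (9 * B * C * H * y ^ 2)) ^ 2)) ^ 3)⁻¹)) =
      hk (sy (ev [x, B, C, H, K, M, y, E, G, J, N, 2, 3, 5] (false, [0, 0, 0, 0, -2, -1, -2, 0, 0, 2, 2, 0, 0, 0]))) (lg (evl [x, B, C, H, K, M, y, E, G, J, N, 2, 3, 5] [0, 0, 0, 0, 6, 3, 0, 0, 0, 0, -6, -6, 0, 0])) :=
  hkc12a
    (by
      simp only [ev, evl_cons, evl_nil_left, evl_nil_right, cond_true, cond_false, zpow_neg, zpow_ofNat, zpow_zero, zpow_one]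
      field_simp
      try ring)
    (by
      simp only [ev, evl_cons, evl_nil_left, evl_nil_right, cond_true, cond_false, zpow_neg, zpow_ofNat, zpow_zero, zpow_one]
      field_simp
      try ring)

theorem c12_10 (A0 : x ≠ 0) (B0 : B ≠ 0) (C0 : C ≠ 0) (H0 : H ≠ 0) (K0 : K ≠ 0) (M0 : M ≠ 0) (D0 : y ≠ 0) (E0 : E ≠ 0) (G0 : G ≠ 0) (J0 : J ≠ 0) (N0 : N ≠ 0) :
    hk (sy (-(-(20 * G * J * N ^ 2) / (3 * H * K * M * y ^ 2)) / (2 * (10 * x * E / (3 * B * y))))) (lg (((20 * E * G * J * N / (9 * C * H * K * y ^ 2)) * (-(20 * G * J * N ^ 2) / (3 * H * K * M * y ^ 2)) ^ 3 * (4 * J ^ 2 * N ^ 2 / (K ^ 2 * M * y ^ 2)) * (20 * x ^ 2 * E * G / (3 * B * C * y ^ 2)) ^ 4 * (40 * x * E * G * J * N / (9 * B * C * H * K * y ^ 2)) ^ 2 / ((10 * x * E / (3 * B * y)) * (-(20 * E * G) / (3 * B * C * y)) * (-(40 * x * E * G * J) / (9 * B * C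 * H * y ^ 2)) ^ 2 * (-(40 * x * E * G * J * N ^ 2) / (9 * C * H * K * M * y ^ 3)) ^ 4 * (40 * x * G * J ^ 2 * N ^ 2 / (3 * H * K ^ 2 * M * y ^ 3)) ^ 2)) ^ 2)) =
      hk (sy (ev [x, B, C, H, K, M, y, E, G, J, N, 2, 3, 5] (false, [-1, 1, 0, -1, -1, -1, -1, -1, 1, 1, 2, 0, 0, 0]))) (lg (evl [x, B, C, H, K, M, y, E, G, J, N, 2, 3, 5] [2, -4, 0, 4, 0, 4, 4, -2, 2, -4, -2, -6, 6, 0])) :=
  hkc12a
    (by
      simp only [ev, evl_cons, evl_nil_left, evl_nil_right, cond_true, cond_false, zpow_neg, zpow_ofNat, zpow_zero, zpow_one]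
      field_simp
      try ring)
    (by
      simp only [ev, evl_cons, evl_nil_left, evl_nil_right, cond_true, cond_false, zpow_neg, zpow_ofNat, zpow_zero, zpow_one]
      field_simp
      try ring)

theorem c12_11 (A0 : x ≠ 0) (B0 : B ≠ 0) (C0 : C ≠ 0) (H0 : H ≠ 0) (K0 : K ≠ 0) (M0 : M ≠ 0) (D0 : y ≠ 0) (E0 : E ≠ 0) (G0 : G ≠ 0) (J0 : J ≠ 0) (N0 : N ≠ 0) :
    hk (sy (-(-(20 * G * J * N ^ 2) / (3 * H * K * M * y ^ 2)) / (4 * (10 * x * E / (3 * B * y))))) (lg (((-(20 * E * G) / (3 * B * C * y)) ^ 2 * (40 * x * E * G * J * N / (9 * B * C * H * K * y ^ 2)) ^ 2 * (-(40 * x * E * G * J * N ^ 2) / (9 * C * H * K * M * y ^ 3)) ^ 2 * (40 * x * G * J ^ 2 * N ^ 2 / (3 * H * K ^ 2 * M * y ^ 3)) ^ 6 / ((10 * x * E / (3 * B * y)) ^ 2 * (20 * E * G * J * N / (9 * C * H * K * y ^ 2)) ^ 2 * (-(20 * G * J * N ^ 2) / (3 * H * K * M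 * y ^ 2)) ^ 4 * (4 * J ^ 2 * N ^ 2 / (K ^ 2 * M * y ^ 2)) ^ 3 * (20 * x ^ 2 * E * G / (3 * B * C * y ^ 2)) ^ 2 * (-(40 * x * E * G * J) / (9 * B * C * H * y ^ 2)) ^ 2)) ^ 2)) =
      hk (sy (ev [x, B, C, H, K, M, y, E, G, J, N, 2, 3, 5] (false, [-1, 1, 0, -1, -1, -1, -1, -1, 1, 1, 2, -1, 0, 0]))) (lg (evl [x, B, C, H, K, M, y, E, G, J, N, 2, 3, 5] [4, 4, 0, -4, -8, -2, -4, -4, 4, 4, 4, 8, 0, 0])) :=
  hkc12a
    (by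
      simp only [ev, evl_cons, evl_nil_left, evl_nil_right, cond_true, cond_false, zpow_neg, zpow_ofNat, zpow_zero, zpow_one]
      field_simp
      try ring)
    (by
      simp only [ev, evl_cons, evl_nil_left, evl_nil_right, cond_true, cond_false, zpow_neg, zpow_ofNat, zpow_zero, zpow_one]
      field_simp
      try ring)

theorem c12_12 (A0 : x ≠ 0) (B0 : B ≠ 0) (C0 : C ≠ 0) (H0 : H ≠ 0) (K0 : K ≠ 0) (M0 : M ≠ 0) (D0 : y ≠ 0) (E0 : E ≠ 0) (G0 : G ≠ 0) (J0 : J ≠ 0) (N0 : N ≠ 0) :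
    hk (sy (-(8 * B * G * J * N / (3 * C * H * K * y * E)) / 2)) (lg (((-(4 * x * B * G * J) / (3 * C * H * y * E)) ^ 4 * (-(16 * B ^ 2 * G * J * N ^ 2) / (9 * C * H * K * M * y * E ^ 2)) ^ 6 * (-(16 * B ^ 2 * G * J ^ 2 * N ^ 2) / (3 * C * H * K ^ 2 * M * y * E ^ 2)) ^ 2 * (16 * B ^ 3 * G ^ 2 * J ^ 2 * N ^ 2 / (3 * C * H ^ 2 * K ^ 2 * M * y ^ 2 * E ^ 2)) ^ 2 / ((8 * B * G * J * N ^ 2 / (9 * C * H * K * M * y * E)) ^ 4 * (-(8 * B ^ 2 * G * J ^ 2 * N ^ 2) / (C * H * K ^ 2 * M * y ^ 2 * E)) ^ 2 * (8 * B ^ 2 * G ^ 2 * J ^ 2 * N ^ 2 / (3 * H ^ 2 * K ^ 2 * M * y ^ 2 * E ^ 2)) * (4 * B ^ 2 * G * J / (3 * C * H * E ^ 2)) ^ 2 * (-(8 * x * B ^ 2 * G * J * N) / (3 * C * H * K * y * E ^ 2)) ^ 6)) ^ 2)) =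
      hk (sy (ev [x, B, C, H, K, M, y, E, G, J, N, 2, 3, 5] (true, [0, 1, -1, -1, -1, 0, -1, -1, 1, 1, 1, 2, -1, 0]))) (lg (evl [x, B, C, H, K, M, y, E, G, J, N, 2, 3, 5] [-4, 0, 0, 0, 4, -6, 0, 0, 0, 0, 0, 10, -6, 0])) :=
  hkc12a
    (by
      simp only [ev, evl_cons, evl_nil_left, evl_nil_right, cond_true, cond_false, zpow_neg, zpow_ofNat, zpow_zero, zpow_one]
      field_simp
      try ring)
    (by
      simp only [ev, evl_cons, evl_nil_left, evl_nil_right, cond_true, cond_false, zpow_neg, zpow_ofNat, zpow_zero, zpow_one]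
      field_simp
      try ring)

theorem c12_13 (A0 : x ≠ 0) (B0 : B ≠ 0) (C0 : C ≠ 0) (H0 : H ≠ 0) (K0 : K ≠ 0) (M0 : M ≠ 0) (D0 : y ≠ 0) (E0 : E ≠ 0) (G0 : G ≠ 0) (J0 : J ≠ 0) (N0 : N ≠ 0) :
    hk (sy ((8 * B ^ 2 * G ^ 2 * J ^ 2 * N ^ 2 / (3 * H ^ 2 * K ^ 2 * M * y ^ 2 * E ^ 2)) / 4)) (lg ((((-(4 * x * B * G * J) / (3 * C * H * y * E)) ^ 2 * (-(16 * B ^ 2 * G * J * N ^ 2) / (9 * C * H * K * M * y * E ^ 2)) ^ 2 * (-(16 * B ^ 2 * G * J ^ 2 * N ^ 2) / (3 * C * H * K ^ 2 * M * y * E ^ 2)) ^ 2 * (16 * B ^ 3 * G ^ 2 * J ^ 2 * N ^ 2 / (3 * C * H ^ 2 * K ^ 2 * M * y ^ 2 * E ^ 2)) ^ 2 / ((8 * B * G * J * N ^ 2 / (9 * C * H * K * M * y * E)) ^ 2 * (-(8 * B ^ 2 * G * J ^ 2 * N ^ 2) / (C * H * K ^ 2 * M * y ^ 2 * E)) ^ 2 * (8 * B ^ 2 * G ^ 2 * J ^ 2 * N ^ 2 / (3 * H ^ 2 * K ^ 2 * M * y ^ 2 * E ^ 2)) * (4 * B ^ 2 * G * J / (3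 * C * H * E ^ 2)) ^ 2 * (-(8 * x * B ^ 2 * G * J * N) / (3 * C * H * K * y * E ^ 2)) ^ 2)) ^ 3)⁻¹)) =
      hk (sy (ev [x, B, C, H, K, M, y, E, G, J, N, 2, 3, 5] (false, [0, 2, 0, -2, -2, -1, -2, -2, 2, 2, 2, 1, -1, 0]))) (lg (evl [x, B, C, H, K, M, y, E, G, J, N, 2, 3, 5] [0, 0, 0, 0, 0, 3, 0, 0, 0, 0, 0, -9, 3, 0])) :=
  hkc12a
    (by
      simp only [ev, evl_cons, evl_nil_left, evl_nil_right, cond_true, cond_false, zpow_neg, zpow_ofNat, zpow_zero, zpow_one]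
      field_simp
      try ring)
    (by
      simp only [ev, evl_cons, evl_nil_left, evl_nil_right, cond_true, cond_false, zpow_neg, zpow_ofNat, zpow_zero, zpow_one]
      field_simp
      try ring)

theorem c12_14 (A0 : x ≠ 0) (B0 : B ≠ 0) (C0 : C ≠ 0) (H0 : H ≠ 0) (K0 : K ≠ 0) (M0 : M ≠ 0) (D0 : y ≠ 0) (E0 : E ≠ 0) (G0 : G ≠ 0) (J0 : J ≠ 0) (N0 : N ≠ 0) :
    hk (sy (-(-(8 * B ^ 2 * G * J ^ 2 * N ^ 2) / (C * H * K ^ 2 * M * y ^ 2 * E)) / (2 * (2 * B * G / (C * E))))) (lg (((8 * B * G * J * N ^ 2 / (9 * C * H * K * M * y * E)) * (-(8 * B ^ 2 * G * J ^ 2 * N ^ 2) / (C * H * K ^ 2 * M * y ^ 2 * E)) ^ 3 * (8 * B ^ 2 * G ^ 2 * J ^ 2 * N ^ 2 / (3 * H ^ 2 * K ^ 2 * M * y ^ 2 * E ^ 2)) * (4 * B ^ 2 * G * J / (3 * C * H * E ^ 2)) ^ 4 * (-(16 * B ^ 2 * G * J * N ^ 2) / (9 * C * H * K * M * y * E ^ 2)) ^ 2 / ((2 * B * G / (C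 * E)) * (-(4 * x * B * G * J) / (3 * C * H * y * E)) * (-(8 * x * B ^ 2 * G * J * N) / (3 * C * H * K * y * E ^ 2)) ^ 2 * (-(16 * B ^ 2 * G * J ^ 2 * N ^ 2) / (3 * C * H * K ^ 2 * M * y * E ^ 2)) ^ 4 * (16 * B ^ 3 * G ^ 2 * J ^ 2 * N ^ 2 / (3 * C * H ^ 2 * K ^ 2 * M * y ^ 2 * E ^ 2)) ^ 2)) ^ 2)) =
      hk (sy (ev [x, B, C, H, K, M, y, E, G, J, N, 2, 3, 5] (false, [0, 1, 0, -1, -2, -1, -2, 0, 0, 2, 2, 1, 0, 0]))) (lg (evl [x, B, C, H, K, M, y, E, G, J, N, 2, 3, 5] [-6, 2, 0, -2, 6, -2, 0, 0, 0, 0, 0, -4, -4, 0])) :=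
  hkc12a
    (by
      simp only [ev, evl_cons, evl_nil_left, evl_nil_right, cond_true, cond_false, zpow_neg, zpow_ofNat, zpow_zero, zpow_one]
      field_simp
      try ring)
    (by
      simp only [ev, evl_cons, evl_nil_left, evl_nil_right, cond_true, cond_false, zpow_neg, zpow_ofNat, zpow_zero, zpow_one]
      field_simp
      try ring)

theorem c12_15 (A0 : x ≠ 0) (B0 : B ≠ 0) (C0 : C ≠ 0) (H0 : H ≠ 0) (K0 : K ≠ 0) (M0 : M ≠ 0) (D0 : y ≠ 0) (E0 : E ≠ 0) (G0 : G ≠ 0) (J0 : J ≠ 0) (N0 : N ≠ 0) :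
    hk (sy (-(-(8 * B ^ 2 * G * J ^ 2 * N ^ 2) / (C * H * K ^ 2 * M * y ^ 2 * E)) / (4 * (2 * B * G / (C * E))))) (lg (((-(4 * x * B * G * J) / (3 * C * H * y * E)) ^ 2 * (-(16 * B ^ 2 * G * J * N ^ 2) / (9 * C * H * K * M * y * E ^ 2)) ^ 2 * (-(16 * B ^ 2 * G * J ^ 2 * N ^ 2) / (3 * C * H * K ^ 2 * M * y * E ^ 2)) ^ 2 * (16 * B ^ 3 * G ^ 2 * J ^ 2 * N ^ 2 / (3 * C * H ^ 2 * K ^ 2 * M * y ^ 2 * E ^ 2)) ^ 6 / ((2 * B * G / (C * E)) ^ 2 * (8 * B * G * J * N ^ 2 / (9 * C * H * K * M * y * E)) ^ 2 * (-(8 * B ^ 2 * G * J ^ 2 * N ^ 2) / (C * H * K ^ 2 * M * y ^ 2 * E)) ^ 4 * (8 * B ^ 2 * G ^ 2 * J ^ 2 * N ^ 2 / (3 * H ^ 2 * K ^ 2 * M * y ^ 2 * E ^ 2)) ^ 3 * (4 * B ^ 2 * G * J / (3 * C * H * E ^ 2)) ^ 2 * (-(8 * x * B ^ 2 * G * J * N) / (3 * C * H * K * y * E ^ 2)) ^ 2)) ^ 2)) =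
      hk (sy (ev [x, B, C, H, K, M, y, E, G, J, N, 2, 3, 5] (false, [0, 1, 0, -1, -2, -1, -2, 0, 0, 2, 2, 0, 0, 0]))) (lg (evl [x, B, C, H, K, M, y, E, G, J, N, 2, 3, 5] [0, 4, 0, -4, 0, -2, 0, 0, 0, 0, 0, 10, -6, 0])) :=
  hkc12a
    (by
      simp only [ev, evl_cons, evl_nil_left, evl_nil_right, cond_true, cond_false, zpow_neg, zpow_ofNat, zpow_zero, zpow_one]
      field_simp
      try ring)
    (by
      simp only [ev, evl_cons, evl_nil_left, evl_nil_right, cond_true, cond_false, zpow_neg, zpow_ofNat, zpow_zero, zpow_one]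
      field_simp
      try ring)

end eq

end Pool.Agent.FK4
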