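import Pool.Agent.Lib_helper54.FAM.LK12h

set_option autoImplicit false
set_option linter.unusedSectionVars false
set_option linter.unusedVariables false
set_option linter.unusedSimpArgs false
set_option linter.unusedTactic false
set_option linter.unreachableTactic false
set_option maxRecDepth 100000

/-!
# The special curve with a point of order twelve: monomials, part 3
-/

open scoped TensorProduct

namespace Pool.Agent.FK4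

open Pool.Agent.MK4 Pool.Agent.TN Pool.Agent.KC72

section eq

variable {F : Type*} [Field F] [CharZero F] {x y B C H K M E G J N : F}

theorem c12_16 (A0 : x ≠ 0) (B0 : B ≠ 0) (C0 : C ≠ 0) (H0 : H ≠ 0) (K0 : K ≠ 0) (M0 : M ≠ 0) (D0 : y ≠ 0) (E0 : E ≠ 0) (G0 : G ≠ 0) (J0 : J ≠ 0) (N0 : N ≠ 0) :
    hk (sy (-(-(8 * x * B * C * J * N ^ 2) / (9 * H * K * M * y * E * G)) / 2)) (lg (((-(20 * B * C * J * N) / (9 * H * K * E * G)) ^ 4 * (80 * x * B * C ^ 2 * J ^ 2 * N ^ 2 / (27 * H * K ^ 2 * M * y * E * G ^ 2)) ^ 6 * (800 * B * C ^ 2 * J ^ 2 * N ^ 2 / (81 * H ^ 2 * K ^ 2 * M * y * E * G)) ^ 2 * (160 * B * C * J ^ 2 * N ^ 2 / (27 * H ^ 2 * K ^ 2 * M * y * G)) ^ 2 / ((-(80 * B * C * J ^ 2 * N ^ 2) / (27 * H * K ^ 2 * M * y * E * G)) ^ 4 * (-(80 * B * C * J ^ 2 * N ^ 2) / (9 * H ^ 2 * K ^ 2 * M * y * E)) ^ 2 * (16 * B ^ 2 *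 J ^ 2 * N ^ 2 / (9 * H ^ 2 * K ^ 2 * M * y ^ 2)) * (100 * C ^ 2 * J * N / (27 * H * K * G ^ 2)) ^ 2 * (40 * B * C ^ 2 * J * N ^ 2 / (27 * H * K * M * E * G ^ 2)) ^ 6)) ^ 2)) =
      hk (sy (ev [x, B, C, H, K, M, y, E, G, J, N, 2, 3, 5] (false, [1, 1, 1, -1, -1, -1, -1, -1, -1, 1, 2, 2, -2, 0]))) (lg (evl [x, B, C, H, K, M, y, E, G, J, N, 2, 3, 5] [12, 0, 0, 0, -4, 6, -4, 0, 0, 4, -8, 4, 4, 0])) :=
  hkc12a
    (by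
      simp only [ev, evl_cons, evl_nil_left, evl_nil_right, cond_true, cond_false, zpow_neg, zpow_ofNat, zpow_zero, zpow_one]
      field_simp
      try ring)
    (by
      simp only [ev, evl_cons, evl_nil_left, evl_nil_right, cond_true, cond_false, zpow_neg, zpow_ofNat, zpow_zero, zpow_one]
      field_simp
      try ring)

theorem c12_17 (A0 : x ≠ 0) (B0 : B ≠ 0) (C0 : C ≠ 0) (H0 : H ≠ 0) (K0 : K ≠ 0) (M0 : M ≠ 0) (D0 : y ≠ 0) (E0 : E ≠ 0) (G0 : G ≠ 0) (J0 : J ≠ 0) (N0 : N ≠ 0) :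
    hk (sy ((16 * B ^ 2 * J ^ 2 * N ^ 2 / (9 * H ^ 2 * K ^ 2 * M * y ^ 2)) / 4)) (lg ((((-(20 * B * C * J * N) / (9 * H * K * E * G)) ^ 2 * (80 * x * B * C ^ 2 * J ^ 2 * N ^ 2 / (27 * H * K ^ 2 * M * y * E * G ^ 2)) ^ 2 * (800 * B * C ^ 2 * J ^ 2 * N ^ 2 / (81 * H ^ 2 * K ^ 2 * M * y * E * G)) ^ 2 * (160 * B * C * J ^ 2 * N ^ 2 / (27 * H ^ 2 * K ^ 2 * M * y * G)) ^ 2 / ((-(80 * B * C * J ^ 2 * N ^ 2) / (27 * H * K ^ 2 * M * y * E * G)) ^ 2 * (-(80 * B * C * J ^ 2 * N ^ 2) / (9 * H ^ 2 * K ^ 2 * M * y * E)) ^ 2 * (16 * B ^ 2 * J ^ 2 * N ^ 2 / (9 * H ^ 2 * K ^ 2 * M * y ^ 2)) * (100 * C ^ 2 * J * N / (27 * H * K * G ^ 2)) ^ 2 * (40 * B * C ^ 2 * J * N ^ 2 / (27 * H * K * M * E * G ^ 2)) ^ 2)) ^ 3)⁻¹)) =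
      hk (sy (ev [x, B, C, H, K, M, y, E, G, J, N, 2, 3, 5] (false, [0, 2, 0, -2, -2, -1, -2, 0, 0, 2, 2, 2, -2, 0]))) (lg (evl [x, B, C, H, K, M, y, E, G, J, N, 2, 3, 5] [-6, 0, 0, 0, 0, -3, 0, 0, 0, 0, 6, -6, 0, 0])) :=
  hkc12a
    (by
      simp only [ev, evl_cons, evl_nil_left, evl_nil_right, cond_true, cond_false, zpow_neg, zpow_ofNat, zpow_zero, zpow_one]
      field_simp
      try ring)
    (by
      simp only [ev, evl_cons, evl_nil_left, evl_nil_right, cond_true, cond_false, zpow_neg, zpow_ofNat, zpow_zero, zpow_one]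
      field_simp
      try ring)

theorem c12_18 (A0 : x ≠ 0) (B0 : B ≠ 0) (C0 : C ≠ 0) (H0 : H ≠ 0) (K0 : K ≠ 0) (M0 : M ≠ 0) (D0 : y ≠ 0) (E0 : E ≠ 0) (G0 : G ≠ 0) (J0 : J ≠ 0) (N0 : N ≠ 0) :
    hk (sy (-(-(80 * B * C * J ^ 2 * N ^ 2) / (9 * H ^ 2 * K ^ 2 * M * y * E)) / (2 * (10 * C * J / (9 * H * G))))) (lg (((-(80 * B * C * J ^ 2 * N ^ 2) / (27 * H * K ^ 2 * M * y * E * G)) * (-(80 * B * C * J ^ 2 * N ^ 2) / (9 * H ^ 2 * K ^ 2 * M * y * E)) ^ 3 * (16 * B ^ 2 * J ^ 2 * N ^ 2 / (9 * H ^ 2 * K ^ 2 * M * y ^ 2)) * (100 * C ^ 2 * J * N / (27 * H * K * G ^ 2)) ^ 4 * (80 * x * B * C ^ 2 * J ^ 2 * N ^ 2 / (27 * H * K ^ 2 * M * y * E * G ^ 2)) ^ 2 / ((10 * C * J / (9 * H * G)) * (-(20 * B * C * J * N) / (9 * H * K * E * G)) * (40 * B * C ^ 2 * J * N ^ 2 / (27 * H * K * M * E * G ^ 2)) ^ 2 * (800 * B * C ^ 2 * J ^ 2 * N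 ^ 2 / (81 * H ^ 2 * K ^ 2 * M * y * E * G)) ^ 4 * (160 * B * C * J ^ 2 * N ^ 2 / (27 * H ^ 2 * K ^ 2 * M * y * G)) ^ 2)) ^ 2)) =
      hk (sy (ev [x, B, C, H, K, M, y, E, G, J, N, 2, 3, 5] (false, [0, 1, 0, -1, -2, -1, -1, -1, 1, 1, 2, 2, 0, 0]))) (lg (evl [x, B, C, H, K, M, y, E, G, J, N, 2, 3, 5] [4, -2, 0, 2, -6, 2, -4, 2, -2, 4, 2, -6, 6, 0])) :=
  hkc12a
    (by
      simp only [ev, evl_cons, evl_nil_left, evl_nil_right, cond_true, cond_false, zpow_neg, zpow_ofNat, zpow_zero, zpow_one]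
      field_simp
      try ring)
    (by
      simp only [ev, evl_cons, evl_nil_left, evl_nil_right, cond_true, cond_false, zpow_neg, zpow_ofNat, zpow_zero, zpow_one]
      field_simp
      try ring)

theorem c12_19 (A0 : x ≠ 0) (B0 : B ≠ 0) (C0 : C ≠ 0) (H0 : H ≠ 0) (K0 : K ≠ 0) (M0 : M ≠ 0) (D0 : y ≠ 0) (E0 : E ≠ 0) (G0 : G ≠ 0) (J0 : J ≠ 0) (N0 : N ≠ 0) :
    hk (sy (-(-(80 * B * C * J ^ 2 * N ^ 2) / (9 * H ^ 2 * K ^ 2 * M * y * E)) / (4 * (10 * C * J / (9 * H * G))))) (lg (((-(20 * B * C * J * N) / (9 * H * K * E * G)) ^ 2 * (80 * x * B * C ^ 2 * J ^ 2 * N ^ 2 / (27 * H * K ^ 2 * M * y * E * G ^ 2)) ^ 2 * (800 * B * C ^ 2 * J ^ 2 * N ^ 2 / (81 * H ^ 2 * K ^ 2 * M * y * E * G)) ^ 2 * (160 * B * C * J ^ 2 * N ^ 2 / (27 * H ^ 2 * K ^ 2 * M * y * G)) ^ 6 / ((10 * C * J / (9 * H * G)) ^ 2 * (-(80 * B * C * J ^ 2 * N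 ^ 2) / (27 * H * K ^ 2 * M * y * E * G)) ^ 2 * (-(80 * B * C * J ^ 2 * N ^ 2) / (9 * H ^ 2 * K ^ 2 * M * y * E)) ^ 4 * (16 * B ^ 2 * J ^ 2 * N ^ 2 / (9 * H ^ 2 * K ^ 2 * M * y ^ 2)) ^ 3 * (100 * C ^ 2 * J * N / (27 * H * K * G ^ 2)) ^ 2 * (40 * B * C ^ 2 * J * N ^ 2 / (27 * H * K * M * E * G ^ 2)) ^ 2)) ^ 2)) =
      hk (sy (ev [x, B, C, H, K, M, y, E, G, J, N, 2, 3, 5] (false, [0, 1, 0, -1, -2, -1, -1, -1, 1, 1, 2, 1, 0, 0]))) (lg (evl [x, B, C, H, K, M, y, E, G, J, N, 2, 3, 5] [4, -4, 0, 4, 0, 2, 4, 4, -4, -4, -4, 8, 0, 0])) :=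
  hkc12a
    (by
      simp only [ev, evl_cons, evl_nil_left, evl_nil_right, cond_true, cond_false, zpow_neg, zpow_ofNat, zpow_zero, zpow_one]
      field_simp
      try ring)
    (by
      simp only [ev, evl_cons, evl_nil_left, evl_nil_right, cond_true, cond_false, zpow_neg, zpow_ofNat, zpow_zero, zpow_one]
      field_simp
      try ring)

theorem c12_20 (A0 : x ≠ 0) (B0 : B ≠ 0) (C0 : C ≠ 0) (H0 : H ≠ 0) (K0 : K ≠ 0) (M0 : M ≠ 0) (D0 : y ≠ 0) (E0 : E ≠ 0) (G0 : G ≠ 0) (J0 : J ≠ 0) (N0 : N ≠ 0) :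
    hk (sy (-(8 * B * C * H * N ^ 2 / (K ^ 2 * M * E * G)) / 2)) (lg (((20 * C * H * N ^ 2 / (3 * K * M * G * J)) ^ 4 * (-(80 * B * C * H * N ^ 2) / (3 * K ^ 2 * M * E * J)) ^ 6 * (-(160 * x * B * H * N ^ 2) / (3 * K ^ 2 * M * y * J)) ^ 2 * (-(320 * H * N ^ 2) / (3 * K ^ 2 * M * J)) ^ 2 / ((80 * x * B * C * N ^ 2 / (9 * K ^ 2 * M * y * E)) ^ 4 * (160 * B * N ^ 2 / (3 * K ^ 2 * M * y)) ^ 2 * (32 * N ^ 2 / (3 * K ^ 2 * M)) * (-(20 * H ^ 2 * N ^ 2) / (K * M * J ^ 2)) ^ 2 * (-(40 * C * H ^ 2 * N ^ 2) / (K ^ 2 * M * G * J)) ^ 6)) ^ 2)) =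
      hk (sy (ev [x, B, C, H, K, M, y, E, G, J, N, 2, 3, 5] (true, [0, 1, 1, 1, -2, -1, 0, -1, -1, 0, 2, 2, 0, 0]))) (lg (evl [x, B, C, H, K, M, y, E, G, J, N, 2, 3, 5] [-4, 4, 0, -4, 8, 2, 8, -4, 4, -8, -4, 2, -6, 0])) :=
  hkc12a
    (by
      simp only [ev, evl_cons, evl_nil_left, evl_nil_right, cond_true, cond_false, zpow_neg, zpow_ofNat, zpow_zero, zpow_one]
      field_simp
      try ring)
    (by
      simp only [ev, evl_cons, evl_nil_left, evl_nil_right, cond_true, cond_false, zpow_neg, zpow_ofNat, zpow_zero, zpow_one]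
      field_simp
      try ring)

theorem c12_21 (A0 : x ≠ 0) (B0 : B ≠ 0) (C0 : C ≠ 0) (H0 : H ≠ 0) (K0 : K ≠ 0) (M0 : M ≠ 0) (D0 : y ≠ 0) (E0 : E ≠ 0) (G0 : G ≠ 0) (J0 : J ≠ 0) (N0 : N ≠ 0) :
    hk (sy ((32 * N ^ 2 / (3 * K ^ 2 * M)) / 4)) (lg ((((20 * C * H * N ^ 2 / (3 * K * M * G * J)) ^ 2 * (-(80 * B * C * H * N ^ 2) / (3 * K ^ 2 * M * E * J)) ^ 2 * (-(160 * x * B * H * N ^ 2) / (3 * K ^ 2 * M * y * J)) ^ 2 * (-(320 * H * N ^ 2) / (3 * K ^ 2 * M * J)) ^ 2 / ((80 * x * B * C * N ^ 2 / (9 * K ^ 2 * M * y * E)) ^ 2 * (160 * B * N ^ 2 / (3 * K ^ 2 * M * y)) ^ 2 * (32 * N ^ 2 / (3 * K ^ 2 * M)) * (-(20 * H ^ 2 * N ^ 2) / (K * M * J ^ 2)) ^ 2 * (-(40 * C * H ^ 2 * N ^ 2) / (K ^ 2 * M * G * J)) ^ 2)) ^ 3)⁻¹)) =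
      hk (sy (ev [x, B, C, H, K, M, y, E, G, J, N, 2, 3, 5] (false, [0, 0, 0, 0, -2, -1, 0, 0, 0, 0, 2, 3, -1, 0]))) (lg (evl [x, B, C, H, K, M, y, E, G, J, N, 2, 3, 5] [0, 0, 0, 0, -6, -3, -6, 0, 0, 6, 6, -3, 3, 0])) :=
  hkc12a
    (by
      simp only [ev, evl_cons, evl_nil_left, evl_nil_right, cond_true, cond_false, zpow_neg, zpow_ofNat, zpow_zero, zpow_one]
      field_simp
      try ring)
    (by
      simp only [ev, evl_cons, evl_nil_left, evl_nil_right, cond_true, cond_false, zpow_neg, zpow_ofNat, zpow_zero, zpow_one]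
      field_simp
      try ring)

theorem c12_22 (A0 : x ≠ 0) (B0 : B ≠ 0) (C0 : C ≠ 0) (H0 : H ≠ 0) (K0 : K ≠ 0) (M0 : M ≠ 0) (D0 : y ≠ 0) (E0 : E ≠ 0) (G0 : G ≠ 0) (J0 : J ≠ 0) (N0 : N ≠ 0) :
    hk (sy (-(160 * B * N ^ 2 / (3 * K ^ 2 * M * y)) / (2 * (10 * H * N / (K * J))))) (lg (((80 * x * B * C * N ^ 2 / (9 * K ^ 2 * M * y * E)) * (160 * B * N ^ 2 / (3 * K ^ 2 * M * y)) ^ 3 * (32 * N ^ 2 / (3 * K ^ 2 * M)) * (-(20 * H ^ 2 * N ^ 2) / (K * M * J ^ 2)) ^ 4 * (-(80 * B * C * H * N ^ 2) / (3 * K ^ 2 * M * E * J)) ^ 2 / ((10 * H * N / (K * J)) * (20 * C * H * N ^ 2 / (3 * K * M * G * J)) * (-(40 * C * H ^ 2 * N ^ 2) / (K ^ 2 * M * G * J)) ^ 2 * (-(160 * x * B * H * N ^ 2) / (3 * K ^ 2 * M * y * J)) ^ 4 * (-(320 * H * N ^ 2) / (3 * K ^ 2 * M * J)) ^ 2)) ^ 2)) =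
      hk (sy (ev [x, B, C, H, K, M, y, E, G, J, N, 2, 3, 5] (true, [0, 1, 0, -1, -1, -1, -1, 0, 0, 1, 1, 3, -1, 0]))) (lg (evl [x, B, C, H, K, M, y, E, G, J, N, 2, 3, 5] [-6, 4, 0, -4, 0, -4, 0, -6, 6, 0, 6, -2, -2, 0])) :=
  hkc12a
    (by
      simp only [ev, evl_cons, evl_nil_left, evl_nil_right, cond_true, cond_false, zpow_neg, zpow_ofNat, zpow_zero, zpow_one]
      field_simp
      try ring)
    (by
      simp only [ev, evl_cons, evl_nil_left, evl_nil_right, cond_true, cond_false, zpow_neg, zpow_ofNat, zpow_zero, zpow_one]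
      field_simp
      try ring)

theorem c12_23 (A0 : x ≠ 0) (B0 : B ≠ 0) (C0 : C ≠ 0) (H0 : H ≠ 0) (K0 : K ≠ 0) (M0 : M ≠ 0) (D0 : y ≠ 0) (E0 : E ≠ 0) (G0 : G ≠ 0) (J0 : J ≠ 0) (N0 : N ≠ 0) :
    hk (sy (-(160 * B * N ^ 2 / (3 * K ^ 2 * M * y)) / (4 * (10 * H * N / (K * J))))) (lg (((20 * C * H * N ^ 2 / (3 * K * M * G * J)) ^ 2 * (-(80 * B * C * H * N ^ 2) / (3 * K ^ 2 * M * E * J)) ^ 2 * (-(160 * x * B * H * N ^ 2) / (3 * K ^ 2 * M * y * J)) ^ 2 * (-(320 * H * N ^ 2) / (3 * K ^ 2 * M * J)) ^ 6 / ((10 * H * N / (K * J)) ^ 2 * (80 * x * B * C * N ^ 2 / (9 * K ^ 2 * M * y * E)) ^ 2 * (160 * B * N ^ 2 / (3 * K ^ 2 * M * y)) ^ 4 * (32 * N ^ 2 / (3 * K ^ 2 * M)) ^ 3 * (-(20 * H ^ 2 * N ^ 2) / (K * M * J ^ 2)) ^ 2 * (-(40 * C * H ^ 2 * N ^ 2) / (K ^ 2 * M * G * J)) ^ 2)) ^ 2)) =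
      hk (sy (ev [x, B, C, H, K, M, y, E, G, J, N, 2, 3, 5] (true, [0, 1, 0, -1, -1, -1, -1, 0, 0, 1, 1, 2, -1, 0]))) (lg (evl [x, B, C, H, K, M, y, E, G, J, N, 2, 3, 5] [0, -4, 0, 4, 8, 2, 8, 0, 0, -8, -8, 6, -2, 0])) :=
  hkc12a
    (by
      simp only [ev, evl_cons, evl_nil_left, evl_nil_right, cond_true, cond_false, zpow_neg, zpow_ofNat, zpow_zero, zpow_one]
      field_simp
      try ring)
    (by
      simp only [ev, evl_cons, evl_nil_left, evl_nil_right, cond_true, cond_false, zpow_neg, zpow_ofNat, zpow_zero, zpow_one]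
      field_simp
      try ring)

end eq

end Pool.Agent.FK4
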