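import Pool.Agent.Lib_helper54.FAM.LK12h

set_option autoImplicit false
set_option linter.unusedSectionVars false
set_option linter.unusedVariables false
set_option linter.unusedSimpArgs false
set_option linter.unusedTactic false
set_option linter.unreachableTactic false
set_option maxRecDepth 100000

/-!
# The special curve with a point of order twelve: monomials, part 4
-/

open scoped TensorProduct

namespace Pool.Agent.FK4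

open Pool.Agent.MK4 Pool.Agent.TN Pool.Agent.KC72

section eq

variable {F : Type*} [Field F] [CharZero F] {x y B C H K M E G J N : F}

theorem c12_24 (A0 : x ≠ 0) (B0 : B ≠ 0) (C0 : C ≠ 0) (H0 : H ≠ 0) (K0 : K ≠ 0) (M0 : M ≠ 0) (D0 : y ≠ 0) (E0 : E ≠ 0) (G0 : G ≠ 0) (J0 : J ≠ 0) (N0 : N ≠ 0) :
    hk (sy (-(-(8 * C) / (3 * M)) / 2)) (lg (((-(4 * H) / M) ^ 4 * (16 * K * E / (9 * M * N)) ^ 6 * (32 * K * y / (9 * M * N)) ^ 2 * (-(64 * x * K) / (9 * M * N)) ^ 2 / ((-(16 * B) / (9 * M)) ^ 4 * (-(32 * x) / (3 * M)) ^ 2 * (64 / (9 * M)) * (4 * K * J / (3 * M * N)) ^ 2 * (8 * K * G / (3 * M * N)) ^ 6)) ^ 2)) =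
      hk (sy (ev [x, B, C, H, K, M, y, E, G, J, N, 2, 3, 5] (false, [0, 0, 1, 0, 0, -1, 0, 0, 0, 0, 0, 2, -1, 0]))) (lg (evl [x, B, C, H, K, M, y, E, G, J, N, 2, 3, 5] [0, -8, 0, 8, 4, 2, 4, 12, -12, -4, -4, 0, 0, 0])) :=
  hkc12a
    (by
      simp only [ev, evl_cons, evl_nil_left, evl_nil_right, cond_true, cond_false, zpow_neg, zpow_ofNat, zpow_zero, zpow_one]
      field_simp
      try ring)
    (by
      simp only [ev, evl_cons, evl_nil_left, evl_nil_right, cond_true, cond_false, zpow_neg, zpow_ofNat, zpow_zero, zpow_one]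
      field_simp
      try ring)

theorem c12_25 (A0 : x ≠ 0) (B0 : B ≠ 0) (C0 : C ≠ 0) (H0 : H ≠ 0) (K0 : K ≠ 0) (M0 : M ≠ 0) (D0 : y ≠ 0) (E0 : E ≠ 0) (G0 : G ≠ 0) (J0 : J ≠ 0) (N0 : N ≠ 0) :
    hk (sy ((64 / (9 * M)) / 4)) (lg ((((-(4 * H) / M) ^ 2 * (16 * K * E / (9 * M * N)) ^ 2 * (32 * K * y / (9 * M * N)) ^ 2 * (-(64 * x * K) / (9 * M * N)) ^ 2 / ((-(16 * B) / (9 * M)) ^ 2 * (-(32 * x) / (3 * M)) ^ 2 * (64 / (9 * M)) * (4 * K * J / (3 * M * N)) ^ 2 * (8 * K * G / (3 * M * N)) ^ 2)) ^ 3)⁻¹)) =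
      hk (sy (ev [x, B, C, H, K, M, y, E, G, J, N, 2, 3, 5] (false, [0, 0, 0, 0, 0, -1, 0, 0, 0, 0, 0, 4, -2, 0]))) (lg (evl [x, B, C, H, K, M, y, E, G, J, N, 2, 3, 5] [0, 6, 0, -6, -6, -3, -6, -6, 6, 6, 6, 0, 0, 0])) :=
  hkc12a
    (by
      simp only [ev, evl_cons, evl_nil_left, evl_nil_right, cond_true, cond_false, zpow_neg, zpow_ofNat, zpow_zero, zpow_one]
      field_simp
      try ring)
    (by
      simp only [ev, evl_cons, evl_nil_left, evl_nil_right, cond_true, cond_false, zpow_neg, zpow_ofNat, zpow_zero, zpow_one]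
      field_simp
      try ring)

theorem c12_26 (A0 : x ≠ 0) (B0 : B ≠ 0) (C0 : C ≠ 0) (H0 : H ≠ 0) (K0 : K ≠ 0) (M0 : M ≠ 0) (D0 : y ≠ 0) (E0 : E ≠ 0) (G0 : G ≠ 0) (J0 : J ≠ 0) (N0 : N ≠ 0) :
    hk (sy (-(-(32 * x) / (3 * M)) / (2 * (-(2 * K) / (3 * M))))) (lg (((-(16 * B) / (9 * M)) * (-(32 * x) / (3 * M)) ^ 3 * (64 / (9 * M)) * (4 * K * J / (3 * M * N)) ^ 4 * (16 * K * E / (9 * M * N)) ^ 2 / ((-(2 * K) / (3 * M)) * (-(4 * H) / M) * (8 * K * G / (3 * M * N)) ^ 2 * (32 * K * y / (9 * M * N)) ^ 4 * (-(64 * x * K) / (9 * M * N)) ^ 2)) ^ 2)) =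
      hk (sy (ev [x, B, C, H, K, M, y, E, G, J, N, 2, 3, 5] (true, [1, 0, 0, 0, -1, 0, 0, 0, 0, 0, 0, 3, 0, 0]))) (lg (evl [x, B, C, H, K, M, y, E, G, J, N, 2, 3, 5] [2, 2, 0, -2, -6, -2, -8, 4, -4, 8, 4, 0, 0, 0])) :=
  hkc12a
    (by
      simp only [ev, evl_cons, evl_nil_left, evl_nil_right, cond_true, cond_false, zpow_neg, zpow_ofNat, zpow_zero, zpow_one]
      field_simp
      try ring)
    (by
      simp only [ev, evl_cons, evl_nil_left, evl_nil_right, cond_true, cond_false, zpow_neg, zpow_ofNat, zpow_zero, zpow_one]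
      field_simp
      try ring)

theorem c12_27 (A0 : x ≠ 0) (B0 : B ≠ 0) (C0 : C ≠ 0) (H0 : H ≠ 0) (K0 : K ≠ 0) (M0 : M ≠ 0) (D0 : y ≠ 0) (E0 : E ≠ 0) (G0 : G ≠ 0) (J0 : J ≠ 0) (N0 : N ≠ 0) :
    hk (sy (-(-(32 * x) / (3 * M)) / (4 * (-(2 * K) / (3 * M))))) (lg (((-(4 * H) / M) ^ 2 * (16 * K * E / (9 * M * N)) ^ 2 * (32 * K * y / (9 * M * N)) ^ 2 * (-(64 * x * K) / (9 * M * N)) ^ 6 / ((-(2 * K) / (3 * M)) ^ 2 * (-(16 * B) / (9 * M)) ^ 2 * (-(32 * x) / (3 * M)) ^ 4 * (64 / (9 * M)) ^ 3 * (4 * K * J / (3 * M * N)) ^ 2 * (8 * K * G / (3 * M * N)) ^ 2)) ^ 2)) =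
      hk (sy (ev [x, B, C, H, K, M, y, E, G, J, N, 2, 3, 5] (true, [1, 0, 0, 0, -1, 0, 0, 0, 0, 0, 0, 2, 0, 0]))) (lg (evl [x, B, C, H, K, M, y, E, G, J, N, 2, 3, 5] [4, -4, 0, 4, 8, 6, 4, 4, -4, -4, -12, 0, 0, 0])) :=
  hkc12a
    (by
      simp only [ev, evl_cons, evl_nil_left, evl_nil_right, cond_true, cond_false, zpow_neg, zpow_ofNat, zpow_zero, zpow_one]
      field_simp
      try ring)
    (by
      simp only [ev, evl_cons, evl_nil_left, evl_nil_right, cond_true, cond_false, zpow_neg, zpow_ofNat, zpow_zero, zpow_one]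
      field_simp
      try ring)

theorem c12_28 (A0 : x ≠ 0) (B0 : B ≠ 0) (C0 : C ≠ 0) (H0 : H ≠ 0) (K0 : K ≠ 0) (M0 : M ≠ 0) (D0 : y ≠ 0) (E0 : E ≠ 0) (G0 : G ≠ 0) (J0 : J ≠ 0) (N0 : N ≠ 0) :
    hk (sy (-(8 * M * E * G / (C * N ^ 2)) / 2)) (lg (((20 * M * G * J / (3 * H * N ^ 2)) ^ 4 * (80 * M ^ 2 * y * E * G / (3 * B * C * N ^ 3)) ^ 6 * (-(800 * M ^ 2 * y * E) / (9 * B * N ^ 3)) ^ 2 * (160 * x * M ^ 2 * y / (3 * N ^ 3)) ^ 2 / ((80 * M * y * E / (9 * B * N ^ 2)) ^ 4 * (-(160 * M * y) / (3 * N ^ 2)) ^ 2 * (32 * x ^ 2 * M / (3 * N ^ 2)) * (100 * M ^ 2 * G * J / (3 * H * K * N ^ 2)) ^ 2 * (40 * M ^ 2 * E * G * J / (3 * C * H * N ^ 3)) ^ 6)) ^ 2)) =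
      hk (sy (ev [x, B, C, H, K, M, y, E, G, J, N, 2, 3, 5] (true, [0, 0, -1, 0, 0, 1, 0, 1, 1, 0, -2, 2, 0, 0]))) (lg (evl [x, B, C, H, K, M, y, E, G, J, N, 2, 3, 5] [0, -8, 0, 8, 4, 2, 8, -4, 4, -8, -4, -2, 6, 0])) :=
  hkc12a
    (by
      simp only [ev, evl_cons, evl_nil_left, evl_nil_right, cond_true, cond_false, zpow_neg, zpow_ofNat, zpow_zero, zpow_one]
      field_simp
      try ring)
    (by
      simp only [ev, evl_cons, evl_nil_left, evl_nil_right, cond_true, cond_false, zpow_neg, zpow_ofNat, zpow_zero, zpow_one]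
      field_simp
      try ring)

theorem c12_29 (A0 : x ≠ 0) (B0 : B ≠ 0) (C0 : C ≠ 0) (H0 : H ≠ 0) (K0 : K ≠ 0) (M0 : M ≠ 0) (D0 : y ≠ 0) (E0 : E ≠ 0) (G0 : G ≠ 0) (J0 : J ≠ 0) (N0 : N ≠ 0) :
    hk (sy ((32 * x ^ 2 * M / (3 * N ^ 2)) / 4)) (lg ((((20 * M * G * J / (3 * H * N ^ 2)) ^ 2 * (80 * M ^ 2 * y * E * G / (3 * B * C * N ^ 3)) ^ 2 * (-(800 * M ^ 2 * y * E) / (9 * B * N ^ 3)) ^ 2 * (160 * x * M ^ 2 * y / (3 * N ^ 3)) ^ 2 / ((80 * M * y * E / (9 * B * N ^ 2)) ^ 2 * (-(160 * M * y) / (3 * N ^ 2)) ^ 2 * (32 * x ^ 2 * M / (3 * N ^ 2)) * (100 * M ^ 2 * G * J / (3 * H * K * N ^ 2)) ^ 2 * (40 * M ^ 2 * E * G * J / (3 * C * H * N ^ 3)) ^ 2)) ^ 3)⁻¹)) =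
      hk (sy (ev [x, B, C, H, K, M, y, E, G, J, N, 2, 3, 5] (false, [2, 0, 0, 0, 0, 1, 0, 0, 0, 0, -2, 3, -1, 0]))) (lg (evl [x, B, C, H, K, M, y, E, G, J, N, 2, 3, 5] [0, 6, 0, -6, -6, -3, -6, 0, 0, 6, 6, 3, -3, 0])) :=
  hkc12a
    (by
      simp only [ev, evl_cons, evl_nil_left, evl_nil_right, cond_true, cond_false, zpow_neg, zpow_ofNat, zpow_zero, zpow_one]
      field_simp
      try ring)
    (by
      simp only [ev, evl_cons, evl_nil_left, evl_nil_right, cond_true, cond_false, zpow_neg, zpow_ofNat, zpow_zero, zpow_one]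
      field_simp
      try ring)

theorem c12_30 (A0 : x ≠ 0) (B0 : B ≠ 0) (C0 : C ≠ 0) (H0 : H ≠ 0) (K0 : K ≠ 0) (M0 : M ≠ 0) (D0 : y ≠ 0) (E0 : E ≠ 0) (G0 : G ≠ 0) (J0 : J ≠ 0) (N0 : N ≠ 0) :
    hk (sy (-(-(160 * M * y) / (3 * N ^ 2)) / (2 * (10 * M * J / (K * N))))) (lg (((80 * M * y * E / (9 * B * N ^ 2)) * (-(160 * M * y) / (3 * N ^ 2)) ^ 3 * (32 * x ^ 2 * M / (3 * N ^ 2)) * (100 * M ^ 2 * G * J / (3 * H * K * N ^ 2)) ^ 4 * (80 * M ^ 2 * y * E * G / (3 * B * C * N ^ 3)) ^ 2 / ((10 * M * J / (K * N)) * (20 * M * G * J / (3 * H * N ^ 2)) * (40 * M ^ 2 * E * G * J / (3 * C * H * N ^ 3)) ^ 2 * (-(800 * M ^ 2 * y * E) / (9 * B * N ^ 3)) ^ 4 * (160 * x * M ^ 2 * y / (3 * N ^ 3)) ^ 2)) ^ 2)) =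
      hk (sy (ev [x, B, C, H, K, M, y, E, G, J, N, 2, 3, 5] (false, [0, 0, 0, 0, 1, 0, 1, 0, 0, -1, -1, 3, -1, 0]))) (lg (evl [x, B, C, H, K, M, y, E, G, J, N, 2, 3, 5] [0, 2, 0, -2, -6, -2, 0, -6, 6, 0, 6, 2, 2, 0])) :=
  hkc12a
    (by
      simp only [ev, evl_cons, evl_nil_left, evl_nil_right, cond_true, cond_false, zpow_neg, zpow_ofNat, zpow_zero, zpow_one]
      field_simp
      try ring)
    (by
      simp only [ev, evl_cons, evl_nil_left, evl_nil_right, cond_true, cond_false, zpow_neg, zpow_ofNat, zpow_zero, zpow_one]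
      field_simp
      try ring)

theorem c12_31 (A0 : x ≠ 0) (B0 : B ≠ 0) (C0 : C ≠ 0) (H0 : H ≠ 0) (K0 : K ≠ 0) (M0 : M ≠ 0) (D0 : y ≠ 0) (E0 : E ≠ 0) (G0 : G ≠ 0) (J0 : J ≠ 0) (N0 : N ≠ 0) :
    hk (sy (-(-(160 * M * y) / (3 * N ^ 2)) / (4 * (10 * M * J / (K * N))))) (lg (((20 * M * G * J / (3 * H * N ^ 2)) ^ 2 * (80 * M ^ 2 * y * E * G / (3 * B * C * N ^ 3)) ^ 2 * (-(800 * M ^ 2 * y * E) / (9 * B * N ^ 3)) ^ 2 * (160 * x * M ^ 2 * y / (3 * N ^ 3)) ^ 6 / ((10 * M * J / (K * N)) ^ 2 * (80 * M * y * E / (9 * B * N ^ 2)) ^ 2 * (-(160 * M * y) / (3 * N ^ 2)) ^ 4 * (32 * x ^ 2 * M / (3 * N ^ 2)) ^ 3 * (100 * M ^ 2 * G * J / (3 * H * K * N ^ 2)) ^ 2 * (40 * M ^ 2 * E * G * J / (3 * C * H * N ^ 3)) ^ 2)) ^ 2)) =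
      hk (sy (ev [x, B, C, H, K, M, y, E, G, J, N, 2, 3, 5] (false, [0, 0, 0, 0, 1, 0, 1, 0, 0, -1, -1, 2, -1, 0]))) (lg (evl [x, B, C, H, K, M, y, E, G, J, N, 2, 3, 5] [0, -4, 0, 4, 8, 6, 8, 0, 0, -8, -8, -6, 2, 0])) :=
  hkc12a
    (by
      simp only [ev, evl_cons, evl_nil_left, evl_nil_right, cond_true, cond_false, zpow_neg, zpow_ofNat, zpow_zero, zpow_one]
      field_simp
      try ring)
    (by
      simp only [ev, evl_cons, evl_nil_left, evl_nil_right, cond_true, cond_false, zpow_neg, zpow_ofNat, zpow_zero, zpow_one]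
      field_simp
      try ring)

end eq

end Pool.Agent.FK4
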