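import Pool.Agent.Lib_helper54.FAM.LK12h

set_option autoImplicit false
set_option linter.unusedSectionVars false
set_option linter.unusedVariables false
set_option linter.unusedSimpArgs false
set_option linter.unusedTactic false
set_option linter.unreachableTactic false
set_option maxRecDepth 100000

/-!
# The special curve with a point of order twelve: monomials, part 5
-/

open scoped TensorProduct

namespace Pool.Agent.FK4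

open Pool.Agent.MK4 Pool.Agent.TN Pool.Agent.KC72

section eq

variable {F : Type*} [Field F] [CharZero F] {x y B C H K M E G J N : F}

theorem c12_32 (A0 : x ≠ 0) (B0 : B ≠ 0) (C0 : C ≠ 0) (H0 : H ≠ 0) (K0 : K ≠ 0) (M0 : M ≠ 0) (D0 : y ≠ 0) (E0 : E ≠ 0) (G0 : G ≠ 0) (J0 : J ≠ 0) (N0 : N ≠ 0) :
    hk (sy (-(-(8 * K ^ 2 * M * y * E * G) / (9 * B * C * H * J * N ^ 2)) / 2)) (lg (((-(20 * K * M * E * G) / (9 * C * H * J * N)) ^ 4 * (80 * K ^ 3 * M * y * E * G / (81 * B * C * H * J ^ 2 * N ^ 2)) ^ 6 * (-(80 * x * K ^ 3 * M * y * E * G) / (27 * B * C * J ^ 3 * N ^ 2)) ^ 2 * (80 * K ^ 3 * M * y ^ 2 * E / (27 * B * J ^ 3 * N ^ 2)) ^ 2 / ((80 * K ^ 2 * M * y * E * G / (27 * B * C * J ^ 2 * N ^ 2)) ^ 4 * (-(80 * x * K ^ 2 * M * y * E) / (9 * B * J ^ 2 * N ^ 2)) ^ 2 * (16 * K ^ 2 * M * y ^ 2 / (9 * J ^ 2 * N ^ 2)) *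 (20 * K ^ 2 * E * G / (27 * C * H * J ^ 2)) ^ 2 * (-(40 * K ^ 2 * M * y * E * G) / (27 * B * C * H * J ^ 2 * N)) ^ 6)) ^ 2)) =
      hk (sy (ev [x, B, C, H, K, M, y, E, G, J, N, 2, 3, 5] (false, [0, -1, -1, -1, 2, 1, 1, 1, 1, -1, -2, 2, -2, 0]))) (lg (evl [x, B, C, H, K, M, y, E, G, J, N, 2, 3, 5] [0, 4, 0, -4, 8, 2, -4, 0, 0, 4, -8, -4, -4, 0])) :=
  hkc12a
    (by
      simp only [ev, evl_cons, evl_nil_left, evl_nil_right, cond_true, cond_false, zpow_neg, zpow_ofNat, zpow_zero, zpow_one]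
      field_simp
      try ring)
    (by
      simp only [ev, evl_cons, evl_nil_left, evl_nil_right, cond_true, cond_false, zpow_neg, zpow_ofNat, zpow_zero, zpow_one]
      field_simp
      try ring)

theorem c12_33 (A0 : x ≠ 0) (B0 : B ≠ 0) (C0 : C ≠ 0) (H0 : H ≠ 0) (K0 : K ≠ 0) (M0 : M ≠ 0) (D0 : y ≠ 0) (E0 : E ≠ 0) (G0 : G ≠ 0) (J0 : J ≠ 0) (N0 : N ≠ 0) :
    hk (sy ((16 * K ^ 2 * M * y ^ 2 / (9 * J ^ 2 * N ^ 2)) / 4)) (lg ((((-(20 * K * M * E * G) / (9 * C * H * J * N)) ^ 2 * (80 * K ^ 3 * M * y * E * G / (81 * B * C * H * J ^ 2 * N ^ 2)) ^ 2 * (-(80 * x * K ^ 3 * M * y * E * G) / (27 * B * C * J ^ 3 * N ^ 2)) ^ 2 * (80 * K ^ 3 * M * y ^ 2 * E / (27 * B * J ^ 3 * N ^ 2)) ^ 2 / ((80 * K ^ 2 * M * y * E * G / (27 * B * C * J ^ 2 * N ^ 2)) ^ 2 * (-(80 * x * K ^ 2 * M * y * E) / (9 * B * J ^ 2 * N ^ 2)) ^ 2 *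 (16 * K ^ 2 * M * y ^ 2 / (9 * J ^ 2 * N ^ 2)) * (20 * K ^ 2 * E * G / (27 * C * H * J ^ 2)) ^ 2 * (-(40 * K ^ 2 * M * y * E * G) / (27 * B * C * H * J ^ 2 * N)) ^ 2)) ^ 3)⁻¹)) =
      hk (sy (ev [x, B, C, H, K, M, y, E, G, J, N, 2, 3, 5] (false, [0, 0, 0, 0, 2, 1, 2, 0, 0, -2, -2, 2, -2, 0]))) (lg (evl [x, B, C, H, K, M, y, E, G, J, N, 2, 3, 5] [0, 0, 0, 0, -6, -3, 0, 0, 0, 0, 6, 6, 0, 0])) :=
  hkc12a
    (by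
      simp only [ev, evl_cons, evl_nil_left, evl_nil_right, cond_true, cond_false, zpow_neg, zpow_ofNat, zpow_zero, zpow_one]
      field_simp
      try ring)
    (by
      simp only [ev, evl_cons, evl_nil_left, evl_nil_right, cond_true, cond_false, zpow_neg, zpow_ofNat, zpow_zero, zpow_one]
      field_simp
      try ring)

theorem c12_34 (A0 : x ≠ 0) (B0 : B ≠ 0) (C0 : C ≠ 0) (H0 : H ≠ 0) (K0 : K ≠ 0) (M0 : M ≠ 0) (D0 : y ≠ 0) (E0 : E ≠ 0) (G0 : G ≠ 0) (J0 : J ≠ 0) (N0 : N ≠ 0) :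
    hk (sy (-(-(80 * x * K ^ 2 * M * y * E) / (9 * B * J ^ 2 * N ^ 2)) / (2 * (10 * K * G / (9 * H * J))))) (lg (((80 * K ^ 2 * M * y * E * G / (27 * B * C * J ^ 2 * N ^ 2)) * (-(80 * x * K ^ 2 * M * y * E) / (9 * B * J ^ 2 * N ^ 2)) ^ 3 * (16 * K ^ 2 * M * y ^ 2 / (9 * J ^ 2 * N ^ 2)) * (20 * K ^ 2 * E * G / (27 * C * H * J ^ 2)) ^ 4 * (80 * K ^ 3 * M * y * E * G / (81 * B * C * H * J ^ 2 * N ^ 2)) ^ 2 / ((10 * K * G / (9 * H * J)) * (-(20 * K * M * E * G) / (9 * C * H * J * N)) * (-(40 * K ^ 2 * M * y * E * G) / (27 * B * C * H * J ^ 2 * N)) ^ 2 * (-(80 * x * K ^ 3 * M * y * E * G) / (27 * B * C * J ^ 3 * N ^ 2)) ^ 4 * (80 * K ^ 3 * M * y ^ 2 * E / (27 * B * J ^ 3 * N ^ 2)) ^ 2)) ^ 2)) =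
      hk (sy (ev [x, B, C, H, K, M, y, E, G, J, N, 2, 3, 5] (false, [1, -1, 0, 1, 1, 1, 1, 1, -1, -1, -2, 2, 0, 0]))) (lg (evl [x, B, C, H, K, M, y, E, G, J, N, 2, 3, 5] [-2, 4, 0, -4, 0, -4, -4, 2, -2, 4, 2, 6, -6, 0])) :=
  hkc12a
    (by
      simp only [ev, evl_cons, evl_nil_left, evl_nil_right, cond_true, cond_false, zpow_neg, zpow_ofNat, zpow_zero, zpow_one]
      field_simp
      try ring)
    (by
      simp only [ev, evl_cons, evl_nil_left, evl_nil_right, cond_true, cond_false, zpow_neg, zpow_ofNat, zpow_zero, zpow_one]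
      field_simp
      try ring)

theorem c12_35 (A0 : x ≠ 0) (B0 : B ≠ 0) (C0 : C ≠ 0) (H0 : H ≠ 0) (K0 : K ≠ 0) (M0 : M ≠ 0) (D0 : y ≠ 0) (E0 : E ≠ 0) (G0 : G ≠ 0) (J0 : J ≠ 0) (N0 : N ≠ 0) :
    hk (sy (-(-(80 * x * K ^ 2 * M * y * E) / (9 * B * J ^ 2 * N ^ 2)) / (4 * (10 * K * G / (9 * H * J))))) (lg (((-(20 * K * M * E * G) / (9 * C * H * J * N)) ^ 2 * (80 * K ^ 3 * M * y * E * G / (81 * B * C * H * J ^ 2 * N ^ 2)) ^ 2 * (-(80 * x * K ^ 3 * M * y * E * G) / (27 * B * C * J ^ 3 * N ^ 2)) ^ 2 * (80 * K ^ 3 * M * y ^ 2 * E / (27 * B * J ^ 3 * N ^ 2)) ^ 6 / ((10 * K * G / (9 * H * J)) ^ 2 * (80 * K ^ 2 * M * y * E * G / (27 * B * C * J ^ 2 * N ^ 2)) ^ 2 * (-(80 * x * K ^ 2 * M * y * E) / (9 * B * J ^ 2 * N ^ 2)) ^ 4 * (16 * K ^ 2 * M * y ^ 2 / (9 * J ^ 2 * N ^ 2)) ^ 3 * (20 * K ^ 2 * E * G / (27 * C * H * J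 ^ 2)) ^ 2 * (-(40 * K ^ 2 * M * y * E * G) / (27 * B * C * H * J ^ 2 * N)) ^ 2)) ^ 2)) =
      hk (sy (ev [x, B, C, H, K, M, y, E, G, J, N, 2, 3, 5] (false, [1, -1, 0, 1, 1, 1, 1, 1, -1, -1, -2, 1, 0, 0]))) (lg (evl [x, B, C, H, K, M, y, E, G, J, N, 2, 3, 5] [-4, -4, 0, 4, 8, 2, 4, 4, -4, -4, -4, -8, 0, 0])) :=
  hkc12a
    (by
      simp only [ev, evl_cons, evl_nil_left, evl_nil_right, cond_true, cond_false, zpow_neg, zpow_ofNat, zpow_zero, zpow_one]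
      field_simp
      try ring)
    (by
      simp only [ev, evl_cons, evl_nil_left, evl_nil_right, cond_true, cond_false, zpow_neg, zpow_ofNat, zpow_zero, zpow_one]
      field_simp
      try ring)

theorem c12_36 (A0 : x ≠ 0) (B0 : B ≠ 0) (C0 : C ≠ 0) (H0 : H ≠ 0) (K0 : K ≠ 0) (M0 : M ≠ 0) (D0 : y ≠ 0) (E0 : E ≠ 0) (G0 : G ≠ 0) (J0 : J ≠ 0) (N0 : N ≠ 0) :
    hk (sy (-(-(8 * H * K * M * y * E) / (3 * B * C * G * J * N)) / 2)) (lg (((-(4 * H * K * y * E) / (3 * B * C * G * J)) ^ 4 * (8 * x * H ^ 2 * K * M * y * E / (3 * B * C * G ^ 2 * J * N)) ^ 6 * (-(8 * H ^ 2 * K ^ 2 * M * y ^ 2 * E) / (3 * B * C * G ^ 2 * J * N ^ 2)) ^ 2 * (8 * H ^ 3 * K ^ 2 * M * y ^ 2 * E ^ 2 / (B ^ 2 * C * G ^ 2 * J ^ 2 * N ^ 2)) ^ 2 / ((8 * x * H * K ^ 2 * M * y * E / (9 * B * C * G * J * N ^ 2)) ^ 4 * (-(8 * H ^ 2 * K ^ 2 * M * y ^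 2 * E) / (B * C * G * J ^ 2 * N ^ 2)) ^ 2 * (8 * H ^ 2 * K ^ 2 * M * y ^ 2 * E ^ 2 / (3 * B ^ 2 * G ^ 2 * J ^ 2 * N ^ 2)) * (4 * H ^ 2 * y * E / (B * C * G ^ 2)) ^ 2 * (8 * H ^ 2 * K * y * E / (3 * B * C * G ^ 2 * J)) ^ 6)) ^ 2)) =
      hk (sy (ev [x, B, C, H, K, M, y, E, G, J, N, 2, 3, 5] (false, [0, -1, -1, 1, 1, 1, 1, 1, -1, -1, -1, 2, -1, 0]))) (lg (evl [x, B, C, H, K, M, y, E, G, J, N, 2, 3, 5] [4, 0, 0, 0, -4, 6, 0, 0, 0, 0, 0, -10, 6, 0])) :=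
  hkc12a
    (by
      simp only [ev, evl_cons, evl_nil_left, evl_nil_right, cond_true, cond_false, zpow_neg, zpow_ofNat, zpow_zero, zpow_one]
      field_simp
      try ring)
    (by
      simp only [ev, evl_cons, evl_nil_left, evl_nil_right, cond_true, cond_false, zpow_neg, zpow_ofNat, zpow_zero, zpow_one]
      field_simp
      try ring)

theorem c12_37 (A0 : x ≠ 0) (B0 : B ≠ 0) (C0 : C ≠ 0) (H0 : H ≠ 0) (K0 : K ≠ 0) (M0 : M ≠ 0) (D0 : y ≠ 0) (E0 : E ≠ 0) (G0 : G ≠ 0) (J0 : J ≠ 0) (N0 : N ≠ 0) :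
    hk (sy ((8 * H ^ 2 * K ^ 2 * M * y ^ 2 * E ^ 2 / (3 * B ^ 2 * G ^ 2 * J ^ 2 * N ^ 2)) / 4)) (lg ((((-(4 * H * K * y * E) / (3 * B * C * G * J)) ^ 2 * (8 * x * H ^ 2 * K * M * y * E / (3 * B * C * G ^ 2 * J * N)) ^ 2 * (-(8 * H ^ 2 * K ^ 2 * M * y ^ 2 * E) / (3 * B * C * G ^ 2 * J * N ^ 2)) ^ 2 * (8 * H ^ 3 * K ^ 2 * M * y ^ 2 * E ^ 2 / (B ^ 2 * C * G ^ 2 * J ^ 2 * N ^ 2)) ^ 2 / ((8 * x * H * K ^ 2 * M * y * E / (9 * B * C * G * J * N ^ 2)) ^ 2 * (-(8 * H ^ 2 * K ^ 2 * M * y ^ 2 * E) / (B * C * G * J ^ 2 * N ^ 2)) ^ 2 * (8 * H ^ 2 * K ^ 2 * M * y ^ 2 * E ^ 2 / (3 * B ^ 2 * G ^ 2 * J ^ 2 * N ^ 2)) * (4 * H ^ 2 * y * E / (B * C * G ^ 2)) ^ 2 * (8 * H ^ 2 * K * y * E / (3 * B * C * G ^ 2 * J)) ^ 2)) ^ 3)⁻¹)) =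
      hk (sy (ev [x, B, C, H, K, M, y, E, G, J, N, 2, 3, 5] (false, [0, -2, 0, 2, 2, 1, 2, 2, -2, -2, -2, 1, -1, 0]))) (lg (evl [x, B, C, H, K, M, y, E, G, J, N, 2, 3, 5] [0, 0, 0, 0, 0, -3, 0, 0, 0, 0, 0, 9, -3, 0])) :=
  hkc12a
    (by
      simp only [ev, evl_cons, evl_nil_left, evl_nil_right, cond_true, cond_false, zpow_neg, zpow_ofNat, zpow_zero, zpow_one]
      field_simp
      try ring)
    (by
      simp only [ev, evl_cons, evl_nil_left, evl_nil_right, cond_true, cond_false, zpow_neg, zpow_ofNat, zpow_zero, zpow_one]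
      field_simp
      try ring)

theorem c12_38 (A0 : x ≠ 0) (B0 : B ≠ 0) (C0 : C ≠ 0) (H0 : H ≠ 0) (K0 : K ≠ 0) (M0 : M ≠ 0) (D0 : y ≠ 0) (E0 : E ≠ 0) (G0 : G ≠ 0) (J0 : J ≠ 0) (N0 : N ≠ 0) :
    hk (sy (-(-(8 * H ^ 2 * K ^ 2 * M * y ^ 2 * E) / (B * C * G * J ^ 2 * N ^ 2)) / (2 * (2 * H * E / (C * G))))) (lg (((8 * x * H * K ^ 2 * M * y * E / (9 * B * C * G * J * N ^ 2)) * (-(8 * H ^ 2 * K ^ 2 * M * y ^ 2 * E) / (B * C * G * J ^ 2 * N ^ 2)) ^ 3 * (8 * H ^ 2 * K ^ 2 * M * y ^ 2 * E ^ 2 / (3 * B ^ 2 * G ^ 2 * J ^ 2 * N ^ 2)) * (4 * H ^ 2 * y * E / (B * C * G ^ 2)) ^ 4 * (8 * x * H ^ 2 * K * M * y * E / (3 * B * C * G ^ 2 * J * N)) ^ 2 / ((2 * H * E / (C * G)) * (-(4 * H * K * y * E) / (3 * B * C * G * J)) * (8 * H ^ 2 * K * y * E / (3 * B * C * G ^ 2 * J)) ^ 2 * (-(8 * H ^ 2 * K ^ 2 * M * y ^ 2 * E) / (3 * B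 * C * G ^ 2 * J * N ^ 2)) ^ 4 * (8 * H ^ 3 * K ^ 2 * M * y ^ 2 * E ^ 2 / (B ^ 2 * C * G ^ 2 * J ^ 2 * N ^ 2)) ^ 2)) ^ 2)) =
      hk (sy (ev [x, B, C, H, K, M, y, E, G, J, N, 2, 3, 5] (false, [0, -1, 0, 1, 2, 1, 2, 0, 0, -2, -2, 1, 0, 0]))) (lg (evl [x, B, C, H, K, M, y, E, G, J, N, 2, 3, 5] [6, -2, 0, 2, -6, 2, 0, 0, 0, 0, 0, 4, 4, 0])) :=
  hkc12a
    (by
      simp only [ev, evl_cons, evl_nil_left, evl_nil_right, cond_true, cond_false, zpow_neg, zpow_ofNat, zpow_zero, zpow_one]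
      field_simp
      try ring)
    (by
      simp only [ev, evl_cons, evl_nil_left, evl_nil_right, cond_true, cond_false, zpow_neg, zpow_ofNat, zpow_zero, zpow_one]
      field_simp
      try ring)

theorem c12_39 (A0 : x ≠ 0) (B0 : B ≠ 0) (C0 : C ≠ 0) (H0 : H ≠ 0) (K0 : K ≠ 0) (M0 : M ≠ 0) (D0 : y ≠ 0) (E0 : E ≠ 0) (G0 : G ≠ 0) (J0 : J ≠ 0) (N0 : N ≠ 0) :
    hk (sy (-(-(8 * H ^ 2 * K ^ 2 * M * y ^ 2 * E) / (B * C * G * J ^ 2 * N ^ 2)) / (4 * (2 * H * E / (C * G))))) (lg (((-(4 * H * K * y * E) / (3 * B * C * G * J)) ^ 2 * (8 * x * H ^ 2 * K * M * y * E / (3 * B * C * G ^ 2 * J * N)) ^ 2 * (-(8 * H ^ 2 * K ^ 2 * M * y ^ 2 * E) / (3 * B * C * G ^ 2 * J * N ^ 2)) ^ 2 * (8 * H ^ 3 * K ^ 2 * M * y ^ 2 * E ^ 2 / (B ^ 2 * C * G ^ 2 * J ^ 2 * N ^ 2)) ^ 6 / ((2 * H * E / (C * G)) ^ 2 * (8 * x * H * K ^ 2 * M * y *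 E / (9 * B * C * G * J * N ^ 2)) ^ 2 * (-(8 * H ^ 2 * K ^ 2 * M * y ^ 2 * E) / (B * C * G * J ^ 2 * N ^ 2)) ^ 4 * (8 * H ^ 2 * K ^ 2 * M * y ^ 2 * E ^ 2 / (3 * B ^ 2 * G ^ 2 * J ^ 2 * N ^ 2)) ^ 3 * (4 * H ^ 2 * y * E / (B * C * G ^ 2)) ^ 2 * (8 * H ^ 2 * K * y * E / (3 * B * C * G ^ 2 * J)) ^ 2)) ^ 2)) =
      hk (sy (ev [x, B, C, H, K, M, y, E, G, J, N, 2, 3, 5] (false, [0, -1, 0, 1, 2, 1, 2, 0, 0, -2, -2, 0, 0, 0]))) (lg (evl [x, B, C, H, K, M, y, E, G, J, N, 2, 3, 5] [0, -4, 0, 4, 0, 2, 0, 0, 0, 0, 0, -10, 6, 0])) :=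
  hkc12a
    (by
      simp only [ev, evl_cons, evl_nil_left, evl_nil_right, cond_true, cond_false, zpow_neg, zpow_ofNat, zpow_zero, zpow_one]
      field_simp
      try ring)
    (by
      simp only [ev, evl_cons, evl_nil_left, evl_nil_right, cond_true, cond_false, zpow_neg, zpow_ofNat, zpow_zero, zpow_one]
      field_simp
      try ring)

end eq

end Pool.Agent.FK4
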