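import Pool.Agent.Lib_helper54.FAM.Q12

set_option autoImplicit false
set_option linter.unusedSectionVars false
set_option linter.unusedSimpArgs false

/-!
The class for points of order twelve at `t = 2/3` (`b = 10/3`, `c = 2`).
-/

namespace Pool.Agent.K4N

open Pool.Agent.TN
open scoped TensorProduct

section

variable {k F : Type*} [Field k] [Field F] [Algebra k F] {x y : F}

/-- the terms at a point -/
noncomputable def term12 (x y : F) : MK4.HK F :=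
  (2 : ℚ) • MK4.hk (MK4.sy (-(x - 2) / 2))
      (MK4.lg ((x - 10 / 3) ^ 4 * (y - 2 / 3 * x) ^ 6 * (y - 10 / 3 * x) ^ 2 * (y + 2 * x) ^ 2 /
        ((x - 10 / 9) ^ 4 * (x - 10) ^ 2 * (x + 2 / 3) * y ^ 2 * (y - 2 * x) ^ 6))) -
    (3 : ℚ) • MK4.hk (MK4.sy ((x + 2 / 3) / 4))
      (MK4.lg ((x - 10 / 3) ^ 2 * (y - 2 / 3 * x) ^ 2 * (y - 10 / 3 * x) ^ 2 * (y + 2 * x) ^ 2 /
        ((x - 10 / 9) ^ 2 * (x - 10) ^ 2 * (x + 2 / 3) * y ^ 2 * (y - 2 * x) ^ 2))) +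
    (2 : ℚ) • MK4.hk (MK4.sy (-(x - 10) / (2 * x)))
      (MK4.lg ((x - 10 / 9) * (x - 10) ^ 3 * (x + 2 / 3) * y ^ 4 * (y - 2 / 3 * x) ^ 2 /
        (x * (x - 10 / 3) * (y - 2 * x) ^ 2 * (y - 10 / 3 * x) ^ 4 * (y + 2 * x) ^ 2))) +
    (2 : ℚ) • MK4.hk (MK4.sy (-(x - 10) / (4 * x)))
      (MK4.lg ((x - 10 / 3) ^ 2 * (y - 2 / 3 * x) ^ 2 * (y - 10 / 3 * x) ^ 2 * (y + 2 * x) ^ 6 /
        (x ^ 2 * (x - 10 / 9) ^ 2 * (x - 10) ^ 4 * (x + 2 / 3) ^ 3 * y ^ 2 * (y - 2 * x) ^ 2)))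

/-- the sum over the translates by the multiples of `P` -/
noncomputable def xi12 (x y : F) : MK4.HK F :=
  ∑ j : Fin 12, term12 (It (10 / 3 : F) j.val (x, y)).1 (It (10 / 3 : F) j.val (x, y)).2

section logs

variable [CharZero F] (he : y ^ 2 - x * y - 10 / 3 * y = x ^ 3 - 10 / 3 * x ^ 2)

include he

lemma lg12_T (h2 : x - 10 / 3 ≠ 0) (h3 : x - 2 ≠ 0) (h4 : x - 10 / 9 ≠ 0) (h5 : x - 10 ≠ 0)
    (hy : y ≠ 0) (hy2 : y - 2 * x ≠ 0) (hy3 : y - 2 / 3 * x ≠ 0) (hy4 : y - 10 / 3 * x ≠ 0)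
    (hy5 : y + 2 * x ≠ 0) :
    MK4.lg (y - 4 / 3) = MK4.lg (x - 10 / 3) + MK4.lg (x - 2) + MK4.lg (y - 2 / 3 * x) +
      MK4.lg (y - 10 / 3 * x) + MK4.lg (y + 2 * x) - MK4.lg (x - 10 / 9) - MK4.lg (x - 10) -
      MK4.lg y - MK4.lg (y - 2 * x) := by
  have e : y - 4 / 3 = ((x - 10 / 3) * (x - 2) * (y - 2 / 3 * x) * (y - 10 / 3 * x) *
      (y + 2 * x)) / ((x - 10 / 9) * (x - 10) * y * (y - 2 * x)) := by
    rw [eq_div_iff (mul_ne_zero (mul_ne_zero (mul_ne_zero h4 h5) hy) hy2)]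
    linear_combination ((40 / 9) * y + (-80 / 9) * x + (-52 / 9) * x * y + (40 / 9) * x ^ 2) * he
  rw [e, TN.lgdiv (mul_ne_zero (mul_ne_zero (mul_ne_zero (mul_ne_zero h2 h3) hy3) hy4) hy5)
    (mul_ne_zero (mul_ne_zero (mul_ne_zero h4 h5) hy) hy2),
    TN.lgmul (mul_ne_zero (mul_ne_zero (mul_ne_zero h2 h3) hy3) hy4) hy5,
    TN.lgmul (mul_ne_zero (mul_ne_zero h2 h3) hy3) hy4, TN.lgmul (mul_ne_zero h2 h3) hy3,
    TN.lgmul h2 h3, TN.lgmul (mul_ne_zero (mul_ne_zero h4 h5) hy) hy2,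
    TN.lgmul (mul_ne_zero h4 h5) hy, TN.lgmul h4 h5]
  module

lemma lg12_T' (h3 : x - 2 ≠ 0) (h6 : x + 2 / 3 ≠ 0) (h : y - 4 / 3 ≠ 0) :
    MK4.lg (x + 2 - y) = (2 : ℚ) • MK4.lg (x - 2) + MK4.lg (x + 2 / 3) - MK4.lg (y - 4 / 3) := by
  have e : x + 2 - y = -((x - 2) ^ 2 * (x + 2 / 3)) / (y - 4 / 3) := by
    rw [eq_div_iff h]; linear_combination -he
  rw [e, TN.lgdiv (neg_ne_zero.mpr (mul_ne_zero (pow_ne_zero 2 h3) h6)) h, TN.lgneg,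
    TN.lgmul (pow_ne_zero 2 h3) h6, TN.lgpow h3]
  push_cast
  rfl

lemma lg12_B' (hx : x ≠ 0) (h5 : x - 10 ≠ 0) (h6 : x + 2 / 3 ≠ 0) (h : y + 2 * x ≠ 0) :
    MK4.lg (3 * x + 10 / 3 - y) = MK4.lg x + MK4.lg (x - 10) + MK4.lg (x + 2 / 3) -
      MK4.lg (y + 2 * x) := by
  have e : 3 * x + 10 / 3 - y = -(x * (x - 10) * (x + 2 / 3)) / (y + 2 * x) := by
    rw [eq_div_iff h]; linear_combination -he
  rw [e, TN.lgdiv (neg_ne_zero.mpr (mul_ne_zero (mul_ne_zero hx h5) h6)) h, TN.lgneg,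
    TN.lgmul (mul_ne_zero hx h5) h6, TN.lgmul hx h5]

lemma lg12_L (h4 : x - 10 / 9 ≠ 0) (h5 : x - 10 ≠ 0) (h6 : x + 2 / 3 ≠ 0) (hy : y ≠ 0)
    (hy4 : y - 10 / 3 * x ≠ 0) (hy5 : y + 2 * x ≠ 0) :
    MK4.lg (y + 1 / 3 * x - 10 / 9) = MK4.lg (x - 10 / 9) + MK4.lg (x - 10) +
      MK4.lg (x + 2 / 3) + MK4.lg y - MK4.lg (y - 10 / 3 * x) - MK4.lg (y + 2 * x) := by
  have e : y + 1 / 3 * x - 10 / 9 = ((x - 10 / 9) * (x - 10) * (x + 2 / 3) * y) /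
      ((y - 10 / 3 * x) * (y + 2 * x)) := by
    rw [eq_div_iff (mul_ne_zero hy4 hy5)]
    linear_combination (20 / 9 + y) * he
  rw [e, TN.lgdiv (mul_ne_zero (mul_ne_zero (mul_ne_zero h4 h5) h6) hy) (mul_ne_zero hy4 hy5),
    TN.lgmul (mul_ne_zero (mul_ne_zero h4 h5) h6) hy, TN.lgmul (mul_ne_zero h4 h5) h6,
    TN.lgmul h4 h5, TN.lgmul hy4 hy5]
  module

lemma lg12_L' (h2 : x - 10 / 3 ≠ 0) (h4 : x - 10 / 9 ≠ 0) (h6 : x + 2 / 3 ≠ 0)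
    (h : y + 1 / 3 * x - 10 / 9 ≠ 0) :
    MK4.lg (4 / 3 * x + 20 / 9 - y) = MK4.lg (x - 10 / 3) + MK4.lg (x - 10 / 9) +
      MK4.lg (x + 2 / 3) - MK4.lg (y + 1 / 3 * x - 10 / 9) := by
  have e : 4 / 3 * x + 20 / 9 - y =
      -((x - 10 / 3) * (x - 10 / 9) * (x + 2 / 3)) / (y + 1 / 3 * x - 10 / 9) := by
    rw [eq_div_iff h]; linear_combination -he
  rw [e, TN.lgdiv (neg_ne_zero.mpr (mul_ne_zero (mul_ne_zero h2 h4) h6)) h, TN.lgneg,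
    TN.lgmul (mul_ne_zero h2 h4) h6, TN.lgmul h2 h4]

end logs

lemma term12_eq [CharZero k] [CharZero F] (h : Gen ((10 / 3 : ℚ) : k) ((2 : ℚ) : k) x y) :
    term12 x y = ∑ m, Q12.w12 m • MK4.hk (MK4.sy ((Q12.f12 m).ev x y))
      (MK4.lg ((Q12.u12 m).ev x y)) := by
  obtain ⟨a1, a2, a3, a4⟩ := Q12.nz12_ne h
  obtain ⟨b1, b2, b3, b4, b5, b6, b7, b8, b9, b10, b11, b12, b13⟩ := Q12.nz12_ne' h
  have he : y ^ 2 - x * y - 10 / 3 * y = x ^ 3 - 10 / 3 * x ^ 2 := by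
    have := h.eq
    simp only [map_ratCast] at this
    push_cast at this
    linear_combination this
  have e1 : Q12.f1.ev x y = -(x - 2) / 2 := by rw [Q12.ev_f1, neg_sub]
  have e2 : Q12.f2.ev x y = (x + 2 / 3) / 4 := by rw [Q12.ev_f2]; ring
  have e3 : Q12.f3.ev x y = -(x - 10) / (2 * x) := by rw [Q12.ev_f3, neg_sub]
  have e4 : Q12.f4.ev x y = -(x - 10) / (4 * x) := by rw [Q12.ev_f4, neg_sub]
  have tA : MK4.lg (Q12.uA.ev x y) = (2 : ℚ) • MK4.lg (x - 10 / 3) +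
      (2 : ℚ) • MK4.lg (y - 2 / 3 * x) + (2 : ℚ) • MK4.lg (y - 10 / 3 * x) +
      (2 : ℚ) • MK4.lg (y + 2 * x) - (2 : ℚ) • MK4.lg (x - 10 / 9) -
      (2 : ℚ) • MK4.lg (x - 10) - MK4.lg (x + 2 / 3) - (2 : ℚ) • MK4.lg y -
      (2 : ℚ) • MK4.lg (y - 2 * x) := by
    rw [Q12.ev_uA, TN.lgdiv a3 a4, lg12_T' he b1 b4 a3, lg12_T he b3 b1 b5 b2 b6 b7 b8 b9 b10]
    module
  have tA' : MK4.lg (Q12.uA'.ev x y) = -MK4.lg (Q12.uA.ev x y) := by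
    rw [Q12.ev_uA', Q12.ev_uA, TN.lgdiv a4 a3, TN.lgdiv a3 a4, neg_sub]
  have tB : MK4.lg (Q12.uB.ev x y) = (2 : ℚ) • MK4.lg (y + 2 * x) - MK4.lg x -
      MK4.lg (x - 10) - MK4.lg (x + 2 / 3) := by
    rw [Q12.ev_uB, TN.lgdiv b10 b11, lg12_B' he a1 b2 b4 b10]
    module
  have tL : MK4.lg (Q12.uL.ev x y) = MK4.lg (x - 10 / 9) + (2 : ℚ) • MK4.lg (x - 10) +
      MK4.lg (x + 2 / 3) + (2 : ℚ) • MK4.lg y - MK4.lg (x - 10 / 3) -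
      (2 : ℚ) • MK4.lg (y - 10 / 3 * x) - (2 : ℚ) • MK4.lg (y + 2 * x) := by
    rw [Q12.ev_uL, TN.lgdiv b12 b13, lg12_L' he b3 b5 b4 b12, lg12_L he b5 b2 b4 b6 b9 b10]
    module
  rw [Fin.sum_univ_eight]
  show term12 x y = (6 : ℕ) • MK4.hk (MK4.sy (Q12.f1.ev x y)) (MK4.lg (Q12.uA.ev x y)) +
    (4 : ℕ) • MK4.hk (MK4.sy (Q12.f1.ev x y)) (MK4.lg (Q12.uL.ev x y)) +
    (3 : ℕ) • MK4.hk (MK4.sy (Q12.f2.ev x y)) (MK4.lg (Q12.uA'.ev x y)) +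
    (2 : ℕ) • MK4.hk (MK4.sy (Q12.f3.ev x y)) (MK4.lg (Q12.uA.ev x y)) +
    (6 : ℕ) • MK4.hk (MK4.sy (Q12.f3.ev x y)) (MK4.lg (Q12.uL.ev x y)) +
    (2 : ℕ) • MK4.hk (MK4.sy (Q12.f3.ev x y)) (MK4.lg (Q12.uB.ev x y)) +
    (2 : ℕ) • MK4.hk (MK4.sy (Q12.f4.ev x y)) (MK4.lg (Q12.uA.ev x y)) +
    (4 : ℕ) • MK4.hk (MK4.sy (Q12.f4.ev x y)) (MK4.lg (Q12.uB.ev x y))
  rw [tA', tA, tB, tL, e1, e2, e3, e4, term12]
  have l1 : MK4.lg ((x - 10 / 3) ^ 4 * (y - 2 / 3 * x) ^ 6 * (y - 10 / 3 * x) ^ 2 *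
      (y + 2 * x) ^ 2 / ((x - 10 / 9) ^ 4 * (x - 10) ^ 2 * (x + 2 / 3) * y ^ 2 *
      (y - 2 * x) ^ 6)) = (4 : ℚ) • MK4.lg (x - 10 / 3) + (6 : ℚ) • MK4.lg (y - 2 / 3 * x) +
      (2 : ℚ) • MK4.lg (y - 10 / 3 * x) + (2 : ℚ) • MK4.lg (y + 2 * x) -
      ((4 : ℚ) • MK4.lg (x - 10 / 9) + (2 : ℚ) • MK4.lg (x - 10) + MK4.lg (x + 2 / 3) +
      (2 : ℚ) • MK4.lg y + (6 : ℚ) • MK4.lg (y - 2 * x)) := by
    have n1 := mul_ne_zero (pow_ne_zero 4 b3) (pow_ne_zero 6 b8)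
    have n2 := mul_ne_zero n1 (pow_ne_zero 2 b9)
    have n3 := mul_ne_zero n2 (pow_ne_zero 2 b10)
    have m1 := mul_ne_zero (pow_ne_zero 4 b5) (pow_ne_zero 2 b2)
    have m2 := mul_ne_zero m1 b4
    have m3 := mul_ne_zero m2 (pow_ne_zero 2 b6)
    have m4 := mul_ne_zero m3 (pow_ne_zero 6 b7)
    rw [TN.lgdiv n3 m4, TN.lgmul n2 (pow_ne_zero 2 b10), TN.lgmul n1 (pow_ne_zero 2 b9),
      TN.lgmul (pow_ne_zero 4 b3) (pow_ne_zero 6 b8), TN.lgmul m3 (pow_ne_zero 6 b7),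
      TN.lgmul m2 (pow_ne_zero 2 b6), TN.lgmul m1 b4,
      TN.lgmul (pow_ne_zero 4 b5) (pow_ne_zero 2 b2), TN.lgpow b3, TN.lgpow b8, TN.lgpow b9,
      TN.lgpow b10, TN.lgpow b5, TN.lgpow b2, TN.lgpow b6, TN.lgpow b7]
    push_cast
    rfl
  have l2 : MK4.lg ((x - 10 / 3) ^ 2 * (y - 2 / 3 * x) ^ 2 * (y - 10 / 3 * x) ^ 2 *
      (y + 2 * x) ^ 2 / ((x - 10 / 9) ^ 2 * (x - 10) ^ 2 * (x + 2 / 3) * y ^ 2 *
      (y - 2 * x) ^ 2)) = (2 : ℚ) • MK4.lg (x - 10 / 3) + (2 : ℚ) • MK4.lg (y - 2 / 3 * x) +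
      (2 : ℚ) • MK4.lg (y - 10 / 3 * x) + (2 : ℚ) • MK4.lg (y + 2 * x) -
      ((2 : ℚ) • MK4.lg (x - 10 / 9) + (2 : ℚ) • MK4.lg (x - 10) + MK4.lg (x + 2 / 3) +
      (2 : ℚ) • MK4.lg y + (2 : ℚ) • MK4.lg (y - 2 * x)) := by
    have n1 := mul_ne_zero (pow_ne_zero 2 b3) (pow_ne_zero 2 b8)
    have n2 := mul_ne_zero n1 (pow_ne_zero 2 b9)
    have n3 := mul_ne_zero n2 (pow_ne_zero 2 b10)
    have m1 := mul_ne_zero (pow_ne_zero 2 b5) (pow_ne_zero 2 b2)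
    have m2 := mul_ne_zero m1 b4
    have m3 := mul_ne_zero m2 (pow_ne_zero 2 b6)
    have m4 := mul_ne_zero m3 (pow_ne_zero 2 b7)
    rw [TN.lgdiv n3 m4, TN.lgmul n2 (pow_ne_zero 2 b10), TN.lgmul n1 (pow_ne_zero 2 b9),
      TN.lgmul (pow_ne_zero 2 b3) (pow_ne_zero 2 b8), TN.lgmul m3 (pow_ne_zero 2 b7),
      TN.lgmul m2 (pow_ne_zero 2 b6), TN.lgmul m1 b4,
      TN.lgmul (pow_ne_zero 2 b5) (pow_ne_zero 2 b2), TN.lgpow b3, TN.lgpow b8, TN.lgpow b9,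
      TN.lgpow b10, TN.lgpow b5, TN.lgpow b2, TN.lgpow b6, TN.lgpow b7]
    push_cast
    rfl
  have l3 : MK4.lg ((x - 10 / 9) * (x - 10) ^ 3 * (x + 2 / 3) * y ^ 4 * (y - 2 / 3 * x) ^ 2 /
      (x * (x - 10 / 3) * (y - 2 * x) ^ 2 * (y - 10 / 3 * x) ^ 4 * (y + 2 * x) ^ 2)) =
      MK4.lg (x - 10 / 9) + (3 : ℚ) • MK4.lg (x - 10) + MK4.lg (x + 2 / 3) +
      (4 : ℚ) • MK4.lg y + (2 : ℚ) • MK4.lg (y - 2 / 3 * x) -
      (MK4.lg x + MK4.lg (x - 10 / 3) + (2 : ℚ) • MK4.lg (y - 2 * x) +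
      (4 : ℚ) • MK4.lg (y - 10 / 3 * x) + (2 : ℚ) • MK4.lg (y + 2 * x)) := by
    have n1 := mul_ne_zero b5 (pow_ne_zero 3 b2)
    have n2 := mul_ne_zero n1 b4
    have n3 := mul_ne_zero n2 (pow_ne_zero 4 b6)
    have n4 := mul_ne_zero n3 (pow_ne_zero 2 b8)
    have m1 := mul_ne_zero a1 b3
    have m2 := mul_ne_zero m1 (pow_ne_zero 2 b7)
    have m3 := mul_ne_zero m2 (pow_ne_zero 4 b9)
    have m4 := mul_ne_zero m3 (pow_ne_zero 2 b10)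
    rw [TN.lgdiv n4 m4, TN.lgmul n3 (pow_ne_zero 2 b8), TN.lgmul n2 (pow_ne_zero 4 b6),
      TN.lgmul n1 b4, TN.lgmul b5 (pow_ne_zero 3 b2), TN.lgmul m3 (pow_ne_zero 2 b10),
      TN.lgmul m2 (pow_ne_zero 4 b9), TN.lgmul m1 (pow_ne_zero 2 b7), TN.lgmul a1 b3,
      TN.lgpow b2, TN.lgpow b6, TN.lgpow b8, TN.lgpow b7, TN.lgpow b9, TN.lgpow b10]
    push_cast
    rfl
  have l4 : MK4.lg ((x - 10 / 3) ^ 2 * (y - 2 / 3 * x) ^ 2 * (y - 10 / 3 * x) ^ 2 *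
      (y + 2 * x) ^ 6 / (x ^ 2 * (x - 10 / 9) ^ 2 * (x - 10) ^ 4 * (x + 2 / 3) ^ 3 * y ^ 2 *
      (y - 2 * x) ^ 2)) = (2 : ℚ) • MK4.lg (x - 10 / 3) + (2 : ℚ) • MK4.lg (y - 2 / 3 * x) +
      (2 : ℚ) • MK4.lg (y - 10 / 3 * x) + (6 : ℚ) • MK4.lg (y + 2 * x) -
      ((2 : ℚ) • MK4.lg x + (2 : ℚ) • MK4.lg (x - 10 / 9) + (4 : ℚ) • MK4.lg (x - 10) +
      (3 : ℚ) • MK4.lg (x + 2 / 3) + (2 : ℚ) • MK4.lg y + (2 : ℚ) • MK4.lg (y - 2 * x)) := by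
    have n1 := mul_ne_zero (pow_ne_zero 2 b3) (pow_ne_zero 2 b8)
    have n2 := mul_ne_zero n1 (pow_ne_zero 2 b9)
    have n3 := mul_ne_zero n2 (pow_ne_zero 6 b10)
    have m1 := mul_ne_zero (pow_ne_zero 2 a1) (pow_ne_zero 2 b5)
    have m2 := mul_ne_zero m1 (pow_ne_zero 4 b2)
    have m3 := mul_ne_zero m2 (pow_ne_zero 3 b4)
    have m4 := mul_ne_zero m3 (pow_ne_zero 2 b6)
    have m5 := mul_ne_zero m4 (pow_ne_zero 2 b7)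
    rw [TN.lgdiv n3 m5, TN.lgmul n2 (pow_ne_zero 6 b10), TN.lgmul n1 (pow_ne_zero 2 b9),
      TN.lgmul (pow_ne_zero 2 b3) (pow_ne_zero 2 b8), TN.lgmul m4 (pow_ne_zero 2 b7),
      TN.lgmul m3 (pow_ne_zero 2 b6), TN.lgmul m2 (pow_ne_zero 3 b4),
      TN.lgmul m1 (pow_ne_zero 4 b2), TN.lgmul (pow_ne_zero 2 a1) (pow_ne_zero 2 b5),
      TN.lgpow b3, TN.lgpow b8, TN.lgpow b9, TN.lgpow b10, TN.lgpow a1, TN.lgpow b5,
      TN.lgpow b2, TN.lgpow b4, TN.lgpow b6, TN.lgpow b7]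
    push_cast
    rfl
  rw [l1, l2, l3, l4]
  generalize MK4.lg x = A1
  generalize MK4.lg (x - 10 / 3) = A2
  generalize MK4.lg (x - 10 / 9) = A4
  generalize MK4.lg (x - 10) = A5
  generalize MK4.lg (x + 2 / 3) = A6
  generalize MK4.lg y = D1
  generalize MK4.lg (y - 2 * x) = D2
  generalize MK4.lg (y - 2 / 3 * x) = D3
  generalize MK4.lg (y - 10 / 3 * x) = D4
  generalize MK4.lg (y + 2 * x) = D5
  push_cast
  simp only [sub_eq_add_neg, TN.hk_add_right, TN.hk_neg_right, TN.hk_smul_right, neg_add, neg_neg]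
  module

/-- **The regulator of the class is not zero.** -/
theorem rz12x [CharZero k] (φ : k →+* ℝ) (h : Gen (10 / 3 : k) 2 x y)
    (htop : IntermediateField.adjoin k {x, y} = ⊤) :
    RZ φ x y Q12.circ12.X Q12.circ12.Y (xi12 x y) := by
  have : CharZero F := charZero_of_injective_algebraMap (algebraMap k F).injective
  have ebk : ((10 / 3 : ℚ) : k) = 10 / 3 := by norm_num
  have eck : ((2 : ℚ) : k) = 2 := by norm_num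
  have h' : Gen ((10 / 3 : ℚ) : k) ((2 : ℚ) : k) x y := by rw [ebk, eck]; exact h
  have key := Q12.rz12a φ h' htop
  have hb : (10 / 3 : k) ≠ 0 := by norm_num
  have ebF : algebraMap k F (10 / 3) = 10 / 3 := by
    rw [map_div₀, map_ofNat, map_ofNat]
  have hg : ∀ n, Gen ((10 / 3 : ℚ) : k) ((2 : ℚ) : k) (It (10 / 3 : F) n (x, y)).1
      (It (10 / 3 : F) n (x, y)).2 := by
    intro n
    have := gen_It hb h n
    rw [ebF] at this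
    rw [ebk, eck]
    exact this
  have e : xi12 x y = ∑ j : Fin 12, ∑ m : Fin 8, Q12.w12 m •
      MK4.hk (MK4.sy ((Q12.f12 m).ev (It (10 / 3 : F) j.val (x, y)).1
        (It (10 / 3 : F) j.val (x, y)).2))
      (MK4.lg ((Q12.u12 m).ev (It (10 / 3 : F) j.val (x, y)).1
        (It (10 / 3 : F) j.val (x, y)).2)) := by
    unfold xi12
    exact Finset.sum_congr rfl fun j _ => term12_eq (hg _)
  have e2 := Fintype.sum_prod_type (fun i : Fin 12 × Fin 8 => (Q12.w12 i.2 •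
    MK4.hk (MK4.sy ((Q12.f12 i.2).ev (It (10 / 3 : F) i.1.val (x, y)).1
      (It (10 / 3 : F) i.1.val (x, y)).2))
      (MK4.lg ((Q12.u12 i.2).ev (It (10 / 3 : F) i.1.val (x, y)).1
        (It (10 / 3 : F) i.1.val (x, y)).2)) : MK4.HK F))
  rw [← e2] at e
  exact key.of_eq e

/-- **The regulator of the class is not zero.** -/
theorem rz_xi12 [CharZero k] (φ : k →+* ℝ) (h : Gen (10 / 3 : k) 2 x y)
    (htop : IntermediateField.adjoin k {x, y} = ⊤) : FK4.RegNe φ (xi12 x y) := by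
  have h' : Gen ((10 / 3 : ℚ) : k) ((2 : ℚ) : k) x y := by
    push_cast
    exact h
  exact (rz12x φ h htop).regNe (Xp_tendsto _) h' htop

/-- **The class is not a combination of symbols of constants.** -/
theorem nv_xi12 [CharZero k] (φ : k →+* ℝ) (h : Gen (10 / 3 : k) 2 x y)
    (htop : IntermediateField.adjoin k {x, y} = ⊤) : xi12 x y ∉ TN.KC k F :=
  fun hm => (rz12x φ h htop).not_mem (mem_span_of_KC hm)

end

end Pool.Agent.K4N
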