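import Pool.Agent.Lib_helper54.FAM.T12a
import Pool.Agent.Lib_helper54.FAM.Q12X

set_option autoImplicit false
set_option linter.unusedSectionVars false
set_option linter.unusedVariables false
set_option linter.unusedSimpArgs false
set_option linter.unusedTactic false
set_option linter.unreachableTactic false
set_option maxRecDepth 100000

/-!
# The special curve with a point of order twelve: the terms
-/

open scoped TensorProduct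

namespace Pool.Agent.FK4

open Pool.Agent.MK4 Pool.Agent.TN Pool.Agent.KC72

section eq

variable {F : Type*} [Field F] {x y A B C H K M D E G J N : F}

lemma Q12a.tm0 [CharZero F] (h : Q12a x y A B C H K M D E G J N) : K4N.term12 x y =
    hk (sy (-C / 2)) (lg ((B ^ 4 * G ^ 6 * J ^ 2 * N ^ 2 / (H ^ 4 * K ^ 2 * M * D ^ 2 * E ^ 6)) ^ 2)) +
    hk (sy (M / 4)) (lg (((B ^ 2 * G ^ 2 * J ^ 2 * N ^ 2 / (H ^ 2 * K ^ 2 * M * D ^ 2 * E ^ 2)) ^ 3)⁻¹)) +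
    hk (sy (-K / (2 * A))) (lg ((H * K ^ 3 * M * D ^ 4 * G ^ 2 / (A * B * E ^ 2 * J ^ 4 * N ^ 2)) ^ 2)) +
    hk (sy (-K / (4 * A))) (lg ((B ^ 2 * G ^ 2 * J ^ 2 * N ^ 6 / (A ^ 2 * H ^ 2 * K ^ 4 * M ^ 3 * D ^ 2 * E ^ 2)) ^ 2)) := by
  have A0 := h.A0
  have B0 := h.B0
  have C0 := h.C0
  have H0 := h.H0
  have K0 := h.K0
  have M0 := h.M0
  have D0 := h.D0
  have E0 := h.E0
  have G0 := h.G0
  have J0 := h.J0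
  have N0 := h.N0
  have r0 : hk (sy (-C / 2)) (lg ((B ^ 4 * G ^ 6 * J ^ 2 * N ^ 2 / (H ^ 4 * K ^ 2 * M * D ^ 2 * E ^ 6)) ^ 2)) =
      (2 : ℚ) • hk (sy (-C / 2)) (lg (B ^ 4 * G ^ 6 * J ^ 2 * N ^ 2 / (H ^ 4 * K ^ 2 * M * D ^ 2 * E ^ 6))) := by
    rw [TN.lgpow (div_ne_zero (mul_ne_zero (mul_ne_zero (mul_ne_zero (pow_ne_zero 4 B0) (pow_ne_zero 6 G0)) (pow_ne_zero 2 J0)) (pow_ne_zero 2 N0)) (mul_ne_zero (mul_ne_zero (mul_ne_zero (mul_ne_zero (pow_ne_zero 4 H0) (pow_ne_zero 2 K0)) M0) (pow_ne_zero 2 D0)) (pow_ne_zero 6 E0))), hk_smul_right]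
    norm_num
  have r1 : hk (sy (M / 4)) (lg (((B ^ 2 * G ^ 2 * J ^ 2 * N ^ 2 / (H ^ 2 * K ^ 2 * M * D ^ 2 * E ^ 2)) ^ 3)⁻¹)) =
      (-3 : ℚ) • hk (sy (M / 4)) (lg (B ^ 2 * G ^ 2 * J ^ 2 * N ^ 2 / (H ^ 2 * K ^ 2 * M * D ^ 2 * E ^ 2))) := by
    rw [TN.lginv, TN.lgpow (div_ne_zero (mul_ne_zero (mul_ne_zero (mul_ne_zero (pow_ne_zero 2 B0) (pow_ne_zero 2 G0)) (pow_ne_zero 2 J0)) (pow_ne_zero 2 N0)) (mul_ne_zero (mul_ne_zero (mul_ne_zero (mul_ne_zero (pow_ne_zero 2 H0) (pow_ne_zero 2 K0)) M0) (pow_ne_zero 2 D0)) (pow_ne_zero 2 E0))), hk_neg_right, hk_smul_right, neg_smul]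
    norm_num
  have r2 : hk (sy (-K / (2 * A))) (lg ((H * K ^ 3 * M * D ^ 4 * G ^ 2 / (A * B * E ^ 2 * J ^ 4 * N ^ 2)) ^ 2)) =
      (2 : ℚ) • hk (sy (-K / (2 * A))) (lg (H * K ^ 3 * M * D ^ 4 * G ^ 2 / (A * B * E ^ 2 * J ^ 4 * N ^ 2))) := by
    rw [TN.lgpow (div_ne_zero (mul_ne_zero (mul_ne_zero (mul_ne_zero (mul_ne_zero H0 (pow_ne_zero 3 K0)) M0) (pow_ne_zero 4 D0)) (pow_ne_zero 2 G0)) (mul_ne_zero (mul_ne_zero (mul_ne_zero (mul_ne_zero A0 B0) (pow_ne_zero 2 E0)) (pow_ne_zero 4 J0)) (pow_ne_zero 2 N0))), hk_smul_right]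
    norm_num
  have r3 : hk (sy (-K / (4 * A))) (lg ((B ^ 2 * G ^ 2 * J ^ 2 * N ^ 6 / (A ^ 2 * H ^ 2 * K ^ 4 * M ^ 3 * D ^ 2 * E ^ 2)) ^ 2)) =
      (2 : ℚ) • hk (sy (-K / (4 * A))) (lg (B ^ 2 * G ^ 2 * J ^ 2 * N ^ 6 / (A ^ 2 * H ^ 2 * K ^ 4 * M ^ 3 * D ^ 2 * E ^ 2))) := by
    rw [TN.lgpow (div_ne_zero (mul_ne_zero (mul_ne_zero (mul_ne_zero (pow_ne_zero 2 B0) (pow_ne_zero 2 G0)) (pow_ne_zero 2 J0)) (pow_ne_zero 6 N0)) (mul_ne_zero (mul_ne_zero (mul_ne_zero (mul_ne_zero (mul_ne_zero (pow_ne_zero 2 A0) (pow_ne_zero 2 H0)) (pow_ne_zero 4 K0)) (pow_ne_zero 3 M0)) (pow_ne_zero 2 D0)) (pow_ne_zero 2 E0))), hk_smul_right]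
    norm_num
  rw [r0, r1, r2, r3]
  unfold K4N.term12
  rw [h.hB, h.hC, h.hH, h.hK, h.hM, h.hE, h.hG, h.hJ, h.hN, h.hA, h.hD]
  module

end eq

end Pool.Agent.FK4
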