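import Pool.Agent.Lib_helper54.FAM.L12
import Pool.Agent.Lib_helper54.FAM.LK12t
import Pool.Agent.Lib_helper54.FAM.LK12p1
import Pool.Agent.Lib_helper54.FAM.LK12p2
import Pool.Agent.Lib_helper54.FAM.LK12p3
import Pool.Agent.Lib_helper54.FAM.LK12p4
import Pool.Agent.Lib_helper54.FAM.LK12p5
import Pool.Agent.Lib_helper54.FAM.LK12p6

set_option autoImplicit false
set_option linter.unusedSectionVars false
set_option linter.unusedVariables false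
set_option linter.unusedSimpArgs false
set_option maxRecDepth 100000

/-!
# The special curve with a point of order twelve: the explicit class as monomials
-/

open scoped TensorProduct

namespace Pool.Agent.FK4

open Pool.Agent.MK4 Pool.Agent.TN Pool.Agent.KC72

section eq

variable {F : Type*} [Field F] {x y A B C H K M D E G J N : F}

/-- the class as a combination of monomials -/
theorem xi12_eq [CharZero F] (he : y ^ 2 - x * y - 10 / 3 * y = x ^ 3 - 10 / 3 * x ^ 2)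
    (hne : ∀ z ∈ FK4R.g12a x y, z ≠ 0) :
    K4N.xi12 x y = zt (FK4R.g12a x y) N12T.cls12_cls L12 := by
  have A0 : x ≠ 0 := hne _ (by simp [FK4R.g12a])
  have B0 : x - (10 / 3) ≠ 0 := hne _ (by simp [FK4R.g12a])
  have C0 : x - 2 ≠ 0 := hne _ (by simp [FK4R.g12a])
  have H0 : x - (10 / 9) ≠ 0 := hne _ (by simp [FK4R.g12a])
  have K0 : x - 10 ≠ 0 := hne _ (by simp [FK4R.g12a])
  have M0 : x + (2 / 3) ≠ 0 := hne _ (by simp [FK4R.g12a])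
  have D0 : y ≠ 0 := hne _ (by simp [FK4R.g12a])
  have E0 : y - 2 * x ≠ 0 := hne _ (by simp [FK4R.g12a])
  have G0 : y - (2 / 3) * x ≠ 0 := hne _ (by simp [FK4R.g12a])
  have J0 : y - (10 / 3) * x ≠ 0 := hne _ (by simp [FK4R.g12a])
  have N0 : y + 2 * x ≠ 0 := hne _ (by simp [FK4R.g12a])
  obtain ⟨B, hB⟩ : ∃ B, x - (10 / 3) = B := ⟨_, rfl⟩
  obtain ⟨C, hC⟩ : ∃ C, x - 2 = C := ⟨_, rfl⟩
  obtain ⟨H, hH⟩ : ∃ H, x - (10 / 9) = H := ⟨_, rfl⟩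
  obtain ⟨K, hK⟩ : ∃ K, x - 10 = K := ⟨_, rfl⟩
  obtain ⟨M, hM⟩ : ∃ M, x + (2 / 3) = M := ⟨_, rfl⟩
  obtain ⟨E, hE⟩ : ∃ E, y - 2 * x = E := ⟨_, rfl⟩
  obtain ⟨G, hG⟩ : ∃ G, y - (2 / 3) * x = G := ⟨_, rfl⟩
  obtain ⟨J, hJ⟩ : ∃ J, y - (10 / 3) * x = J := ⟨_, rfl⟩
  obtain ⟨N, hN⟩ : ∃ N, y + 2 * x = N := ⟨_, rfl⟩
  have hg : FK4R.g12a x y = [x, B, C, H, K, M, y, E, G, J, N, 2, 3, 5] := by
    rw [← hB, ← hC, ← hH, ← hK, ← hM, ← hE, ← hG, ← hJ, ← hN]; rfl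
  have hQ : Q12a x y x B C H K M y E G J N := by
    refine ⟨rfl, hB, hC, hH, hK, hM, rfl, hE, hG, hJ, hN, A0, ?_, ?_, ?_, ?_, ?_, D0, ?_, ?_, ?_, ?_,
      by linear_combination he⟩
    · rw [← hB]; exact B0
    · rw [← hC]; exact C0
    · rw [← hH]; exact H0
    · rw [← hK]; exact K0
    · rw [← hM]; exact M0
    · rw [← hE]; exact E0
    · rw [← hG]; exact G0
    · rw [← hJ]; exact J0
    · rw [← hN]; exact N0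
  rw [hB] at B0
  rw [hC] at C0
  rw [hH] at H0
  rw [hK] at K0
  rw [hM] at M0
  rw [hE] at E0
  rw [hG] at G0
  rw [hJ] at J0
  rw [hN] at N0
  obtain ⟨h0, h1, h2, h3, h4, h5, h6, h7, h8, h9, h10, h11⟩ := hQ.all
  have e0_0 := h0.tm0
  have e0_1 := h1.tm0
  have e0_2 := h2.tm0
  have e0_3 := h3.tm0
  have e0_4 := h4.tm0
  have e0_5 := h5.tm0
  have e0_6 := h6.tm0
  have e0_7 := h7.tm0
  have e0_8 := h8.tm0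
  have e0_9 := h9.tm0
  have e0_10 := h10.tm0
  have e0_11 := h11.tm0
  have s1 : K4N.xi12 x y =
(      K4N.term12 (K4N.It ((10 / 3) : F) 0 (x, y)).1 (K4N.It ((10 / 3) : F) 0 (x, y)).2 +
      K4N.term12 (K4N.It ((10 / 3) : F) 1 (x, y)).1 (K4N.It ((10 / 3) : F) 1 (x, y)).2 +
      K4N.term12 (K4N.It ((10 / 3) : F) 2 (x, y)).1 (K4N.It ((10 / 3) : F) 2 (x, y)).2 +
      K4N.term12 (K4N.It ((10 / 3) : F) 3 (x, y)).1 (K4N.It ((10 / 3) : F) 3 (x, y)).2 +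
      K4N.term12 (K4N.It ((10 / 3) : F) 4 (x, y)).1 (K4N.It ((10 / 3) : F) 4 (x, y)).2 +
      K4N.term12 (K4N.It ((10 / 3) : F) 5 (x, y)).1 (K4N.It ((10 / 3) : F) 5 (x, y)).2 +
      K4N.term12 (K4N.It ((10 / 3) : F) 6 (x, y)).1 (K4N.It ((10 / 3) : F) 6 (x, y)).2 +
      K4N.term12 (K4N.It ((10 / 3) : F) 7 (x, y)).1 (K4N.It ((10 / 3) : F) 7 (x, y)).2 +
      K4N.term12 (K4N.It ((10 / 3) : F) 8 (x, y)).1 (K4N.It ((10 / 3) : F) 8 (x, y)).2 +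
      K4N.term12 (K4N.It ((10 / 3) : F) 9 (x, y)).1 (K4N.It ((10 / 3) : F) 9 (x, y)).2 +
      K4N.term12 (K4N.It ((10 / 3) : F) 10 (x, y)).1 (K4N.It ((10 / 3) : F) 10 (x, y)).2 +
      K4N.term12 (K4N.It ((10 / 3) : F) 11 (x, y)).1 (K4N.It ((10 / 3) : F) 11 (x, y)).2) := by
    unfold K4N.xi12
    rw [Fin.sum_univ_castSucc, Fin.sum_univ_castSucc, Fin.sum_univ_castSucc, Fin.sum_univ_castSucc, Fin.sum_univ_eight]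
    rfl
  rw [s1, e0_0, e0_1, e0_2, e0_3, e0_4, e0_5, e0_6, e0_7, e0_8, e0_9, e0_10, e0_11]
  generalize hgg : FK4R.g12a x y = g at hg ⊢
  have p0 : oo N12T.cls12_cls (585, 0) = (true, [0, 0, 1, 0, 0, 0, 0, 0, 0, 0, 0, -1, 0, 0]) := by decide +kernel
  have p1 : oo N12T.cls12_cls (343, 0) = (false, [0, 0, 0, 0, 0, 1, 0, 0, 0, 0, 0, -2, 0, 0]) := by decide +kernel
  have p2 : oo N12T.cls12_cls (400, 0) = (true, [-1, 0, 0, 0, 1, 0, 0, 0, 0, 0, 0, -1, 0, 0]) := by decide +kernel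
  have p3 : oo N12T.cls12_cls (398, 0) = (true, [-1, 0, 0, 0, 1, 0, 0, 0, 0, 0, 0, -2, 0, 0]) := by decide +kernel
  have p4 : oo N12T.cls12_cls (13, 3) = (false, [-2, 0, -1, 0, 0, 0, 0, 1, 1, 0, 0, 0, 0, 0]) := by decide +kernel
  have p5 : oo N12T.cls12_cls (3, 3) = (false, [-2, 0, 0, 0, 0, -1, 0, 0, 0, 0, 2, -1, -1, 0]) := by decide +kernel
  have p6 : oo N12T.cls12_cls (505, 0) = (false, [0, 0, 0, 0, -1, 0, -1, 0, 0, 1, 1, -1, 1, 0]) := by decide +kernel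
  have p7 : oo N12T.cls12_cls (504, 0) = (false, [0, 0, 0, 0, -1, 0, -1, 0, 0, 1, 1, -2, 1, 0]) := by decide +kernel
  have p8 : oo N12T.cls12_cls (36, 2) = (true, [0, -1, -1, -1, 0, 0, -1, 1, 1, 1, 0, 1, -1, 0]) := by decide +kernel
  have p9 : oo N12T.cls12_cls (41, 3) = (false, [0, 0, 0, 0, -2, -1, -2, 0, 0, 2, 2, 0, 0, 0]) := by decide +kernel
  have p10 : oo N12T.cls12_cls (65, 3) = (false, [-1, 1, 0, -1, -1, -1, -1, -1, 1, 1, 2, 0, 0, 0]) := by decide +kernel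
  have p11 : oo N12T.cls12_cls (64, 3) = (false, [-1, 1, 0, -1, -1, -1, -1, -1, 1, 1, 2, -1, 0, 0]) := by decide +kernel
  have p12 : oo N12T.cls12_cls (89, 2) = (true, [0, 1, -1, -1, -1, 0, -1, -1, 1, 1, 1, 2, -1, 0]) := by decide +kernel
  have p13 : oo N12T.cls12_cls (90, 2) = (false, [0, 2, 0, -2, -2, -1, -2, -2, 2, 2, 2, 1, -1, 0]) := by decide +kernel
  have p14 : oo N12T.cls12_cls (124, 2) = (false, [0, 1, 0, -1, -2, -1, -2, 0, 0, 2, 2, 1, 0, 0]) := by decide +kernel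
  have p15 : oo N12T.cls12_cls (131, 3) = (false, [0, 1, 0, -1, -2, -1, -2, 0, 0, 2, 2, 0, 0, 0]) := by decide +kernel
  have p16 : oo N12T.cls12_cls (151, 2) = (false, [1, 1, 1, -1, -1, -1, -1, -1, -1, 1, 2, 2, -2, 0]) := by decide +kernel
  have p17 : oo N12T.cls12_cls (156, 2) = (false, [0, 2, 0, -2, -2, -1, -2, 0, 0, 2, 2, 2, -2, 0]) := by decide +kernel
  have p18 : oo N12T.cls12_cls (204, 2) = (false, [0, 1, 0, -1, -2, -1, -1, -1, 1, 1, 2, 2, 0, 0]) := by decide +kernel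
  have p19 : oo N12T.cls12_cls (207, 2) = (false, [0, 1, 0, -1, -2, -1, -1, -1, 1, 1, 2, 1, 0, 0]) := by decide +kernel
  have p20 : oo N12T.cls12_cls (235, 2) = (true, [0, 1, 1, 1, -2, -1, 0, -1, -1, 0, 2, 2, 0, 0]) := by decide +kernel
  have p21 : oo N12T.cls12_cls (241, 2) = (false, [0, 0, 0, 0, -2, -1, 0, 0, 0, 0, 2, 3, -1, 0]) := by decide +kernel
  have p22 : oo N12T.cls12_cls (297, 2) = (true, [0, 1, 0, -1, -1, -1, -1, 0, 0, 1, 1, 3, -1, 0]) := by decide +kernel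
  have p23 : oo N12T.cls12_cls (300, 2) = (true, [0, 1, 0, -1, -1, -1, -1, 0, 0, 1, 1, 2, -1, 0]) := by decide +kernel
  have p24 : oo N12T.cls12_cls (331, 2) = (false, [0, 0, 1, 0, 0, -1, 0, 0, 0, 0, 0, 2, -1, 0]) := by decide +kernel
  have p25 : oo N12T.cls12_cls (338, 2) = (false, [0, 0, 0, 0, 0, -1, 0, 0, 0, 0, 0, 4, -2, 0]) := by decide +kernel
  have p26 : oo N12T.cls12_cls (395, 2) = (true, [1, 0, 0, 0, -1, 0, 0, 0, 0, 0, 0, 3, 0, 0]) := by decide +kernel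
  have p27 : oo N12T.cls12_cls (398, 2) = (true, [1, 0, 0, 0, -1, 0, 0, 0, 0, 0, 0, 2, 0, 0]) := by decide +kernel
  have p28 : oo N12T.cls12_cls (432, 2) = (true, [0, 0, -1, 0, 0, 1, 0, 1, 1, 0, -2, 2, 0, 0]) := by decide +kernel
  have p29 : oo N12T.cls12_cls (1, 5) = (false, [2, 0, 0, 0, 0, 1, 0, 0, 0, 0, -2, 3, -1, 0]) := by decide +kernel
  have p30 : oo N12T.cls12_cls (502, 2) = (false, [0, 0, 0, 0, 1, 0, 1, 0, 0, -1, -1, 3, -1, 0]) := by decide +kernel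
  have p31 : oo N12T.cls12_cls (504, 2) = (false, [0, 0, 0, 0, 1, 0, 1, 0, 0, -1, -1, 2, -1, 0]) := by decide +kernel
  have p32 : oo N12T.cls12_cls (534, 2) = (false, [0, -1, -1, -1, 2, 1, 1, 1, 1, -1, -2, 2, -2, 0]) := by decide +kernel
  have p33 : oo N12T.cls12_cls (39, 5) = (false, [0, 0, 0, 0, 2, 1, 2, 0, 0, -2, -2, 2, -2, 0]) := by decide +kernel
  have p34 : oo N12T.cls12_cls (63, 5) = (false, [1, -1, 0, 1, 1, 1, 1, 1, -1, -1, -2, 2, 0, 0]) := by decide +kernel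
  have p35 : oo N12T.cls12_cls (64, 5) = (false, [1, -1, 0, 1, 1, 1, 1, 1, -1, -1, -2, 1, 0, 0]) := by decide +kernel
  have p36 : oo N12T.cls12_cls (637, 2) = (false, [0, -1, -1, 1, 1, 1, 1, 1, -1, -1, -1, 2, -1, 0]) := by decide +kernel
  have p37 : oo N12T.cls12_cls (95, 5) = (false, [0, -2, 0, 2, 2, 1, 2, 2, -2, -2, -2, 1, -1, 0]) := by decide +kernel
  have p38 : oo N12T.cls12_cls (130, 5) = (false, [0, -1, 0, 1, 2, 1, 2, 0, 0, -2, -2, 1, 0, 0]) := by decide +kernel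
  have p39 : oo N12T.cls12_cls (131, 5) = (false, [0, -1, 0, 1, 2, 1, 2, 0, 0, -2, -2, 0, 0, 0]) := by decide +kernel
  have p40 : oo N12T.cls12_cls (371, 5) = (true, [1, -1, 1, 1, 1, 0, 1, -1, -1, -1, 0, 1, -1, 0]) := by decide +kernel
  have p41 : oo N12T.cls12_cls (163, 5) = (false, [0, -2, 0, 2, 2, 1, 2, 0, 0, -2, -2, 0, 0, 0]) := by decide +kernel
  have p42 : oo N12T.cls12_cls (211, 5) = (false, [0, -1, 0, 1, 2, 1, 1, 1, -1, -1, -2, 0, 0, 0]) := by decide +kernel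
  have p43 : oo N12T.cls12_cls (207, 0) = (false, [0, -1, 0, 1, 2, 1, 1, 1, -1, -1, -2, -1, 0, 0]) := by decide +kernel
  have p44 : oo N12T.cls12_cls (475, 5) = (false, [0, 1, 1, 1, 0, 0, 0, -1, -1, 0, 0, 0, 0, 0]) := by decide +kernel
  have p45 : oo N12T.cls12_cls (246, 0) = (false, [0, 0, 0, 0, 2, 1, 0, 0, 0, 0, -2, -1, -1, 0]) := by decide +kernel
  have p46 : oo N12T.cls12_cls (302, 0) = (true, [0, -1, 0, 1, 1, 1, 1, 0, 0, -1, -1, -1, 1, 0]) := by decide +kernel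
  have p47 : oo N12T.cls12_cls (300, 0) = (true, [0, -1, 0, 1, 1, 1, 1, 0, 0, -1, -1, -2, 1, 0]) := by decide +kernel
  have z : zt g N12T.cls12_cls L12 =
    hk (sy (ev g (true, [0, 0, 1, 0, 0, 0, 0, 0, 0, 0, 0, -1, 0, 0]))) (lg (evl g [0, 8, 0, -8, -4, -2, -4, -12, 12, 4, 4, 0, 0, 0])) + (
    hk (sy (ev g (false, [0, 0, 0, 0, 0, 1, 0, 0, 0, 0, 0, -2, 0, 0]))) (lg (evl g [0, -6, 0, 6, 6, 3, 6, 6, -6, -6, -6, 0, 0, 0])) + (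
    hk (sy (ev g (true, [-1, 0, 0, 0, 1, 0, 0, 0, 0, 0, 0, -1, 0, 0]))) (lg (evl g [-2, -2, 0, 2, 6, 2, 8, -4, 4, -8, -4, 0, 0, 0])) + (
    hk (sy (ev g (true, [-1, 0, 0, 0, 1, 0, 0, 0, 0, 0, 0, -2, 0, 0]))) (lg (evl g [-4, 4, 0, -4, -8, -6, -4, -4, 4, 4, 12, 0, 0, 0])) + (
    hk (sy (ev g (false, [-2, 0, -1, 0, 0, 0, 0, 1, 1, 0, 0, 0, 0, 0]))) (lg (evl g [0, 8, 0, -8, -4, -2, -8, 4, -4, 8, 4, 2, -6, 0])) + (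
    hk (sy (ev g (false, [-2, 0, 0, 0, 0, -1, 0, 0, 0, 0, 2, -1, -1, 0]))) (lg (evl g [0, -6, 0, 6, 6, 3, 6, 0, 0, -6, -6, -3, 3, 0])) + (
    hk (sy (ev g (false, [0, 0, 0, 0, -1, 0, -1, 0, 0, 1, 1, -1, 1, 0]))) (lg (evl g [0, -2, 0, 2, 6, 2, 0, 6, -6, 0, -6, -2, -2, 0])) + (
    hk (sy (ev g (false, [0, 0, 0, 0, -1, 0, -1, 0, 0, 1, 1, -2, 1, 0]))) (lg (evl g [0, 4, 0, -4, -8, -6, -8, 0, 0, 8, 8, 6, -2, 0])) + (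
    hk (sy (ev g (true, [0, -1, -1, -1, 0, 0, -1, 1, 1, 1, 0, 1, -1, 0]))) (lg (evl g [0, -4, 0, 4, -8, -2, 4, 0, 0, -4, 8, 4, 4, 0])) + (
    hk (sy (ev g (false, [0, 0, 0, 0, -2, -1, -2, 0, 0, 2, 2, 0, 0, 0]))) (lg (evl g [0, 0, 0, 0, 6, 3, 0, 0, 0, 0, -6, -6, 0, 0])) + (
    hk (sy (ev g (false, [-1, 1, 0, -1, -1, -1, -1, -1, 1, 1, 2, 0, 0, 0]))) (lg (evl g [2, -4, 0, 4, 0, 4, 4, -2, 2, -4, -2, -6, 6, 0])) + (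
    hk (sy (ev g (false, [-1, 1, 0, -1, -1, -1, -1, -1, 1, 1, 2, -1, 0, 0]))) (lg (evl g [4, 4, 0, -4, -8, -2, -4, -4, 4, 4, 4, 8, 0, 0])) + (
    hk (sy (ev g (true, [0, 1, -1, -1, -1, 0, -1, -1, 1, 1, 1, 2, -1, 0]))) (lg (evl g [-4, 0, 0, 0, 4, -6, 0, 0, 0, 0, 0, 10, -6, 0])) + (
    hk (sy (ev g (false, [0, 2, 0, -2, -2, -1, -2, -2, 2, 2, 2, 1, -1, 0]))) (lg (evl g [0, 0, 0, 0, 0, 3, 0, 0, 0, 0, 0, -9, 3, 0])) + (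
    hk (sy (ev g (false, [0, 1, 0, -1, -2, -1, -2, 0, 0, 2, 2, 1, 0, 0]))) (lg (evl g [-6, 2, 0, -2, 6, -2, 0, 0, 0, 0, 0, -4, -4, 0])) + (
    hk (sy (ev g (false, [0, 1, 0, -1, -2, -1, -2, 0, 0, 2, 2, 0, 0, 0]))) (lg (evl g [0, 4, 0, -4, 0, -2, 0, 0, 0, 0, 0, 10, -6, 0])) + (
    hk (sy (ev g (false, [1, 1, 1, -1, -1, -1, -1, -1, -1, 1, 2, 2, -2, 0]))) (lg (evl g [12, 0, 0, 0, -4, 6, -4, 0, 0, 4, -8, 4, 4, 0])) + (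
    hk (sy (ev g (false, [0, 2, 0, -2, -2, -1, -2, 0, 0, 2, 2, 2, -2, 0]))) (lg (evl g [-6, 0, 0, 0, 0, -3, 0, 0, 0, 0, 6, -6, 0, 0])) + (
    hk (sy (ev g (false, [0, 1, 0, -1, -2, -1, -1, -1, 1, 1, 2, 2, 0, 0]))) (lg (evl g [4, -2, 0, 2, -6, 2, -4, 2, -2, 4, 2, -6, 6, 0])) + (
    hk (sy (ev g (false, [0, 1, 0, -1, -2, -1, -1, -1, 1, 1, 2, 1, 0, 0]))) (lg (evl g [4, -4, 0, 4, 0, 2, 4, 4, -4, -4, -4, 8, 0, 0])) + (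
    hk (sy (ev g (true, [0, 1, 1, 1, -2, -1, 0, -1, -1, 0, 2, 2, 0, 0]))) (lg (evl g [-4, 4, 0, -4, 8, 2, 8, -4, 4, -8, -4, 2, -6, 0])) + (
    hk (sy (ev g (false, [0, 0, 0, 0, -2, -1, 0, 0, 0, 0, 2, 3, -1, 0]))) (lg (evl g [0, 0, 0, 0, -6, -3, -6, 0, 0, 6, 6, -3, 3, 0])) + (
    hk (sy (ev g (true, [0, 1, 0, -1, -1, -1, -1, 0, 0, 1, 1, 3, -1, 0]))) (lg (evl g [-6, 4, 0, -4, 0, -4, 0, -6, 6, 0, 6, -2, -2, 0])) + (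
    hk (sy (ev g (true, [0, 1, 0, -1, -1, -1, -1, 0, 0, 1, 1, 2, -1, 0]))) (lg (evl g [0, -4, 0, 4, 8, 2, 8, 0, 0, -8, -8, 6, -2, 0])) + (
    hk (sy (ev g (false, [0, 0, 1, 0, 0, -1, 0, 0, 0, 0, 0, 2, -1, 0]))) (lg (evl g [0, -8, 0, 8, 4, 2, 4, 12, -12, -4, -4, 0, 0, 0])) + (
    hk (sy (ev g (false, [0, 0, 0, 0, 0, -1, 0, 0, 0, 0, 0, 4, -2, 0]))) (lg (evl g [0, 6, 0, -6, -6, -3, -6, -6, 6, 6, 6, 0, 0, 0])) + (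
    hk (sy (ev g (true, [1, 0, 0, 0, -1, 0, 0, 0, 0, 0, 0, 3, 0, 0]))) (lg (evl g [2, 2, 0, -2, -6, -2, -8, 4, -4, 8, 4, 0, 0, 0])) + (
    hk (sy (ev g (true, [1, 0, 0, 0, -1, 0, 0, 0, 0, 0, 0, 2, 0, 0]))) (lg (evl g [4, -4, 0, 4, 8, 6, 4, 4, -4, -4, -12, 0, 0, 0])) + (
    hk (sy (ev g (true, [0, 0, -1, 0, 0, 1, 0, 1, 1, 0, -2, 2, 0, 0]))) (lg (evl g [0, -8, 0, 8, 4, 2, 8, -4, 4, -8, -4, -2, 6, 0])) + (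
    hk (sy (ev g (false, [2, 0, 0, 0, 0, 1, 0, 0, 0, 0, -2, 3, -1, 0]))) (lg (evl g [0, 6, 0, -6, -6, -3, -6, 0, 0, 6, 6, 3, -3, 0])) + (
    hk (sy (ev g (false, [0, 0, 0, 0, 1, 0, 1, 0, 0, -1, -1, 3, -1, 0]))) (lg (evl g [0, 2, 0, -2, -6, -2, 0, -6, 6, 0, 6, 2, 2, 0])) + (
    hk (sy (ev g (false, [0, 0, 0, 0, 1, 0, 1, 0, 0, -1, -1, 2, -1, 0]))) (lg (evl g [0, -4, 0, 4, 8, 6, 8, 0, 0, -8, -8, -6, 2, 0])) + (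
    hk (sy (ev g (false, [0, -1, -1, -1, 2, 1, 1, 1, 1, -1, -2, 2, -2, 0]))) (lg (evl g [0, 4, 0, -4, 8, 2, -4, 0, 0, 4, -8, -4, -4, 0])) + (
    hk (sy (ev g (false, [0, 0, 0, 0, 2, 1, 2, 0, 0, -2, -2, 2, -2, 0]))) (lg (evl g [0, 0, 0, 0, -6, -3, 0, 0, 0, 0, 6, 6, 0, 0])) + (
    hk (sy (ev g (false, [1, -1, 0, 1, 1, 1, 1, 1, -1, -1, -2, 2, 0, 0]))) (lg (evl g [-2, 4, 0, -4, 0, -4, -4, 2, -2, 4, 2, 6, -6, 0])) + (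
    hk (sy (ev g (false, [1, -1, 0, 1, 1, 1, 1, 1, -1, -1, -2, 1, 0, 0]))) (lg (evl g [-4, -4, 0, 4, 8, 2, 4, 4, -4, -4, -4, -8, 0, 0])) + (
    hk (sy (ev g (false, [0, -1, -1, 1, 1, 1, 1, 1, -1, -1, -1, 2, -1, 0]))) (lg (evl g [4, 0, 0, 0, -4, 6, 0, 0, 0, 0, 0, -10, 6, 0])) + (
    hk (sy (ev g (false, [0, -2, 0, 2, 2, 1, 2, 2, -2, -2, -2, 1, -1, 0]))) (lg (evl g [0, 0, 0, 0, 0, -3, 0, 0, 0, 0, 0, 9, -3, 0])) + (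
    hk (sy (ev g (false, [0, -1, 0, 1, 2, 1, 2, 0, 0, -2, -2, 1, 0, 0]))) (lg (evl g [6, -2, 0, 2, -6, 2, 0, 0, 0, 0, 0, 4, 4, 0])) + (
    hk (sy (ev g (false, [0, -1, 0, 1, 2, 1, 2, 0, 0, -2, -2, 0, 0, 0]))) (lg (evl g [0, -4, 0, 4, 0, 2, 0, 0, 0, 0, 0, -10, 6, 0])) + (
    hk (sy (ev g (true, [1, -1, 1, 1, 1, 0, 1, -1, -1, -1, 0, 1, -1, 0]))) (lg (evl g [-12, 0, 0, 0, 4, -6, 4, 0, 0, -4, 8, -4, -4, 0])) + (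
    hk (sy (ev g (false, [0, -2, 0, 2, 2, 1, 2, 0, 0, -2, -2, 0, 0, 0]))) (lg (evl g [6, 0, 0, 0, 0, 3, 0, 0, 0, 0, -6, 6, 0, 0])) + (
    hk (sy (ev g (false, [0, -1, 0, 1, 2, 1, 1, 1, -1, -1, -2, 0, 0, 0]))) (lg (evl g [-4, 2, 0, -2, 6, -2, 4, -2, 2, -4, -2, 6, -6, 0])) + (
    hk (sy (ev g (false, [0, -1, 0, 1, 2, 1, 1, 1, -1, -1, -2, -1, 0, 0]))) (lg (evl g [-4, 4, 0, -4, 0, -2, -4, -4, 4, 4, 4, -8, 0, 0])) + (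
    hk (sy (ev g (false, [0, 1, 1, 1, 0, 0, 0, -1, -1, 0, 0, 0, 0, 0]))) (lg (evl g [4, -4, 0, 4, -8, -2, -8, 4, -4, 8, 4, -2, 6, 0])) + (
    hk (sy (ev g (false, [0, 0, 0, 0, 2, 1, 0, 0, 0, 0, -2, -1, -1, 0]))) (lg (evl g [0, 0, 0, 0, 6, 3, 6, 0, 0, -6, -6, 3, -3, 0])) + (
    hk (sy (ev g (true, [0, -1, 0, 1, 1, 1, 1, 0, 0, -1, -1, -1, 1, 0]))) (lg (evl g [6, -4, 0, 4, 0, 4, 0, 6, -6, 0, -6, 2, 2, 0])) + (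
    hk (sy (ev g (true, [0, -1, 0, 1, 1, 1, 1, 0, 0, -1, -1, -2, 1, 0]))) (lg (evl g [0, 4, 0, -4, -8, -2, -8, 0, 0, 8, 8, -6, 2, 0])) + 0))))))))))))))))))))))))))))))))))))))))))))))) := by
    rw [← p0, ← p1, ← p2, ← p3, ← p4, ← p5, ← p6, ← p7, ← p8, ← p9, ← p10, ← p11, ← p12, ← p13, ← p14, ← p15, ← p16, ← p17, ← p18, ← p19, ← p20, ← p21, ← p22, ← p23, ← p24, ← p25, ← p26, ← p27, ← p28, ← p29, ← p30, ← p31, ← p32, ← p33, ← p34, ← p35, ← p36, ← p37, ← p38, ← p39, ← p40, ← p41, ← p42, ← p43, ← p44, ← p45, ← p46, ← p47]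
    rfl
  rw [z, hg]
  clear z hgg
  have c0 := c12_0 A0 B0 C0 H0 K0 M0 D0 E0 G0 J0 N0
  have c1 := c12_1 A0 B0 C0 H0 K0 M0 D0 E0 G0 J0 N0
  have c2 := c12_2 A0 B0 C0 H0 K0 M0 D0 E0 G0 J0 N0
  have c3 := c12_3 A0 B0 C0 H0 K0 M0 D0 E0 G0 J0 N0
  have c4 := c12_4 A0 B0 C0 H0 K0 M0 D0 E0 G0 J0 N0
  have c5 := c12_5 A0 B0 C0 H0 K0 M0 D0 E0 G0 J0 N0
  have c6 := c12_6 A0 B0 C0 H0 K0 M0 D0 E0 G0 J0 N0
  have c7 := c12_7 A0 B0 C0 H0 K0 M0 D0 E0 G0 J0 N0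
  have c8 := c12_8 A0 B0 C0 H0 K0 M0 D0 E0 G0 J0 N0
  have c9 := c12_9 A0 B0 C0 H0 K0 M0 D0 E0 G0 J0 N0
  have c10 := c12_10 A0 B0 C0 H0 K0 M0 D0 E0 G0 J0 N0
  have c11 := c12_11 A0 B0 C0 H0 K0 M0 D0 E0 G0 J0 N0
  have c12 := c12_12 A0 B0 C0 H0 K0 M0 D0 E0 G0 J0 N0
  have c13 := c12_13 A0 B0 C0 H0 K0 M0 D0 E0 G0 J0 N0
  have c14 := c12_14 A0 B0 C0 H0 K0 M0 D0 E0 G0 J0 N0
  have c15 := c12_15 A0 B0 C0 H0 K0 M0 D0 E0 G0 J0 N0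
  have c16 := c12_16 A0 B0 C0 H0 K0 M0 D0 E0 G0 J0 N0
  have c17 := c12_17 A0 B0 C0 H0 K0 M0 D0 E0 G0 J0 N0
  have c18 := c12_18 A0 B0 C0 H0 K0 M0 D0 E0 G0 J0 N0
  have c19 := c12_19 A0 B0 C0 H0 K0 M0 D0 E0 G0 J0 N0
  have c20 := c12_20 A0 B0 C0 H0 K0 M0 D0 E0 G0 J0 N0
  have c21 := c12_21 A0 B0 C0 H0 K0 M0 D0 E0 G0 J0 N0
  have c22 := c12_22 A0 B0 C0 H0 K0 M0 D0 E0 G0 J0 N0
  have c23 := c12_23 A0 B0 C0 H0 K0 M0 D0 E0 G0 J0 N0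
  have c24 := c12_24 A0 B0 C0 H0 K0 M0 D0 E0 G0 J0 N0
  have c25 := c12_25 A0 B0 C0 H0 K0 M0 D0 E0 G0 J0 N0
  have c26 := c12_26 A0 B0 C0 H0 K0 M0 D0 E0 G0 J0 N0
  have c27 := c12_27 A0 B0 C0 H0 K0 M0 D0 E0 G0 J0 N0
  have c28 := c12_28 A0 B0 C0 H0 K0 M0 D0 E0 G0 J0 N0
  have c29 := c12_29 A0 B0 C0 H0 K0 M0 D0 E0 G0 J0 N0
  have c30 := c12_30 A0 B0 C0 H0 K0 M0 D0 E0 G0 J0 N0
  have c31 := c12_31 A0 B0 C0 H0 K0 M0 D0 E0 G0 J0 N0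
  have c32 := c12_32 A0 B0 C0 H0 K0 M0 D0 E0 G0 J0 N0
  have c33 := c12_33 A0 B0 C0 H0 K0 M0 D0 E0 G0 J0 N0
  have c34 := c12_34 A0 B0 C0 H0 K0 M0 D0 E0 G0 J0 N0
  have c35 := c12_35 A0 B0 C0 H0 K0 M0 D0 E0 G0 J0 N0
  have c36 := c12_36 A0 B0 C0 H0 K0 M0 D0 E0 G0 J0 N0
  have c37 := c12_37 A0 B0 C0 H0 K0 M0 D0 E0 G0 J0 N0
  have c38 := c12_38 A0 B0 C0 H0 K0 M0 D0 E0 G0 J0 N0
  have c39 := c12_39 A0 B0 C0 H0 K0 M0 D0 E0 G0 J0 N0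
  have c40 := c12_40 A0 B0 C0 H0 K0 M0 D0 E0 G0 J0 N0
  have c41 := c12_41 A0 B0 C0 H0 K0 M0 D0 E0 G0 J0 N0
  have c42 := c12_42 A0 B0 C0 H0 K0 M0 D0 E0 G0 J0 N0
  have c43 := c12_43 A0 B0 C0 H0 K0 M0 D0 E0 G0 J0 N0
  have c44 := c12_44 A0 B0 C0 H0 K0 M0 D0 E0 G0 J0 N0
  have c45 := c12_45 A0 B0 C0 H0 K0 M0 D0 E0 G0 J0 N0
  have c46 := c12_46 A0 B0 C0 H0 K0 M0 D0 E0 G0 J0 N0
  have c47 := c12_47 A0 B0 C0 H0 K0 M0 D0 E0 G0 J0 N0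
  rw [c0, c1, c2, c3, c4, c5, c6, c7, c8, c9, c10, c11, c12, c13, c14, c15, c16, c17, c18, c19, c20, c21, c22, c23, c24, c25, c26, c27, c28, c29, c30, c31, c32, c33, c34, c35, c36, c37, c38, c39, c40, c41, c42, c43, c44, c45, c46, c47]
  abel

/-- the class has no residues -/
theorem unram_xi12 {k : Type*} [Field k] [CharZero k] [Algebra k F]
    (he : y ^ 2 - x * y - 10 / 3 * y = x ^ 3 - 10 / 3 * x ^ 2)
    (hne : ∀ z ∈ FK4R.g12a x y, z ≠ 0) : Unram k (K4N.xi12 x y) := by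
  have : CharZero F := charZero_of_injective_algebraMap (algebraMap k F).injective
  rw [xi12_eq he hne]
  exact FK4R.unram12a he hne L12_res

end eq

end Pool.Agent.FK4
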