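import Pool.Agent.Lib_helper76.UEG.BC

set_option autoImplicit false
set_option linter.unusedSectionVars false

/-!
The subgroup of the points with algebraic coordinates.
-/

namespace Pool.Agent.GK

open WeierstrassCurve.Affine UEG

variable {k : Type*} [Field k] {F : Type*} [Field F] [Algebra k F] {W : WeierstrassCurve.Affine k}

section slope

variable [DecidableEq F]

lemma a1_mem : (WF F W).a₁ ∈ algebraicClosure k F := (algebraicClosure k F).algebraMap_mem W.a₁
lemma a2_mem : (WF F W).a₂ ∈ algebraicClosure k F := (algebraicClosure k F).algebraMap_mem W.a₂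
lemma a3_mem : (WF F W).a₃ ∈ algebraicClosure k F := (algebraicClosure k F).algebraMap_mem W.a₃
lemma a4_mem : (WF F W).a₄ ∈ algebraicClosure k F := (algebraicClosure k F).algebraMap_mem W.a₄
lemma a6_mem : (WF F W).a₆ ∈ algebraicClosure k F := (algebraicClosure k F).algebraMap_mem W.a₆

lemma negY_mem {x y : F} (hx : x ∈ algebraicClosure k F) (hy : y ∈ algebraicClosure k F) :
    (WF F W).negY x y ∈ algebraicClosure k F := by
  unfold WeierstrassCurve.Affine.negY
  exact sub_mem (sub_mem (neg_mem hy) (mul_mem a1_mem hx)) a3_mem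

lemma slope_mem {x₁ x₂ y₁ y₂ : F} (hx₁ : x₁ ∈ algebraicClosure k F)
    (hx₂ : x₂ ∈ algebraicClosure k F) (hy₁ : y₁ ∈ algebraicClosure k F)
    (hy₂ : y₂ ∈ algebraicClosure k F) : (WF F W).slope x₁ x₂ y₁ y₂ ∈ algebraicClosure k F := by
  unfold WeierstrassCurve.Affine.slope
  split_ifs
  · exact zero_mem _
  · refine div_mem ?_ (sub_mem hy₁ (negY_mem hx₁ hy₁))
    refine sub_mem (add_mem (add_mem (mul_mem (ofNat_mem _ 3) (pow_mem hx₁ 2))
      (mul_mem (mul_mem (ofNat_mem _ 2) a2_mem) hx₁)) a4_mem) (mul_mem a1_mem hy₁)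
  · exact div_mem (sub_mem hy₁ hy₂) (sub_mem hx₁ hx₂)

lemma addX_mem {x₁ x₂ l : F} (hx₁ : x₁ ∈ algebraicClosure k F)
    (hx₂ : x₂ ∈ algebraicClosure k F) (hl : l ∈ algebraicClosure k F) :
    (WF F W).addX x₁ x₂ l ∈ algebraicClosure k F := by
  unfold WeierstrassCurve.Affine.addX
  exact sub_mem (sub_mem (sub_mem (add_mem (pow_mem hl 2) (mul_mem a1_mem hl)) a2_mem) hx₁) hx₂

lemma addY_mem {x₁ x₂ y₁ l : F} (hx₁ : x₁ ∈ algebraicClosure k F)
    (hx₂ : x₂ ∈ algebraicClosure k F) (hy₁ : y₁ ∈ algebraicClosure k F)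
    (hl : l ∈ algebraicClosure k F) : (WF F W).addY x₁ x₂ y₁ l ∈ algebraicClosure k F := by
  unfold WeierstrassCurve.Affine.addY WeierstrassCurve.Affine.negAddY
  exact negY_mem (addX_mem hx₁ hx₂ hl)
    (add_mem (mul_mem hl (sub_mem (addX_mem hx₁ hx₂ hl) hx₁)) hy₁)

end slope

section AL

variable [DecidableEq F]

variable (F W) in
/-- the points whose coordinates are algebraic over `k` -/
def AL : AddSubgroup (WF F W).Point where
  carrier := {P | ∀ x y h, P = .some x y h → x ∈ algebraicClosure k F ∧ y ∈ algebraicClosure k F}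
  zero_mem' := fun x y h e => absurd e.symm (Point.some_ne_zero _)
  add_mem' := by
    rintro (_ | ⟨x₁, y₁, h₁⟩) (_ | ⟨x₂, y₂, h₂⟩) ha hb
    · exact hb
    · exact hb
    · exact ha
    · obtain ⟨u1, u2⟩ := ha x₁ y₁ h₁ rfl
      obtain ⟨w1, w2⟩ := hb x₂ y₂ h₂ rfl
      intro x y h e
      by_cases hxy : x₁ = x₂ ∧ y₁ = (WF F W).negY x₂ y₂
      · rw [Point.add_of_Y_eq hxy.1 hxy.2] at e
        exact absurd e.symm (Point.some_ne_zero _)
      · rw [Point.add_some hxy] at e
        simp only [Point.some.injEq] at e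
        have hs := slope_mem (W := W) u1 w1 u2 w2
        rw [← e.1, ← e.2]
        exact ⟨addX_mem u1 w1 hs, addY_mem u1 w1 u2 hs⟩
  neg_mem' := by
    rintro (_ | ⟨x₁, y₁, h₁⟩) ha
    · exact ha
    · obtain ⟨u1, u2⟩ := ha x₁ y₁ h₁ rfl
      intro x y h e
      rw [Point.neg_some] at e
      simp only [Point.some.injEq] at e
      rw [← e.1, ← e.2]
      exact ⟨u1, negY_mem u1 u2⟩

lemma mem_AL {x y : F} (h : (WF F W).Nonsingular x y) :
    Point.some x y h ∈ AL F W ↔ x ∈ algebraicClosure k F ∧ y ∈ algebraicClosure k F := by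
  constructor
  · intro h'
    exact h' x y h rfl
  · intro h' x' y' h'' e
    simp only [Point.some.injEq] at e
    rw [← e.1, ← e.2]
    exact h'

lemma tr_iff {x : F} : Transcendental k x ↔ x ∉ algebraicClosure k F := by
  rw [mem_algebraicClosure_iff]
  rfl

/-- over the algebraic closure in `F` -/
lemma tr_cl {x : F} (h : Transcendental k x) : Transcendental (algebraicClosure k F) x := by
  intro h'
  exact h (h'.restrictScalars k)

/-- a root of a monic quadratic equation -/
lemma quad_mem {y p q : F} (hp : p ∈ algebraicClosure k F) (hq : q ∈ algebraicClosure k F)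
    (h : y ^ 2 + p * y + q = 0) : y ∈ algebraicClosure k F := by
  by_contra hy
  have h1 := tr_cl (tr_iff.mpr hy)
  apply h1
  refine ⟨Polynomial.X ^ 2 + Polynomial.C (⟨p, hp⟩ : algebraicClosure k F) * Polynomial.X +
    Polynomial.C (⟨q, hq⟩ : algebraicClosure k F), ?_, ?_⟩
  · intro h0
    have h1 := congrArg (fun p => Polynomial.coeff p 2) h0
    simp only [Polynomial.coeff_add, Polynomial.coeff_X_pow, Polynomial.coeff_C_mul,
      Polynomial.coeff_X, Polynomial.coeff_zero] at h1
    rw [Polynomial.coeff_C_of_ne_zero (by norm_num)] at h1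
    norm_num at h1
  · simp only [map_add, map_pow, map_mul, Polynomial.aeval_X, Polynomial.aeval_C]
    exact h

/-- a root of a monic cubic equation -/
lemma cub_mem {x p q r : F} (hp : p ∈ algebraicClosure k F) (hq : q ∈ algebraicClosure k F)
    (hr : r ∈ algebraicClosure k F) (h : x ^ 3 + p * x ^ 2 + q * x + r = 0) :
    x ∈ algebraicClosure k F := by
  by_contra hy
  have h1 := tr_cl (tr_iff.mpr hy)
  apply h1
  refine ⟨Polynomial.X ^ 3 + Polynomial.C (⟨p, hp⟩ : algebraicClosure k F) * Polynomial.X ^ 2 +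
    Polynomial.C (⟨q, hq⟩ : algebraicClosure k F) * Polynomial.X +
    Polynomial.C (⟨r, hr⟩ : algebraicClosure k F), ?_, ?_⟩
  · intro h0
    have h1 := congrArg (fun p => Polynomial.coeff p 3) h0
    simp only [Polynomial.coeff_add, Polynomial.coeff_X_pow, Polynomial.coeff_C_mul,
      Polynomial.coeff_X, Polynomial.coeff_zero] at h1
    rw [Polynomial.coeff_C_of_ne_zero (by norm_num)] at h1
    norm_num at h1
  · simp only [map_add, map_pow, map_mul, Polynomial.aeval_X, Polynomial.aeval_C]
    exact h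

/-- the abscissa of a point which is not algebraic is transcendental -/
theorem tr_of_not_mem {x y : F} {h : (WF F W).Nonsingular x y}
    (h' : Point.some x y h ∉ AL F W) : Transcendental k x := by
  rw [tr_iff]
  intro hx
  apply h'
  rw [mem_AL]
  refine ⟨hx, ?_⟩
  have he := (equation_iff x y).mp h.1
  refine quad_mem (p := (WF F W).a₁ * x + (WF F W).a₃)
    (q := -(x ^ 3 + (WF F W).a₂ * x ^ 2 + (WF F W).a₄ * x + (WF F W).a₆))
    (add_mem (mul_mem a1_mem hx) a3_mem) (neg_mem (add_mem (add_mem (add_mem (pow_mem hx 3)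
      (mul_mem a2_mem (pow_mem hx 2))) (mul_mem a4_mem hx)) a6_mem)) ?_
  linear_combination he

theorem tr_iff_not_mem {x y : F} {h : (WF F W).Nonsingular x y} :
    Point.some x y h ∉ AL F W ↔ Transcendental k x := by
  refine ⟨tr_of_not_mem, fun h1 h2 => ?_⟩
  rw [mem_AL] at h2
  exact (tr_iff.mp h1) h2.1

/-- the generic point -/
theorem gen_not_mem {X Y : F} (hg : Gen W X Y) (h : (WF F W).Nonsingular X Y) :
    Point.some X Y h ∉ AL F W := tr_iff_not_mem.mpr hg.tr

theorem bc_mem [DecidableEq k] (a : W.Point) : bc F W a ∈ AL F W := by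
  rcases a with _ | ⟨x, y, h⟩
  · exact zero_mem _
  · rw [bc_some, mem_AL]
    exact ⟨(algebraicClosure k F).algebraMap_mem x, (algebraicClosure k F).algebraMap_mem y⟩

/-- the slope of the line through a point which is not algebraic and an algebraic point is
transcendental -/
theorem slope_tr {x y x' y' : F} (h : (WF F W).Equation x y) (hx : Transcendental k x)
    (hx' : x' ∈ algebraicClosure k F) (hy' : y' ∈ algebraicClosure k F) :
    Transcendental k ((WF F W).slope x x' y y') := by
  have hne : x ≠ x' := by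
    rintro rfl
    exact (tr_iff.mp hx) hx'
  rw [slope_of_X_ne hne]
  set l := (y - y') / (x - x') with hl
  have hlx : l * (x - x') = y - y' := div_mul_cancel₀ _ (sub_ne_zero.mpr hne)
  rw [tr_iff]
  intro hlm
  refine (tr_iff.mp hx) ?_
  have he := (equation_iff x y).mp h
  have hm : y' - l * x' ∈ algebraicClosure k F := sub_mem hy' (mul_mem hlm hx')
  set m := y' - l * x' with hmd
  have hy : y = l * x + m := by rw [hmd]; linear_combination -hlx
  refine cub_mem (p := (WF F W).a₂ - l ^ 2 - (WF F W).a₁ * l)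
    (q := (WF F W).a₄ - 2 * l * m - (WF F W).a₁ * m - (WF F W).a₃ * l)
    (r := (WF F W).a₆ - m ^ 2 - (WF F W).a₃ * m) ?_ ?_ ?_ ?_
  · exact sub_mem (sub_mem a2_mem (pow_mem hlm 2)) (mul_mem a1_mem hlm)
  · exact sub_mem (sub_mem (sub_mem a4_mem (mul_mem (mul_mem (ofNat_mem _ 2) hlm) hm))
      (mul_mem a1_mem hm)) (mul_mem a3_mem hlm)
  · exact sub_mem (sub_mem a6_mem (pow_mem hm 2)) (mul_mem a3_mem hm)
  · rw [hy] at he
    linear_combination -he

/-- the same with the points in the other order -/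
theorem slope_tr' {x y x' y' : F} (h : (WF F W).Equation x y) (hx : Transcendental k x)
    (hx' : x' ∈ algebraicClosure k F) (hy' : y' ∈ algebraicClosure k F) :
    Transcendental k ((WF F W).slope x' x y' y) := by
  have hne : x ≠ x' := by
    rintro rfl
    exact (tr_iff.mp hx) hx'
  have h1 := slope_tr h hx hx' hy'
  rw [slope_of_X_ne hne] at h1
  rw [slope_of_X_ne hne.symm]
  have : (y' - y) / (x' - x) = (y - y') / (x - x') := by
    rw [← neg_sub y y', ← neg_sub x x', neg_div_neg_eq]
  rw [this]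
  exact h1

/-- the slope of the generic point and a point over `k` -/
theorem gen_slope_tr {X Y : F} (hg : Gen W X Y) (h : (WF F W).Nonsingular X Y) (a b : k) :
    Transcendental k ((WF F W).slope X (algebraMap k F a) Y (algebraMap k F b)) :=
  slope_tr h.1 hg.tr ((algebraicClosure k F).algebraMap_mem a)
    ((algebraicClosure k F).algebraMap_mem b)

end AL

end Pool.Agent.GK
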