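import Mathlib

set_option autoImplicit false

/-!
The polynomial part of the unit equation for prime order.
-/

namespace Pool.Agent.GK

open Polynomial

variable {k : Type*} [Field k]

/-- `(i)` -/
theorem pl_i [CharZero k] {n : ℕ} (hn : 4 ≤ n) {c0 c1 x0 x1 : k} (hc0 : c0 ≠ 0)
    (h : (1 + C c0 * (X - C x0) ^ n - C c1 * (X - C x1) ^ n : k[X]).natDegree * 2 ≤ n) :
    x0 = x1 ∧ c0 = c1 := by
  have key : ∀ m : ℕ, n < 2 * m → m ≠ 0 →
      c0 * ((-x0) ^ (n - m) * (n.choose m : k)) = c1 * ((-x1) ^ (n - m) * (n.choose m : k)) := by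
    intro m hm hm0
    have h1 : (1 + C c0 * (X - C x0) ^ n - C c1 * (X - C x1) ^ n : k[X]).coeff m = 0 :=
      coeff_eq_zero_of_natDegree_lt (by omega)
    rw [sub_eq_add_neg X (C x0), sub_eq_add_neg X (C x1), ← C_neg, ← C_neg, coeff_sub, coeff_add,
      coeff_C_mul, coeff_C_mul, coeff_X_add_C_pow, coeff_X_add_C_pow,
      coeff_one, if_neg hm0, zero_add] at h1
    exact sub_eq_zero.mp h1
  have e1 := key n (by omega) (by omega)
  rw [Nat.sub_self, pow_zero, pow_zero, Nat.choose_self, Nat.cast_one, mul_one, mul_one,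
    mul_one] at e1
  have e2 := key (n - 1) (by omega) (by omega)
  rw [show n - (n - 1) = 1 by omega, pow_one, pow_one, ← e1] at e2
  have e3 : (n.choose (n - 1) : k) ≠ 0 := by
    have : 0 < n.choose (n - 1) := Nat.choose_pos (by omega)
    exact_mod_cast this.ne'
  have e4 := mul_left_cancel₀ hc0 e2
  have e5 := mul_right_cancel₀ e3 e4
  exact ⟨neg_injective e5, e1⟩

lemma sqfree_aux [CharZero k] {n : ℕ} (hn : 1 ≤ n) {c x0 : k} (hc : c ≠ 0) :
    IsCoprime (1 - C c * (X - C x0) ^ n : k[X])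
      (derivative (1 - C c * (X - C x0) ^ n : k[X])) := by
  have e : derivative (1 - C c * (X - C x0) ^ n : k[X]) =
      -(C (c * n) * (X - C x0) ^ (n - 1)) := by
    rw [derivative_sub, derivative_one, derivative_C_mul, derivative_X_sub_C_pow, zero_sub]
    rw [C_mul, C_eq_natCast]
    ring
  rw [e]
  refine IsCoprime.neg_right ?_
  have hcn : IsUnit (C (c * n) : k[X]) := by
    refine isUnit_C.mpr (IsUnit.mk0 _ (mul_ne_zero hc ?_))
    have : (n : k) ≠ 0 := by
      have : n ≠ 0 := by omega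
      exact_mod_cast this
    exact this
  rw [isCoprime_mul_unit_left_right hcn]
  refine IsCoprime.pow_right ?_
  refine ⟨1, C c * (X - C x0) ^ (n - 1), ?_⟩
  have : (X - C x0 : k[X]) ^ n = (X - C x0) ^ (n - 1) * (X - C x0) := by
    rw [← pow_succ]
    congr 1
    omega
  rw [this]
  ring

/-- `(ii)` -/
theorem pl_ii [CharZero k] {n : ℕ} (hn : 4 ≤ n) {c0 x0 : k} (hc0 : c0 ≠ 0) {s q Ψ : k[X]}
    (hs : s ≠ 0) (hΨ : Ψ.natDegree ≤ 3)
    (h : s ^ 2 * (1 - C (4 * c0) * (X - C x0) ^ n) = q ^ 2 * Ψ) : False := by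
  set A : k[X] := 1 - C (4 * c0) * (X - C x0) ^ n with hA
  have h4 : (4 * c0 : k) ≠ 0 := mul_ne_zero (by norm_num) hc0
  have hdeg : A.natDegree = n := by
    have h1 : (C (4 * c0) * (X - C x0) ^ n : k[X]).natDegree = n := by
      rw [natDegree_C_mul h4, natDegree_pow, natDegree_X_sub_C, mul_one]
    rw [hA, natDegree_sub_eq_right_of_natDegree_lt, h1]
    rw [h1, natDegree_one]
    omega
  have hA0 : A ≠ 0 := by
    intro h1
    rw [h1, natDegree_zero] at hdeg
    omega
  have hsq : Squarefree A := by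
    refine PerfectField.separable_iff_squarefree.mp ?_
    exact sqfree_aux (by omega) h4
  have hq : q ≠ 0 := by
    rintro rfl
    rw [zero_pow two_ne_zero, zero_mul] at h
    exact mul_ne_zero (pow_ne_zero 2 hs) hA0 h
  -- remove the common factor
  obtain ⟨s', q', g, hrel, hs', hq'⟩ :=
    UniqueFactorizationMonoid.exists_reduced_factors s hs q
  have hcop : IsCoprime s' q' := hrel.isCoprime
  have hg0 : g ≠ 0 := by
    rintro rfl
    rw [zero_mul] at hs'
    exact hs hs'.symm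
  have h' : s' ^ 2 * A = q' ^ 2 * Ψ := by
    refine mul_left_cancel₀ (pow_ne_zero 2 hg0) ?_
    calc g ^ 2 * (s' ^ 2 * A) = (g * s') ^ 2 * A := by ring
      _ = s ^ 2 * A := by rw [hs']
      _ = q ^ 2 * Ψ := h
      _ = (g * q') ^ 2 * Ψ := by rw [hq']
      _ = g ^ 2 * (q' ^ 2 * Ψ) := by ring
  have hdvd : q' ^ 2 ∣ A := by
    refine (hcop.symm.pow (m := 2) (n := 2)).dvd_of_dvd_mul_left ?_
    exact ⟨Ψ, h'⟩
  have hu : IsUnit q' := hsq q' (by rw [← pow_two]; exact hdvd)
  have hs0 : s' ≠ 0 := by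
    rintro rfl
    rw [mul_zero] at hs'
    exact hs hs'.symm
  have hd := congrArg natDegree h'
  rw [natDegree_mul (pow_ne_zero 2 hs0) hA0, hdeg] at hd
  have hd2 : (q' ^ 2 * Ψ).natDegree ≤ 3 := by
    refine natDegree_mul_le.trans ?_
    rw [natDegree_pow, natDegree_eq_zero_of_isUnit hu, mul_zero, zero_add]
    exact hΨ
  omega

/-- `(iii)` -/
theorem powers [CharZero k] {F : Type*} [Field F] [Algebra k F] {l : F}
    (hl : Transcendental k l) {n : ℕ} (hn : 1 ≤ n) {c c' : k}
    (h : algebraMap k F c * l ^ n + algebraMap k F c' * (1 - l) ^ n = 1) :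
    n = 1 ∧ c = 1 ∧ c' = 1 := by
  have hP : (C c * X ^ n + C c' * (1 - X) ^ n : k[X]) = 1 := by
    refine (transcendental_iff_injective.mp hl) ?_
    simpa using h
  have e0 := congrArg (eval (0 : k)) hP
  have e1 := congrArg (eval (1 : k)) hP
  have e2 := congrArg (eval (2 : k)) hP
  have hn0 : n ≠ 0 := by omega
  simp only [eval_add, eval_mul, eval_C, eval_pow, eval_X, eval_sub, eval_one, sub_zero, sub_self,
    one_pow, mul_one, zero_pow hn0, mul_zero, zero_add, add_zero] at e0 e1 e2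
  subst e0 e1
  refine ⟨?_, rfl, rfl⟩
  have e3 : ((2 : ℤ) ^ n + (-1) ^ n : ℤ) = 1 := by
    have : ((((2 : ℤ) ^ n + (-1) ^ n : ℤ)) : k) = ((1 : ℤ) : k) := by
      rw [one_mul, one_mul, show (1 - 2 : k) = -1 by norm_num] at e2
      push_cast
      exact e2
    exact_mod_cast this
  rcases Nat.even_or_odd n with he | ho
  · rw [he.neg_one_pow] at e3
    have : (0 : ℤ) < 2 ^ n := by positivity
    omega
  · rw [ho.neg_one_pow] at e3
    have h2 : (2 : ℤ) ^ n = 2 ^ 1 := by linarith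
    exact Int.pow_right_injective (le_refl 2) h2

end Pool.Agent.GK
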