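import Pool.Agent.Lib_helper24.FAM.LK

set_option autoImplicit false

/-!
# A faster form of the test that the differential vanishes
-/

namespace Pool.Agent.FK4

open Pool.Agent.KC72

/-- the three vectors of a term -/
def trt (cls : List (Mo × Mo)) (t : Tm) : List ℤ × List ℤ × List ℤ :=
  ((co cls (t.c, t.s)).2, (oo cls (t.c, t.s)).2, t.u)

/-- the coordinate `(i, j, l)` of the differential -/
def dcl (i j l : ℕ) : List (List ℤ × List ℤ × List ℤ) → ℤ
  | [] => 0
  | t :: T => d6 (fun i => t.1.getD i 0) (fun i => t.2.1.getD i 0) (fun i => t.2.2.getD i 0) i j l +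
      dcl i j l T

lemma dco_eq (cls : List (Mo × Mo)) (i j l : ℕ) (L : List Tm) :
    dco cls i j l L = dcl i j l (L.map (trt cls)) := by
  induction L with
  | nil => rfl
  | cons t L ih => rw [dco, ih, List.map_cons, dcl]; rfl

lemma dcl_swap1 (i j l : ℕ) (T : List (List ℤ × List ℤ × List ℤ)) :
    dcl j i l T = -dcl i j l T := by
  induction T with
  | nil => rfl
  | cons t T ih => rw [dcl, dcl, ih, d6, d6]; ring

lemma dcl_swap2 (i j l : ℕ) (T : List (List ℤ × List ℤ × List ℤ)) :
    dcl i l j T = -dcl i j l T := by
  induction T with
  | nil => rfl
  | cons t T ih => rw [dcl, dcl, ih, d6, d6]; ring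

lemma dcl_same1 (i l : ℕ) (T : List (List ℤ × List ℤ × List ℤ)) : dcl i i l T = 0 := by
  have h := dcl_swap1 i i l T
  omega

lemma dcl_same2 (i l : ℕ) (T : List (List ℤ × List ℤ × List ℤ)) : dcl i l l T = 0 := by
  have h := dcl_swap2 i l l T
  omega

/-- one block of the test -/
def chk1 (T : List (List ℤ × List ℤ × List ℤ)) (i : ℕ) : Bool :=
  (List.range i).all fun j => (List.range j).all fun l => decide (dcl i j l T = 0)

/-- **the differential vanishes**, from the coordinates with `l < j < i` -/
theorem chkD_of {n : ℕ} {cls : List (Mo × Mo)} {L : List Tm}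
    {T : List (List ℤ × List ℤ × List ℤ)} (hT : L.map (trt cls) = T)
    (h : ∀ i < n, chk1 T i = true) : chkD n cls L = true := by
  have key : ∀ i j l : ℕ, i < n → j < i → l < j → dcl i j l T = 0 := by
    intro i j l hi hj hl
    have := h i hi
    rw [chk1, List.all_eq_true] at this
    have := this j (List.mem_range.mpr hj)
    rw [List.all_eq_true] at this
    exact of_decide_eq_true (this l (List.mem_range.mpr hl))
  have key2 : ∀ i j l : ℕ, i < n → j < n → l < n → dcl i j l T = 0 := by
    intro i j l hi hj hl
    have s1 := fun a b c => dcl_swap1 a b c T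
    have s2 := fun a b c => dcl_swap2 a b c T
    rcases lt_trichotomy i j with h1 | rfl | h1
    · rcases lt_trichotomy j l with h2 | rfl | h2
      · -- i < j < l
        have := key l j i hl h2 h1
        have e1 := s1 i j l
        have e2 := s2 j i l
        have e3 := s1 j l i
        omega
      · exact dcl_same2 _ _ _
      · rcases lt_trichotomy i l with h3 | rfl | h3
        · -- i < l < j
          have := key j l i hj h2 h3
          have e1 := s1 i j l
          have e2 := s2 j i l
          omega
        · have e1 := s1 i j i
          have e2 := dcl_same2 j i T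
          omega
        · -- l < i < j
          have := key j i l hj h1 h3
          have e1 := s1 i j l
          omega
    · exact dcl_same1 _ _ _
    · rcases lt_trichotomy j l with h2 | rfl | h2
      · rcases lt_trichotomy i l with h3 | rfl | h3
        · -- j < i < l
          have := key l i j hl h3 h1
          have e1 := s2 i j l
          have e2 := s1 i l j
          omega
        · have e1 := s2 i j i
          have e2 := dcl_same1 i j T
          omega
        · -- j < l < i
          have := key i l j hi h3 h2
          have e1 := s2 i j l
          omega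
      · exact dcl_same2 _ _ _
      · exact key i j l hi h1 h2
  rw [chkD, List.all_eq_true]
  intro i hi
  rw [List.all_eq_true]
  intro j hj
  rw [List.all_eq_true]
  intro l hl
  rw [decide_eq_true_eq, dco_eq, hT]
  exact key2 i j l (List.mem_range.mp hi) (List.mem_range.mp hj) (List.mem_range.mp hl)

end Pool.Agent.FK4
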