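import Pool.Agent.Lib_helper72.KC.P

/-!
# Closed elements from a certificate: checks against tabulated packed vectors
-/

set_option autoImplicit false
set_option linter.unusedSectionVars false
set_option linter.unusedVariables false

namespace Pool.Agent.KC72

lemma pk_replicate (B : ℤ) (c : ℕ) : pk B (List.replicate c 0) = 0 := by
  induction c with
  | zero => rfl
  | succ c ih => rw [List.replicate_succ, pk, ih]; ring

lemma pk_sgl (B : ℤ) (c : ℕ) (s : ℤ) : pk B (sgl c s) = B ^ c * s := by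
  unfold sgl
  rw [pk_append, pk_replicate, List.length_replicate]
  simp [pk]

/-- a packed element of an orbit -/
def ks (B : ℕ) (s : ℤ) (p : ℕ × ℕ) : ℤ := ((B ^ p.1 : ℕ) : ℤ) * (s * sg6 p.2)

/-- a packed element of an orbit, or zero -/
def ksO (B : ℕ) (s : ℤ) : Option (ℕ × ℕ) → ℤ
  | some p => ks B s p
  | none => 0

/-- a packed relation -/
def ksR (B : ℕ) (R : Rel) : ℤ :=
  ks B 1 R.x + (ks B (-1) R.y + (ks B 1 R.z + (ksO B (-1) R.u + ksO B 1 R.w)))

lemma pk_ovec (B : ℕ) (s : ℤ) (p : ℕ × ℕ) : pk (B : ℤ) (ovec s p) = ks B s p := by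
  unfold ovec ks
  rw [pk_sgl]
  push_cast
  ring

lemma pk_ovecO (B : ℕ) (s : ℤ) (p : Option (ℕ × ℕ)) : pk (B : ℤ) (ovecO s p) = ksO B s p := by
  cases p with
  | none => rfl
  | some p => exact pk_ovec B s p

lemma pk_relv (B : ℕ) (R : Rel) : pk (B : ℤ) (relv R) = ksR B R := by
  unfold relv ksR
  rw [pk_axpy, pk_axpy, pk_axpy, pk_axpy, pk_ovec, pk_ovec, pk_ovec, pk_ovecO, pk_ovecO]
  ring

namespace PCert

variable (P : PCert)

/-- packed relations -/
def RWf : List ℤ := P.rels.map (ksR P.B)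

/-- packed basis vectors -/
def BWf : List ℤ := P.bas.map (fun i => ((P.B ^ i : ℕ) : ℤ))

lemma RW_eq : P.RW = P.RWf := by
  unfold RW RWf
  exact List.map_congr_left fun R _ => pk_relv P.B R

lemma BW_eq : P.BW = P.BWf := by
  unfold BW BWf
  refine List.map_congr_left fun i _ => ?_
  rw [pk_sgl]
  push_cast
  ring

/-- a class is a combination of basis classes -/
def g2 (bw rw : List ℤ) (c : ℕ) : Bool :=
  let p := P.rho'.getD c default
  decide (p.1 ≠ 0) && decide (-p.1 * ((P.B ^ c : ℕ) : ℤ) + (1 * dotZ p.2.2 bw + dotZ p.2.1 rw) = 0) &&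
    decide (2 * (|-p.1| * 1 + (|1| * (sab p.2.2 * 1) + sab p.2.1 * 5)) < P.B)

/-- the homotopy -/
def g6 (qw tw : List ℤ) (xw : ℤ) (c j : ℕ) : Bool :=
  let p := P.cl (P.bas.getD c 0)
  let d := P.Q.map (fun q => det3L p.2.2 p.1.2 j q.1)
  let β := (P.toCert.beta.getD c []).getD j 0
  let l := (P.toCert.lam.getD c []).getD j []
  decide (-P.D * ((((P.B ^ P.n) ^ c : ℕ) : ℤ) * pk P.B (un P.n j)) +
    (1 * dotZ d qw + (β * xw + dotZ l tw)) = 0) &&
  decide (2 * (|-P.D| * 1 + (|1| * (sab d * P.o) + (|β| * P.o + sab l * (P.o * P.MA)))) < P.B)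

end PCert

/-- **the tabulated checks imply the checks** -/
theorem ok_of_tab (P : PCert) (bw rw qw tw : List ℤ) (xw : ℤ) (h0 : P.f0 = true)
    (h1 : P.toCert.chk1 = true) (hb : P.BWf = bw) (hr : P.RWf = rw) (hq : P.QW = qw)
    (ht : P.TW = tw) (hx : P.XW = xw) (h2 : ∀ c < P.cls.length, P.g2 bw rw c = true)
    (h3 : ∀ c < P.bas.length, ∀ c' < P.bas.length, P.toCert.chk3 c c' = true)
    (h6 : ∀ c < P.bas.length, ∀ j < P.n, P.g6 qw tw xw c j = true) : Ok P.toCert := by
  subst hb hr hq ht hx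
  refine ok_of_fast P h0 h1 ?_ h3 ?_
  · intro c hc
    have h := h2 c hc
    unfold PCert.g2 at h
    unfold PCert.f2
    rw [P.RW_eq, P.BW_eq]
    simp only [pk_sgl, mul_one]
    simpa only [Nat.cast_pow, mul_one] using h
  · intro c hc j hj
    have h := h6 c hc j hj
    unfold PCert.g6 at h
    unfold PCert.f6
    simp only [pk_sgl, mul_one]
    simpa only [Nat.cast_pow, mul_one] using h

/-! ### checks in pieces -/

/-- one more piece -/
lemma all_step (f : ℕ → Bool) (a m : ℕ) (h : ∀ c < a, f c = true)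
    (h' : (List.range' a m).all f = true) : ∀ c < a + m, f c = true := by
  intro c hc
  rcases lt_or_ge c a with h1 | h1
  · exact h c h1
  · exact (List.all_eq_true.mp h') c (List.mem_range'_1.mpr ⟨h1, hc⟩)

/-- no piece -/
lemma all_zero (f : ℕ → Bool) : ∀ c < 0, f c = true := fun c hc => absurd hc (Nat.not_lt_zero c)

/-- two lists of integers with the same entries -/
lemma eq_of_getD {a b : List ℤ} {n : ℕ} (ha : a.length = n) (hb : b.length = n)
    (h : ∀ i < n, decide (a.getD i 0 = b.getD i 0) = true) : a = b := by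
  apply List.ext_getElem (ha.trans hb.symm)
  intro i h1 h2
  have h3 := of_decide_eq_true (h i (ha ▸ h1))
  rwa [List.getD_eq_getElem _ _ h1, List.getD_eq_getElem _ _ h2] at h3

end Pool.Agent.KC72
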