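import Pool.Agent.Lib_helper54.FAM.L10ad
import Pool.Agent.Lib_helper54.FAM.KD

set_option autoImplicit false
set_option maxRecDepth 100000

/-!
# The first special curve with a point of order ten: the differential
-/

namespace Pool.Agent.FK4

open Pool.Agent.KC72

/-- the vectors of the terms -/
def L10a_T : List (List ℤ × List ℤ × List ℤ) :=
  [([Int.ofNat 0, Int.ofNat 0, Int.ofNat 0, Int.ofNat 1, Int.negSucc 0, Int.ofNat 0, Int.ofNat 0, Int.ofNat 0, Int.ofNat 0, Int.ofNat 1, Int.negSucc 0], [Int.ofNat 1, Int.ofNat 0, Int.ofNat 0, Int.ofNat 0, Int.negSucc 0, Int.ofNat 0, Int.ofNat 0, Int.ofNat 0, Int.ofNat 0, Int.ofNat 0, Int.negSucc 0], [Int.negSucc 0, Int.ofNat 3, Int.negSucc 0, Int.negSucc 4, Int.negSucc 1, Int.negSucc 1, Int.negSucc 3, Int.ofNat 6, Int.ofNat 4, Int.ofNat 0, Int.ofNat 0]),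
   ([Int.ofNat 0, Int.ofNat 0, Int.ofNat 0, Int.negSucc 0, Int.ofNat 1, Int.ofNat 0, Int.ofNat 0, Int.ofNat 1, Int.negSucc 0, Int.ofNat 0, Int.ofNat 0], [Int.ofNat 0, Int.ofNat 0, Int.ofNat 0, Int.ofNat 0, Int.ofNat 1, Int.ofNat 1, Int.ofNat 0, Int.ofNat 0, Int.negSucc 1, Int.ofNat 0, Int.ofNat 0], [Int.ofNat 0, Int.ofNat 3, Int.negSucc 0, Int.negSucc 4, Int.negSucc 1, Int.negSucc 3, Int.ofNat 2, Int.ofNat 0, Int.ofNat 5, Int.negSucc 0, Int.ofNat 0]),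
   ([Int.ofNat 0, Int.ofNat 0, Int.negSucc 0, Int.ofNat 1, Int.ofNat 0, Int.ofNat 0, Int.ofNat 1, Int.negSucc 0, Int.ofNat 0, Int.negSucc 0, Int.ofNat 0], [Int.ofNat 1, Int.negSucc 0, Int.ofNat 0, Int.ofNat 2, Int.ofNat 1, Int.ofNat 1, Int.ofNat 1, Int.negSucc 1, Int.negSucc 1, Int.negSucc 0, Int.ofNat 0], [Int.ofNat 1, Int.negSucc 0, Int.negSucc 0, Int.ofNat 0, Int.negSucc 2, Int.ofNat 1, Int.ofNat 0, Int.ofNat 1, Int.ofNat 1, Int.ofNat 0, Int.negSucc 1]),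
   ([Int.ofNat 0, Int.negSucc 0, Int.ofNat 1, Int.ofNat 0, Int.ofNat 0, Int.ofNat 1, Int.negSucc 0, Int.ofNat 0, Int.ofNat 0, Int.ofNat 1, Int.ofNat 0], [Int.ofNat 0, Int.negSucc 0, Int.ofNat 1, Int.ofNat 2, Int.ofNat 1, Int.ofNat 2, Int.negSucc 0, Int.negSucc 0, Int.negSucc 1, Int.ofNat 0, Int.ofNat 0], [Int.negSucc 0, Int.ofNat 0, Int.ofNat 0, Int.negSucc 1, Int.ofNat 2, Int.ofNat 1, Int.ofNat 0, Int.ofNat 1, Int.negSucc 2, Int.ofNat 4, Int.ofNat 2]),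
   ([Int.ofNat 0, Int.ofNat 1, Int.ofNat 0, Int.ofNat 0, Int.ofNat 0, Int.negSucc 0, Int.ofNat 0, Int.ofNat 0, Int.ofNat 0, Int.ofNat 1, Int.ofNat 0], [Int.ofNat 0, Int.ofNat 0, Int.ofNat 1, Int.ofNat 1, Int.ofNat 1, Int.ofNat 0, Int.ofNat 0, Int.negSucc 0, Int.negSucc 0, Int.ofNat 0, Int.ofNat 0], [Int.ofNat 5, Int.negSucc 0, Int.negSucc 0, Int.ofNat 4, Int.ofNat 1, Int.ofNat 0, Int.ofNat 2, Int.negSucc 3, Int.negSucc 2, Int.negSucc 2, Int.ofNat 0]),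
   ([Int.ofNat 1, Int.ofNat 0, Int.ofNat 0, Int.ofNat 0, Int.ofNat 0, Int.ofNat 0, Int.ofNat 0, Int.ofNat 0, Int.ofNat 0, Int.negSucc 1, Int.negSucc 0], [Int.ofNat 0, Int.ofNat 0, Int.ofNat 0, Int.ofNat 1, Int.ofNat 0, Int.ofNat 0, Int.ofNat 0, Int.ofNat 0, Int.ofNat 0, Int.negSucc 1, Int.negSucc 0], [Int.negSucc 0, Int.negSucc 0, Int.ofNat 3, Int.ofNat 3, Int.ofNat 2, Int.ofNat 6, Int.negSucc 3, Int.negSucc 1, Int.negSucc 3, Int.ofNat 0, Int.ofNat 0]),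
   ([Int.negSucc 1, Int.ofNat 0, Int.ofNat 0, Int.ofNat 0, Int.ofNat 0, Int.ofNat 1, Int.ofNat 0, Int.ofNat 0, Int.ofNat 0, Int.ofNat 1, Int.ofNat 0], [Int.negSucc 1, Int.ofNat 0, Int.ofNat 0, Int.negSucc 0, Int.ofNat 0, Int.ofNat 0, Int.ofNat 0, Int.ofNat 1, Int.ofNat 1, Int.ofNat 0, Int.ofNat 0], [Int.ofNat 0, Int.negSucc 0, Int.ofNat 3, Int.ofNat 3, Int.ofNat 2, Int.ofNat 0, Int.ofNat 2, Int.negSucc 3, Int.negSucc 2, Int.ofNat 3, Int.ofNat 0]),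
   ([Int.ofNat 1, Int.negSucc 0, Int.ofNat 0, Int.ofNat 0, Int.ofNat 0, Int.negSucc 0, Int.ofNat 1, Int.ofNat 0, Int.ofNat 0, Int.ofNat 1, Int.ofNat 0], [Int.ofNat 0, Int.ofNat 0, Int.negSucc 0, Int.negSucc 0, Int.negSucc 0, Int.negSucc 1, Int.ofNat 1, Int.ofNat 1, Int.ofNat 2, Int.ofNat 0, Int.ofNat 0], [Int.ofNat 1, Int.negSucc 0, Int.negSucc 0, Int.ofNat 4, Int.ofNat 1, Int.ofNat 1, Int.ofNat 0, Int.ofNat 1, Int.negSucc 2, Int.negSucc 3, Int.negSucc 1]),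
   ([Int.ofNat 0, Int.ofNat 1, Int.negSucc 0, Int.ofNat 0, Int.ofNat 0, Int.ofNat 0, Int.negSucc 0, Int.ofNat 1, Int.ofNat 0, Int.negSucc 0, Int.ofNat 0], [Int.ofNat 0, Int.ofNat 1, Int.negSucc 0, Int.negSucc 1, Int.negSucc 0, Int.negSucc 0, Int.negSucc 0, Int.ofNat 2, Int.ofNat 2, Int.negSucc 0, Int.ofNat 0], [Int.negSucc 4, Int.ofNat 0, Int.ofNat 0, Int.negSucc 1, Int.ofNat 2, Int.ofNat 1, Int.ofNat 0, Int.ofNat 1, Int.ofNat 1, Int.ofNat 0, Int.ofNat 2]),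
   ([Int.ofNat 0, Int.ofNat 0, Int.ofNat 1, Int.negSucc 0, Int.ofNat 0, Int.ofNat 0, Int.ofNat 0, Int.negSucc 0, Int.ofNat 1, Int.ofNat 0, Int.ofNat 0], [Int.ofNat 0, Int.ofNat 1, Int.ofNat 0, Int.negSucc 1, Int.negSucc 0, Int.negSucc 0, Int.ofNat 0, Int.ofNat 0, Int.ofNat 2, Int.ofNat 0, Int.ofNat 0], [Int.ofNat 1, Int.negSucc 0, Int.negSucc 0, Int.ofNat 0, Int.negSucc 2, Int.negSucc 3, Int.ofNat 2, Int.ofNat 0, Int.ofNat 5, Int.ofNat 1, Int.ofNat 0]),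
   ([Int.ofNat 0, Int.ofNat 0, Int.ofNat 0, Int.ofNat 1, Int.ofNat 1, Int.ofNat 0, Int.ofNat 0, Int.ofNat 0, Int.negSucc 0, Int.ofNat 0, Int.ofNat 0], [Int.ofNat 0, Int.ofNat 0, Int.ofNat 1, Int.ofNat 1, Int.ofNat 0, Int.ofNat 0, Int.ofNat 0, Int.negSucc 0, Int.ofNat 0, Int.ofNat 0, Int.ofNat 0], [Int.ofNat 0, Int.negSucc 0, Int.ofNat 3, Int.negSucc 3, Int.ofNat 3, Int.ofNat 0, Int.ofNat 0, Int.ofNat 0, Int.ofNat 0, Int.ofNat 0, Int.ofNat 1]),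
   ([Int.negSucc 0, Int.ofNat 0, Int.ofNat 0, Int.ofNat 0, Int.ofNat 0, Int.ofNat 0, Int.ofNat 0, Int.ofNat 0, Int.ofNat 1, Int.ofNat 0, Int.ofNat 0], [Int.negSucc 0, Int.ofNat 0, Int.ofNat 0, Int.ofNat 0, Int.ofNat 0, Int.ofNat 0, Int.ofNat 0, Int.ofNat 1, Int.ofNat 0, Int.ofNat 0, Int.ofNat 0], [Int.ofNat 0, Int.ofNat 1, Int.negSucc 2, Int.ofNat 4, Int.negSucc 2, Int.ofNat 0, Int.ofNat 0, Int.ofNat 0, Int.ofNat 0, Int.ofNat 0, Int.negSucc 0]),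
   ([Int.ofNat 0, Int.ofNat 1, Int.ofNat 1, Int.ofNat 0, Int.ofNat 0, Int.ofNat 0, Int.negSucc 0, Int.ofNat 0, Int.ofNat 0, Int.negSucc 0, Int.ofNat 0], [Int.ofNat 0, Int.ofNat 0, Int.ofNat 0, Int.ofNat 1, Int.ofNat 1, Int.ofNat 0, Int.ofNat 0, Int.ofNat 0, Int.negSucc 0, Int.negSucc 0, Int.ofNat 0], [Int.ofNat 0, Int.ofNat 0, Int.ofNat 3, Int.negSucc 4, Int.ofNat 2, Int.ofNat 0, Int.ofNat 0, Int.ofNat 0, Int.ofNat 0, Int.ofNat 0, Int.ofNat 1]),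
   ([Int.negSucc 0, Int.ofNat 0, Int.ofNat 0, Int.ofNat 0, Int.ofNat 0, Int.ofNat 0, Int.ofNat 1, Int.ofNat 0, Int.ofNat 0, Int.negSucc 0, Int.ofNat 0], [Int.negSucc 0, Int.ofNat 0, Int.ofNat 0, Int.ofNat 0, Int.ofNat 0, Int.ofNat 0, Int.ofNat 0, Int.ofNat 0, Int.ofNat 1, Int.negSucc 0, Int.ofNat 0], [Int.ofNat 0, Int.ofNat 0, Int.negSucc 2, Int.ofNat 5, Int.negSucc 1, Int.ofNat 0, Int.ofNat 0, Int.ofNat 0, Int.ofNat 0, Int.ofNat 0, Int.negSucc 0]),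
   ([Int.negSucc 0, Int.ofNat 0, Int.ofNat 0, Int.negSucc 0, Int.negSucc 0, Int.negSucc 0, Int.ofNat 0, Int.ofNat 1, Int.ofNat 2, Int.ofNat 2, Int.ofNat 0], [Int.negSucc 0, Int.ofNat 0, Int.negSucc 0, Int.negSucc 0, Int.ofNat 0, Int.negSucc 0, Int.ofNat 1, Int.ofNat 1, Int.ofNat 1, Int.ofNat 0, Int.ofNat 1], [Int.ofNat 0, Int.negSucc 1, Int.ofNat 2, Int.negSucc 4, Int.ofNat 1, Int.ofNat 0, Int.negSucc 1, Int.ofNat 4, Int.ofNat 1, Int.ofNat 3, Int.ofNat 1]),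
   ([Int.ofNat 0, Int.ofNat 1, Int.negSucc 0, Int.negSucc 1, Int.negSucc 0, Int.negSucc 1, Int.ofNat 0, Int.ofNat 2, Int.ofNat 2, Int.ofNat 1, Int.ofNat 0], [Int.ofNat 0, Int.ofNat 0, Int.negSucc 0, Int.negSucc 0, Int.negSucc 0, Int.negSucc 0, Int.ofNat 0, Int.ofNat 1, Int.ofNat 2, Int.ofNat 0, Int.ofNat 1], [Int.ofNat 0, Int.ofNat 2, Int.negSucc 1, Int.ofNat 5, Int.negSucc 0, Int.ofNat 0, Int.ofNat 2, Int.negSucc 3, Int.negSucc 0, Int.negSucc 2, Int.negSucc 0]),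
   ([Int.negSucc 0, Int.negSucc 0, Int.negSucc 0, Int.ofNat 0, Int.ofNat 0, Int.ofNat 0, Int.ofNat 1, Int.ofNat 1, Int.ofNat 0, Int.ofNat 0, Int.ofNat 1], [Int.negSucc 0, Int.ofNat 0, Int.ofNat 0, Int.negSucc 0, Int.negSucc 0, Int.negSucc 0, Int.ofNat 0, Int.ofNat 1, Int.ofNat 2, Int.ofNat 1, Int.ofNat 0], [Int.ofNat 0, Int.negSucc 2, Int.ofNat 2, Int.negSucc 1, Int.ofNat 3, Int.ofNat 3, Int.negSucc 1, Int.ofNat 2, Int.negSucc 2, Int.ofNat 1, Int.ofNat 2]),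
   ([Int.ofNat 0, Int.ofNat 0, Int.negSucc 0, Int.negSucc 0, Int.ofNat 0, Int.negSucc 0, Int.ofNat 0, Int.ofNat 1, Int.ofNat 1, Int.ofNat 0, Int.ofNat 2], [Int.ofNat 0, Int.ofNat 1, Int.negSucc 0, Int.negSucc 1, Int.negSucc 0, Int.negSucc 1, Int.ofNat 0, Int.ofNat 2, Int.ofNat 2, Int.ofNat 0, Int.ofNat 0], [Int.ofNat 0, Int.ofNat 3, Int.negSucc 1, Int.ofNat 2, Int.negSucc 2, Int.negSucc 2, Int.ofNat 2, Int.negSucc 1, Int.ofNat 3, Int.negSucc 0, Int.negSucc 1]),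
   ([Int.ofNat 0, Int.ofNat 1, Int.negSucc 0, Int.negSucc 1, Int.negSucc 0, Int.negSucc 0, Int.ofNat 0, Int.ofNat 1, Int.ofNat 2, Int.ofNat 0, Int.ofNat 0], [Int.ofNat 0, Int.ofNat 1, Int.ofNat 0, Int.negSucc 1, Int.negSucc 0, Int.negSucc 0, Int.negSucc 0, Int.ofNat 1, Int.ofNat 2, Int.ofNat 1, Int.ofNat 1], [Int.ofNat 3, Int.negSucc 1, Int.ofNat 2, Int.negSucc 2, Int.negSucc 0, Int.ofNat 1, Int.negSucc 1, Int.ofNat 1, Int.ofNat 2, Int.negSucc 0, Int.negSucc 0]),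
   ([Int.ofNat 0, Int.ofNat 0, Int.ofNat 0, Int.negSucc 0, Int.negSucc 0, Int.ofNat 0, Int.ofNat 0, Int.ofNat 0, Int.ofNat 1, Int.ofNat 2, Int.ofNat 0], [Int.ofNat 1, Int.ofNat 1, Int.ofNat 0, Int.negSucc 0, Int.negSucc 0, Int.negSucc 0, Int.ofNat 0, Int.ofNat 0, Int.ofNat 1, Int.ofNat 0, Int.ofNat 0], [Int.negSucc 2, Int.ofNat 2, Int.negSucc 1, Int.ofNat 3, Int.ofNat 1, Int.negSucc 0, Int.ofNat 2, Int.negSucc 0, Int.negSucc 1, Int.ofNat 1, Int.ofNat 1]),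
   ([Int.ofNat 1, Int.ofNat 1, Int.ofNat 0, Int.negSucc 0, Int.negSucc 0, Int.negSucc 0, Int.negSucc 0, Int.ofNat 0, Int.ofNat 2, Int.negSucc 0, Int.ofNat 1], [Int.ofNat 0, Int.ofNat 1, Int.negSucc 0, Int.negSucc 1, Int.negSucc 0, Int.negSucc 0, Int.ofNat 0, Int.ofNat 1, Int.ofNat 2, Int.negSucc 0, Int.ofNat 0], [Int.ofNat 3, Int.negSucc 1, Int.ofNat 3, Int.ofNat 0, Int.ofNat 0, Int.ofNat 2, Int.negSucc 2, Int.ofNat 0, Int.ofNat 0, Int.negSucc 2, Int.negSucc 0]),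
   ([Int.ofNat 0, Int.ofNat 1, Int.ofNat 1, Int.negSucc 0, Int.negSucc 0, Int.ofNat 0, Int.negSucc 0, Int.ofNat 0, Int.ofNat 1, Int.ofNat 0, Int.ofNat 0], [Int.ofNat 0, Int.ofNat 0, Int.ofNat 0, Int.negSucc 0, Int.negSucc 0, Int.ofNat 0, Int.ofNat 0, Int.ofNat 0, Int.ofNat 1, Int.ofNat 1, Int.ofNat 0], [Int.negSucc 2, Int.ofNat 2, Int.negSucc 2, Int.ofNat 0, Int.ofNat 0, Int.negSucc 1, Int.ofNat 3, Int.ofNat 0, Int.ofNat 0, Int.ofNat 3, Int.ofNat 1]),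
   ([Int.ofNat 1, Int.ofNat 0, Int.ofNat 0, Int.ofNat 0, Int.ofNat 0, Int.ofNat 0, Int.ofNat 0, Int.ofNat 0, Int.negSucc 0, Int.ofNat 2, Int.ofNat 0], [Int.ofNat 0, Int.ofNat 0, Int.ofNat 0, Int.ofNat 0, Int.ofNat 0, Int.ofNat 1, Int.ofNat 0, Int.ofNat 0, Int.negSucc 0, Int.ofNat 0, Int.ofNat 0], [Int.ofNat 6, Int.negSucc 2, Int.ofNat 1, Int.ofNat 0, Int.ofNat 1, Int.negSucc 0, Int.ofNat 2, Int.negSucc 0, Int.negSucc 1, Int.negSucc 0, Int.negSucc 0]),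
   ([Int.ofNat 1, Int.ofNat 0, Int.ofNat 0, Int.ofNat 1, Int.ofNat 1, Int.ofNat 1, Int.ofNat 0, Int.negSucc 0, Int.negSucc 1, Int.ofNat 0, Int.ofNat 0], [Int.ofNat 0, Int.negSucc 0, Int.ofNat 0, Int.ofNat 1, Int.ofNat 1, Int.ofNat 1, Int.ofNat 1, Int.negSucc 0, Int.negSucc 1, Int.ofNat 1, Int.ofNat 1], [Int.negSucc 5, Int.ofNat 3, Int.negSucc 0, Int.ofNat 0, Int.negSucc 0, Int.ofNat 1, Int.negSucc 1, Int.ofNat 1, Int.ofNat 2, Int.ofNat 1, Int.ofNat 1]),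
   ([Int.ofNat 0, Int.ofNat 0, Int.ofNat 0, Int.ofNat 0, Int.ofNat 0, Int.ofNat 0, Int.ofNat 1, Int.ofNat 0, Int.negSucc 0, Int.ofNat 0, Int.ofNat 0], [Int.ofNat 1, Int.ofNat 0, Int.ofNat 0, Int.ofNat 0, Int.ofNat 0, Int.ofNat 0, Int.ofNat 0, Int.ofNat 0, Int.negSucc 0, Int.ofNat 1, Int.ofNat 0], [Int.ofNat 4, Int.negSucc 2, Int.ofNat 0, Int.ofNat 0, Int.ofNat 0, Int.negSucc 1, Int.ofNat 3, Int.ofNat 0, Int.ofNat 0, Int.negSucc 2, Int.negSucc 0]),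
   ([Int.ofNat 0, Int.negSucc 0, Int.negSucc 0, Int.ofNat 1, Int.ofNat 1, Int.ofNat 1, Int.ofNat 1, Int.ofNat 0, Int.negSucc 1, Int.negSucc 0, Int.ofNat 1], [Int.ofNat 1, Int.ofNat 0, Int.ofNat 0, Int.ofNat 1, Int.ofNat 1, Int.ofNat 1, Int.ofNat 0, Int.negSucc 0, Int.negSucc 1, Int.negSucc 0, Int.ofNat 0], [Int.negSucc 3, Int.ofNat 3, Int.ofNat 0, Int.ofNat 0, Int.ofNat 0, Int.ofNat 2, Int.negSucc 2, Int.ofNat 0, Int.ofNat 0, Int.ofNat 3, Int.ofNat 1]),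
   ([Int.ofNat 0, Int.negSucc 0, Int.ofNat 1, Int.ofNat 2, Int.ofNat 1, Int.ofNat 2, Int.ofNat 0, Int.negSucc 1, Int.negSucc 1, Int.ofNat 1, Int.ofNat 0], [Int.ofNat 1, Int.negSucc 0, Int.ofNat 0, Int.ofNat 2, Int.ofNat 1, Int.ofNat 1, Int.ofNat 0, Int.negSucc 0, Int.negSucc 1, Int.ofNat 0, Int.ofNat 1], [Int.ofNat 3, Int.negSucc 3, Int.ofNat 4, Int.ofNat 0, Int.ofNat 2, Int.ofNat 0, Int.ofNat 2, Int.negSucc 3, Int.negSucc 0, Int.ofNat 3, Int.ofNat 1]),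
   ([Int.ofNat 0, Int.negSucc 0, Int.ofNat 1, Int.ofNat 2, Int.ofNat 1, Int.ofNat 1, Int.ofNat 0, Int.negSucc 0, Int.negSucc 1, Int.ofNat 2, Int.ofNat 0], [Int.ofNat 0, Int.ofNat 0, Int.ofNat 1, Int.ofNat 1, Int.ofNat 1, Int.ofNat 1, Int.negSucc 0, Int.negSucc 0, Int.negSucc 0, Int.ofNat 0, Int.ofNat 1], [Int.negSucc 2, Int.ofNat 4, Int.negSucc 3, Int.ofNat 0, Int.negSucc 1, Int.ofNat 0, Int.negSucc 1, Int.ofNat 4, Int.ofNat 1, Int.negSucc 2, Int.negSucc 0]),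
   ([Int.ofNat 0, Int.negSucc 0, Int.ofNat 0, Int.ofNat 1, Int.ofNat 1, Int.ofNat 1, Int.ofNat 0, Int.negSucc 0, Int.negSucc 0, Int.ofNat 0, Int.ofNat 2], [Int.ofNat 0, Int.negSucc 0, Int.ofNat 1, Int.ofNat 2, Int.ofNat 1, Int.ofNat 2, Int.ofNat 0, Int.negSucc 1, Int.negSucc 1, Int.ofNat 0, Int.ofNat 0], [Int.ofNat 3, Int.negSucc 1, Int.ofNat 2, Int.negSucc 2, Int.ofNat 0, Int.negSucc 2, Int.ofNat 2, Int.negSucc 1, Int.ofNat 3, Int.ofNat 1, Int.ofNat 2]),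
   ([Int.ofNat 1, Int.ofNat 0, Int.ofNat 1, Int.ofNat 1, Int.ofNat 0, Int.ofNat 0, Int.negSucc 0, Int.negSucc 0, Int.ofNat 0, Int.ofNat 0, Int.ofNat 1], [Int.ofNat 0, Int.negSucc 0, Int.ofNat 1, Int.ofNat 2, Int.ofNat 1, Int.ofNat 1, Int.ofNat 0, Int.negSucc 0, Int.negSucc 1, Int.ofNat 1, Int.ofNat 0], [Int.negSucc 2, Int.ofNat 2, Int.negSucc 1, Int.ofNat 3, Int.ofNat 0, Int.ofNat 3, Int.negSucc 1, Int.ofNat 2, Int.negSucc 2, Int.negSucc 0, Int.negSucc 1])]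

lemma L10a_Te : L10a.map (trt N10C.c10a_cls) = L10a_T := by decide +kernel

lemma L10a_D0 : chk1 L10a_T 0 = true := by decide +kernel

lemma L10a_D1 : chk1 L10a_T 1 = true := by decide +kernel

lemma L10a_D2 : chk1 L10a_T 2 = true := by decide +kernel

lemma L10a_D3 : chk1 L10a_T 3 = true := by decide +kernel

lemma L10a_D4 : chk1 L10a_T 4 = true := by decide +kernel

lemma L10a_D5 : chk1 L10a_T 5 = true := by decide +kernel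

lemma L10a_D6 : chk1 L10a_T 6 = true := by decide +kernel

lemma L10a_D7 : chk1 L10a_T 7 = true := by decide +kernel

lemma L10a_D8 : chk1 L10a_T 8 = true := by decide +kernel

lemma L10a_D9 : chk1 L10a_T 9 = true := by decide +kernel

lemma L10a_D10 : chk1 L10a_T 10 = true := by decide +kernel

lemma L10a_D : chkD 11 N10C.c10a_cls L10a = true :=
  chkD_of L10a_Te (fun i hi => by
    interval_cases i
    · exact L10a_D0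
    · exact L10a_D1
    · exact L10a_D2
    · exact L10a_D3
    · exact L10a_D4
    · exact L10a_D5
    · exact L10a_D6
    · exact L10a_D7
    · exact L10a_D8
    · exact L10a_D9
    · exact L10a_D10)

end Pool.Agent.FK4
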