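import Pool.Agent.Lib_helper24.FAM.LK
import Pool.Agent.Lib_helper54.FAM.C10a

set_option autoImplicit false
set_option maxRecDepth 100000

/-!
# The first special curve with a point of order ten: the terms of the class
-/

namespace Pool.Agent.FK4

open Pool.Agent.KC72

/-- the terms of the class -/
def L10a : List Tm :=
  [⟨93, 2, [-1, 3, -1, -5, -2, -2, -4, 6, 4, 0, 0]⟩,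
   ⟨122, 2, [0, 3, -1, -5, -2, -4, 2, 0, 5, -1, 0]⟩,
   ⟨26, 5, [1, -1, -1, 0, -3, 1, 0, 1, 1, 0, -2]⟩,
   ⟨54, 5, [-1, 0, 0, -2, 2, 1, 0, 1, -3, 4, 2]⟩,
   ⟨84, 5, [5, -1, -1, 4, 1, 0, 2, -4, -3, -3, 0]⟩,
   ⟨113, 0, [-1, -1, 3, 3, 2, 6, -4, -2, -4, 0, 0]⟩,
   ⟨6, 3, [0, -1, 3, 3, 2, 0, 2, -4, -3, 3, 0]⟩,
   ⟨17, 2, [1, -1, -1, 4, 1, 1, 0, 1, -3, -4, -2]⟩,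
   ⟨40, 2, [-5, 0, 0, -2, 2, 1, 0, 1, 1, 0, 2]⟩,
   ⟨66, 2, [1, -1, -1, 0, -3, -4, 2, 0, 5, 1, 0]⟩,
   ⟨87, 1, [0, -1, 3, -4, 3, 0, 0, 0, 0, 0, 1]⟩,
   ⟨116, 1, [0, 1, -3, 4, -3, 0, 0, 0, 0, 0, -1]⟩,
   ⟨89, 0, [0, 0, 3, -5, 2, 0, 0, 0, 0, 0, 1]⟩,
   ⟨118, 0, [0, 0, -3, 5, -2, 0, 0, 0, 0, 0, -1]⟩,
   ⟨10, 2, [0, -2, 2, -5, 1, 0, -2, 4, 1, 3, 1]⟩,
   ⟨35, 2, [0, 2, -2, 5, -1, 0, 2, -4, -1, -3, -1]⟩,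
   ⟨11, 3, [0, -3, 2, -2, 3, 3, -2, 2, -3, 1, 2]⟩,
   ⟨36, 3, [0, 3, -2, 2, -3, -3, 2, -2, 3, -1, -2]⟩,
   ⟨62, 2, [3, -2, 2, -3, -1, 1, -2, 1, 2, -1, -1]⟩,
   ⟨90, 3, [-3, 2, -2, 3, 1, -1, 2, -1, -2, 1, 1]⟩,
   ⟨60, 2, [3, -2, 3, 0, 0, 2, -3, 0, 0, -3, -1]⟩,
   ⟨89, 2, [-3, 2, -3, 0, 0, -2, 3, 0, 0, 3, 1]⟩,
   ⟨119, 3, [6, -3, 1, 0, 1, -1, 2, -1, -2, -1, -1]⟩,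
   ⟨12, 4, [-6, 3, -1, 0, -1, 1, -2, 1, 2, 1, 1]⟩,
   ⟨118, 2, [4, -3, 0, 0, 0, -2, 3, 0, 0, -3, -1]⟩,
   ⟨11, 5, [-4, 3, 0, 0, 0, 2, -3, 0, 0, 3, 1]⟩,
   ⟨32, 1, [3, -4, 4, 0, 2, 0, 2, -4, -1, 3, 1]⟩,
   ⟨58, 1, [-3, 4, -4, 0, -2, 0, -2, 4, 1, -3, -1]⟩,
   ⟨36, 5, [3, -2, 2, -3, 0, -3, 2, -2, 3, 1, 2]⟩,
   ⟨60, 0, [-3, 2, -2, 3, 0, 3, -2, 2, -3, -1, -2]⟩]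

lemma L10a_ok : okT 11 N10C.c10a_cls L10a = true := by decide +kernel

end Pool.Agent.FK4
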