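import Pool.Agent.Lib_helper54.FAM.L10bd
import Pool.Agent.Lib_helper54.FAM.KD

set_option autoImplicit false
set_option maxRecDepth 100000

/-!
# The second special curve with a point of order ten: the differential
-/

namespace Pool.Agent.FK4

open Pool.Agent.KC72

/-- the vectors of the terms -/
def L10b_T : List (List ℤ × List ℤ × List ℤ) :=
  [([Int.ofNat 0, Int.ofNat 1, Int.ofNat 0, Int.negSucc 0, Int.ofNat 0, Int.negSucc 0, Int.negSucc 0, Int.ofNat 1, Int.ofNat 1, Int.ofNat 0, Int.ofNat 0, Int.ofNat 0], [Int.ofNat 2, Int.ofNat 1, Int.ofNat 0, Int.ofNat 0, Int.ofNat 0, Int.negSucc 0, Int.negSucc 0, Int.ofNat 0, Int.ofNat 0, Int.ofNat 1, Int.ofNat 0, Int.ofNat 0], [Int.ofNat 0, Int.negSucc 3, Int.ofNat 2, Int.ofNat 1, Int.negSucc 1, Int.negSucc 1, Int.ofNat 0, Int.ofNat 3, Int.negSucc 0, Int.ofNat 3, Int.ofNat 1, Int.negSucc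 5]),
   ([Int.ofNat 0, Int.negSucc 0, Int.ofNat 0, Int.ofNat 0, Int.ofNat 0, Int.ofNat 0, Int.ofNat 1, Int.ofNat 0, Int.ofNat 0, Int.ofNat 0, Int.ofNat 0, Int.ofNat 0], [Int.ofNat 2, Int.ofNat 0, Int.ofNat 0, Int.ofNat 0, Int.ofNat 0, Int.negSucc 0, Int.ofNat 0, Int.ofNat 0, Int.ofNat 0, Int.ofNat 0, Int.ofNat 0, Int.ofNat 0], [Int.ofNat 0, Int.ofNat 30, Int.negSucc 29, Int.negSucc 17, Int.ofNat 18, Int.ofNat 6, Int.ofNat 12, Int.negSucc 23, Int.ofNat 18, Int.negSucc 11, Int.ofNat 6, Int.ofNat 36]),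
   ([Int.ofNat 0, Int.negSucc 0, Int.ofNat 1, Int.ofNat 0, Int.ofNat 0, Int.negSucc 0, Int.ofNat 1, Int.ofNat 0, Int.ofNat 0, Int.ofNat 0, Int.ofNat 0, Int.negSucc 0], [Int.ofNat 3, Int.ofNat 0, Int.ofNat 0, Int.ofNat 0, Int.ofNat 0, Int.negSucc 1, Int.ofNat 0, Int.ofNat 0, Int.ofNat 0, Int.ofNat 1, Int.ofNat 1, Int.negSucc 0], [Int.ofNat 0, Int.ofNat 1, Int.ofNat 0, Int.ofNat 0, Int.ofNat 2, Int.negSucc 11, Int.negSucc 0, Int.ofNat 22, Int.negSucc 12, Int.negSucc 2, Int.negSucc 2, Int.negSucc 3]),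
   ([Int.negSucc 0, Int.negSucc 0, Int.ofNat 2, Int.ofNat 0, Int.ofNat 0, Int.ofNat 1, Int.negSucc 0, Int.ofNat 0, Int.ofNat 0, Int.ofNat 0, Int.ofNat 0, Int.negSucc 0], [Int.negSucc 0, Int.negSucc 1, Int.ofNat 0, Int.ofNat 0, Int.ofNat 0, Int.ofNat 2, Int.ofNat 0, Int.ofNat 0, Int.ofNat 0, Int.ofNat 1, Int.ofNat 1, Int.negSucc 0], [Int.ofNat 16, Int.ofNat 12, Int.negSucc 20, Int.negSucc 8, Int.ofNat 11, Int.negSucc 11, Int.negSucc 0, Int.ofNat 22, Int.negSucc 12, Int.ofNat 3, Int.ofNat 3, Int.ofNat 4]),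
   ([Int.ofNat 0, Int.ofNat 1, Int.ofNat 0, Int.negSucc 0, Int.negSucc 0, Int.negSucc 0, Int.ofNat 0, Int.ofNat 0, Int.ofNat 2, Int.ofNat 0, Int.negSucc 0, Int.ofNat 1], [Int.ofNat 0, Int.ofNat 1, Int.ofNat 1, Int.ofNat 0, Int.ofNat 0, Int.ofNat 1, Int.negSucc 0, Int.negSucc 0, Int.ofNat 0, Int.ofNat 0, Int.negSucc 0, Int.ofNat 1], [Int.ofNat 6, Int.ofNat 6, Int.negSucc 4, Int.negSucc 2, Int.ofNat 3, Int.negSucc 5, Int.negSucc 0, Int.ofNat 5, Int.negSucc 1, Int.ofNat 0, Int.ofNat 1, Int.ofNat 2]),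
   ([Int.negSucc 0, Int.ofNat 0, Int.negSucc 0, Int.ofNat 0, Int.ofNat 0, Int.ofNat 0, Int.ofNat 0, Int.ofNat 1, Int.ofNat 0, Int.ofNat 1, Int.ofNat 1, Int.negSucc 0], [Int.negSucc 0, Int.ofNat 1, Int.ofNat 0, Int.ofNat 0, Int.ofNat 0, Int.ofNat 1, Int.negSucc 0, Int.ofNat 0, Int.ofNat 0, Int.ofNat 0, Int.ofNat 0, Int.ofNat 0], [Int.negSucc 35, Int.negSucc 47, Int.ofNat 42, Int.ofNat 24, Int.negSucc 35, Int.ofNat 48, Int.negSucc 5, Int.negSucc 41, Int.ofNat 30, Int.ofNat 12, Int.negSucc 5, Int.negSucc 17]),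
   ([Int.ofNat 0, Int.ofNat 1, Int.negSucc 1, Int.ofNat 0, Int.ofNat 0, Int.negSucc 0, Int.ofNat 0, Int.ofNat 2, Int.ofNat 0, Int.ofNat 0, Int.ofNat 0, Int.ofNat 1], [Int.ofNat 0, Int.ofNat 2, Int.ofNat 0, Int.ofNat 0, Int.ofNat 0, Int.ofNat 1, Int.negSucc 1, Int.ofNat 0, Int.ofNat 0, Int.ofNat 0, Int.ofNat 0, Int.ofNat 1], [Int.ofNat 6, Int.ofNat 12, Int.negSucc 20, Int.negSucc 8, Int.ofNat 11, Int.negSucc 11, Int.ofNat 10, Int.ofNat 8, Int.ofNat 0, Int.negSucc 7, Int.ofNat 3, Int.ofNat 16]),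
   ([Int.ofNat 0, Int.ofNat 1, Int.negSucc 0, Int.ofNat 0, Int.ofNat 0, Int.negSucc 1, Int.ofNat 1, Int.ofNat 1, Int.ofNat 0, Int.ofNat 0, Int.ofNat 0, Int.ofNat 0], [Int.ofNat 0, Int.ofNat 0, Int.ofNat 0, Int.ofNat 0, Int.ofNat 0, Int.negSucc 0, Int.ofNat 0, Int.ofNat 0, Int.ofNat 0, Int.ofNat 2, Int.ofNat 2, Int.negSucc 2], [Int.negSucc 5, Int.ofNat 1, Int.ofNat 0, Int.ofNat 0, Int.ofNat 2, Int.ofNat 15, Int.ofNat 0, Int.negSucc 21, Int.ofNat 9, Int.ofNat 4, Int.ofNat 6, Int.ofNat 0]),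
   ([Int.negSucc 0, Int.ofNat 0, Int.ofNat 0, Int.negSucc 0, Int.negSucc 0, Int.ofNat 0, Int.ofNat 0, Int.ofNat 1, Int.ofNat 1, Int.ofNat 1, Int.negSucc 0, Int.ofNat 0], [Int.negSucc 0, Int.negSucc 0, Int.ofNat 1, Int.ofNat 1, Int.ofNat 0, Int.ofNat 1, Int.ofNat 1, Int.negSucc 0, Int.negSucc 0, Int.ofNat 0, Int.negSucc 0, Int.ofNat 0], [Int.negSucc 1, Int.ofNat 1, Int.ofNat 1, Int.ofNat 0, Int.negSucc 0, Int.ofNat 5, Int.negSucc 0, Int.negSucc 5, Int.ofNat 4, Int.negSucc 0, Int.negSucc 0, Int.ofNat 4]),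
   ([Int.ofNat 1, Int.ofNat 0, Int.ofNat 0, Int.negSucc 0, Int.ofNat 0, Int.negSucc 0, Int.ofNat 0, Int.ofNat 0, Int.ofNat 1, Int.ofNat 1, Int.ofNat 1, Int.negSucc 0], [Int.ofNat 0, Int.negSucc 0, Int.ofNat 1, Int.ofNat 0, Int.ofNat 0, Int.ofNat 0, Int.ofNat 1, Int.negSucc 0, Int.ofNat 0, Int.ofNat 0, Int.ofNat 0, Int.negSucc 0], [Int.ofNat 18, Int.ofNat 6, Int.ofNat 6, Int.negSucc 11, Int.ofNat 6, Int.negSucc 41, Int.negSucc 5, Int.ofNat 48, Int.negSucc 29, Int.ofNat 18, Int.ofNat 6, Int.negSucc 41]),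
   ([Int.negSucc 0, Int.ofNat 0, Int.ofNat 0, Int.negSucc 1, Int.ofNat 0, Int.ofNat 0, Int.ofNat 0, Int.ofNat 0, Int.ofNat 2, Int.ofNat 1, Int.ofNat 1, Int.negSucc 0], [Int.negSucc 0, Int.negSucc 0, Int.ofNat 2, Int.ofNat 0, Int.ofNat 0, Int.ofNat 1, Int.ofNat 1, Int.negSucc 1, Int.ofNat 0, Int.ofNat 0, Int.ofNat 0, Int.negSucc 0], [Int.negSucc 15, Int.negSucc 9, Int.ofNat 3, Int.ofNat 1, Int.negSucc 10, Int.ofNat 16, Int.negSucc 2, Int.negSucc 11, Int.ofNat 21, Int.ofNat 3, Int.ofNat 3, Int.ofNat 2]),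
   ([Int.ofNat 0, Int.ofNat 0, Int.negSucc 0, Int.negSucc 0, Int.ofNat 0, Int.ofNat 0, Int.ofNat 0, Int.ofNat 1, Int.ofNat 1, Int.ofNat 0, Int.ofNat 0, Int.ofNat 1], [Int.ofNat 3, Int.ofNat 1, Int.ofNat 0, Int.ofNat 0, Int.ofNat 0, Int.negSucc 0, Int.negSucc 0, Int.ofNat 0, Int.ofNat 0, Int.ofNat 0, Int.ofNat 0, Int.ofNat 1], [Int.ofNat 0, Int.negSucc 15, Int.ofNat 22, Int.ofNat 13, Int.negSucc 10, Int.ofNat 10, Int.negSucc 5, Int.negSucc 12, Int.ofNat 0, Int.ofNat 5, Int.negSucc 3, Int.negSucc 12]),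
   ([Int.ofNat 0, Int.ofNat 0, Int.negSucc 0, Int.negSucc 0, Int.ofNat 0, Int.negSucc 0, Int.ofNat 1, Int.ofNat 1, Int.ofNat 0, Int.ofNat 2, Int.ofNat 0, Int.negSucc 0], [Int.ofNat 0, Int.negSucc 0, Int.negSucc 0, Int.ofNat 1, Int.ofNat 1, Int.ofNat 0, Int.ofNat 1, Int.ofNat 1, Int.negSucc 1, Int.ofNat 0, Int.ofNat 0, Int.ofNat 0], [Int.negSucc 3, Int.negSucc 4, Int.ofNat 6, Int.ofNat 2, Int.negSucc 2, Int.ofNat 3, Int.ofNat 0, Int.negSucc 1, Int.ofNat 0, Int.ofNat 2, Int.negSucc 0, Int.negSucc 4]),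
   ([Int.ofNat 0, Int.ofNat 1, Int.ofNat 0, Int.ofNat 0, Int.negSucc 0, Int.ofNat 0, Int.negSucc 0, Int.ofNat 0, Int.ofNat 1, Int.ofNat 1, Int.ofNat 0, Int.ofNat 0], [Int.ofNat 0, Int.ofNat 0, Int.negSucc 0, Int.ofNat 1, Int.ofNat 0, Int.ofNat 0, Int.ofNat 0, Int.ofNat 1, Int.negSucc 0, Int.ofNat 0, Int.ofNat 0, Int.ofNat 0], [Int.ofNat 42, Int.ofNat 42, Int.negSucc 47, Int.negSucc 5, Int.ofNat 24, Int.negSucc 23, Int.ofNat 12, Int.ofNat 6, Int.negSucc 11, Int.negSucc 17, Int.negSucc 5, Int.ofNat 54]),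
   ([Int.ofNat 0, Int.ofNat 0, Int.ofNat 0, Int.ofNat 0, Int.negSucc 1, Int.negSucc 0, Int.ofNat 0, Int.ofNat 0, Int.ofNat 2, Int.ofNat 2, Int.ofNat 0, Int.negSucc 0], [Int.ofNat 0, Int.negSucc 0, Int.negSucc 0, Int.ofNat 2, Int.ofNat 0, Int.ofNat 0, Int.ofNat 1, Int.ofNat 1, Int.negSucc 1, Int.ofNat 0, Int.ofNat 0, Int.ofNat 0], [Int.ofNat 0, Int.negSucc 2, Int.ofNat 12, Int.negSucc 9, Int.negSucc 9, Int.negSucc 12, Int.negSucc 5, Int.ofNat 10, Int.ofNat 9, Int.ofNat 14, Int.ofNat 4, Int.negSucc 21]),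
   ([Int.negSucc 1, Int.ofNat 0, Int.ofNat 0, Int.negSucc 0, Int.negSucc 0, Int.ofNat 0, Int.ofNat 0, Int.ofNat 0, Int.ofNat 2, Int.ofNat 2, Int.ofNat 1, Int.negSucc 1], [Int.negSucc 1, Int.ofNat 1, Int.ofNat 1, Int.ofNat 0, Int.ofNat 0, Int.ofNat 2, Int.negSucc 0, Int.negSucc 0, Int.ofNat 0, Int.ofNat 0, Int.ofNat 0, Int.ofNat 0], [Int.ofNat 11, Int.ofNat 12, Int.negSucc 2, Int.ofNat 0, Int.ofNat 11, Int.negSucc 11, Int.negSucc 2, Int.ofNat 16, Int.negSucc 21, Int.negSucc 4, Int.negSucc 2, Int.negSucc 0]),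
   ([Int.ofNat 1, Int.ofNat 0, Int.negSucc 0, Int.ofNat 0, Int.ofNat 0, Int.ofNat 0, Int.ofNat 0, Int.ofNat 0, Int.ofNat 0, Int.ofNat 2, Int.ofNat 0, Int.ofNat 0], [Int.ofNat 0, Int.ofNat 0, Int.negSucc 0, Int.ofNat 0, Int.ofNat 1, Int.ofNat 0, Int.ofNat 0, Int.ofNat 0, Int.ofNat 0, Int.ofNat 0, Int.ofNat 1, Int.ofNat 0], [Int.ofNat 5, Int.ofNat 2, Int.negSucc 3, Int.ofNat 0, Int.ofNat 3, Int.negSucc 5, Int.ofNat 2, Int.ofNat 6, Int.negSucc 5, Int.ofNat 0, Int.ofNat 0, Int.ofNat 0]),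
   ([Int.ofNat 0, Int.ofNat 0, Int.ofNat 1, Int.negSucc 0, Int.ofNat 0, Int.ofNat 0, Int.ofNat 0, Int.ofNat 0, Int.ofNat 0, Int.ofNat 1, Int.ofNat 0, Int.negSucc 0], [Int.ofNat 0, Int.ofNat 0, Int.ofNat 0, Int.negSucc 0, Int.ofNat 1, Int.ofNat 0, Int.ofNat 0, Int.ofNat 0, Int.ofNat 0, Int.ofNat 0, Int.ofNat 1, Int.negSucc 0], [Int.negSucc 53, Int.negSucc 29, Int.ofNat 30, Int.ofNat 12, Int.negSucc 11, Int.ofNat 72, Int.negSucc 11, Int.negSucc 47, Int.ofNat 24, Int.ofNat 0, Int.ofNat 0, Int.ofNat 0]),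
   ([Int.ofNat 1, Int.ofNat 1, Int.ofNat 0, Int.negSucc 1, Int.ofNat 0, Int.negSucc 0, Int.negSucc 0, Int.ofNat 2, Int.ofNat 0, Int.ofNat 2, Int.ofNat 0, Int.negSucc 0], [Int.ofNat 0, Int.ofNat 0, Int.negSucc 0, Int.negSucc 0, Int.ofNat 2, Int.ofNat 0, Int.ofNat 0, Int.ofNat 1, Int.negSucc 0, Int.ofNat 0, Int.ofNat 2, Int.negSucc 0], [Int.ofNat 22, Int.ofNat 22, Int.negSucc 15, Int.negSucc 8, Int.ofNat 1, Int.negSucc 21, Int.ofNat 0, Int.ofNat 15, Int.negSucc 1, Int.ofNat 3, Int.negSucc 5, Int.ofNat 15]),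
   ([Int.ofNat 2, Int.ofNat 0, Int.ofNat 0, Int.negSucc 0, Int.negSucc 0, Int.negSucc 1, Int.ofNat 0, Int.ofNat 1, Int.ofNat 1, Int.ofNat 2, Int.ofNat 0, Int.negSucc 0], [Int.ofNat 0, Int.negSucc 1, Int.ofNat 1, Int.ofNat 1, Int.ofNat 0, Int.ofNat 0, Int.ofNat 2, Int.negSucc 0, Int.negSucc 0, Int.ofNat 0, Int.ofNat 0, Int.negSucc 0], [Int.ofNat 1, Int.ofNat 3, Int.negSucc 9, Int.ofNat 6, Int.ofNat 11, Int.ofNat 8, Int.ofNat 10, Int.negSucc 11, Int.negSucc 5, Int.negSucc 15, Int.negSucc 2, Int.ofNat 20]),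
   ([Int.ofNat 0, Int.ofNat 0, Int.ofNat 1, Int.ofNat 0, Int.ofNat 0, Int.ofNat 1, Int.negSucc 0, Int.negSucc 0, Int.ofNat 0, Int.ofNat 2, Int.ofNat 0, Int.negSucc 0], [Int.ofNat 0, Int.ofNat 0, Int.ofNat 1, Int.ofNat 0, Int.negSucc 0, Int.ofNat 0, Int.negSucc 0, Int.negSucc 0, Int.ofNat 2, Int.ofNat 0, Int.ofNat 0, Int.ofNat 0], [Int.ofNat 0, Int.ofNat 2, Int.negSucc 3, Int.ofNat 0, Int.ofNat 3, Int.ofNat 3, Int.ofNat 0, Int.negSucc 1, Int.ofNat 0, Int.negSucc 1, Int.ofNat 1, Int.ofNat 5]),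
   ([Int.ofNat 0, Int.ofNat 0, Int.negSucc 0, Int.ofNat 1, Int.ofNat 0, Int.ofNat 0, Int.ofNat 1, Int.ofNat 0, Int.negSucc 0, Int.ofNat 1, Int.ofNat 0, Int.ofNat 0], [Int.ofNat 0, Int.ofNat 0, Int.ofNat 0, Int.ofNat 1, Int.negSucc 0, Int.ofNat 0, Int.ofNat 0, Int.negSucc 0, Int.ofNat 1, Int.ofNat 0, Int.ofNat 0, Int.ofNat 0], [Int.ofNat 0, Int.negSucc 29, Int.ofNat 30, Int.ofNat 12, Int.negSucc 11, Int.negSucc 23, Int.ofNat 12, Int.ofNat 6, Int.negSucc 11, Int.ofNat 18, Int.ofNat 6, Int.negSucc 53]),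
   ([Int.ofNat 0, Int.ofNat 1, Int.negSucc 0, Int.ofNat 0, Int.ofNat 0, Int.ofNat 0, Int.ofNat 1, Int.negSucc 0, Int.ofNat 0, Int.ofNat 2, Int.ofNat 0, Int.ofNat 0], [Int.ofNat 0, Int.ofNat 0, Int.ofNat 0, Int.ofNat 1, Int.negSucc 0, Int.ofNat 0, Int.ofNat 0, Int.negSucc 1, Int.ofNat 2, Int.ofNat 0, Int.ofNat 1, Int.ofNat 0], [Int.negSucc 12, Int.ofNat 0, Int.ofNat 1, Int.negSucc 3, Int.ofNat 1, Int.ofNat 22, Int.negSucc 0, Int.negSucc 11, Int.ofNat 4, Int.ofNat 5, Int.negSucc 2, Int.ofNat 9]),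
   ([Int.ofNat 0, Int.ofNat 2, Int.negSucc 0, Int.negSucc 0, Int.ofNat 0, Int.ofNat 0, Int.negSucc 0, Int.ofNat 1, Int.ofNat 0, Int.ofNat 2, Int.ofNat 0, Int.ofNat 0], [Int.ofNat 0, Int.ofNat 0, Int.negSucc 1, Int.ofNat 1, Int.ofNat 1, Int.ofNat 0, Int.ofNat 0, Int.ofNat 2, Int.negSucc 1, Int.ofNat 0, Int.ofNat 1, Int.ofNat 0], [Int.negSucc 21, Int.negSucc 20, Int.ofNat 12, Int.ofNat 12, Int.negSucc 4, Int.ofNat 22, Int.negSucc 0, Int.negSucc 11, Int.ofNat 4, Int.negSucc 4, Int.ofNat 3, Int.negSucc 8]),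
   ([Int.ofNat 1, Int.ofNat 0, Int.ofNat 1, Int.ofNat 1, Int.ofNat 0, Int.ofNat 0, Int.ofNat 0, Int.negSucc 0, Int.negSucc 0, Int.ofNat 1, Int.negSucc 0, Int.ofNat 0], [Int.ofNat 0, Int.ofNat 1, Int.ofNat 1, Int.negSucc 0, Int.negSucc 0, Int.negSucc 0, Int.negSucc 0, Int.ofNat 1, Int.ofNat 1, Int.ofNat 0, Int.negSucc 0, Int.ofNat 0], [Int.negSucc 4, Int.negSucc 4, Int.ofNat 6, Int.ofNat 2, Int.negSucc 2, Int.ofNat 5, Int.negSucc 0, Int.negSucc 5, Int.ofNat 4, Int.ofNat 1, Int.ofNat 1, Int.negSucc 3]),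
   ([Int.ofNat 0, Int.negSucc 0, Int.ofNat 0, Int.ofNat 0, Int.ofNat 1, Int.ofNat 1, Int.ofNat 0, Int.ofNat 0, Int.negSucc 0, Int.ofNat 1, Int.ofNat 1, Int.negSucc 0], [Int.ofNat 0, Int.ofNat 0, Int.ofNat 1, Int.negSucc 0, Int.ofNat 0, Int.ofNat 0, Int.negSucc 0, Int.ofNat 1, Int.ofNat 0, Int.ofNat 0, Int.ofNat 0, Int.negSucc 0], [Int.ofNat 54, Int.ofNat 42, Int.negSucc 47, Int.negSucc 5, Int.ofNat 24, Int.negSucc 41, Int.negSucc 5, Int.ofNat 48, Int.negSucc 29, Int.negSucc 17, Int.negSucc 5, Int.ofNat 42]),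
   ([Int.ofNat 0, Int.negSucc 1, Int.ofNat 1, Int.ofNat 1, Int.ofNat 0, Int.ofNat 2, Int.ofNat 0, Int.negSucc 0, Int.negSucc 0, Int.ofNat 2, Int.ofNat 0, Int.negSucc 0], [Int.ofNat 0, Int.ofNat 0, Int.ofNat 2, Int.negSucc 0, Int.negSucc 0, Int.ofNat 0, Int.negSucc 1, Int.ofNat 1, Int.ofNat 1, Int.ofNat 0, Int.ofNat 0, Int.negSucc 0], [Int.negSucc 8, Int.negSucc 20, Int.ofNat 12, Int.ofNat 12, Int.negSucc 4, Int.ofNat 8, Int.ofNat 10, Int.negSucc 11, Int.negSucc 5, Int.ofNat 16, Int.ofNat 3, Int.negSucc 19]),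
   ([Int.ofNat 0, Int.negSucc 0, Int.ofNat 1, Int.ofNat 0, Int.ofNat 0, Int.ofNat 1, Int.ofNat 1, Int.negSucc 1, Int.ofNat 0, Int.ofNat 2, Int.ofNat 0, Int.negSucc 0], [Int.ofNat 0, Int.ofNat 0, Int.ofNat 0, Int.negSucc 0, Int.ofNat 1, Int.ofNat 0, Int.ofNat 0, Int.negSucc 0, Int.ofNat 1, Int.ofNat 0, Int.ofNat 2, Int.negSucc 0], [Int.ofNat 9, Int.ofNat 0, Int.ofNat 1, Int.negSucc 3, Int.ofNat 1, Int.negSucc 21, Int.ofNat 0, Int.ofNat 15, Int.negSucc 1, Int.negSucc 2, Int.ofNat 6, Int.negSucc 14]),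
   ([Int.ofNat 0, Int.ofNat 0, Int.ofNat 0, Int.ofNat 1, Int.ofNat 1, Int.ofNat 1, Int.ofNat 0, Int.ofNat 0, Int.negSucc 1, Int.ofNat 0, Int.negSucc 0, Int.ofNat 1], [Int.ofNat 0, Int.ofNat 1, Int.negSucc 0, Int.negSucc 0, Int.ofNat 0, Int.negSucc 0, Int.ofNat 1, Int.ofNat 1, Int.ofNat 0, Int.ofNat 0, Int.negSucc 0, Int.ofNat 1], [Int.ofNat 4, Int.ofNat 1, Int.ofNat 1, Int.ofNat 0, Int.negSucc 0, Int.negSucc 5, Int.negSucc 0, Int.ofNat 5, Int.negSucc 1, Int.ofNat 0, Int.negSucc 0, Int.negSucc 1]),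
   ([Int.ofNat 0, Int.ofNat 0, Int.ofNat 0, Int.ofNat 1, Int.ofNat 0, Int.ofNat 0, Int.ofNat 0, Int.negSucc 0, Int.ofNat 0, Int.ofNat 1, Int.ofNat 1, Int.negSucc 0], [Int.ofNat 0, Int.ofNat 1, Int.negSucc 0, Int.ofNat 0, Int.ofNat 0, Int.negSucc 0, Int.ofNat 1, Int.ofNat 0, Int.ofNat 0, Int.ofNat 0, Int.ofNat 0, Int.ofNat 0], [Int.negSucc 41, Int.ofNat 6, Int.ofNat 6, Int.negSucc 11, Int.ofNat 6, Int.ofNat 48, Int.negSucc 5, Int.negSucc 41, Int.ofNat 30, Int.negSucc 11, Int.ofNat 6, Int.ofNat 18]),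
   ([Int.ofNat 0, Int.ofNat 0, Int.ofNat 0, Int.ofNat 1, Int.ofNat 1, Int.ofNat 0, Int.ofNat 0, Int.ofNat 0, Int.negSucc 1, Int.ofNat 2, Int.ofNat 1, Int.negSucc 1], [Int.ofNat 0, Int.ofNat 2, Int.negSucc 0, Int.negSucc 0, Int.ofNat 0, Int.negSucc 1, Int.ofNat 1, Int.ofNat 1, Int.ofNat 0, Int.ofNat 0, Int.ofNat 0, Int.ofNat 0], [Int.ofNat 22, Int.ofNat 3, Int.negSucc 9, Int.ofNat 6, Int.ofNat 11, Int.negSucc 11, Int.negSucc 2, Int.ofNat 16, Int.negSucc 21, Int.ofNat 5, Int.ofNat 3, Int.ofNat 1]),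
   ([Int.ofNat 0, Int.negSucc 0, Int.ofNat 0, Int.ofNat 2, Int.ofNat 0, Int.ofNat 1, Int.ofNat 0, Int.ofNat 0, Int.negSucc 1, Int.ofNat 2, Int.ofNat 0, Int.negSucc 0], [Int.ofNat 0, Int.ofNat 0, Int.ofNat 1, Int.ofNat 1, Int.negSucc 1, Int.ofNat 0, Int.negSucc 0, Int.negSucc 0, Int.ofNat 2, Int.ofNat 0, Int.ofNat 0, Int.ofNat 0], [Int.ofNat 13, Int.ofNat 22, Int.negSucc 15, Int.negSucc 8, Int.ofNat 1, Int.negSucc 12, Int.negSucc 5, Int.ofNat 10, Int.ofNat 9, Int.negSucc 13, Int.negSucc 3, Int.ofNat 22]),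
   ([Int.negSucc 0, Int.negSucc 0, Int.ofNat 0, Int.ofNat 1, Int.ofNat 1, Int.ofNat 1, Int.ofNat 1, Int.negSucc 0, Int.negSucc 0, Int.ofNat 0, Int.ofNat 0, Int.ofNat 0], [Int.negSucc 0, Int.negSucc 0, Int.negSucc 0, Int.ofNat 0, Int.ofNat 0, Int.ofNat 1, Int.ofNat 1, Int.ofNat 0, Int.ofNat 0, Int.ofNat 1, Int.ofNat 0, Int.ofNat 0], [Int.ofNat 2, Int.ofNat 6, Int.negSucc 4, Int.negSucc 2, Int.ofNat 3, Int.negSucc 1, Int.ofNat 0, Int.ofNat 3, Int.negSucc 0, Int.negSucc 2, Int.negSucc 0, Int.ofNat 6]),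
   ([Int.ofNat 1, Int.ofNat 0, Int.ofNat 1, Int.ofNat 0, Int.ofNat 0, Int.ofNat 0, Int.negSucc 0, Int.ofNat 0, Int.ofNat 0, Int.ofNat 0, Int.ofNat 0, Int.ofNat 0], [Int.ofNat 0, Int.negSucc 0, Int.ofNat 0, Int.ofNat 0, Int.ofNat 0, Int.ofNat 1, Int.ofNat 0, Int.ofNat 0, Int.ofNat 0, Int.ofNat 0, Int.ofNat 0, Int.ofNat 0], [Int.negSucc 17, Int.negSucc 47, Int.ofNat 42, Int.ofNat 24, Int.negSucc 35, Int.ofNat 6, Int.ofNat 12, Int.negSucc 23, Int.ofNat 18, Int.ofNat 12, Int.negSucc 5, Int.negSucc 35]),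
   ([Int.ofNat 2, Int.ofNat 0, Int.ofNat 0, Int.ofNat 1, Int.ofNat 1, Int.ofNat 0, Int.ofNat 0, Int.negSucc 0, Int.negSucc 0, Int.ofNat 0, Int.ofNat 0, Int.ofNat 1], [Int.ofNat 0, Int.negSucc 0, Int.negSucc 0, Int.ofNat 0, Int.ofNat 0, Int.ofNat 1, Int.ofNat 1, Int.ofNat 0, Int.ofNat 0, Int.ofNat 0, Int.ofNat 0, Int.ofNat 1], [Int.negSucc 0, Int.ofNat 12, Int.negSucc 2, Int.ofNat 0, Int.ofNat 11, Int.ofNat 10, Int.negSucc 5, Int.negSucc 12, Int.ofNat 0, Int.negSucc 4, Int.ofNat 4, Int.ofNat 13]),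
   ([Int.ofNat 1, Int.ofNat 0, Int.ofNat 0, Int.ofNat 0, Int.ofNat 2, Int.ofNat 0, Int.ofNat 0, Int.ofNat 0, Int.negSucc 1, Int.ofNat 1, Int.ofNat 1, Int.negSucc 0], [Int.ofNat 0, Int.ofNat 1, Int.ofNat 1, Int.negSucc 1, Int.ofNat 0, Int.negSucc 0, Int.negSucc 0, Int.ofNat 2, Int.ofNat 0, Int.ofNat 0, Int.ofNat 0, Int.negSucc 0], [Int.negSucc 21, Int.negSucc 2, Int.ofNat 12, Int.negSucc 9, Int.negSucc 9, Int.ofNat 16, Int.negSucc 2, Int.negSucc 11, Int.ofNat 21, Int.negSucc 2, Int.negSucc 2, Int.negSucc 1]),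
   ([Int.ofNat 0, Int.negSucc 0, Int.ofNat 0, Int.ofNat 1, Int.ofNat 0, Int.ofNat 0, Int.ofNat 0, Int.ofNat 0, Int.ofNat 0, Int.ofNat 0, Int.ofNat 0, Int.ofNat 0], [Int.ofNat 0, Int.negSucc 0, Int.ofNat 0, Int.ofNat 0, Int.ofNat 0, Int.ofNat 0, Int.ofNat 0, Int.ofNat 0, Int.ofNat 0, Int.ofNat 2, Int.ofNat 1, Int.negSucc 1], [Int.negSucc 5, Int.negSucc 3, Int.ofNat 2, Int.ofNat 1, Int.negSucc 1, Int.ofNat 6, Int.ofNat 2, Int.negSucc 5, Int.ofNat 4, Int.ofNat 0, Int.ofNat 0, Int.ofNat 0]),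
   ([Int.negSucc 0, Int.ofNat 1, Int.ofNat 0, Int.ofNat 0, Int.ofNat 0, Int.ofNat 0, Int.ofNat 0, Int.ofNat 0, Int.ofNat 0, Int.ofNat 0, Int.ofNat 0, Int.ofNat 0], [Int.negSucc 0, Int.ofNat 0, Int.ofNat 0, Int.ofNat 0, Int.ofNat 0, Int.ofNat 0, Int.ofNat 0, Int.ofNat 0, Int.ofNat 0, Int.ofNat 1, Int.ofNat 1, Int.negSucc 1], [Int.ofNat 36, Int.ofNat 30, Int.negSucc 29, Int.negSucc 17, Int.ofNat 18, Int.negSucc 47, Int.negSucc 11, Int.ofNat 72, Int.negSucc 35, Int.ofNat 0, Int.ofNat 0, Int.ofNat 0]),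
   ([Int.negSucc 1, Int.ofNat 0, Int.ofNat 1, Int.ofNat 1, Int.ofNat 0, Int.ofNat 2, Int.negSucc 0, Int.negSucc 0, Int.ofNat 0, Int.ofNat 0, Int.ofNat 0, Int.ofNat 0], [Int.negSucc 1, Int.negSucc 0, Int.ofNat 0, Int.ofNat 0, Int.ofNat 0, Int.ofNat 1, Int.ofNat 0, Int.ofNat 0, Int.ofNat 0, Int.ofNat 2, Int.ofNat 2, Int.negSucc 2], [Int.negSucc 10, Int.negSucc 15, Int.ofNat 22, Int.ofNat 13, Int.negSucc 10, Int.ofNat 15, Int.ofNat 0, Int.negSucc 21, Int.ofNat 9, Int.negSucc 3, Int.negSucc 5, Int.ofNat 0]),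
   ([Int.ofNat 0, Int.ofNat 0, Int.ofNat 0, Int.ofNat 2, Int.ofNat 0, Int.ofNat 1, Int.ofNat 0, Int.negSucc 1, Int.ofNat 0, Int.ofNat 0, Int.ofNat 0, Int.ofNat 1], [Int.ofNat 0, Int.ofNat 1, Int.negSucc 1, Int.ofNat 0, Int.ofNat 0, Int.negSucc 0, Int.ofNat 2, Int.ofNat 0, Int.ofNat 0, Int.ofNat 0, Int.ofNat 0, Int.ofNat 1], [Int.ofNat 0, Int.negSucc 9, Int.ofNat 3, Int.ofNat 1, Int.negSucc 10, Int.negSucc 11, Int.ofNat 10, Int.ofNat 8, Int.ofNat 0, Int.ofNat 8, Int.negSucc 2, Int.negSucc 15])]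

lemma L10b_Te : L10b.map (trt N10C.c10b_cls) = L10b_T := by decide +kernel

lemma L10b_D0 : chk1 L10b_T 0 = true := by decide +kernel

lemma L10b_D1 : chk1 L10b_T 1 = true := by decide +kernel

lemma L10b_D2 : chk1 L10b_T 2 = true := by decide +kernel

lemma L10b_D3 : chk1 L10b_T 3 = true := by decide +kernel

lemma L10b_D4 : chk1 L10b_T 4 = true := by decide +kernel

lemma L10b_D5 : chk1 L10b_T 5 = true := by decide +kernel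

lemma L10b_D6 : chk1 L10b_T 6 = true := by decide +kernel

lemma L10b_D7 : chk1 L10b_T 7 = true := by decide +kernel

lemma L10b_D8 : chk1 L10b_T 8 = true := by decide +kernel

lemma L10b_D9 : chk1 L10b_T 9 = true := by decide +kernel

lemma L10b_D10 : chk1 L10b_T 10 = true := by decide +kernel

lemma L10b_D11 : chk1 L10b_T 11 = true := by decide +kernel

lemma L10b_D : chkD 12 N10C.c10b_cls L10b = true :=
  chkD_of L10b_Te (fun i hi => by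
    interval_cases i
    · exact L10b_D0
    · exact L10b_D1
    · exact L10b_D2
    · exact L10b_D3
    · exact L10b_D4
    · exact L10b_D5
    · exact L10b_D6
    · exact L10b_D7
    · exact L10b_D8
    · exact L10b_D9
    · exact L10b_D10
    · exact L10b_D11)

end Pool.Agent.FK4
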