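import Pool.Agent.Lib_helper24.FAM.LK
import Pool.Agent.Lib_helper54.FAM.C10b

set_option autoImplicit false
set_option maxRecDepth 100000

/-!
# The second special curve with a point of order ten: the terms of the class
-/

namespace Pool.Agent.FK4

open Pool.Agent.KC72

/-- the terms of the class -/
def L10b : List Tm :=
  [⟨5, 0, [0, -4, 2, 1, -2, -2, 0, 3, -1, 3, 1, -6]⟩,
   ⟨9, 0, [0, 30, -30, -18, 18, 6, 12, -24, 18, -12, 6, 36]⟩,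
   ⟨150, 0, [0, 1, 0, 0, 2, -12, -1, 22, -13, -3, -3, -4]⟩,
   ⟨170, 4, [16, 12, -21, -9, 11, -12, -1, 22, -13, 3, 3, 4]⟩,
   ⟨24, 0, [6, 6, -5, -3, 3, -6, -1, 5, -2, 0, 1, 2]⟩,
   ⟨19, 5, [-36, -48, 42, 24, -36, 48, -6, -42, 30, 12, -6, -18]⟩,
   ⟨153, 0, [6, 12, -21, -9, 11, -12, 10, 8, 0, -8, 3, 16]⟩,
   ⟨177, 4, [-6, 1, 0, 0, 2, 15, 0, -22, 9, 4, 6, 0]⟩,
   ⟨43, 5, [-2, 1, 1, 0, -1, 5, -1, -6, 4, -1, -1, 4]⟩,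
   ⟨38, 5, [18, 6, 6, -12, 6, -42, -6, 48, -30, 18, 6, -42]⟩,
   ⟨154, 5, [-16, -10, 3, 1, -11, 16, -3, -12, 21, 3, 3, 2]⟩,
   ⟨151, 0, [0, -16, 22, 13, -11, 10, -6, -13, 0, 5, -4, -13]⟩,
   ⟨69, 5, [-4, -5, 6, 2, -3, 3, 0, -2, 0, 2, -1, -5]⟩,
   ⟨63, 5, [42, 42, -48, -6, 24, -24, 12, 6, -12, -18, -6, 54]⟩,
   ⟨158, 5, [0, -3, 12, -10, -10, -13, -6, 10, 9, 14, 4, -22]⟩,
   ⟨152, 5, [11, 12, -3, 0, 11, -12, -3, 16, -22, -5, -3, -1]⟩,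
   ⟨96, 5, [5, 2, -4, 0, 3, -6, 2, 6, -6, 0, 0, 0]⟩,
   ⟨91, 5, [-54, -30, 30, 12, -12, 72, -12, -48, 24, 0, 0, 0]⟩,
   ⟨163, 5, [22, 22, -16, -9, 1, -22, 0, 15, -2, 3, -6, 15]⟩,
   ⟨155, 5, [1, 3, -10, 6, 11, 8, 10, -12, -6, -16, -3, 20]⟩,
   ⟨124, 5, [0, 2, -4, 0, 3, 3, 0, -2, 0, -2, 1, 5]⟩,
   ⟨120, 5, [0, -30, 30, 12, -12, -24, 12, 6, -12, 18, 6, -54]⟩,
   ⟨168, 5, [-13, 0, 1, -4, 1, 22, -1, -12, 4, 5, -3, 9]⟩,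
   ⟨159, 5, [-22, -21, 12, 12, -5, 22, -1, -12, 4, -5, 3, -9]⟩,
   ⟨27, 1, [-5, -5, 6, 2, -3, 5, -1, -6, 4, 1, 1, -4]⟩,
   ⟨140, 5, [54, 42, -48, -6, 24, -42, -6, 48, -30, -18, -6, 42]⟩,
   ⟨172, 5, [-9, -21, 12, 12, -5, 8, 10, -12, -6, 16, 3, -20]⟩,
   ⟨164, 5, [9, 0, 1, -4, 1, -22, 0, 15, -2, -3, 6, -15]⟩,
   ⟨55, 1, [4, 1, 1, 0, -1, -6, -1, 5, -2, 0, -1, -2]⟩,
   ⟨149, 5, [-42, 6, 6, -12, 6, 48, -6, -42, 30, -12, 6, 18]⟩,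
   ⟨179, 5, [22, 3, -10, 6, 11, -12, -3, 16, -22, 5, 3, 1]⟩,
   ⟨169, 5, [13, 22, -16, -9, 1, -13, -6, 10, 9, -14, -4, 22]⟩,
   ⟨82, 4, [2, 6, -5, -3, 3, -2, 0, 3, -1, -3, -1, 6]⟩,
   ⟨126, 1, [-18, -48, 42, 24, -36, 6, 12, -24, 18, 12, -6, -36]⟩,
   ⟨160, 1, [-1, 12, -3, 0, 11, 10, -6, -13, 0, -5, 4, 13]⟩,
   ⟨161, 1, [-22, -3, 12, -10, -10, 16, -3, -12, 21, -3, -3, -2]⟩,
   ⟨112, 4, [-6, -4, 2, 1, -2, 6, 2, -6, 4, 0, 0, 0]⟩,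
   ⟨143, 4, [36, 30, -30, -18, 18, -48, -12, 72, -36, 0, 0, 0]⟩,
   ⟨165, 4, [-11, -16, 22, 13, -11, 15, 0, -22, 9, -4, -6, 0]⟩,
   ⟨166, 1, [0, -10, 3, 1, -11, -12, 10, 8, 0, 8, -3, -16]⟩]

lemma L10b_ok : okT 12 N10C.c10b_cls L10b = true := by decide +kernel

end Pool.Agent.FK4
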