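import Pool.Agent.Lib_helper54.FAM.Pl12a
import Pool.Agent.Lib_helper54.FAM.RC5a

set_option autoImplicit false
set_option linter.unusedSectionVars false

/-!
The residues of the explicit elements on the special curve with a point of order twelve.
-/

namespace Pool.Agent.FK4R

open Pool.Agent.K4R Pool.Agent.KC72
open scoped WithZero TensorProduct

section final

variable {k : Type*} [Field k] [CharZero k] {F : Type*} [Field F] [Algebra k F]

/-- **Order twelve** (`b = 10/3`, `c = 2`). -/
theorem unram12a {x y : F} (heq : y ^ 2 - x * y - 10 / 3 * y = x ^ 3 - 10 / 3 * x ^ 2)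
    (hne : ∀ z ∈ g12a x y, z ≠ 0) {cls : List (Mo × Mo)} {L : List Tm}
    (hc : chkRes3 locs12a tab235 cls L = true) : FK4.Unram k (zt (g12a x y) cls L) :=
  unram_of3 (fun _ _ hT => places12a hT (by linear_combination heq) hne) hc

/-- the generators do not vanish at a generic point -/
lemma g12a_ne {b c : k} {x y : F} (h : TN.Gen b c x y) : ∀ z ∈ g12a x y, z ≠ 0 := by
  intro z hz
  simp only [g12a, List.mem_cons, List.not_mem_nil, or_false] at hz
  have a := fun q : ℚ => h.xc_ne (q : k)
  have b := fun q : ℚ => h.yab_ne (q : k) 0
  simp only [map_ratCast, map_zero, add_zero] at a b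
  have : CharZero F := charZero_of_injective_algebraMap (algebraMap k F).injective
  rcases hz with rfl | rfl | rfl | rfl | rfl | rfl | rfl | rfl | rfl | rfl | rfl | rfl | rfl | rfl
  · exact h.x_ne
  · simpa using a (10 / 3)
  · simpa using a 2
  · simpa using a (10 / 9)
  · simpa using a 10
  · have := a (-2 / 3)
    intro e
    apply this
    push_cast
    linear_combination e
  · exact h.y_ne
  · simpa [sub_eq_add_neg] using b (-2)
  · have := b (-2 / 3)
    intro e
    apply this
    push_cast
    linear_combination e
  · have := b (-10 / 3)
    intro e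
    apply this
    push_cast
    linear_combination e
  · simpa [sub_eq_add_neg] using b 2
  · norm_num
  · norm_num
  · norm_num

end final

end Pool.Agent.FK4R
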