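import Pool.Agent.Lib_helper24.FAM.LK
import Pool.Agent.Lib_helper54.FAM.KD
import Pool.Agent.Lib_helper54.FAM.Cls12
import Pool.Agent.Lib_helper54.FAM.RC12

set_option autoImplicit false
set_option maxRecDepth 100000

/-!
# The special curve with a point of order twelve: the terms of the class
-/

namespace Pool.Agent.FK4

open Pool.Agent.KC72

/-- the terms of the class -/
def L12 : List Tm :=
  [⟨585, 0, [0, 8, 0, -8, -4, -2, -4, -12, 12, 4, 4, 0, 0, 0]⟩,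
   ⟨343, 0, [0, -6, 0, 6, 6, 3, 6, 6, -6, -6, -6, 0, 0, 0]⟩,
   ⟨400, 0, [-2, -2, 0, 2, 6, 2, 8, -4, 4, -8, -4, 0, 0, 0]⟩,
   ⟨398, 0, [-4, 4, 0, -4, -8, -6, -4, -4, 4, 4, 12, 0, 0, 0]⟩,
   ⟨13, 3, [0, 8, 0, -8, -4, -2, -8, 4, -4, 8, 4, 2, -6, 0]⟩,
   ⟨3, 3, [0, -6, 0, 6, 6, 3, 6, 0, 0, -6, -6, -3, 3, 0]⟩,
   ⟨505, 0, [0, -2, 0, 2, 6, 2, 0, 6, -6, 0, -6, -2, -2, 0]⟩,
   ⟨504, 0, [0, 4, 0, -4, -8, -6, -8, 0, 0, 8, 8, 6, -2, 0]⟩,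
   ⟨36, 2, [0, -4, 0, 4, -8, -2, 4, 0, 0, -4, 8, 4, 4, 0]⟩,
   ⟨41, 3, [0, 0, 0, 0, 6, 3, 0, 0, 0, 0, -6, -6, 0, 0]⟩,
   ⟨65, 3, [2, -4, 0, 4, 0, 4, 4, -2, 2, -4, -2, -6, 6, 0]⟩,
   ⟨64, 3, [4, 4, 0, -4, -8, -2, -4, -4, 4, 4, 4, 8, 0, 0]⟩,
   ⟨89, 2, [-4, 0, 0, 0, 4, -6, 0, 0, 0, 0, 0, 10, -6, 0]⟩,
   ⟨90, 2, [0, 0, 0, 0, 0, 3, 0, 0, 0, 0, 0, -9, 3, 0]⟩,
   ⟨124, 2, [-6, 2, 0, -2, 6, -2, 0, 0, 0, 0, 0, -4, -4, 0]⟩,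
   ⟨131, 3, [0, 4, 0, -4, 0, -2, 0, 0, 0, 0, 0, 10, -6, 0]⟩,
   ⟨151, 2, [12, 0, 0, 0, -4, 6, -4, 0, 0, 4, -8, 4, 4, 0]⟩,
   ⟨156, 2, [-6, 0, 0, 0, 0, -3, 0, 0, 0, 0, 6, -6, 0, 0]⟩,
   ⟨204, 2, [4, -2, 0, 2, -6, 2, -4, 2, -2, 4, 2, -6, 6, 0]⟩,
   ⟨207, 2, [4, -4, 0, 4, 0, 2, 4, 4, -4, -4, -4, 8, 0, 0]⟩,
   ⟨235, 2, [-4, 4, 0, -4, 8, 2, 8, -4, 4, -8, -4, 2, -6, 0]⟩,
   ⟨241, 2, [0, 0, 0, 0, -6, -3, -6, 0, 0, 6, 6, -3, 3, 0]⟩,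
   ⟨297, 2, [-6, 4, 0, -4, 0, -4, 0, -6, 6, 0, 6, -2, -2, 0]⟩,
   ⟨300, 2, [0, -4, 0, 4, 8, 2, 8, 0, 0, -8, -8, 6, -2, 0]⟩,
   ⟨331, 2, [0, -8, 0, 8, 4, 2, 4, 12, -12, -4, -4, 0, 0, 0]⟩,
   ⟨338, 2, [0, 6, 0, -6, -6, -3, -6, -6, 6, 6, 6, 0, 0, 0]⟩,
   ⟨395, 2, [2, 2, 0, -2, -6, -2, -8, 4, -4, 8, 4, 0, 0, 0]⟩,
   ⟨398, 2, [4, -4, 0, 4, 8, 6, 4, 4, -4, -4, -12, 0, 0, 0]⟩,
   ⟨432, 2, [0, -8, 0, 8, 4, 2, 8, -4, 4, -8, -4, -2, 6, 0]⟩,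
   ⟨1, 5, [0, 6, 0, -6, -6, -3, -6, 0, 0, 6, 6, 3, -3, 0]⟩,
   ⟨502, 2, [0, 2, 0, -2, -6, -2, 0, -6, 6, 0, 6, 2, 2, 0]⟩,
   ⟨504, 2, [0, -4, 0, 4, 8, 6, 8, 0, 0, -8, -8, -6, 2, 0]⟩,
   ⟨534, 2, [0, 4, 0, -4, 8, 2, -4, 0, 0, 4, -8, -4, -4, 0]⟩,
   ⟨39, 5, [0, 0, 0, 0, -6, -3, 0, 0, 0, 0, 6, 6, 0, 0]⟩,
   ⟨63, 5, [-2, 4, 0, -4, 0, -4, -4, 2, -2, 4, 2, 6, -6, 0]⟩,
   ⟨64, 5, [-4, -4, 0, 4, 8, 2, 4, 4, -4, -4, -4, -8, 0, 0]⟩,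
   ⟨637, 2, [4, 0, 0, 0, -4, 6, 0, 0, 0, 0, 0, -10, 6, 0]⟩,
   ⟨95, 5, [0, 0, 0, 0, 0, -3, 0, 0, 0, 0, 0, 9, -3, 0]⟩,
   ⟨130, 5, [6, -2, 0, 2, -6, 2, 0, 0, 0, 0, 0, 4, 4, 0]⟩,
   ⟨131, 5, [0, -4, 0, 4, 0, 2, 0, 0, 0, 0, 0, -10, 6, 0]⟩,
   ⟨371, 5, [-12, 0, 0, 0, 4, -6, 4, 0, 0, -4, 8, -4, -4, 0]⟩,
   ⟨163, 5, [6, 0, 0, 0, 0, 3, 0, 0, 0, 0, -6, 6, 0, 0]⟩,
   ⟨211, 5, [-4, 2, 0, -2, 6, -2, 4, -2, 2, -4, -2, 6, -6, 0]⟩,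
   ⟨207, 0, [-4, 4, 0, -4, 0, -2, -4, -4, 4, 4, 4, -8, 0, 0]⟩,
   ⟨475, 5, [4, -4, 0, 4, -8, -2, -8, 4, -4, 8, 4, -2, 6, 0]⟩,
   ⟨246, 0, [0, 0, 0, 0, 6, 3, 6, 0, 0, -6, -6, 3, -3, 0]⟩,
   ⟨302, 0, [6, -4, 0, 4, 0, 4, 0, 6, -6, 0, -6, 2, 2, 0]⟩,
   ⟨300, 0, [0, 4, 0, -4, -8, -2, -8, 0, 0, 8, 8, -6, 2, 0]⟩]

lemma L12_ok : okT 14 N12T.cls12_cls L12 = true := by decide +kernel

/-- the vectors of the terms -/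
def L12_T : List (List ℤ × List ℤ × List ℤ) :=
  [([Int.ofNat 1, Int.ofNat 0, Int.ofNat 0, Int.ofNat 0, Int.ofNat 0, Int.ofNat 0, Int.ofNat 0, Int.ofNat 0, Int.ofNat 0, Int.ofNat 0, Int.ofNat 0, Int.negSucc 0, Int.ofNat 0, Int.ofNat 0], [Int.ofNat 0, Int.ofNat 0, Int.ofNat 1, Int.ofNat 0, Int.ofNat 0, Int.ofNat 0, Int.ofNat 0, Int.ofNat 0, Int.ofNat 0, Int.ofNat 0, Int.ofNat 0, Int.negSucc 0, Int.ofNat 0, Int.ofNat 0], [Int.ofNat 0, Int.ofNat 8, Int.ofNat 0, Int.negSucc 7, Int.negSucc 3, Int.negSucc 1, Int.negSucc 3, Int.negSucc 11, Int.ofNat 12, Int.ofNat 4, Int.ofNat 4, Int.ofNat 0, Int.ofNat 0, Int.ofNat 0]),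
   ([Int.ofNat 0, Int.ofNat 1, Int.ofNat 0, Int.ofNat 0, Int.ofNat 0, Int.ofNat 0, Int.ofNat 0, Int.ofNat 0, Int.ofNat 0, Int.ofNat 0, Int.ofNat 0, Int.negSucc 1, Int.ofNat 0, Int.ofNat 0], [Int.ofNat 0, Int.ofNat 0, Int.ofNat 0, Int.ofNat 0, Int.ofNat 0, Int.ofNat 1, Int.ofNat 0, Int.ofNat 0, Int.ofNat 0, Int.ofNat 0, Int.ofNat 0, Int.negSucc 1, Int.ofNat 0, Int.ofNat 0], [Int.ofNat 0, Int.negSucc 5, Int.ofNat 0, Int.ofNat 6, Int.ofNat 6, Int.ofNat 3, Int.ofNat 6, Int.ofNat 6, Int.negSucc 5, Int.negSucc 5, Int.negSucc 5, Int.ofNat 0, Int.ofNat 0, Int.ofNat 0]),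
   ([Int.negSucc 0, Int.ofNat 1, Int.ofNat 0, Int.ofNat 0, Int.ofNat 0, Int.ofNat 0, Int.ofNat 0, Int.ofNat 0, Int.ofNat 0, Int.ofNat 0, Int.ofNat 0, Int.negSucc 0, Int.ofNat 1, Int.ofNat 0], [Int.negSucc 0, Int.ofNat 0, Int.ofNat 0, Int.ofNat 0, Int.ofNat 1, Int.ofNat 0, Int.ofNat 0, Int.ofNat 0, Int.ofNat 0, Int.ofNat 0, Int.ofNat 0, Int.negSucc 0, Int.ofNat 0, Int.ofNat 0], [Int.negSucc 1, Int.negSucc 1, Int.ofNat 0, Int.ofNat 2, Int.ofNat 6, Int.ofNat 2, Int.ofNat 8, Int.negSucc 3, Int.ofNat 4, Int.negSucc 7, Int.negSucc 3, Int.ofNat 0, Int.ofNat 0, Int.ofNat 0]),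
   ([Int.negSucc 0, Int.ofNat 0, Int.ofNat 1, Int.ofNat 0, Int.ofNat 0, Int.ofNat 0, Int.ofNat 0, Int.ofNat 0, Int.ofNat 0, Int.ofNat 0, Int.ofNat 0, Int.negSucc 1, Int.ofNat 0, Int.ofNat 1], [Int.negSucc 0, Int.ofNat 0, Int.ofNat 0, Int.ofNat 0, Int.ofNat 1, Int.ofNat 0, Int.ofNat 0, Int.ofNat 0, Int.ofNat 0, Int.ofNat 0, Int.ofNat 0, Int.negSucc 1, Int.ofNat 0, Int.ofNat 0], [Int.negSucc 3, Int.ofNat 4, Int.ofNat 0, Int.negSucc 3, Int.negSucc 7, Int.negSucc 5, Int.negSucc 3, Int.negSucc 3, Int.ofNat 4, Int.ofNat 4, Int.ofNat 12, Int.ofNat 0, Int.ofNat 0, Int.ofNat 0]),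
   ([Int.negSucc 1, Int.ofNat 0, Int.ofNat 0, Int.ofNat 0, Int.ofNat 0, Int.ofNat 0, Int.ofNat 1, Int.ofNat 0, Int.ofNat 0, Int.ofNat 0, Int.ofNat 0, Int.ofNat 0, Int.negSucc 0, Int.ofNat 1], [Int.negSucc 1, Int.ofNat 0, Int.negSucc 0, Int.ofNat 0, Int.ofNat 0, Int.ofNat 0, Int.ofNat 0, Int.ofNat 1, Int.ofNat 1, Int.ofNat 0, Int.ofNat 0, Int.ofNat 0, Int.ofNat 0, Int.ofNat 0], [Int.ofNat 0, Int.ofNat 8, Int.ofNat 0, Int.negSucc 7, Int.negSucc 3, Int.negSucc 1, Int.negSucc 7, Int.ofNat 4, Int.negSucc 3, Int.ofNat 8, Int.ofNat 4, Int.ofNat 2, Int.negSucc 5, Int.ofNat 0]),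
   ([Int.negSucc 1, Int.negSucc 0, Int.ofNat 0, Int.ofNat 0, Int.ofNat 0, Int.ofNat 0, Int.ofNat 1, Int.ofNat 1, Int.ofNat 0, Int.ofNat 0, Int.ofNat 0, Int.negSucc 0, Int.negSucc 0, Int.ofNat 1], [Int.negSucc 1, Int.ofNat 0, Int.ofNat 0, Int.ofNat 0, Int.ofNat 0, Int.negSucc 0, Int.ofNat 0, Int.ofNat 0, Int.ofNat 0, Int.ofNat 0, Int.ofNat 2, Int.negSucc 0, Int.negSucc 0, Int.ofNat 0], [Int.ofNat 0, Int.negSucc 5, Int.ofNat 0, Int.ofNat 6, Int.ofNat 6, Int.ofNat 3, Int.ofNat 6, Int.ofNat 0, Int.ofNat 0, Int.negSucc 5, Int.negSucc 5, Int.negSucc 2, Int.ofNat 3, Int.ofNat 0]),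
   ([Int.ofNat 0, Int.negSucc 0, Int.ofNat 0, Int.ofNat 0, Int.ofNat 0, Int.ofNat 0, Int.ofNat 0, Int.ofNat 1, Int.ofNat 0, Int.ofNat 0, Int.ofNat 0, Int.negSucc 0, Int.ofNat 1, Int.ofNat 0], [Int.ofNat 0, Int.ofNat 0, Int.ofNat 0, Int.ofNat 0, Int.negSucc 0, Int.ofNat 0, Int.negSucc 0, Int.ofNat 0, Int.ofNat 0, Int.ofNat 1, Int.ofNat 1, Int.negSucc 0, Int.ofNat 1, Int.ofNat 0], [Int.ofNat 0, Int.negSucc 1, Int.ofNat 0, Int.ofNat 2, Int.ofNat 6, Int.ofNat 2, Int.ofNat 0, Int.ofNat 6, Int.negSucc 5, Int.ofNat 0, Int.negSucc 5, Int.negSucc 1, Int.negSucc 1, Int.ofNat 0]),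
   ([Int.ofNat 0, Int.ofNat 0, Int.negSucc 0, Int.ofNat 0, Int.ofNat 0, Int.ofNat 0, Int.negSucc 0, Int.ofNat 1, Int.ofNat 1, Int.ofNat 0, Int.ofNat 0, Int.negSucc 1, Int.ofNat 1, Int.ofNat 0], [Int.ofNat 0, Int.ofNat 0, Int.ofNat 0, Int.ofNat 0, Int.negSucc 0, Int.ofNat 0, Int.negSucc 0, Int.ofNat 0, Int.ofNat 0, Int.ofNat 1, Int.ofNat 1, Int.negSucc 1, Int.ofNat 1, Int.ofNat 0], [Int.ofNat 0, Int.ofNat 4, Int.ofNat 0, Int.negSucc 3, Int.negSucc 7, Int.negSucc 5, Int.negSucc 7, Int.ofNat 0, Int.ofNat 0, Int.ofNat 8, Int.ofNat 8, Int.ofNat 6, Int.negSucc 1, Int.ofNat 0]),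
   ([Int.ofNat 1, Int.negSucc 0, Int.ofNat 0, Int.ofNat 0, Int.ofNat 0, Int.ofNat 0, Int.negSucc 0, Int.ofNat 1, Int.ofNat 0, Int.ofNat 0, Int.ofNat 0, Int.ofNat 0, Int.negSucc 0, Int.ofNat 1], [Int.ofNat 0, Int.negSucc 0, Int.negSucc 0, Int.negSucc 0, Int.ofNat 0, Int.ofNat 0, Int.negSucc 0, Int.ofNat 1, Int.ofNat 1, Int.ofNat 1, Int.ofNat 0, Int.ofNat 1, Int.negSucc 0, Int.ofNat 0], [Int.ofNat 0, Int.negSucc 3, Int.ofNat 0, Int.ofNat 4, Int.negSucc 7, Int.negSucc 1, Int.ofNat 4, Int.ofNat 0, Int.ofNat 0, Int.negSucc 3, Int.ofNat 8, Int.ofNat 4, Int.ofNat 4, Int.ofNat 0]),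
   ([Int.ofNat 0, Int.negSucc 0, Int.negSucc 0, Int.ofNat 0, Int.ofNat 0, Int.ofNat 0, Int.negSucc 0, Int.ofNat 1, Int.ofNat 1, Int.ofNat 0, Int.ofNat 0, Int.ofNat 0, Int.negSucc 0, Int.ofNat 1], [Int.ofNat 0, Int.ofNat 0, Int.ofNat 0, Int.ofNat 0, Int.negSucc 1, Int.negSucc 0, Int.negSucc 1, Int.ofNat 0, Int.ofNat 0, Int.ofNat 2, Int.ofNat 2, Int.ofNat 0, Int.ofNat 0, Int.ofNat 0], [Int.ofNat 0, Int.ofNat 0, Int.ofNat 0, Int.ofNat 0, Int.ofNat 6, Int.ofNat 3, Int.ofNat 0, Int.ofNat 0, Int.ofNat 0, Int.ofNat 0, Int.negSucc 5, Int.negSucc 5, Int.ofNat 0, Int.ofNat 0]),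
   ([Int.negSucc 0, Int.ofNat 0, Int.negSucc 0, Int.ofNat 0, Int.ofNat 0, Int.ofNat 0, Int.ofNat 0, Int.ofNat 0, Int.ofNat 1, Int.ofNat 0, Int.ofNat 0, Int.ofNat 0, Int.ofNat 1, Int.ofNat 0], [Int.negSucc 0, Int.ofNat 1, Int.ofNat 0, Int.negSucc 0, Int.negSucc 0, Int.negSucc 0, Int.negSucc 0, Int.negSucc 0, Int.ofNat 1, Int.ofNat 1, Int.ofNat 2, Int.ofNat 0, Int.ofNat 0, Int.ofNat 0], [Int.ofNat 2, Int.negSucc 3, Int.ofNat 0, Int.ofNat 4, Int.ofNat 0, Int.ofNat 4, Int.ofNat 4, Int.negSucc 1, Int.ofNat 2, Int.negSucc 3, Int.negSucc 1, Int.negSucc 5, Int.ofNat 6, Int.ofNat 0]),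
   ([Int.negSucc 0, Int.ofNat 0, Int.negSucc 0, Int.negSucc 0, Int.ofNat 0, Int.ofNat 0, Int.ofNat 0, Int.ofNat 0, Int.ofNat 1, Int.ofNat 1, Int.ofNat 0, Int.negSucc 0, Int.ofNat 0, Int.ofNat 0], [Int.negSucc 0, Int.ofNat 1, Int.ofNat 0, Int.negSucc 0, Int.negSucc 0, Int.negSucc 0, Int.negSucc 0, Int.negSucc 0, Int.ofNat 1, Int.ofNat 1, Int.ofNat 2, Int.negSucc 0, Int.ofNat 0, Int.ofNat 0], [Int.ofNat 4, Int.ofNat 4, Int.ofNat 0, Int.negSucc 3, Int.negSucc 7, Int.negSucc 1, Int.negSucc 3, Int.negSucc 3, Int.ofNat 4, Int.ofNat 4, Int.ofNat 4, Int.ofNat 8, Int.ofNat 0, Int.ofNat 0]),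
   ([Int.ofNat 0, Int.ofNat 1, Int.negSucc 0, Int.ofNat 0, Int.ofNat 0, Int.ofNat 0, Int.ofNat 0, Int.negSucc 0, Int.ofNat 1, Int.ofNat 0, Int.ofNat 0, Int.ofNat 0, Int.ofNat 0, Int.ofNat 0], [Int.ofNat 0, Int.ofNat 1, Int.negSucc 0, Int.negSucc 0, Int.negSucc 0, Int.ofNat 0, Int.negSucc 0, Int.negSucc 0, Int.ofNat 1, Int.ofNat 1, Int.ofNat 1, Int.ofNat 2, Int.negSucc 0, Int.ofNat 0], [Int.negSucc 3, Int.ofNat 0, Int.ofNat 0, Int.ofNat 0, Int.ofNat 4, Int.negSucc 5, Int.ofNat 0, Int.ofNat 0, Int.ofNat 0, Int.ofNat 0, Int.ofNat 0, Int.ofNat 10, Int.negSucc 5, Int.ofNat 0]),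
   ([Int.ofNat 1, Int.ofNat 1, Int.negSucc 0, Int.negSucc 0, Int.ofNat 0, Int.ofNat 0, Int.negSucc 0, Int.negSucc 0, Int.ofNat 1, Int.ofNat 1, Int.ofNat 0, Int.ofNat 0, Int.negSucc 0, Int.ofNat 0], [Int.ofNat 0, Int.ofNat 2, Int.ofNat 0, Int.negSucc 1, Int.negSucc 1, Int.negSucc 0, Int.negSucc 1, Int.negSucc 1, Int.ofNat 2, Int.ofNat 2, Int.ofNat 2, Int.ofNat 1, Int.negSucc 0, Int.ofNat 0], [Int.ofNat 0, Int.ofNat 0, Int.ofNat 0, Int.ofNat 0, Int.ofNat 0, Int.ofNat 3, Int.ofNat 0, Int.ofNat 0, Int.ofNat 0, Int.ofNat 0, Int.ofNat 0, Int.negSucc 8, Int.ofNat 3, Int.ofNat 0]),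
   ([Int.ofNat 1, Int.ofNat 0, Int.ofNat 0, Int.negSucc 0, Int.ofNat 0, Int.ofNat 0, Int.negSucc 0, Int.ofNat 0, Int.ofNat 0, Int.ofNat 1, Int.ofNat 0, Int.ofNat 0, Int.ofNat 0, Int.ofNat 0], [Int.ofNat 0, Int.ofNat 1, Int.ofNat 0, Int.negSucc 0, Int.negSucc 1, Int.negSucc 0, Int.negSucc 1, Int.ofNat 0, Int.ofNat 0, Int.ofNat 2, Int.ofNat 2, Int.ofNat 1, Int.ofNat 0, Int.ofNat 0], [Int.negSucc 5, Int.ofNat 2, Int.ofNat 0, Int.negSucc 1, Int.ofNat 6, Int.negSucc 1, Int.ofNat 0, Int.ofNat 0, Int.ofNat 0, Int.ofNat 0, Int.ofNat 0, Int.negSucc 3, Int.negSucc 3, Int.ofNat 0]),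
   ([Int.ofNat 0, Int.ofNat 0, Int.ofNat 0, Int.negSucc 0, Int.negSucc 0, Int.ofNat 0, Int.negSucc 0, Int.ofNat 0, Int.ofNat 0, Int.ofNat 1, Int.ofNat 1, Int.ofNat 0, Int.negSucc 0, Int.ofNat 1], [Int.ofNat 0, Int.ofNat 1, Int.ofNat 0, Int.negSucc 0, Int.negSucc 1, Int.negSucc 0, Int.negSucc 1, Int.ofNat 0, Int.ofNat 0, Int.ofNat 2, Int.ofNat 2, Int.ofNat 0, Int.ofNat 0, Int.ofNat 0], [Int.ofNat 0, Int.ofNat 4, Int.ofNat 0, Int.negSucc 3, Int.ofNat 0, Int.negSucc 1, Int.ofNat 0, Int.ofNat 0, Int.ofNat 0, Int.ofNat 0, Int.ofNat 0, Int.ofNat 10, Int.negSucc 5, Int.ofNat 0]),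
   ([Int.ofNat 0, Int.ofNat 0, Int.ofNat 1, Int.negSucc 0, Int.ofNat 0, Int.ofNat 0, Int.ofNat 0, Int.ofNat 0, Int.negSucc 0, Int.ofNat 1, Int.ofNat 0, Int.ofNat 0, Int.negSucc 1, Int.ofNat 1], [Int.ofNat 1, Int.ofNat 1, Int.ofNat 1, Int.negSucc 0, Int.negSucc 0, Int.negSucc 0, Int.negSucc 0, Int.negSucc 0, Int.negSucc 0, Int.ofNat 1, Int.ofNat 2, Int.ofNat 2, Int.negSucc 1, Int.ofNat 0], [Int.ofNat 12, Int.ofNat 0, Int.ofNat 0, Int.ofNat 0, Int.negSucc 3, Int.ofNat 6, Int.negSucc 3, Int.ofNat 0, Int.ofNat 0, Int.ofNat 4, Int.negSucc 7, Int.ofNat 4, Int.ofNat 4, Int.ofNat 0]),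
   ([Int.ofNat 0, Int.ofNat 1, Int.ofNat 1, Int.negSucc 0, Int.negSucc 0, Int.ofNat 0, Int.ofNat 0, Int.negSucc 0, Int.negSucc 0, Int.ofNat 1, Int.ofNat 1, Int.ofNat 0, Int.negSucc 1, Int.ofNat 1], [Int.ofNat 0, Int.ofNat 2, Int.ofNat 0, Int.negSucc 1, Int.negSucc 1, Int.negSucc 0, Int.negSucc 1, Int.ofNat 0, Int.ofNat 0, Int.ofNat 2, Int.ofNat 2, Int.ofNat 2, Int.negSucc 1, Int.ofNat 0], [Int.negSucc 5, Int.ofNat 0, Int.ofNat 0, Int.ofNat 0, Int.ofNat 0, Int.negSucc 2, Int.ofNat 0, Int.ofNat 0, Int.ofNat 0, Int.ofNat 0, Int.ofNat 6, Int.negSucc 5, Int.ofNat 0, Int.ofNat 0]),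
   ([Int.ofNat 0, Int.ofNat 1, Int.ofNat 0, Int.ofNat 0, Int.negSucc 0, Int.ofNat 0, Int.ofNat 0, Int.negSucc 0, Int.ofNat 0, Int.ofNat 0, Int.ofNat 1, Int.ofNat 0, Int.ofNat 1, Int.ofNat 0], [Int.ofNat 0, Int.ofNat 1, Int.ofNat 0, Int.negSucc 0, Int.negSucc 1, Int.negSucc 0, Int.negSucc 0, Int.negSucc 0, Int.ofNat 1, Int.ofNat 1, Int.ofNat 2, Int.ofNat 2, Int.ofNat 0, Int.ofNat 0], [Int.ofNat 4, Int.negSucc 1, Int.ofNat 0, Int.ofNat 2, Int.negSucc 5, Int.ofNat 2, Int.negSucc 3, Int.ofNat 2, Int.negSucc 1, Int.ofNat 4, Int.ofNat 2, Int.negSucc 5, Int.ofNat 6, Int.ofNat 0]),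
   ([Int.ofNat 1, Int.ofNat 1, Int.ofNat 0, Int.ofNat 0, Int.negSucc 0, Int.negSucc 0, Int.negSucc 0, Int.negSucc 0, Int.ofNat 0, Int.ofNat 0, Int.ofNat 2, Int.ofNat 0, Int.ofNat 0, Int.ofNat 0], [Int.ofNat 0, Int.ofNat 1, Int.ofNat 0, Int.negSucc 0, Int.negSucc 1, Int.negSucc 0, Int.negSucc 0, Int.negSucc 0, Int.ofNat 1, Int.ofNat 1, Int.ofNat 2, Int.ofNat 1, Int.ofNat 0, Int.ofNat 0], [Int.ofNat 4, Int.negSucc 3, Int.ofNat 0, Int.ofNat 4, Int.ofNat 0, Int.ofNat 2, Int.ofNat 4, Int.ofNat 4, Int.negSucc 3, Int.negSucc 3, Int.negSucc 3, Int.ofNat 8, Int.ofNat 0, Int.ofNat 0]),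
   ([Int.ofNat 0, Int.ofNat 0, Int.ofNat 0, Int.ofNat 1, Int.negSucc 0, Int.ofNat 0, Int.ofNat 0, Int.ofNat 0, Int.ofNat 0, Int.negSucc 0, Int.ofNat 1, Int.ofNat 0, Int.ofNat 0, Int.ofNat 1], [Int.ofNat 0, Int.ofNat 1, Int.ofNat 1, Int.ofNat 1, Int.negSucc 1, Int.negSucc 0, Int.ofNat 0, Int.negSucc 0, Int.negSucc 0, Int.ofNat 0, Int.ofNat 2, Int.ofNat 2, Int.ofNat 0, Int.ofNat 0], [Int.negSucc 3, Int.ofNat 4, Int.ofNat 0, Int.negSucc 3, Int.ofNat 8, Int.ofNat 2, Int.ofNat 8, Int.negSucc 3, Int.ofNat 4, Int.negSucc 7, Int.negSucc 3, Int.ofNat 2, Int.negSucc 5, Int.ofNat 0]),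
   ([Int.ofNat 0, Int.ofNat 0, Int.ofNat 1, Int.ofNat 1, Int.negSucc 0, Int.negSucc 0, Int.ofNat 0, Int.ofNat 0, Int.negSucc 0, Int.negSucc 0, Int.ofNat 2, Int.ofNat 0, Int.negSucc 0, Int.ofNat 1], [Int.ofNat 0, Int.ofNat 0, Int.ofNat 0, Int.ofNat 0, Int.negSucc 1, Int.negSucc 0, Int.ofNat 0, Int.ofNat 0, Int.ofNat 0, Int.ofNat 0, Int.ofNat 2, Int.ofNat 3, Int.negSucc 0, Int.ofNat 0], [Int.ofNat 0, Int.ofNat 0, Int.ofNat 0, Int.ofNat 0, Int.negSucc 5, Int.negSucc 2, Int.negSucc 5, Int.ofNat 0, Int.ofNat 0, Int.ofNat 6, Int.ofNat 6, Int.negSucc 2, Int.ofNat 3, Int.ofNat 0]),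
   ([Int.ofNat 0, Int.ofNat 0, Int.ofNat 1, Int.ofNat 0, Int.ofNat 0, Int.negSucc 0, Int.ofNat 0, Int.ofNat 0, Int.negSucc 0, Int.ofNat 0, Int.ofNat 1, Int.ofNat 0, Int.ofNat 0, Int.ofNat 0], [Int.ofNat 0, Int.ofNat 1, Int.ofNat 0, Int.negSucc 0, Int.negSucc 0, Int.negSucc 0, Int.negSucc 0, Int.ofNat 0, Int.ofNat 0, Int.ofNat 1, Int.ofNat 1, Int.ofNat 3, Int.negSucc 0, Int.ofNat 0], [Int.negSucc 5, Int.ofNat 4, Int.ofNat 0, Int.negSucc 3, Int.ofNat 0, Int.negSucc 3, Int.ofNat 0, Int.negSucc 5, Int.ofNat 6, Int.ofNat 0, Int.ofNat 6, Int.negSucc 1, Int.negSucc 1, Int.ofNat 0]),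
   ([Int.ofNat 0, Int.ofNat 1, Int.ofNat 1, Int.ofNat 0, Int.negSucc 0, Int.negSucc 0, Int.ofNat 0, Int.negSucc 0, Int.negSucc 0, Int.ofNat 1, Int.ofNat 1, Int.ofNat 0, Int.ofNat 0, Int.ofNat 0], [Int.ofNat 0, Int.ofNat 1, Int.ofNat 0, Int.negSucc 0, Int.negSucc 0, Int.negSucc 0, Int.negSucc 0, Int.ofNat 0, Int.ofNat 0, Int.ofNat 1, Int.ofNat 1, Int.ofNat 2, Int.negSucc 0, Int.ofNat 0], [Int.ofNat 0, Int.negSucc 3, Int.ofNat 0, Int.ofNat 4, Int.ofNat 8, Int.ofNat 2, Int.ofNat 8, Int.ofNat 0, Int.ofNat 0, Int.negSucc 7, Int.negSucc 7, Int.ofNat 6, Int.negSucc 1, Int.ofNat 0]),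
   ([Int.ofNat 0, Int.ofNat 0, Int.ofNat 0, Int.ofNat 0, Int.ofNat 1, Int.negSucc 0, Int.ofNat 0, Int.ofNat 0, Int.ofNat 0, Int.ofNat 0, Int.ofNat 0, Int.ofNat 0, Int.negSucc 0, Int.ofNat 0], [Int.ofNat 0, Int.ofNat 0, Int.ofNat 1, Int.ofNat 0, Int.ofNat 0, Int.negSucc 0, Int.ofNat 0, Int.ofNat 0, Int.ofNat 0, Int.ofNat 0, Int.ofNat 0, Int.ofNat 2, Int.negSucc 0, Int.ofNat 0], [Int.ofNat 0, Int.negSucc 7, Int.ofNat 0, Int.ofNat 8, Int.ofNat 4, Int.ofNat 2, Int.ofNat 4, Int.ofNat 12, Int.negSucc 11, Int.negSucc 3, Int.negSucc 3, Int.ofNat 0, Int.ofNat 0, Int.ofNat 0]),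
   ([Int.ofNat 0, Int.ofNat 0, Int.ofNat 0, Int.ofNat 1, Int.ofNat 0, Int.negSucc 0, Int.ofNat 0, Int.ofNat 0, Int.ofNat 0, Int.ofNat 0, Int.ofNat 0, Int.ofNat 0, Int.ofNat 0, Int.ofNat 0], [Int.ofNat 0, Int.ofNat 0, Int.ofNat 0, Int.ofNat 0, Int.ofNat 0, Int.negSucc 0, Int.ofNat 0, Int.ofNat 0, Int.ofNat 0, Int.ofNat 0, Int.ofNat 0, Int.ofNat 4, Int.negSucc 1, Int.ofNat 0], [Int.ofNat 0, Int.ofNat 6, Int.ofNat 0, Int.negSucc 5, Int.negSucc 5, Int.negSucc 2, Int.negSucc 5, Int.negSucc 5, Int.ofNat 6, Int.ofNat 6, Int.ofNat 6, Int.ofNat 0, Int.ofNat 0, Int.ofNat 0]),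
   ([Int.ofNat 0, Int.ofNat 0, Int.ofNat 0, Int.ofNat 1, Int.negSucc 0, Int.ofNat 0, Int.ofNat 0, Int.ofNat 0, Int.ofNat 0, Int.ofNat 0, Int.ofNat 0, Int.ofNat 0, Int.ofNat 2, Int.ofNat 0], [Int.ofNat 1, Int.ofNat 0, Int.ofNat 0, Int.ofNat 0, Int.negSucc 0, Int.ofNat 0, Int.ofNat 0, Int.ofNat 0, Int.ofNat 0, Int.ofNat 0, Int.ofNat 0, Int.ofNat 3, Int.ofNat 0, Int.ofNat 0], [Int.ofNat 2, Int.ofNat 2, Int.ofNat 0, Int.negSucc 1, Int.negSucc 5, Int.negSucc 1, Int.negSucc 7, Int.ofNat 4, Int.negSucc 3, Int.ofNat 8, Int.ofNat 4, Int.ofNat 0, Int.ofNat 0, Int.ofNat 0]),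
   ([Int.ofNat 0, Int.ofNat 0, Int.ofNat 1, Int.ofNat 0, Int.negSucc 0, Int.ofNat 0, Int.ofNat 0, Int.ofNat 0, Int.ofNat 0, Int.ofNat 0, Int.ofNat 0, Int.ofNat 0, Int.ofNat 0, Int.ofNat 1], [Int.ofNat 1, Int.ofNat 0, Int.ofNat 0, Int.ofNat 0, Int.negSucc 0, Int.ofNat 0, Int.ofNat 0, Int.ofNat 0, Int.ofNat 0, Int.ofNat 0, Int.ofNat 0, Int.ofNat 2, Int.ofNat 0, Int.ofNat 0], [Int.ofNat 4, Int.negSucc 3, Int.ofNat 0, Int.ofNat 4, Int.ofNat 8, Int.ofNat 6, Int.ofNat 4, Int.ofNat 4, Int.negSucc 3, Int.negSucc 3, Int.negSucc 11, Int.ofNat 0, Int.ofNat 0, Int.ofNat 0]),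
   ([Int.ofNat 0, Int.ofNat 0, Int.ofNat 0, Int.ofNat 0, Int.negSucc 0, Int.ofNat 1, Int.ofNat 0, Int.ofNat 0, Int.ofNat 0, Int.ofNat 1, Int.negSucc 0, Int.ofNat 0, Int.ofNat 0, Int.ofNat 1], [Int.ofNat 0, Int.ofNat 0, Int.negSucc 0, Int.ofNat 0, Int.ofNat 0, Int.ofNat 1, Int.ofNat 0, Int.ofNat 1, Int.ofNat 1, Int.ofNat 0, Int.negSucc 1, Int.ofNat 2, Int.ofNat 0, Int.ofNat 0], [Int.ofNat 0, Int.negSucc 7, Int.ofNat 0, Int.ofNat 8, Int.ofNat 4, Int.ofNat 2, Int.ofNat 8, Int.negSucc 3, Int.ofNat 4, Int.negSucc 7, Int.negSucc 3, Int.negSucc 1, Int.ofNat 6, Int.ofNat 0]),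
   ([Int.ofNat 0, Int.ofNat 0, Int.ofNat 0, Int.negSucc 0, Int.ofNat 0, Int.ofNat 1, Int.ofNat 0, Int.ofNat 0, Int.ofNat 1, Int.ofNat 1, Int.negSucc 1, Int.ofNat 0, Int.negSucc 0, Int.ofNat 1], [Int.ofNat 2, Int.ofNat 0, Int.ofNat 0, Int.ofNat 0, Int.ofNat 0, Int.ofNat 1, Int.ofNat 0, Int.ofNat 0, Int.ofNat 0, Int.ofNat 0, Int.negSucc 1, Int.ofNat 3, Int.negSucc 0, Int.ofNat 0], [Int.ofNat 0, Int.ofNat 6, Int.ofNat 0, Int.negSucc 5, Int.negSucc 5, Int.negSucc 2, Int.negSucc 5, Int.ofNat 0, Int.ofNat 0, Int.ofNat 6, Int.ofNat 6, Int.ofNat 3, Int.negSucc 2, Int.ofNat 0]),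
   ([Int.ofNat 0, Int.ofNat 0, Int.ofNat 0, Int.negSucc 0, Int.ofNat 1, Int.ofNat 0, Int.ofNat 0, Int.ofNat 0, Int.ofNat 1, Int.ofNat 0, Int.negSucc 0, Int.ofNat 0, Int.ofNat 0, Int.ofNat 0], [Int.ofNat 0, Int.ofNat 0, Int.ofNat 0, Int.ofNat 0, Int.ofNat 1, Int.ofNat 0, Int.ofNat 1, Int.ofNat 0, Int.ofNat 0, Int.negSucc 0, Int.negSucc 0, Int.ofNat 3, Int.negSucc 0, Int.ofNat 0], [Int.ofNat 0, Int.ofNat 2, Int.ofNat 0, Int.negSucc 1, Int.negSucc 5, Int.negSucc 1, Int.ofNat 0, Int.negSucc 5, Int.ofNat 6, Int.ofNat 0, Int.ofNat 6, Int.ofNat 2, Int.ofNat 2, Int.ofNat 0]),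
   ([Int.ofNat 0, Int.ofNat 0, Int.negSucc 0, Int.ofNat 0, Int.ofNat 1, Int.ofNat 0, Int.ofNat 0, Int.ofNat 1, Int.ofNat 1, Int.negSucc 0, Int.negSucc 0, Int.ofNat 0, Int.ofNat 0, Int.ofNat 0], [Int.ofNat 0, Int.ofNat 0, Int.ofNat 0, Int.ofNat 0, Int.ofNat 1, Int.ofNat 0, Int.ofNat 1, Int.ofNat 0, Int.ofNat 0, Int.negSucc 0, Int.negSucc 0, Int.ofNat 2, Int.negSucc 0, Int.ofNat 0], [Int.ofNat 0, Int.negSucc 3, Int.ofNat 0, Int.ofNat 4, Int.ofNat 8, Int.ofNat 6, Int.ofNat 8, Int.ofNat 0, Int.ofNat 0, Int.negSucc 7, Int.negSucc 7, Int.negSucc 5, Int.ofNat 2, Int.ofNat 0]),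
   ([Int.ofNat 0, Int.ofNat 0, Int.ofNat 0, Int.negSucc 0, Int.ofNat 1, Int.ofNat 0, Int.ofNat 0, Int.ofNat 0, Int.ofNat 1, Int.negSucc 0, Int.ofNat 0, Int.ofNat 0, Int.negSucc 1, Int.ofNat 1], [Int.ofNat 0, Int.negSucc 0, Int.negSucc 0, Int.negSucc 0, Int.ofNat 2, Int.ofNat 1, Int.ofNat 1, Int.ofNat 1, Int.ofNat 1, Int.negSucc 0, Int.negSucc 1, Int.ofNat 2, Int.negSucc 1, Int.ofNat 0], [Int.ofNat 0, Int.ofNat 4, Int.ofNat 0, Int.negSucc 3, Int.ofNat 8, Int.ofNat 2, Int.negSucc 3, Int.ofNat 0, Int.ofNat 0, Int.ofNat 4, Int.negSucc 7, Int.negSucc 3, Int.negSucc 3, Int.ofNat 0]),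
   ([Int.ofNat 0, Int.ofNat 0, Int.negSucc 0, Int.negSucc 0, Int.ofNat 1, Int.ofNat 1, Int.ofNat 0, Int.ofNat 1, Int.ofNat 1, Int.negSucc 0, Int.negSucc 0, Int.ofNat 0, Int.negSucc 1, Int.ofNat 1], [Int.ofNat 0, Int.ofNat 0, Int.ofNat 0, Int.ofNat 0, Int.ofNat 2, Int.ofNat 1, Int.ofNat 2, Int.ofNat 0, Int.ofNat 0, Int.negSucc 1, Int.negSucc 1, Int.ofNat 2, Int.negSucc 1, Int.ofNat 0], [Int.ofNat 0, Int.ofNat 0, Int.ofNat 0, Int.ofNat 0, Int.negSucc 5, Int.negSucc 2, Int.ofNat 0, Int.ofNat 0, Int.ofNat 0, Int.ofNat 0, Int.ofNat 6, Int.ofNat 6, Int.ofNat 0, Int.ofNat 0]),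
   ([Int.ofNat 0, Int.ofNat 0, Int.negSucc 0, Int.ofNat 0, Int.ofNat 0, Int.ofNat 1, Int.ofNat 0, Int.ofNat 1, Int.ofNat 0, Int.ofNat 0, Int.negSucc 0, Int.ofNat 0, Int.ofNat 1, Int.ofNat 0], [Int.ofNat 1, Int.negSucc 0, Int.ofNat 0, Int.ofNat 1, Int.ofNat 1, Int.ofNat 1, Int.ofNat 1, Int.ofNat 1, Int.negSucc 0, Int.negSucc 0, Int.negSucc 1, Int.ofNat 2, Int.ofNat 0, Int.ofNat 0], [Int.negSucc 1, Int.ofNat 4, Int.ofNat 0, Int.negSucc 3, Int.ofNat 0, Int.negSucc 3, Int.negSucc 3, Int.ofNat 2, Int.negSucc 1, Int.ofNat 4, Int.ofNat 2, Int.ofNat 6, Int.negSucc 5, Int.ofNat 0]),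
   ([Int.ofNat 0, Int.negSucc 0, Int.negSucc 0, Int.ofNat 0, Int.ofNat 1, Int.ofNat 1, Int.ofNat 1, Int.ofNat 1, Int.ofNat 0, Int.ofNat 0, Int.negSucc 1, Int.ofNat 0, Int.ofNat 0, Int.ofNat 0], [Int.ofNat 1, Int.negSucc 0, Int.ofNat 0, Int.ofNat 1, Int.ofNat 1, Int.ofNat 1, Int.ofNat 1, Int.ofNat 1, Int.negSucc 0, Int.negSucc 0, Int.negSucc 1, Int.ofNat 1, Int.ofNat 0, Int.ofNat 0], [Int.negSucc 3, Int.negSucc 3, Int.ofNat 0, Int.ofNat 4, Int.ofNat 8, Int.ofNat 2, Int.ofNat 4, Int.ofNat 4, Int.negSucc 3, Int.negSucc 3, Int.negSucc 3, Int.negSucc 7, Int.ofNat 0, Int.ofNat 0]),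
   ([Int.ofNat 0, Int.ofNat 0, Int.negSucc 0, Int.ofNat 1, Int.ofNat 0, Int.ofNat 0, Int.ofNat 0, Int.ofNat 1, Int.negSucc 0, Int.ofNat 0, Int.ofNat 0, Int.ofNat 0, Int.ofNat 0, Int.ofNat 0], [Int.ofNat 0, Int.negSucc 0, Int.negSucc 0, Int.ofNat 1, Int.ofNat 1, Int.ofNat 1, Int.ofNat 1, Int.ofNat 1, Int.negSucc 0, Int.negSucc 0, Int.negSucc 0, Int.ofNat 2, Int.negSucc 0, Int.ofNat 0], [Int.ofNat 4, Int.ofNat 0, Int.ofNat 0, Int.ofNat 0, Int.negSucc 3, Int.ofNat 6, Int.ofNat 0, Int.ofNat 0, Int.ofNat 0, Int.ofNat 0, Int.ofNat 0, Int.negSucc 9, Int.ofNat 6, Int.ofNat 0]),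
   ([Int.ofNat 0, Int.negSucc 0, Int.negSucc 0, Int.ofNat 1, Int.ofNat 1, Int.ofNat 0, Int.ofNat 1, Int.ofNat 1, Int.negSucc 0, Int.negSucc 0, Int.ofNat 0, Int.ofNat 0, Int.negSucc 0, Int.ofNat 0], [Int.ofNat 0, Int.negSucc 1, Int.ofNat 0, Int.ofNat 2, Int.ofNat 2, Int.ofNat 1, Int.ofNat 2, Int.ofNat 2, Int.negSucc 1, Int.negSucc 1, Int.negSucc 1, Int.ofNat 1, Int.negSucc 0, Int.ofNat 0], [Int.ofNat 0, Int.ofNat 0, Int.ofNat 0, Int.ofNat 0, Int.ofNat 0, Int.negSucc 2, Int.ofNat 0, Int.ofNat 0, Int.ofNat 0, Int.ofNat 0, Int.ofNat 0, Int.ofNat 9, Int.negSucc 2, Int.ofNat 0]),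
   ([Int.ofNat 0, Int.negSucc 0, Int.ofNat 0, Int.ofNat 0, Int.ofNat 1, Int.ofNat 0, Int.ofNat 1, Int.ofNat 0, Int.ofNat 0, Int.negSucc 0, Int.ofNat 0, Int.ofNat 0, Int.ofNat 0, Int.ofNat 0], [Int.ofNat 0, Int.negSucc 0, Int.ofNat 0, Int.ofNat 1, Int.ofNat 2, Int.ofNat 1, Int.ofNat 2, Int.ofNat 0, Int.ofNat 0, Int.negSucc 1, Int.negSucc 1, Int.ofNat 1, Int.ofNat 0, Int.ofNat 0], [Int.ofNat 6, Int.negSucc 1, Int.ofNat 0, Int.ofNat 2, Int.negSucc 5, Int.ofNat 2, Int.ofNat 0, Int.ofNat 0, Int.ofNat 0, Int.ofNat 0, Int.ofNat 0, Int.ofNat 4, Int.ofNat 4, Int.ofNat 0]),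
   ([Int.ofNat 0, Int.negSucc 0, Int.ofNat 0, Int.ofNat 0, Int.ofNat 1, Int.ofNat 1, Int.ofNat 1, Int.ofNat 0, Int.ofNat 0, Int.negSucc 0, Int.negSucc 0, Int.ofNat 0, Int.negSucc 0, Int.ofNat 1], [Int.ofNat 0, Int.negSucc 0, Int.ofNat 0, Int.ofNat 1, Int.ofNat 2, Int.ofNat 1, Int.ofNat 2, Int.ofNat 0, Int.ofNat 0, Int.negSucc 1, Int.negSucc 1, Int.ofNat 0, Int.ofNat 0, Int.ofNat 0], [Int.ofNat 0, Int.negSucc 3, Int.ofNat 0, Int.ofNat 4, Int.ofNat 0, Int.ofNat 2, Int.ofNat 0, Int.ofNat 0, Int.ofNat 0, Int.ofNat 0, Int.ofNat 0, Int.negSucc 9, Int.ofNat 6, Int.ofNat 0]),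
   ([Int.ofNat 0, Int.negSucc 0, Int.ofNat 1, Int.ofNat 0, Int.ofNat 0, Int.ofNat 0, Int.ofNat 1, Int.negSucc 0, Int.ofNat 0, Int.ofNat 0, Int.ofNat 0, Int.ofNat 0, Int.negSucc 0, Int.ofNat 1], [Int.ofNat 1, Int.negSucc 0, Int.ofNat 1, Int.ofNat 1, Int.ofNat 1, Int.ofNat 0, Int.ofNat 1, Int.negSucc 0, Int.negSucc 0, Int.negSucc 0, Int.ofNat 0, Int.ofNat 1, Int.negSucc 0, Int.ofNat 0], [Int.negSucc 11, Int.ofNat 0, Int.ofNat 0, Int.ofNat 0, Int.ofNat 4, Int.negSucc 5, Int.ofNat 4, Int.ofNat 0, Int.ofNat 0, Int.negSucc 3, Int.ofNat 8, Int.negSucc 3, Int.negSucc 3, Int.ofNat 0]),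
   ([Int.ofNat 0, Int.negSucc 0, Int.ofNat 1, Int.ofNat 1, Int.ofNat 0, Int.ofNat 0, Int.ofNat 1, Int.negSucc 0, Int.negSucc 0, Int.ofNat 0, Int.ofNat 0, Int.ofNat 0, Int.negSucc 0, Int.ofNat 1], [Int.ofNat 0, Int.negSucc 1, Int.ofNat 0, Int.ofNat 2, Int.ofNat 2, Int.ofNat 1, Int.ofNat 2, Int.ofNat 0, Int.ofNat 0, Int.negSucc 1, Int.negSucc 1, Int.ofNat 0, Int.ofNat 0, Int.ofNat 0], [Int.ofNat 6, Int.ofNat 0, Int.ofNat 0, Int.ofNat 0, Int.ofNat 0, Int.ofNat 3, Int.ofNat 0, Int.ofNat 0, Int.ofNat 0, Int.ofNat 0, Int.negSucc 5, Int.ofNat 6, Int.ofNat 0, Int.ofNat 0]),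
   ([Int.ofNat 0, Int.ofNat 0, Int.ofNat 0, Int.ofNat 1, Int.ofNat 0, Int.ofNat 0, Int.ofNat 0, Int.ofNat 0, Int.negSucc 0, Int.ofNat 0, Int.ofNat 0, Int.ofNat 0, Int.ofNat 1, Int.ofNat 0], [Int.ofNat 0, Int.negSucc 0, Int.ofNat 0, Int.ofNat 1, Int.ofNat 2, Int.ofNat 1, Int.ofNat 1, Int.ofNat 1, Int.negSucc 0, Int.negSucc 0, Int.negSucc 1, Int.ofNat 0, Int.ofNat 0, Int.ofNat 0], [Int.negSucc 3, Int.ofNat 2, Int.ofNat 0, Int.negSucc 1, Int.ofNat 6, Int.negSucc 1, Int.ofNat 4, Int.negSucc 1, Int.ofNat 2, Int.negSucc 3, Int.negSucc 1, Int.ofNat 6, Int.negSucc 5, Int.ofNat 0]),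
   ([Int.ofNat 1, Int.ofNat 0, Int.ofNat 0, Int.ofNat 1, Int.ofNat 1, Int.ofNat 0, Int.ofNat 0, Int.ofNat 0, Int.negSucc 0, Int.negSucc 0, Int.ofNat 0, Int.negSucc 0, Int.ofNat 0, Int.ofNat 0], [Int.ofNat 0, Int.negSucc 0, Int.ofNat 0, Int.ofNat 1, Int.ofNat 2, Int.ofNat 1, Int.ofNat 1, Int.ofNat 1, Int.negSucc 0, Int.negSucc 0, Int.negSucc 1, Int.negSucc 0, Int.ofNat 0, Int.ofNat 0], [Int.negSucc 3, Int.ofNat 4, Int.ofNat 0, Int.negSucc 3, Int.ofNat 0, Int.negSucc 1, Int.negSucc 3, Int.negSucc 3, Int.ofNat 4, Int.ofNat 4, Int.ofNat 4, Int.negSucc 7, Int.ofNat 0, Int.ofNat 0]),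
   ([Int.ofNat 0, Int.ofNat 1, Int.ofNat 0, Int.ofNat 0, Int.ofNat 0, Int.ofNat 0, Int.negSucc 0, Int.ofNat 0, Int.ofNat 0, Int.ofNat 0, Int.ofNat 0, Int.ofNat 0, Int.negSucc 0, Int.ofNat 1], [Int.ofNat 0, Int.ofNat 1, Int.ofNat 1, Int.ofNat 1, Int.ofNat 0, Int.ofNat 0, Int.ofNat 0, Int.negSucc 0, Int.negSucc 0, Int.ofNat 0, Int.ofNat 0, Int.ofNat 0, Int.ofNat 0, Int.ofNat 0], [Int.ofNat 4, Int.negSucc 3, Int.ofNat 0, Int.ofNat 4, Int.negSucc 7, Int.negSucc 1, Int.negSucc 7, Int.ofNat 4, Int.negSucc 3, Int.ofNat 8, Int.ofNat 4, Int.negSucc 1, Int.ofNat 6, Int.ofNat 0]),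
   ([Int.ofNat 1, Int.ofNat 1, Int.ofNat 1, Int.ofNat 0, Int.ofNat 0, Int.ofNat 0, Int.negSucc 0, Int.negSucc 0, Int.ofNat 0, Int.ofNat 0, Int.ofNat 0, Int.negSucc 0, Int.negSucc 0, Int.ofNat 1], [Int.ofNat 0, Int.ofNat 0, Int.ofNat 0, Int.ofNat 0, Int.ofNat 2, Int.ofNat 1, Int.ofNat 0, Int.ofNat 0, Int.ofNat 0, Int.ofNat 0, Int.negSucc 1, Int.negSucc 0, Int.negSucc 0, Int.ofNat 0], [Int.ofNat 0, Int.ofNat 0, Int.ofNat 0, Int.ofNat 0, Int.ofNat 6, Int.ofNat 3, Int.ofNat 6, Int.ofNat 0, Int.ofNat 0, Int.negSucc 5, Int.negSucc 5, Int.ofNat 3, Int.negSucc 2, Int.ofNat 0]),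
   ([Int.ofNat 1, Int.ofNat 0, Int.ofNat 1, Int.ofNat 0, Int.ofNat 0, Int.ofNat 0, Int.ofNat 0, Int.negSucc 0, Int.ofNat 0, Int.ofNat 0, Int.ofNat 0, Int.negSucc 0, Int.ofNat 1, Int.ofNat 0], [Int.ofNat 0, Int.negSucc 0, Int.ofNat 0, Int.ofNat 1, Int.ofNat 1, Int.ofNat 1, Int.ofNat 1, Int.ofNat 0, Int.ofNat 0, Int.negSucc 0, Int.negSucc 0, Int.negSucc 0, Int.ofNat 1, Int.ofNat 0], [Int.ofNat 6, Int.negSucc 3, Int.ofNat 0, Int.ofNat 4, Int.ofNat 0, Int.ofNat 4, Int.ofNat 0, Int.ofNat 6, Int.negSucc 5, Int.ofNat 0, Int.negSucc 5, Int.ofNat 2, Int.ofNat 2, Int.ofNat 0]),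
   ([Int.ofNat 0, Int.ofNat 0, Int.ofNat 1, Int.ofNat 1, Int.ofNat 0, Int.ofNat 0, Int.ofNat 1, Int.negSucc 0, Int.negSucc 0, Int.ofNat 0, Int.ofNat 0, Int.negSucc 1, Int.ofNat 1, Int.ofNat 0], [Int.ofNat 0, Int.negSucc 0, Int.ofNat 0, Int.ofNat 1, Int.ofNat 1, Int.ofNat 1, Int.ofNat 1, Int.ofNat 0, Int.ofNat 0, Int.negSucc 0, Int.negSucc 0, Int.negSucc 1, Int.ofNat 1, Int.ofNat 0], [Int.ofNat 0, Int.ofNat 4, Int.ofNat 0, Int.negSucc 3, Int.negSucc 7, Int.negSucc 1, Int.negSucc 7, Int.ofNat 0, Int.ofNat 0, Int.ofNat 8, Int.ofNat 8, Int.negSucc 5, Int.ofNat 2, Int.ofNat 0])]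

lemma L12_Te : L12.map (trt N12T.cls12_cls) = L12_T := by decide +kernel

lemma L12_D0 : chk1 L12_T 0 = true := by decide +kernel

lemma L12_D1 : chk1 L12_T 1 = true := by decide +kernel

lemma L12_D2 : chk1 L12_T 2 = true := by decide +kernel

lemma L12_D3 : chk1 L12_T 3 = true := by decide +kernel

lemma L12_D4 : chk1 L12_T 4 = true := by decide +kernel

lemma L12_D5 : chk1 L12_T 5 = true := by decide +kernel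

lemma L12_D6 : chk1 L12_T 6 = true := by decide +kernel

lemma L12_D7 : chk1 L12_T 7 = true := by decide +kernel

lemma L12_D8 : chk1 L12_T 8 = true := by decide +kernel

lemma L12_D9 : chk1 L12_T 9 = true := by decide +kernel

lemma L12_D10 : chk1 L12_T 10 = true := by decide +kernel

lemma L12_D11 : chk1 L12_T 11 = true := by decide +kernel

lemma L12_D12 : chk1 L12_T 12 = true := by decide +kernel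

lemma L12_D13 : chk1 L12_T 13 = true := by decide +kernel

lemma L12_D : chkD 14 N12T.cls12_cls L12 = true :=
  chkD_of L12_Te (fun i hi => by
    interval_cases i
    · exact L12_D0
    · exact L12_D1
    · exact L12_D2
    · exact L12_D3
    · exact L12_D4
    · exact L12_D5
    · exact L12_D6
    · exact L12_D7
    · exact L12_D8
    · exact L12_D9
    · exact L12_D10
    · exact L12_D11
    · exact L12_D12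
    · exact L12_D13)

lemma L12_res : FK4R.chkRes3 FK4R.locs12a FK4R.tab235 N12T.cls12_cls L12 = true := by
  decide +kernel

end Pool.Agent.FK4
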