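import Pool.Agent.Lib_helper24.FAM.LK
import Pool.Agent.Lib_helper54.FAM.C8a
import Pool.Agent.Lib_helper54.FAM.RC3

set_option autoImplicit false
set_option maxRecDepth 100000

/-!
# The first special curve with a point of order eight: the terms of the class
-/

namespace Pool.Agent.FK4

open Pool.Agent.KC72

/-- the terms of the class -/
def L8a : List Tm :=
  [⟨5, 2, [0, 0, -8, -2, 4, -4, 8, -6, 0]⟩,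
   ⟨9, 1, [0, -4, -2, -2, -6, 6, 2, 0, 4]⟩,
   ⟨28, 4, [12, 0, -4, 6, -4, 4, -8, -6, 0]⟩,
   ⟨35, 4, [-4, 4, 6, -4, 6, -6, -2, 4, -4]⟩,
   ⟨6, 4, [0, 0, 8, 2, -4, 4, -8, 6, 0]⟩,
   ⟨9, 4, [0, -4, 2, 6, 6, -6, -2, -4, 4]⟩,
   ⟨37, 0, [-12, 0, 4, -6, 4, -4, 8, 6, 0]⟩,
   ⟨35, 1, [4, 4, -6, 0, -6, 6, 2, 0, -4]⟩,
   ⟨10, 0, [2, -5, 5, 0, 3, -3, -1, -4, 4]⟩,
   ⟨12, 0, [-2, 1, 0, 4, 0, 0, -4, -3, 4]⟩,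
   ⟨24, 4, [-4, 5, -1, 1, 3, -3, -1, 4, -4]⟩,
   ⟨27, 2, [6, -1, 4, 0, 0, 0, -4, 3, -4]⟩,
   ⟨40, 1, [4, -1, 2, -1, 0, 0, 0, -3, 0]⟩,
   ⟨38, 1, [-6, 5, -1, 0, 1, -1, 1, 0, 0]⟩,
   ⟨53, 4, [-2, 1, -4, 4, 0, 0, 0, 1, 0]⟩,
   ⟨55, 4, [2, -5, 5, 0, -1, 1, -1, 4, 0]⟩,
   ⟨11, 2, [4, -5, 1, -1, -3, 3, 1, -4, 4]⟩,
   ⟨13, 1, [-4, 1, -6, 1, 0, 0, 4, -5, 4]⟩,
   ⟨26, 0, [-2, 5, -5, 0, -3, 3, 1, 4, -4]⟩,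
   ⟨25, 1, [0, -1, 2, -5, 0, 0, 4, 5, -4]⟩,
   ⟨39, 4, [2, -1, 4, -4, 0, 0, 0, -1, 0]⟩,
   ⟨41, 4, [0, 5, -5, 1, -1, 1, -1, -4, 0]⟩,
   ⟨54, 1, [-4, 1, -2, 1, 0, 0, 0, 3, 0]⟩,
   ⟨52, 1, [4, -5, 1, -1, 1, -1, 1, 0, 0]⟩]

lemma L8a_ok : okT 9 N8C.c8a_cls L8a = true := by decide +kernel

lemma L8a_D : chkD 9 N8C.c8a_cls L8a = true := by decide +kernel

lemma L8a_res : FK4R.chkRes FK4R.locs8a FK4R.tab23 N8C.c8a_cls L8a = true := by decide +kernel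

end Pool.Agent.FK4
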