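import Pool.Agent.Lib_helper24.FAM.LK
import Pool.Agent.Lib_helper54.FAM.C8b
import Pool.Agent.Lib_helper54.FAM.RC3

set_option autoImplicit false
set_option maxRecDepth 100000

/-!
# The second special curve with a point of order eight: the terms of the class
-/

namespace Pool.Agent.FK4

open Pool.Agent.KC72

/-- the terms of the class -/
def L8b : List Tm :=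
  [⟨10, 0, [2, 0, -2, 0, -2, 2, 0, 1, 0]⟩,
   ⟨12, 0, [-8, 0, 8, 0, 8, -8, 0, -4, 0]⟩,
   ⟨12, 0, [0, 0, -2, -2, 0, 0, 2, 3, -2]⟩,
   ⟨24, 4, [0, 0, 0, 0, -2, 2, 0, -1, 0]⟩,
   ⟨27, 2, [0, 0, 0, 0, 8, -8, 0, 4, 0]⟩,
   ⟨27, 2, [-2, 0, 0, 0, 0, 0, 2, -3, 2]⟩,
   ⟨26, 0, [0, 0, 0, 0, 2, -2, 0, 1, 0]⟩,
   ⟨25, 1, [0, 0, 0, 0, -8, 8, 0, -4, 0]⟩,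
   ⟨25, 1, [2, 0, 0, 0, 0, 0, -2, 3, -2]⟩,
   ⟨39, 4, [0, 0, -2, 0, 0, 0, 2, -1, 2]⟩,
   ⟨41, 4, [0, 0, 8, 0, 0, 0, -8, 4, -8]⟩,
   ⟨41, 4, [-2, 0, -2, -2, -2, 2, 4, -1, 0]⟩,
   ⟨40, 1, [0, 0, 2, 0, 0, 0, -2, 1, -2]⟩,
   ⟨38, 1, [0, 0, -8, 0, 0, 0, 8, -4, 8]⟩,
   ⟨38, 1, [2, 0, 2, 2, 2, -2, -4, 1, 0]⟩,
   ⟨53, 4, [-2, 0, 0, -2, 0, 0, 2, 1, -2]⟩,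
   ⟨55, 4, [8, 0, 0, 8, 0, 0, -8, -4, 8]⟩,
   ⟨55, 4, [0, 0, -4, -2, -2, 2, 4, 1, 0]⟩,
   ⟨54, 1, [2, 0, 0, 2, 0, 0, -2, -1, 2]⟩,
   ⟨52, 1, [-8, 0, 0, -8, 0, 0, 8, 4, -8]⟩,
   ⟨52, 1, [0, 0, 4, 2, 2, -2, -4, -1, 0]⟩,
   ⟨10, 0, [2, 0, -2, 0, -2, 2, 0, 1, 0]⟩,
   ⟨12, 0, [-8, 0, 8, 0, 8, -8, 0, -4, 0]⟩,
   ⟨12, 0, [0, 0, -2, -2, 0, 0, 2, 3, -2]⟩,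
   ⟨11, 2, [-2, 0, 2, 0, 2, -2, 0, -1, 0]⟩,
   ⟨13, 1, [8, 0, -8, 0, -8, 8, 0, 4, 0]⟩,
   ⟨13, 1, [0, 0, 2, 2, 0, 0, -2, -3, 2]⟩,
   ⟨26, 0, [0, 0, 0, 0, 2, -2, 0, 1, 0]⟩,
   ⟨25, 1, [0, 0, 0, 0, -8, 8, 0, -4, 0]⟩,
   ⟨25, 1, [2, 0, 0, 0, 0, 0, -2, 3, -2]⟩,
   ⟨24, 4, [0, 0, 0, 0, -2, 2, 0, -1, 0]⟩,
   ⟨27, 2, [0, 0, 0, 0, 8, -8, 0, 4, 0]⟩,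
   ⟨27, 2, [-2, 0, 0, 0, 0, 0, 2, -3, 2]⟩,
   ⟨40, 1, [0, 0, 2, 0, 0, 0, -2, 1, -2]⟩,
   ⟨38, 1, [0, 0, -8, 0, 0, 0, 8, -4, 8]⟩,
   ⟨38, 1, [2, 0, 2, 2, 2, -2, -4, 1, 0]⟩,
   ⟨39, 4, [0, 0, -2, 0, 0, 0, 2, -1, 2]⟩,
   ⟨41, 4, [0, 0, 8, 0, 0, 0, -8, 4, -8]⟩,
   ⟨41, 4, [-2, 0, -2, -2, -2, 2, 4, -1, 0]⟩,
   ⟨54, 1, [2, 0, 0, 2, 0, 0, -2, -1, 2]⟩,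
   ⟨52, 1, [-8, 0, 0, -8, 0, 0, 8, 4, -8]⟩,
   ⟨52, 1, [0, 0, 4, 2, 2, -2, -4, -1, 0]⟩,
   ⟨53, 4, [-2, 0, 0, -2, 0, 0, 2, 1, -2]⟩,
   ⟨55, 4, [8, 0, 0, 8, 0, 0, -8, -4, 8]⟩,
   ⟨55, 4, [0, 0, -4, -2, -2, 2, 4, 1, 0]⟩,
   ⟨11, 2, [-2, 0, 2, 0, 2, -2, 0, -1, 0]⟩,
   ⟨13, 1, [8, 0, -8, 0, -8, 8, 0, 4, 0]⟩,
   ⟨13, 1, [0, 0, 2, 2, 0, 0, -2, -3, 2]⟩]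

lemma L8b_ok : okT 9 N8C.c8b_cls L8b = true := by decide +kernel

lemma L8b_D : chkD 9 N8C.c8b_cls L8b = true := by decide +kernel

lemma L8b_res : FK4R.chkRes FK4R.locs8b FK4R.tab23 N8C.c8b_cls L8b = true := by decide +kernel

end Pool.Agent.FK4
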