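import Pool.Agent.Lib_helper24.FAM.LK
import Pool.Agent.Lib_helper54.FAM.C9
import Pool.Agent.Lib_helper54.FAM.RC9

set_option autoImplicit false
set_option maxRecDepth 100000

/-!
# The special curve with a point of order nine: the terms of the class
-/

namespace Pool.Agent.FK4

open Pool.Agent.KC72

/-- the terms of the class -/
def L9 : List Tm :=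
  [⟨78, 1, [3, -2, -3, 2, -6, 10, -4, 0, 0, 0]⟩,
   ⟨75, 1, [0, -2, 0, 2, 0, 4, -4, 0, 0, 0]⟩,
   ⟨77, 1, [-2, 2, 0, 0, 4, -8, 8, -4, 0, 0]⟩,
   ⟨70, 1, [0, -4, 0, 4, 0, 8, -8, 0, 0, 0]⟩,
   ⟨4, 2, [0, -2, -3, 2, 5, -5, 5, -2, 2, -3]⟩,
   ⟨2, 2, [0, -2, 0, 2, 2, -2, 2, -2, 2, 0]⟩,
   ⟨3, 2, [0, 2, 0, 0, -4, 6, -8, 4, 0, 0]⟩,
   ⟨6, 1, [0, -4, 0, 4, 4, -4, 4, -4, 4, 0]⟩,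
   ⟨21, 4, [-3, 2, 3, -3, -2, 0, -5, 5, 5, 3]⟩,
   ⟨20, 4, [0, 2, 0, 0, -2, 0, -2, 2, 2, 0]⟩,
   ⟨25, 2, [2, -4, 2, 0, 4, -4, 6, -4, -4, 0]⟩,
   ⟨29, 1, [0, 4, 0, 0, -4, 0, -4, 4, 4, 0]⟩,
   ⟨42, 4, [8, 0, 2, -2, -3, -2, 5, -3, -7, 0]⟩,
   ⟨41, 4, [2, 0, 2, -2, 0, -2, 2, 0, -4, 0]⟩,
   ⟨44, 4, [-6, 4, -4, 2, -2, 4, -4, 2, 6, 0]⟩,
   ⟨49, 2, [4, 0, 4, -4, 0, -4, 4, 0, -8, 0]⟩,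
   ⟨61, 4, [-7, 5, -5, 3, 3, 2, -3, 0, 0, -3]⟩,
   ⟨62, 4, [-4, 2, -2, 0, 0, 2, 0, 0, 0, 0]⟩,
   ⟨63, 4, [8, -6, 4, -2, 0, -2, 2, 0, -4, 0]⟩,
   ⟨69, 4, [-8, 4, -4, 0, 0, 4, 0, 0, 0, 0]⟩,
   ⟨81, 4, [2, -10, 6, 0, 3, 2, -3, 0, 0, 3]⟩,
   ⟨82, 4, [2, -4, 0, 0, 0, 2, 0, 0, 0, 0]⟩,
   ⟨83, 4, [-8, 8, -4, 0, 0, -2, 2, 0, 4, 0]⟩,
   ⟨89, 4, [4, -8, 0, 0, 0, 4, 0, 0, 0, 0]⟩,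
   ⟨17, 4, [-2, 5, -5, 3, -3, -2, 5, -3, 7, 0]⟩,
   ⟨10, 0, [-2, 2, -2, 0, 0, -2, 2, 0, 4, 0]⟩,
   ⟨18, 4, [8, -6, 4, -2, -2, 4, -4, 2, -6, 0]⟩,
   ⟨15, 0, [-4, 4, -4, 0, 0, -4, 4, 0, 8, 0]⟩,
   ⟨36, 0, [7, 0, 2, -2, -2, 0, -5, 5, -5, -3]⟩,
   ⟨33, 0, [4, 0, 2, -2, -2, 0, -2, 2, -2, 0]⟩,
   ⟨37, 0, [-8, 4, -4, 2, 4, -4, 6, -4, 4, 0]⟩,
   ⟨32, 1, [8, 0, 4, -4, -4, 0, -4, 4, -4, 0]⟩,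
   ⟨58, 0, [-8, 2, 3, -3, 5, -5, 5, -2, -2, 3]⟩,
   ⟨55, 0, [-2, 2, 0, 0, 2, -2, 2, -2, -2, 0]⟩,
   ⟨56, 1, [6, -4, 2, 0, -4, 6, -8, 4, 0, 0]⟩,
   ⟨50, 1, [-4, 4, 0, 0, 4, -4, 4, -4, -4, 0]⟩]

lemma L9_ok : okT 10 N9C.c9_cls L9 = true := by decide +kernel

lemma L9_D : chkD 10 N9C.c9_cls L9 = true := by decide +kernel

lemma L9_res : FK4R.chkRes FK4R.locs9 FK4R.tab23 N9C.c9_cls L9 = true := by decide +kernel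

end Pool.Agent.FK4
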