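import Pool.Agent.Lib_helper54.FAM.LK10ah

set_option autoImplicit false
set_option linter.unusedSectionVars false
set_option linter.unusedVariables false
set_option linter.unusedSimpArgs false
set_option linter.unusedTactic false
set_option linter.unreachableTactic false
set_option maxRecDepth 100000

/-!
# The first special curve with a point of order ten: monomials, part 1
-/

open scoped TensorProduct

namespace Pool.Agent.FK4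

open Pool.Agent.MK4 Pool.Agent.TN Pool.Agent.KC72

section eq

variable {F : Type*} [Field F] [CharZero F] {x B C H K y E G J : F}

theorem c10a_0 (A0 : x ≠ 0) (B0 : B ≠ 0) (C0 : C ≠ 0) (H0 : H ≠ 0) (K0 : K ≠ 0) (D0 : y ≠ 0) (E0 : E ≠ 0) (G0 : G ≠ 0) (J0 : J ≠ 0) :
    hk (sy ((x) / (3 * (K)))) (lg ((B) ^ 3 * (G) ^ 6 * (J) ^ 4 / ((x) * (C) * (H) ^ 5 * (K) ^ 2 * (y) ^ 2 * (E) ^ 4))) =
      hk (sy (ev [x, B, C, H, K, y, E, G, J, 2, 3] (false, [1, 0, 0, 0, -1, 0, 0, 0, 0, 0, -1]))) (lg (evl [x, B, C, H, K, y, E, G, J, 2, 3] [-1, 3, -1, -5, -2, -2, -4, 6, 4, 0, 0])) :=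
  hkc10a
    (by
      simp only [ev, evl_cons, evl_nil_left, evl_nil_right, cond_true, cond_false, zpow_neg, zpow_ofNat, zpow_zero, zpow_one]
      field_simp
      try ring)
    (by
      simp only [ev, evl_cons, evl_nil_left, evl_nil_right, cond_true, cond_false, zpow_neg, zpow_ofNat, zpow_zero, zpow_one]
      field_simp
      try ring)

theorem c10a_1 (A0 : x ≠ 0) (B0 : B ≠ 0) (C0 : C ≠ 0) (H0 : H ≠ 0) (K0 : K ≠ 0) (D0 : y ≠ 0) (E0 : E ≠ 0) (G0 : G ≠ 0) (J0 : J ≠ 0) :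
    hk (sy ((24 * y / (x ^ 2)) / (3 * (-(8 * J ^ 2) / (x ^ 2 * K))))) (lg ((-(24 * y * E) / (x ^ 2 * B)) ^ 3 * (-(72 * E * G * J) / (x ^ 3 * C * H)) ^ 6 * (-(96 * G * J ^ 2) / (x ^ 3 * H * K)) ^ 4 / ((24 * y / (x ^ 2)) * (-(6 * E * G) / (x ^ 2 * C)) * (-(12 * G * J) / (x ^ 2 * H)) ^ 5 * (-(8 * J ^ 2) / (x ^ 2 * K)) ^ 2 * (576 * y * E / (x ^ 3 * B)) ^ 2 * (-(144 * y * E * G) / (x ^ 3 * B * C)) ^ 4))) =
      hk (sy (ev [x, B, C, H, K, y, E, G, J, 2, 3] (true, [0, 0, 0, 0, 1, 1, 0, 0, -2, 0, 0]))) (lg (evl [x, B, C, H, K, y, E, G, J, 2, 3] [0, 3, -1, -5, -2, -4, 2, 0, 5, -1, 0])) :=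
  hkc10a'
    (by
      simp only [ev, evl_cons, evl_nil_left, evl_nil_right, cond_true, cond_false, zpow_neg, zpow_ofNat, zpow_zero, zpow_one]
      field_simp
      try ring)
    (by
      simp only [ev, evl_cons, evl_nil_left, evl_nil_right, cond_true, cond_false, zpow_neg, zpow_ofNat, zpow_zero, zpow_one]
      field_simp
      try ring)

theorem c10a_2 (A0 : x ≠ 0) (B0 : B ≠ 0) (C0 : C ≠ 0) (H0 : H ≠ 0) (K0 : K ≠ 0) (D0 : y ≠ 0) (E0 : E ≠ 0) (G0 : G ≠ 0) (J0 : J ≠ 0) :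
    hk (sy ((24 * x * E / (B * y)) / (3 * (16 * G ^ 2 * J ^ 2 / (H ^ 2 * K * y ^ 2))))) (lg ((-(144 * E * G) / (B * C * y)) ^ 3 * (72 * x * E * G * J ^ 2 / (B * C * H * K * y ^ 2)) ^ 6 * (48 * x * E * G ^ 2 * J ^ 2 / (C * H ^ 2 * K * y ^ 3)) ^ 4 / ((24 * x * E / (B * y)) * (18 * E * G * J / (B * C * H * y)) * (12 * E * G * J ^ 2 / (C * H * K * y ^ 2)) ^ 5 * (16 * G ^ 2 * J ^ 2 / (H ^ 2 * K * y ^ 2)) ^ 2 * (144 * x ^ 2 * E * G / (B * C * y ^ 2)) ^ 2 * (-(432 * x * E * G * J) / (B * C * H * y ^ 2)) ^ 4))) =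
      hk (sy (ev [x, B, C, H, K, y, E, G, J, 2, 3] (false, [1, -1, 0, 2, 1, 1, 1, -2, -2, -1, 0]))) (lg (evl [x, B, C, H, K, y, E, G, J, 2, 3] [1, -1, -1, 0, -3, 1, 0, 1, 1, 0, -2])) :=
  hkc10a'
    (by
      simp only [ev, evl_cons, evl_nil_left, evl_nil_right, cond_true, cond_false, zpow_neg, zpow_ofNat, zpow_zero, zpow_one]
      field_simp
      try ring)
    (by
      simp only [ev, evl_cons, evl_nil_left, evl_nil_right, cond_true, cond_false, zpow_neg, zpow_ofNat, zpow_zero, zpow_one]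
      field_simp
      try ring)

theorem c10a_3 (A0 : x ≠ 0) (B0 : B ≠ 0) (C0 : C ≠ 0) (H0 : H ≠ 0) (K0 : K ≠ 0) (D0 : y ≠ 0) (E0 : E ≠ 0) (G0 : G ≠ 0) (J0 : J ≠ 0) :
    hk (sy ((6 * B * G / (C * E)) / (3 * (-(2 * B ^ 2 * G ^ 2 * J ^ 2) / (C ^ 2 * H ^ 2 * K * y ^ 2))))) (lg ((-(18 * x * B * G * J) / (C * H * y * E)) ^ 3 * (36 * B ^ 2 * G ^ 2 * J ^ 2 / (C * H ^ 2 * K * y * E ^ 2)) ^ 6 * (-(6 * B ^ 2 * G ^ 2 * J ^ 2) / (C ^ 2 * H ^ 2 * K * y * E)) ^ 4 / ((6 * B * G / (C * E)) * (18 * B * G * J ^ 2 / (C * H * K * y * E)) * (-(6 * B * G ^ 2 * J ^ 2) / (C * H ^ 2 * K * y * E)) ^ 5 * (-(2 * B ^ 2 * G ^ 2 * J ^ 2) / (C ^ 2 * H ^ 2 * K * y ^ 2)) ^ 2 * (18 * B ^ 2 * G * J / (C * H * E ^ 2)) ^ 2 * (-(18 * x * B ^ 2 * G * J ^ 2) / (C * H * K * y * E ^ 2)) ^ 4))) =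
      hk (sy (ev [x, B, C, H, K, y, E, G, J, 2, 3] (true, [0, -1, 1, 2, 1, 2, -1, -1, -2, 0, 0]))) (lg (evl [x, B, C, H, K, y, E, G, J, 2, 3] [-1, 0, 0, -2, 2, 1, 0, 1, -3, 4, 2])) :=
  hkc10a
    (by
      simp only [ev, evl_cons, evl_nil_left, evl_nil_right, cond_true, cond_false, zpow_neg, zpow_ofNat, zpow_zero, zpow_one]
      field_simp
      try ring)
    (by
      simp only [ev, evl_cons, evl_nil_left, evl_nil_right, cond_true, cond_false, zpow_neg, zpow_ofNat, zpow_zero, zpow_one]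
      field_simp
      try ring)

theorem c10a_4 (A0 : x ≠ 0) (B0 : B ≠ 0) (C0 : C ≠ 0) (H0 : H ≠ 0) (K0 : K ≠ 0) (D0 : y ≠ 0) (E0 : E ≠ 0) (G0 : G ≠ 0) (J0 : J ≠ 0) :
    hk (sy ((12 * C * J / (H * G)) / (3 * (4 * J ^ 2 / (H ^ 2 * K))))) (lg ((-(12 * B * C * J ^ 2) / (H * K * E * G)) ^ 3 * (12 * x * B * C * J ^ 2 / (H ^ 2 * K * y * G)) ^ 6 * (-(48 * C * J ^ 2) / (H ^ 2 * K * G)) ^ 4 / ((12 * C * J / (H * G)) * (6 * x * B * C * J ^ 2 / (H ^ 2 * K * y * E)) * (-(12 * B * J ^ 2) / (H ^ 2 * K * y)) ^ 5 * (4 * J ^ 2 / (H ^ 2 * K)) ^ 2 * (48 * C ^ 2 * J ^ 2 / (H * K * G ^ 2)) ^ 2 * (-(24 * B * C ^ 2 * J ^ 2) / (H ^ 2 * K * E * G)) ^ 4))) =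
      hk (sy (ev [x, B, C, H, K, y, E, G, J, 2, 3] (false, [0, 0, 1, 1, 1, 0, 0, -1, -1, 0, 0]))) (lg (evl [x, B, C, H, K, y, E, G, J, 2, 3] [5, -1, -1, 4, 1, 0, 2, -4, -3, -3, 0])) :=
  hkc10a
    (by
      simp only [ev, evl_cons, evl_nil_left, evl_nil_right, cond_true, cond_false, zpow_neg, zpow_ofNat, zpow_zero, zpow_one]
      field_simp
      try ring)
    (by
      simp only [ev, evl_cons, evl_nil_left, evl_nil_right, cond_true, cond_false, zpow_neg, zpow_ofNat, zpow_zero, zpow_one]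
      field_simp
      try ring)

theorem c10a_5 (A0 : x ≠ 0) (B0 : B ≠ 0) (C0 : C ≠ 0) (H0 : H ≠ 0) (K0 : K ≠ 0) (D0 : y ≠ 0) (E0 : E ≠ 0) (G0 : G ≠ 0) (J0 : J ≠ 0) :
    hk (sy ((8 * H / K) / (3 * (-(32) / K)))) (lg ((-(16 * C) / K) ^ 3 * (8 * H * y / (K * J)) ^ 6 * (32 * x * H / (K * J)) ^ 4 / ((8 * H / K) * (2 * B / K) * (-(4 * x) / K) ^ 5 * (-(32) / K) ^ 2 * (32 * H * G / (K * J)) ^ 2 * (-(16 * H * E) / (K * J)) ^ 4))) =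
      hk (sy (ev [x, B, C, H, K, y, E, G, J, 2, 3] (true, [0, 0, 0, 1, 0, 0, 0, 0, 0, -2, -1]))) (lg (evl [x, B, C, H, K, y, E, G, J, 2, 3] [-1, -1, 3, 3, 2, 6, -4, -2, -4, 0, 0])) :=
  hkc10a
    (by
      simp only [ev, evl_cons, evl_nil_left, evl_nil_right, cond_true, cond_false, zpow_neg, zpow_ofNat, zpow_zero, zpow_one]
      field_simp
      try ring)
    (by
      simp only [ev, evl_cons, evl_nil_left, evl_nil_right, cond_true, cond_false, zpow_neg, zpow_ofNat, zpow_zero, zpow_one]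
      field_simp
      try ring)

theorem c10a_6 (A0 : x ≠ 0) (B0 : B ≠ 0) (C0 : C ≠ 0) (H0 : H ≠ 0) (K0 : K ≠ 0) (D0 : y ≠ 0) (E0 : E ≠ 0) (G0 : G ≠ 0) (J0 : J ≠ 0) :
    hk (sy ((12 * K * G / (H * J)) / (3 * (4 * x ^ 2 * K / (J ^ 2))))) (lg ((-(12 * K * E * G) / (C * J ^ 2)) ^ 3 * (-(72 * K ^ 2 * y * E) / (B * J ^ 3)) ^ 6 * (-(12 * x * K ^ 2 * y) / (J ^ 3)) ^ 4 / ((12 * K * G / (H * J)) * (6 * K * y * E / (B * J ^ 2)) * (12 * K * y / (J ^ 2)) ^ 5 * (4 * x ^ 2 * K / (J ^ 2)) ^ 2 * (36 * K ^ 2 * E * G / (C * H * J ^ 2)) ^ 2 * (-(36 * K ^ 2 * y * E * G) / (B * C * J ^ 3)) ^ 4))) =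
      hk (sy (ev [x, B, C, H, K, y, E, G, J, 2, 3] (false, [-2, 0, 0, -1, 0, 0, 0, 1, 1, 0, 0]))) (lg (evl [x, B, C, H, K, y, E, G, J, 2, 3] [0, -1, 3, 3, 2, 0, 2, -4, -3, 3, 0])) :=
  hkc10a'
    (by
      simp only [ev, evl_cons, evl_nil_left, evl_nil_right, cond_true, cond_false, zpow_neg, zpow_ofNat, zpow_zero, zpow_one]
      field_simp
      try ring)
    (by
      simp only [ev, evl_cons, evl_nil_left, evl_nil_right, cond_true, cond_false, zpow_neg, zpow_ofNat, zpow_zero, zpow_one]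
      field_simp
      try ring)

end eq

end Pool.Agent.FK4
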