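import Pool.Agent.Lib_helper54.FAM.LK10ah

set_option autoImplicit false
set_option linter.unusedSectionVars false
set_option linter.unusedVariables false
set_option linter.unusedSimpArgs false
set_option linter.unusedTactic false
set_option linter.unreachableTactic false
set_option maxRecDepth 100000

/-!
# The first special curve with a point of order ten: monomials, part 2
-/

open scoped TensorProduct

namespace Pool.Agent.FK4

open Pool.Agent.MK4 Pool.Agent.TN Pool.Agent.KC72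

section eq

variable {F : Type*} [Field F] [CharZero F] {x B C H K y E G J : F}

theorem c10a_7 (A0 : x ≠ 0) (B0 : B ≠ 0) (C0 : C ≠ 0) (H0 : H ≠ 0) (K0 : K ≠ 0) (D0 : y ≠ 0) (E0 : E ≠ 0) (G0 : G ≠ 0) (J0 : J ≠ 0) :
    hk (sy ((6 * H * E / (C * G)) / (3 * (-(2 * H ^ 2 * K * y ^ 2) / (G ^ 2 * J ^ 2))))) (lg ((-(18 * H * K * y * E) / (B * C * G * J)) ^ 3 * (18 * x * H ^ 3 * K * y * E / (B * C * G ^ 2 * J ^ 2)) ^ 6 * (12 * H ^ 3 * K * y ^ 2 * E / (B * G ^ 3 * J ^ 2)) ^ 4 / ((6 * H * E / (C * G)) * (-(18 * H ^ 2 * K * y * E) / (B * C * G * J ^ 2)) * (-(6 * x * H ^ 2 * K * y * E) / (B * G ^ 2 * J ^ 2)) ^ 5 * (-(2 * H ^ 2 * K * y ^ 2) / (G ^ 2 * J ^ 2)) ^ 2 * (36 * H ^ 2 * y * E / (B * C * G ^ 2)) ^ 2 * (108 * H ^ 2 * K * y * E / (B * C * G ^ 2 * J)) ^ 4))) =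
      hk (sy (ev [x, B, C, H, K, y, E, G, J, 2, 3] (true, [0, 0, -1, -1, -1, -2, 1, 1, 2, 0, 0]))) (lg (evl [x, B, C, H, K, y, E, G, J, 2, 3] [1, -1, -1, 4, 1, 1, 0, 1, -3, -4, -2])) :=
  hkc10a'
    (by
      simp only [ev, evl_cons, evl_nil_left, evl_nil_right, cond_true, cond_false, zpow_neg, zpow_ofNat, zpow_zero, zpow_one]
      field_simp
      try ring)
    (by
      simp only [ev, evl_cons, evl_nil_left, evl_nil_right, cond_true, cond_false, zpow_neg, zpow_ofNat, zpow_zero, zpow_one]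
      field_simp
      try ring)

theorem c10a_8 (A0 : x ≠ 0) (B0 : B ≠ 0) (C0 : C ≠ 0) (H0 : H ≠ 0) (K0 : K ≠ 0) (D0 : y ≠ 0) (E0 : E ≠ 0) (G0 : G ≠ 0) (J0 : J ≠ 0) :
    hk (sy ((24 * C * y / (B * E)) / (3 * (16 * C ^ 2 * H ^ 2 * K * y ^ 2 / (B ^ 2 * G ^ 2 * J ^ 2))))) (lg ((144 * C * H * y / (B * E * G)) ^ 3 * (-(72 * C ^ 2 * H * K * y ^ 2) / (B * E ^ 2 * G * J)) ^ 6 * (-(96 * C ^ 2 * H ^ 2 * K * y ^ 2) / (B ^ 2 * E * G * J ^ 2)) ^ 4 / ((24 * C * y / (B * E)) * (18 * x * C * H * K * y / (B * E * G * J)) * (12 * C * H ^ 2 * K * y ^ 2 / (B * E * G * J ^ 2)) ^ 5 * (16 * C ^ 2 * H ^ 2 * K * y ^ 2 / (B ^ 2 * G ^ 2 * J ^ 2)) ^ 2 * (-(576 * C ^ 2 * y) / (B * E ^ 2)) ^ 2 * (-(144 * x * C ^ 2 * H * y) / (B * E ^ 2 * G)) ^ 4))) =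
      hk (sy (ev [x, B, C, H, K, y, E, G, J, 2, 3] (false, [0, 1, -1, -2, -1, -1, -1, 2, 2, -1, 0]))) (lg (evl [x, B, C, H, K, y, E, G, J, 2, 3] [-5, 0, 0, -2, 2, 1, 0, 1, 1, 0, 2])) :=
  hkc10a
    (by
      simp only [ev, evl_cons, evl_nil_left, evl_nil_right, cond_true, cond_false, zpow_neg, zpow_ofNat, zpow_zero, zpow_one]
      field_simp
      try ring)
    (by
      simp only [ev, evl_cons, evl_nil_left, evl_nil_right, cond_true, cond_false, zpow_neg, zpow_ofNat, zpow_zero, zpow_one]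
      field_simp
      try ring)

theorem c10a_9 (A0 : x ≠ 0) (B0 : B ≠ 0) (C0 : C ≠ 0) (H0 : H ≠ 0) (K0 : K ≠ 0) (D0 : y ≠ 0) (E0 : E ≠ 0) (G0 : G ≠ 0) (J0 : J ≠ 0) :
    hk (sy ((-(24 * B) / y) / (3 * (-(8 * H ^ 2 * K) / (J ^ 2))))) (lg ((-(24 * x * B * C) / (y * E)) ^ 3 * (24 * B * C * H / (y * G)) ^ 6 * (24 * B * H * K / (y * J)) ^ 4 / ((-(24 * B) / y) * (-(6 * B * C * H) / (E * G)) * (-(12 * C * H * K) / (G * J)) ^ 5 * (-(8 * H ^ 2 * K) / (J ^ 2)) ^ 2 * (24 * x * B ^ 2 / (y ^ 2)) ^ 2 * (24 * B ^ 2 * C / (y * E)) ^ 4))) =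
      hk (sy (ev [x, B, C, H, K, y, E, G, J, 2, 3] (false, [0, 1, 0, -2, -1, -1, 0, 0, 2, 0, 0]))) (lg (evl [x, B, C, H, K, y, E, G, J, 2, 3] [1, -1, -1, 0, -3, -4, 2, 0, 5, 1, 0])) :=
  hkc10a
    (by
      simp only [ev, evl_cons, evl_nil_left, evl_nil_right, cond_true, cond_false, zpow_neg, zpow_ofNat, zpow_zero, zpow_one]
      field_simp
      try ring)
    (by
      simp only [ev, evl_cons, evl_nil_left, evl_nil_right, cond_true, cond_false, zpow_neg, zpow_ofNat, zpow_zero, zpow_one]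
      field_simp
      try ring)

theorem c10a_10 (A0 : x ≠ 0) (B0 : B ≠ 0) (C0 : C ≠ 0) (H0 : H ≠ 0) (K0 : K ≠ 0) (D0 : y ≠ 0) (E0 : E ≠ 0) (G0 : G ≠ 0) (J0 : J ≠ 0) :
    hk (sy (-((C) * (H)) / (G))) (lg (3 * (C) ^ 3 * (K) ^ 3 / ((B) * (H) ^ 4))) =
      hk (sy (ev [x, B, C, H, K, y, E, G, J, 2, 3] (true, [0, 0, 1, 1, 0, 0, 0, -1, 0, 0, 0]))) (lg (evl [x, B, C, H, K, y, E, G, J, 2, 3] [0, -1, 3, -4, 3, 0, 0, 0, 0, 0, 1])) :=
  hkc10a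
    (by
      simp only [ev, evl_cons, evl_nil_left, evl_nil_right, cond_true, cond_false, zpow_neg, zpow_ofNat, zpow_zero, zpow_one]
      field_simp
      try ring)
    (by
      simp only [ev, evl_cons, evl_nil_left, evl_nil_right, cond_true, cond_false, zpow_neg, zpow_ofNat, zpow_zero, zpow_one]
      field_simp
      try ring)

theorem c10a_11 (A0 : x ≠ 0) (B0 : B ≠ 0) (C0 : C ≠ 0) (H0 : H ≠ 0) (K0 : K ≠ 0) (D0 : y ≠ 0) (E0 : E ≠ 0) (G0 : G ≠ 0) (J0 : J ≠ 0) :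
    hk (sy ((G) / (x))) (lg ((3 * (C) ^ 3 * (K) ^ 3 / ((B) * (H) ^ 4))⁻¹)) =
      hk (sy (ev [x, B, C, H, K, y, E, G, J, 2, 3] (false, [-1, 0, 0, 0, 0, 0, 0, 1, 0, 0, 0]))) (lg (evl [x, B, C, H, K, y, E, G, J, 2, 3] [0, 1, -3, 4, -3, 0, 0, 0, 0, 0, -1])) :=
  hkc10a
    (by
      simp only [ev, evl_cons, evl_nil_left, evl_nil_right, cond_true, cond_false, zpow_neg, zpow_ofNat, zpow_zero, zpow_one]
      field_simp
      try ring)
    (by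
      simp only [ev, evl_cons, evl_nil_left, evl_nil_right, cond_true, cond_false, zpow_neg, zpow_ofNat, zpow_zero, zpow_one]
      field_simp
      try ring)

theorem c10a_12 (A0 : x ≠ 0) (B0 : B ≠ 0) (C0 : C ≠ 0) (H0 : H ≠ 0) (K0 : K ≠ 0) (D0 : y ≠ 0) (E0 : E ≠ 0) (G0 : G ≠ 0) (J0 : J ≠ 0) :
    hk (sy (-((H) * (K)) / (2 * (J)))) (lg (3 * (C) ^ 3 * (K) ^ 2 / (H) ^ 5)) =
      hk (sy (ev [x, B, C, H, K, y, E, G, J, 2, 3] (true, [0, 0, 0, 1, 1, 0, 0, 0, -1, -1, 0]))) (lg (evl [x, B, C, H, K, y, E, G, J, 2, 3] [0, 0, 3, -5, 2, 0, 0, 0, 0, 0, 1])) :=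
  hkc10a
    (by
      simp only [ev, evl_cons, evl_nil_left, evl_nil_right, cond_true, cond_false, zpow_neg, zpow_ofNat, zpow_zero, zpow_one]
      field_simp
      try ring)
    (by
      simp only [ev, evl_cons, evl_nil_left, evl_nil_right, cond_true, cond_false, zpow_neg, zpow_ofNat, zpow_zero, zpow_one]
      field_simp
      try ring)

theorem c10a_13 (A0 : x ≠ 0) (B0 : B ≠ 0) (C0 : C ≠ 0) (H0 : H ≠ 0) (K0 : K ≠ 0) (D0 : y ≠ 0) (E0 : E ≠ 0) (G0 : G ≠ 0) (J0 : J ≠ 0) :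
    hk (sy ((J) / (2 * (x)))) (lg ((3 * (C) ^ 3 * (K) ^ 2 / (H) ^ 5)⁻¹)) =
      hk (sy (ev [x, B, C, H, K, y, E, G, J, 2, 3] (false, [-1, 0, 0, 0, 0, 0, 0, 0, 1, -1, 0]))) (lg (evl [x, B, C, H, K, y, E, G, J, 2, 3] [0, 0, -3, 5, -2, 0, 0, 0, 0, 0, -1])) :=
  hkc10a
    (by
      simp only [ev, evl_cons, evl_nil_left, evl_nil_right, cond_true, cond_false, zpow_neg, zpow_ofNat, zpow_zero, zpow_one]
      field_simp
      try ring)
    (by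
      simp only [ev, evl_cons, evl_nil_left, evl_nil_right, cond_true, cond_false, zpow_neg, zpow_ofNat, zpow_zero, zpow_one]
      field_simp
      try ring)

theorem c10a_14 (A0 : x ≠ 0) (B0 : B ≠ 0) (C0 : C ≠ 0) (H0 : H ≠ 0) (K0 : K ≠ 0) (D0 : y ≠ 0) (E0 : E ≠ 0) (G0 : G ≠ 0) (J0 : J ≠ 0) :
    hk (sy (-((18 * E * G * J / (B * C * H * y)) * (12 * E * G * J ^ 2 / (C * H * K * y ^ 2))) / (72 * x * E * G * J ^ 2 / (B * C * H * K * y ^ 2)))) (lg (3 * (18 * E * G * J / (B * C * H * y)) ^ 3 * (16 * G ^ 2 * J ^ 2 / (H ^ 2 * K * y ^ 2)) ^ 3 / ((-(144 * E * G) / (B * C * y)) * (12 * E * G * J ^ 2 / (C * H * K * y ^ 2)) ^ 4))) =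
      hk (sy (ev [x, B, C, H, K, y, E, G, J, 2, 3] (true, [-1, 0, -1, -1, 0, -1, 1, 1, 1, 0, 1]))) (lg (evl [x, B, C, H, K, y, E, G, J, 2, 3] [0, -2, 2, -5, 1, 0, -2, 4, 1, 3, 1])) :=
  hkc10a'
    (by
      simp only [ev, evl_cons, evl_nil_left, evl_nil_right, cond_true, cond_false, zpow_neg, zpow_ofNat, zpow_zero, zpow_one]
      field_simp
      try ring)
    (by
      simp only [ev, evl_cons, evl_nil_left, evl_nil_right, cond_true, cond_false, zpow_neg, zpow_ofNat, zpow_zero, zpow_one]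
      field_simp
      try ring)

end eq

end Pool.Agent.FK4
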