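import Pool.Agent.Lib_helper54.FAM.LK10ah

set_option autoImplicit false
set_option linter.unusedSectionVars false
set_option linter.unusedVariables false
set_option linter.unusedSimpArgs false
set_option linter.unusedTactic false
set_option linter.unreachableTactic false
set_option maxRecDepth 100000

/-!
# The first special curve with a point of order ten: monomials, part 3
-/

open scoped TensorProduct

namespace Pool.Agent.FK4

open Pool.Agent.MK4 Pool.Agent.TN Pool.Agent.KC72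

section eq

variable {F : Type*} [Field F] [CharZero F] {x B C H K y E G J : F}

theorem c10a_15 (A0 : x ≠ 0) (B0 : B ≠ 0) (C0 : C ≠ 0) (H0 : H ≠ 0) (K0 : K ≠ 0) (D0 : y ≠ 0) (E0 : E ≠ 0) (G0 : G ≠ 0) (J0 : J ≠ 0) :
    hk (sy ((72 * x * E * G * J ^ 2 / (B * C * H * K * y ^ 2)) / (24 * x * E / (B * y)))) (lg ((3 * (18 * E * G * J / (B * C * H * y)) ^ 3 * (16 * G ^ 2 * J ^ 2 / (H ^ 2 * K * y ^ 2)) ^ 3 / ((-(144 * E * G) / (B * C * y)) * (12 * E * G * J ^ 2 / (C * H * K * y ^ 2)) ^ 4))⁻¹)) =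
      hk (sy (ev [x, B, C, H, K, y, E, G, J, 2, 3] (false, [0, 0, -1, -1, -1, -1, 0, 1, 2, 0, 1]))) (lg (evl [x, B, C, H, K, y, E, G, J, 2, 3] [0, 2, -2, 5, -1, 0, 2, -4, -1, -3, -1])) :=
  hkc10a'
    (by
      simp only [ev, evl_cons, evl_nil_left, evl_nil_right, cond_true, cond_false, zpow_neg, zpow_ofNat, zpow_zero, zpow_one]
      field_simp
      try ring)
    (by
      simp only [ev, evl_cons, evl_nil_left, evl_nil_right, cond_true, cond_false, zpow_neg, zpow_ofNat, zpow_zero, zpow_one]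
      field_simp
      try ring)

theorem c10a_16 (A0 : x ≠ 0) (B0 : B ≠ 0) (C0 : C ≠ 0) (H0 : H ≠ 0) (K0 : K ≠ 0) (D0 : y ≠ 0) (E0 : E ≠ 0) (G0 : G ≠ 0) (J0 : J ≠ 0) :
    hk (sy (-((12 * E * G * J ^ 2 / (C * H * K * y ^ 2)) * (16 * G ^ 2 * J ^ 2 / (H ^ 2 * K * y ^ 2))) / (2 * (48 * x * E * G ^ 2 * J ^ 2 / (C * H ^ 2 * K * y ^ 3))))) (lg (3 * (18 * E * G * J / (B * C * H * y)) ^ 3 * (16 * G ^ 2 * J ^ 2 / (H ^ 2 * K * y ^ 2)) ^ 2 / (12 * E * G * J ^ 2 / (C * H * K * y ^ 2)) ^ 5)) =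
      hk (sy (ev [x, B, C, H, K, y, E, G, J, 2, 3] (true, [-1, 0, 0, -1, -1, -1, 0, 1, 2, 1, 0]))) (lg (evl [x, B, C, H, K, y, E, G, J, 2, 3] [0, -3, 2, -2, 3, 3, -2, 2, -3, 1, 2])) :=
  hkc10a
    (by
      simp only [ev, evl_cons, evl_nil_left, evl_nil_right, cond_true, cond_false, zpow_neg, zpow_ofNat, zpow_zero, zpow_one]
      field_simp
      try ring)
    (by
      simp only [ev, evl_cons, evl_nil_left, evl_nil_right, cond_true, cond_false, zpow_neg, zpow_ofNat, zpow_zero, zpow_one]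
      field_simp
      try ring)

theorem c10a_17 (A0 : x ≠ 0) (B0 : B ≠ 0) (C0 : C ≠ 0) (H0 : H ≠ 0) (K0 : K ≠ 0) (D0 : y ≠ 0) (E0 : E ≠ 0) (G0 : G ≠ 0) (J0 : J ≠ 0) :
    hk (sy ((48 * x * E * G ^ 2 * J ^ 2 / (C * H ^ 2 * K * y ^ 3)) / (2 * (24 * x * E / (B * y))))) (lg ((3 * (18 * E * G * J / (B * C * H * y)) ^ 3 * (16 * G ^ 2 * J ^ 2 / (H ^ 2 * K * y ^ 2)) ^ 2 / (12 * E * G * J ^ 2 / (C * H * K * y ^ 2)) ^ 5)⁻¹)) =
      hk (sy (ev [x, B, C, H, K, y, E, G, J, 2, 3] (false, [0, 1, -1, -2, -1, -2, 0, 2, 2, 0, 0]))) (lg (evl [x, B, C, H, K, y, E, G, J, 2, 3] [0, 3, -2, 2, -3, -3, 2, -2, 3, -1, -2])) :=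
  hkc10a
    (by
      simp only [ev, evl_cons, evl_nil_left, evl_nil_right, cond_true, cond_false, zpow_neg, zpow_ofNat, zpow_zero, zpow_one]
      field_simp
      try ring)
    (by
      simp only [ev, evl_cons, evl_nil_left, evl_nil_right, cond_true, cond_false, zpow_neg, zpow_ofNat, zpow_zero, zpow_one]
      field_simp
      try ring)

theorem c10a_18 (A0 : x ≠ 0) (B0 : B ≠ 0) (C0 : C ≠ 0) (H0 : H ≠ 0) (K0 : K ≠ 0) (D0 : y ≠ 0) (E0 : E ≠ 0) (G0 : G ≠ 0) (J0 : J ≠ 0) :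
    hk (sy (-((6 * x * B * C * J ^ 2 / (H ^ 2 * K * y * E)) * (-(12 * B * J ^ 2) / (H ^ 2 * K * y))) / (12 * x * B * C * J ^ 2 / (H ^ 2 * K * y * G)))) (lg (3 * (6 * x * B * C * J ^ 2 / (H ^ 2 * K * y * E)) ^ 3 * (4 * J ^ 2 / (H ^ 2 * K)) ^ 3 / ((-(12 * B * C * J ^ 2) / (H * K * E * G)) * (-(12 * B * J ^ 2) / (H ^ 2 * K * y)) ^ 4))) =
      hk (sy (ev [x, B, C, H, K, y, E, G, J, 2, 3] (false, [0, 1, 0, -2, -1, -1, -1, 1, 2, 1, 1]))) (lg (evl [x, B, C, H, K, y, E, G, J, 2, 3] [3, -2, 2, -3, -1, 1, -2, 1, 2, -1, -1])) :=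
  hkc10a'
    (by
      simp only [ev, evl_cons, evl_nil_left, evl_nil_right, cond_true, cond_false, zpow_neg, zpow_ofNat, zpow_zero, zpow_one]
      field_simp
      try ring)
    (by
      simp only [ev, evl_cons, evl_nil_left, evl_nil_right, cond_true, cond_false, zpow_neg, zpow_ofNat, zpow_zero, zpow_one]
      field_simp
      try ring)

theorem c10a_19 (A0 : x ≠ 0) (B0 : B ≠ 0) (C0 : C ≠ 0) (H0 : H ≠ 0) (K0 : K ≠ 0) (D0 : y ≠ 0) (E0 : E ≠ 0) (G0 : G ≠ 0) (J0 : J ≠ 0) :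
    hk (sy ((12 * x * B * C * J ^ 2 / (H ^ 2 * K * y * G)) / (12 * C * J / (H * G)))) (lg ((3 * (6 * x * B * C * J ^ 2 / (H ^ 2 * K * y * E)) ^ 3 * (4 * J ^ 2 / (H ^ 2 * K)) ^ 3 / ((-(12 * B * C * J ^ 2) / (H * K * E * G)) * (-(12 * B * J ^ 2) / (H ^ 2 * K * y)) ^ 4))⁻¹)) =
      hk (sy (ev [x, B, C, H, K, y, E, G, J, 2, 3] (false, [1, 1, 0, -1, -1, -1, 0, 0, 1, 0, 0]))) (lg (evl [x, B, C, H, K, y, E, G, J, 2, 3] [-3, 2, -2, 3, 1, -1, 2, -1, -2, 1, 1])) :=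
  hkc10a'
    (by
      simp only [ev, evl_cons, evl_nil_left, evl_nil_right, cond_true, cond_false, zpow_neg, zpow_ofNat, zpow_zero, zpow_one]
      field_simp
      try ring)
    (by
      simp only [ev, evl_cons, evl_nil_left, evl_nil_right, cond_true, cond_false, zpow_neg, zpow_ofNat, zpow_zero, zpow_one]
      field_simp
      try ring)

theorem c10a_20 (A0 : x ≠ 0) (B0 : B ≠ 0) (C0 : C ≠ 0) (H0 : H ≠ 0) (K0 : K ≠ 0) (D0 : y ≠ 0) (E0 : E ≠ 0) (G0 : G ≠ 0) (J0 : J ≠ 0) :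
    hk (sy (-((-(12 * B * J ^ 2) / (H ^ 2 * K * y)) * (4 * J ^ 2 / (H ^ 2 * K))) / (2 * (-(48 * C * J ^ 2) / (H ^ 2 * K * G))))) (lg (3 * (6 * x * B * C * J ^ 2 / (H ^ 2 * K * y * E)) ^ 3 * (4 * J ^ 2 / (H ^ 2 * K)) ^ 2 / (-(12 * B * J ^ 2) / (H ^ 2 * K * y)) ^ 5)) =
      hk (sy (ev [x, B, C, H, K, y, E, G, J, 2, 3] (true, [0, 1, -1, -2, -1, -1, 0, 1, 2, -1, 0]))) (lg (evl [x, B, C, H, K, y, E, G, J, 2, 3] [3, -2, 3, 0, 0, 2, -3, 0, 0, -3, -1])) :=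
  hkc10a'
    (by
      simp only [ev, evl_cons, evl_nil_left, evl_nil_right, cond_true, cond_false, zpow_neg, zpow_ofNat, zpow_zero, zpow_one]
      field_simp
      try ring)
    (by
      simp only [ev, evl_cons, evl_nil_left, evl_nil_right, cond_true, cond_false, zpow_neg, zpow_ofNat, zpow_zero, zpow_one]
      field_simp
      try ring)

theorem c10a_21 (A0 : x ≠ 0) (B0 : B ≠ 0) (C0 : C ≠ 0) (H0 : H ≠ 0) (K0 : K ≠ 0) (D0 : y ≠ 0) (E0 : E ≠ 0) (G0 : G ≠ 0) (J0 : J ≠ 0) :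
    hk (sy ((-(48 * C * J ^ 2) / (H ^ 2 * K * G)) / (2 * (12 * C * J / (H * G))))) (lg ((3 * (6 * x * B * C * J ^ 2 / (H ^ 2 * K * y * E)) ^ 3 * (4 * J ^ 2 / (H ^ 2 * K)) ^ 2 / (-(12 * B * J ^ 2) / (H ^ 2 * K * y)) ^ 5)⁻¹)) =
      hk (sy (ev [x, B, C, H, K, y, E, G, J, 2, 3] (true, [0, 0, 0, -1, -1, 0, 0, 0, 1, 1, 0]))) (lg (evl [x, B, C, H, K, y, E, G, J, 2, 3] [-3, 2, -3, 0, 0, -2, 3, 0, 0, 3, 1])) :=
  hkc10a'
    (by
      simp only [ev, evl_cons, evl_nil_left, evl_nil_right, cond_true, cond_false, zpow_neg, zpow_ofNat, zpow_zero, zpow_one]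
      field_simp
      try ring)
    (by
      simp only [ev, evl_cons, evl_nil_left, evl_nil_right, cond_true, cond_false, zpow_neg, zpow_ofNat, zpow_zero, zpow_one]
      field_simp
      try ring)

end eq

end Pool.Agent.FK4
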