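import Pool.Agent.Lib_helper54.FAM.T10a
import Pool.Agent.Lib_helper2.K4N.Q10X

set_option autoImplicit false
set_option linter.unusedSectionVars false
set_option linter.unusedVariables false
set_option linter.unusedSimpArgs false
set_option linter.unusedTactic false
set_option linter.unreachableTactic false
set_option maxRecDepth 100000

/-!
# The first special curve with a point of order ten: the terms
-/

open scoped TensorProduct

namespace Pool.Agent.FK4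

open Pool.Agent.MK4 Pool.Agent.TN Pool.Agent.KC72

section eq

variable {F : Type*} [Field F] {x y A B C H K D E G J : F}

lemma Q10a.tm0 [CharZero F] (h : Q10a x y A B C H K D E G J) : K4N.term10a x y =
    hk (sy (A / (3 * K))) (lg (B ^ 3 * G ^ 6 * J ^ 4 / (A * C * H ^ 5 * K ^ 2 * D ^ 2 * E ^ 4))) := by
  have A0 := h.A0
  have B0 := h.B0
  have C0 := h.C0
  have H0 := h.H0
  have K0 := h.K0
  have D0 := h.D0
  have E0 := h.E0
  have G0 := h.G0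
  have J0 := h.J0
  have r0 : hk (sy (A / (3 * K))) (lg (B ^ 3 * G ^ 6 * J ^ 4 / (A * C * H ^ 5 * K ^ 2 * D ^ 2 * E ^ 4))) =
      (1 : ℚ) • hk (sy (A / (3 * K))) (lg (B ^ 3 * G ^ 6 * J ^ 4 / (A * C * H ^ 5 * K ^ 2 * D ^ 2 * E ^ 4))) := by
    rw [one_smul]
  rw [r0]
  unfold K4N.term10a
  rw [h.hB, h.hC, h.hH, h.hK, h.hE, h.hG, h.hJ, h.hA, h.hD]
  module

lemma Q10a.tm1 [CharZero F] (h : Q10a x y A B C H K D E G J) : K4N.term10b x y =
    hk (sy (-(C * H) / G)) (lg (3 * C ^ 3 * K ^ 3 / (B * H ^ 4))) +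
    hk (sy (G / A)) (lg ((3 * C ^ 3 * K ^ 3 / (B * H ^ 4))⁻¹)) +
    hk (sy (-(H * K) / (2 * J))) (lg (3 * C ^ 3 * K ^ 2 / H ^ 5)) +
    hk (sy (J / (2 * A))) (lg ((3 * C ^ 3 * K ^ 2 / H ^ 5)⁻¹)) := by
  have A0 := h.A0
  have B0 := h.B0
  have C0 := h.C0
  have H0 := h.H0
  have K0 := h.K0
  have D0 := h.D0
  have E0 := h.E0
  have G0 := h.G0
  have J0 := h.J0
  have r0 : hk (sy (-(C * H) / G)) (lg (3 * C ^ 3 * K ^ 3 / (B * H ^ 4))) =
      (1 : ℚ) • hk (sy (-(C * H) / G)) (lg (3 * C ^ 3 * K ^ 3 / (B * H ^ 4))) := by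
    rw [one_smul]
  have r1 : hk (sy (G / A)) (lg ((3 * C ^ 3 * K ^ 3 / (B * H ^ 4))⁻¹)) =
      (-1 : ℚ) • hk (sy (G / A)) (lg (3 * C ^ 3 * K ^ 3 / (B * H ^ 4))) := by
    rw [TN.lginv, hk_neg_right, neg_smul, one_smul]
  have r2 : hk (sy (-(H * K) / (2 * J))) (lg (3 * C ^ 3 * K ^ 2 / H ^ 5)) =
      (1 : ℚ) • hk (sy (-(H * K) / (2 * J))) (lg (3 * C ^ 3 * K ^ 2 / H ^ 5)) := by
    rw [one_smul]
  have r3 : hk (sy (J / (2 * A))) (lg ((3 * C ^ 3 * K ^ 2 / H ^ 5)⁻¹)) =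
      (-1 : ℚ) • hk (sy (J / (2 * A))) (lg (3 * C ^ 3 * K ^ 2 / H ^ 5)) := by
    rw [TN.lginv, hk_neg_right, neg_smul, one_smul]
  rw [r0, r1, r2, r3]
  unfold K4N.term10b
  rw [h.hB, h.hC, h.hH, h.hK, h.hG, h.hJ, h.hA]
  module

end eq

end Pool.Agent.FK4
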