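import Pool.Agent.Lib_helper54.FAM.L10ad
import Pool.Agent.Lib_helper54.FAM.Pl10ab
import Pool.Agent.Lib_helper54.FAM.LK10at
import Pool.Agent.Lib_helper54.FAM.LK10ap1
import Pool.Agent.Lib_helper54.FAM.LK10ap2
import Pool.Agent.Lib_helper54.FAM.LK10ap3
import Pool.Agent.Lib_helper54.FAM.LK10ap4

set_option autoImplicit false
set_option linter.unusedSectionVars false
set_option linter.unusedVariables false
set_option linter.unusedSimpArgs false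
set_option linter.unusedTactic false
set_option linter.unreachableTactic false
set_option maxRecDepth 100000

/-!
# The first special curve with a point of order ten: the explicit class as monomials
-/

open scoped TensorProduct

namespace Pool.Agent.FK4

open Pool.Agent.MK4 Pool.Agent.TN Pool.Agent.KC72

section eq

variable {F : Type*} [Field F] {x y A B C H K D E G J : F}

/-- the class as a combination of monomials -/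
theorem xi10a_eq [CharZero F] (he : y ^ 2 - 5 * x * y - 24 * y = x ^ 3 - 24 * x ^ 2)
    (hne : ∀ z ∈ FK4R.g10a x y, z ≠ 0) :
    K4N.xi10a x y = zt (FK4R.g10a x y) N10C.c10a_cls L10a := by
  have A0 : x ≠ 0 := hne _ (by simp [FK4R.g10a])
  have B0 : x - 24 ≠ 0 := hne _ (by simp [FK4R.g10a])
  have C0 : x - 6 ≠ 0 := hne _ (by simp [FK4R.g10a])
  have H0 : x - 12 ≠ 0 := hne _ (by simp [FK4R.g10a])
  have K0 : x - 8 ≠ 0 := hne _ (by simp [FK4R.g10a])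
  have D0 : y ≠ 0 := hne _ (by simp [FK4R.g10a])
  have E0 : y - 6 * x ≠ 0 := hne _ (by simp [FK4R.g10a])
  have G0 : y - 3 * x ≠ 0 := hne _ (by simp [FK4R.g10a])
  have J0 : y - 4 * x ≠ 0 := hne _ (by simp [FK4R.g10a])
  obtain ⟨B, hB⟩ : ∃ B, x - 24 = B := ⟨_, rfl⟩
  obtain ⟨C, hC⟩ : ∃ C, x - 6 = C := ⟨_, rfl⟩
  obtain ⟨H, hH⟩ : ∃ H, x - 12 = H := ⟨_, rfl⟩
  obtain ⟨K, hK⟩ : ∃ K, x - 8 = K := ⟨_, rfl⟩
  obtain ⟨E, hE⟩ : ∃ E, y - 6 * x = E := ⟨_, rfl⟩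
  obtain ⟨G, hG⟩ : ∃ G, y - 3 * x = G := ⟨_, rfl⟩
  obtain ⟨J, hJ⟩ : ∃ J, y - 4 * x = J := ⟨_, rfl⟩
  have hg : FK4R.g10a x y = [x, B, C, H, K, y, E, G, J, 2, 3] := by
    rw [← hB, ← hC, ← hH, ← hK, ← hE, ← hG, ← hJ]; rfl
  have hQ : Q10a x y x B C H K y E G J := by
    refine ⟨rfl, hB, hC, hH, hK, rfl, hE, hG, hJ, A0, ?_, ?_, ?_, ?_, D0, ?_, ?_, ?_,
      by linear_combination he⟩
    · rw [← hB]; exact B0
    · rw [← hC]; exact C0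
    · rw [← hH]; exact H0
    · rw [← hK]; exact K0
    · rw [← hE]; exact E0
    · rw [← hG]; exact G0
    · rw [← hJ]; exact J0
  rw [hB] at B0
  rw [hC] at C0
  rw [hH] at H0
  rw [hK] at K0
  rw [hE] at E0
  rw [hG] at G0
  rw [hJ] at J0
  obtain ⟨h0, h1, h2, h3, h4, h5, h6, h7, h8, h9⟩ := hQ.all
  have e0_0 := h0.tm0
  have e0_1 := h1.tm0
  have e0_2 := h2.tm0
  have e0_3 := h3.tm0
  have e0_4 := h4.tm0
  have e0_5 := h5.tm0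
  have e0_6 := h6.tm0
  have e0_7 := h7.tm0
  have e0_8 := h8.tm0
  have e0_9 := h9.tm0
  have e1_0 := h0.tm1
  have e1_2 := h2.tm1
  have e1_4 := h4.tm1
  have e1_6 := h6.tm1
  have e1_8 := h8.tm1
  have s1 : K4N.xi10a x y =
(      K4N.term10a (K4N.It (24 : F) 0 (x, y)).1 (K4N.It (24 : F) 0 (x, y)).2 +
      K4N.term10a (K4N.It (24 : F) 1 (x, y)).1 (K4N.It (24 : F) 1 (x, y)).2 +
      K4N.term10a (K4N.It (24 : F) 2 (x, y)).1 (K4N.It (24 : F) 2 (x, y)).2 +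
      K4N.term10a (K4N.It (24 : F) 3 (x, y)).1 (K4N.It (24 : F) 3 (x, y)).2 +
      K4N.term10a (K4N.It (24 : F) 4 (x, y)).1 (K4N.It (24 : F) 4 (x, y)).2 +
      K4N.term10a (K4N.It (24 : F) 5 (x, y)).1 (K4N.It (24 : F) 5 (x, y)).2 +
      K4N.term10a (K4N.It (24 : F) 6 (x, y)).1 (K4N.It (24 : F) 6 (x, y)).2 +
      K4N.term10a (K4N.It (24 : F) 7 (x, y)).1 (K4N.It (24 : F) 7 (x, y)).2 +
      K4N.term10a (K4N.It (24 : F) 8 (x, y)).1 (K4N.It (24 : F) 8 (x, y)).2 +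
      K4N.term10a (K4N.It (24 : F) 9 (x, y)).1 (K4N.It (24 : F) 9 (x, y)).2) +
(      K4N.term10b (K4N.It (24 : F) 0 (x, y)).1 (K4N.It (24 : F) 0 (x, y)).2 +
      K4N.term10b (K4N.It (24 : F) 2 (x, y)).1 (K4N.It (24 : F) 2 (x, y)).2 +
      K4N.term10b (K4N.It (24 : F) 4 (x, y)).1 (K4N.It (24 : F) 4 (x, y)).2 +
      K4N.term10b (K4N.It (24 : F) 6 (x, y)).1 (K4N.It (24 : F) 6 (x, y)).2 +
      K4N.term10b (K4N.It (24 : F) 8 (x, y)).1 (K4N.It (24 : F) 8 (x, y)).2) := by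
    unfold K4N.xi10a
    rw [Fin.sum_univ_castSucc, Fin.sum_univ_castSucc, Fin.sum_univ_eight, Fin.sum_univ_five]
    rfl
  rw [s1, e0_0, e0_1, e0_2, e0_3, e0_4, e0_5, e0_6, e0_7, e0_8, e0_9, e1_0, e1_2, e1_4, e1_6, e1_8]
  generalize hgg : FK4R.g10a x y = g at hg ⊢
  have p0 : oo N10C.c10a_cls (93, 2) = (false, [1, 0, 0, 0, -1, 0, 0, 0, 0, 0, -1]) := by decide +kernel
  have p1 : oo N10C.c10a_cls (122, 2) = (true, [0, 0, 0, 0, 1, 1, 0, 0, -2, 0, 0]) := by decide +kernel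
  have p2 : oo N10C.c10a_cls (26, 5) = (false, [1, -1, 0, 2, 1, 1, 1, -2, -2, -1, 0]) := by decide +kernel
  have p3 : oo N10C.c10a_cls (54, 5) = (true, [0, -1, 1, 2, 1, 2, -1, -1, -2, 0, 0]) := by decide +kernel
  have p4 : oo N10C.c10a_cls (84, 5) = (false, [0, 0, 1, 1, 1, 0, 0, -1, -1, 0, 0]) := by decide +kernel
  have p5 : oo N10C.c10a_cls (113, 0) = (true, [0, 0, 0, 1, 0, 0, 0, 0, 0, -2, -1]) := by decide +kernel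
  have p6 : oo N10C.c10a_cls (6, 3) = (false, [-2, 0, 0, -1, 0, 0, 0, 1, 1, 0, 0]) := by decide +kernel
  have p7 : oo N10C.c10a_cls (17, 2) = (true, [0, 0, -1, -1, -1, -2, 1, 1, 2, 0, 0]) := by decide +kernel
  have p8 : oo N10C.c10a_cls (40, 2) = (false, [0, 1, -1, -2, -1, -1, -1, 2, 2, -1, 0]) := by decide +kernel
  have p9 : oo N10C.c10a_cls (66, 2) = (false, [0, 1, 0, -2, -1, -1, 0, 0, 2, 0, 0]) := by decide +kernel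
  have p10 : oo N10C.c10a_cls (87, 1) = (true, [0, 0, 1, 1, 0, 0, 0, -1, 0, 0, 0]) := by decide +kernel
  have p11 : oo N10C.c10a_cls (116, 1) = (false, [-1, 0, 0, 0, 0, 0, 0, 1, 0, 0, 0]) := by decide +kernel
  have p12 : oo N10C.c10a_cls (89, 0) = (true, [0, 0, 0, 1, 1, 0, 0, 0, -1, -1, 0]) := by decide +kernel
  have p13 : oo N10C.c10a_cls (118, 0) = (false, [-1, 0, 0, 0, 0, 0, 0, 0, 1, -1, 0]) := by decide +kernel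
  have p14 : oo N10C.c10a_cls (10, 2) = (true, [-1, 0, -1, -1, 0, -1, 1, 1, 1, 0, 1]) := by decide +kernel
  have p15 : oo N10C.c10a_cls (35, 2) = (false, [0, 0, -1, -1, -1, -1, 0, 1, 2, 0, 1]) := by decide +kernel
  have p16 : oo N10C.c10a_cls (11, 3) = (true, [-1, 0, 0, -1, -1, -1, 0, 1, 2, 1, 0]) := by decide +kernel
  have p17 : oo N10C.c10a_cls (36, 3) = (false, [0, 1, -1, -2, -1, -2, 0, 2, 2, 0, 0]) := by decide +kernel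
  have p18 : oo N10C.c10a_cls (62, 2) = (false, [0, 1, 0, -2, -1, -1, -1, 1, 2, 1, 1]) := by decide +kernel
  have p19 : oo N10C.c10a_cls (90, 3) = (false, [1, 1, 0, -1, -1, -1, 0, 0, 1, 0, 0]) := by decide +kernel
  have p20 : oo N10C.c10a_cls (60, 2) = (true, [0, 1, -1, -2, -1, -1, 0, 1, 2, -1, 0]) := by decide +kernel
  have p21 : oo N10C.c10a_cls (89, 2) = (true, [0, 0, 0, -1, -1, 0, 0, 0, 1, 1, 0]) := by decide +kernel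
  have p22 : oo N10C.c10a_cls (119, 3) = (false, [0, 0, 0, 0, 0, 1, 0, 0, -1, 0, 0]) := by decide +kernel
  have p23 : oo N10C.c10a_cls (12, 4) = (true, [0, -1, 0, 1, 1, 1, 1, -1, -2, 1, 1]) := by decide +kernel
  have p24 : oo N10C.c10a_cls (118, 2) = (false, [1, 0, 0, 0, 0, 0, 0, 0, -1, 1, 0]) := by decide +kernel
  have p25 : oo N10C.c10a_cls (11, 5) = (true, [1, 0, 0, 1, 1, 1, 0, -1, -2, -1, 0]) := by decide +kernel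
  have p26 : oo N10C.c10a_cls (32, 1) = (false, [1, -1, 0, 2, 1, 1, 0, -1, -2, 0, 1]) := by decide +kernel
  have p27 : oo N10C.c10a_cls (58, 1) = (true, [0, 0, 1, 1, 1, 1, -1, -1, -1, 0, 1]) := by decide +kernel
  have p28 : oo N10C.c10a_cls (36, 5) = (false, [0, -1, 1, 2, 1, 2, 0, -2, -2, 0, 0]) := by decide +kernel
  have p29 : oo N10C.c10a_cls (60, 0) = (true, [0, -1, 1, 2, 1, 1, 0, -1, -2, 1, 0]) := by decide +kernel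
  have z : zt g N10C.c10a_cls L10a =
    hk (sy (ev g (false, [1, 0, 0, 0, -1, 0, 0, 0, 0, 0, -1]))) (lg (evl g [-1, 3, -1, -5, -2, -2, -4, 6, 4, 0, 0])) + (
    hk (sy (ev g (true, [0, 0, 0, 0, 1, 1, 0, 0, -2, 0, 0]))) (lg (evl g [0, 3, -1, -5, -2, -4, 2, 0, 5, -1, 0])) + (
    hk (sy (ev g (false, [1, -1, 0, 2, 1, 1, 1, -2, -2, -1, 0]))) (lg (evl g [1, -1, -1, 0, -3, 1, 0, 1, 1, 0, -2])) + (
    hk (sy (ev g (true, [0, -1, 1, 2, 1, 2, -1, -1, -2, 0, 0]))) (lg (evl g [-1, 0, 0, -2, 2, 1, 0, 1, -3, 4, 2])) + (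
    hk (sy (ev g (false, [0, 0, 1, 1, 1, 0, 0, -1, -1, 0, 0]))) (lg (evl g [5, -1, -1, 4, 1, 0, 2, -4, -3, -3, 0])) + (
    hk (sy (ev g (true, [0, 0, 0, 1, 0, 0, 0, 0, 0, -2, -1]))) (lg (evl g [-1, -1, 3, 3, 2, 6, -4, -2, -4, 0, 0])) + (
    hk (sy (ev g (false, [-2, 0, 0, -1, 0, 0, 0, 1, 1, 0, 0]))) (lg (evl g [0, -1, 3, 3, 2, 0, 2, -4, -3, 3, 0])) + (
    hk (sy (ev g (true, [0, 0, -1, -1, -1, -2, 1, 1, 2, 0, 0]))) (lg (evl g [1, -1, -1, 4, 1, 1, 0, 1, -3, -4, -2])) + (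
    hk (sy (ev g (false, [0, 1, -1, -2, -1, -1, -1, 2, 2, -1, 0]))) (lg (evl g [-5, 0, 0, -2, 2, 1, 0, 1, 1, 0, 2])) + (
    hk (sy (ev g (false, [0, 1, 0, -2, -1, -1, 0, 0, 2, 0, 0]))) (lg (evl g [1, -1, -1, 0, -3, -4, 2, 0, 5, 1, 0])) + (
    hk (sy (ev g (true, [0, 0, 1, 1, 0, 0, 0, -1, 0, 0, 0]))) (lg (evl g [0, -1, 3, -4, 3, 0, 0, 0, 0, 0, 1])) + (
    hk (sy (ev g (false, [-1, 0, 0, 0, 0, 0, 0, 1, 0, 0, 0]))) (lg (evl g [0, 1, -3, 4, -3, 0, 0, 0, 0, 0, -1])) + (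
    hk (sy (ev g (true, [0, 0, 0, 1, 1, 0, 0, 0, -1, -1, 0]))) (lg (evl g [0, 0, 3, -5, 2, 0, 0, 0, 0, 0, 1])) + (
    hk (sy (ev g (false, [-1, 0, 0, 0, 0, 0, 0, 0, 1, -1, 0]))) (lg (evl g [0, 0, -3, 5, -2, 0, 0, 0, 0, 0, -1])) + (
    hk (sy (ev g (true, [-1, 0, -1, -1, 0, -1, 1, 1, 1, 0, 1]))) (lg (evl g [0, -2, 2, -5, 1, 0, -2, 4, 1, 3, 1])) + (
    hk (sy (ev g (false, [0, 0, -1, -1, -1, -1, 0, 1, 2, 0, 1]))) (lg (evl g [0, 2, -2, 5, -1, 0, 2, -4, -1, -3, -1])) + (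
    hk (sy (ev g (true, [-1, 0, 0, -1, -1, -1, 0, 1, 2, 1, 0]))) (lg (evl g [0, -3, 2, -2, 3, 3, -2, 2, -3, 1, 2])) + (
    hk (sy (ev g (false, [0, 1, -1, -2, -1, -2, 0, 2, 2, 0, 0]))) (lg (evl g [0, 3, -2, 2, -3, -3, 2, -2, 3, -1, -2])) + (
    hk (sy (ev g (false, [0, 1, 0, -2, -1, -1, -1, 1, 2, 1, 1]))) (lg (evl g [3, -2, 2, -3, -1, 1, -2, 1, 2, -1, -1])) + (
    hk (sy (ev g (false, [1, 1, 0, -1, -1, -1, 0, 0, 1, 0, 0]))) (lg (evl g [-3, 2, -2, 3, 1, -1, 2, -1, -2, 1, 1])) + (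
    hk (sy (ev g (true, [0, 1, -1, -2, -1, -1, 0, 1, 2, -1, 0]))) (lg (evl g [3, -2, 3, 0, 0, 2, -3, 0, 0, -3, -1])) + (
    hk (sy (ev g (true, [0, 0, 0, -1, -1, 0, 0, 0, 1, 1, 0]))) (lg (evl g [-3, 2, -3, 0, 0, -2, 3, 0, 0, 3, 1])) + (
    hk (sy (ev g (false, [0, 0, 0, 0, 0, 1, 0, 0, -1, 0, 0]))) (lg (evl g [6, -3, 1, 0, 1, -1, 2, -1, -2, -1, -1])) + (
    hk (sy (ev g (true, [0, -1, 0, 1, 1, 1, 1, -1, -2, 1, 1]))) (lg (evl g [-6, 3, -1, 0, -1, 1, -2, 1, 2, 1, 1])) + (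
    hk (sy (ev g (false, [1, 0, 0, 0, 0, 0, 0, 0, -1, 1, 0]))) (lg (evl g [4, -3, 0, 0, 0, -2, 3, 0, 0, -3, -1])) + (
    hk (sy (ev g (true, [1, 0, 0, 1, 1, 1, 0, -1, -2, -1, 0]))) (lg (evl g [-4, 3, 0, 0, 0, 2, -3, 0, 0, 3, 1])) + (
    hk (sy (ev g (false, [1, -1, 0, 2, 1, 1, 0, -1, -2, 0, 1]))) (lg (evl g [3, -4, 4, 0, 2, 0, 2, -4, -1, 3, 1])) + (
    hk (sy (ev g (true, [0, 0, 1, 1, 1, 1, -1, -1, -1, 0, 1]))) (lg (evl g [-3, 4, -4, 0, -2, 0, -2, 4, 1, -3, -1])) + (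
    hk (sy (ev g (false, [0, -1, 1, 2, 1, 2, 0, -2, -2, 0, 0]))) (lg (evl g [3, -2, 2, -3, 0, -3, 2, -2, 3, 1, 2])) + (
    hk (sy (ev g (true, [0, -1, 1, 2, 1, 1, 0, -1, -2, 1, 0]))) (lg (evl g [-3, 2, -2, 3, 0, 3, -2, 2, -3, -1, -2])) + 0))))))))))))))))))))))))))))) := by
    rw [← p0, ← p1, ← p2, ← p3, ← p4, ← p5, ← p6, ← p7, ← p8, ← p9, ← p10, ← p11, ← p12, ← p13, ← p14, ← p15, ← p16, ← p17, ← p18, ← p19, ← p20, ← p21, ← p22, ← p23, ← p24, ← p25, ← p26, ← p27, ← p28, ← p29]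
    rfl
  rw [z, hg]
  clear z hgg
  have c0 := c10a_0 A0 B0 C0 H0 K0 D0 E0 G0 J0
  have c1 := c10a_1 A0 B0 C0 H0 K0 D0 E0 G0 J0
  have c2 := c10a_2 A0 B0 C0 H0 K0 D0 E0 G0 J0
  have c3 := c10a_3 A0 B0 C0 H0 K0 D0 E0 G0 J0
  have c4 := c10a_4 A0 B0 C0 H0 K0 D0 E0 G0 J0
  have c5 := c10a_5 A0 B0 C0 H0 K0 D0 E0 G0 J0
  have c6 := c10a_6 A0 B0 C0 H0 K0 D0 E0 G0 J0
  have c7 := c10a_7 A0 B0 C0 H0 K0 D0 E0 G0 J0
  have c8 := c10a_8 A0 B0 C0 H0 K0 D0 E0 G0 J0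
  have c9 := c10a_9 A0 B0 C0 H0 K0 D0 E0 G0 J0
  have c10 := c10a_10 A0 B0 C0 H0 K0 D0 E0 G0 J0
  have c11 := c10a_11 A0 B0 C0 H0 K0 D0 E0 G0 J0
  have c12 := c10a_12 A0 B0 C0 H0 K0 D0 E0 G0 J0
  have c13 := c10a_13 A0 B0 C0 H0 K0 D0 E0 G0 J0
  have c14 := c10a_14 A0 B0 C0 H0 K0 D0 E0 G0 J0
  have c15 := c10a_15 A0 B0 C0 H0 K0 D0 E0 G0 J0
  have c16 := c10a_16 A0 B0 C0 H0 K0 D0 E0 G0 J0
  have c17 := c10a_17 A0 B0 C0 H0 K0 D0 E0 G0 J0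
  have c18 := c10a_18 A0 B0 C0 H0 K0 D0 E0 G0 J0
  have c19 := c10a_19 A0 B0 C0 H0 K0 D0 E0 G0 J0
  have c20 := c10a_20 A0 B0 C0 H0 K0 D0 E0 G0 J0
  have c21 := c10a_21 A0 B0 C0 H0 K0 D0 E0 G0 J0
  have c22 := c10a_22 A0 B0 C0 H0 K0 D0 E0 G0 J0
  have c23 := c10a_23 A0 B0 C0 H0 K0 D0 E0 G0 J0
  have c24 := c10a_24 A0 B0 C0 H0 K0 D0 E0 G0 J0
  have c25 := c10a_25 A0 B0 C0 H0 K0 D0 E0 G0 J0
  have c26 := c10a_26 A0 B0 C0 H0 K0 D0 E0 G0 J0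
  have c27 := c10a_27 A0 B0 C0 H0 K0 D0 E0 G0 J0
  have c28 := c10a_28 A0 B0 C0 H0 K0 D0 E0 G0 J0
  have c29 := c10a_29 A0 B0 C0 H0 K0 D0 E0 G0 J0
  rw [c0, c1, c2, c3, c4, c5, c6, c7, c8, c9, c10, c11, c12, c13, c14, c15, c16, c17, c18, c19, c20, c21, c22, c23, c24, c25, c26, c27, c28, c29]
  abel

end eq

end Pool.Agent.FK4
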