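import Pool.Agent.Lib_helper54.FAM.LK10bh

set_option autoImplicit false
set_option linter.unusedSectionVars false
set_option linter.unusedVariables false
set_option linter.unusedSimpArgs false
set_option linter.unusedTactic false
set_option linter.unreachableTactic false
set_option maxRecDepth 100000

/-!
# The second special curve with a point of order ten: monomials, part 1
-/

open scoped TensorProduct

namespace Pool.Agent.FK4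

open Pool.Agent.MK4 Pool.Agent.TN Pool.Agent.KC72

section eq

variable {F : Type*} [Field F] [CharZero F] {x B C H K y E G J : F}

theorem c10b_0 (A0 : x ≠ 0) (B0 : B ≠ 0) (C0 : C ≠ 0) (H0 : H ≠ 0) (K0 : K ≠ 0) (D0 : y ≠ 0) (E0 : E ≠ 0) (G0 : G ≠ 0) (J0 : J ≠ 0) :
    hk (sy (2 * (x) ^ 2 * (B) / ((y) * (E)))) (lg (24 * (C) ^ 2 * (H) * (G) ^ 3 / (15625 * (B) ^ 4 * (K) ^ 2 * (y) ^ 2 * (J)))) =
      hk (sy (ev [x, B, C, H, K, y, E, G, J, 2, 3, 5] (false, [2, 1, 0, 0, 0, -1, -1, 0, 0, 1, 0, 0]))) (lg (evl [x, B, C, H, K, y, E, G, J, 2, 3, 5] [0, -4, 2, 1, -2, -2, 0, 3, -1, 3, 1, -6])) :=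
  hkc10b
    (by
      simp only [ev, evl_cons, evl_nil_left, evl_nil_right, cond_true, cond_false, zpow_neg, zpow_ofNat, zpow_zero, zpow_one]
      field_simp
      try ring)
    (by
      simp only [ev, evl_cons, evl_nil_left, evl_nil_right, cond_true, cond_false, zpow_neg, zpow_ofNat, zpow_zero, zpow_one]
      field_simp
      try ring)

theorem c10b_1 (A0 : x ≠ 0) (B0 : B ≠ 0) (C0 : C ≠ 0) (H0 : H ≠ 0) (K0 : K ≠ 0) (D0 : y ≠ 0) (E0 : E ≠ 0) (G0 : G ≠ 0) (J0 : J ≠ 0) :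
    hk (sy ((x) ^ 2 / (y))) (lg ((46875 * (B) ^ 5 * (K) ^ 3 * (y) * (E) ^ 2 * (J) ^ 3 / (4 * (C) ^ 5 * (H) ^ 3 * (G) ^ 4)) ^ 6)) =
      hk (sy (ev [x, B, C, H, K, y, E, G, J, 2, 3, 5] (false, [2, 0, 0, 0, 0, -1, 0, 0, 0, 0, 0, 0]))) (lg (evl [x, B, C, H, K, y, E, G, J, 2, 3, 5] [0, 30, -30, -18, 18, 6, 12, -24, 18, -12, 6, 36])) :=
  hkc10b
    (by
      simp only [ev, evl_cons, evl_nil_left, evl_nil_right, cond_true, cond_false, zpow_neg, zpow_ofNat, zpow_zero, zpow_one]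
      field_simp
      try ring)
    (by
      simp only [ev, evl_cons, evl_nil_left, evl_nil_right, cond_true, cond_false, zpow_neg, zpow_ofNat, zpow_zero, zpow_one]
      field_simp
      try ring)

theorem c10b_2 (A0 : x ≠ 0) (B0 : B ≠ 0) (C0 : C ≠ 0) (H0 : H ≠ 0) (K0 : K ≠ 0) (D0 : y ≠ 0) (E0 : E ≠ 0) (G0 : G ≠ 0) (J0 : J ≠ 0) :
    hk (sy (6 * (x) ^ 3 / (5 * (y) ^ 2))) (lg ((B) * (K) ^ 2 * (G) ^ 22 / (135000 * (y) ^ 12 * (E) * (J) ^ 13))) =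
      hk (sy (ev [x, B, C, H, K, y, E, G, J, 2, 3, 5] (false, [3, 0, 0, 0, 0, -2, 0, 0, 0, 1, 1, -1]))) (lg (evl [x, B, C, H, K, y, E, G, J, 2, 3, 5] [0, 1, 0, 0, 2, -12, -1, 22, -13, -3, -3, -4])) :=
  hkc10b
    (by
      simp only [ev, evl_cons, evl_nil_left, evl_nil_right, cond_true, cond_false, zpow_neg, zpow_ofNat, zpow_zero, zpow_one]
      field_simp
      try ring)
    (by
      simp only [ev, evl_cons, evl_nil_left, evl_nil_right, cond_true, cond_false, zpow_neg, zpow_ofNat, zpow_zero, zpow_one]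
      field_simp
      try ring)

theorem c10b_3 (A0 : x ≠ 0) (B0 : B ≠ 0) (C0 : C ≠ 0) (H0 : H ≠ 0) (K0 : K ≠ 0) (D0 : y ≠ 0) (E0 : E ≠ 0) (G0 : G ≠ 0) (J0 : J ≠ 0) :
    hk (sy (6 * (y) ^ 2 / (5 * (x) * (B) ^ 2))) (lg (((C) ^ 21 * (H) ^ 9 * (y) ^ 12 * (E) * (J) ^ 13 / (135000 * (x) ^ 16 * (B) ^ 12 * (K) ^ 11 * (G) ^ 22))⁻¹)) =
      hk (sy (ev [x, B, C, H, K, y, E, G, J, 2, 3, 5] (false, [-1, -2, 0, 0, 0, 2, 0, 0, 0, 1, 1, -1]))) (lg (evl [x, B, C, H, K, y, E, G, J, 2, 3, 5] [16, 12, -21, -9, 11, -12, -1, 22, -13, 3, 3, 4])) :=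
  hkc10b
    (by
      simp only [ev, evl_cons, evl_nil_left, evl_nil_right, cond_true, cond_false, zpow_neg, zpow_ofNat, zpow_zero, zpow_one]
      field_simp
      try ring)
    (by
      simp only [ev, evl_cons, evl_nil_left, evl_nil_right, cond_true, cond_false, zpow_neg, zpow_ofNat, zpow_zero, zpow_one]
      field_simp
      try ring)

theorem c10b_4 (A0 : x ≠ 0) (B0 : B ≠ 0) (C0 : C ≠ 0) (H0 : H ≠ 0) (K0 : K ≠ 0) (D0 : y ≠ 0) (E0 : E ≠ 0) (G0 : G ≠ 0) (J0 : J ≠ 0) :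
    hk (sy (2 * (-(6 * y) / (25 * x ^ 2)) ^ 2 * (6 * y * E / (25 * x ^ 2 * B)) / ((36 * y * E / (625 * x ^ 3 * B)) * (36 * y * E * G / (125 * x ^ 3 * B * C))))) (lg (24 * (-(6 * E * G) / (5 * x ^ 2 * C)) ^ 2 * (-(6 * G * J) / (25 * x ^ 2 * H)) * (-(36 * E * G * J) / (125 * x ^ 3 * C * H)) ^ 3 / (15625 * (6 * y * E / (25 * x ^ 2 * B)) ^ 4 * (2 * J ^ 2 / (5 * x ^ 2 * K)) ^ 2 * (36 * y * E / (625 * x ^ 3 * B)) ^ 2 * (12 * G * J ^ 2 / (125 * x ^ 3 * H * K))))) =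
      hk (sy (ev [x, B, C, H, K, y, E, G, J, 2, 3, 5] (false, [0, 1, 1, 0, 0, 1, -1, -1, 0, 0, -1, 1]))) (lg (evl [x, B, C, H, K, y, E, G, J, 2, 3, 5] [6, 6, -5, -3, 3, -6, -1, 5, -2, 0, 1, 2])) :=
  hkc10b
    (by
      simp only [ev, evl_cons, evl_nil_left, evl_nil_right, cond_true, cond_false, zpow_neg, zpow_ofNat, zpow_zero, zpow_one]
      field_simp
      try ring)
    (by
      simp only [ev, evl_cons, evl_nil_left, evl_nil_right, cond_true, cond_false, zpow_neg, zpow_ofNat, zpow_zero, zpow_one]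
      field_simp
      try ring)

theorem c10b_5 (A0 : x ≠ 0) (B0 : B ≠ 0) (C0 : C ≠ 0) (H0 : H ≠ 0) (K0 : K ≠ 0) (D0 : y ≠ 0) (E0 : E ≠ 0) (G0 : G ≠ 0) (J0 : J ≠ 0) :
    hk (sy ((-(6 * y) / (25 * x ^ 2)) ^ 2 / (36 * y * E / (625 * x ^ 3 * B)))) (lg ((46875 * (6 * y * E / (25 * x ^ 2 * B)) ^ 5 * (2 * J ^ 2 / (5 * x ^ 2 * K)) ^ 3 * (36 * y * E / (625 * x ^ 3 * B)) * (36 * y * E * G / (125 * x ^ 3 * B * C)) ^ 2 * (12 * G * J ^ 2 / (125 * x ^ 3 * H * K)) ^ 3 / (4 * (-(6 * E * G) / (5 * x ^ 2 * C)) ^ 5 * (-(6 * G * J) / (25 * x ^ 2 * H)) ^ 3 * (-(36 * E * G * J) / (125 * x ^ 3 * C * H)) ^ 4)) ^ 6)) =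
      hk (sy (ev [x, B, C, H, K, y, E, G, J, 2, 3, 5] (false, [-1, 1, 0, 0, 0, 1, -1, 0, 0, 0, 0, 0]))) (lg (evl [x, B, C, H, K, y, E, G, J, 2, 3, 5] [-36, -48, 42, 24, -36, 48, -6, -42, 30, 12, -6, -18])) :=
  hkc10b
    (by
      simp only [ev, evl_cons, evl_nil_left, evl_nil_right, cond_true, cond_false, zpow_neg, zpow_ofNat, zpow_zero, zpow_one]
      field_simp
      try ring)
    (by
      simp only [ev, evl_cons, evl_nil_left, evl_nil_right, cond_true, cond_false, zpow_neg, zpow_ofNat, zpow_zero, zpow_one]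
      field_simp
      try ring)

theorem c10b_6 (A0 : x ≠ 0) (B0 : B ≠ 0) (C0 : C ≠ 0) (H0 : H ≠ 0) (K0 : K ≠ 0) (D0 : y ≠ 0) (E0 : E ≠ 0) (G0 : G ≠ 0) (J0 : J ≠ 0) :
    hk (sy (6 * (-(6 * y) / (25 * x ^ 2)) ^ 3 / (5 * (36 * y * E / (625 * x ^ 3 * B)) ^ 2))) (lg ((6 * y * E / (25 * x ^ 2 * B)) * (2 * J ^ 2 / (5 * x ^ 2 * K)) ^ 2 * (-(36 * E * G * J) / (125 * x ^ 3 * C * H)) ^ 22 / (135000 * (36 * y * E / (625 * x ^ 3 * B)) ^ 12 * (36 * y * E * G / (125 * x ^ 3 * B * C)) * (12 * G * J ^ 2 / (125 * x ^ 3 * H * K)) ^ 13))) =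
      hk (sy (ev [x, B, C, H, K, y, E, G, J, 2, 3, 5] (true, [0, 2, 0, 0, 0, 1, -2, 0, 0, 0, 0, 1]))) (lg (evl [x, B, C, H, K, y, E, G, J, 2, 3, 5] [6, 12, -21, -9, 11, -12, 10, 8, 0, -8, 3, 16])) :=
  hkc10b
    (by
      simp only [ev, evl_cons, evl_nil_left, evl_nil_right, cond_true, cond_false, zpow_neg, zpow_ofNat, zpow_zero, zpow_one]
      field_simp
      try ring)
    (by
      simp only [ev, evl_cons, evl_nil_left, evl_nil_right, cond_true, cond_false, zpow_neg, zpow_ofNat, zpow_zero, zpow_one]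
      field_simp
      try ring)

theorem c10b_7 (A0 : x ≠ 0) (B0 : B ≠ 0) (C0 : C ≠ 0) (H0 : H ≠ 0) (K0 : K ≠ 0) (D0 : y ≠ 0) (E0 : E ≠ 0) (G0 : G ≠ 0) (J0 : J ≠ 0) :
    hk (sy (6 * (36 * y * E / (625 * x ^ 3 * B)) ^ 2 / (5 * (-(6 * y) / (25 * x ^ 2)) * (6 * y * E / (25 * x ^ 2 * B)) ^ 2))) (lg (((-(6 * E * G) / (5 * x ^ 2 * C)) ^ 21 * (-(6 * G * J) / (25 * x ^ 2 * H)) ^ 9 * (36 * y * E / (625 * x ^ 3 * B)) ^ 12 * (36 * y * E * G / (125 * x ^ 3 * B * C)) * (12 * G * J ^ 2 / (125 * x ^ 3 * H * K)) ^ 13 / (135000 * (-(6 * y) / (25 * x ^ 2)) ^ 16 * (6 * y * E / (25 * x ^ 2 * B)) ^ 12 * (2 * J ^ 2 / (5 * x ^ 2 * K)) ^ 11 * (-(36 * E * G * J) / (125 * x ^ 3 * C * H)) ^ 22))⁻¹)) =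
      hk (sy (ev [x, B, C, H, K, y, E, G, J, 2, 3, 5] (true, [0, 0, 0, 0, 0, -1, 0, 0, 0, 2, 2, -3]))) (lg (evl [x, B, C, H, K, y, E, G, J, 2, 3, 5] [-6, 1, 0, 0, 2, 15, 0, -22, 9, 4, 6, 0])) :=
  hkc10b
    (by
      simp only [ev, evl_cons, evl_nil_left, evl_nil_right, cond_true, cond_false, zpow_neg, zpow_ofNat, zpow_zero, zpow_one]
      field_simp
      try ring)
    (by
      simp only [ev, evl_cons, evl_nil_left, evl_nil_right, cond_true, cond_false, zpow_neg, zpow_ofNat, zpow_zero, zpow_one]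
      field_simp
      try ring)

end eq

end Pool.Agent.FK4
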