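import Pool.Agent.Lib_helper54.FAM.LK10bh

set_option autoImplicit false
set_option linter.unusedSectionVars false
set_option linter.unusedVariables false
set_option linter.unusedSimpArgs false
set_option linter.unusedTactic false
set_option linter.unreachableTactic false
set_option maxRecDepth 100000

/-!
# The second special curve with a point of order ten: monomials, part 2
-/

open scoped TensorProduct

namespace Pool.Agent.FK4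

open Pool.Agent.MK4 Pool.Agent.TN Pool.Agent.KC72

section eq

variable {F : Type*} [Field F] [CharZero F] {x B C H K y E G J : F}

theorem c10b_8 (A0 : x ≠ 0) (B0 : B ≠ 0) (C0 : C ≠ 0) (H0 : H ≠ 0) (K0 : K ≠ 0) (D0 : y ≠ 0) (E0 : E ≠ 0) (G0 : G ≠ 0) (J0 : J ≠ 0) :
    hk (sy (2 * (-(6 * x * E) / (25 * B * y)) ^ 2 * (36 * E * G / (125 * B * C * y)) / ((-(36 * x ^ 2 * E * G) / (125 * B * C * y ^ 2)) * (-(216 * x * E * G * J) / (625 * B * C * H * y ^ 2))))) (lg (24 * (-(36 * E * G * J) / (25 * B * C * H * y)) ^ 2 * (-(12 * E * G * J ^ 2) / (25 * C * H * K * y ^ 2)) * (-(72 * x * E * G * J ^ 2) / (125 * B * C * H * K * y ^ 2)) ^ 3 / (15625 * (36 * E * G / (125 * B * C * y)) ^ 4 * (4 * G ^ 2 * J ^ 2 / (25 * H ^ 2 * K * y ^ 2)) ^ 2 * (-(36 * x ^ 2 * E * G) / (125 * B * C * y ^ 2)) ^ 2 * (-(24 * x * E * G ^ 2 * J ^ 2) / (125 * C * H ^ 2 * K * y ^ 3)))))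 =
      hk (sy (ev [x, B, C, H, K, y, E, G, J, 2, 3, 5] (false, [-1, -1, 1, 1, 0, 1, 1, -1, -1, 0, -1, 0]))) (lg (evl [x, B, C, H, K, y, E, G, J, 2, 3, 5] [-2, 1, 1, 0, -1, 5, -1, -6, 4, -1, -1, 4])) :=
  hkc10b'
    (by
      simp only [ev, evl_cons, evl_nil_left, evl_nil_right, cond_true, cond_false, zpow_neg, zpow_ofNat, zpow_zero, zpow_one]
      field_simp
      try ring)
    (by
      simp only [ev, evl_cons, evl_nil_left, evl_nil_right, cond_true, cond_false, zpow_neg, zpow_ofNat, zpow_zero, zpow_one]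
      field_simp
      try ring)

theorem c10b_9 (A0 : x ≠ 0) (B0 : B ≠ 0) (C0 : C ≠ 0) (H0 : H ≠ 0) (K0 : K ≠ 0) (D0 : y ≠ 0) (E0 : E ≠ 0) (G0 : G ≠ 0) (J0 : J ≠ 0) :
    hk (sy ((-(6 * x * E) / (25 * B * y)) ^ 2 / (-(36 * x ^ 2 * E * G) / (125 * B * C * y ^ 2)))) (lg ((46875 * (36 * E * G / (125 * B * C * y)) ^ 5 * (4 * G ^ 2 * J ^ 2 / (25 * H ^ 2 * K * y ^ 2)) ^ 3 * (-(36 * x ^ 2 * E * G) / (125 * B * C * y ^ 2)) * (-(216 * x * E * G * J) / (625 * B * C * H * y ^ 2)) ^ 2 * (-(24 * x * E * G ^ 2 * J ^ 2) / (125 * C * H ^ 2 * K * y ^ 3)) ^ 3 / (4 * (-(36 * E * G * J) / (25 * B * C * H * y)) ^ 5 * (-(12 * E * G * J ^ 2) / (25 * C * H * K * y ^ 2)) ^ 3 * (-(72 * x * E * G * J ^ 2) / (125 * B * C * H * K * y ^ 2)) ^ 4)) ^ 6)) =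
      hk (sy (ev [x, B, C, H, K, y, E, G, J, 2, 3, 5] (true, [0, -1, 1, 0, 0, 0, 1, -1, 0, 0, 0, -1]))) (lg (evl [x, B, C, H, K, y, E, G, J, 2, 3, 5] [18, 6, 6, -12, 6, -42, -6, 48, -30, 18, 6, -42])) :=
  hkc10b
    (by
      simp only [ev, evl_cons, evl_nil_left, evl_nil_right, cond_true, cond_false, zpow_neg, zpow_ofNat, zpow_zero, zpow_one]
      field_simp
      try ring)
    (by
      simp only [ev, evl_cons, evl_nil_left, evl_nil_right, cond_true, cond_false, zpow_neg, zpow_ofNat, zpow_zero, zpow_one]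
      field_simp
      try ring)

theorem c10b_10 (A0 : x ≠ 0) (B0 : B ≠ 0) (C0 : C ≠ 0) (H0 : H ≠ 0) (K0 : K ≠ 0) (D0 : y ≠ 0) (E0 : E ≠ 0) (G0 : G ≠ 0) (J0 : J ≠ 0) :
    hk (sy (6 * (-(6 * x * E) / (25 * B * y)) ^ 3 / (5 * (-(36 * x ^ 2 * E * G) / (125 * B * C * y ^ 2)) ^ 2))) (lg ((36 * E * G / (125 * B * C * y)) * (4 * G ^ 2 * J ^ 2 / (25 * H ^ 2 * K * y ^ 2)) ^ 2 * (-(72 * x * E * G * J ^ 2) / (125 * B * C * H * K * y ^ 2)) ^ 22 / (135000 * (-(36 * x ^ 2 * E * G) / (125 * B * C * y ^ 2)) ^ 12 * (-(216 * x * E * G * J) / (625 * B * C * H * y ^ 2)) * (-(24 * x * E * G ^ 2 * J ^ 2) / (125 * C * H ^ 2 * K * y ^ 3)) ^ 13))) =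
      hk (sy (ev [x, B, C, H, K, y, E, G, J, 2, 3, 5] (true, [-1, -1, 2, 0, 0, 1, 1, -2, 0, 0, 0, -1]))) (lg (evl [x, B, C, H, K, y, E, G, J, 2, 3, 5] [-16, -10, 3, 1, -11, 16, -3, -12, 21, 3, 3, 2])) :=
  hkc10b
    (by
      simp only [ev, evl_cons, evl_nil_left, evl_nil_right, cond_true, cond_false, zpow_neg, zpow_ofNat, zpow_zero, zpow_one]
      field_simp
      try ring)
    (by
      simp only [ev, evl_cons, evl_nil_left, evl_nil_right, cond_true, cond_false, zpow_neg, zpow_ofNat, zpow_zero, zpow_one]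
      field_simp
      try ring)

theorem c10b_11 (A0 : x ≠ 0) (B0 : B ≠ 0) (C0 : C ≠ 0) (H0 : H ≠ 0) (K0 : K ≠ 0) (D0 : y ≠ 0) (E0 : E ≠ 0) (G0 : G ≠ 0) (J0 : J ≠ 0) :
    hk (sy (6 * (-(36 * x ^ 2 * E * G) / (125 * B * C * y ^ 2)) ^ 2 / (5 * (-(6 * x * E) / (25 * B * y)) * (36 * E * G / (125 * B * C * y)) ^ 2))) (lg (((-(36 * E * G * J) / (25 * B * C * H * y)) ^ 21 * (-(12 * E * G * J ^ 2) / (25 * C * H * K * y ^ 2)) ^ 9 * (-(36 * x ^ 2 * E * G) / (125 * B * C * y ^ 2)) ^ 12 * (-(216 * x * E * G * J) / (625 * B * C * H * y ^ 2)) * (-(24 * x * E * G ^ 2 * J ^ 2) / (125 * C * H ^ 2 * K * y ^ 3)) ^ 13 / (135000 * (-(6 * x * E) / (25 * B * y)) ^ 16 * (36 * E * G / (125 * B * C * y)) ^ 12 * (4 * G ^ 2 * J ^ 2 / (25 * H ^ 2 * K * y ^ 2)) ^ 11 * (-(72 * x * E * G * J ^ 2) / (125 * B * C * H * K * y ^ 2)) ^ 22))⁻¹)) =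
      hk (sy (ev [x, B, C, H, K, y, E, G, J, 2, 3, 5] (true, [3, 1, 0, 0, 0, -1, -1, 0, 0, 0, 0, 1]))) (lg (evl [x, B, C, H, K, y, E, G, J, 2, 3, 5] [0, -16, 22, 13, -11, 10, -6, -13, 0, 5, -4, -13])) :=
  hkc10b
    (by
      simp only [ev, evl_cons, evl_nil_left, evl_nil_right, cond_true, cond_false, zpow_neg, zpow_ofNat, zpow_zero, zpow_one]
      field_simp
      try ring)
    (by
      simp only [ev, evl_cons, evl_nil_left, evl_nil_right, cond_true, cond_false, zpow_neg, zpow_ofNat, zpow_zero, zpow_one]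
      field_simp
      try ring)

theorem c10b_12 (A0 : x ≠ 0) (B0 : B ≠ 0) (C0 : C ≠ 0) (H0 : H ≠ 0) (K0 : K ≠ 0) (D0 : y ≠ 0) (E0 : E ≠ 0) (G0 : G ≠ 0) (J0 : J ≠ 0) :
    hk (sy (2 * (6 * B * G / (5 * C * E)) ^ 2 * (36 * x * B * G * J / (25 * C * H * y * E)) / ((-(36 * B ^ 2 * G * J) / (25 * C * H * E ^ 2)) * (-(72 * x * B ^ 2 * G * J ^ 2) / (25 * C * H * K * y * E ^ 2))))) (lg (24 * (72 * B * G * J ^ 2 / (25 * C * H * K * y * E)) ^ 2 * (24 * B * G ^ 2 * J ^ 2 / (25 * C * H ^ 2 * K * y * E)) * (-(144 * B ^ 2 * G ^ 2 * J ^ 2) / (125 * C * H ^ 2 * K * y * E ^ 2)) ^ 3 / (15625 * (36 * x * B * G * J / (25 * C * H * y * E)) ^ 4 * (8 * B ^ 2 * G ^ 2 * J ^ 2 / (5 * C ^ 2 * H ^ 2 * K * y ^ 2)) ^ 2 * (-(36 * B ^ 2 * G * J) / (25 * C * H * E ^ 2)) ^ 2 * (-(48 * B ^ 2 * G ^ 2 * J ^ 2) / (25 * C ^ 2 * H ^ 2 * K * y * E))))) =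
      hk (sy (ev [x, B, C, H, K, y, E, G, J, 2, 3, 5] (false, [0, -1, -1, 1, 1, 0, 1, 1, -2, 0, 0, 0]))) (lg (evl [x, B, C, H, K, y, E, G, J, 2, 3, 5] [-4, -5, 6, 2, -3, 3, 0, -2, 0, 2, -1, -5])) :=
  hkc10b
    (by
      simp only [ev, evl_cons, evl_nil_left, evl_nil_right, cond_true, cond_false, zpow_neg, zpow_ofNat, zpow_zero, zpow_one]
      field_simp
      try ring)
    (by
      simp only [ev, evl_cons, evl_nil_left, evl_nil_right, cond_true, cond_false, zpow_neg, zpow_ofNat, zpow_zero, zpow_one]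
      field_simp
      try ring)

theorem c10b_13 (A0 : x ≠ 0) (B0 : B ≠ 0) (C0 : C ≠ 0) (H0 : H ≠ 0) (K0 : K ≠ 0) (D0 : y ≠ 0) (E0 : E ≠ 0) (G0 : G ≠ 0) (J0 : J ≠ 0) :
    hk (sy ((6 * B * G / (5 * C * E)) ^ 2 / (-(36 * B ^ 2 * G * J) / (25 * C * H * E ^ 2)))) (lg ((46875 * (36 * x * B * G * J / (25 * C * H * y * E)) ^ 5 * (8 * B ^ 2 * G ^ 2 * J ^ 2 / (5 * C ^ 2 * H ^ 2 * K * y ^ 2)) ^ 3 * (-(36 * B ^ 2 * G * J) / (25 * C * H * E ^ 2)) * (-(72 * x * B ^ 2 * G * J ^ 2) / (25 * C * H * K * y * E ^ 2)) ^ 2 * (-(48 * B ^ 2 * G ^ 2 * J ^ 2) / (25 * C ^ 2 * H ^ 2 * K * y * E)) ^ 3 / (4 * (72 * B * G * J ^ 2 / (25 * C * H * K * y * E)) ^ 5 * (24 * B * G ^ 2 * J ^ 2 / (25 * C * H ^ 2 * K * y * E)) ^ 3 * (-(144 * B ^ 2 * G ^ 2 * J ^ 2) / (125 * C * H ^ 2 * K * y * E ^ 2)) ^ 4)) ^ 6)) =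
      hk (sy (ev [x, B, C, H, K, y, E, G, J, 2, 3, 5] (true, [0, 0, -1, 1, 0, 0, 0, 1, -1, 0, 0, 0]))) (lg (evl [x, B, C, H, K, y, E, G, J, 2, 3, 5] [42, 42, -48, -6, 24, -24, 12, 6, -12, -18, -6, 54])) :=
  hkc10b
    (by
      simp only [ev, evl_cons, evl_nil_left, evl_nil_right, cond_true, cond_false, zpow_neg, zpow_ofNat, zpow_zero, zpow_one]
      field_simp
      try ring)
    (by
      simp only [ev, evl_cons, evl_nil_left, evl_nil_right, cond_true, cond_false, zpow_neg, zpow_ofNat, zpow_zero, zpow_one]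
      field_simp
      try ring)

theorem c10b_14 (A0 : x ≠ 0) (B0 : B ≠ 0) (C0 : C ≠ 0) (H0 : H ≠ 0) (K0 : K ≠ 0) (D0 : y ≠ 0) (E0 : E ≠ 0) (G0 : G ≠ 0) (J0 : J ≠ 0) :
    hk (sy (6 * (6 * B * G / (5 * C * E)) ^ 3 / (5 * (-(36 * B ^ 2 * G * J) / (25 * C * H * E ^ 2)) ^ 2))) (lg ((36 * x * B * G * J / (25 * C * H * y * E)) * (8 * B ^ 2 * G ^ 2 * J ^ 2 / (5 * C ^ 2 * H ^ 2 * K * y ^ 2)) ^ 2 * (-(144 * B ^ 2 * G ^ 2 * J ^ 2) / (125 * C * H ^ 2 * K * y * E ^ 2)) ^ 22 / (135000 * (-(36 * B ^ 2 * G * J) / (25 * C * H * E ^ 2)) ^ 12 * (-(72 * x * B ^ 2 * G * J ^ 2) / (25 * C * H * K * y * E ^ 2)) * (-(48 * B ^ 2 * G ^ 2 * J ^ 2) / (25 * C ^ 2 * H ^ 2 * K * y * E)) ^ 13))) =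
      hk (sy (ev [x, B, C, H, K, y, E, G, J, 2, 3, 5] (false, [0, -1, -1, 2, 0, 0, 1, 1, -2, 0, 0, 0]))) (lg (evl [x, B, C, H, K, y, E, G, J, 2, 3, 5] [0, -3, 12, -10, -10, -13, -6, 10, 9, 14, 4, -22])) :=
  hkc10b
    (by
      simp only [ev, evl_cons, evl_nil_left, evl_nil_right, cond_true, cond_false, zpow_neg, zpow_ofNat, zpow_zero, zpow_one]
      field_simp
      try ring)
    (by
      simp only [ev, evl_cons, evl_nil_left, evl_nil_right, cond_true, cond_false, zpow_neg, zpow_ofNat, zpow_zero, zpow_one]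
      field_simp
      try ring)

theorem c10b_15 (A0 : x ≠ 0) (B0 : B ≠ 0) (C0 : C ≠ 0) (H0 : H ≠ 0) (K0 : K ≠ 0) (D0 : y ≠ 0) (E0 : E ≠ 0) (G0 : G ≠ 0) (J0 : J ≠ 0) :
    hk (sy (6 * (-(36 * B ^ 2 * G * J) / (25 * C * H * E ^ 2)) ^ 2 / (5 * (6 * B * G / (5 * C * E)) * (36 * x * B * G * J / (25 * C * H * y * E)) ^ 2))) (lg (((72 * B * G * J ^ 2 / (25 * C * H * K * y * E)) ^ 21 * (24 * B * G ^ 2 * J ^ 2 / (25 * C * H ^ 2 * K * y * E)) ^ 9 * (-(36 * B ^ 2 * G * J) / (25 * C * H * E ^ 2)) ^ 12 * (-(72 * x * B ^ 2 * G * J ^ 2) / (25 * C * H * K * y * E ^ 2)) * (-(48 * B ^ 2 * G ^ 2 * J ^ 2) / (25 * C ^ 2 * H ^ 2 * K * y * E)) ^ 13 / (135000 * (6 * B * G / (5 * C * E)) ^ 16 * (36 * x * B * G * J / (25 * C * H * y * E)) ^ 12 * (8 * B ^ 2 * G ^ 2 * J ^ 2 / (5 * C ^ 2 * H ^ 2 * K * y ^ 2)) ^ 11 * (-(144 * B ^ 2 * G ^ 2 * J ^ 2) / (125 * C * H ^ 2 * K * y *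 E ^ 2)) ^ 22))⁻¹)) =
      hk (sy (ev [x, B, C, H, K, y, E, G, J, 2, 3, 5] (false, [-2, 1, 1, 0, 0, 2, -1, -1, 0, 0, 0, 0]))) (lg (evl [x, B, C, H, K, y, E, G, J, 2, 3, 5] [11, 12, -3, 0, 11, -12, -3, 16, -22, -5, -3, -1])) :=
  hkc10b
    (by
      simp only [ev, evl_cons, evl_nil_left, evl_nil_right, cond_true, cond_false, zpow_neg, zpow_ofNat, zpow_zero, zpow_one]
      field_simp
      try ring)
    (by
      simp only [ev, evl_cons, evl_nil_left, evl_nil_right, cond_true, cond_false, zpow_neg, zpow_ofNat, zpow_zero, zpow_one]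
      field_simp
      try ring)

end eq

end Pool.Agent.FK4
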