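import Pool.Agent.Lib_helper54.FAM.LK10bh

set_option autoImplicit false
set_option linter.unusedSectionVars false
set_option linter.unusedVariables false
set_option linter.unusedSimpArgs false
set_option linter.unusedTactic false
set_option linter.unreachableTactic false
set_option maxRecDepth 100000

/-!
# The second special curve with a point of order ten: monomials, part 3
-/

open scoped TensorProduct

namespace Pool.Agent.FK4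

open Pool.Agent.MK4 Pool.Agent.TN Pool.Agent.KC72

section eq

variable {F : Type*} [Field F] [CharZero F] {x B C H K y E G J : F}

theorem c10b_16 (A0 : x ≠ 0) (B0 : B ≠ 0) (C0 : C ≠ 0) (H0 : H ≠ 0) (K0 : K ≠ 0) (D0 : y ≠ 0) (E0 : E ≠ 0) (G0 : G ≠ 0) (J0 : J ≠ 0) :
    hk (sy (2 * (6 * C * J / (25 * H * G)) ^ 2 * (12 * B * C * J ^ 2 / (25 * H * K * E * G)) / ((12 * C ^ 2 * J ^ 2 / (125 * H * K * G ^ 2)) * (-(24 * B * C ^ 2 * J ^ 2) / (125 * H ^ 2 * K * E * G))))) (lg (24 * (-(24 * x * B * C * J ^ 2) / (25 * H ^ 2 * K * y * E)) ^ 2 * (-(48 * B * J ^ 2) / (125 * H ^ 2 * K * y)) * (48 * x * B * C * J ^ 2 / (125 * H ^ 2 * K * y * G)) ^ 3 / (15625 * (12 * B * C * J ^ 2 / (25 * H * K * E * G)) ^ 4 * (16 * J ^ 2 / (25 * H ^ 2 * K)) ^ 2 * (12 * C ^ 2 * J ^ 2 / (125 * H * K * G ^ 2)) ^ 2 * (-(96 * C * J ^ 2) / (625 * H ^ 2 * K * G))))) =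
      hk (sy (ev [x, B, C, H, K, y, E, G, J, 2, 3, 5] (true, [0, 0, -1, 0, 1, 0, 0, 0, 0, 0, 1, 0]))) (lg (evl [x, B, C, H, K, y, E, G, J, 2, 3, 5] [5, 2, -4, 0, 3, -6, 2, 6, -6, 0, 0, 0])) :=
  hkc10b
    (by
      simp only [ev, evl_cons, evl_nil_left, evl_nil_right, cond_true, cond_false, zpow_neg, zpow_ofNat, zpow_zero, zpow_one]
      field_simp
      try ring)
    (by
      simp only [ev, evl_cons, evl_nil_left, evl_nil_right, cond_true, cond_false, zpow_neg, zpow_ofNat, zpow_zero, zpow_one]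
      field_simp
      try ring)

theorem c10b_17 (A0 : x ≠ 0) (B0 : B ≠ 0) (C0 : C ≠ 0) (H0 : H ≠ 0) (K0 : K ≠ 0) (D0 : y ≠ 0) (E0 : E ≠ 0) (G0 : G ≠ 0) (J0 : J ≠ 0) :
    hk (sy ((6 * C * J / (25 * H * G)) ^ 2 / (12 * C ^ 2 * J ^ 2 / (125 * H * K * G ^ 2)))) (lg ((46875 * (12 * B * C * J ^ 2 / (25 * H * K * E * G)) ^ 5 * (16 * J ^ 2 / (25 * H ^ 2 * K)) ^ 3 * (12 * C ^ 2 * J ^ 2 / (125 * H * K * G ^ 2)) * (-(24 * B * C ^ 2 * J ^ 2) / (125 * H ^ 2 * K * E * G)) ^ 2 * (-(96 * C * J ^ 2) / (625 * H ^ 2 * K * G)) ^ 3 / (4 * (-(24 * x * B * C * J ^ 2) / (25 * H ^ 2 * K * y * E)) ^ 5 * (-(48 * B * J ^ 2) / (125 * H ^ 2 * K * y)) ^ 3 * (48 * x * B * C * J ^ 2 / (125 * H ^ 2 * K * y * G)) ^ 4)) ^ 6)) =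
      hk (sy (ev [x, B, C, H, K, y, E, G, J, 2, 3, 5] (false, [0, 0, 0, -1, 1, 0, 0, 0, 0, 0, 1, -1]))) (lg (evl [x, B, C, H, K, y, E, G, J, 2, 3, 5] [-54, -30, 30, 12, -12, 72, -12, -48, 24, 0, 0, 0])) :=
  hkc10b
    (by
      simp only [ev, evl_cons, evl_nil_left, evl_nil_right, cond_true, cond_false, zpow_neg, zpow_ofNat, zpow_zero, zpow_one]
      field_simp
      try ring)
    (by
      simp only [ev, evl_cons, evl_nil_left, evl_nil_right, cond_true, cond_false, zpow_neg, zpow_ofNat, zpow_zero, zpow_one]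
      field_simp
      try ring)

theorem c10b_18 (A0 : x ≠ 0) (B0 : B ≠ 0) (C0 : C ≠ 0) (H0 : H ≠ 0) (K0 : K ≠ 0) (D0 : y ≠ 0) (E0 : E ≠ 0) (G0 : G ≠ 0) (J0 : J ≠ 0) :
    hk (sy (6 * (6 * C * J / (25 * H * G)) ^ 3 / (5 * (12 * C ^ 2 * J ^ 2 / (125 * H * K * G ^ 2)) ^ 2))) (lg ((12 * B * C * J ^ 2 / (25 * H * K * E * G)) * (16 * J ^ 2 / (25 * H ^ 2 * K)) ^ 2 * (48 * x * B * C * J ^ 2 / (125 * H ^ 2 * K * y * G)) ^ 22 / (135000 * (12 * C ^ 2 * J ^ 2 / (125 * H * K * G ^ 2)) ^ 12 * (-(24 * B * C ^ 2 * J ^ 2) / (125 * H ^ 2 * K * E * G)) * (-(96 * C * J ^ 2) / (625 * H ^ 2 * K * G)) ^ 13))) =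
      hk (sy (ev [x, B, C, H, K, y, E, G, J, 2, 3, 5] (false, [0, 0, -1, -1, 2, 0, 0, 1, -1, 0, 2, -1]))) (lg (evl [x, B, C, H, K, y, E, G, J, 2, 3, 5] [22, 22, -16, -9, 1, -22, 0, 15, -2, 3, -6, 15])) :=
  hkc10b
    (by
      simp only [ev, evl_cons, evl_nil_left, evl_nil_right, cond_true, cond_false, zpow_neg, zpow_ofNat, zpow_zero, zpow_one]
      field_simp
      try ring)
    (by
      simp only [ev, evl_cons, evl_nil_left, evl_nil_right, cond_true, cond_false, zpow_neg, zpow_ofNat, zpow_zero, zpow_one]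
      field_simp
      try ring)

theorem c10b_19 (A0 : x ≠ 0) (B0 : B ≠ 0) (C0 : C ≠ 0) (H0 : H ≠ 0) (K0 : K ≠ 0) (D0 : y ≠ 0) (E0 : E ≠ 0) (G0 : G ≠ 0) (J0 : J ≠ 0) :
    hk (sy (6 * (12 * C ^ 2 * J ^ 2 / (125 * H * K * G ^ 2)) ^ 2 / (5 * (6 * C * J / (25 * H * G)) * (12 * B * C * J ^ 2 / (25 * H * K * E * G)) ^ 2))) (lg (((-(24 * x * B * C * J ^ 2) / (25 * H ^ 2 * K * y * E)) ^ 21 * (-(48 * B * J ^ 2) / (125 * H ^ 2 * K * y)) ^ 9 * (12 * C ^ 2 * J ^ 2 / (125 * H * K * G ^ 2)) ^ 12 * (-(24 * B * C ^ 2 * J ^ 2) / (125 * H ^ 2 * K * E * G)) * (-(96 * C * J ^ 2) / (625 * H ^ 2 * K * G)) ^ 13 / (135000 * (6 * C * J / (25 * H * G)) ^ 16 * (12 * B * C * J ^ 2 / (25 * H * K * E * G)) ^ 12 * (16 * J ^ 2 / (25 * H ^ 2 * K)) ^ 11 * (48 * x * B * C * J ^ 2 / (125 * H ^ 2 * K * y * G)) ^ 22))⁻¹)) =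
      hk (sy (ev [x, B, C, H, K, y, E, G, J, 2, 3, 5] (false, [0, -2, 1, 1, 0, 0, 2, -1, -1, 0, 0, -1]))) (lg (evl [x, B, C, H, K, y, E, G, J, 2, 3, 5] [1, 3, -10, 6, 11, 8, 10, -12, -6, -16, -3, 20])) :=
  hkc10b
    (by
      simp only [ev, evl_cons, evl_nil_left, evl_nil_right, cond_true, cond_false, zpow_neg, zpow_ofNat, zpow_zero, zpow_one]
      field_simp
      try ring)
    (by
      simp only [ev, evl_cons, evl_nil_left, evl_nil_right, cond_true, cond_false, zpow_neg, zpow_ofNat, zpow_zero, zpow_one]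
      field_simp
      try ring)

theorem c10b_20 (A0 : x ≠ 0) (B0 : B ≠ 0) (C0 : C ≠ 0) (H0 : H ≠ 0) (K0 : K ≠ 0) (D0 : y ≠ 0) (E0 : E ≠ 0) (G0 : G ≠ 0) (J0 : J ≠ 0) :
    hk (sy (2 * (-(2 * H) / (5 * K)) ^ 2 * (-(4 * C) / (25 * K)) / ((-(4 * H * G) / (25 * K * J)) * (8 * H * E / (25 * K * J))))) (lg (24 * (-(8 * B) / (5 * K)) ^ 2 * (-(16 * x) / (25 * K)) * (-(16 * H * y) / (25 * K * J)) ^ 3 / (15625 * (-(4 * C) / (25 * K)) ^ 4 * (32 / (125 * K)) ^ 2 * (-(4 * H * G) / (25 * K * J)) ^ 2 * (-(32 * x * H) / (125 * K * J))))) =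
      hk (sy (ev [x, B, C, H, K, y, E, G, J, 2, 3, 5] (false, [0, 0, 1, 0, -1, 0, -1, -1, 2, 0, 0, 0]))) (lg (evl [x, B, C, H, K, y, E, G, J, 2, 3, 5] [0, 2, -4, 0, 3, 3, 0, -2, 0, -2, 1, 5])) :=
  hkc10b'
    (by
      simp only [ev, evl_cons, evl_nil_left, evl_nil_right, cond_true, cond_false, zpow_neg, zpow_ofNat, zpow_zero, zpow_one]
      field_simp
      try ring)
    (by
      simp only [ev, evl_cons, evl_nil_left, evl_nil_right, cond_true, cond_false, zpow_neg, zpow_ofNat, zpow_zero, zpow_one]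
      field_simp
      try ring)

theorem c10b_21 (A0 : x ≠ 0) (B0 : B ≠ 0) (C0 : C ≠ 0) (H0 : H ≠ 0) (K0 : K ≠ 0) (D0 : y ≠ 0) (E0 : E ≠ 0) (G0 : G ≠ 0) (J0 : J ≠ 0) :
    hk (sy ((-(2 * H) / (5 * K)) ^ 2 / (-(4 * H * G) / (25 * K * J)))) (lg ((46875 * (-(4 * C) / (25 * K)) ^ 5 * (32 / (125 * K)) ^ 3 * (-(4 * H * G) / (25 * K * J)) * (8 * H * E / (25 * K * J)) ^ 2 * (-(32 * x * H) / (125 * K * J)) ^ 3 / (4 * (-(8 * B) / (5 * K)) ^ 5 * (-(16 * x) / (25 * K)) ^ 3 * (-(16 * H * y) / (25 * K * J)) ^ 4)) ^ 6)) =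
      hk (sy (ev [x, B, C, H, K, y, E, G, J, 2, 3, 5] (true, [0, 0, 0, 1, -1, 0, 0, -1, 1, 0, 0, 0]))) (lg (evl [x, B, C, H, K, y, E, G, J, 2, 3, 5] [0, -30, 30, 12, -12, -24, 12, 6, -12, 18, 6, -54])) :=
  hkc10b
    (by
      simp only [ev, evl_cons, evl_nil_left, evl_nil_right, cond_true, cond_false, zpow_neg, zpow_ofNat, zpow_zero, zpow_one]
      field_simp
      try ring)
    (by
      simp only [ev, evl_cons, evl_nil_left, evl_nil_right, cond_true, cond_false, zpow_neg, zpow_ofNat, zpow_zero, zpow_one]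
      field_simp
      try ring)

theorem c10b_22 (A0 : x ≠ 0) (B0 : B ≠ 0) (C0 : C ≠ 0) (H0 : H ≠ 0) (K0 : K ≠ 0) (D0 : y ≠ 0) (E0 : E ≠ 0) (G0 : G ≠ 0) (J0 : J ≠ 0) :
    hk (sy (6 * (-(2 * H) / (5 * K)) ^ 3 / (5 * (-(4 * H * G) / (25 * K * J)) ^ 2))) (lg ((-(4 * C) / (25 * K)) * (32 / (125 * K)) ^ 2 * (-(16 * H * y) / (25 * K * J)) ^ 22 / (135000 * (-(4 * H * G) / (25 * K * J)) ^ 12 * (8 * H * E / (25 * K * J)) * (-(32 * x * H) / (125 * K * J)) ^ 13))) =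
      hk (sy (ev [x, B, C, H, K, y, E, G, J, 2, 3, 5] (true, [0, 0, 0, 1, -1, 0, 0, -2, 2, 0, 1, 0]))) (lg (evl [x, B, C, H, K, y, E, G, J, 2, 3, 5] [-13, 0, 1, -4, 1, 22, -1, -12, 4, 5, -3, 9])) :=
  hkc10b
    (by
      simp only [ev, evl_cons, evl_nil_left, evl_nil_right, cond_true, cond_false, zpow_neg, zpow_ofNat, zpow_zero, zpow_one]
      field_simp
      try ring)
    (by
      simp only [ev, evl_cons, evl_nil_left, evl_nil_right, cond_true, cond_false, zpow_neg, zpow_ofNat, zpow_zero, zpow_one]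
      field_simp
      try ring)

theorem c10b_23 (A0 : x ≠ 0) (B0 : B ≠ 0) (C0 : C ≠ 0) (H0 : H ≠ 0) (K0 : K ≠ 0) (D0 : y ≠ 0) (E0 : E ≠ 0) (G0 : G ≠ 0) (J0 : J ≠ 0) :
    hk (sy (6 * (-(4 * H * G) / (25 * K * J)) ^ 2 / (5 * (-(2 * H) / (5 * K)) * (-(4 * C) / (25 * K)) ^ 2))) (lg (((-(8 * B) / (5 * K)) ^ 21 * (-(16 * x) / (25 * K)) ^ 9 * (-(4 * H * G) / (25 * K * J)) ^ 12 * (8 * H * E / (25 * K * J)) * (-(32 * x * H) / (125 * K * J)) ^ 13 / (135000 * (-(2 * H) / (5 * K)) ^ 16 * (-(4 * C) / (25 * K)) ^ 12 * (32 / (125 * K)) ^ 11 * (-(16 * H * y) / (25 * K * J)) ^ 22))⁻¹)) =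
      hk (sy (ev [x, B, C, H, K, y, E, G, J, 2, 3, 5] (true, [0, 0, -2, 1, 1, 0, 0, 2, -2, 0, 1, 0]))) (lg (evl [x, B, C, H, K, y, E, G, J, 2, 3, 5] [-22, -21, 12, 12, -5, 22, -1, -12, 4, -5, 3, -9])) :=
  hkc10b'
    (by
      simp only [ev, evl_cons, evl_nil_left, evl_nil_right, cond_true, cond_false, zpow_neg, zpow_ofNat, zpow_zero, zpow_one]
      field_simp
      try ring)
    (by
      simp only [ev, evl_cons, evl_nil_left, evl_nil_right, cond_true, cond_false, zpow_neg, zpow_ofNat, zpow_zero, zpow_one]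
      field_simp
      try ring)

end eq

end Pool.Agent.FK4
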