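import Pool.Agent.Lib_helper54.FAM.LK10bh

set_option autoImplicit false
set_option linter.unusedSectionVars false
set_option linter.unusedVariables false
set_option linter.unusedSimpArgs false
set_option linter.unusedTactic false
set_option linter.unreachableTactic false
set_option maxRecDepth 100000

/-!
# The second special curve with a point of order ten: monomials, part 4
-/

open scoped TensorProduct

namespace Pool.Agent.FK4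

open Pool.Agent.MK4 Pool.Agent.TN Pool.Agent.KC72

section eq

variable {F : Type*} [Field F] [CharZero F] {x B C H K y E G J : F}

theorem c10b_24 (A0 : x ≠ 0) (B0 : B ≠ 0) (C0 : C ≠ 0) (H0 : H ≠ 0) (K0 : K ≠ 0) (D0 : y ≠ 0) (E0 : E ≠ 0) (G0 : G ≠ 0) (J0 : J ≠ 0) :
    hk (sy (2 * (6 * K * G / (25 * H * J)) ^ 2 * (12 * K * E * G / (25 * C * J ^ 2)) / ((-(36 * K ^ 2 * E * G) / (125 * C * H * J ^ 2)) * (-(72 * K ^ 2 * y * E * G) / (125 * B * C * J ^ 3))))) (lg (24 * (-(24 * K * y * E) / (25 * B * J ^ 2)) ^ 2 * (48 * K * y / (125 * J ^ 2)) * (144 * K ^ 2 * y * E / (625 * B * J ^ 3)) ^ 3 / (15625 * (12 * K * E * G / (25 * C * J ^ 2)) ^ 4 * (16 * x ^ 2 * K / (25 * J ^ 2)) ^ 2 * (-(36 * K ^ 2 * E * G) / (125 * C * H * J ^ 2)) ^ 2 * (-(48 * x * K ^ 2 * y) / (125 * J ^ 3))))) =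
      hk (sy (ev [x, B, C, H, K, y, E, G, J, 2, 3, 5] (false, [0, 1, 1, -1, -1, -1, -1, 1, 1, 0, -1, 0]))) (lg (evl [x, B, C, H, K, y, E, G, J, 2, 3, 5] [-5, -5, 6, 2, -3, 5, -1, -6, 4, 1, 1, -4])) :=
  hkc10b'
    (by
      simp only [ev, evl_cons, evl_nil_left, evl_nil_right, cond_true, cond_false, zpow_neg, zpow_ofNat, zpow_zero, zpow_one]
      field_simp
      try ring)
    (by
      simp only [ev, evl_cons, evl_nil_left, evl_nil_right, cond_true, cond_false, zpow_neg, zpow_ofNat, zpow_zero, zpow_one]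
      field_simp
      try ring)

theorem c10b_25 (A0 : x ≠ 0) (B0 : B ≠ 0) (C0 : C ≠ 0) (H0 : H ≠ 0) (K0 : K ≠ 0) (D0 : y ≠ 0) (E0 : E ≠ 0) (G0 : G ≠ 0) (J0 : J ≠ 0) :
    hk (sy ((6 * K * G / (25 * H * J)) ^ 2 / (-(36 * K ^ 2 * E * G) / (125 * C * H * J ^ 2)))) (lg ((46875 * (12 * K * E * G / (25 * C * J ^ 2)) ^ 5 * (16 * x ^ 2 * K / (25 * J ^ 2)) ^ 3 * (-(36 * K ^ 2 * E * G) / (125 * C * H * J ^ 2)) * (-(72 * K ^ 2 * y * E * G) / (125 * B * C * J ^ 3)) ^ 2 * (-(48 * x * K ^ 2 * y) / (125 * J ^ 3)) ^ 3 / (4 * (-(24 * K * y * E) / (25 * B * J ^ 2)) ^ 5 * (48 * K * y / (125 * J ^ 2)) ^ 3 * (144 * K ^ 2 * y * E / (625 * B * J ^ 3)) ^ 4)) ^ 6)) =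
      hk (sy (ev [x, B, C, H, K, y, E, G, J, 2, 3, 5] (true, [0, 0, 1, -1, 0, 0, -1, 1, 0, 0, 0, -1]))) (lg (evl [x, B, C, H, K, y, E, G, J, 2, 3, 5] [54, 42, -48, -6, 24, -42, -6, 48, -30, -18, -6, 42])) :=
  hkc10b
    (by
      simp only [ev, evl_cons, evl_nil_left, evl_nil_right, cond_true, cond_false, zpow_neg, zpow_ofNat, zpow_zero, zpow_one]
      field_simp
      try ring)
    (by
      simp only [ev, evl_cons, evl_nil_left, evl_nil_right, cond_true, cond_false, zpow_neg, zpow_ofNat, zpow_zero, zpow_one]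
      field_simp
      try ring)

theorem c10b_26 (A0 : x ≠ 0) (B0 : B ≠ 0) (C0 : C ≠ 0) (H0 : H ≠ 0) (K0 : K ≠ 0) (D0 : y ≠ 0) (E0 : E ≠ 0) (G0 : G ≠ 0) (J0 : J ≠ 0) :
    hk (sy (6 * (6 * K * G / (25 * H * J)) ^ 3 / (5 * (-(36 * K ^ 2 * E * G) / (125 * C * H * J ^ 2)) ^ 2))) (lg ((12 * K * E * G / (25 * C * J ^ 2)) * (16 * x ^ 2 * K / (25 * J ^ 2)) ^ 2 * (144 * K ^ 2 * y * E / (625 * B * J ^ 3)) ^ 22 / (135000 * (-(36 * K ^ 2 * E * G) / (125 * C * H * J ^ 2)) ^ 12 * (-(72 * K ^ 2 * y * E * G) / (125 * B * C * J ^ 3)) * (-(48 * x * K ^ 2 * y) / (125 * J ^ 3)) ^ 13))) =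
      hk (sy (ev [x, B, C, H, K, y, E, G, J, 2, 3, 5] (false, [0, 0, 2, -1, -1, 0, -2, 1, 1, 0, 0, -1]))) (lg (evl [x, B, C, H, K, y, E, G, J, 2, 3, 5] [-9, -21, 12, 12, -5, 8, 10, -12, -6, 16, 3, -20])) :=
  hkc10b
    (by
      simp only [ev, evl_cons, evl_nil_left, evl_nil_right, cond_true, cond_false, zpow_neg, zpow_ofNat, zpow_zero, zpow_one]
      field_simp
      try ring)
    (by
      simp only [ev, evl_cons, evl_nil_left, evl_nil_right, cond_true, cond_false, zpow_neg, zpow_ofNat, zpow_zero, zpow_one]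
      field_simp
      try ring)

theorem c10b_27 (A0 : x ≠ 0) (B0 : B ≠ 0) (C0 : C ≠ 0) (H0 : H ≠ 0) (K0 : K ≠ 0) (D0 : y ≠ 0) (E0 : E ≠ 0) (G0 : G ≠ 0) (J0 : J ≠ 0) :
    hk (sy (6 * (-(36 * K ^ 2 * E * G) / (125 * C * H * J ^ 2)) ^ 2 / (5 * (6 * K * G / (25 * H * J)) * (12 * K * E * G / (25 * C * J ^ 2)) ^ 2))) (lg (((-(24 * K * y * E) / (25 * B * J ^ 2)) ^ 21 * (48 * K * y / (125 * J ^ 2)) ^ 9 * (-(36 * K ^ 2 * E * G) / (125 * C * H * J ^ 2)) ^ 12 * (-(72 * K ^ 2 * y * E * G) / (125 * B * C * J ^ 3)) * (-(48 * x * K ^ 2 * y) / (125 * J ^ 3)) ^ 13 / (135000 * (6 * K * G / (25 * H * J)) ^ 16 * (12 * K * E * G / (25 * C * J ^ 2)) ^ 12 * (16 * x ^ 2 * K / (25 * J ^ 2)) ^ 11 * (144 * K ^ 2 * y * E / (625 * B * J ^ 3)) ^ 22))⁻¹)) =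
      hk (sy (ev [x, B, C, H, K, y, E, G, J, 2, 3, 5] (false, [0, 0, 0, -1, 1, 0, 0, -1, 1, 0, 2, -1]))) (lg (evl [x, B, C, H, K, y, E, G, J, 2, 3, 5] [9, 0, 1, -4, 1, -22, 0, 15, -2, -3, 6, -15])) :=
  hkc10b'
    (by
      simp only [ev, evl_cons, evl_nil_left, evl_nil_right, cond_true, cond_false, zpow_neg, zpow_ofNat, zpow_zero, zpow_one]
      field_simp
      try ring)
    (by
      simp only [ev, evl_cons, evl_nil_left, evl_nil_right, cond_true, cond_false, zpow_neg, zpow_ofNat, zpow_zero, zpow_one]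
      field_simp
      try ring)

theorem c10b_28 (A0 : x ≠ 0) (B0 : B ≠ 0) (C0 : C ≠ 0) (H0 : H ≠ 0) (K0 : K ≠ 0) (D0 : y ≠ 0) (E0 : E ≠ 0) (G0 : G ≠ 0) (J0 : J ≠ 0) :
    hk (sy (2 * (6 * H * E / (5 * C * G)) ^ 2 * (36 * H * K * y * E / (25 * B * C * G * J)) / ((36 * H ^ 2 * y * E / (25 * B * C * G ^ 2)) * (-(216 * H ^ 2 * K * y * E) / (125 * B * C * G ^ 2 * J))))) (lg (24 * (-(72 * H ^ 2 * K * y * E) / (25 * B * C * G * J ^ 2)) ^ 2 * (24 * x * H ^ 2 * K * y * E / (25 * B * G ^ 2 * J ^ 2)) * (72 * x * H ^ 3 * K * y * E / (25 * B * C * G ^ 2 * J ^ 2)) ^ 3 / (15625 * (36 * H * K * y * E / (25 * B * C * G * J)) ^ 4 * (8 * H ^ 2 * K * y ^ 2 / (5 * G ^ 2 * J ^ 2)) ^ 2 * (36 * H ^ 2 * y * E / (25 * B * C * G ^ 2)) ^ 2 * (24 * H ^ 3 * K * y ^ 2 * E / (25 * B * G ^ 3 * J ^ 2))))) =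
      hk (sy (ev [x, B, C, H, K, y, E, G, J, 2, 3, 5] (true, [0, 1, -1, -1, 0, -1, 1, 1, 0, 0, -1, 1]))) (lg (evl [x, B, C, H, K, y, E, G, J, 2, 3, 5] [4, 1, 1, 0, -1, -6, -1, 5, -2, 0, -1, -2])) :=
  hkc10b
    (by
      simp only [ev, evl_cons, evl_nil_left, evl_nil_right, cond_true, cond_false, zpow_neg, zpow_ofNat, zpow_zero, zpow_one]
      field_simp
      try ring)
    (by
      simp only [ev, evl_cons, evl_nil_left, evl_nil_right, cond_true, cond_false, zpow_neg, zpow_ofNat, zpow_zero, zpow_one]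
      field_simp
      try ring)

theorem c10b_29 (A0 : x ≠ 0) (B0 : B ≠ 0) (C0 : C ≠ 0) (H0 : H ≠ 0) (K0 : K ≠ 0) (D0 : y ≠ 0) (E0 : E ≠ 0) (G0 : G ≠ 0) (J0 : J ≠ 0) :
    hk (sy ((6 * H * E / (5 * C * G)) ^ 2 / (36 * H ^ 2 * y * E / (25 * B * C * G ^ 2)))) (lg ((46875 * (36 * H * K * y * E / (25 * B * C * G * J)) ^ 5 * (8 * H ^ 2 * K * y ^ 2 / (5 * G ^ 2 * J ^ 2)) ^ 3 * (36 * H ^ 2 * y * E / (25 * B * C * G ^ 2)) * (-(216 * H ^ 2 * K * y * E) / (125 * B * C * G ^ 2 * J)) ^ 2 * (24 * H ^ 3 * K * y ^ 2 * E / (25 * B * G ^ 3 * J ^ 2)) ^ 3 / (4 * (-(72 * H ^ 2 * K * y * E) / (25 * B * C * G * J ^ 2)) ^ 5 * (24 * x * H ^ 2 * K * y * E / (25 * B * G ^ 2 * J ^ 2)) ^ 3 * (72 * x * H ^ 3 * K * y * E / (25 * B * C * G ^ 2 * J ^ 2)) ^ 4)) ^ 6)) =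
      hk (sy (ev [x, B, C, H, K, y, E, G, J, 2, 3, 5] (false, [0, 1, -1, 0, 0, -1, 1, 0, 0, 0, 0, 0]))) (lg (evl [x, B, C, H, K, y, E, G, J, 2, 3, 5] [-42, 6, 6, -12, 6, 48, -6, -42, 30, -12, 6, 18])) :=
  hkc10b
    (by
      simp only [ev, evl_cons, evl_nil_left, evl_nil_right, cond_true, cond_false, zpow_neg, zpow_ofNat, zpow_zero, zpow_one]
      field_simp
      try ring)
    (by
      simp only [ev, evl_cons, evl_nil_left, evl_nil_right, cond_true, cond_false, zpow_neg, zpow_ofNat, zpow_zero, zpow_one]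
      field_simp
      try ring)

theorem c10b_30 (A0 : x ≠ 0) (B0 : B ≠ 0) (C0 : C ≠ 0) (H0 : H ≠ 0) (K0 : K ≠ 0) (D0 : y ≠ 0) (E0 : E ≠ 0) (G0 : G ≠ 0) (J0 : J ≠ 0) :
    hk (sy (6 * (6 * H * E / (5 * C * G)) ^ 3 / (5 * (36 * H ^ 2 * y * E / (25 * B * C * G ^ 2)) ^ 2))) (lg ((36 * H * K * y * E / (25 * B * C * G * J)) * (8 * H ^ 2 * K * y ^ 2 / (5 * G ^ 2 * J ^ 2)) ^ 2 * (72 * x * H ^ 3 * K * y * E / (25 * B * C * G ^ 2 * J ^ 2)) ^ 22 / (135000 * (36 * H ^ 2 * y * E / (25 * B * C * G ^ 2)) ^ 12 * (-(216 * H ^ 2 * K * y * E) / (125 * B * C * G ^ 2 * J)) * (24 * H ^ 3 * K * y ^ 2 * E / (25 * B * G ^ 3 * J ^ 2)) ^ 13))) =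
      hk (sy (ev [x, B, C, H, K, y, E, G, J, 2, 3, 5] (false, [0, 2, -1, -1, 0, -2, 1, 1, 0, 0, 0, 0]))) (lg (evl [x, B, C, H, K, y, E, G, J, 2, 3, 5] [22, 3, -10, 6, 11, -12, -3, 16, -22, 5, 3, 1])) :=
  hkc10b'
    (by
      simp only [ev, evl_cons, evl_nil_left, evl_nil_right, cond_true, cond_false, zpow_neg, zpow_ofNat, zpow_zero, zpow_one]
      field_simp
      try ring)
    (by
      simp only [ev, evl_cons, evl_nil_left, evl_nil_right, cond_true, cond_false, zpow_neg, zpow_ofNat, zpow_zero, zpow_one]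
      field_simp
      try ring)

theorem c10b_31 (A0 : x ≠ 0) (B0 : B ≠ 0) (C0 : C ≠ 0) (H0 : H ≠ 0) (K0 : K ≠ 0) (D0 : y ≠ 0) (E0 : E ≠ 0) (G0 : G ≠ 0) (J0 : J ≠ 0) :
    hk (sy (6 * (36 * H ^ 2 * y * E / (25 * B * C * G ^ 2)) ^ 2 / (5 * (6 * H * E / (5 * C * G)) * (36 * H * K * y * E / (25 * B * C * G * J)) ^ 2))) (lg (((-(72 * H ^ 2 * K * y * E) / (25 * B * C * G * J ^ 2)) ^ 21 * (24 * x * H ^ 2 * K * y * E / (25 * B * G ^ 2 * J ^ 2)) ^ 9 * (36 * H ^ 2 * y * E / (25 * B * C * G ^ 2)) ^ 12 * (-(216 * H ^ 2 * K * y * E) / (125 * B * C * G ^ 2 * J)) * (24 * H ^ 3 * K * y ^ 2 * E / (25 * B * G ^ 3 * J ^ 2)) ^ 13 / (135000 * (6 * H * E / (5 * C * G)) ^ 16 * (36 * H * K * y * E / (25 * B * C * G * J)) ^ 12 * (8 * H ^ 2 * K * y ^ 2 / (5 * G ^ 2 * J ^ 2)) ^ 11 * (72 * x * H ^ 3 * K * y * E / (25 * B * C * G ^ 2 * J ^ 2)) ^ 22))⁻¹)) =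
      hk (sy (ev [x, B, C, H, K, y, E, G, J, 2, 3, 5] (false, [0, 0, 1, 1, -2, 0, -1, -1, 2, 0, 0, 0]))) (lg (evl [x, B, C, H, K, y, E, G, J, 2, 3, 5] [13, 22, -16, -9, 1, -13, -6, 10, 9, -14, -4, 22])) :=
  hkc10b
    (by
      simp only [ev, evl_cons, evl_nil_left, evl_nil_right, cond_true, cond_false, zpow_neg, zpow_ofNat, zpow_zero, zpow_one]
      field_simp
      try ring)
    (by
      simp only [ev, evl_cons, evl_nil_left, evl_nil_right, cond_true, cond_false, zpow_neg, zpow_ofNat, zpow_zero, zpow_one]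
      field_simp
      try ring)

end eq

end Pool.Agent.FK4
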