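import Pool.Agent.Lib_helper54.FAM.LK10bh

set_option autoImplicit false
set_option linter.unusedSectionVars false
set_option linter.unusedVariables false
set_option linter.unusedSimpArgs false
set_option linter.unusedTactic false
set_option linter.unreachableTactic false
set_option maxRecDepth 100000

/-!
# The second special curve with a point of order ten: monomials, part 5
-/

open scoped TensorProduct

namespace Pool.Agent.FK4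

open Pool.Agent.MK4 Pool.Agent.TN Pool.Agent.KC72

section eq

variable {F : Type*} [Field F] [CharZero F] {x B C H K y E G J : F}

theorem c10b_32 (A0 : x ≠ 0) (B0 : B ≠ 0) (C0 : C ≠ 0) (H0 : H ≠ 0) (K0 : K ≠ 0) (D0 : y ≠ 0) (E0 : E ≠ 0) (G0 : G ≠ 0) (J0 : J ≠ 0) :
    hk (sy (2 * (-(6 * C * y) / (25 * B * E)) ^ 2 * (-(36 * C * H * y) / (125 * B * E * G)) / ((-(36 * C ^ 2 * y) / (625 * B * E ^ 2)) * (36 * x * C ^ 2 * H * y / (125 * B * E ^ 2 * G))))) (lg (24 * (-(36 * x * C * H * K * y) / (25 * B * E * G * J)) ^ 2 * (-(12 * C * H ^ 2 * K * y ^ 2) / (25 * B * E * G * J ^ 2)) * (-(36 * C ^ 2 * H * K * y ^ 2) / (125 * B * E ^ 2 * G * J)) ^ 3 / (15625 * (-(36 * C * H * y) / (125 * B * E * G)) ^ 4 * (4 * C ^ 2 * H ^ 2 * K * y ^ 2 / (25 * B ^ 2 * G ^ 2 * J ^ 2)) ^ 2 * (-(36 * C ^ 2 * y) / (625 * B * E ^ 2)) ^ 2 * (12 * C ^ 2 * H ^ 2 * K * y ^ 2 / (125 *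 B ^ 2 * E * G * J ^ 2))))) =
      hk (sy (ev [x, B, C, H, K, y, E, G, J, 2, 3, 5] (false, [-1, -1, -1, 0, 0, 1, 1, 0, 0, 1, 0, 0]))) (lg (evl [x, B, C, H, K, y, E, G, J, 2, 3, 5] [2, 6, -5, -3, 3, -2, 0, 3, -1, -3, -1, 6])) :=
  hkc10b
    (by
      simp only [ev, evl_cons, evl_nil_left, evl_nil_right, cond_true, cond_false, zpow_neg, zpow_ofNat, zpow_zero, zpow_one]
      field_simp
      try ring)
    (by
      simp only [ev, evl_cons, evl_nil_left, evl_nil_right, cond_true, cond_false, zpow_neg, zpow_ofNat, zpow_zero, zpow_one]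
      field_simp
      try ring)

theorem c10b_33 (A0 : x ≠ 0) (B0 : B ≠ 0) (C0 : C ≠ 0) (H0 : H ≠ 0) (K0 : K ≠ 0) (D0 : y ≠ 0) (E0 : E ≠ 0) (G0 : G ≠ 0) (J0 : J ≠ 0) :
    hk (sy ((-(6 * C * y) / (25 * B * E)) ^ 2 / (-(36 * C ^ 2 * y) / (625 * B * E ^ 2)))) (lg ((46875 * (-(36 * C * H * y) / (125 * B * E * G)) ^ 5 * (4 * C ^ 2 * H ^ 2 * K * y ^ 2 / (25 * B ^ 2 * G ^ 2 * J ^ 2)) ^ 3 * (-(36 * C ^ 2 * y) / (625 * B * E ^ 2)) * (36 * x * C ^ 2 * H * y / (125 * B * E ^ 2 * G)) ^ 2 * (12 * C ^ 2 * H ^ 2 * K * y ^ 2 / (125 * B ^ 2 * E * G * J ^ 2)) ^ 3 / (4 * (-(36 * x * C * H * K * y) / (25 * B * E * G * J)) ^ 5 * (-(12 * C * H ^ 2 * K * y ^ 2) / (25 * B * E * G * J ^ 2)) ^ 3 * (-(36 * C ^ 2 * H * K * y ^ 2) / (125 * B * E ^ 2 * G * J)) ^ 4)) ^ 6)) =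
      hk (sy (ev [x, B, C, H, K, y, E, G, J, 2, 3, 5] (true, [0, -1, 0, 0, 0, 1, 0, 0, 0, 0, 0, 0]))) (lg (evl [x, B, C, H, K, y, E, G, J, 2, 3, 5] [-18, -48, 42, 24, -36, 6, 12, -24, 18, 12, -6, -36])) :=
  hkc10b
    (by
      simp only [ev, evl_cons, evl_nil_left, evl_nil_right, cond_true, cond_false, zpow_neg, zpow_ofNat, zpow_zero, zpow_one]
      field_simp
      try ring)
    (by
      simp only [ev, evl_cons, evl_nil_left, evl_nil_right, cond_true, cond_false, zpow_neg, zpow_ofNat, zpow_zero, zpow_one]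
      field_simp
      try ring)

theorem c10b_34 (A0 : x ≠ 0) (B0 : B ≠ 0) (C0 : C ≠ 0) (H0 : H ≠ 0) (K0 : K ≠ 0) (D0 : y ≠ 0) (E0 : E ≠ 0) (G0 : G ≠ 0) (J0 : J ≠ 0) :
    hk (sy (6 * (-(6 * C * y) / (25 * B * E)) ^ 3 / (5 * (-(36 * C ^ 2 * y) / (625 * B * E ^ 2)) ^ 2))) (lg ((-(36 * C * H * y) / (125 * B * E * G)) * (4 * C ^ 2 * H ^ 2 * K * y ^ 2 / (25 * B ^ 2 * G ^ 2 * J ^ 2)) ^ 2 * (-(36 * C ^ 2 * H * K * y ^ 2) / (125 * B * E ^ 2 * G * J)) ^ 22 / (135000 * (-(36 * C ^ 2 * y) / (625 * B * E ^ 2)) ^ 12 * (36 * x * C ^ 2 * H * y / (125 * B * E ^ 2 * G)) * (12 * C ^ 2 * H ^ 2 * K * y ^ 2 / (125 * B ^ 2 * E * G * J ^ 2)) ^ 13))) =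
      hk (sy (ev [x, B, C, H, K, y, E, G, J, 2, 3, 5] (true, [0, -1, -1, 0, 0, 1, 1, 0, 0, 0, 0, 1]))) (lg (evl [x, B, C, H, K, y, E, G, J, 2, 3, 5] [-1, 12, -3, 0, 11, 10, -6, -13, 0, -5, 4, 13])) :=
  hkc10b'
    (by
      simp only [ev, evl_cons, evl_nil_left, evl_nil_right, cond_true, cond_false, zpow_neg, zpow_ofNat, zpow_zero, zpow_one]
      field_simp
      try ring)
    (by
      simp only [ev, evl_cons, evl_nil_left, evl_nil_right, cond_true, cond_false, zpow_neg, zpow_ofNat, zpow_zero, zpow_one]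
      field_simp
      try ring)

theorem c10b_35 (A0 : x ≠ 0) (B0 : B ≠ 0) (C0 : C ≠ 0) (H0 : H ≠ 0) (K0 : K ≠ 0) (D0 : y ≠ 0) (E0 : E ≠ 0) (G0 : G ≠ 0) (J0 : J ≠ 0) :
    hk (sy (6 * (-(36 * C ^ 2 * y) / (625 * B * E ^ 2)) ^ 2 / (5 * (-(6 * C * y) / (25 * B * E)) * (-(36 * C * H * y) / (125 * B * E * G)) ^ 2))) (lg (((-(36 * x * C * H * K * y) / (25 * B * E * G * J)) ^ 21 * (-(12 * C * H ^ 2 * K * y ^ 2) / (25 * B * E * G * J ^ 2)) ^ 9 * (-(36 * C ^ 2 * y) / (625 * B * E ^ 2)) ^ 12 * (36 * x * C ^ 2 * H * y / (125 * B * E ^ 2 * G)) * (12 * C ^ 2 * H ^ 2 * K * y ^ 2 / (125 * B ^ 2 * E * G * J ^ 2)) ^ 13 / (135000 * (-(6 * C * y) / (25 * B * E)) ^ 16 * (-(36 * C * H * y) / (125 * B * E * G)) ^ 12 * (4 * C ^ 2 * H ^ 2 * K * y ^ 2 / (25 * B ^ 2 * G ^ 2 * J ^ 2)) ^ 11 * (-(36 * C ^ 2 * H * K * y ^ 2) / (125 * B * E ^ 2 * G * J)) ^ 22))⁻¹)) =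
      hk (sy (ev [x, B, C, H, K, y, E, G, J, 2, 3, 5] (true, [0, 1, 1, -2, 0, -1, -1, 2, 0, 0, 0, -1]))) (lg (evl [x, B, C, H, K, y, E, G, J, 2, 3, 5] [-22, -3, 12, -10, -10, 16, -3, -12, 21, -3, -3, -2])) :=
  hkc10b
    (by
      simp only [ev, evl_cons, evl_nil_left, evl_nil_right, cond_true, cond_false, zpow_neg, zpow_ofNat, zpow_zero, zpow_one]
      field_simp
      try ring)
    (by
      simp only [ev, evl_cons, evl_nil_left, evl_nil_right, cond_true, cond_false, zpow_neg, zpow_ofNat, zpow_zero, zpow_one]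
      field_simp
      try ring)

theorem c10b_36 (A0 : x ≠ 0) (B0 : B ≠ 0) (C0 : C ≠ 0) (H0 : H ≠ 0) (K0 : K ≠ 0) (D0 : y ≠ 0) (E0 : E ≠ 0) (G0 : G ≠ 0) (J0 : J ≠ 0) :
    hk (sy (2 * (6 * B / (25 * y)) ^ 2 * (6 * x * B * C / (25 * y * E)) / ((-(6 * x * B ^ 2) / (25 * y ^ 2)) * (-(6 * B ^ 2 * C) / (25 * y * E))))) (lg (24 * (-(6 * B * C * H) / (5 * E * G)) ^ 2 * (-(6 * C * H * K) / (25 * G * J)) * (-(6 * B * C * H) / (25 * y * G)) ^ 3 / (15625 * (6 * x * B * C / (25 * y * E)) ^ 4 * (2 * H ^ 2 * K / (5 * J ^ 2)) ^ 2 * (-(6 * x * B ^ 2) / (25 * y ^ 2)) ^ 2 * (-(6 * B * H * K) / (25 * y * J))))) =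
      hk (sy (ev [x, B, C, H, K, y, E, G, J, 2, 3, 5] (false, [0, -1, 0, 0, 0, 0, 0, 0, 0, 2, 1, -2]))) (lg (evl [x, B, C, H, K, y, E, G, J, 2, 3, 5] [-6, -4, 2, 1, -2, 6, 2, -6, 4, 0, 0, 0])) :=
  hkc10b'
    (by
      simp only [ev, evl_cons, evl_nil_left, evl_nil_right, cond_true, cond_false, zpow_neg, zpow_ofNat, zpow_zero, zpow_one]
      field_simp
      try ring)
    (by
      simp only [ev, evl_cons, evl_nil_left, evl_nil_right, cond_true, cond_false, zpow_neg, zpow_ofNat, zpow_zero, zpow_one]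
      field_simp
      try ring)

theorem c10b_37 (A0 : x ≠ 0) (B0 : B ≠ 0) (C0 : C ≠ 0) (H0 : H ≠ 0) (K0 : K ≠ 0) (D0 : y ≠ 0) (E0 : E ≠ 0) (G0 : G ≠ 0) (J0 : J ≠ 0) :
    hk (sy ((6 * B / (25 * y)) ^ 2 / (-(6 * x * B ^ 2) / (25 * y ^ 2)))) (lg ((46875 * (6 * x * B * C / (25 * y * E)) ^ 5 * (2 * H ^ 2 * K / (5 * J ^ 2)) ^ 3 * (-(6 * x * B ^ 2) / (25 * y ^ 2)) * (-(6 * B ^ 2 * C) / (25 * y * E)) ^ 2 * (-(6 * B * H * K) / (25 * y * J)) ^ 3 / (4 * (-(6 * B * C * H) / (5 * E * G)) ^ 5 * (-(6 * C * H * K) / (25 * G * J)) ^ 3 * (-(6 * B * C * H) / (25 * y * G)) ^ 4)) ^ 6)) =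
      hk (sy (ev [x, B, C, H, K, y, E, G, J, 2, 3, 5] (true, [-1, 0, 0, 0, 0, 0, 0, 0, 0, 1, 1, -2]))) (lg (evl [x, B, C, H, K, y, E, G, J, 2, 3, 5] [36, 30, -30, -18, 18, -48, -12, 72, -36, 0, 0, 0])) :=
  hkc10b
    (by
      simp only [ev, evl_cons, evl_nil_left, evl_nil_right, cond_true, cond_false, zpow_neg, zpow_ofNat, zpow_zero, zpow_one]
      field_simp
      try ring)
    (by
      simp only [ev, evl_cons, evl_nil_left, evl_nil_right, cond_true, cond_false, zpow_neg, zpow_ofNat, zpow_zero, zpow_one]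
      field_simp
      try ring)

theorem c10b_38 (A0 : x ≠ 0) (B0 : B ≠ 0) (C0 : C ≠ 0) (H0 : H ≠ 0) (K0 : K ≠ 0) (D0 : y ≠ 0) (E0 : E ≠ 0) (G0 : G ≠ 0) (J0 : J ≠ 0) :
    hk (sy (6 * (6 * B / (25 * y)) ^ 3 / (5 * (-(6 * x * B ^ 2) / (25 * y ^ 2)) ^ 2))) (lg ((6 * x * B * C / (25 * y * E)) * (2 * H ^ 2 * K / (5 * J ^ 2)) ^ 2 * (-(6 * B * C * H) / (25 * y * G)) ^ 22 / (135000 * (-(6 * x * B ^ 2) / (25 * y ^ 2)) ^ 12 * (-(6 * B ^ 2 * C) / (25 * y * E)) * (-(6 * B * H * K) / (25 * y * J)) ^ 13))) =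
      hk (sy (ev [x, B, C, H, K, y, E, G, J, 2, 3, 5] (false, [-2, -1, 0, 0, 0, 1, 0, 0, 0, 2, 2, -3]))) (lg (evl [x, B, C, H, K, y, E, G, J, 2, 3, 5] [-11, -16, 22, 13, -11, 15, 0, -22, 9, -4, -6, 0])) :=
  hkc10b
    (by
      simp only [ev, evl_cons, evl_nil_left, evl_nil_right, cond_true, cond_false, zpow_neg, zpow_ofNat, zpow_zero, zpow_one]
      field_simp
      try ring)
    (by
      simp only [ev, evl_cons, evl_nil_left, evl_nil_right, cond_true, cond_false, zpow_neg, zpow_ofNat, zpow_zero, zpow_one]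
      field_simp
      try ring)

theorem c10b_39 (A0 : x ≠ 0) (B0 : B ≠ 0) (C0 : C ≠ 0) (H0 : H ≠ 0) (K0 : K ≠ 0) (D0 : y ≠ 0) (E0 : E ≠ 0) (G0 : G ≠ 0) (J0 : J ≠ 0) :
    hk (sy (6 * (-(6 * x * B ^ 2) / (25 * y ^ 2)) ^ 2 / (5 * (6 * B / (25 * y)) * (6 * x * B * C / (25 * y * E)) ^ 2))) (lg (((-(6 * B * C * H) / (5 * E * G)) ^ 21 * (-(6 * C * H * K) / (25 * G * J)) ^ 9 * (-(6 * x * B ^ 2) / (25 * y ^ 2)) ^ 12 * (-(6 * B ^ 2 * C) / (25 * y * E)) * (-(6 * B * H * K) / (25 * y * J)) ^ 13 / (135000 * (6 * B / (25 * y)) ^ 16 * (6 * x * B * C / (25 * y * E)) ^ 12 * (2 * H ^ 2 * K / (5 * J ^ 2)) ^ 11 * (-(6 * B * C * H) / (25 * y * G)) ^ 22))⁻¹)) =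
      hk (sy (ev [x, B, C, H, K, y, E, G, J, 2, 3, 5] (false, [0, 1, -2, 0, 0, -1, 2, 0, 0, 0, 0, 1]))) (lg (evl [x, B, C, H, K, y, E, G, J, 2, 3, 5] [0, -10, 3, 1, -11, -12, 10, 8, 0, 8, -3, -16])) :=
  hkc10b
    (by
      simp only [ev, evl_cons, evl_nil_left, evl_nil_right, cond_true, cond_false, zpow_neg, zpow_ofNat, zpow_zero, zpow_one]
      field_simp
      try ring)
    (by
      simp only [ev, evl_cons, evl_nil_left, evl_nil_right, cond_true, cond_false, zpow_neg, zpow_ofNat, zpow_zero, zpow_one]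
      field_simp
      try ring)

end eq

end Pool.Agent.FK4
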