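import Pool.Agent.Lib_helper54.FAM.T10b
import Pool.Agent.Lib_helper2.K4N.Q10BD

set_option autoImplicit false
set_option linter.unusedSectionVars false
set_option linter.unusedVariables false
set_option linter.unusedSimpArgs false
set_option linter.unusedTactic false
set_option linter.unreachableTactic false
set_option maxRecDepth 100000

/-!
# The second special curve with a point of order ten: the terms
-/

open scoped TensorProduct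

namespace Pool.Agent.FK4

open Pool.Agent.MK4 Pool.Agent.TN Pool.Agent.KC72

section eq

variable {F : Type*} [Field F] {x y A B C H K D E G J : F}

lemma Q10b.tm0 [CharZero F] (h : Q10b x y A B C H K D E G J) : K4N.term10c x y =
    hk (sy (2 * A ^ 2 * B / (D * E))) (lg (24 * C ^ 2 * H * G ^ 3 / (15625 * B ^ 4 * K ^ 2 * D ^ 2 * J))) +
    hk (sy (A ^ 2 / D)) (lg ((46875 * B ^ 5 * K ^ 3 * D * E ^ 2 * J ^ 3 / (4 * C ^ 5 * H ^ 3 * G ^ 4)) ^ 6)) +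
    hk (sy (6 * A ^ 3 / (5 * D ^ 2))) (lg (B * K ^ 2 * G ^ 22 / (135000 * D ^ 12 * E * J ^ 13))) +
    hk (sy (6 * D ^ 2 / (5 * A * B ^ 2))) (lg ((C ^ 21 * H ^ 9 * D ^ 12 * E * J ^ 13 / (135000 * A ^ 16 * B ^ 12 * K ^ 11 * G ^ 22))⁻¹)) := by
  have A0 := h.A0
  have B0 := h.B0
  have C0 := h.C0
  have H0 := h.H0
  have K0 := h.K0
  have D0 := h.D0
  have E0 := h.E0
  have G0 := h.G0
  have J0 := h.J0
  have r0 : hk (sy (2 * A ^ 2 * B / (D * E))) (lg (24 * C ^ 2 * H * G ^ 3 / (15625 * B ^ 4 * K ^ 2 * D ^ 2 * J))) =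
      (1 : ℚ) • hk (sy (2 * A ^ 2 * B / (D * E))) (lg (24 * C ^ 2 * H * G ^ 3 / (15625 * B ^ 4 * K ^ 2 * D ^ 2 * J))) := by
    rw [one_smul]
  have r1 : hk (sy (A ^ 2 / D)) (lg ((46875 * B ^ 5 * K ^ 3 * D * E ^ 2 * J ^ 3 / (4 * C ^ 5 * H ^ 3 * G ^ 4)) ^ 6)) =
      (6 : ℚ) • hk (sy (A ^ 2 / D)) (lg (46875 * B ^ 5 * K ^ 3 * D * E ^ 2 * J ^ 3 / (4 * C ^ 5 * H ^ 3 * G ^ 4))) := by
    rw [TN.lgpow (div_ne_zero (mul_ne_zero (mul_ne_zero (mul_ne_zero (mul_ne_zero (mul_ne_zero (by norm_num : (46875 : F) ≠ 0) (pow_ne_zero 5 B0)) (pow_ne_zero 3 K0)) D0) (pow_ne_zero 2 E0)) (pow_ne_zero 3 J0)) (mul_ne_zero (mul_ne_zero (mul_ne_zero (by norm_num : (4 : F) ≠ 0) (pow_ne_zero 5 C0)) (pow_ne_zero 3 H0)) (pow_ne_zero 4 G0))), hk_smul_right]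
    norm_num
  have r2 : hk (sy (6 * A ^ 3 / (5 * D ^ 2))) (lg (B * K ^ 2 * G ^ 22 / (135000 * D ^ 12 * E * J ^ 13))) =
      (1 : ℚ) • hk (sy (6 * A ^ 3 / (5 * D ^ 2))) (lg (B * K ^ 2 * G ^ 22 / (135000 * D ^ 12 * E * J ^ 13))) := by
    rw [one_smul]
  have r3 : hk (sy (6 * D ^ 2 / (5 * A * B ^ 2))) (lg ((C ^ 21 * H ^ 9 * D ^ 12 * E * J ^ 13 / (135000 * A ^ 16 * B ^ 12 * K ^ 11 * G ^ 22))⁻¹)) =
      (-1 : ℚ) • hk (sy (6 * D ^ 2 / (5 * A * B ^ 2))) (lg (C ^ 21 * H ^ 9 * D ^ 12 * E * J ^ 13 / (135000 * A ^ 16 * B ^ 12 * K ^ 11 * G ^ 22))) := by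
    rw [TN.lginv, hk_neg_right, neg_smul, one_smul]
  rw [r0, r1, r2, r3]
  unfold K4N.term10c
  rw [h.hB, h.hC, h.hH, h.hK, h.hE, h.hG, h.hJ, h.hA, h.hD]
  module

end eq

end Pool.Agent.FK4
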