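import Pool.Agent.Lib_helper54.FAM.RC4

set_option autoImplicit false
set_option linter.unusedSectionVars false
set_option linter.unusedVariables false
set_option linter.unusedSimpArgs false

/-!
Local data at the places of The second special curve with a point of order ten: the tables.
-/

namespace Pool.Agent.FK4R

open Pool.Agent.K4R Pool.Agent.KC72
open scoped WithZero TensorProduct

/-- the generators -/
def g10b {F : Type*} [Field F] (x y : F) : List F :=
  [x, x + (6 / 25), x - (6 / 5), x - (6 / 25), x + (2 / 5), y, y - (6 / 5) * x, y + (6 / 5) * x, y - (2 / 5) * x, 2, 3, 5]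

/-- the local data at the points -/
def locs10b : List (List (ℤ × Mo)) :=
  [[(2, (false, [])), (2, (false, [])), (2, (false, [])), (2, (false, [])), (2, (false, [])), (3, (false, [])), (3, (false, [])), (3, (false, [])), (3, (false, [])), (0, (false, [1])), (0, (false, [0, 1])), (0, (false, [0, 0, 1]))],
   [(1, (false, [])), (0, (false, [1, 1, -2])), (0, (true, [1, 1, -1])), (0, (true, [1, 1, -2])), (0, (false, [1, 0, -1])), (2, (false, [])), (1, (true, [1, 1, -1])), (1, (false, [1, 1, -1])), (1, (true, [1, 0, -1])), (0, (false, [1])), (0, (false, [0, 1])), (0, (false, [0, 0, 1]))],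
   [(1, (false, [])), (0, (false, [1, 1, -2])), (0, (true, [1, 1, -1])), (0, (true, [1, 1, -2])), (0, (false, [1, 0, -1])), (0, (true, [1, 1, -2])), (0, (true, [1, 1, -2])), (0, (true, [1, 1, -2])), (0, (true, [1, 1, -2])), (0, (false, [1])), (0, (false, [0, 1])), (0, (false, [0, 0, 1]))],
   [(0, (true, [1, 1, -2])), (1, (false, [])), (0, (true, [2, 2, -2])), (0, (true, [2, 1, -2])), (0, (false, [2, 0, -2])), (0, (true, [2, 2, -3])), (1, (true, [1, 1, -1])), (0, (true, [3, 2, -3])), (0, (true, [3, 1, -3])), (0, (false, [1])), (0, (false, [0, 1])), (0, (false, [0, 0, 1]))],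
   [(0, (true, [1, 1, -2])), (1, (false, [])), (0, (true, [2, 2, -2])), (0, (true, [2, 1, -2])), (0, (false, [2, 0, -2])), (1, (false, [0, 0, -1])), (0, (false, [2, 2, -3])), (0, (true, [2, 2, -3])), (0, (false, [2, 1, -3])), (0, (false, [1])), (0, (false, [0, 1])), (0, (false, [0, 0, 1]))],
   [(0, (false, [1, 1, -1])), (0, (false, [2, 2, -2])), (1, (false, [])), (0, (false, [3, 1, -2])), (0, (false, [3, 0, -1])), (0, (true, [2, 2, -2])), (0, (true, [3, 2, -2])), (1, (true, [1, 0, -1])), (0, (true, [4, 1, -2])), (0, (false, [1])), (0, (false, [0, 1])), (0, (false, [0, 0, 1]))],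
   [(0, (false, [1, 1, -1])), (0, (false, [2, 2, -2])), (1, (false, [])), (0, (false, [3, 1, -2])), (0, (false, [3, 0, -1])), (0, (false, [2, 2, -2])), (1, (false, [0, 1, -1])), (0, (false, [3, 2, -2])), (0, (false, [3, 1, -2])), (0, (false, [1])), (0, (false, [0, 1])), (0, (false, [0, 0, 1]))],
   [(0, (false, [1, 1, -2])), (0, (false, [2, 1, -2])), (0, (true, [3, 1, -2])), (1, (false, [])), (0, (false, [4, 0, -2])), (0, (false, [2, 1, -3])), (0, (true, [3, 1, -3])), (0, (false, [4, 1, -3])), (1, (false, [1, 0, -1])), (0, (false, [1])), (0, (false, [0, 1])), (0, (false, [0, 0, 1]))],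
   [(0, (false, [1, 1, -2])), (0, (false, [2, 1, -2])), (0, (true, [3, 1, -2])), (1, (false, [])), (0, (false, [4, 0, -2])), (0, (true, [2, 2, -3])), (0, (true, [3, 2, -3])), (1, (false, [0, 1, -1])), (0, (true, [4, 1, -3])), (0, (false, [1])), (0, (false, [0, 1])), (0, (false, [0, 0, 1]))],
   [(0, (true, [1, 0, -1])), (0, (true, [2, 0, -2])), (0, (true, [3, 0, -1])), (0, (true, [4, 0, -2])), (2, (false, [-5, 0, 3])), (0, (true, [2, 0, -2])), (0, (false, [3, 0, -2])), (0, (true, [4, 0, -2])), (1, (false, [])), (0, (false, [1])), (0, (false, [0, 1])), (0, (false, [0, 0, 1]))]]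

end Pool.Agent.FK4R
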