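import Pool.Agent.Lib_helper54.FAM.L10bd
import Pool.Agent.Lib_helper54.FAM.Pl10bb
import Pool.Agent.Lib_helper54.FAM.LK10bt
import Pool.Agent.Lib_helper54.FAM.LK10bp1
import Pool.Agent.Lib_helper54.FAM.LK10bp2
import Pool.Agent.Lib_helper54.FAM.LK10bp3
import Pool.Agent.Lib_helper54.FAM.LK10bp4
import Pool.Agent.Lib_helper54.FAM.LK10bp5

set_option autoImplicit false
set_option linter.unusedSectionVars false
set_option linter.unusedVariables false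
set_option linter.unusedSimpArgs false
set_option linter.unusedTactic false
set_option linter.unreachableTactic false
set_option maxRecDepth 100000

/-!
# The second special curve with a point of order ten: the explicit class as monomials
-/

open scoped TensorProduct

namespace Pool.Agent.FK4

open Pool.Agent.MK4 Pool.Agent.TN Pool.Agent.KC72

section eq

variable {F : Type*} [Field F] {x y A B C H K D E G J : F}

/-- the class as a combination of monomials -/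
theorem xi10b_eq [CharZero F] (he : y ^ 2 - 1 / 5 * x * y + 6 / 25 * y = x ^ 3 + 6 / 25 * x ^ 2)
    (hne : ∀ z ∈ FK4R.g10b x y, z ≠ 0) :
    K4N.xi10b x y = zt (FK4R.g10b x y) N10C.c10b_cls L10b := by
  have A0 : x ≠ 0 := hne _ (by simp [FK4R.g10b])
  have B0 : x + (6 / 25) ≠ 0 := hne _ (by simp [FK4R.g10b])
  have C0 : x - (6 / 5) ≠ 0 := hne _ (by simp [FK4R.g10b])
  have H0 : x - (6 / 25) ≠ 0 := hne _ (by simp [FK4R.g10b])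
  have K0 : x + (2 / 5) ≠ 0 := hne _ (by simp [FK4R.g10b])
  have D0 : y ≠ 0 := hne _ (by simp [FK4R.g10b])
  have E0 : y - (6 / 5) * x ≠ 0 := hne _ (by simp [FK4R.g10b])
  have G0 : y + (6 / 5) * x ≠ 0 := hne _ (by simp [FK4R.g10b])
  have J0 : y - (2 / 5) * x ≠ 0 := hne _ (by simp [FK4R.g10b])
  obtain ⟨B, hB⟩ : ∃ B, x + (6 / 25) = B := ⟨_, rfl⟩
  obtain ⟨C, hC⟩ : ∃ C, x - (6 / 5) = C := ⟨_, rfl⟩
  obtain ⟨H, hH⟩ : ∃ H, x - (6 / 25) = H := ⟨_, rfl⟩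
  obtain ⟨K, hK⟩ : ∃ K, x + (2 / 5) = K := ⟨_, rfl⟩
  obtain ⟨E, hE⟩ : ∃ E, y - (6 / 5) * x = E := ⟨_, rfl⟩
  obtain ⟨G, hG⟩ : ∃ G, y + (6 / 5) * x = G := ⟨_, rfl⟩
  obtain ⟨J, hJ⟩ : ∃ J, y - (2 / 5) * x = J := ⟨_, rfl⟩
  have hg : FK4R.g10b x y = [x, B, C, H, K, y, E, G, J, 2, 3, 5] := by
    rw [← hB, ← hC, ← hH, ← hK, ← hE, ← hG, ← hJ]; rfl
  have hQ : Q10b x y x B C H K y E G J := by
    refine ⟨rfl, hB, hC, hH, hK, rfl, hE, hG, hJ, A0, ?_, ?_, ?_, ?_, D0, ?_, ?_, ?_,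
      by linear_combination he⟩
    · rw [← hB]; exact B0
    · rw [← hC]; exact C0
    · rw [← hH]; exact H0
    · rw [← hK]; exact K0
    · rw [← hE]; exact E0
    · rw [← hG]; exact G0
    · rw [← hJ]; exact J0
  rw [hB] at B0
  rw [hC] at C0
  rw [hH] at H0
  rw [hK] at K0
  rw [hE] at E0
  rw [hG] at G0
  rw [hJ] at J0
  obtain ⟨h0, h1, h2, h3, h4, h5, h6, h7, h8, h9⟩ := hQ.all
  have e0_0 := h0.tm0
  have e0_1 := h1.tm0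
  have e0_2 := h2.tm0
  have e0_3 := h3.tm0
  have e0_4 := h4.tm0
  have e0_5 := h5.tm0
  have e0_6 := h6.tm0
  have e0_7 := h7.tm0
  have e0_8 := h8.tm0
  have e0_9 := h9.tm0
  have s1 : K4N.xi10b x y =
(      K4N.term10c (K4N.It ((-6 / 25) : F) 0 (x, y)).1 (K4N.It ((-6 / 25) : F) 0 (x, y)).2 +
      K4N.term10c (K4N.It ((-6 / 25) : F) 1 (x, y)).1 (K4N.It ((-6 / 25) : F) 1 (x, y)).2 +
      K4N.term10c (K4N.It ((-6 / 25) : F) 2 (x, y)).1 (K4N.It ((-6 / 25) : F) 2 (x, y)).2 +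
      K4N.term10c (K4N.It ((-6 / 25) : F) 3 (x, y)).1 (K4N.It ((-6 / 25) : F) 3 (x, y)).2 +
      K4N.term10c (K4N.It ((-6 / 25) : F) 4 (x, y)).1 (K4N.It ((-6 / 25) : F) 4 (x, y)).2 +
      K4N.term10c (K4N.It ((-6 / 25) : F) 5 (x, y)).1 (K4N.It ((-6 / 25) : F) 5 (x, y)).2 +
      K4N.term10c (K4N.It ((-6 / 25) : F) 6 (x, y)).1 (K4N.It ((-6 / 25) : F) 6 (x, y)).2 +
      K4N.term10c (K4N.It ((-6 / 25) : F) 7 (x, y)).1 (K4N.It ((-6 / 25) : F) 7 (x, y)).2 +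
      K4N.term10c (K4N.It ((-6 / 25) : F) 8 (x, y)).1 (K4N.It ((-6 / 25) : F) 8 (x, y)).2 +
      K4N.term10c (K4N.It ((-6 / 25) : F) 9 (x, y)).1 (K4N.It ((-6 / 25) : F) 9 (x, y)).2) := by
    unfold K4N.xi10b
    rw [Fin.sum_univ_castSucc, Fin.sum_univ_castSucc, Fin.sum_univ_eight]
    rfl
  rw [s1, e0_0, e0_1, e0_2, e0_3, e0_4, e0_5, e0_6, e0_7, e0_8, e0_9]
  generalize hgg : FK4R.g10b x y = g at hg ⊢
  have p0 : oo N10C.c10b_cls (5, 0) = (false, [2, 1, 0, 0, 0, -1, -1, 0, 0, 1, 0, 0]) := by decide +kernel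
  have p1 : oo N10C.c10b_cls (9, 0) = (false, [2, 0, 0, 0, 0, -1, 0, 0, 0, 0, 0, 0]) := by decide +kernel
  have p2 : oo N10C.c10b_cls (150, 0) = (false, [3, 0, 0, 0, 0, -2, 0, 0, 0, 1, 1, -1]) := by decide +kernel
  have p3 : oo N10C.c10b_cls (170, 4) = (false, [-1, -2, 0, 0, 0, 2, 0, 0, 0, 1, 1, -1]) := by decide +kernel
  have p4 : oo N10C.c10b_cls (24, 0) = (false, [0, 1, 1, 0, 0, 1, -1, -1, 0, 0, -1, 1]) := by decide +kernel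
  have p5 : oo N10C.c10b_cls (19, 5) = (false, [-1, 1, 0, 0, 0, 1, -1, 0, 0, 0, 0, 0]) := by decide +kernel
  have p6 : oo N10C.c10b_cls (153, 0) = (true, [0, 2, 0, 0, 0, 1, -2, 0, 0, 0, 0, 1]) := by decide +kernel
  have p7 : oo N10C.c10b_cls (177, 4) = (true, [0, 0, 0, 0, 0, -1, 0, 0, 0, 2, 2, -3]) := by decide +kernel
  have p8 : oo N10C.c10b_cls (43, 5) = (false, [-1, -1, 1, 1, 0, 1, 1, -1, -1, 0, -1, 0]) := by decide +kernel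
  have p9 : oo N10C.c10b_cls (38, 5) = (true, [0, -1, 1, 0, 0, 0, 1, -1, 0, 0, 0, -1]) := by decide +kernel
  have p10 : oo N10C.c10b_cls (154, 5) = (true, [-1, -1, 2, 0, 0, 1, 1, -2, 0, 0, 0, -1]) := by decide +kernel
  have p11 : oo N10C.c10b_cls (151, 0) = (true, [3, 1, 0, 0, 0, -1, -1, 0, 0, 0, 0, 1]) := by decide +kernel
  have p12 : oo N10C.c10b_cls (69, 5) = (false, [0, -1, -1, 1, 1, 0, 1, 1, -2, 0, 0, 0]) := by decide +kernel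
  have p13 : oo N10C.c10b_cls (63, 5) = (true, [0, 0, -1, 1, 0, 0, 0, 1, -1, 0, 0, 0]) := by decide +kernel
  have p14 : oo N10C.c10b_cls (158, 5) = (false, [0, -1, -1, 2, 0, 0, 1, 1, -2, 0, 0, 0]) := by decide +kernel
  have p15 : oo N10C.c10b_cls (152, 5) = (false, [-2, 1, 1, 0, 0, 2, -1, -1, 0, 0, 0, 0]) := by decide +kernel
  have p16 : oo N10C.c10b_cls (96, 5) = (true, [0, 0, -1, 0, 1, 0, 0, 0, 0, 0, 1, 0]) := by decide +kernel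
  have p17 : oo N10C.c10b_cls (91, 5) = (false, [0, 0, 0, -1, 1, 0, 0, 0, 0, 0, 1, -1]) := by decide +kernel
  have p18 : oo N10C.c10b_cls (163, 5) = (false, [0, 0, -1, -1, 2, 0, 0, 1, -1, 0, 2, -1]) := by decide +kernel
  have p19 : oo N10C.c10b_cls (155, 5) = (false, [0, -2, 1, 1, 0, 0, 2, -1, -1, 0, 0, -1]) := by decide +kernel
  have p20 : oo N10C.c10b_cls (124, 5) = (false, [0, 0, 1, 0, -1, 0, -1, -1, 2, 0, 0, 0]) := by decide +kernel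
  have p21 : oo N10C.c10b_cls (120, 5) = (true, [0, 0, 0, 1, -1, 0, 0, -1, 1, 0, 0, 0]) := by decide +kernel
  have p22 : oo N10C.c10b_cls (168, 5) = (true, [0, 0, 0, 1, -1, 0, 0, -2, 2, 0, 1, 0]) := by decide +kernel
  have p23 : oo N10C.c10b_cls (159, 5) = (true, [0, 0, -2, 1, 1, 0, 0, 2, -2, 0, 1, 0]) := by decide +kernel
  have p24 : oo N10C.c10b_cls (27, 1) = (false, [0, 1, 1, -1, -1, -1, -1, 1, 1, 0, -1, 0]) := by decide +kernel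
  have p25 : oo N10C.c10b_cls (140, 5) = (true, [0, 0, 1, -1, 0, 0, -1, 1, 0, 0, 0, -1]) := by decide +kernel
  have p26 : oo N10C.c10b_cls (172, 5) = (false, [0, 0, 2, -1, -1, 0, -2, 1, 1, 0, 0, -1]) := by decide +kernel
  have p27 : oo N10C.c10b_cls (164, 5) = (false, [0, 0, 0, -1, 1, 0, 0, -1, 1, 0, 2, -1]) := by decide +kernel
  have p28 : oo N10C.c10b_cls (55, 1) = (true, [0, 1, -1, -1, 0, -1, 1, 1, 0, 0, -1, 1]) := by decide +kernel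
  have p29 : oo N10C.c10b_cls (149, 5) = (false, [0, 1, -1, 0, 0, -1, 1, 0, 0, 0, 0, 0]) := by decide +kernel
  have p30 : oo N10C.c10b_cls (179, 5) = (false, [0, 2, -1, -1, 0, -2, 1, 1, 0, 0, 0, 0]) := by decide +kernel
  have p31 : oo N10C.c10b_cls (169, 5) = (false, [0, 0, 1, 1, -2, 0, -1, -1, 2, 0, 0, 0]) := by decide +kernel
  have p32 : oo N10C.c10b_cls (82, 4) = (false, [-1, -1, -1, 0, 0, 1, 1, 0, 0, 1, 0, 0]) := by decide +kernel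
  have p33 : oo N10C.c10b_cls (126, 1) = (true, [0, -1, 0, 0, 0, 1, 0, 0, 0, 0, 0, 0]) := by decide +kernel
  have p34 : oo N10C.c10b_cls (160, 1) = (true, [0, -1, -1, 0, 0, 1, 1, 0, 0, 0, 0, 1]) := by decide +kernel
  have p35 : oo N10C.c10b_cls (161, 1) = (true, [0, 1, 1, -2, 0, -1, -1, 2, 0, 0, 0, -1]) := by decide +kernel
  have p36 : oo N10C.c10b_cls (112, 4) = (false, [0, -1, 0, 0, 0, 0, 0, 0, 0, 2, 1, -2]) := by decide +kernel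
  have p37 : oo N10C.c10b_cls (143, 4) = (true, [-1, 0, 0, 0, 0, 0, 0, 0, 0, 1, 1, -2]) := by decide +kernel
  have p38 : oo N10C.c10b_cls (165, 4) = (false, [-2, -1, 0, 0, 0, 1, 0, 0, 0, 2, 2, -3]) := by decide +kernel
  have p39 : oo N10C.c10b_cls (166, 1) = (false, [0, 1, -2, 0, 0, -1, 2, 0, 0, 0, 0, 1]) := by decide +kernel
  have z : zt g N10C.c10b_cls L10b =
    hk (sy (ev g (false, [2, 1, 0, 0, 0, -1, -1, 0, 0, 1, 0, 0]))) (lg (evl g [0, -4, 2, 1, -2, -2, 0, 3, -1, 3, 1, -6])) + (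
    hk (sy (ev g (false, [2, 0, 0, 0, 0, -1, 0, 0, 0, 0, 0, 0]))) (lg (evl g [0, 30, -30, -18, 18, 6, 12, -24, 18, -12, 6, 36])) + (
    hk (sy (ev g (false, [3, 0, 0, 0, 0, -2, 0, 0, 0, 1, 1, -1]))) (lg (evl g [0, 1, 0, 0, 2, -12, -1, 22, -13, -3, -3, -4])) + (
    hk (sy (ev g (false, [-1, -2, 0, 0, 0, 2, 0, 0, 0, 1, 1, -1]))) (lg (evl g [16, 12, -21, -9, 11, -12, -1, 22, -13, 3, 3, 4])) + (
    hk (sy (ev g (false, [0, 1, 1, 0, 0, 1, -1, -1, 0, 0, -1, 1]))) (lg (evl g [6, 6, -5, -3, 3, -6, -1, 5, -2, 0, 1, 2])) + (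
    hk (sy (ev g (false, [-1, 1, 0, 0, 0, 1, -1, 0, 0, 0, 0, 0]))) (lg (evl g [-36, -48, 42, 24, -36, 48, -6, -42, 30, 12, -6, -18])) + (
    hk (sy (ev g (true, [0, 2, 0, 0, 0, 1, -2, 0, 0, 0, 0, 1]))) (lg (evl g [6, 12, -21, -9, 11, -12, 10, 8, 0, -8, 3, 16])) + (
    hk (sy (ev g (true, [0, 0, 0, 0, 0, -1, 0, 0, 0, 2, 2, -3]))) (lg (evl g [-6, 1, 0, 0, 2, 15, 0, -22, 9, 4, 6, 0])) + (
    hk (sy (ev g (false, [-1, -1, 1, 1, 0, 1, 1, -1, -1, 0, -1, 0]))) (lg (evl g [-2, 1, 1, 0, -1, 5, -1, -6, 4, -1, -1, 4])) + (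
    hk (sy (ev g (true, [0, -1, 1, 0, 0, 0, 1, -1, 0, 0, 0, -1]))) (lg (evl g [18, 6, 6, -12, 6, -42, -6, 48, -30, 18, 6, -42])) + (
    hk (sy (ev g (true, [-1, -1, 2, 0, 0, 1, 1, -2, 0, 0, 0, -1]))) (lg (evl g [-16, -10, 3, 1, -11, 16, -3, -12, 21, 3, 3, 2])) + (
    hk (sy (ev g (true, [3, 1, 0, 0, 0, -1, -1, 0, 0, 0, 0, 1]))) (lg (evl g [0, -16, 22, 13, -11, 10, -6, -13, 0, 5, -4, -13])) + (
    hk (sy (ev g (false, [0, -1, -1, 1, 1, 0, 1, 1, -2, 0, 0, 0]))) (lg (evl g [-4, -5, 6, 2, -3, 3, 0, -2, 0, 2, -1, -5])) + (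
    hk (sy (ev g (true, [0, 0, -1, 1, 0, 0, 0, 1, -1, 0, 0, 0]))) (lg (evl g [42, 42, -48, -6, 24, -24, 12, 6, -12, -18, -6, 54])) + (
    hk (sy (ev g (false, [0, -1, -1, 2, 0, 0, 1, 1, -2, 0, 0, 0]))) (lg (evl g [0, -3, 12, -10, -10, -13, -6, 10, 9, 14, 4, -22])) + (
    hk (sy (ev g (false, [-2, 1, 1, 0, 0, 2, -1, -1, 0, 0, 0, 0]))) (lg (evl g [11, 12, -3, 0, 11, -12, -3, 16, -22, -5, -3, -1])) + (
    hk (sy (ev g (true, [0, 0, -1, 0, 1, 0, 0, 0, 0, 0, 1, 0]))) (lg (evl g [5, 2, -4, 0, 3, -6, 2, 6, -6, 0, 0, 0])) + (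
    hk (sy (ev g (false, [0, 0, 0, -1, 1, 0, 0, 0, 0, 0, 1, -1]))) (lg (evl g [-54, -30, 30, 12, -12, 72, -12, -48, 24, 0, 0, 0])) + (
    hk (sy (ev g (false, [0, 0, -1, -1, 2, 0, 0, 1, -1, 0, 2, -1]))) (lg (evl g [22, 22, -16, -9, 1, -22, 0, 15, -2, 3, -6, 15])) + (
    hk (sy (ev g (false, [0, -2, 1, 1, 0, 0, 2, -1, -1, 0, 0, -1]))) (lg (evl g [1, 3, -10, 6, 11, 8, 10, -12, -6, -16, -3, 20])) + (
    hk (sy (ev g (false, [0, 0, 1, 0, -1, 0, -1, -1, 2, 0, 0, 0]))) (lg (evl g [0, 2, -4, 0, 3, 3, 0, -2, 0, -2, 1, 5])) + (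
    hk (sy (ev g (true, [0, 0, 0, 1, -1, 0, 0, -1, 1, 0, 0, 0]))) (lg (evl g [0, -30, 30, 12, -12, -24, 12, 6, -12, 18, 6, -54])) + (
    hk (sy (ev g (true, [0, 0, 0, 1, -1, 0, 0, -2, 2, 0, 1, 0]))) (lg (evl g [-13, 0, 1, -4, 1, 22, -1, -12, 4, 5, -3, 9])) + (
    hk (sy (ev g (true, [0, 0, -2, 1, 1, 0, 0, 2, -2, 0, 1, 0]))) (lg (evl g [-22, -21, 12, 12, -5, 22, -1, -12, 4, -5, 3, -9])) + (
    hk (sy (ev g (false, [0, 1, 1, -1, -1, -1, -1, 1, 1, 0, -1, 0]))) (lg (evl g [-5, -5, 6, 2, -3, 5, -1, -6, 4, 1, 1, -4])) + (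
    hk (sy (ev g (true, [0, 0, 1, -1, 0, 0, -1, 1, 0, 0, 0, -1]))) (lg (evl g [54, 42, -48, -6, 24, -42, -6, 48, -30, -18, -6, 42])) + (
    hk (sy (ev g (false, [0, 0, 2, -1, -1, 0, -2, 1, 1, 0, 0, -1]))) (lg (evl g [-9, -21, 12, 12, -5, 8, 10, -12, -6, 16, 3, -20])) + (
    hk (sy (ev g (false, [0, 0, 0, -1, 1, 0, 0, -1, 1, 0, 2, -1]))) (lg (evl g [9, 0, 1, -4, 1, -22, 0, 15, -2, -3, 6, -15])) + (
    hk (sy (ev g (true, [0, 1, -1, -1, 0, -1, 1, 1, 0, 0, -1, 1]))) (lg (evl g [4, 1, 1, 0, -1, -6, -1, 5, -2, 0, -1, -2])) + (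
    hk (sy (ev g (false, [0, 1, -1, 0, 0, -1, 1, 0, 0, 0, 0, 0]))) (lg (evl g [-42, 6, 6, -12, 6, 48, -6, -42, 30, -12, 6, 18])) + (
    hk (sy (ev g (false, [0, 2, -1, -1, 0, -2, 1, 1, 0, 0, 0, 0]))) (lg (evl g [22, 3, -10, 6, 11, -12, -3, 16, -22, 5, 3, 1])) + (
    hk (sy (ev g (false, [0, 0, 1, 1, -2, 0, -1, -1, 2, 0, 0, 0]))) (lg (evl g [13, 22, -16, -9, 1, -13, -6, 10, 9, -14, -4, 22])) + (
    hk (sy (ev g (false, [-1, -1, -1, 0, 0, 1, 1, 0, 0, 1, 0, 0]))) (lg (evl g [2, 6, -5, -3, 3, -2, 0, 3, -1, -3, -1, 6])) + (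
    hk (sy (ev g (true, [0, -1, 0, 0, 0, 1, 0, 0, 0, 0, 0, 0]))) (lg (evl g [-18, -48, 42, 24, -36, 6, 12, -24, 18, 12, -6, -36])) + (
    hk (sy (ev g (true, [0, -1, -1, 0, 0, 1, 1, 0, 0, 0, 0, 1]))) (lg (evl g [-1, 12, -3, 0, 11, 10, -6, -13, 0, -5, 4, 13])) + (
    hk (sy (ev g (true, [0, 1, 1, -2, 0, -1, -1, 2, 0, 0, 0, -1]))) (lg (evl g [-22, -3, 12, -10, -10, 16, -3, -12, 21, -3, -3, -2])) + (
    hk (sy (ev g (false, [0, -1, 0, 0, 0, 0, 0, 0, 0, 2, 1, -2]))) (lg (evl g [-6, -4, 2, 1, -2, 6, 2, -6, 4, 0, 0, 0])) + (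
    hk (sy (ev g (true, [-1, 0, 0, 0, 0, 0, 0, 0, 0, 1, 1, -2]))) (lg (evl g [36, 30, -30, -18, 18, -48, -12, 72, -36, 0, 0, 0])) + (
    hk (sy (ev g (false, [-2, -1, 0, 0, 0, 1, 0, 0, 0, 2, 2, -3]))) (lg (evl g [-11, -16, 22, 13, -11, 15, 0, -22, 9, -4, -6, 0])) + (
    hk (sy (ev g (false, [0, 1, -2, 0, 0, -1, 2, 0, 0, 0, 0, 1]))) (lg (evl g [0, -10, 3, 1, -11, -12, 10, 8, 0, 8, -3, -16])) + 0))))))))))))))))))))))))))))))))))))))) := by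
    rw [← p0, ← p1, ← p2, ← p3, ← p4, ← p5, ← p6, ← p7, ← p8, ← p9, ← p10, ← p11, ← p12, ← p13, ← p14, ← p15, ← p16, ← p17, ← p18, ← p19, ← p20, ← p21, ← p22, ← p23, ← p24, ← p25, ← p26, ← p27, ← p28, ← p29, ← p30, ← p31, ← p32, ← p33, ← p34, ← p35, ← p36, ← p37, ← p38, ← p39]
    rfl
  rw [z, hg]
  clear z hgg
  have c0 := c10b_0 A0 B0 C0 H0 K0 D0 E0 G0 J0
  have c1 := c10b_1 A0 B0 C0 H0 K0 D0 E0 G0 J0
  have c2 := c10b_2 A0 B0 C0 H0 K0 D0 E0 G0 J0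
  have c3 := c10b_3 A0 B0 C0 H0 K0 D0 E0 G0 J0
  have c4 := c10b_4 A0 B0 C0 H0 K0 D0 E0 G0 J0
  have c5 := c10b_5 A0 B0 C0 H0 K0 D0 E0 G0 J0
  have c6 := c10b_6 A0 B0 C0 H0 K0 D0 E0 G0 J0
  have c7 := c10b_7 A0 B0 C0 H0 K0 D0 E0 G0 J0
  have c8 := c10b_8 A0 B0 C0 H0 K0 D0 E0 G0 J0
  have c9 := c10b_9 A0 B0 C0 H0 K0 D0 E0 G0 J0
  have c10 := c10b_10 A0 B0 C0 H0 K0 D0 E0 G0 J0
  have c11 := c10b_11 A0 B0 C0 H0 K0 D0 E0 G0 J0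
  have c12 := c10b_12 A0 B0 C0 H0 K0 D0 E0 G0 J0
  have c13 := c10b_13 A0 B0 C0 H0 K0 D0 E0 G0 J0
  have c14 := c10b_14 A0 B0 C0 H0 K0 D0 E0 G0 J0
  have c15 := c10b_15 A0 B0 C0 H0 K0 D0 E0 G0 J0
  have c16 := c10b_16 A0 B0 C0 H0 K0 D0 E0 G0 J0
  have c17 := c10b_17 A0 B0 C0 H0 K0 D0 E0 G0 J0
  have c18 := c10b_18 A0 B0 C0 H0 K0 D0 E0 G0 J0
  have c19 := c10b_19 A0 B0 C0 H0 K0 D0 E0 G0 J0
  have c20 := c10b_20 A0 B0 C0 H0 K0 D0 E0 G0 J0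
  have c21 := c10b_21 A0 B0 C0 H0 K0 D0 E0 G0 J0
  have c22 := c10b_22 A0 B0 C0 H0 K0 D0 E0 G0 J0
  have c23 := c10b_23 A0 B0 C0 H0 K0 D0 E0 G0 J0
  have c24 := c10b_24 A0 B0 C0 H0 K0 D0 E0 G0 J0
  have c25 := c10b_25 A0 B0 C0 H0 K0 D0 E0 G0 J0
  have c26 := c10b_26 A0 B0 C0 H0 K0 D0 E0 G0 J0
  have c27 := c10b_27 A0 B0 C0 H0 K0 D0 E0 G0 J0
  have c28 := c10b_28 A0 B0 C0 H0 K0 D0 E0 G0 J0
  have c29 := c10b_29 A0 B0 C0 H0 K0 D0 E0 G0 J0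
  have c30 := c10b_30 A0 B0 C0 H0 K0 D0 E0 G0 J0
  have c31 := c10b_31 A0 B0 C0 H0 K0 D0 E0 G0 J0
  have c32 := c10b_32 A0 B0 C0 H0 K0 D0 E0 G0 J0
  have c33 := c10b_33 A0 B0 C0 H0 K0 D0 E0 G0 J0
  have c34 := c10b_34 A0 B0 C0 H0 K0 D0 E0 G0 J0
  have c35 := c10b_35 A0 B0 C0 H0 K0 D0 E0 G0 J0
  have c36 := c10b_36 A0 B0 C0 H0 K0 D0 E0 G0 J0
  have c37 := c10b_37 A0 B0 C0 H0 K0 D0 E0 G0 J0
  have c38 := c10b_38 A0 B0 C0 H0 K0 D0 E0 G0 J0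
  have c39 := c10b_39 A0 B0 C0 H0 K0 D0 E0 G0 J0
  rw [c0, c1, c2, c3, c4, c5, c6, c7, c8, c9, c10, c11, c12, c13, c14, c15, c16, c17, c18, c19, c20, c21, c22, c23, c24, c25, c26, c27, c28, c29, c30, c31, c32, c33, c34, c35, c36, c37, c38, c39]
  abel

end eq

end Pool.Agent.FK4
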