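import Pool.Agent.Lib_helper24.FAM.LK

set_option autoImplicit false
set_option linter.unusedSectionVars false
set_option linter.unusedVariables false
set_option linter.unusedSimpArgs false
set_option linter.unusedTactic false
set_option linter.unreachableTactic false
set_option maxRecDepth 100000

/-!
# The second special curve with a point of order ten: comparison of symbols
-/

open scoped TensorProduct

namespace Pool.Agent.FK4

open Pool.Agent.MK4 Pool.Agent.TN Pool.Agent.KC72

section eq

variable {F : Type*} [Field F]

lemma hkc10b {f f' u u' : F} (h : f = f') (h' : u = u') :
    hk (sy f) (lg u) = hk (sy f') (lg u') := by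
  rw [h, h']

lemma hkc10b' {f f' u u' : F} (h : f = f') (h' : u = -u') :
    hk (sy f) (lg u) = hk (sy f') (lg u') := by
  rw [h, h', TN.lgneg]

end eq

end Pool.Agent.FK4
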