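import Pool.Agent.Lib_helper24.FAM.LK
import Pool.Agent.Lib_helper2.K4N.Q7X
import Pool.Agent.Lib_helper54.FAM.RC3

set_option autoImplicit false
set_option linter.unusedSectionVars false
set_option linter.unusedVariables false
set_option linter.unusedSimpArgs false
set_option maxRecDepth 100000

/-!
# The first special curve with a point of order eight: the units at the translates
-/

open scoped TensorProduct

namespace Pool.Agent.FK4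

open Pool.Agent.MK4 Pool.Agent.TN Pool.Agent.KC72

section tup

variable {F : Type*} [Field F] {x y A B C H D E G : F}

/-- the seven units at a point of the curve -/
structure Q8a (x y A B C H D E G : F) : Prop where
  hA : x = A
  hB : x - 3 = B
  hC : x - (3 / 2) = C
  hH : x - 2 = H
  hD : y = D
  hE : y - (3 / 2) * x = E
  hG : y - x = G
  A0 : A ≠ 0
  B0 : B ≠ 0
  C0 : C ≠ 0
  H0 : H ≠ 0
  D0 : D ≠ 0
  E0 : E ≠ 0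
  G0 : G ≠ 0
  eq : y ^ 2 - (1 / 2) * x * y - 3 * y = x ^ 3 - 3 * x ^ 2

lemma Q8a.congr {A' B' C' H' D' E' G' : F} (h : Q8a x y A B C H D E G) (a : A = A') (b : B = B')
    (c : C = C') (e : H = H') (d : D = D') (f : E = E') (g : G = G') :
    Q8a x y A' B' C' H' D' E' G' := by
  subst a b c d e f g
  exact h

/-- translation by `P` -/
lemma Q8a.step [CharZero F] {p : F × F} (h : Q8a p.1 p.2 A B C H D E G) :
    Q8a (K4N.Tn (3 : F) p).1 (K4N.Tn (3 : F) p).2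
      (3 * D / (A ^ 2)) (-(3 * D * E) / (A ^ 2 * B))
      (-(3 * E * G) / (2 * A ^ 2 * C)) (-(2 * G ^ 2) / (A ^ 2 * H))
      (9 * D * E / (A ^ 3 * B)) (-(9 * D * E * G) / (2 * A ^ 3 * B * C))
      (-(3 * E * G ^ 2) / (A ^ 3 * C * H)) := by
  obtain ⟨x, y⟩ := p
  obtain ⟨hA, hB, hC, hH, hD, hE, hG, A0, B0, C0, H0, D0, E0, G0, he⟩ := h
  dsimp only at hA hB hC hH hD hE hG he
  subst hA hB hC hH hD hE hG
  have p2 : (2 : F) ≠ 0 := two_ne_zero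
  have p3 : (3 : F) ≠ 0 := three_ne_zero
  have x2 : x ^ 2 ≠ 0 := pow_ne_zero 2 A0
  have x3 : x ^ 3 ≠ 0 := pow_ne_zero 3 A0
  have d0 : x ^ 2 ≠ 0 := by
    exact (pow_ne_zero 2 A0)
  have d1 : x ^ 2 * (x - 3) ≠ 0 := by
    exact (mul_ne_zero (pow_ne_zero 2 A0) B0)
  have d2 : 2 * x ^ 2 * (x - (3 / 2)) ≠ 0 := by
    exact (mul_ne_zero (mul_ne_zero (by norm_num : (2 : F) ≠ 0) (pow_ne_zero 2 A0)) C0)
  have d3 : x ^ 2 * (x - 2) ≠ 0 := by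
    exact (mul_ne_zero (pow_ne_zero 2 A0) H0)
  have d4 : x ^ 3 * (x - 3) ≠ 0 := by
    exact (mul_ne_zero (pow_ne_zero 3 A0) B0)
  have d5 : 2 * x ^ 3 * (x - 3) * (x - (3 / 2)) ≠ 0 := by
    exact (mul_ne_zero (mul_ne_zero (mul_ne_zero (by norm_num : (2 : F) ≠ 0) (pow_ne_zero 3 A0)) B0) C0)
  have d6 : x ^ 3 * (x - (3 / 2)) * (x - 2) ≠ 0 := by
    exact (mul_ne_zero (mul_ne_zero (pow_ne_zero 3 A0) C0) H0)
  refine ⟨?_, ?_, ?_, ?_, ?_, ?_, ?_, ?_, ?_, ?_, ?_, ?_, ?_, ?_, ?_⟩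
  · show 3 * y / x ^ 2 = 3 * y / (x ^ 2)
    rfl
  · show 3 * y / x ^ 2 - 3 = -(3 * y * (y - (3 / 2) * x)) / (x ^ 2 * (x - 3))
    have e : 3 * y / x ^ 2 - 3 = (3 * y - 3 * x ^ 2) / x ^ 2 := by
      field_simp
    rw [e, div_eq_div_iff x2 d1]
    linear_combination (3 * x ^ 2) * he
  · show 3 * y / x ^ 2 - (3 / 2) = -(3 * (y - (3 / 2) * x) * (y - x)) / (2 * x ^ 2 * (x - (3 / 2)))
    have e : 3 * y / x ^ 2 - (3 / 2) = (3 * y - (3 / 2) * x ^ 2) / x ^ 2 := by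
      field_simp
    rw [e, div_eq_div_iff x2 d2]
    linear_combination (3 * x ^ 2) * he
  · show 3 * y / x ^ 2 - 2 = -(2 * (y - x) ^ 2) / (x ^ 2 * (x - 2))
    have e : 3 * y / x ^ 2 - 2 = (3 * y - 2 * x ^ 2) / x ^ 2 := by
      field_simp
    rw [e, div_eq_div_iff x2 d3]
    linear_combination (2 * x ^ 2) * he
  · show 3 ^ 2 * (x ^ 2 - y) / x ^ 3 = 9 * y * (y - (3 / 2) * x) / (x ^ 3 * (x - 3))
    have e : 3 ^ 2 * (x ^ 2 - y) / x ^ 3 = (3 ^ 2 * (x ^ 2 - y)) / x ^ 3 := by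
      field_simp
    rw [e, div_eq_div_iff x3 d4]
    linear_combination ((-9) * x ^ 3) * he
  · show 3 ^ 2 * (x ^ 2 - y) / x ^ 3 - (3 / 2) * (3 * y / x ^ 2) = -(9 * y * (y - (3 / 2) * x) * (y - x)) / (2 * x ^ 3 * (x - 3) * (x - (3 / 2)))
    have e : 3 ^ 2 * (x ^ 2 - y) / x ^ 3 - (3 / 2) * (3 * y / x ^ 2) = (3 ^ 2 * (x ^ 2 - y) - (3 / 2) * 3 * x * y) / x ^ 3 := by
      field_simp
    rw [e, div_eq_div_iff x3 d5]
    linear_combination (27 * x ^ 3 + 9 * x ^ 3 * y + (-18) * x ^ 4) * he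
  · show 3 ^ 2 * (x ^ 2 - y) / x ^ 3 - 3 * y / x ^ 2 = -(3 * (y - (3 / 2) * x) * (y - x) ^ 2) / (x ^ 3 * (x - (3 / 2)) * (x - 2))
    have e : 3 ^ 2 * (x ^ 2 - y) / x ^ 3 - 3 * y / x ^ 2 = (3 ^ 2 * (x ^ 2 - y) - 3 * x * y) / x ^ 3 := by
      field_simp
    rw [e, div_eq_div_iff x3 d6]
    linear_combination (9 * x ^ 3 + 3 * x ^ 3 * y + (-9) * x ^ 4) * he
  · exact div_ne_zero (mul_ne_zero (by norm_num : (3 : F) ≠ 0) D0) d0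
  · exact div_ne_zero (neg_ne_zero.mpr (mul_ne_zero (mul_ne_zero (by norm_num : (3 : F) ≠ 0) D0) E0)) d1
  · exact div_ne_zero (neg_ne_zero.mpr (mul_ne_zero (mul_ne_zero (by norm_num : (3 : F) ≠ 0) E0) G0)) d2
  · exact div_ne_zero (neg_ne_zero.mpr (mul_ne_zero (by norm_num : (2 : F) ≠ 0) (pow_ne_zero 2 G0))) d3
  · exact div_ne_zero (mul_ne_zero (mul_ne_zero (by norm_num : (9 : F) ≠ 0) D0) E0) d4
  · exact div_ne_zero (neg_ne_zero.mpr (mul_ne_zero (mul_ne_zero (mul_ne_zero (by norm_num : (9 : F) ≠ 0) D0) E0) G0)) d5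
  · exact div_ne_zero (neg_ne_zero.mpr (mul_ne_zero (mul_ne_zero (by norm_num : (3 : F) ≠ 0) E0) (pow_ne_zero 2 G0))) d6
  · show (3 ^ 2 * (x ^ 2 - y) / x ^ 3) ^ 2 - (1 / 2) * (3 * y / x ^ 2) * (3 ^ 2 * (x ^ 2 - y) / x ^ 3) - 3 * (3 ^ 2 * (x ^ 2 - y) / x ^ 3) = (3 * y / x ^ 2) ^ 3 - 3 * (3 * y / x ^ 2) ^ 2
    have e1 : (3 ^ 2 * (x ^ 2 - y) / x ^ 3) ^ 2 - (1 / 2) * (3 * y / x ^ 2) * (3 ^ 2 * (x ^ 2 - y) / x ^ 3) - 3 * (3 ^ 2 * (x ^ 2 - y) / x ^ 3) = ((3 ^ 2 * (x ^ 2 - y)) ^ 2 - (1 / 2) * (3 * y * x * (3 ^ 2 * (x ^ 2 - y))) - 3 * (x ^ 3 * (3 ^ 2 * (x ^ 2 - y)))) / x ^ 6 := by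
      field_simp
    have e2 : (3 * y / x ^ 2) ^ 3 - 3 * (3 * y / x ^ 2) ^ 2 = ((3 * y) ^ 3 - 3 * (x ^ 2 * (3 * y) ^ 2)) / x ^ 6 := by
      field_simp
    rw [e1, e2]
    congr 1
    linear_combination ((-27) * y + 27 * x ^ 2) * he

/-- the units at the translates -/
lemma Q8a.all [CharZero F] (h : Q8a x y A B C H D E G) :
    Q8a (K4N.It (3 : F) 0 (x, y)).1 (K4N.It (3 : F) 0 (x, y)).2
      (A) (B) (C)
      (H) (D) (E)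
      (G) ∧
    Q8a (K4N.It (3 : F) 1 (x, y)).1 (K4N.It (3 : F) 1 (x, y)).2
      (3 * D / (A ^ 2)) (-(3 * D * E) / (A ^ 2 * B)) (-(3 * E * G) / (2 * A ^ 2 * C))
      (-(2 * G ^ 2) / (A ^ 2 * H)) (9 * D * E / (A ^ 3 * B)) (-(9 * D * E * G) / (2 * A ^ 3 * B * C))
      (-(3 * E * G ^ 2) / (A ^ 3 * C * H)) ∧
    Q8a (K4N.It (3 : F) 2 (x, y)).1 (K4N.It (3 : F) 2 (x, y)).2
      (3 * A * E / (B * D)) (-(9 * E * G) / (2 * B * C * D)) (3 * E * G ^ 2 / (2 * B * C * H * D))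
      (E ^ 2 * G ^ 2 / (C ^ 2 * H * D ^ 2)) (9 * A ^ 2 * E * G / (2 * B * C * D ^ 2)) (-(9 * A * E * G ^ 2) / (2 * B * C * H * D ^ 2))
      (3 * A * E ^ 2 * G ^ 2 / (2 * B * C ^ 2 * H * D ^ 2)) ∧
    Q8a (K4N.It (3 : F) 3 (x, y)).1 (K4N.It (3 : F) 3 (x, y)).2
      (3 * B * G / (2 * C * E)) (-(3 * A * B * G ^ 2) / (2 * C * H * D * E)) (3 * B * G ^ 2 / (4 * C ^ 2 * H * D))
      (-(G ^ 2) / (2 * C ^ 2 * H)) (3 * B ^ 2 * G ^ 2 / (2 * C * H * E ^ 2)) (-(3 * A * B ^ 2 * G ^ 2) / (4 * C ^ 2 * H * D * E))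
      (3 * B * G ^ 2 / (4 * C ^ 2 * H * E)) ∧
    Q8a (K4N.It (3 : F) 4 (x, y)).1 (K4N.It (3 : F) 4 (x, y)).2
      (2 * C / H) (-(B) / H) (A / (2 * H))
      (1 / H) (2 * C * E / (H * G)) (-(C * D) / (H * G))
      (-(A * C) / (H * G)) ∧
    Q8a (K4N.It (3 : F) 5 (x, y)).1 (K4N.It (3 : F) 5 (x, y)).2
      (3 * H * E / (2 * C * G)) (-(3 * H * D * E) / (2 * B * G ^ 2)) (-(3 * H * D) / (4 * G ^ 2))
      (-(A ^ 2 * H) / (2 * G ^ 2)) (9 * H ^ 2 * D * E / (4 * B * C * G ^ 2)) (9 * H ^ 2 * D * E / (4 * B * G ^ 3))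
      (3 * A * H ^ 2 * D / (4 * G ^ 3)) ∧
    Q8a (K4N.It (3 : F) 6 (x, y)).1 (K4N.It (3 : F) 6 (x, y)).2
      (3 * C * D / (B * E)) (9 * C * H * D / (2 * B * E * G)) (3 * A * C ^ 2 * H * D / (2 * B * E * G ^ 2))
      (C ^ 2 * H * D ^ 2 / (E ^ 2 * G ^ 2)) (-(9 * C ^ 2 * D) / (B * E ^ 2)) (-(9 * A * C ^ 2 * H * D) / (2 * B * E ^ 2 * G))
      (-(3 * C ^ 3 * H * D ^ 2) / (B * E ^ 2 * G ^ 2)) ∧
    Q8a (K4N.It (3 : F) 7 (x, y)).1 (K4N.It (3 : F) 7 (x, y)).2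
      (-(3 * B) / D) (-(3 * A * B * C) / (D * E)) (-(3 * B * C * H) / (2 * E * G))
      (-(2 * C ^ 2 * H) / (G ^ 2)) (3 * A * B ^ 2 / (D ^ 2)) (3 * B ^ 2 * C / (D * E))
      (3 * B * C * H / (D * G)) := by
  have A0 := h.A0
  have B0 := h.B0
  have C0 := h.C0
  have H0 := h.H0
  have D0 := h.D0
  have E0 := h.E0
  have G0 := h.G0
  have h0 : Q8a (K4N.It (3 : F) 0 (x, y)).1 (K4N.It (3 : F) 0 (x, y)).2 A B C H D E G := h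
  have h1 :
    Q8a (K4N.It (3 : F) 1 (x, y)).1 (K4N.It (3 : F) 1 (x, y)).2
      (3 * D / (A ^ 2)) (-(3 * D * E) / (A ^ 2 * B)) (-(3 * E * G) / (2 * A ^ 2 * C))
      (-(2 * G ^ 2) / (A ^ 2 * H)) (9 * D * E / (A ^ 3 * B)) (-(9 * D * E * G) / (2 * A ^ 3 * B * C))
      (-(3 * E * G ^ 2) / (A ^ 3 * C * H)) := by
    rw [K4N.It_succ]
    refine h0.step.congr ?_ ?_ ?_ ?_ ?_ ?_ ?_ <;> (field_simp; try ring)
  have h2 :
    Q8a (K4N.It (3 : F) 2 (x, y)).1 (K4N.It (3 : F) 2 (x, y)).2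
      (3 * A * E / (B * D)) (-(9 * E * G) / (2 * B * C * D)) (3 * E * G ^ 2 / (2 * B * C * H * D))
      (E ^ 2 * G ^ 2 / (C ^ 2 * H * D ^ 2)) (9 * A ^ 2 * E * G / (2 * B * C * D ^ 2)) (-(9 * A * E * G ^ 2) / (2 * B * C * H * D ^ 2))
      (3 * A * E ^ 2 * G ^ 2 / (2 * B * C ^ 2 * H * D ^ 2)) := by
    rw [K4N.It_succ]
    refine h1.step.congr ?_ ?_ ?_ ?_ ?_ ?_ ?_ <;> (field_simp; try ring)
  have h3 :
    Q8a (K4N.It (3 : F) 3 (x, y)).1 (K4N.It (3 : F) 3 (x, y)).2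
      (3 * B * G / (2 * C * E)) (-(3 * A * B * G ^ 2) / (2 * C * H * D * E)) (3 * B * G ^ 2 / (4 * C ^ 2 * H * D))
      (-(G ^ 2) / (2 * C ^ 2 * H)) (3 * B ^ 2 * G ^ 2 / (2 * C * H * E ^ 2)) (-(3 * A * B ^ 2 * G ^ 2) / (4 * C ^ 2 * H * D * E))
      (3 * B * G ^ 2 / (4 * C ^ 2 * H * E)) := by
    rw [K4N.It_succ]
    refine h2.step.congr ?_ ?_ ?_ ?_ ?_ ?_ ?_ <;> (field_simp; try ring)
  have h4 :
    Q8a (K4N.It (3 : F) 4 (x, y)).1 (K4N.It (3 : F) 4 (x, y)).2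
      (2 * C / H) (-(B) / H) (A / (2 * H))
      (1 / H) (2 * C * E / (H * G)) (-(C * D) / (H * G))
      (-(A * C) / (H * G)) := by
    rw [K4N.It_succ]
    refine h3.step.congr ?_ ?_ ?_ ?_ ?_ ?_ ?_ <;> (field_simp; try ring)
  have h5 :
    Q8a (K4N.It (3 : F) 5 (x, y)).1 (K4N.It (3 : F) 5 (x, y)).2
      (3 * H * E / (2 * C * G)) (-(3 * H * D * E) / (2 * B * G ^ 2)) (-(3 * H * D) / (4 * G ^ 2))
      (-(A ^ 2 * H) / (2 * G ^ 2)) (9 * H ^ 2 * D * E / (4 * B * C * G ^ 2)) (9 * H ^ 2 * D * E / (4 * B * G ^ 3))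
      (3 * A * H ^ 2 * D / (4 * G ^ 3)) := by
    rw [K4N.It_succ]
    refine h4.step.congr ?_ ?_ ?_ ?_ ?_ ?_ ?_ <;> (field_simp; try ring)
  have h6 :
    Q8a (K4N.It (3 : F) 6 (x, y)).1 (K4N.It (3 : F) 6 (x, y)).2
      (3 * C * D / (B * E)) (9 * C * H * D / (2 * B * E * G)) (3 * A * C ^ 2 * H * D / (2 * B * E * G ^ 2))
      (C ^ 2 * H * D ^ 2 / (E ^ 2 * G ^ 2)) (-(9 * C ^ 2 * D) / (B * E ^ 2)) (-(9 * A * C ^ 2 * H * D) / (2 * B * E ^ 2 * G))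
      (-(3 * C ^ 3 * H * D ^ 2) / (B * E ^ 2 * G ^ 2)) := by
    rw [K4N.It_succ]
    refine h5.step.congr ?_ ?_ ?_ ?_ ?_ ?_ ?_ <;> (field_simp; try ring)
  have h7 :
    Q8a (K4N.It (3 : F) 7 (x, y)).1 (K4N.It (3 : F) 7 (x, y)).2
      (-(3 * B) / D) (-(3 * A * B * C) / (D * E)) (-(3 * B * C * H) / (2 * E * G))
      (-(2 * C ^ 2 * H) / (G ^ 2)) (3 * A * B ^ 2 / (D ^ 2)) (3 * B ^ 2 * C / (D * E))
      (3 * B * C * H / (D * G)) := by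
    rw [K4N.It_succ]
    refine h6.step.congr ?_ ?_ ?_ ?_ ?_ ?_ ?_ <;> (field_simp; try ring)
  exact ⟨h0, h1, h2, h3, h4, h5, h6, h7⟩

end tup

end Pool.Agent.FK4
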