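import Pool.Agent.Lib_helper54.FAM.L8a
import Pool.Agent.Lib_helper54.FAM.T8a
import Pool.Agent.Lib_helper2.K4N.Q8X

set_option autoImplicit false
set_option linter.unusedSectionVars false
set_option linter.unusedVariables false
set_option linter.unusedSimpArgs false
set_option maxRecDepth 100000

/-!
# The first special curve with a point of order eight: the explicit class as monomials
-/

open scoped TensorProduct

namespace Pool.Agent.FK4

open Pool.Agent.MK4 Pool.Agent.TN Pool.Agent.KC72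

section eq

variable {F : Type*} [Field F] {x y A B C H D E G : F}

lemma hkc8 {f f' u u' : F} (h : f = f') (h' : u = u') :
    hk (sy f) (lg u) = hk (sy f') (lg u') := by
  rw [h, h']

lemma hkc8' {f f' u u' : F} (h : f = f') (h' : u = -u') :
    hk (sy f) (lg u) = hk (sy f') (lg u') := by
  rw [h, h', TN.lgneg]

lemma Q8a.odd (h : Q8a x y A B C H D E G) : K4N.term8o x y =
    hk (sy (-3 / B)) (lg ((A ^ 2 * E ^ 6 * G ^ 2 / (C ^ 4 * H * D ^ 6)) ^ 2)) +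
      hk (sy (A / (2 * C))) (lg ((D ^ 4 * G ^ 2 / (A ^ 5 * B ^ 2 * C * H)) ^ 2)) := by
  have A0 := h.A0
  have B0 := h.B0
  have C0 := h.C0
  have H0 := h.H0
  have D0 := h.D0
  have E0 := h.E0
  have G0 := h.G0
  have n1 : A ^ 2 * E ^ 6 * G ^ 2 / (C ^ 4 * H * D ^ 6) ≠ 0 :=
    div_ne_zero (mul_ne_zero (mul_ne_zero (pow_ne_zero 2 A0) (pow_ne_zero 6 E0))
      (pow_ne_zero 2 G0)) (mul_ne_zero (mul_ne_zero (pow_ne_zero 4 C0) H0) (pow_ne_zero 6 D0))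
  have n2 : D ^ 4 * G ^ 2 / (A ^ 5 * B ^ 2 * C * H) ≠ 0 :=
    div_ne_zero (mul_ne_zero (pow_ne_zero 4 D0) (pow_ne_zero 2 G0))
      (mul_ne_zero (mul_ne_zero (mul_ne_zero (pow_ne_zero 5 A0) (pow_ne_zero 2 B0)) C0) H0)
  rw [TN.lgpow n1, TN.lgpow n2, hk_smul_right, hk_smul_right]
  unfold K4N.term8o
  rw [h.hB, h.hC, h.hH, h.hE, h.hG, h.hA, h.hD]
  push_cast
  rfl

lemma Q8a.even {x2 y2 A2 B2 C2 H2 D2 E2 G2 x4 y4 A4 B4 C4 H4 D4 E4 G4 x6 y6 A6 B6 C6 H6 D6 E6 G6 : F}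
    (h : Q8a x y A B C H D E G) (h2 : Q8a x2 y2 A2 B2 C2 H2 D2 E2 G2)
    (h4 : Q8a x4 y4 A4 B4 C4 H4 D4 E4 G4) (h6 : Q8a x6 y6 A6 B6 C6 H6 D6 E6 G6) :
    K4N.term8e x y x2 x4 x6 =
    hk (sy (-(2 * E * G ^ 2) / (A * C * H * D))) (lg (A2 / 2 * (A6 / 2) ^ 4 * (2 * C6 / B6))) +
      hk (sy (E * G / (A * B * C))) (lg ((A / 2 * (2 * C2 / B2) ^ 4 * (2 * C4 / B4))⁻¹)) +
      hk (sy (-(2 * C ^ 2 * H * D) / (E * G ^ 2)))
        (lg ((A6 / 2 * (A2 / 2) ^ 4 * (2 * C2 / B2))⁻¹)) +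
      hk (sy (A * C * H / (E * G))) (lg (A / 2 * (2 * C6 / B6) ^ 4 * (2 * C4 / B4))) := by
  rw [TN.lginv, TN.lginv, hk_neg_right, hk_neg_right]
  unfold K4N.term8e
  rw [h.hB, h.hC, h.hH, h.hE, h.hG, h.hA, h.hD, h2.hC, h2.hB, h2.hA, h4.hC, h4.hB, h6.hC, h6.hB,
    h6.hA]
  abel

/-- the class as a combination of monomials -/
theorem xi8a_eq [CharZero F] (he : y ^ 2 - 1 / 2 * x * y - 3 * y = x ^ 3 - 3 * x ^ 2)
    (hne : ∀ z ∈ FK4R.g8a x y, z ≠ 0) :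
    K4N.xi8 x y = zt (FK4R.g8a x y) N8C.c8a_cls L8a := by
  have A0 : x ≠ 0 := hne _ (by simp [FK4R.g8a])
  have B0 : x - 3 ≠ 0 := hne _ (by simp [FK4R.g8a])
  have C0 : x - (3 / 2) ≠ 0 := hne _ (by simp [FK4R.g8a])
  have H0 : x - 2 ≠ 0 := hne _ (by simp [FK4R.g8a])
  have D0 : y ≠ 0 := hne _ (by simp [FK4R.g8a])
  have E0 : y - (3 / 2) * x ≠ 0 := hne _ (by simp [FK4R.g8a])
  have G0 : y - x ≠ 0 := hne _ (by simp [FK4R.g8a])
  obtain ⟨B, hB⟩ : ∃ B, x - 3 = B := ⟨_, rfl⟩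
  obtain ⟨C, hC⟩ : ∃ C, x - (3 / 2) = C := ⟨_, rfl⟩
  obtain ⟨H, hH⟩ : ∃ H, x - 2 = H := ⟨_, rfl⟩
  obtain ⟨E, hE⟩ : ∃ E, y - (3 / 2) * x = E := ⟨_, rfl⟩
  obtain ⟨G, hG⟩ : ∃ G, y - x = G := ⟨_, rfl⟩
  have hg : FK4R.g8a x y = [x, B, C, H, y, E, G, 2, 3] := by
    rw [← hB, ← hC, ← hH, ← hE, ← hG]; rfl
  have hQ : Q8a x y x B C H y E G := by
    refine ⟨rfl, hB, hC, hH, rfl, hE, hG, A0, ?_, ?_, ?_, D0, ?_, ?_, by linear_combination he⟩
    · rw [← hB]; exact B0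
    · rw [← hC]; exact C0
    · rw [← hH]; exact H0
    · rw [← hE]; exact E0
    · rw [← hG]; exact G0
  rw [hB] at B0
  rw [hC] at C0
  rw [hH] at H0
  rw [hE] at E0
  rw [hG] at G0
  obtain ⟨h0, h1, h2, h3, h4, h5, h6, h7⟩ := hQ.all
  have o1 := h1.odd
  have o3 := h3.odd
  have o5 := h5.odd
  have o7 := h7.odd
  have e0 := h0.even h2 h4 h6
  have e2 := h2.even h4 h6 h0
  have e4 := h4.even h6 h0 h2
  have e6 := h6.even h0 h2 h4
  have s1 : K4N.xi8 x y =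
      (K4N.term8o (K4N.It (3 : F) 1 (x, y)).1 (K4N.It (3 : F) 1 (x, y)).2 +
        K4N.term8e (K4N.It (3 : F) 0 (x, y)).1 (K4N.It (3 : F) 0 (x, y)).2
          (K4N.It (3 : F) 2 (x, y)).1 (K4N.It (3 : F) 4 (x, y)).1 (K4N.It (3 : F) 6 (x, y)).1) +
      (K4N.term8o (K4N.It (3 : F) 3 (x, y)).1 (K4N.It (3 : F) 3 (x, y)).2 +
        K4N.term8e (K4N.It (3 : F) 2 (x, y)).1 (K4N.It (3 : F) 2 (x, y)).2
          (K4N.It (3 : F) 4 (x, y)).1 (K4N.It (3 : F) 6 (x, y)).1 (K4N.It (3 : F) 0 (x, y)).1) +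
      (K4N.term8o (K4N.It (3 : F) 5 (x, y)).1 (K4N.It (3 : F) 5 (x, y)).2 +
        K4N.term8e (K4N.It (3 : F) 4 (x, y)).1 (K4N.It (3 : F) 4 (x, y)).2
          (K4N.It (3 : F) 6 (x, y)).1 (K4N.It (3 : F) 0 (x, y)).1 (K4N.It (3 : F) 2 (x, y)).1) +
      (K4N.term8o (K4N.It (3 : F) 7 (x, y)).1 (K4N.It (3 : F) 7 (x, y)).2 +
        K4N.term8e (K4N.It (3 : F) 6 (x, y)).1 (K4N.It (3 : F) 6 (x, y)).2
          (K4N.It (3 : F) 0 (x, y)).1 (K4N.It (3 : F) 2 (x, y)).1 (K4N.It (3 : F) 4 (x, y)).1) := by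
    unfold K4N.xi8
    rw [Fin.sum_univ_four]
    rfl
  rw [s1, o1, o3, o5, o7, e0, e2, e4, e6]
  generalize hgg : FK4R.g8a x y = g at hg ⊢
  have p0 : oo N8C.c8a_cls (5, 2) = (false, [2, 1, 0, 0, -1, -1, 0, 0, 0]) := by decide +kernel
  have p1 : oo N8C.c8a_cls (9, 1) = (true, [0, 0, 1, 0, 1, -1, -1, 0, 0]) := by decide +kernel
  have p2 : oo N8C.c8a_cls (28, 4) = (false, [-1, -1, 1, 1, 1, 1, -2, 1, 0]) := by decide +kernel
  have p3 : oo N8C.c8a_cls (35, 4) = (false, [0, 0, 1, 1, 1, -1, -1, 0, 0]) := by decide +kernel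
  have p4 : oo N8C.c8a_cls (6, 4) = (false, [0, 1, 0, -1, -1, -1, 2, 1, 0]) := by decide +kernel
  have p5 : oo N8C.c8a_cls (9, 4) = (true, [0, 0, -1, 0, -1, 1, 1, 0, 0]) := by decide +kernel
  have p6 : oo N8C.c8a_cls (37, 0) = (false, [-1, -1, -1, 0, 1, 1, 0, 0, 0]) := by decide +kernel
  have p7 : oo N8C.c8a_cls (35, 1) = (false, [0, 0, -1, -1, -1, 1, 1, 0, 0]) := by decide +kernel
  have p8 : oo N8C.c8a_cls (10, 0) = (true, [-1, 0, -1, -1, -1, 1, 2, 1, 0]) := by decide +kernel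
  have p9 : oo N8C.c8a_cls (12, 0) = (false, [-1, -1, -1, 0, 0, 1, 1, 0, 0]) := by decide +kernel
  have p10 : oo N8C.c8a_cls (24, 4) = (true, [0, 0, 2, 1, 1, -1, -2, 1, 0]) := by decide +kernel
  have p11 : oo N8C.c8a_cls (27, 2) = (false, [1, 0, 1, 1, 0, -1, -1, 0, 0]) := by decide +kernel
  have p12 : oo N8C.c8a_cls (40, 1) = (false, [0, 0, -1, -1, 0, 0, 1, 0, 0]) := by decide +kernel
  have p13 : oo N8C.c8a_cls (38, 1) = (false, [1, 1, -1, -1, -1, 0, 1, 0, -1]) := by decide +kernel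
  have p14 : oo N8C.c8a_cls (53, 4) = (false, [-1, 0, 0, 0, 0, 0, 1, 1, 0]) := by decide +kernel
  have p15 : oo N8C.c8a_cls (55, 4) = (true, [-1, 0, 0, 0, 0, 1, 0, 1, -1]) := by decide +kernel
  have p16 : oo N8C.c8a_cls (11, 2) = (false, [1, 0, 1, 1, 1, -1, -2, 0, 0]) := by decide +kernel
  have p17 : oo N8C.c8a_cls (13, 1) = (true, [0, -1, 1, 1, 1, 0, -2, 0, 0]) := by decide +kernel
  have p18 : oo N8C.c8a_cls (26, 0) = (false, [0, 0, -2, -1, -1, 1, 2, 0, 0]) := by decide +kernel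
  have p19 : oo N8C.c8a_cls (25, 1) = (false, [0, 0, -1, -1, -1, 0, 2, 0, 0]) := by decide +kernel
  have p20 : oo N8C.c8a_cls (39, 4) = (true, [0, 0, 1, 1, 0, 0, -1, 1, 0]) := by decide +kernel
  have p21 : oo N8C.c8a_cls (41, 4) = (false, [0, 1, 1, 0, 0, -1, 0, 1, -1]) := by decide +kernel
  have p22 : oo N8C.c8a_cls (54, 1) = (true, [1, 0, 0, 0, 0, 0, -1, 0, 0]) := by decide +kernel
  have p23 : oo N8C.c8a_cls (52, 1) = (false, [0, 0, 0, 0, 1, 0, -1, 0, -1]) := by decide +kernel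
  have z : zt g N8C.c8a_cls L8a =
    hk (sy (ev g (false, [2, 1, 0, 0, -1, -1, 0, 0, 0]))) (lg (evl g [0, 0, -8, -2, 4, -4, 8, -6, 0])) + (
    hk (sy (ev g (true, [0, 0, 1, 0, 1, -1, -1, 0, 0]))) (lg (evl g [0, -4, -2, -2, -6, 6, 2, 0, 4])) + (
    hk (sy (ev g (false, [-1, -1, 1, 1, 1, 1, -2, 1, 0]))) (lg (evl g [12, 0, -4, 6, -4, 4, -8, -6, 0])) + (
    hk (sy (ev g (false, [0, 0, 1, 1, 1, -1, -1, 0, 0]))) (lg (evl g [-4, 4, 6, -4, 6, -6, -2, 4, -4])) + (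
    hk (sy (ev g (false, [0, 1, 0, -1, -1, -1, 2, 1, 0]))) (lg (evl g [0, 0, 8, 2, -4, 4, -8, 6, 0])) + (
    hk (sy (ev g (true, [0, 0, -1, 0, -1, 1, 1, 0, 0]))) (lg (evl g [0, -4, 2, 6, 6, -6, -2, -4, 4])) + (
    hk (sy (ev g (false, [-1, -1, -1, 0, 1, 1, 0, 0, 0]))) (lg (evl g [-12, 0, 4, -6, 4, -4, 8, 6, 0])) + (
    hk (sy (ev g (false, [0, 0, -1, -1, -1, 1, 1, 0, 0]))) (lg (evl g [4, 4, -6, 0, -6, 6, 2, 0, -4])) + (
    hk (sy (ev g (true, [-1, 0, -1, -1, -1, 1, 2, 1, 0]))) (lg (evl g [2, -5, 5, 0, 3, -3, -1, -4, 4])) + (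
    hk (sy (ev g (false, [-1, -1, -1, 0, 0, 1, 1, 0, 0]))) (lg (evl g [-2, 1, 0, 4, 0, 0, -4, -3, 4])) + (
    hk (sy (ev g (true, [0, 0, 2, 1, 1, -1, -2, 1, 0]))) (lg (evl g [-4, 5, -1, 1, 3, -3, -1, 4, -4])) + (
    hk (sy (ev g (false, [1, 0, 1, 1, 0, -1, -1, 0, 0]))) (lg (evl g [6, -1, 4, 0, 0, 0, -4, 3, -4])) + (
    hk (sy (ev g (false, [0, 0, -1, -1, 0, 0, 1, 0, 0]))) (lg (evl g [4, -1, 2, -1, 0, 0, 0, -3, 0])) + (
    hk (sy (ev g (false, [1, 1, -1, -1, -1, 0, 1, 0, -1]))) (lg (evl g [-6, 5, -1, 0, 1, -1, 1, 0, 0])) + (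
    hk (sy (ev g (false, [-1, 0, 0, 0, 0, 0, 1, 1, 0]))) (lg (evl g [-2, 1, -4, 4, 0, 0, 0, 1, 0])) + (
    hk (sy (ev g (true, [-1, 0, 0, 0, 0, 1, 0, 1, -1]))) (lg (evl g [2, -5, 5, 0, -1, 1, -1, 4, 0])) + (
    hk (sy (ev g (false, [1, 0, 1, 1, 1, -1, -2, 0, 0]))) (lg (evl g [4, -5, 1, -1, -3, 3, 1, -4, 4])) + (
    hk (sy (ev g (true, [0, -1, 1, 1, 1, 0, -2, 0, 0]))) (lg (evl g [-4, 1, -6, 1, 0, 0, 4, -5, 4])) + (
    hk (sy (ev g (false, [0, 0, -2, -1, -1, 1, 2, 0, 0]))) (lg (evl g [-2, 5, -5, 0, -3, 3, 1, 4, -4])) + (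
    hk (sy (ev g (false, [0, 0, -1, -1, -1, 0, 2, 0, 0]))) (lg (evl g [0, -1, 2, -5, 0, 0, 4, 5, -4])) + (
    hk (sy (ev g (true, [0, 0, 1, 1, 0, 0, -1, 1, 0]))) (lg (evl g [2, -1, 4, -4, 0, 0, 0, -1, 0])) + (
    hk (sy (ev g (false, [0, 1, 1, 0, 0, -1, 0, 1, -1]))) (lg (evl g [0, 5, -5, 1, -1, 1, -1, -4, 0])) + (
    hk (sy (ev g (true, [1, 0, 0, 0, 0, 0, -1, 0, 0]))) (lg (evl g [-4, 1, -2, 1, 0, 0, 0, 3, 0])) + (
    hk (sy (ev g (false, [0, 0, 0, 0, 1, 0, -1, 0, -1]))) (lg (evl g [4, -5, 1, -1, 1, -1, 1, 0, 0])) + 0))))))))))))))))))))))) := by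
    rw [← p0, ← p1, ← p2, ← p3, ← p4, ← p5, ← p6, ← p7, ← p8, ← p9, ← p10, ← p11, ← p12, ← p13, ← p14, ← p15, ← p16, ← p17, ← p18, ← p19, ← p20, ← p21, ← p22, ← p23]
    rfl
  rw [z, hg]
  clear z hgg
  have c0 := hkc8 (f := -3 / (-(3 * y * E) / (x ^ 2 * B)))
    (f' := ev [x, B, C, H, y, E, G, 2, 3] (false, [2, 1, 0, 0, -1, -1, 0, 0, 0]))
    (u := ((3 * y / (x ^ 2)) ^ 2 * (-(9 * y * E * G) / (2 * x ^ 3 * B * C)) ^ 6 * (-(3 * E * G ^ 2) / (x ^ 3 * C * H)) ^ 2 / ((-(3 * E * G) / (2 * x ^ 2 * C)) ^ 4 * (-(2 * G ^ 2) / (x ^ 2 * H)) * (9 * y * E / (x ^ 3 * B)) ^ 6)) ^ 2)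
    (u' := evl [x, B, C, H, y, E, G, 2, 3] [0, 0, -8, -2, 4, -4, 8, -6, 0])
    (by
      simp only [ev, evl_cons, evl_nil_left, evl_nil_right, cond_true, cond_false, zpow_neg, zpow_ofNat, zpow_zero, zpow_one]
      field_simp
      try ring)
    (by
      simp only [ev, evl_cons, evl_nil_left, evl_nil_right, cond_true, cond_false, zpow_neg, zpow_ofNat, zpow_zero, zpow_one]
      field_simp
      try ring)
  have c1 := hkc8 (f := (3 * y / (x ^ 2)) / (2 * (-(3 * E * G) / (2 * x ^ 2 * C))))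
    (f' := ev [x, B, C, H, y, E, G, 2, 3] (true, [0, 0, 1, 0, 1, -1, -1, 0, 0]))
    (u := ((9 * y * E / (x ^ 3 * B)) ^ 4 * (-(3 * E * G ^ 2) / (x ^ 3 * C * H)) ^ 2 / ((3 * y / (x ^ 2)) ^ 5 * (-(3 * y * E) / (x ^ 2 * B)) ^ 2 * (-(3 * E * G) / (2 * x ^ 2 * C)) * (-(2 * G ^ 2) / (x ^ 2 * H)))) ^ 2)
    (u' := evl [x, B, C, H, y, E, G, 2, 3] [0, -4, -2, -2, -6, 6, 2, 0, 4])
    (by
      simp only [ev, evl_cons, evl_nil_left, evl_nil_right, cond_true, cond_false, zpow_neg, zpow_ofNat, zpow_zero, zpow_one]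
      field_simp
      try ring)
    (by
      simp only [ev, evl_cons, evl_nil_left, evl_nil_right, cond_true, cond_false, zpow_neg, zpow_ofNat, zpow_zero, zpow_one]
      field_simp
      try ring)
  have c2 := hkc8 (f := -3 / (-(3 * x * B * G ^ 2) / (2 * C * H * y * E)))
    (f' := ev [x, B, C, H, y, E, G, 2, 3] (false, [-1, -1, 1, 1, 1, 1, -2, 1, 0]))
    (u := ((3 * B * G / (2 * C * E)) ^ 2 * (-(3 * x * B ^ 2 * G ^ 2) / (4 * C ^ 2 * H * y * E)) ^ 6 * (3 * B * G ^ 2 / (4 * C ^ 2 * H * E)) ^ 2 / ((3 * B * G ^ 2 / (4 * C ^ 2 * H * y)) ^ 4 * (-(G ^ 2) / (2 * C ^ 2 * H)) * (3 * B ^ 2 * G ^ 2 / (2 * C * H * E ^ 2)) ^ 6)) ^ 2)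
    (u' := evl [x, B, C, H, y, E, G, 2, 3] [12, 0, -4, 6, -4, 4, -8, -6, 0])
    (by
      simp only [ev, evl_cons, evl_nil_left, evl_nil_right, cond_true, cond_false, zpow_neg, zpow_ofNat, zpow_zero, zpow_one]
      field_simp
      try ring)
    (by
      simp only [ev, evl_cons, evl_nil_left, evl_nil_right, cond_true, cond_false, zpow_neg, zpow_ofNat, zpow_zero, zpow_one]
      field_simp
      try ring)
  have c3 := hkc8 (f := (3 * B * G / (2 * C * E)) / (2 * (3 * B * G ^ 2 / (4 * C ^ 2 * H * y))))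
    (f' := ev [x, B, C, H, y, E, G, 2, 3] (false, [0, 0, 1, 1, 1, -1, -1, 0, 0]))
    (u := ((3 * B ^ 2 * G ^ 2 / (2 * C * H * E ^ 2)) ^ 4 * (3 * B * G ^ 2 / (4 * C ^ 2 * H * E)) ^ 2 / ((3 * B * G / (2 * C * E)) ^ 5 * (-(3 * x * B * G ^ 2) / (2 * C * H * y * E)) ^ 2 * (3 * B * G ^ 2 / (4 * C ^ 2 * H * y)) * (-(G ^ 2) / (2 * C ^ 2 * H)))) ^ 2)
    (u' := evl [x, B, C, H, y, E, G, 2, 3] [-4, 4, 6, -4, 6, -6, -2, 4, -4])
    (by
      simp only [ev, evl_cons, evl_nil_left, evl_nil_right, cond_true, cond_false, zpow_neg, zpow_ofNat, zpow_zero, zpow_one]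
      field_simp
      try ring)
    (by
      simp only [ev, evl_cons, evl_nil_left, evl_nil_right, cond_true, cond_false, zpow_neg, zpow_ofNat, zpow_zero, zpow_one]
      field_simp
      try ring)
  have c4 := hkc8 (f := -3 / (-(3 * H * y * E) / (2 * B * G ^ 2)))
    (f' := ev [x, B, C, H, y, E, G, 2, 3] (false, [0, 1, 0, -1, -1, -1, 2, 1, 0]))
    (u := ((3 * H * E / (2 * C * G)) ^ 2 * (9 * H ^ 2 * y * E / (4 * B * G ^ 3)) ^ 6 * (3 * x * H ^ 2 * y / (4 * G ^ 3)) ^ 2 / ((-(3 * H * y) / (4 * G ^ 2)) ^ 4 * (-(x ^ 2 * H) / (2 * G ^ 2)) * (9 * H ^ 2 * y * E / (4 * B * C * G ^ 2)) ^ 6)) ^ 2)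
    (u' := evl [x, B, C, H, y, E, G, 2, 3] [0, 0, 8, 2, -4, 4, -8, 6, 0])
    (by
      simp only [ev, evl_cons, evl_nil_left, evl_nil_right, cond_true, cond_false, zpow_neg, zpow_ofNat, zpow_zero, zpow_one]
      field_simp
      try ring)
    (by
      simp only [ev, evl_cons, evl_nil_left, evl_nil_right, cond_true, cond_false, zpow_neg, zpow_ofNat, zpow_zero, zpow_one]
      field_simp
      try ring)
  have c5 := hkc8 (f := (3 * H * E / (2 * C * G)) / (2 * (-(3 * H * y) / (4 * G ^ 2))))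
    (f' := ev [x, B, C, H, y, E, G, 2, 3] (true, [0, 0, -1, 0, -1, 1, 1, 0, 0]))
    (u := ((9 * H ^ 2 * y * E / (4 * B * C * G ^ 2)) ^ 4 * (3 * x * H ^ 2 * y / (4 * G ^ 3)) ^ 2 / ((3 * H * E / (2 * C * G)) ^ 5 * (-(3 * H * y * E) / (2 * B * G ^ 2)) ^ 2 * (-(3 * H * y) / (4 * G ^ 2)) * (-(x ^ 2 * H) / (2 * G ^ 2)))) ^ 2)
    (u' := evl [x, B, C, H, y, E, G, 2, 3] [0, -4, 2, 6, 6, -6, -2, -4, 4])
    (by
      simp only [ev, evl_cons, evl_nil_left, evl_nil_right, cond_true, cond_false, zpow_neg, zpow_ofNat, zpow_zero, zpow_one]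
      field_simp
      try ring)
    (by
      simp only [ev, evl_cons, evl_nil_left, evl_nil_right, cond_true, cond_false, zpow_neg, zpow_ofNat, zpow_zero, zpow_one]
      field_simp
      try ring)
  have c6 := hkc8 (f := -3 / (-(3 * x * B * C) / (y * E)))
    (f' := ev [x, B, C, H, y, E, G, 2, 3] (false, [-1, -1, -1, 0, 1, 1, 0, 0, 0]))
    (u := ((-(3 * B) / y) ^ 2 * (3 * B ^ 2 * C / (y * E)) ^ 6 * (3 * B * C * H / (y * G)) ^ 2 / ((-(3 * B * C * H) / (2 * E * G)) ^ 4 * (-(2 * C ^ 2 * H) / (G ^ 2)) * (3 * x * B ^ 2 / (y ^ 2)) ^ 6)) ^ 2)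
    (u' := evl [x, B, C, H, y, E, G, 2, 3] [-12, 0, 4, -6, 4, -4, 8, 6, 0])
    (by
      simp only [ev, evl_cons, evl_nil_left, evl_nil_right, cond_true, cond_false, zpow_neg, zpow_ofNat, zpow_zero, zpow_one]
      field_simp
      try ring)
    (by
      simp only [ev, evl_cons, evl_nil_left, evl_nil_right, cond_true, cond_false, zpow_neg, zpow_ofNat, zpow_zero, zpow_one]
      field_simp
      try ring)
  have c7 := hkc8 (f := (-(3 * B) / y) / (2 * (-(3 * B * C * H) / (2 * E * G))))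
    (f' := ev [x, B, C, H, y, E, G, 2, 3] (false, [0, 0, -1, -1, -1, 1, 1, 0, 0]))
    (u := ((3 * x * B ^ 2 / (y ^ 2)) ^ 4 * (3 * B * C * H / (y * G)) ^ 2 / ((-(3 * B) / y) ^ 5 * (-(3 * x * B * C) / (y * E)) ^ 2 * (-(3 * B * C * H) / (2 * E * G)) * (-(2 * C ^ 2 * H) / (G ^ 2)))) ^ 2)
    (u' := evl [x, B, C, H, y, E, G, 2, 3] [4, 4, -6, 0, -6, 6, 2, 0, -4])
    (by
      simp only [ev, evl_cons, evl_nil_left, evl_nil_right, cond_true, cond_false, zpow_neg, zpow_ofNat, zpow_zero, zpow_one]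
      field_simp
      try ring)
    (by
      simp only [ev, evl_cons, evl_nil_left, evl_nil_right, cond_true, cond_false, zpow_neg, zpow_ofNat, zpow_zero, zpow_one]
      field_simp
      try ring)
  have c8 := hkc8 (f := -(2 * (E) * (G) ^ 2) / ((x) * (C) * (H) * (y)))
    (f' := ev [x, B, C, H, y, E, G, 2, 3] (true, [-1, 0, -1, -1, -1, 1, 2, 1, 0]))
    (u := (3 * x * E / (B * y)) / 2 * ((3 * C * y / (B * E)) / 2) ^ 4 * (2 * (3 * x * C ^ 2 * H * y / (2 * B * E * G ^ 2)) / (9 * C * H * y / (2 * B * E * G))))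
    (u' := evl [x, B, C, H, y, E, G, 2, 3] [2, -5, 5, 0, 3, -3, -1, -4, 4])
    (by
      simp only [ev, evl_cons, evl_nil_left, evl_nil_right, cond_true, cond_false, zpow_neg, zpow_ofNat, zpow_zero, zpow_one]
      field_simp
      try ring)
    (by
      simp only [ev, evl_cons, evl_nil_left, evl_nil_right, cond_true, cond_false, zpow_neg, zpow_ofNat, zpow_zero, zpow_one]
      field_simp
      try ring)
  have c9 := hkc8' (f := (E) * (G) / ((x) * (B) * (C)))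
    (f' := ev [x, B, C, H, y, E, G, 2, 3] (false, [-1, -1, -1, 0, 0, 1, 1, 0, 0]))
    (u := ((x) / 2 * (2 * (3 * E * G ^ 2 / (2 * B * C * H * y)) / (-(9 * E * G) / (2 * B * C * y))) ^ 4 * (2 * (x / (2 * H)) / (-(B) / H)))⁻¹)
    (u' := evl [x, B, C, H, y, E, G, 2, 3] [-2, 1, 0, 4, 0, 0, -4, -3, 4])
    (by
      simp only [ev, evl_cons, evl_nil_left, evl_nil_right, cond_true, cond_false, zpow_neg, zpow_ofNat, zpow_zero, zpow_one]
      field_simp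
      try ring)
    (by
      simp only [ev, evl_cons, evl_nil_left, evl_nil_right, cond_true, cond_false, zpow_neg, zpow_ofNat, zpow_zero, zpow_one]
      field_simp
      try ring)
  have c10 := hkc8' (f := -(2 * (C) ^ 2 * (H) * (y)) / ((E) * (G) ^ 2))
    (f' := ev [x, B, C, H, y, E, G, 2, 3] (true, [0, 0, 2, 1, 1, -1, -2, 1, 0]))
    (u := ((3 * C * y / (B * E)) / 2 * ((3 * x * E / (B * y)) / 2) ^ 4 * (2 * (3 * E * G ^ 2 / (2 * B * C * H * y)) / (-(9 * E * G) / (2 * B * C * y))))⁻¹)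
    (u' := evl [x, B, C, H, y, E, G, 2, 3] [-4, 5, -1, 1, 3, -3, -1, 4, -4])
    (by
      simp only [ev, evl_cons, evl_nil_left, evl_nil_right, cond_true, cond_false, zpow_neg, zpow_ofNat, zpow_zero, zpow_one]
      field_simp
      try ring)
    (by
      simp only [ev, evl_cons, evl_nil_left, evl_nil_right, cond_true, cond_false, zpow_neg, zpow_ofNat, zpow_zero, zpow_one]
      field_simp
      try ring)
  have c11 := hkc8' (f := (x) * (C) * (H) / ((E) * (G)))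
    (f' := ev [x, B, C, H, y, E, G, 2, 3] (false, [1, 0, 1, 1, 0, -1, -1, 0, 0]))
    (u := (x) / 2 * (2 * (3 * x * C ^ 2 * H * y / (2 * B * E * G ^ 2)) / (9 * C * H * y / (2 * B * E * G))) ^ 4 * (2 * (x / (2 * H)) / (-(B) / H)))
    (u' := evl [x, B, C, H, y, E, G, 2, 3] [6, -1, 4, 0, 0, 0, -4, 3, -4])
    (by
      simp only [ev, evl_cons, evl_nil_left, evl_nil_right, cond_true, cond_false, zpow_neg, zpow_ofNat, zpow_zero, zpow_one]
      field_simp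
      try ring)
    (by
      simp only [ev, evl_cons, evl_nil_left, evl_nil_right, cond_true, cond_false, zpow_neg, zpow_ofNat, zpow_zero, zpow_one]
      field_simp
      try ring)
  have c12 := hkc8 (f := -(2 * (-(9 * x * E * G ^ 2) / (2 * B * C * H * y ^ 2)) * (3 * x * E ^ 2 * G ^ 2 / (2 * B * C ^ 2 * H * y ^ 2)) ^ 2) / ((3 * x * E / (B * y)) * (3 * E * G ^ 2 / (2 * B * C * H * y)) * (E ^ 2 * G ^ 2 / (C ^ 2 * H * y ^ 2)) * (9 * x ^ 2 * E * G / (2 * B * C * y ^ 2))))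
    (f' := ev [x, B, C, H, y, E, G, 2, 3] (false, [0, 0, -1, -1, 0, 0, 1, 0, 0]))
    (u := (2 * C / H) / 2 * ((x) / 2) ^ 4 * (2 * (C) / (B)))
    (u' := evl [x, B, C, H, y, E, G, 2, 3] [4, -1, 2, -1, 0, 0, 0, -3, 0])
    (by
      simp only [ev, evl_cons, evl_nil_left, evl_nil_right, cond_true, cond_false, zpow_neg, zpow_ofNat, zpow_zero, zpow_one]
      field_simp
      try ring)
    (by
      simp only [ev, evl_cons, evl_nil_left, evl_nil_right, cond_true, cond_false, zpow_neg, zpow_ofNat, zpow_zero, zpow_one]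
      field_simp
      try ring)
  have c13 := hkc8 (f := (-(9 * x * E * G ^ 2) / (2 * B * C * H * y ^ 2)) * (3 * x * E ^ 2 * G ^ 2 / (2 * B * C ^ 2 * H * y ^ 2)) / ((3 * x * E / (B * y)) * (-(9 * E * G) / (2 * B * C * y)) * (3 * E * G ^ 2 / (2 * B * C * H * y))))
    (f' := ev [x, B, C, H, y, E, G, 2, 3] (false, [1, 1, -1, -1, -1, 0, 1, 0, -1]))
    (u := ((3 * x * E / (B * y)) / 2 * (2 * (x / (2 * H)) / (-(B) / H)) ^ 4 * (2 * (3 * x * C ^ 2 * H * y / (2 * B * E * G ^ 2)) / (9 * C * H * y / (2 * B * E * G))))⁻¹)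
    (u' := evl [x, B, C, H, y, E, G, 2, 3] [-6, 5, -1, 0, 1, -1, 1, 0, 0])
    (by
      simp only [ev, evl_cons, evl_nil_left, evl_nil_right, cond_true, cond_false, zpow_neg, zpow_ofNat, zpow_zero, zpow_one]
      field_simp
      try ring)
    (by
      simp only [ev, evl_cons, evl_nil_left, evl_nil_right, cond_true, cond_false, zpow_neg, zpow_ofNat, zpow_zero, zpow_one]
      field_simp
      try ring)
  have c14 := hkc8' (f := -(2 * (3 * E * G ^ 2 / (2 * B * C * H * y)) ^ 2 * (E ^ 2 * G ^ 2 / (C ^ 2 * H * y ^ 2)) * (9 * x ^ 2 * E * G / (2 * B * C * y ^ 2))) / ((-(9 * x * E * G ^ 2) / (2 * B * C * H * y ^ 2)) * (3 * x * E ^ 2 * G ^ 2 / (2 * B * C ^ 2 * H * y ^ 2)) ^ 2))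
    (f' := ev [x, B, C, H, y, E, G, 2, 3] (false, [-1, 0, 0, 0, 0, 0, 1, 1, 0]))
    (u := ((x) / 2 * ((2 * C / H) / 2) ^ 4 * (2 * (x / (2 * H)) / (-(B) / H)))⁻¹)
    (u' := evl [x, B, C, H, y, E, G, 2, 3] [-2, 1, -4, 4, 0, 0, 0, 1, 0])
    (by
      simp only [ev, evl_cons, evl_nil_left, evl_nil_right, cond_true, cond_false, zpow_neg, zpow_ofNat, zpow_zero, zpow_one]
      field_simp
      try ring)
    (by
      simp only [ev, evl_cons, evl_nil_left, evl_nil_right, cond_true, cond_false, zpow_neg, zpow_ofNat, zpow_zero, zpow_one]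
      field_simp
      try ring)
  have c15 := hkc8 (f := (3 * x * E / (B * y)) * (3 * E * G ^ 2 / (2 * B * C * H * y)) * (E ^ 2 * G ^ 2 / (C ^ 2 * H * y ^ 2)) / ((-(9 * x * E * G ^ 2) / (2 * B * C * H * y ^ 2)) * (3 * x * E ^ 2 * G ^ 2 / (2 * B * C ^ 2 * H * y ^ 2))))
    (f' := ev [x, B, C, H, y, E, G, 2, 3] (true, [-1, 0, 0, 0, 0, 1, 0, 1, -1]))
    (u := (3 * x * E / (B * y)) / 2 * (2 * (C) / (B)) ^ 4 * (2 * (3 * x * C ^ 2 * H * y / (2 * B * E * G ^ 2)) / (9 * C * H * y / (2 * B * E * G))))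
    (u' := evl [x, B, C, H, y, E, G, 2, 3] [2, -5, 5, 0, -1, 1, -1, 4, 0])
    (by
      simp only [ev, evl_cons, evl_nil_left, evl_nil_right, cond_true, cond_false, zpow_neg, zpow_ofNat, zpow_zero, zpow_one]
      field_simp
      try ring)
    (by
      simp only [ev, evl_cons, evl_nil_left, evl_nil_right, cond_true, cond_false, zpow_neg, zpow_ofNat, zpow_zero, zpow_one]
      field_simp
      try ring)
  have c16 := hkc8' (f := -(2 * (-(C * y) / (H * G)) * (-(x * C) / (H * G)) ^ 2) / ((2 * C / H) * (x / (2 * H)) * (1 / H) * (2 * C * E / (H * G))))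
    (f' := ev [x, B, C, H, y, E, G, 2, 3] (false, [1, 0, 1, 1, 1, -1, -2, 0, 0]))
    (u := (3 * C * y / (B * E)) / 2 * ((3 * x * E / (B * y)) / 2) ^ 4 * (2 * (3 * E * G ^ 2 / (2 * B * C * H * y)) / (-(9 * E * G) / (2 * B * C * y))))
    (u' := evl [x, B, C, H, y, E, G, 2, 3] [4, -5, 1, -1, -3, 3, 1, -4, 4])
    (by
      simp only [ev, evl_cons, evl_nil_left, evl_nil_right, cond_true, cond_false, zpow_neg, zpow_ofNat, zpow_zero, zpow_one]
      field_simp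
      try ring)
    (by
      simp only [ev, evl_cons, evl_nil_left, evl_nil_right, cond_true, cond_false, zpow_neg, zpow_ofNat, zpow_zero, zpow_one]
      field_simp
      try ring)
  have c17 := hkc8 (f := (-(C * y) / (H * G)) * (-(x * C) / (H * G)) / ((2 * C / H) * (-(B) / H) * (x / (2 * H))))
    (f' := ev [x, B, C, H, y, E, G, 2, 3] (true, [0, -1, 1, 1, 1, 0, -2, 0, 0]))
    (u := ((2 * C / H) / 2 * (2 * (3 * x * C ^ 2 * H * y / (2 * B * E * G ^ 2)) / (9 * C * H * y / (2 * B * E * G))) ^ 4 * (2 * (C) / (B)))⁻¹)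
    (u' := evl [x, B, C, H, y, E, G, 2, 3] [-4, 1, -6, 1, 0, 0, 4, -5, 4])
    (by
      simp only [ev, evl_cons, evl_nil_left, evl_nil_right, cond_true, cond_false, zpow_neg, zpow_ofNat, zpow_zero, zpow_one]
      field_simp
      try ring)
    (by
      simp only [ev, evl_cons, evl_nil_left, evl_nil_right, cond_true, cond_false, zpow_neg, zpow_ofNat, zpow_zero, zpow_one]
      field_simp
      try ring)
  have c18 := hkc8 (f := -(2 * (x / (2 * H)) ^ 2 * (1 / H) * (2 * C * E / (H * G))) / ((-(C * y) / (H * G)) * (-(x * C) / (H * G)) ^ 2))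
    (f' := ev [x, B, C, H, y, E, G, 2, 3] (false, [0, 0, -2, -1, -1, 1, 2, 0, 0]))
    (u := ((3 * x * E / (B * y)) / 2 * ((3 * C * y / (B * E)) / 2) ^ 4 * (2 * (3 * x * C ^ 2 * H * y / (2 * B * E * G ^ 2)) / (9 * C * H * y / (2 * B * E * G))))⁻¹)
    (u' := evl [x, B, C, H, y, E, G, 2, 3] [-2, 5, -5, 0, -3, 3, 1, 4, -4])
    (by
      simp only [ev, evl_cons, evl_nil_left, evl_nil_right, cond_true, cond_false, zpow_neg, zpow_ofNat, zpow_zero, zpow_one]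
      field_simp
      try ring)
    (by
      simp only [ev, evl_cons, evl_nil_left, evl_nil_right, cond_true, cond_false, zpow_neg, zpow_ofNat, zpow_zero, zpow_one]
      field_simp
      try ring)
  have c19 := hkc8 (f := (2 * C / H) * (x / (2 * H)) * (1 / H) / ((-(C * y) / (H * G)) * (-(x * C) / (H * G))))
    (f' := ev [x, B, C, H, y, E, G, 2, 3] (false, [0, 0, -1, -1, -1, 0, 2, 0, 0]))
    (u := (2 * C / H) / 2 * (2 * (3 * E * G ^ 2 / (2 * B * C * H * y)) / (-(9 * E * G) / (2 * B * C * y))) ^ 4 * (2 * (C) / (B)))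
    (u' := evl [x, B, C, H, y, E, G, 2, 3] [0, -1, 2, -5, 0, 0, 4, 5, -4])
    (by
      simp only [ev, evl_cons, evl_nil_left, evl_nil_right, cond_true, cond_false, zpow_neg, zpow_ofNat, zpow_zero, zpow_one]
      field_simp
      try ring)
    (by
      simp only [ev, evl_cons, evl_nil_left, evl_nil_right, cond_true, cond_false, zpow_neg, zpow_ofNat, zpow_zero, zpow_one]
      field_simp
      try ring)
  have c20 := hkc8' (f := -(2 * (-(9 * x * C ^ 2 * H * y) / (2 * B * E ^ 2 * G)) * (-(3 * C ^ 3 * H * y ^ 2) / (B * E ^ 2 * G ^ 2)) ^ 2) / ((3 * C * y / (B * E)) * (3 * x * C ^ 2 * H * y / (2 * B * E * G ^ 2)) * (C ^ 2 * H * y ^ 2 / (E ^ 2 * G ^ 2)) * (-(9 * C ^ 2 * y) / (B * E ^ 2))))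
    (f' := ev [x, B, C, H, y, E, G, 2, 3] (true, [0, 0, 1, 1, 0, 0, -1, 1, 0]))
    (u := (x) / 2 * ((2 * C / H) / 2) ^ 4 * (2 * (x / (2 * H)) / (-(B) / H)))
    (u' := evl [x, B, C, H, y, E, G, 2, 3] [2, -1, 4, -4, 0, 0, 0, -1, 0])
    (by
      simp only [ev, evl_cons, evl_nil_left, evl_nil_right, cond_true, cond_false, zpow_neg, zpow_ofNat, zpow_zero, zpow_one]
      field_simp
      try ring)
    (by
      simp only [ev, evl_cons, evl_nil_left, evl_nil_right, cond_true, cond_false, zpow_neg, zpow_ofNat, zpow_zero, zpow_one]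
      field_simp
      try ring)
  have c21 := hkc8' (f := (-(9 * x * C ^ 2 * H * y) / (2 * B * E ^ 2 * G)) * (-(3 * C ^ 3 * H * y ^ 2) / (B * E ^ 2 * G ^ 2)) / ((3 * C * y / (B * E)) * (9 * C * H * y / (2 * B * E * G)) * (3 * x * C ^ 2 * H * y / (2 * B * E * G ^ 2))))
    (f' := ev [x, B, C, H, y, E, G, 2, 3] (false, [0, 1, 1, 0, 0, -1, 0, 1, -1]))
    (u := ((3 * C * y / (B * E)) / 2 * (2 * (C) / (B)) ^ 4 * (2 * (3 * E * G ^ 2 / (2 * B * C * H * y)) / (-(9 * E * G) / (2 * B * C * y))))⁻¹)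
    (u' := evl [x, B, C, H, y, E, G, 2, 3] [0, 5, -5, 1, -1, 1, -1, -4, 0])
    (by
      simp only [ev, evl_cons, evl_nil_left, evl_nil_right, cond_true, cond_false, zpow_neg, zpow_ofNat, zpow_zero, zpow_one]
      field_simp
      try ring)
    (by
      simp only [ev, evl_cons, evl_nil_left, evl_nil_right, cond_true, cond_false, zpow_neg, zpow_ofNat, zpow_zero, zpow_one]
      field_simp
      try ring)
  have c22 := hkc8 (f := -(2 * (3 * x * C ^ 2 * H * y / (2 * B * E * G ^ 2)) ^ 2 * (C ^ 2 * H * y ^ 2 / (E ^ 2 * G ^ 2)) * (-(9 * C ^ 2 * y) / (B * E ^ 2))) / ((-(9 * x * C ^ 2 * H * y) / (2 * B * E ^ 2 * G)) * (-(3 * C ^ 3 * H * y ^ 2) / (B * E ^ 2 * G ^ 2)) ^ 2))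
    (f' := ev [x, B, C, H, y, E, G, 2, 3] (true, [1, 0, 0, 0, 0, 0, -1, 0, 0]))
    (u := ((2 * C / H) / 2 * ((x) / 2) ^ 4 * (2 * (C) / (B)))⁻¹)
    (u' := evl [x, B, C, H, y, E, G, 2, 3] [-4, 1, -2, 1, 0, 0, 0, 3, 0])
    (by
      simp only [ev, evl_cons, evl_nil_left, evl_nil_right, cond_true, cond_false, zpow_neg, zpow_ofNat, zpow_zero, zpow_one]
      field_simp
      try ring)
    (by
      simp only [ev, evl_cons, evl_nil_left, evl_nil_right, cond_true, cond_false, zpow_neg, zpow_ofNat, zpow_zero, zpow_one]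
      field_simp
      try ring)
  have c23 := hkc8' (f := (3 * C * y / (B * E)) * (3 * x * C ^ 2 * H * y / (2 * B * E * G ^ 2)) * (C ^ 2 * H * y ^ 2 / (E ^ 2 * G ^ 2)) / ((-(9 * x * C ^ 2 * H * y) / (2 * B * E ^ 2 * G)) * (-(3 * C ^ 3 * H * y ^ 2) / (B * E ^ 2 * G ^ 2))))
    (f' := ev [x, B, C, H, y, E, G, 2, 3] (false, [0, 0, 0, 0, 1, 0, -1, 0, -1]))
    (u := (3 * C * y / (B * E)) / 2 * (2 * (x / (2 * H)) / (-(B) / H)) ^ 4 * (2 * (3 * E * G ^ 2 / (2 * B * C * H * y)) / (-(9 * E * G) / (2 * B * C * y))))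
    (u' := evl [x, B, C, H, y, E, G, 2, 3] [4, -5, 1, -1, 1, -1, 1, 0, 0])
    (by
      simp only [ev, evl_cons, evl_nil_left, evl_nil_right, cond_true, cond_false, zpow_neg, zpow_ofNat, zpow_zero, zpow_one]
      field_simp
      try ring)
    (by
      simp only [ev, evl_cons, evl_nil_left, evl_nil_right, cond_true, cond_false, zpow_neg, zpow_ofNat, zpow_zero, zpow_one]
      field_simp
      try ring)
  rw [c0, c1, c2, c3, c4, c5, c6, c7, c8, c9, c10, c11, c12, c13, c14, c15, c16, c17, c18, c19, c20, c21, c22, c23]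
  abel

/-- the class has no residues -/
theorem unram_xi8a {k : Type*} [Field k] [CharZero k] [Algebra k F]
    (he : y ^ 2 - 1 / 2 * x * y - 3 * y = x ^ 3 - 3 * x ^ 2)
    (hne : ∀ z ∈ FK4R.g8a x y, z ≠ 0) : Unram k (K4N.xi8 x y) := by
  have : CharZero F := charZero_of_injective_algebraMap (algebraMap k F).injective
  rw [xi8a_eq he hne]
  exact FK4R.unram8a he hne L8a_res

end eq

end Pool.Agent.FK4
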