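import Pool.Agent.Lib_helper24.FAM.LK
import Pool.Agent.Lib_helper54.FAM.RC11
import Pool.Agent.Lib_helper60.N6S.J
import Pool.Agent.Lib_helper60.N6S.K

set_option autoImplicit false
set_option linter.unusedSectionVars false
set_option maxRecDepth 100000

/-!
# The explicit classes for points of order six, `t = 1/3, -1/3, -1/5`
-/

namespace Pool.Agent.FK4

open Pool.Agent.KC72

/-- the explicit class -/
def L6cx : List Tm :=
  [⟨0, 0, [0, 8, -2, -8, 4, 0, 0]⟩,
   ⟨4, 0, [0, 0, 3, 6, -8, 0, 0]⟩,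
   ⟨12, 0, [-2, 6, -4, 0, 0, 0, 0]⟩,
   ⟨14, 0, [-5, 0, 0, 3, -1, 0, -4]⟩,
   ⟨15, 0, [1, -1, 0, 0, 0, 0, 0]⟩]

lemma L6cx_ok : okT 7 N6S.clsS0 L6cx = true := by decide +kernel

lemma L6cx_D : chkD 7 N6S.clsS0 L6cx = true := by decide +kernel

lemma L6cx_res : FK4R.chkRes FK4R.locs6c FK4R.tab23 N6S.clsS0 L6cx = true := by decide +kernel

/-- the explicit class -/
def L6dx : List Tm :=
  [⟨4, 0, [0, 8, 0, 0, 0, 0, 16]⟩,
   ⟨9, 0, [0, 6, 0, 4, -8, 0, 0]⟩,
   ⟨11, 0, [0, -6, 0, 4, 0, 0, 0]⟩,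
   ⟨15, 0, [0, -3, 0, 2, 0, 0, 0]⟩]

lemma L6dx_ok : okT 7 (N6S.clsS1.take 16) L6dx = true := by decide +kernel

lemma L6dx_D : chkD 7 (N6S.clsS1.take 16) L6dx = true := by decide +kernel

lemma L6dx_res : FK4R.chkRes FK4R.locs6d FK4R.tab23 (N6S.clsS1.take 16) L6dx = true := by decide +kernel

/-- the explicit class -/
def L6ex : List Tm :=
  [⟨1, 0, [0, 0, 8, -7, 2, 8, -2]⟩,
   ⟨5, 0, [0, 0, 1, 0, 0, -4, 1]⟩,
   ⟨8, 0, [0, 0, 0, -2, 2, 0, 0]⟩,
   ⟨12, 0, [0, 0, 1, 0, 0, 4, 1]⟩,
   ⟨15, 0, [0, -1, 0, 0, 1, 0, 0]⟩]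

lemma L6ex_ok : okT 7 (N6S.clsS2.take 16) L6ex = true := by decide +kernel

lemma L6ex_D : chkD 7 (N6S.clsS2.take 16) L6ex = true := by decide +kernel

lemma L6ex_res : FK4R.chkRes3 FK4R.locs6e FK4R.tab235 (N6S.clsS2.take 16) L6ex = true := by decide +kernel


section

open Pool.Agent.N6 (G6)
open Pool.Agent.N6S (glS)

variable {k : Type*} [Field k] [CharZero k] {F : Type*} [Field F] [Algebra k F] {t : k} {x y : F}

lemma glS_c (ht : 3 * t = 1) : glS 0 t x y = FK4R.g6c x y := by
  have : CharZero F := charZero_of_injective_algebraMap (algebraMap k F).injective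
  have ht' : t = 1 / 3 := by
    rw [eq_div_iff three_ne_zero]
    linear_combination ht
  subst ht'
  have e1 : algebraMap k F ((1 / 3) ^ 2 + 1 / 3) = 4 / 9 := by
    rw [map_add, map_pow, map_div₀, map_one, map_ofNat]
    norm_num
  have e2 : algebraMap k F (1 / 3) = 1 / 3 := by
    rw [map_div₀, map_one, map_ofNat]
  have e3 : (N6S.pr 0 : F) = 3 := by
    show ((3 : ℕ) : F) = 3
    norm_num
  unfold glS FK4R.g6c
  rw [e1, e2, e3]

lemma glS_d (ht : 3 * t = -1) : glS 1 t x y = FK4R.g6d x y := by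
  have : CharZero F := charZero_of_injective_algebraMap (algebraMap k F).injective
  have ht' : t = -1 / 3 := by
    rw [eq_div_iff three_ne_zero]
    linear_combination ht
  subst ht'
  have e1 : algebraMap k F ((-1 / 3) ^ 2 + -1 / 3) = -(2 / 9) := by
    rw [map_add, map_pow, map_div₀, map_neg, map_one, map_ofNat]
    norm_num
  have e2 : algebraMap k F (-1 / 3) = -(1 / 3) := by
    rw [map_div₀, map_neg, map_one, map_ofNat]
    norm_num
  have e3 : (N6S.pr 1 : F) = 3 := by
    show ((3 : ℕ) : F) = 3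
    norm_num
  unfold glS FK4R.g6d
  rw [e1, e2, e3]
  simp only [sub_neg_eq_add, neg_mul]

lemma glS_e (ht : 5 * t = -1) : glS 2 t x y = FK4R.g6e x y := by
  have : CharZero F := charZero_of_injective_algebraMap (algebraMap k F).injective
  have h5 : (5 : k) ≠ 0 := by norm_num
  have ht' : t = -1 / 5 := by
    rw [eq_div_iff h5]
    linear_combination ht
  subst ht'
  have e1 : algebraMap k F ((-1 / 5) ^ 2 + -1 / 5) = -(4 / 25) := by
    rw [map_add, map_pow, map_div₀, map_neg, map_one, map_ofNat]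
    norm_num
  have e2 : algebraMap k F (-1 / 5) = -(1 / 5) := by
    rw [map_div₀, map_neg, map_one, map_ofNat]
    norm_num
  have e3 : (N6S.pr 2 : F) = 5 := by
    show ((5 : ℕ) : F) = 5
    norm_num
  unfold glS FK4R.g6e
  rw [e1, e2, e3]
  simp only [sub_neg_eq_add, neg_mul]

/-- **`t = 1/3`: the class is unramified.** -/
theorem unram6cx (ht : 3 * t = 1) (h : G6 t x y) {L : List Tm} {cls : List (Mo × Mo)}
    (hL : FK4R.chkRes FK4R.locs6c FK4R.tab23 cls L = true) :
    Unram k (zt (glS 0 t x y) cls L) := by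
  have : CharZero F := charZero_of_injective_algebraMap (algebraMap k F).injective
  rw [glS_c ht]
  refine FK4R.unram6c ?_ (FK4R.g6c_ne h) hL
  have h3 : 3 * algebraMap k F t = 1 := by
    rw [← map_ofNat (algebraMap k F) 3, ← map_mul, ht, map_one]
  have e : algebraMap k F t = 1 / 3 := by
    rw [eq_div_iff three_ne_zero]
    linear_combination h3
  have h1 := h.eq
  rw [map_add, map_pow, e] at h1
  linear_combination h1

/-- **`t = -1/3`: the class is unramified.** -/
theorem unram6dx (ht : 3 * t = -1) (h : G6 t x y) {L : List Tm} {cls : List (Mo × Mo)}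
    (hL : FK4R.chkRes FK4R.locs6d FK4R.tab23 cls L = true) :
    Unram k (zt (glS 1 t x y) cls L) := by
  have : CharZero F := charZero_of_injective_algebraMap (algebraMap k F).injective
  rw [glS_d ht]
  refine FK4R.unram6d ?_ (FK4R.g6d_ne h) hL
  have h3 : 3 * algebraMap k F t = -1 := by
    rw [← map_ofNat (algebraMap k F) 3, ← map_mul, ht, map_neg, map_one]
  have e : algebraMap k F t = -1 / 3 := by
    rw [eq_div_iff three_ne_zero]
    linear_combination h3
  have h1 := h.eq
  rw [map_add, map_pow, e] at h1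
  linear_combination h1

/-- **`t = -1/5`: the class is unramified.** -/
theorem unram6ex (ht : 5 * t = -1) (h : G6 t x y) {L : List Tm} {cls : List (Mo × Mo)}
    (hL : FK4R.chkRes3 FK4R.locs6e FK4R.tab235 cls L = true) :
    Unram k (zt (glS 2 t x y) cls L) := by
  have : CharZero F := charZero_of_injective_algebraMap (algebraMap k F).injective
  have h5 : (5 : F) ≠ 0 := by norm_num
  rw [glS_e ht]
  refine FK4R.unram6e ?_ (FK4R.g6e_ne h) hL
  have h3 : 5 * algebraMap k F t = -1 := by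
    rw [← map_ofNat (algebraMap k F) 5, ← map_mul, ht, map_neg, map_one]
  have e : algebraMap k F t = -1 / 5 := by
    rw [eq_div_iff h5]
    linear_combination h3
  have h1 := h.eq
  rw [map_add, map_pow, e] at h1
  linear_combination h1

end

end Pool.Agent.FK4
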