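import Pool.Agent.Lib_helper2.K4N.GL

set_option autoImplicit false

/-!
# Sums of products of logarithms of units and logarithmic derivatives of monotone units
-/

namespace Pool.Agent.K4N.PC

open Pool.Agent.K4N.LA

/-- the symmetrized table of a term -/
def tab2 (r : ℕ) (t : Tm) : List (List (List ℤ)) :=
  padd3 (t.tab r) (padd3 (o3 t.g (o2 t.u (t.f.take r)))
    (scl3 (-1) (o3 t.f (o2 t.u (t.g.take r)))))

lemma ev3_tab2 (r : ℕ) (t : Tm) {a d : List ℝ} (hd : d.length ≤ r) :
    ev3 (tab2 r t) a a d = 2 * t.tri a d := by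
  unfold tab2
  rw [ev3_padd, ev3_padd, ev3_tab r t hd, ev3_scl, ev3_o3, ev3_o3, ev2_o2, ev2_o2,
    lin_take _ _ _ hd, lin_take _ _ _ hd]
  unfold Tm.tri
  push_cast
  ring

/-- the sum of the symmetrized tables -/
def sumTab2 (r : ℕ) : List Tm → List (List (List ℤ))
  | [] => []
  | t :: L => padd3 (tab2 r t) (sumTab2 r L)

lemma ev3_sumTab2 (r : ℕ) (L : List Tm) {a d : List ℝ} (hd : d.length ≤ r) :
    ev3 (sumTab2 r L) a a d = 2 * (L.map fun t => t.tri a d).sum := by
  induction L with
  | nil => simp [sumTab2, ev3_nil]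
  | cons t L ih =>
    show ev3 (padd3 (tab2 r t) (sumTab2 r L)) a a d = _
    rw [ev3_padd, ih, ev3_tab2 r t hd, List.map_cons, List.sum_cons]
    ring

/-- a product: the coefficient, the numbers of the two units and of the monotone unit -/
abbrev Pd : Type := ℕ × ℕ × ℕ × ℕ

/-- the table of a sum of products -/
def prTab (Us Ws : List (List ℤ)) : List Pd → List (List (List ℤ))
  | [] => []
  | p :: P => padd3 (scl3 (p.1 : ℤ)
      (padd3 (o3 (Us.getD p.2.1 []) (o2 (Us.getD p.2.2.1 []) (Ws.getD p.2.2.2 [])))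
        (o3 (Us.getD p.2.2.1 []) (o2 (Us.getD p.2.1 []) (Ws.getD p.2.2.2 [])))))
      (prTab Us Ws P)

/-- the value of a product -/
noncomputable def pv (Us Ws : List (List ℤ)) (a d : List ℝ) (p : Pd) : ℝ :=
  (p.1 : ℝ) * (lin (Us.getD p.2.1 []) a * lin (Us.getD p.2.2.1 []) a *
    lin (Ws.getD p.2.2.2 []) d)

lemma ev3_prTab (Us Ws : List (List ℤ)) (P : List Pd) (a d : List ℝ) :
    ev3 (prTab Us Ws P) a a d = 2 * (P.map (pv Us Ws a d)).sum := by
  induction P with
  | nil => simp [prTab, ev3_nil]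
  | cons p P ih =>
    rw [prTab, ev3_padd, ih, ev3_scl, ev3_padd, ev3_o3, ev3_o3, ev2_o2, ev2_o2, List.map_cons,
      List.sum_cons]
    unfold pv
    push_cast
    ring

/-- the products are well formed -/
def chkPr (m l : ℕ) (P : List Pd) : Bool :=
  P.all fun p => decide (0 < p.1) && decide (p.2.1 < m) && decide (p.2.2.1 < m) &&
    decide (p.2.2.2 < l)

lemma getD_mem' {α : Type*} {L : List α} {n : ℕ} (h : n < L.length) (d : α) :
    L.getD n d ∈ L := by
  rw [List.getD_eq_getElem?_getD, List.getElem?_eq_getElem h, Option.getD_some]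
  exact List.getElem_mem h

/-- **positivity from products** -/
theorem tri_pos {r : ℕ} {L : List Tm} {n : ℕ} {Us Ws : List (List ℤ)} {P : List Pd}
    (h : scl3 (n : ℤ) (sumTab2 r L) = prTab Us Ws P) (hP : chkPr Us.length Ws.length P = true)
    (hne : P ≠ []) {a d : List ℝ} (hd : d.length ≤ r) (hU : ∀ u ∈ Us, lin u a < 0)
    (hW : ∀ w ∈ Ws, 0 < lin w d) : 0 < (L.map fun t => t.tri a d).sum := by
  have h1 : 0 < (P.map (pv Us Ws a d)).sum := by
    refine list_sum_pos ?_ (by simpa using hne)
    intro x hx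
    obtain ⟨p, hp, rfl⟩ := List.mem_map.mp hx
    unfold chkPr at hP
    rw [List.all_eq_true] at hP
    have h2 := hP p hp
    simp only [Bool.and_eq_true, decide_eq_true_eq] at h2
    obtain ⟨⟨⟨p1, p2⟩, p3⟩, p4⟩ := h2
    have u1 := hU _ (getD_mem' p2 [])
    have u2 := hU _ (getD_mem' p3 [])
    have w := hW _ (getD_mem' p4 [])
    unfold pv
    have p1' : (0 : ℝ) < p.1 := by exact_mod_cast p1
    exact mul_pos p1' (mul_pos (mul_pos_of_neg_of_neg u1 u2) w)
  have h2 := congrArg (fun M => ev3 M a a d) h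
  simp only [ev3_scl, ev3_sumTab2 r L hd, ev3_prTab] at h2
  by_contra hh
  push Not at hh
  have h3 : ((n : ℤ) : ℝ) * (2 * (L.map fun t => t.tri a d).sum) ≤ 0 :=
    mul_nonpos_of_nonneg_of_nonpos (by positivity) (by linarith)
  linarith

/-- the sum over the images is the same -/
theorem sum_inv2 {r : ℕ} {L : List Tm} {A B : List (List ℤ)}
    (h : sumTab2 r ((L.map (Tm.act B)).map (Tm.act A)) = sumTab2 r L) {a d a' d' a'' d'' : List ℝ}
    (h1 : Rel A a d a' d') (h2 : Rel B a' d' a'' d'') (hd : d.length ≤ r) :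
    (L.map fun t => t.tri a'' d'').sum = (L.map fun t => t.tri a d).sum := by
  have e1 : (L.map fun t => t.tri a'' d'') = (L.map (Tm.act B)).map fun t => t.tri a' d' := by
    rw [List.map_map]
    exact List.map_congr_left fun t _ => h2.tri t
  have e2 : ((L.map (Tm.act B)).map fun t => t.tri a' d') =
      ((L.map (Tm.act B)).map (Tm.act A)).map fun t => t.tri a d := by
    rw [List.map_map (l := L.map (Tm.act B))]
    exact List.map_congr_left fun t _ => h1.tri t
  have h3 := congrArg (fun M => ev3 M a a d) h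
  simp only [ev3_sumTab2 r _ hd] at h3
  rw [e1, e2]
  linarith

/-- the sum over the images is the same -/
theorem sum_inv1 {r : ℕ} {L : List Tm} {A : List (List ℤ)}
    (h : sumTab2 r (L.map (Tm.act A)) = sumTab2 r L) {a d a' d' : List ℝ}
    (h1 : Rel A a d a' d') (hd : d.length ≤ r) :
    (L.map fun t => t.tri a' d').sum = (L.map fun t => t.tri a d).sum := by
  have e1 : (L.map fun t => t.tri a' d') = (L.map (Tm.act A)).map fun t => t.tri a d := by
    rw [List.map_map]
    exact List.map_congr_left fun t _ => h1.tri t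
  have h3 := congrArg (fun M => ev3 M a a d) h
  simp only [ev3_sumTab2 r _ hd] at h3
  rw [e1]
  linarith

end Pool.Agent.K4N.PC
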