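import Pool.Agent.Lib_helper54.FAM.PC1
import Pool.Agent.Lib_helper87.AX.P

set_option autoImplicit false
set_option linter.unusedVariables false
set_option linter.unusedSectionVars false

/-!
# Units as expressions, the density of an element given by a list of terms, the engine
-/

namespace Pool.Agent.K4N.PC

open Filter Topology Pool.Agent.K4N.LA Pool.Agent.KC72
open Pool.Agent.AX (El pev Cv)
open scoped TensorProduct

/-! ### expressions -/

/-- powers -/
def pwE (e : Q2) : ℕ → Q2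
  | 0 => .c 1
  | n + 1 => e * pwE e n

/-- integral powers -/
def zwE (e : Q2) : ℤ → Q2
  | .ofNat n => pwE e n
  | .negSucc n => .c 1 / pwE e (n + 1)

/-- monomials -/
def mE : List Q2 → List ℤ → Q2
  | e :: B, n :: v => zwE e n * mE B v
  | _, _ => .c 1

/-- monomials with sign -/
def fE (B : List Q2) (m : Mo) : Q2 := .c (bif m.1 then -1 else 1) * mE B m.2

/-- polynomials -/
def pE : List ℤ → Q2
  | [] => .c 0
  | a :: l => .c (a : ℚ) + .x * pE l

/-- elements -/
def elE (a : El) : Q2 := (pE a.P + pE a.Q * .y) / .c (a.d : ℚ)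

section

variable {K : Type*} [Field K]

lemma ev_pwE (e : Q2) (n : ℕ) (u v : K) : (pwE e n).ev u v = e.ev u v ^ n := by
  induction n with
  | zero =>
    show ((1 : ℚ) : K) = _
    rw [Rat.cast_one, pow_zero]
  | succ n ih =>
    show (e * pwE e n).ev u v = _
    rw [Q2.ev_mul, ih, pow_succ, mul_comm]

lemma ev_zwE (e : Q2) (n : ℤ) (u v : K) : (zwE e n).ev u v = e.ev u v ^ n := by
  cases n with
  | ofNat n =>
    show (pwE e n).ev u v = _
    rw [ev_pwE, Int.ofNat_eq_natCast, zpow_natCast]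
  | negSucc n =>
    show (.c 1 / pwE e (n + 1) : Q2).ev u v = _
    rw [Q2.ev_div, ev_pwE, zpow_negSucc, Q2.ev_c, Rat.cast_one, one_div]

lemma ev_mE : ∀ (B : List Q2) (v : List ℤ) (u w : K),
    (mE B v).ev u w = evl (B.map fun e => e.ev u w) v
  | [], v, u, w => by
    rw [List.map_nil, evl_nil_left]
    show ((1 : ℚ) : K) = _
    rw [Rat.cast_one]
  | e :: B, [], u, w => by
    rw [evl_nil_right]
    show ((1 : ℚ) : K) = _
    rw [Rat.cast_one]
  | e :: B, n :: v, u, w => by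
    show (zwE e n * mE B v).ev u w = _
    rw [Q2.ev_mul, ev_zwE, ev_mE B v, List.map_cons, evl_cons]

lemma ev_fE (B : List Q2) (m : Mo) (u w : K) :
    (fE B m).ev u w = ev (B.map fun e => e.ev u w) m := by
  unfold fE ev
  rw [Q2.ev_mul, ev_mE, Q2.ev_c]
  rcases m with ⟨_ | _, v⟩
  · simp
  · simp

lemma ev_pE (l : List ℤ) (u w : K) : (pE l).ev u w = pev u l := by
  induction l with
  | nil =>
    show ((0 : ℚ) : K) = 0
    rw [Rat.cast_zero]
  | cons a l ih =>
    show (.c (a : ℚ) + .x * pE l : Q2).ev u w = _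
    rw [Q2.ev_add, Q2.ev_mul, ih, Q2.ev_c, Q2.ev_x, Rat.cast_intCast]
    rfl

lemma ev_elE (a : El) (u w : K) : (elE a).ev u w = a.v u w := by
  unfold elE El.v
  rw [Q2.ev_div, Q2.ev_add, Q2.ev_mul, ev_pE, ev_pE, Q2.ev_c, Q2.ev_y, Rat.cast_intCast]

lemma ok_pE (l : List ℤ) (u w : K) : (pE l).ok u w := by
  induction l with
  | nil => trivial
  | cons a l ih => exact ⟨trivial, trivial, ih⟩

lemma ok_elE {a : El} (h : (a.d : K) ≠ 0) (u w : K) : (elE a).ok u w := by
  refine ⟨⟨ok_pE _ _ _, ok_pE _ _ _, trivial⟩, trivial, ?_⟩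
  show ((a.d : ℚ) : K) ≠ 0
  rwa [Rat.cast_intCast]

lemma ok_pwE {e : Q2} (n : ℕ) {u w : K} (h : e.ok u w) : (pwE e n).ok u w := by
  induction n with
  | zero => trivial
  | succ n ih => exact ⟨h, ih⟩

lemma ok_zwE {e : Q2} (n : ℤ) {u w : K} (h : e.ok u w) (h0 : e.ev u w ≠ 0) :
    (zwE e n).ok u w := by
  cases n with
  | ofNat n => exact ok_pwE n h
  | negSucc n =>
    refine ⟨trivial, ok_pwE _ h, ?_⟩
    rw [ev_pwE]
    exact pow_ne_zero _ h0

lemma ok_mE : ∀ (B : List Q2) (v : List ℤ) {u w : K} (_ : ∀ e ∈ B, e.ok u w)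
    (_ : ∀ e ∈ B, e.ev u w ≠ 0), (mE B v).ok u w
  | [], v, u, w, _, _ => trivial
  | e :: B, [], u, w, _, _ => trivial
  | e :: B, n :: v, u, w, h, h0 =>
    ⟨ok_zwE n (h e List.mem_cons_self) (h0 e List.mem_cons_self),
      ok_mE B v (fun e he => h e (List.mem_cons_of_mem _ he))
        fun e he => h0 e (List.mem_cons_of_mem _ he)⟩

lemma ok_fE (B : List Q2) (m : Mo) {u w : K} (h : ∀ e ∈ B, e.ok u w)
    (h0 : ∀ e ∈ B, e.ev u w ≠ 0) : (fE B m).ok u w := ⟨trivial, ok_mE B m.2 h h0⟩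

end

/-! ### logarithms -/

lemma log_evl {g : List ℝ} (hg : ∀ z ∈ g, z ≠ 0) (v : List ℤ) :
    Real.log (evl g v) = lin v (g.map Real.log) := by
  induction g generalizing v with
  | nil => simp
  | cons z g ih =>
    cases v with
    | nil => simp
    | cons n v =>
      have h2 : ∀ w ∈ g, w ≠ 0 := fun w hw => hg w (List.mem_cons_of_mem _ hw)
      rw [evl_cons, Real.log_mul (zpow_ne_zero _ (hg z List.mem_cons_self)) (evl_ne h2 _),
        Real.log_zpow, ih h2, List.map_cons, lin_cons]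

lemma log_ev {g : List ℝ} (hg : ∀ z ∈ g, z ≠ 0) (m : Mo) :
    Real.log (ev g m) = lin m.2 (g.map Real.log) := by
  unfold ev
  rcases m with ⟨_ | _, v⟩
  · simp only [cond_false, one_mul]
    exact log_evl hg v
  · simp only [cond_true, neg_mul, one_mul, Real.log_neg_eq_log]
    exact log_evl hg v

/-! ### the data of a curve: functions and constants -/

/-- all generators -/
def BE (gs : List El) (ks : List ℕ) : List El := gs ++ ks.map fun n => ⟨[(n : ℤ)], [], 1⟩

/-- the values of the generators -/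
noncomputable def BV {K : Type*} [Field K] (gs : List El) (ks : List ℕ) (U V : K) : List K :=
  (BE gs ks).map (El.v U V)

/-- the generators as expressions -/
def BQ (gs : List El) (ks : List ℕ) : List Q2 := (BE gs ks).map elE

/-- the logarithms -/
noncomputable def aL (gs : List El) (ks : List ℕ) (p : ℝ × ℝ) : List ℝ :=
  (BV gs ks p.1 p.2).map Real.log

/-- the logarithmic derivatives -/
noncomputable def dL (b c : ℝ) (gs : List El) (κ : ℝ) (p : ℝ × ℝ) : List ℝ :=
  gs.map fun a => (elE a).dv b c p.1 p.2 * κ / (elE a).ev p.1 p.2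

lemma dL_length (b c : ℝ) (gs : List El) (κ : ℝ) (p : ℝ × ℝ) :
    (dL b c gs κ p).length ≤ gs.length := by
  unfold dL
  rw [List.length_map]

lemma BQ_ev {K : Type*} [Field K] (gs : List El) (ks : List ℕ) (U V : K) :
    ((BQ gs ks).map fun e => e.ev U V) = BV gs ks U V := by
  unfold BQ BV
  rw [List.map_map]
  exact List.map_congr_left fun a _ => ev_elE a U V

/-- the denominators of the generators -/
def chkDen (gs : List El) : Bool := gs.all fun a => decide (a.d ≠ 0)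

lemma BE_d {gs : List El} (h : chkDen gs = true) {ks : List ℕ} :
    ∀ a ∈ BE gs ks, a.d ≠ 0 := by
  intro a ha
  unfold BE at ha
  rcases List.mem_append.mp ha with ha | ha
  · unfold chkDen at h
    rw [List.all_eq_true] at h
    exact of_decide_eq_true (h a ha)
  · obtain ⟨n, -, rfl⟩ := List.mem_map.mp ha
    exact one_ne_zero

lemma BQ_ok {K : Type*} [Field K] [CharZero K] {gs : List El} (h : chkDen gs = true)
    {ks : List ℕ} (U V : K) : ∀ e ∈ BQ gs ks, e.ok U V := by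
  intro e he
  obtain ⟨a, ha, rfl⟩ := List.mem_map.mp he
  exact ok_elE (by exact_mod_cast BE_d h a ha) U V

lemma dv_const (b c : ℝ) (n : ℕ) (U V : ℝ) : (elE ⟨[(n : ℤ)], [], 1⟩).dv b c U V = 0 := by
  show ((0 + ((2 * V + (1 - c) * U - b) * ((0 : ℚ) : ℝ) + U * 0) + (0 * V + ((0 : ℚ) : ℝ) *
    (3 * U ^ 2 - 2 * b * U - (1 - c) * V))) * (((1 : ℤ) : ℚ) : ℝ) -
    ((((n : ℤ) : ℚ) : ℝ) + U * ((0 : ℚ) : ℝ) + ((0 : ℚ) : ℝ) * V) * 0) /
      (((1 : ℤ) : ℚ) : ℝ) ^ 2 = 0
  push_cast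
  ring

/-- the derivatives of the logarithms -/
lemma der_logs {b c κ : ℝ} {gs : List El} (hd : chkDen gs = true) {ks : List ℕ}
    {P : ℝ → ℝ × ℝ} {s : ℝ} (h : OKp b c κ (fun t => (P t).1) (fun t => (P t).2) s)
    (hB : ∀ z ∈ BV gs ks (P s).1 (P s).2, z ≠ 0) (v : List ℤ) :
    HasDerivAt (fun t => lin v (aL gs ks (P t))) (lin v (dL b c gs κ (P s))) s := by
  have key : List.Forall₂ (fun (f : ℝ → ℝ) d => HasDerivAt f d s)
      ((BE gs ks).map fun a => fun t => Real.log (El.v (P t).1 (P t).2 a))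
      ((BE gs ks).map fun a => (elE a).dv b c (P s).1 (P s).2 * κ / (elE a).ev (P s).1 (P s).2) := by
    rw [List.forall₂_map_left_iff, List.forall₂_map_right_iff]
    refine List.forall₂_same.mpr fun a ha => ?_
    have h1 := Q2.deriv_ev h (elE a) (ok_elE (by exact_mod_cast BE_d hd a ha) _ _)
    have h2 : (elE a).ev (P s).1 (P s).2 ≠ 0 := by
      rw [ev_elE]
      exact hB _ (List.mem_map.mpr ⟨a, ha, rfl⟩)
    have h3 := h1.log h2
    simp only [ev_elE] at h3 ⊢
    exact h3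
  have h1 := hasDerivAt_lin key v
  have e1 : ((BE gs ks).map fun a => (elE a).dv b c (P s).1 (P s).2 * κ /
      (elE a).ev (P s).1 (P s).2) = dL b c gs κ (P s) ++ List.replicate ks.length 0 := by
    unfold BE dL
    rw [List.map_append, List.map_map]
    congr 1
    rw [List.eq_replicate_iff]
    refine ⟨by simp, fun z hz => ?_⟩
    obtain ⟨n, -, rfl⟩ := List.mem_map.mp hz
    simp only [Function.comp_apply]
    rw [dv_const, zero_mul, zero_div]
  rw [e1, lin_append, lin_zeros, add_zero] at h1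
  refine h1.congr_of_eventuallyEq (Eventually.of_forall fun t => ?_)
  simp only [aL, BV, List.map_map]
  rfl

/-! ### the terms -/

/-- the exponents of a term -/
def lt (cls : List (Mo × Mo)) (t : KC72.Tm) : LA.Tm :=
  ⟨(oo cls (t.c, t.s)).2, (co cls (t.c, t.s)).2, t.u⟩

/-- the density of one term -/
lemma term_dens {b c κ : ℝ} {gs : List El} (hd : chkDen gs = true) {ks : List ℕ}
    {P : ℝ → ℝ × ℝ} {s : ℝ} (h : OKp b c κ (fun t => (P t).1) (fun t => (P t).2) s)
    (hB : ∀ᶠ t in 𝓝 s, ∀ z ∈ BV gs ks (P t).1 (P t).2, z ≠ 0) {cls : List (Mo × Mo)}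
    (hS : ∀ᶠ t in 𝓝 s, Sols (BV gs ks (P t).1 (P t).2) cls) {T : KC72.Tm}
    (hc : T.c < cls.length) :
    -(Rf ((fE (BQ gs ks) (oo cls (T.c, T.s))).ev (P s).1 (P s).2)) *
      deriv (fun t => (fE (BQ gs ks) (oo cls (T.c, T.s))).ev (P t).1 (P t).2) s *
      Real.log ((mE (BQ gs ks) T.u).ev (P s).1 (P s).2) =
    (lt cls T).tri (aL gs ks (P s)) (dL b c gs κ (P s)) := by
  have hB0 := hB.self_of_nhds
  have hS0 := hS.self_of_nhds
  have hev : ∀ m, ∀ t, (fE (BQ gs ks) m).ev (P t).1 (P t).2 = ev (BV gs ks (P t).1 (P t).2) m := by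
    intro m t
    rw [ev_fE, BQ_ev]
  have hok : (fE (BQ gs ks) (oo cls (T.c, T.s))).ok (P s).1 (P s).2 := by
    refine ok_fE _ _ (BQ_ok hd _ _) fun e he => ?_
    refine hB0 _ ?_
    rw [← BQ_ev]
    exact List.mem_map.mpr ⟨e, he, rfl⟩
  have hd' := Q2.deriv_ev h _ hok
  have e1 : ∀ᶠ t in 𝓝 s, Real.log ((fE (BQ gs ks) (oo cls (T.c, T.s))).ev (P t).1 (P t).2) =
      lin (oo cls (T.c, T.s)).2 (aL gs ks (P t)) := by
    filter_upwards [hB] with t ht
    rw [hev]
    exact log_ev ht _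
  have e2 : ∀ᶠ t in 𝓝 s, Real.log (1 - (fE (BQ gs ks) (oo cls (T.c, T.s))).ev (P t).1 (P t).2) =
      lin (co cls (T.c, T.s)).2 (aL gs ks (P t)) := by
    filter_upwards [hB, hS] with t ht hst
    rw [hev]
    have h1 := oo_co ht hst (p := (T.c, T.s)) hc
    have h2 : 1 - ev (BV gs ks (P t).1 (P t).2) (oo cls (T.c, T.s)) =
        ev (BV gs ks (P t).1 (P t).2) (co cls (T.c, T.s)) := by linear_combination -h1
    rw [h2]
    exact log_ev ht _
  have h0 : (fE (BQ gs ks) (oo cls (T.c, T.s))).ev (P s).1 (P s).2 ≠ 0 := by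
    rw [hev]
    exact ev_ne hB0 _
  have h1 : (fE (BQ gs ks) (oo cls (T.c, T.s))).ev (P s).1 (P s).2 ≠ 1 := by
    rw [hev]
    intro h1
    have h2 := oo_co hB0 hS0 (p := (T.c, T.s)) hc
    rw [h1] at h2
    exact ev_ne hB0 (co cls (T.c, T.s)) (by linear_combination h2)
  have key := dens hd' h0 h1 (der_logs hd h hB0 _) (der_logs hd h hB0 _) e1 e2
  rw [hd'.deriv, key, ev_mE, BQ_ev, log_evl hB0]
  rfl

end Pool.Agent.K4N.PC
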