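import Pool.Agent.Lib_helper54.FAM.PC2

set_option autoImplicit false
set_option linter.unusedVariables false
set_option linter.unusedSectionVars false

/-!
# The engine for one point on the curve, with a condition on the component
-/

namespace Pool.Agent.K4N.PC

open Filter Topology Pool.Agent.K4N.LA Pool.Agent.KC72 Pool.Agent.TN
open Pool.Agent.AX (El pev Cv)
open scoped TensorProduct

section engine

variable {k F : Type*} [Field k] [Field F] [Algebra k F] {x y : F}

/-- **The engine for the total density**, with a condition which holds along the circle. -/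
theorem engC [CharZero k] [CharZero F] (φ : k →+* ℝ) (b c : ℚ) (hb : b ≠ 0)
    (h : Gen (b : k) (c : k) x y)
    (htop : IntermediateField.adjoin k {x, y} = ⊤)
    {C : ℝ → ℝ → Prop} (circ : Circ (b : ℝ) (c : ℝ) C)
    {ι : Type*} [Fintype ι] (f u : ι → Q2) (nz : List Q2) (N : ℕ)
    (hnz : ∀ x' y' : F, Gen (b : k) (c : k) x' y' → ∀ e ∈ nz, e.ev x' y' ≠ 0)
    (hfu : ∀ i, (f i).ev x y ≠ 0 ∧ (f i).ev x y ≠ 1 ∧ (u i).ev x y ≠ 0)
    (hpos : ∀ (X Y κ : ℝ → ℝ) (s : ℝ), Path (b : ℝ) c nz N X Y κ s → C (X s) (Y s) →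
      0 < ∑ i, -(Rf ((f i).ev (X s) (Y s))) * deriv (fun t => (f i).ev (X t) (Y t)) s *
        Real.log ((u i).ev (X s) (Y s))) :
    RZ φ x y circ.X circ.Y
      (∑ i, K4M.hk (K4M.sy ((f i).ev x y)) (K4M.lg ((u i).ev x y))) := by
  obtain ⟨X, Y, κ, mX, mY, hfin, hκ, hOK, hcomp⟩ := circ
  have eb : algebraMap k F (b : k) = (b : F) := map_ratCast _ b
  have hbk : (b : k) ≠ 0 := by exact_mod_cast hb
  have hg : ∀ n, Gen (b : k) (c : k) (It (b : F) n (x, y)).1 (It (b : F) n (x, y)).2 := by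
    intro n
    have := gen_It hbk h n
    rwa [eb] at this
  have hER : ∀ s, TN.Eqn (TN.Wt (b : k) (c : k)) φ (X s) (Y s) := by
    intro s
    show Y s ^ 2 + φ (1 - c) * X s * Y s + φ (-b) * Y s =
      X s ^ 3 + φ (-b) * X s ^ 2 + φ 0 * X s + φ 0
    simp only [map_zero, map_one, map_neg, map_sub, map_ratCast]
    linear_combination (hOK s).eq
  obtain ⟨R, ρ, P, hR, hRx, hRy, hRc, hP, hP0⟩ := exists_reg φ h.eqn ((TN.Tr_iff x).mp h.tr) htop
    mX mY hER hfin
  -- the iterates
  have hIt : ∀ n, R (It (b : F) n (x, y)).1 = ((fun s => (It (b : ℝ) n (X s, Y s)).1 : ℝ → ℝ) : VG) ∧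
      R (It (b : F) n (x, y)).2 = ((fun s => (It (b : ℝ) n (X s, Y s)).2 : ℝ → ℝ) : VG) := by
    intro n
    induction n with
    | zero => exact ⟨hRx, hRy⟩
    | succ n ih =>
      obtain ⟨i1, i2⟩ := ih
      have hRb : R (b : F) = ((fun _ => (b : ℝ) : ℝ → ℝ) : VG) := Q2.R_rat R b
      constructor
      · have := R_div hR (R_mul hRb i2) (R_pow i1 2)
        simp only [It_succ]
        exact this
      · have e1 : R ((It (b : F) n (x, y)).1 ^ 2 - (It (b : F) n (x, y)).2) =
            ((fun s => (It (b : ℝ) n (X s, Y s)).1 ^ 2 - (It (b : ℝ) n (X s, Y s)).2 : ℝ → ℝ) :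
              VG) := by
          rw [map_sub, R_pow i1 2, i2, ← Germ.coe_sub]
          rfl
        have := R_div hR (R_mul (R_pow hRb 2) e1) (R_pow i1 3)
        simp only [It_succ]
        exact this
  -- nonvanishing
  have hn0 : ∀ n, ∀ᶠ s in cofinite, (It (b : ℝ) n (X s, Y s)).1 ≠ 0 := by
    intro n
    have h1 := rep_of hR (hIt n).1
    filter_upwards [ρ.ne _ (hg n).x_ne, h1] with s a b
    rwa [← b]
  have hn : ∀ n, ∀ᶠ s in cofinite, ∀ e ∈ nz,
      e.ev (It (b : ℝ) n (X s, Y s)).1 (It (b : ℝ) n (X s, Y s)).2 ≠ 0 := by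
    intro n
    have key : ∀ l : List Q2, (∀ e ∈ l, e ∈ nz) → ∀ᶠ s in cofinite, ∀ e ∈ l,
        e.ev (It (b : ℝ) n (X s, Y s)).1 (It (b : ℝ) n (X s, Y s)).2 ≠ 0 := by
      intro l
      induction l with
      | nil =>
        intro _
        exact Eventually.of_forall fun s e he => absurd he (List.not_mem_nil)
      | cons e j ih =>
        intro hl
        have h1 := ih fun e' he' => hl e' (List.mem_cons_of_mem _ he')
        have h2 := Q2.ev_ne hR (hIt n).1 (hIt n).2
          (hnz _ _ (hg n) e (hl e List.mem_cons_self))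
        filter_upwards [h1, h2] with s a b e' he'
        rcases List.mem_cons.mp he' with rfl | he'
        · exact b
        · exact a e' he'
    exact key nz fun _ h => h
  have hall : ∀ᶠ s in cofinite, ∀ n ∈ Finset.range N, ((It (b : ℝ) n (X s, Y s)).1 ≠ 0 ∧
      ∀ e ∈ nz, e.ev (It (b : ℝ) n (X s, Y s)).1 (It (b : ℝ) n (X s, Y s)).2 ≠ 0) := by
    rw [Finset.eventually_all]
    intro n _
    filter_upwards [hn0 n, hn n] with s a b
    exact ⟨a, b⟩
  refine ⟨P, hP, fun c hc => (hP0 c).mpr (ρ.KK_le hR hRc c hc), fun hz => ?_⟩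
  refine reg_ne ρ
    (fun i => (f i).ev x y) (fun i => (u i).ev x y)
    (fun i => (hfu i).1) (fun i => (hfu i).2.1)
    (fun i => (hfu i).2.2)
    (fun i s => (f i).ev (X s) (Y s))
    (fun i s => (u i).ev (X s) (Y s))
    (fun i => rep_of hR (Q2.R_ev hR hRx hRy _))
    (fun i => rep_of hR (Q2.R_ev hR hRx hRy _)) (fun _ => 0) Ex.zero ?_ ((hP0 _).mp hz)
  filter_upwards [eventually_nhds_of_cofinite hall, hcomp] with s hs hc
  rw [zero_add]
  refine hpos X Y κ s ⟨hκ s, ?_, ?_⟩ hc
  · filter_upwards [hs] with t ht n hn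
    exact OK_It (hOK t) n fun i hi => (ht i (Finset.mem_range.mpr (hi.trans hn))).1
  · filter_upwards [hs] with t ht n hn
    exact ht n (Finset.mem_range.mpr hn)

/-- the terms have classes -/
def chkL (cls : List (Mo × Mo)) (L : List KC72.Tm) : Bool :=
  L.all fun t => decide (t.c < cls.length)

lemma sum_get {α M : Type*} [AddCommMonoid M] (L : List α) (f : α → M) :
    (L.map f).sum = ∑ i : Fin L.length, f (L.get i) := by
  induction L with
  | nil => rfl
  | cons t L ih =>
    rw [List.map_cons, List.sum_cons, ih]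
    exact (Fin.sum_univ_succ (fun i : Fin (L.length + 1) => f ((t :: L).get i))).symm

/-- the sum over a list of terms -/
lemma zt_sum {g : List F} {cls : List (Mo × Mo)} (L : List KC72.Tm) :
    KC72.zt g cls L = ∑ i : Fin L.length,
      MK4.hk (MK4.sy (ev g (oo cls ((L.get i).c, (L.get i).s)))) (MK4.lg (evl g (L.get i).u)) := by
  induction L with
  | nil => rfl
  | cons t L ih =>
    rw [KC72.zt, ih]
    exact (Fin.sum_univ_succ (fun i : Fin (L.length + 1) =>
      MK4.hk (MK4.sy (ev g (oo cls (((t :: L).get i).c, ((t :: L).get i).s))))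
        (MK4.lg (evl g ((t :: L).get i).u)))).symm

/-- the expressions which must not vanish -/
def NQ (gs : List El) (ks : List ℕ) (sp : List (List ℤ)) : List Q2 := BQ gs ks ++ sp.map pE

/-- **The regulator of an element given by a list of terms**, from the sum of the densities. -/
theorem rz_zt [CharZero k] [CharZero F] (φ : k →+* ℝ) (b c : ℚ) (hb : b ≠ 0)
    (h : Gen (b : k) (c : k) x y) (htop : IntermediateField.adjoin k {x, y} = ⊤)
    {C : ℝ → ℝ → Prop} (circ : Circ (b : ℝ) (c : ℝ) C) {gs : List El} {ks : List ℕ}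
    (sp : List (List ℤ)) (N : ℕ)
    (hN : 0 < N) (hd : chkDen gs = true)
    (hB : ∀ x' y' : F, Gen (b : k) (c : k) x' y' → (∀ z ∈ BV gs ks x' y', z ≠ 0) ∧
      ∀ l ∈ sp, pev x' l ≠ 0)
    {cls : List (Mo × Mo)} (hS : Sols (BV gs ks x y) cls)
    (hSR : ∀ U V : ℝ, V ^ 2 + (1 - (c : ℝ)) * U * V - b * V = U ^ 3 - b * U ^ 2 →
      (∀ z ∈ BV gs ks U V, z ≠ 0) → Sols (BV gs ks U V) cls)
    {L : List KC72.Tm} (hL : chkL cls L = true)
    (hpos : ∀ (X Y κ : ℝ → ℝ) (s : ℝ), Path (b : ℝ) c (NQ gs ks sp) N X Y κ s → C (X s) (Y s) →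
      0 < ((L.map (lt cls)).map fun t => t.tri (aL gs ks (X s, Y s))
        (dL b c gs (κ s) (X s, Y s))).sum) :
    RZ φ x y circ.X circ.Y (KC72.zt (BV gs ks x y) cls L) := by
  have hc : ∀ i : Fin L.length, (L.get i).c < cls.length := by
    intro i
    unfold chkL at hL
    rw [List.all_eq_true] at hL
    exact of_decide_eq_true (hL _ (List.get_mem L i))
  have hBx := (hB x y h).1
  have hnz : ∀ x' y' : F, Gen (b : k) (c : k) x' y' → ∀ e ∈ NQ gs ks sp, e.ev x' y' ≠ 0 := by
    intro x' y' h' e he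
    rcases List.mem_append.mp he with he | he
    · refine (hB x' y' h').1 _ ?_
      rw [← BQ_ev]
      exact List.mem_map.mpr ⟨e, he, rfl⟩
    · obtain ⟨l, hl, rfl⟩ := List.mem_map.mp he
      rw [ev_pE]
      exact (hB x' y' h').2 l hl
  have key := engC φ b c hb h htop circ
    (fun i : Fin L.length => fE (BQ gs ks) (oo cls ((L.get i).c, (L.get i).s)))
    (fun i => mE (BQ gs ks) (L.get i).u) (NQ gs ks sp) N hnz ?_ ?_
  · rw [zt_sum]
    simp only [ev_fE, ev_mE, BQ_ev] at key
    exact key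
  · intro i
    simp only [ev_fE, ev_mE, BQ_ev]
    refine ⟨ev_ne hBx _, fun h1 => ?_, evl_ne hBx _⟩
    have h2 := oo_co hBx hS (p := ((L.get i).c, (L.get i).s)) (hc i)
    rw [h1] at h2
    exact ev_ne hBx (co cls ((L.get i).c, (L.get i).s)) (by linear_combination h2)
  · intro X Y κ s hp hC
    have h1 := hpos X Y κ s hp hC
    have hok : OKp (b : ℝ) c (κ s) (fun t => (X t, Y t).1) (fun t => (X t, Y t).2) s :=
      hp.ok.self_of_nhds 0 hN
    have hB' : ∀ᶠ t in 𝓝 s, ∀ z ∈ BV gs ks (X t, Y t).1 (X t, Y t).2, z ≠ 0 := by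
      filter_upwards [hp.ne] with t ht z hz
      have h2 := (ht 0 hN).2
      rw [← BQ_ev] at hz
      obtain ⟨e, he, rfl⟩ := List.mem_map.mp hz
      exact h2 e (List.mem_append_left _ he)
    have hS' : ∀ᶠ t in 𝓝 s, Sols (BV gs ks (X t, Y t).1 (X t, Y t).2) cls := by
      filter_upwards [hp.ok, hB'] with t ht hb'
      exact hSR _ _ (ht 0 hN).eq hb'
    have e : ∀ i : Fin L.length, -(Rf ((fE (BQ gs ks) (oo cls ((L.get i).c, (L.get i).s))).ev
        (X s) (Y s))) * deriv (fun t => (fE (BQ gs ks) (oo cls ((L.get i).c, (L.get i).s))).ev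
        (X t) (Y t)) s * Real.log ((mE (BQ gs ks) (L.get i).u).ev (X s) (Y s)) =
        (lt cls (L.get i)).tri (aL gs ks (X s, Y s)) (dL b c gs (κ s) (X s, Y s)) := fun i =>
      term_dens (P := fun t => (X t, Y t)) hd hok hB' hS' (hc i)
    rw [Finset.sum_congr rfl fun i _ => e i]
    have e2 : ((L.map (lt cls)).map fun t => t.tri (aL gs ks (X s, Y s))
        (dL b c gs (κ s) (X s, Y s))).sum = ∑ i : Fin L.length,
        (lt cls (L.get i)).tri (aL gs ks (X s, Y s)) (dL b c gs (κ s) (X s, Y s)) := by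
      rw [List.map_map]
      exact sum_get L _
    rw [← e2]
    exact h1

end engine

end Pool.Agent.K4N.PC
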