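import Pool.Agent.Lib_helper54.FAM.PC3

set_option autoImplicit false
set_option linter.unusedVariables false
set_option linter.unusedSectionVars false

/-!
# Translations: the logarithms, the signs; from an arc to the component
-/

namespace Pool.Agent.K4N.PC

open Filter Topology Pool.Agent.K4N.LA Pool.Agent.KC72 Pool.Agent.TN
open Pool.Agent.AX (El pev Cv prE up evN evN_up evN_ne prE_v sum3 sum3_v sgb prE_d sols_chk chkP)

/-! ### the curve -/

/-- the equation with integral coefficients, where `b = bn / bd`, `c = cn / ce` -/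
def cv (bn bd cn ce : ℤ) : Cv :=
  ⟨bd * ce, [0, 0, -(bn * ce), bd * ce], [bn * ce, -((ce - cn) * bd)]⟩

section

variable {K : Type*} [Field K] {b c : ℚ} {bn bd cn ce : ℤ} {U V : K}

lemma cv_eq [CharZero K] (hb : b * bd = bn) (hc : c * ce = cn)
    (he : V ^ 2 + (1 - (c : K)) * U * V - b * V = U ^ 3 - b * U ^ 2) :
    (cv bn bd cn ce).Eq U V := by
  have hb' : (b : K) * bd = bn := by exact_mod_cast congrArg (fun q : ℚ => (q : K)) hb
  have hc' : (c : K) * ce = cn := by exact_mod_cast congrArg (fun q : ℚ => (q : K)) hc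
  unfold Cv.Eq cv
  simp only [pev]
  push_cast
  linear_combination (bd * ce : K) * he + (ce * V - ce * U ^ 2 : K) * hb' +
    (bd * U * V : K) * hc'

/-- `x³` times the translate -/
def trE (bn bd : ℤ) (a : El) : El :=
  ⟨[0, 0, a.Q.getD 0 0 * bn ^ 2, a.P.getD 0 0 * bd ^ 2],
    [-(a.Q.getD 0 0) * bn ^ 2, a.P.getD 1 0 * bn * bd], a.d * bd ^ 2⟩

lemma pev_le2 (x : K) {l : List ℤ} (h : l.length ≤ 2) :
    pev x l = (l.getD 0 0 : ℤ) + x * (l.getD 1 0 : ℤ) := by
  match l, h with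
  | [], _ => simp [pev]
  | [a], _ => simp [pev]
  | [a, a'], _ => simp [pev]
  | _ :: _ :: _ :: _, h => simp at h

lemma pev_le1 (x : K) {l : List ℤ} (h : l.length ≤ 1) : pev x l = (l.getD 0 0 : ℤ) := by
  match l, h with
  | [], _ => simp [pev]
  | [a], _ => simp [pev]
  | _ :: _ :: _, h => simp at h

lemma trE_v [CharZero K] (hb : b * bd = bn) (hbd : bd ≠ 0) (hU : U ≠ 0) {a : El}
    (h1 : a.P.length ≤ 2) (h2 : a.Q.length ≤ 1) (hd : a.d ≠ 0) :
    a.v (b * V / U ^ 2) (b ^ 2 * (U ^ 2 - V) / U ^ 3) * U ^ 3 = (trE bn bd a).v U V := by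
  have hb' : (b : K) * bd = bn := by exact_mod_cast congrArg (fun q : ℚ => (q : K)) hb
  have hbd' : (bd : K) ≠ 0 := by exact_mod_cast hbd
  have hd' : (a.d : K) ≠ 0 := by exact_mod_cast hd
  unfold El.v trE
  rw [pev_le2 _ h1, pev_le1 _ h2]
  simp only [pev]
  push_cast
  rw [← hb']
  generalize ((a.P.getD 0 0 : ℤ) : K) = α
  generalize ((a.P.getD 1 0 : ℤ) : K) = β
  generalize ((a.Q.getD 0 0 : ℤ) : K) = γ
  field_simp
  ring

/-- the translate of a generator is a monomial -/
def chkRow (C : Cv) (G : List El) (bn bd : ℤ) (a : El) (m : Mo) : Bool :=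
  decide (a.P.length ≤ 2) && decide (a.Q.length ≤ 1) &&
    sum3 1 (-(sgb m.1)) ((trE bn bd a).mul C (prE C G (m.2.map fun n => (-n).toNat)))
      ((⟨[0, 0, 0, 1], [], 1⟩ : El).mul C (prE C G (up m.2 (m.2.map fun n => (-n).toNat))))
      ⟨[], [], 1⟩

lemma sgb_cast (s : Bool) : ((sgb s : ℤ) : K) = bif s then -1 else 1 := by
  cases s <;> simp [sgb]

lemma row_v [CharZero K] {C : Cv} (hC : C.Eq U V) (hcd : C.cd ≠ 0) {G : List El}
    (hG : ∀ a ∈ G, a.d ≠ 0) (hg : ∀ z ∈ G.map (El.v U V), z ≠ 0) (hb : b * bd = bn)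
    (hbd : bd ≠ 0) (hU : U ≠ 0) {a : El} (hd : a.d ≠ 0) {m : Mo}
    (h : chkRow C G bn bd a m = true) :
    a.v (b * V / U ^ 2) (b ^ 2 * (U ^ 2 - V) / U ^ 3) = ev (G.map (El.v U V)) m := by
  unfold chkRow at h
  simp only [Bool.and_eq_true, decide_eq_true_eq] at h
  obtain ⟨⟨h1, h2⟩, h3⟩ := h
  have hcd' : (C.cd : K) ≠ 0 := by exact_mod_cast hcd
  have hG' : ∀ a ∈ G, (a.d : K) ≠ 0 := fun a ha => by exact_mod_cast hG a ha
  have hbd' : (bd : K) ≠ 0 := by exact_mod_cast hbd
  have hd' : (a.d : K) ≠ 0 := by exact_mod_cast hd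
  have ht := trE_v (V := V) hb hbd hU h1 h2 hd
  have d1 : (((trE bn bd a).mul C (prE C G (m.2.map fun n => (-n).toNat))).d : K) ≠ 0 := by
    refine AX.El.mul_d hcd' ?_ (prE_d hcd' hG' _)
    unfold trE
    push_cast
    exact mul_ne_zero hd' (pow_ne_zero 2 hbd')
  have d2 : ((((⟨[0, 0, 0, 1], [], 1⟩ : El).mul C
      (prE C G (up m.2 (m.2.map fun n => (-n).toNat)))).d : ℤ) : K) ≠ 0 := by
    refine AX.El.mul_d hcd' ?_ (prE_d hcd' hG' _)
    simp
  have h4 := sum3_v (x := U) (y := V) d1 d2 (by simp) h3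
  have e3 : (⟨[0, 0, 0, 1], [], 1⟩ : El).v U V = U ^ 3 := by
    unfold El.v
    simp only [pev]
    push_cast
    ring
  have e0 : (⟨[], [], 1⟩ : El).v U V = 0 := by
    unfold El.v
    simp [pev]
  have hup : List.Forall₂ (fun a m => (-a).toNat ≤ m) m.2 (m.2.map fun n => (-n).toNat) := by
    rw [List.forall₂_map_right_iff]
    exact List.forall₂_same.mpr fun _ _ => le_rfl
  rw [AX.El.mul_v hC hcd', AX.El.mul_v hC hcd', prE_v hC hcd', prE_v hC hcd', evN_up hg hup, e3,
    e0, ← ht] at h4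
  have h5 := evN_ne hg (m.2.map fun n => (-n).toNat)
  push_cast at h4
  rw [sgb_cast] at h4
  unfold ev
  have h6 : (a.v (b * V / U ^ 2) (b ^ 2 * (U ^ 2 - V) / U ^ 3) - (bif m.1 then -1 else 1) *
      evl (G.map (El.v U V)) m.2) * (U ^ 3 * evN (G.map (El.v U V))
        (m.2.map fun n => (-n).toNat)) = 0 := by
    linear_combination h4
  rcases mul_eq_zero.mp h6 with h7 | h7
  · linear_combination h7
  · exact absurd h7 (mul_ne_zero (pow_ne_zero 3 hU) h5)

/-- the translates of the generators are monomials -/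
def chkRows (C : Cv) (G : List El) (bn bd : ℤ) : List El → List Mo → Bool
  | [], [] => true
  | a :: A, m :: M => chkRow C G bn bd a m && chkRows C G bn bd A M
  | _, _ => false

lemma rows_v [CharZero K] {C : Cv} (hC : C.Eq U V) (hcd : C.cd ≠ 0) {G : List El}
    (hG : ∀ a ∈ G, a.d ≠ 0) (hg : ∀ z ∈ G.map (El.v U V), z ≠ 0) (hb : b * bd = bn)
    (hbd : bd ≠ 0) (hU : U ≠ 0) {A : List El} (hA : ∀ a ∈ A, a.d ≠ 0) {M : List Mo}
    (h : chkRows C G bn bd A M = true) :
    A.map (El.v (b * V / U ^ 2) (b ^ 2 * (U ^ 2 - V) / U ^ 3)) =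
      M.map (ev (G.map (El.v U V))) := by
  induction A generalizing M with
  | nil =>
    cases M with
    | nil => rfl
    | cons m M => exact absurd h (by simp [chkRows])
  | cons a A ih =>
    cases M with
    | nil => exact absurd h (by simp [chkRows])
    | cons m M =>
      rw [chkRows, Bool.and_eq_true] at h
      rw [List.map_cons, List.map_cons, ih (fun a ha => hA a (List.mem_cons_of_mem _ ha)) h.2,
        row_v hC hcd hG hg hb hbd hU (hA a List.mem_cons_self) h.1]

end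

/-! ### signs -/

/-- the signs of the generators -/
noncomputable def pat (g : List ℝ) : List Bool := g.map fun z => decide (z < 0)

/-- the sign of a monomial -/
def parM : List ℤ → List Bool → Bool
  | n :: v, s :: p => xor (decide (n % 2 = 1) && s) (parM v p)
  | _, _ => false

/-- the signs of the translates -/
def tpat (AM : List Mo) (p : List Bool) : List Bool := AM.map fun m => xor m.1 (parM m.2 p)

lemma sb_mul {x y : ℝ} (hx : x ≠ 0) (hy : y ≠ 0) :
    decide (x * y < 0) = xor (decide (x < 0)) (decide (y < 0)) := by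
  rcases lt_or_gt_of_ne hx with h | h <;> rcases lt_or_gt_of_ne hy with h' | h'
  · have := mul_pos_of_neg_of_neg h h'
    simp [h, h', this.le]
  · have := mul_neg_of_neg_of_pos h h'
    simp [h, h'.le, this]
  · have := mul_neg_of_pos_of_neg h h'
    simp [h.le, h', this]
  · have h1 : ¬ x < 0 := not_lt.mpr h.le
    have h2 : ¬ y < 0 := not_lt.mpr h'.le
    have h3 : ¬ x * y < 0 := not_lt.mpr (mul_pos h h').le
    simp [h1, h2, h3]

lemma sb_zpow {x : ℝ} (hx : x ≠ 0) (n : ℤ) :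
    decide (x ^ n < 0) = (decide (n % 2 = 1) && decide (x < 0)) := by
  rcases Int.even_or_odd n with hn | hn
  · have h1 : 0 < x ^ n := hn.zpow_pos hx
    have h2 : ¬ (n % 2 = 1) := by
      have := Int.even_iff.mp hn
      omega
    simp [h1.le, h2]
  · have h2 : n % 2 = 1 := Int.odd_iff.mp hn
    have h3 : x ^ n < 0 ↔ x < 0 := hn.zpow_neg_iff
    simp [h2, h3]

lemma sb_evl {g : List ℝ} (hg : ∀ z ∈ g, z ≠ 0) (v : List ℤ) :
    decide (evl g v < 0) = parM v (pat g) := by
  induction g generalizing v with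
  | nil =>
    have h1 : ¬ ((1 : ℝ) < 0) := by norm_num
    rw [evl_nil_left, decide_eq_false h1]
    cases v <;> rfl
  | cons z g ih =>
    cases v with
    | nil =>
      have h1 : ¬ ((1 : ℝ) < 0) := by norm_num
      rw [evl_nil_right, decide_eq_false h1]
      rfl
    | cons n v =>
      have h2 : ∀ w ∈ g, w ≠ 0 := fun w hw => hg w (List.mem_cons_of_mem _ hw)
      rw [evl_cons, sb_mul (zpow_ne_zero _ (hg z List.mem_cons_self)) (evl_ne h2 _),
        sb_zpow (hg z List.mem_cons_self), ih h2]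
      rfl

lemma sb_ev {g : List ℝ} (hg : ∀ z ∈ g, z ≠ 0) (m : Mo) :
    decide (ev g m < 0) = xor m.1 (parM m.2 (pat g)) := by
  unfold ev
  rcases m with ⟨_ | _, v⟩
  · simp only [cond_false, one_mul, Bool.false_xor]
    exact sb_evl hg v
  · simp only [cond_true, neg_mul, one_mul]
    rw [← sb_evl hg v]
    have h0 := evl_ne hg v
    rcases lt_or_gt_of_ne h0 with h | h
    · simp [h, h.le]
    · simp [h, h.le]

lemma pat_map {g : List ℝ} (hg : ∀ z ∈ g, z ≠ 0) (AM : List Mo) :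
    pat (AM.map (ev g)) = tpat AM (pat g) := by
  unfold tpat
  rw [pat, List.map_map]
  exact List.map_congr_left fun m _ => sb_ev hg m

lemma log_map {g : List ℝ} (hg : ∀ z ∈ g, z ≠ 0) (AM : List Mo) :
    (AM.map (ev g)).map Real.log = (AM.map Prod.snd).map fun r => lin r (g.map Real.log) := by
  rw [List.map_map, List.map_map]
  exact List.map_congr_left fun m _ => log_ev hg m

/-! ### along a path -/

/-- good points -/
structure Good (b c : ℝ) (gs : List El) (ks : List ℕ) (sp : List (List ℤ)) (p : ℝ × ℝ) : Prop where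
  he : p.2 ^ 2 + (1 - c) * p.1 * p.2 - b * p.2 = p.1 ^ 3 - b * p.1 ^ 2
  h0 : p.1 ≠ 0
  hB : ∀ z ∈ BV gs ks p.1 p.2, z ≠ 0
  hs : ∀ l ∈ sp, pev p.1 l ≠ 0

section path

variable {b c : ℚ} {gs : List El} {ks : List ℕ} {sp : List (List ℤ)} {N : ℕ} {X Y κ : ℝ → ℝ} {s : ℝ}

/-- the translates -/
noncomputable def PP (b : ℚ) (X Y : ℝ → ℝ) (n : ℕ) (t : ℝ) : ℝ × ℝ := It (b : ℝ) n (X t, Y t)

lemma PP_succ (n : ℕ) (t : ℝ) : PP b X Y (n + 1) t = Tn (b : ℝ) (PP b X Y n t) :=
  It_succ _ _ _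

lemma good_of (h : Path (b : ℝ) c (NQ gs ks sp) N X Y κ s) :
    ∀ᶠ t in 𝓝 s, ∀ n < N, Good b c gs ks sp (PP b X Y n t) := by
  filter_upwards [h.ok, h.ne] with t h1 h2 n hn
  refine ⟨(h1 n hn).eq, (h2 n hn).1, ?_, ?_⟩
  · rw [← BQ_ev]
    intro z hz
    obtain ⟨e, he, rfl⟩ := List.mem_map.mp hz
    exact (h2 n hn).2 e (List.mem_append_left _ he)
  · intro l hl
    rw [← ev_pE l (PP b X Y n t).1 (PP b X Y n t).2]
    exact (h2 n hn).2 (pE l) (List.mem_append_right _ (List.mem_map.mpr ⟨l, hl, rfl⟩))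

/-- the data of the translation -/
structure Tr (b c : ℚ) (gs : List El) (ks : List ℕ) (AM : List Mo) : Prop where
  den : chkDen gs = true
  step : ∀ p : ℝ × ℝ, Good b c gs ks [] p →
    BV gs ks (Tn (b : ℝ) p).1 (Tn (b : ℝ) p).2 = AM.map (ev (BV gs ks p.1 p.2))

/-- the data of the translation from a check -/
theorem Tr.of_chk {bn bd cn ce : ℤ} (hb : b * bd = bn) (hc : c * ce = cn) (hbd : bd ≠ 0)
    (hce : ce ≠ 0) (hd : chkDen gs = true) {AM : List Mo}
    (h : chkRows (cv bn bd cn ce) (BE gs ks) bn bd (BE gs ks) AM = true) : Tr b c gs ks AM := by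
  refine ⟨hd, fun p hp => ?_⟩
  exact rows_v (cv_eq hb hc hp.he) (mul_ne_zero hbd hce) (BE_d hd) hp.hB hb hbd hp.h0 (BE_d hd) h

variable {AM : List Mo} (T : Tr b c gs ks AM)

include T

lemma step_aL {p : ℝ × ℝ} (h : Good b c gs ks sp p) :
    aL gs ks (Tn (b : ℝ) p) = (AM.map Prod.snd).map fun r => lin r (aL gs ks p) := by
  unfold aL
  rw [T.step p ⟨h.he, h.h0, h.hB, by simp⟩, log_map h.hB]

lemma step_pat {p : ℝ × ℝ} (h : Good b c gs ks sp p) :
    pat (BV gs ks (Tn (b : ℝ) p).1 (Tn (b : ℝ) p).2) = tpat AM (pat (BV gs ks p.1 p.2)) := by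
  rw [T.step p ⟨h.he, h.h0, h.hB, by simp⟩, pat_map h.hB]

variable (h : Path (b : ℝ) c (NQ gs ks sp) N X Y κ s)

include h

lemma der_aL {n : ℕ} (hn : n < N) (v : List ℤ) :
    HasDerivAt (fun t => lin v (aL gs ks (PP b X Y n t))) (lin v (dL b c gs (κ s) (PP b X Y n s)))
      s :=
  der_logs T.den (h.ok.self_of_nhds n hn) ((good_of h).self_of_nhds n hn).hB v

lemma rel {n : ℕ} (hn : n + 1 < N) :
    Rel (AM.map Prod.snd) (aL gs ks (PP b X Y n s)) (dL b c gs (κ s) (PP b X Y n s))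
      (aL gs ks (PP b X Y (n + 1) s)) (dL b c gs (κ s) (PP b X Y (n + 1) s)) := by
  have hev : ∀ v, ∀ᶠ t in 𝓝 s, lin v (aL gs ks (PP b X Y (n + 1) t)) =
      lin (vm v (AM.map Prod.snd)) (aL gs ks (PP b X Y n t)) := by
    intro v
    filter_upwards [good_of h] with t ht
    rw [PP_succ, step_aL T (ht n (by omega)), lin_vm]
  refine ⟨fun v => (hev v).self_of_nhds, fun v => ?_⟩
  have h1 := der_aL T h hn v
  have h2 := (der_aL T h (by omega : n < N) (vm v (AM.map Prod.snd))).congr_of_eventuallyEq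
    (hev v)
  exact h1.unique h2

lemma pat_iter {n : ℕ} (hn : n < N) :
    pat (BV gs ks (PP b X Y n s).1 (PP b X Y n s).2) =
      (tpat AM)^[n] (pat (BV gs ks (X s) (Y s))) := by
  induction n with
  | zero => rfl
  | succ n ih =>
    rw [PP_succ, step_pat T ((good_of h).self_of_nhds n (by omega)), ih (by omega),
      Function.iterate_succ_apply']

/-- the sum of the densities is the same at the translates by an even number of steps -/
lemma sum_even {L : List LA.Tm} (hinv : sumTab2 gs.length ((L.map (Tm.act (AM.map Prod.snd))).map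
      (Tm.act (AM.map Prod.snd))) = sumTab2 gs.length L) {n : ℕ} (hn : 2 * n < N) :
    (L.map fun t => t.tri (aL gs ks (PP b X Y (2 * n) s))
        (dL b c gs (κ s) (PP b X Y (2 * n) s))).sum =
      (L.map fun t => t.tri (aL gs ks (X s, Y s)) (dL b c gs (κ s) (X s, Y s))).sum := by
  induction n with
  | zero => rfl
  | succ n ih =>
    rw [← ih (by omega)]
    exact sum_inv2 hinv (rel T h (n := 2 * n) (by omega)) (rel T h (n := 2 * n + 1) (by omega))
      (dL_length _ _ _ _ _)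

/-- **from an arc to the component** -/
theorem pos_arc {L : List LA.Tm} (hinv : sumTab2 gs.length ((L.map (Tm.act (AM.map Prod.snd))).map
      (Tm.act (AM.map Prod.snd))) = sumTab2 gs.length L) {M : ℕ} (hM : 2 * M < N)
    {p0 : List Bool} (hr : ∃ n ≤ M, (tpat AM)^[2 * n] (pat (BV gs ks (X s) (Y s))) = p0)
    (harc : ∀ (p : ℝ × ℝ) (κ : ℝ), 0 < κ → Good b c gs ks sp p → pat (BV gs ks p.1 p.2) = p0 →
      0 < (L.map fun t => t.tri (aL gs ks p) (dL b c gs κ p)).sum) :
    0 < (L.map fun t => t.tri (aL gs ks (X s, Y s)) (dL b c gs (κ s) (X s, Y s))).sum := by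
  obtain ⟨n, hn, h1⟩ := hr
  have hn' : 2 * n < N := by omega
  rw [← sum_even T h hinv hn']
  refine harc _ _ h.pos ((good_of h).self_of_nhds _ hn') ?_
  rw [pat_iter T h hn', h1]

end path

/-- the patterns reach the pattern of the arc -/
def chkReach (AM : List Mo) (M : ℕ) (p0 : List Bool) (pats : List (List Bool)) : Bool :=
  pats.all fun p => (List.range (M + 1)).any fun n => decide ((tpat AM)^[2 * n] p = p0)

lemma reach {AM : List Mo} {M : ℕ} {p0 : List Bool} {pats : List (List Bool)}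
    (h : chkReach AM M p0 pats = true) {p : List Bool} (hp : p ∈ pats) :
    ∃ n ≤ M, (tpat AM)^[2 * n] p = p0 := by
  unfold chkReach at h
  rw [List.all_eq_true] at h
  have h1 := h p hp
  rw [List.any_eq_true] at h1
  obtain ⟨n, hn, h2⟩ := h1
  exact ⟨n, by rw [List.mem_range] at hn; omega, of_decide_eq_true h2⟩

/-- the speed is a factor -/
lemma dL_smul (b c : ℝ) (gs : List El) (κ : ℝ) (p : ℝ × ℝ) :
    dL b c gs κ p = (dL b c gs 1 p).map (κ * ·) := by
  unfold dL
  rw [List.map_map]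
  refine List.map_congr_left fun a _ => ?_
  simp only [Function.comp_apply]
  ring

/-- **positivity at a point** -/
theorem pos_pt {b c : ℝ} {gs : List El} {ks : List ℕ} {L : List LA.Tm} {n : ℕ}
    {Us Ws : List (List ℤ)} {P : List Pd}
    (h : scl3 (n : ℤ) (sumTab2 gs.length L) = prTab Us Ws P)
    (hP : chkPr Us.length Ws.length P = true) (hne : P ≠ []) {p : ℝ × ℝ} {κ : ℝ} (hκ : 0 < κ)
    (hU : ∀ u ∈ Us, lin u (aL gs ks p) < 0) (hW : ∀ w ∈ Ws, 0 < lin w (dL b c gs 1 p)) :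
    0 < (L.map fun t => t.tri (aL gs ks p) (dL b c gs κ p)).sum := by
  refine tri_pos h hP hne (dL_length _ _ _ _ _) hU fun w hw => ?_
  rw [dL_smul, lin_smul]
  exact mul_pos hκ (hW w hw)

/-- the logarithm of a unit less than one -/
lemma lin_neg {g : List ℝ} (hg : ∀ z ∈ g, 0 < z) {u : List ℤ} (h : evl g u < 1) :
    lin u (g.map Real.log) < 0 := by
  have hg' : ∀ z ∈ g, z ≠ 0 := fun z hz => (hg z hz).ne'
  rw [← log_evl hg']
  refine Real.log_neg ?_ h
  clear h hg'
  induction g generalizing u with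
  | nil => simp
  | cons z g ih =>
    cases u with
    | nil => simp
    | cons n u =>
      rw [evl_cons]
      exact mul_pos (zpow_pos (hg z List.mem_cons_self) n)
        (ih fun w hw => hg w (List.mem_cons_of_mem _ hw))

end Pool.Agent.K4N.PC
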