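import Pool.Agent.Lib_helper54.FAM.PC4

set_option autoImplicit false
set_option linter.unusedVariables false
set_option linter.unusedSectionVars false

/-!
# Inequalities on an arc, by polynomial arithmetic
-/

namespace Pool.Agent.K4N.PC

open Filter Topology Pool.Agent.K4N.LA Pool.Agent.KC72 Pool.Agent.TN
open Pool.Agent.AX (El pev Cv prE up evN evN_up evN_ne prE_v sgb prE_d pmul pev_axpy pev_pmul
  pev_isZ)

/-! ### positive polynomials -/

/-- powers of polynomials -/
def ppw (l : List ℤ) : ℕ → List ℤ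
  | 0 => [1]
  | n + 1 => pmul l (ppw l n)

/-- `∑ qᵢ l₁^i l₂^(n-i)` -/
def bern (l1 l2 : List ℤ) : List ℕ → List ℤ
  | [] => []
  | q :: Q => axpy (q : ℤ) (ppw l2 Q.length) (pmul l1 (bern l1 l2 Q))

/-- squares of special polynomials -/
def spw : List (List ℤ) → List ℕ → List ℤ
  | l :: sp, e :: S => pmul (ppw l (2 * e)) (spw sp S)
  | _, _ => [1]

/-- a certificate of positivity: `c (l₁ + l₂)^k P = ∏ sⱼ^(2 eⱼ) ∑ qᵢ l₁^i l₂^(n-i)` -/
structure Pc where
  c : ℕ
  k : ℕ
  S : List ℕ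
  Q : List ℕ

/-- the check -/
def Pc.chk (sp : List (List ℤ)) (l1 l2 : List ℤ) (P : List ℤ) (z : Pc) : Bool :=
  decide (0 < z.c) && z.Q.any (fun q => decide (0 < q)) &&
    isZ (axpy (z.c : ℤ) (pmul (ppw (axpy 1 l1 l2) z.k) P)
      (axpy (-1) (pmul (spw sp z.S) (bern l1 l2 z.Q)) []))

section

variable {x : ℝ} {l1 l2 : List ℤ}

lemma pev_ppw {K : Type*} [Field K] (x : K) (l : List ℤ) (n : ℕ) :
    pev x (ppw l n) = pev x l ^ n := by
  induction n with
  | zero => simp [ppw, pev]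
  | succ n ih => rw [ppw, pev_pmul, ih, pow_succ, mul_comm]

lemma bern_nonneg (h1 : 0 < pev x l1) (h2 : 0 < pev x l2) (Q : List ℕ) :
    0 ≤ pev x (bern l1 l2 Q) := by
  induction Q with
  | nil => exact le_rfl
  | cons q Q ih =>
    rw [bern, pev_axpy, pev_ppw, pev_pmul]
    have hq : (0 : ℝ) ≤ ((q : ℤ) : ℝ) := by exact_mod_cast Nat.zero_le q
    exact add_nonneg (mul_nonneg hq (pow_pos h2 _).le) (mul_nonneg h1.le ih)

lemma bern_pos (h1 : 0 < pev x l1) (h2 : 0 < pev x l2) {Q : List ℕ}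
    (hQ : Q.any (fun q => decide (0 < q)) = true) : 0 < pev x (bern l1 l2 Q) := by
  induction Q with
  | nil => exact absurd hQ (by simp)
  | cons q Q ih =>
    rw [bern, pev_axpy, pev_ppw, pev_pmul]
    have hq : (0 : ℝ) ≤ ((q : ℤ) : ℝ) := by exact_mod_cast Nat.zero_le q
    have hQ0 := bern_nonneg h1 h2 Q
    rw [List.any_cons, Bool.or_eq_true] at hQ
    rcases hQ with hQ | hQ
    · have hq' : (0 : ℝ) < ((q : ℤ) : ℝ) := by exact_mod_cast of_decide_eq_true hQ
      exact add_pos_of_pos_of_nonneg (mul_pos hq' (pow_pos h2 _)) (mul_nonneg h1.le hQ0)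
    · exact add_pos_of_nonneg_of_pos (mul_nonneg hq (pow_pos h2 _).le) (mul_pos h1 (ih hQ))

lemma spw_pos {sp : List (List ℤ)} (hs : ∀ l ∈ sp, pev x l ≠ 0) (S : List ℕ) :
    0 < pev x (spw sp S) := by
  induction sp generalizing S with
  | nil => simp [spw, pev]
  | cons l sp ih =>
    cases S with
    | nil => simp [spw, pev]
    | cons e S =>
      rw [spw, pev_pmul, pev_ppw, pow_mul]
      exact mul_pos (pow_pos (by
        have := hs l List.mem_cons_self
        positivity) e) (ih (fun l' hl' => hs l' (List.mem_cons_of_mem _ hl')) S)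

lemma Pc.pos {sp : List (List ℤ)} (hs : ∀ l ∈ sp, pev x l ≠ 0) (h1 : 0 < pev x l1)
    (h2 : 0 < pev x l2) {P : List ℤ} {z : Pc} (h : z.chk sp l1 l2 P = true) :
    0 < pev x P := by
  unfold Pc.chk at h
  simp only [Bool.and_eq_true, decide_eq_true_eq] at h
  obtain ⟨⟨a, b⟩, c⟩ := h
  have h3 := pev_isZ x c
  rw [pev_axpy, pev_axpy, pev_pmul, pev_pmul, pev_ppw, pev_axpy] at h3
  have h4 := mul_pos (spw_pos hs z.S) (bern_pos h1 h2 b)
  have h5 : (0 : ℝ) < ((z.c : ℤ) : ℝ) := by exact_mod_cast a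
  have h6 : 0 < ((1 : ℤ) : ℝ) * pev x l1 + pev x l2 := by
    push_cast
    linarith
  have h7 : ((z.c : ℤ) : ℝ) * (((1 : ℤ) : ℝ) * pev x l1 + pev x l2) ^ z.k * pev x P =
      pev x (spw sp z.S) * pev x (bern l1 l2 z.Q) := by
    simp only [pev] at h3
    push_cast at h3 ⊢
    linear_combination h3
  have h8 := mul_pos h5 (pow_pos h6 z.k)
  by_contra hh
  push Not at hh
  have := mul_nonpos_of_nonneg_of_nonpos h8.le hh
  rw [h7] at this
  linarith

end

/-! ### positive elements -/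

/-- a certificate of positivity of an element on the upper branch -/
inductive Ct where
  | t0 : Pc → Ct
  | t1 : Pc → Ct
  | t2 : Pc → Pc → Ct
  | t3 : Pc → Pc → Ct
  | t4 : Pc → Pc → Ct

/-- the part without `ψ` -/
def elA (C : Cv) (e : El) : List ℤ := axpy (2 * C.cd) e.P (pmul C.C1 e.Q)

/-- `ψ²` -/
def cvD (C : Cv) : List ℤ := axpy (4 * C.cd) C.C0 (pmul C.C1 C.C1)

/-- the check -/
def Ct.chk (C : Cv) (sp : List (List ℤ)) (l1 l2 : List ℤ) (e : El) (z : Ct) : Bool :=
  decide (0 < e.d) && match z with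
    | .t0 a => a.chk sp l1 l2 (elA C e) && isZ e.Q
    | .t1 a => isZ (elA C e) && a.chk sp l1 l2 e.Q
    | .t2 a b => a.chk sp l1 l2 (elA C e) && b.chk sp l1 l2 e.Q
    | .t3 a b => a.chk sp l1 l2 e.Q &&
      b.chk sp l1 l2 (axpy 1 (pmul (cvD C) (pmul e.Q e.Q)) (axpy (-1) (pmul (elA C e) (elA C e)) []))
    | .t4 a b => a.chk sp l1 l2 (elA C e) &&
      b.chk sp l1 l2 (axpy 1 (pmul (elA C e) (elA C e)) (axpy (-1) (pmul (cvD C) (pmul e.Q e.Q)) []))

/-- a point on the upper branch over an interval -/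
structure Up (C : Cv) (sp : List (List ℤ)) (l1 l2 : List ℤ) (x y : ℝ) : Prop where
  hs : ∀ l ∈ sp, pev x l ≠ 0
  eq : C.Eq x y
  cd : 0 < C.cd
  h1 : 0 < pev x l1
  h2 : 0 < pev x l2
  ps : 0 < 2 * (C.cd : ℝ) * y - pev x C.C1

theorem Ct.pos {C : Cv} {sp : List (List ℤ)} {l1 l2 : List ℤ} {x y : ℝ} (u : Up C sp l1 l2 x y) {e : El} {z : Ct}
    (h : z.chk C sp l1 l2 e = true) : 0 < e.v x y := by
  obtain ⟨hs0, eq, cd, h1, h2, ps⟩ := u
  unfold Ct.chk at h
  rw [Bool.and_eq_true] at h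
  obtain ⟨hd, h⟩ := h
  have hd' : (0 : ℝ) < (e.d : ℝ) := by exact_mod_cast of_decide_eq_true hd
  have cd' : (0 : ℝ) < (C.cd : ℝ) := by exact_mod_cast cd
  unfold Cv.Eq at eq
  set ψ := 2 * (C.cd : ℝ) * y - pev x C.C1 with hψ
  set A := pev x (elA C e) with hA
  set B := pev x e.Q with hB
  have eA : A = 2 * C.cd * pev x e.P + pev x C.C1 * B := by
    rw [hA, elA, pev_axpy, pev_pmul]
    push_cast
    ring
  have key : 2 * (C.cd : ℝ) * (pev x e.P + pev x e.Q * y) = A + B * ψ := by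
    rw [eA, hψ, hB]
    ring
  have hD : ψ ^ 2 = pev x (cvD C) := by
    rw [cvD, pev_axpy, pev_pmul, hψ]
    push_cast
    linear_combination (4 * C.cd : ℝ) * eq
  suffices hs : 0 < A + B * ψ by
    unfold El.v
    refine div_pos ?_ hd'
    rw [← key] at hs
    exact (pos_iff_pos_of_mul_pos hs).mp (by positivity)
  rcases z with a | a | ⟨a, b⟩ | ⟨a, b⟩ | ⟨a, b⟩
  · simp only [Bool.and_eq_true] at h
    have ha := a.pos hs0 h1 h2 h.1
    have hb := pev_isZ x h.2
    rw [← hA] at ha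
    rw [← hB] at hb
    rw [hb]
    linarith
  · simp only [Bool.and_eq_true] at h
    have ha := pev_isZ x h.1
    have hb := a.pos hs0 h1 h2 h.2
    rw [← hA] at ha
    rw [← hB] at hb
    rw [ha, zero_add]
    exact mul_pos hb ps
  · simp only [Bool.and_eq_true] at h
    have ha := a.pos hs0 h1 h2 h.1
    have hb := b.pos hs0 h1 h2 h.2
    rw [← hA] at ha
    rw [← hB] at hb
    exact add_pos ha (mul_pos hb ps)
  · simp only [Bool.and_eq_true] at h
    have ha := a.pos hs0 h1 h2 h.1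
    have hb := b.pos hs0 h1 h2 h.2
    rw [← hB] at ha
    simp only [pev_axpy, pev_pmul] at hb
    rw [← hA, ← hB, ← hD] at hb
    simp only [pev] at hb
    push_cast at hb
    have h3 := mul_pos ha ps
    have h4 : A ^ 2 < (B * ψ) ^ 2 := by nlinarith
    have h5 := abs_lt_of_sq_lt_sq h4 h3.le
    linarith [(abs_lt.mp h5).1]
  · simp only [Bool.and_eq_true] at h
    have ha := a.pos hs0 h1 h2 h.1
    have hb := b.pos hs0 h1 h2 h.2
    rw [← hA] at ha
    simp only [pev_axpy, pev_pmul] at hb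
    rw [← hA, ← hB, ← hD] at hb
    simp only [pev] at hb
    push_cast at hb
    have h4 : (B * ψ) ^ 2 < A ^ 2 := by nlinarith
    have h5 := abs_lt_of_sq_lt_sq h4 ha.le
    linarith [(abs_lt.mp h5).1]

/-! ### units less than one -/

/-- the difference of the denominator and the numerator of a monomial -/
def uE (C : Cv) (G : List El) (u : List ℤ) : El :=
  let m := u.map fun n => (-n).toNat
  let a := prE C G m
  let b := prE C G (up u m)
  ⟨axpy b.d a.P (axpy (-a.d) b.P []), axpy b.d a.Q (axpy (-a.d) b.Q []), a.d * b.d⟩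

lemma El.sub_v {K : Type*} [Field K] {x y : K} {a b : El} (ha : (a.d : K) ≠ 0)
    (hb : (b.d : K) ≠ 0) :
    (⟨axpy b.d a.P (axpy (-a.d) b.P []), axpy b.d a.Q (axpy (-a.d) b.Q []), a.d * b.d⟩ : El).v x y =
      a.v x y - b.v x y := by
  unfold El.v
  simp only [pev_axpy, pev]
  push_cast
  field_simp
  ring

lemma evN_pos {g : List ℝ} (hg : ∀ z ∈ g, 0 < z) (m : List ℕ) : 0 < evN g m := by
  induction g generalizing m with
  | nil => simp [evN]
  | cons z g ih =>
    cases m with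
    | nil => simp [evN]
    | cons n m =>
      rw [evN]
      exact mul_pos (pow_pos (hg z List.mem_cons_self) n)
        (ih (fun w hw => hg w (List.mem_cons_of_mem _ hw)) m)

/-- **a unit less than one** -/
theorem unit_lt {C : Cv} {x y : ℝ} (hC : C.Eq x y) (hcd : C.cd ≠ 0) {G : List El}
    (hG : ∀ a ∈ G, a.d ≠ 0) (hg : ∀ z ∈ G.map (El.v x y), 0 < z) {u : List ℤ}
    (h : 0 < (uE C G u).v x y) : lin u ((G.map (El.v x y)).map Real.log) < 0 := by
  have hcd' : (C.cd : ℝ) ≠ 0 := by exact_mod_cast hcd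
  have hG' : ∀ a ∈ G, (a.d : ℝ) ≠ 0 := fun a ha => by exact_mod_cast hG a ha
  have hg' : ∀ z ∈ G.map (El.v x y), z ≠ 0 := fun z hz => (hg z hz).ne'
  have hup : List.Forall₂ (fun a m => (-a).toNat ≤ m) u (u.map fun n => (-n).toNat) := by
    rw [List.forall₂_map_right_iff]
    exact List.forall₂_same.mpr fun _ _ => le_rfl
  refine lin_neg hg ?_
  unfold uE at h
  simp only at h
  rw [El.sub_v (prE_d hcd' hG' _) (prE_d hcd' hG' _), prE_v hC hcd', prE_v hC hcd',
    evN_up hg' hup] at h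
  have h5 := evN_pos hg (u.map fun n => (-n).toNat)
  by_contra hh
  push Not at hh
  have h6 := mul_le_mul_of_nonneg_right hh h5.le
  linarith

/-! ### monotone units -/

/-- the derivative of an element -/
def dE (bn bd cn ce : ℤ) (a : El) : El :=
  ⟨axpy (a.P.getD 1 0) [-(bn * ce), (ce - cn) * bd]
      (axpy (a.Q.getD 0 0) [0, -(2 * (bn * ce)), 3 * (bd * ce)] []),
    [a.P.getD 1 0 * (2 * (bd * ce)) - a.Q.getD 0 0 * ((ce - cn) * bd)], a.d * (bd * ce)⟩

lemma dv_pE (b c : ℝ) {l : List ℤ} (h : l.length ≤ 2) (U V : ℝ) :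
    (pE l).dv b c U V = (l.getD 1 0 : ℤ) * (2 * V + (1 - c) * U - b) := by
  match l, h with
  | [], _ =>
    show (0 : ℝ) = _
    simp
  | [a], _ =>
    show (0 : ℝ) + ((2 * V + (1 - c) * U - b) * ((0 : ℚ) : ℝ) + U * 0) = _
    simp
  | [a, a'], _ =>
    show (0 : ℝ) + ((2 * V + (1 - c) * U - b) * ((((a' : ℤ) : ℚ) : ℝ) + U * ((0 : ℚ) : ℝ)) +
      U * (0 + ((2 * V + (1 - c) * U - b) * ((0 : ℚ) : ℝ) + U * 0))) = _
    simp
    ring
  | _ :: _ :: _ :: _, h => simp at h

lemma dE_v {b c : ℚ} {bn bd cn ce : ℤ} (hb : b * bd = bn) (hc : c * ce = cn) (hbd : bd ≠ 0)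
    (hce : ce ≠ 0) {a : El} (h1 : a.P.length ≤ 2) (h2 : a.Q.length ≤ 1) (hd : a.d ≠ 0)
    (U V : ℝ) : (elE a).dv (b : ℝ) c U V = (dE bn bd cn ce a).v U V := by
  have hb' : (b : ℝ) * bd = bn := by exact_mod_cast congrArg (fun q : ℚ => (q : ℝ)) hb
  have hc' : (c : ℝ) * ce = cn := by exact_mod_cast congrArg (fun q : ℚ => (q : ℝ)) hc
  have hbd' : (bd : ℝ) ≠ 0 := by exact_mod_cast hbd
  have hce' : (ce : ℝ) ≠ 0 := by exact_mod_cast hce
  have hd' : (a.d : ℝ) ≠ 0 := by exact_mod_cast hd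
  have e1 : (elE a).dv (b : ℝ) c U V = (((pE a.P).dv (b : ℝ) c U V +
      ((pE a.Q).dv (b : ℝ) c U V * V + (pE a.Q).ev U V * (3 * U ^ 2 - 2 * b * U - (1 - c) * V))) *
      (((a.d : ℤ) : ℚ) : ℝ) - ((pE a.P).ev U V + (pE a.Q).ev U V * V) * 0) /
        (((a.d : ℤ) : ℚ) : ℝ) ^ 2 := rfl
  rw [e1, dv_pE _ _ h1, dv_pE _ _ (h2.trans (by norm_num)), ev_pE, ev_pE, pev_le1 _ h2]
  have e2 : a.Q.getD 1 0 = 0 := by
    match hq : a.Q, h2 with
    | [], _ => rfl
    | [_], _ => rfl
    | _ :: _ :: _, h => simp [hq] at h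
  rw [e2]
  unfold dE El.v
  simp only [pev_axpy, pev]
  push_cast
  rw [← hb', ← hc']
  generalize ((a.P.getD 1 0 : ℤ) : ℝ) = β
  generalize ((a.Q.getD 0 0 : ℤ) : ℝ) = γ
  field_simp
  ring

/-- the numerator and the denominator of a logarithmic derivative -/
def wE (C : Cv) (bn bd cn ce : ℤ) : List El → List ℤ → El × El
  | a :: A, n :: w =>
    let r := wE C bn bd cn ce A w
    if n = 0 then r else
    let s := a.mul C r.1
    let t := (dE bn bd cn ce a).mul C r.2
    (⟨axpy t.d s.P (axpy (n * s.d) t.P []), axpy t.d s.Q (axpy (n * s.d) t.Q []), s.d * t.d⟩,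
      a.mul C r.2)
  | _, _ => (⟨[], [], 1⟩, ⟨[1], [], 1⟩)

/-- the elements are linear with denominators -/
def chkLin (G : List El) : Bool :=
  G.all fun a => decide (a.P.length ≤ 2) && decide (a.Q.length ≤ 1) && decide (a.d ≠ 0)

lemma wE_v {b c : ℚ} {bn bd cn ce : ℤ} (hb : b * bd = bn) (hc : c * ce = cn) (hbd : bd ≠ 0)
    (hce : ce ≠ 0) {x y : ℝ} (hC : (cv bn bd cn ce).Eq x y) {gs : List El}
    (hl : chkLin gs = true) (hg : ∀ z ∈ gs.map (El.v x y), 0 < z) (w : List ℤ) :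
    ((wE (cv bn bd cn ce) bn bd cn ce gs w).1.d : ℝ) ≠ 0 ∧
    ((wE (cv bn bd cn ce) bn bd cn ce gs w).2.d : ℝ) ≠ 0 ∧
    0 < (wE (cv bn bd cn ce) bn bd cn ce gs w).2.v x y ∧
    lin w (dL b c gs 1 (x, y)) * (wE (cv bn bd cn ce) bn bd cn ce gs w).2.v x y =
      (wE (cv bn bd cn ce) bn bd cn ce gs w).1.v x y := by
  have hcd : (((cv bn bd cn ce).cd : ℤ) : ℝ) ≠ 0 := by
    show ((bd * ce : ℤ) : ℝ) ≠ 0
    exact_mod_cast mul_ne_zero hbd hce
  induction gs generalizing w with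
  | nil =>
    have e : wE (cv bn bd cn ce) bn bd cn ce [] w = (⟨[], [], 1⟩, ⟨[1], [], 1⟩) := by
      cases w <;> rfl
    rw [e]
    simp [El.v, pev, dL]
  | cons a gs ih =>
    cases w with
    | nil =>
      have e : wE (cv bn bd cn ce) bn bd cn ce (a :: gs) [] = (⟨[], [], 1⟩, ⟨[1], [], 1⟩) := rfl
      rw [e]
      simp [El.v, pev]
    | cons n w =>
      unfold chkLin at hl
      rw [List.all_cons, Bool.and_eq_true] at hl
      simp only [Bool.and_eq_true, decide_eq_true_eq] at hl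
      obtain ⟨⟨⟨l1, l2⟩, l3⟩, l4⟩ := hl
      have hl' : chkLin gs = true := by
        unfold chkLin
        rw [List.all_eq_true] at l4 ⊢
        intro z hz
        have := l4 z hz
        simpa [Bool.and_eq_true] using this
      obtain ⟨i1, i2, i3, i4⟩ := ih hl' (fun z hz => hg z (List.mem_cons_of_mem _ hz)) w
      have ha : 0 < a.v x y := hg _ List.mem_cons_self
      have hd' : (a.d : ℝ) ≠ 0 := by exact_mod_cast l3
      have edL : dL (b : ℝ) c (a :: gs) 1 (x, y) =
          ((elE a).dv (b : ℝ) c x y * 1 / (elE a).ev x y) :: dL b c gs 1 (x, y) := rfl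
      have e0 : wE (cv bn bd cn ce) bn bd cn ce (a :: gs) (n :: w) =
          if n = 0 then wE (cv bn bd cn ce) bn bd cn ce gs w else
          (⟨axpy ((dE bn bd cn ce a).mul (cv bn bd cn ce)
              (wE (cv bn bd cn ce) bn bd cn ce gs w).2).d
              (a.mul (cv bn bd cn ce) (wE (cv bn bd cn ce) bn bd cn ce gs w).1).P
              (axpy (n * (a.mul (cv bn bd cn ce) (wE (cv bn bd cn ce) bn bd cn ce gs w).1).d)
                ((dE bn bd cn ce a).mul (cv bn bd cn ce)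
                  (wE (cv bn bd cn ce) bn bd cn ce gs w).2).P []),
            axpy ((dE bn bd cn ce a).mul (cv bn bd cn ce)
              (wE (cv bn bd cn ce) bn bd cn ce gs w).2).d
              (a.mul (cv bn bd cn ce) (wE (cv bn bd cn ce) bn bd cn ce gs w).1).Q
              (axpy (n * (a.mul (cv bn bd cn ce) (wE (cv bn bd cn ce) bn bd cn ce gs w).1).d)
                ((dE bn bd cn ce a).mul (cv bn bd cn ce)
                  (wE (cv bn bd cn ce) bn bd cn ce gs w).2).Q []),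
            (a.mul (cv bn bd cn ce) (wE (cv bn bd cn ce) bn bd cn ce gs w).1).d *
              ((dE bn bd cn ce a).mul (cv bn bd cn ce)
                (wE (cv bn bd cn ce) bn bd cn ce gs w).2).d⟩,
            a.mul (cv bn bd cn ce) (wE (cv bn bd cn ce) bn bd cn ce gs w).2) := rfl
      rw [e0, edL, lin_cons]
      by_cases hn : n = 0
      · rw [if_pos hn]
        refine ⟨i1, i2, i3, ?_⟩
        rw [← i4, hn]
        push_cast
        ring
      · rw [if_neg hn]
        generalize wE (cv bn bd cn ce) bn bd cn ce gs w = r at i1 i2 i3 i4 ⊢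
        have ds : ((a.mul (cv bn bd cn ce) r.1).d : ℝ) ≠ 0 := AX.El.mul_d hcd hd' i1
        have dd : ((dE bn bd cn ce a).d : ℝ) ≠ 0 := by
          unfold dE
          push_cast
          have h1 : (bd : ℝ) ≠ 0 := by exact_mod_cast hbd
          have h2 : (ce : ℝ) ≠ 0 := by exact_mod_cast hce
          exact mul_ne_zero hd' (mul_ne_zero h1 h2)
        have dt : (((dE bn bd cn ce a).mul (cv bn bd cn ce) r.2).d : ℝ) ≠ 0 :=
          AX.El.mul_d hcd dd i2
        refine ⟨?_, AX.El.mul_d hcd hd' i2, ?_, ?_⟩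
        · push_cast
          exact mul_ne_zero ds dt
        · rw [AX.El.mul_v hC hcd]
          exact mul_pos ha i3
        · have e1 : (⟨axpy ((dE bn bd cn ce a).mul (cv bn bd cn ce) r.2).d
              (a.mul (cv bn bd cn ce) r.1).P (axpy (n * (a.mul (cv bn bd cn ce) r.1).d)
                ((dE bn bd cn ce a).mul (cv bn bd cn ce) r.2).P []),
              axpy ((dE bn bd cn ce a).mul (cv bn bd cn ce) r.2).d
              (a.mul (cv bn bd cn ce) r.1).Q (axpy (n * (a.mul (cv bn bd cn ce) r.1).d)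
                ((dE bn bd cn ce a).mul (cv bn bd cn ce) r.2).Q []),
              (a.mul (cv bn bd cn ce) r.1).d * ((dE bn bd cn ce a).mul (cv bn bd cn ce) r.2).d⟩ :
              El).v x y = (a.mul (cv bn bd cn ce) r.1).v x y +
                n * ((dE bn bd cn ce a).mul (cv bn bd cn ce) r.2).v x y := by
            unfold El.v
            simp only [pev_axpy, pev]
            push_cast
            field_simp
            ring
          rw [e1, AX.El.mul_v hC hcd, AX.El.mul_v hC hcd, AX.El.mul_v hC hcd, ← i4,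
            ← dE_v hb hc hbd hce l1 l2 l3, ev_elE]
          field_simp
          ring

/-- **a monotone unit** -/
theorem mono_pos {b c : ℚ} {bn bd cn ce : ℤ} (hb : b * bd = bn) (hc : c * ce = cn)
    (hbd : bd ≠ 0) (hce : ce ≠ 0) {x y : ℝ} (hC : (cv bn bd cn ce).Eq x y) {gs : List El}
    (hl : chkLin gs = true) (hg : ∀ z ∈ gs.map (El.v x y), 0 < z) {w : List ℤ}
    (h : 0 < (wE (cv bn bd cn ce) bn bd cn ce gs w).1.v x y) :
    0 < lin w (dL b c gs 1 (x, y)) := by
  obtain ⟨-, -, i3, i4⟩ := wE_v hb hc hbd hce hC hl hg w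
  rw [← i4] at h
  by_contra hh
  push Not at hh
  have := mul_nonpos_of_nonpos_of_nonneg hh i3.le
  linarith

/-! ### intervals -/

/-- an interval: `p < q x`, `s x < r` -/
structure Rg where
  p : ℤ
  q : ℤ
  r : ℤ
  s : ℤ

/-- `x` is in the interval -/
def Rg.mem (R : Rg) (x : ℝ) : Prop := (R.p : ℝ) < R.q * x ∧ (R.s : ℝ) * x < R.r

/-- the right end of the interval is not on the left of `r / s` -/
def Rg.endOk (R : Rg) (r s : ℤ) : Bool :=
  (decide (R.s = 0) && decide (0 < R.r)) ||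
    (decide (0 < R.s) && decide (0 < s) && decide (r * R.s ≤ R.r * s))

/-- the intervals cover `[p / q, r / s)` -/
def covT (r s : ℤ) : ℤ → ℤ → List Rg → Bool
  | _, _, [] => false
  | p, q, R :: L => decide (0 < q) && decide (0 < R.q) && decide (R.p * q < p * R.q) &&
      (R.endOk r s || (decide (0 < R.s) && covT r s R.r R.s L))

/-- the intervals cover the interval -/
def cov (A : Rg) : List Rg → Bool
  | [] => false
  | R :: L => decide (0 < A.q) && decide (0 < R.q) && decide (R.p * A.q ≤ A.p * R.q) &&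
      (R.endOk A.r A.s || (decide (0 < R.s) && covT A.r A.s R.r R.s L))

lemma Rg.end_lt {R : Rg} {r s : ℤ} {x : ℝ} (h : R.endOk r s = true) (hx : (s : ℝ) * x < r) :
    (R.s : ℝ) * x < R.r := by
  unfold Rg.endOk at h
  simp only [Bool.or_eq_true, Bool.and_eq_true, decide_eq_true_eq] at h
  rcases h with ⟨h1, h2⟩ | ⟨⟨h1, h2⟩, h3⟩
  · rw [h1]
    push_cast
    rw [zero_mul]
    exact_mod_cast h2
  · have h1' : (0 : ℝ) < R.s := by exact_mod_cast h1
    have h2' : (0 : ℝ) < s := by exact_mod_cast h2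
    have h3' : (r : ℝ) * R.s ≤ R.r * s := by exact_mod_cast h3
    have h4 : (s : ℝ) * ((R.s : ℝ) * x) < s * R.r := by nlinarith
    exact lt_of_mul_lt_mul_left h4 h2'.le

lemma covT_ex {r s : ℤ} {x : ℝ} (hx : (s : ℝ) * x < r) {L : List Rg} {p q : ℤ}
    (h : covT r s p q L = true) (h0 : (p : ℝ) ≤ q * x) : ∃ R ∈ L, R.mem x := by
  induction L generalizing p q with
  | nil => exact absurd h (by simp [covT])
  | cons R L ih =>
    rw [covT] at h
    simp only [Bool.or_eq_true, Bool.and_eq_true, decide_eq_true_eq] at h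
    obtain ⟨⟨⟨h1, h2⟩, h3⟩, h4⟩ := h
    have h1' : (0 : ℝ) < q := by exact_mod_cast h1
    have h2' : (0 : ℝ) < R.q := by exact_mod_cast h2
    have h3' : (R.p : ℝ) * q < p * R.q := by exact_mod_cast h3
    have hl : (R.p : ℝ) < R.q * x := by
      have h5 : (q : ℝ) * R.p < q * (R.q * x) := by nlinarith
      exact lt_of_mul_lt_mul_left h5 h1'.le
    rcases h4 with h4 | ⟨h4, h5⟩
    · exact ⟨R, List.mem_cons_self, hl, Rg.end_lt h4 hx⟩
    · rcases lt_or_ge ((R.s : ℝ) * x) R.r with h6 | h6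
      · exact ⟨R, List.mem_cons_self, hl, h6⟩
      · obtain ⟨R', hR', h7⟩ := ih h5 h6
        exact ⟨R', List.mem_cons_of_mem _ hR', h7⟩

lemma cov_ex {A : Rg} {x : ℝ} (hx : A.mem x) {L : List Rg} (h : cov A L = true) :
    ∃ R ∈ L, R.mem x := by
  cases L with
  | nil => exact absurd h (by simp [cov])
  | cons R L =>
    rw [cov] at h
    simp only [Bool.or_eq_true, Bool.and_eq_true, decide_eq_true_eq] at h
    obtain ⟨⟨⟨h1, h2⟩, h3⟩, h4⟩ := h
    have h1' : (0 : ℝ) < A.q := by exact_mod_cast h1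
    have h2' : (0 : ℝ) < R.q := by exact_mod_cast h2
    have h3' : (R.p : ℝ) * A.q ≤ A.p * R.q := by exact_mod_cast h3
    have hx1 := hx.1
    have hl : (R.p : ℝ) < R.q * x := by
      have h5 : (A.q : ℝ) * R.p < A.q * (R.q * x) := by nlinarith
      exact lt_of_mul_lt_mul_left h5 h1'.le
    rcases h4 with h4 | ⟨h4, h5⟩
    · exact ⟨R, List.mem_cons_self, hl, Rg.end_lt h4 hx.2⟩
    · rcases lt_or_ge ((R.s : ℝ) * x) R.r with h6 | h6
      · exact ⟨R, List.mem_cons_self, hl, h6⟩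
      · obtain ⟨R', hR', h7⟩ := covT_ex hx.2 h5 h6
        exact ⟨R', List.mem_cons_of_mem _ hR', h7⟩

/-! ### the certificate of an arc -/

/-- an inequality: the exponents, the certificates on the pieces -/
structure Iq where
  v : List ℤ
  ps : List (Rg × Ct)

/-- the check of an inequality -/
def Iq.chk (C : Cv) (sp : List (List ℤ)) (A : Rg) (e : El) (z : Iq) : Bool :=
  cov A (z.ps.map Prod.fst) &&
    z.ps.all fun t => t.2.chk C sp [-t.1.p, t.1.q] [t.1.r, -t.1.s] e

theorem Iq.pos {C : Cv} {sp : List (List ℤ)} {A : Rg} {e : El} {z : Iq}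
    (h : z.chk C sp A e = true) {x y : ℝ} (hs : ∀ l ∈ sp, pev x l ≠ 0) (eq : C.Eq x y)
    (cd : 0 < C.cd) (hA : A.mem x) (ps : 0 < 2 * (C.cd : ℝ) * y - pev x C.C1) :
    0 < e.v x y := by
  unfold Iq.chk at h
  rw [Bool.and_eq_true, List.all_eq_true] at h
  obtain ⟨R, hR, h1⟩ := cov_ex hA h.1
  obtain ⟨t, ht, rfl⟩ := List.mem_map.mp hR
  refine Ct.pos ⟨hs, eq, cd, ?_, ?_, ps⟩ (h.2 t ht)
  · have := h1.1
    simp only [pev]
    push_cast
    linarith
  · have := h1.2
    simp only [pev]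
    push_cast
    linarith

/-- a certificate of positivity on an arc -/
structure Arc where
  A : Rg
  n : ℕ
  Us : List Iq
  Ws : List Iq
  P : List Pd

/-- the inequalities for the units -/
def Arc.chkU (bn bd cn ce : ℤ) (gs : List El) (ks : List ℕ) (sp : List (List ℤ)) (A : Arc) :
    Bool :=
  A.Us.all fun u => u.chk (cv bn bd cn ce) sp A.A (uE (cv bn bd cn ce) (BE gs ks) u.v)

/-- the inequalities for the monotone units -/
def Arc.chkW (bn bd cn ce : ℤ) (gs : List El) (sp : List (List ℤ)) (A : Arc) : Bool :=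
  A.Ws.all fun w => w.chk (cv bn bd cn ce) sp A.A (wE (cv bn bd cn ce) bn bd cn ce gs w.v).1

/-- the identity -/
def Arc.chkP (r : ℕ) (L : List LA.Tm) (A : Arc) : Bool :=
  chkPr A.Us.length A.Ws.length A.P && !A.P.isEmpty &&
    decide (scl3 (A.n : ℤ) (sumTab2 r L) = prTab (A.Us.map Iq.v) (A.Ws.map Iq.v) A.P)

/-- **positivity on an arc** -/
theorem Arc.pos {b c : ℚ} {bn bd cn ce : ℤ} (hb : b * bd = bn) (hc : c * ce = cn)
    (hbd : 0 < bd) (hce : 0 < ce) {gs : List El} {ks : List ℕ} {sp : List (List ℤ)}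
    (hl : chkLin gs = true) {L : List LA.Tm} {A : Arc} (hP : A.chkP gs.length L = true)
    (hU : A.chkU bn bd cn ce gs ks sp = true) (hW : A.chkW bn bd cn ce gs sp = true)
    {p : ℝ × ℝ} {κ : ℝ} (hκ : 0 < κ) (hp : Good b c gs ks sp p)
    (hz : ∀ z ∈ BV gs ks p.1 p.2, 0 < z) (hA : A.A.mem p.1)
    (hψ : 0 < 2 * p.2 + (1 - (c : ℝ)) * p.1 - b) :
    0 < (L.map fun t => t.tri (aL gs ks p) (dL b c gs κ p)).sum := by
  unfold Arc.chkP at hP
  simp only [Bool.and_eq_true, decide_eq_true_eq, Bool.not_eq_true', List.isEmpty_eq_false_iff] at hP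
  obtain ⟨⟨c1, c2⟩, c3⟩ := hP
  unfold Arc.chkU at hU
  unfold Arc.chkW at hW
  rw [List.all_eq_true] at hU hW
  have hC : (cv bn bd cn ce).Eq p.1 p.2 := cv_eq hb hc hp.he
  have hb' : (b : ℝ) * bd = bn := by exact_mod_cast congrArg (fun q : ℚ => (q : ℝ)) hb
  have hc' : (c : ℝ) * ce = cn := by exact_mod_cast congrArg (fun q : ℚ => (q : ℝ)) hc
  have hbd' : (0 : ℝ) < bd := by exact_mod_cast hbd
  have hce' : (0 : ℝ) < ce := by exact_mod_cast hce
  have hps : 0 < 2 * (((cv bn bd cn ce).cd : ℤ) : ℝ) * p.2 - pev p.1 (cv bn bd cn ce).C1 := by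
    have e : 2 * (((cv bn bd cn ce).cd : ℤ) : ℝ) * p.2 - pev p.1 (cv bn bd cn ce).C1 =
        (bd * ce : ℝ) * (2 * p.2 + (1 - (c : ℝ)) * p.1 - b) := by
      unfold cv
      simp only [pev]
      push_cast
      rw [← hb', ← hc']
      ring
    rw [e]
    exact mul_pos (mul_pos hbd' hce') hψ
  have hG : ∀ a ∈ BE gs ks, a.d ≠ 0 := by
    refine BE_d ?_
    unfold chkDen
    unfold chkLin at hl
    rw [List.all_eq_true] at hl ⊢
    intro a ha
    have := hl a ha
    rw [Bool.and_eq_true] at this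
    exact this.2
  refine pos_pt c3 (by simpa using c1) c2 hκ ?_ ?_
  · intro u hu
    obtain ⟨v, hv, rfl⟩ := List.mem_map.mp hu
    exact unit_lt hC (mul_pos hbd hce).ne' hG hz (Iq.pos (hU v hv) hp.hs hC (mul_pos hbd hce)
      hA hps)
  · intro w hw
    obtain ⟨v, hv, rfl⟩ := List.mem_map.mp hw
    refine mono_pos hb hc hbd.ne' hce.ne' hC hl (fun z hz' => hz z ?_)
      (Iq.pos (hW v hv) hp.hs hC (mul_pos hbd hce) hA hps)
    unfold BV BE
    rw [List.map_append]
    exact List.mem_append_left _ hz'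

end Pool.Agent.K4N.PC
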