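import Pool.Agent.Lib_helper54.FAM.PC5

set_option autoImplicit false
set_option linter.unusedVariables false
set_option linter.unusedSectionVars false

/-!
# Translations and the reflection, from a half arc to the component
-/

namespace Pool.Agent.K4N.PC

open Filter Topology Pool.Agent.K4N.LA Pool.Agent.KC72 Pool.Agent.TN
open Pool.Agent.AX (El pev Cv prE up evN evN_up evN_ne prE_v sum3 sum3_v sgb prE_d)

/-! ### the reflection -/

/-- the opposite point -/
def Sn {K : Type*} [Field K] (b c : K) (p : K × K) : K × K := (p.1, -p.2 - (1 - c) * p.1 + b)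

/-- the value at the opposite point -/
def sgE (bn bd cn ce : ℤ) (a : El) : El :=
  ⟨[a.P.getD 0 0 * (bd * ce) + a.Q.getD 0 0 * (bn * ce),
      a.P.getD 1 0 * (bd * ce) - a.Q.getD 0 0 * ((ce - cn) * bd)],
    [-(a.Q.getD 0 0) * (bd * ce)], a.d * (bd * ce)⟩

/-- the value of a generator at the opposite point is a monomial -/
def chkSRow (C : Cv) (G : List El) (bn bd cn ce : ℤ) (a : El) (m : Mo) : Bool :=
  decide (a.P.length ≤ 2) && decide (a.Q.length ≤ 1) &&
    sum3 1 (-(sgb m.1)) ((sgE bn bd cn ce a).mul C (prE C G (m.2.map fun n => (-n).toNat)))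
      (prE C G (up m.2 (m.2.map fun n => (-n).toNat))) ⟨[], [], 1⟩

/-- the values of the generators at the opposite point are monomials -/
def chkSRows (C : Cv) (G : List El) (bn bd cn ce : ℤ) : List El → List Mo → Bool
  | [], [] => true
  | a :: A, m :: M => chkSRow C G bn bd cn ce a m && chkSRows C G bn bd cn ce A M
  | _, _ => false

section

variable {K : Type*} [Field K] {b c : ℚ} {bn bd cn ce : ℤ} {U V : K}

lemma sgE_v [CharZero K] (hb : b * bd = bn) (hc : c * ce = cn) (hbd : bd ≠ 0) (hce : ce ≠ 0)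
    {a : El} (h1 : a.P.length ≤ 2) (h2 : a.Q.length ≤ 1) (hd : a.d ≠ 0) :
    a.v U (-V - (1 - (c : K)) * U + b) = (sgE bn bd cn ce a).v U V := by
  have hb' : (b : K) * bd = bn := by exact_mod_cast congrArg (fun q : ℚ => (q : K)) hb
  have hc' : (c : K) * ce = cn := by exact_mod_cast congrArg (fun q : ℚ => (q : K)) hc
  have hbd' : (bd : K) ≠ 0 := by exact_mod_cast hbd
  have hce' : (ce : K) ≠ 0 := by exact_mod_cast hce
  have hd' : (a.d : K) ≠ 0 := by exact_mod_cast hd
  unfold El.v sgE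
  rw [pev_le2 _ h1, pev_le1 _ h2]
  simp only [pev]
  push_cast
  rw [← hb', ← hc']
  generalize ((a.P.getD 0 0 : ℤ) : K) = α
  generalize ((a.P.getD 1 0 : ℤ) : K) = β
  generalize ((a.Q.getD 0 0 : ℤ) : K) = γ
  field_simp
  ring

lemma srow_v [CharZero K] {C : Cv} (hC : C.Eq U V) (hcd : C.cd ≠ 0) {G : List El}
    (hG : ∀ a ∈ G, a.d ≠ 0) (hg : ∀ z ∈ G.map (El.v U V), z ≠ 0) (hb : b * bd = bn)
    (hc : c * ce = cn) (hbd : bd ≠ 0) (hce : ce ≠ 0) {a : El} (hd : a.d ≠ 0) {m : Mo}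
    (h : chkSRow C G bn bd cn ce a m = true) :
    a.v U (-V - (1 - (c : K)) * U + b) = ev (G.map (El.v U V)) m := by
  unfold chkSRow at h
  simp only [Bool.and_eq_true, decide_eq_true_eq] at h
  obtain ⟨⟨h1, h2⟩, h3⟩ := h
  have hcd' : (C.cd : K) ≠ 0 := by exact_mod_cast hcd
  have hG' : ∀ a ∈ G, (a.d : K) ≠ 0 := fun a ha => by exact_mod_cast hG a ha
  have hbd' : (bd : K) ≠ 0 := by exact_mod_cast hbd
  have hce' : (ce : K) ≠ 0 := by exact_mod_cast hce
  have hd' : (a.d : K) ≠ 0 := by exact_mod_cast hd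
  rw [sgE_v hb hc hbd hce h1 h2 hd]
  have d1 : (((sgE bn bd cn ce a).mul C (prE C G (m.2.map fun n => (-n).toNat))).d : K) ≠ 0 := by
    refine AX.El.mul_d hcd' ?_ (prE_d hcd' hG' _)
    unfold sgE
    push_cast
    exact mul_ne_zero hd' (mul_ne_zero hbd' hce')
  have h4 := sum3_v (x := U) (y := V) d1 (prE_d hcd' hG' _) (by simp) h3
  have e0 : (⟨[], [], 1⟩ : El).v U V = 0 := by
    unfold El.v
    simp [pev]
  have hup : List.Forall₂ (fun a m => (-a).toNat ≤ m) m.2 (m.2.map fun n => (-n).toNat) := by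
    rw [List.forall₂_map_right_iff]
    exact List.forall₂_same.mpr fun _ _ => le_rfl
  rw [AX.El.mul_v hC hcd', prE_v hC hcd', prE_v hC hcd', evN_up hg hup, e0] at h4
  have h5 := evN_ne hg (m.2.map fun n => (-n).toNat)
  push_cast at h4
  rw [sgb_cast] at h4
  unfold ev
  have h6 : ((sgE bn bd cn ce a).v U V - (bif m.1 then -1 else 1) *
      evl (G.map (El.v U V)) m.2) * evN (G.map (El.v U V))
        (m.2.map fun n => (-n).toNat) = 0 := by
    linear_combination h4
  rcases mul_eq_zero.mp h6 with h7 | h7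
  · linear_combination h7
  · exact absurd h7 h5

lemma srows_v [CharZero K] {C : Cv} (hC : C.Eq U V) (hcd : C.cd ≠ 0) {G : List El}
    (hG : ∀ a ∈ G, a.d ≠ 0) (hg : ∀ z ∈ G.map (El.v U V), z ≠ 0) (hb : b * bd = bn)
    (hc : c * ce = cn) (hbd : bd ≠ 0) (hce : ce ≠ 0) {A : List El} (hA : ∀ a ∈ A, a.d ≠ 0)
    {M : List Mo} (h : chkSRows C G bn bd cn ce A M = true) :
    A.map (El.v U (-V - (1 - (c : K)) * U + b)) = M.map (ev (G.map (El.v U V))) := by
  induction A generalizing M with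
  | nil =>
    cases M with
    | nil => rfl
    | cons m M => exact absurd h (by simp [chkSRows])
  | cons a A ih =>
    cases M with
    | nil => exact absurd h (by simp [chkSRows])
    | cons m M =>
      rw [chkSRows, Bool.and_eq_true] at h
      rw [List.map_cons, List.map_cons, ih (fun a ha => hA a (List.mem_cons_of_mem _ ha)) h.2,
        srow_v hC hcd hG hg hb hc hbd hce (hA a List.mem_cons_self) h.1]

end

/-- the data of the reflection -/
structure Sg (b c : ℚ) (gs : List El) (ks : List ℕ) (SM : List Mo) : Prop where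
  step : ∀ p : ℝ × ℝ, Good b c gs ks [] p →
    BV gs ks (Sn (b : ℝ) c p).1 (Sn (b : ℝ) c p).2 = SM.map (ev (BV gs ks p.1 p.2))

/-- the data of the reflection from a check -/
theorem Sg.of_chk {b c : ℚ} {gs : List El} {ks : List ℕ} {bn bd cn ce : ℤ} (hb : b * bd = bn)
    (hc : c * ce = cn) (hbd : bd ≠ 0) (hce : ce ≠ 0) (hd : chkDen gs = true) {SM : List Mo}
    (h : chkSRows (cv bn bd cn ce) (BE gs ks) bn bd cn ce (BE gs ks) SM = true) :
    Sg b c gs ks SM := by
  refine ⟨fun p hp => ?_⟩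
  exact srows_v (cv_eq hb hc hp.he) (mul_ne_zero hbd hce) (BE_d hd) hp.hB hb hc hbd hce
    (BE_d hd) h

/-! ### paths -/

/-- a path of good points, with any speed -/
structure Pt (b c : ℚ) (gs : List El) (ks : List ℕ) (P : ℝ → ℝ × ℝ) (κ : ℝ → ℝ) (s : ℝ) :
    Prop where
  ok : ∀ᶠ t in 𝓝 s, OKp (b : ℝ) c (κ t) (fun t => (P t).1) (fun t => (P t).2) t
  gd : ∀ᶠ t in 𝓝 s, Good b c gs ks [] (P t)

/-- the sum of the densities -/
noncomputable def FF (b c : ℚ) (gs : List El) (ks : List ℕ) (L : List LA.Tm) (p : ℝ × ℝ)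
    (κ : ℝ) : ℝ := (L.map fun t => t.tri (aL gs ks p) (dL b c gs κ p)).sum

section

variable {b c : ℚ} {gs : List El} {ks : List ℕ} {sp : List (List ℤ)} {AM SM : List Mo}

lemma ev_ne' {g : List ℝ} (hg : ∀ z ∈ g, z ≠ 0) (M : List Mo) : ∀ z ∈ M.map (ev g), z ≠ 0 := by
  intro z hz
  obtain ⟨m, -, rfl⟩ := List.mem_map.mp hz
  exact ev_ne hg m

lemma Good.next (T : Tr b c gs ks AM) (hx : (⟨[0, 1], [], 1⟩ : El) ∈ gs) {p : ℝ × ℝ}
    (h : Good b c gs ks [] p) : Good b c gs ks [] (Tn (b : ℝ) p) := by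
  have hB : ∀ z ∈ BV gs ks (Tn (b : ℝ) p).1 (Tn (b : ℝ) p).2, z ≠ 0 := by
    rw [T.step p h]
    exact ev_ne' h.hB AM
  refine ⟨next_eqn h.h0 h.he, ?_, hB, by simp⟩
  have h1 := hB ((⟨[0, 1], [], 1⟩ : El).v (Tn (b : ℝ) p).1 (Tn (b : ℝ) p).2)
    (List.mem_map.mpr ⟨_, List.mem_append_left _ hx, rfl⟩)
  unfold El.v at h1
  simpa [pev] using h1

lemma Good.sig (S : Sg b c gs ks SM) {p : ℝ × ℝ} (h : Good b c gs ks [] p) :
    Good b c gs ks [] (Sn (b : ℝ) c p) := by
  refine ⟨?_, h.h0, ?_, by simp⟩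
  · have := h.he
    unfold Sn
    simp only
    linear_combination this
  · rw [S.step p h]
    exact ev_ne' h.hB SM

variable {P : ℝ → ℝ × ℝ} {κ : ℝ → ℝ} {s : ℝ}

lemma Pt.next (T : Tr b c gs ks AM) (hx : (⟨[0, 1], [], 1⟩ : El) ∈ gs)
    (h : Pt b c gs ks P κ s) : Pt b c gs ks (fun t => Tn (b : ℝ) (P t)) κ s := by
  constructor
  · filter_upwards [h.ok, h.gd] with t h1 h2
    exact h1.next h2.h0
  · filter_upwards [h.gd] with t h2
    exact h2.next T hx

lemma Pt.sig (S : Sg b c gs ks SM) (h : Pt b c gs ks P κ s) :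
    Pt b c gs ks (fun t => Sn (b : ℝ) c (P t)) (fun t => -κ t) s := by
  constructor
  · filter_upwards [h.ok, h.gd] with t h1 h2
    refine ⟨(h2.sig S).he, ?_, ?_⟩
    · refine h1.dX.congr_deriv ?_
      unfold Sn
      simp only
      ring
    · refine (((h1.dY.neg).sub (h1.dX.const_mul (1 - (c : ℝ)))).add_const (b : ℝ)).congr_deriv ?_
      unfold Sn
      simp only
      ring
  · filter_upwards [h.gd] with t h2
    exact h2.sig S

lemma Pt.der (hd : chkDen gs = true) (h : Pt b c gs ks P κ s) (v : List ℤ) :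
    HasDerivAt (fun t => lin v (aL gs ks (P t))) (lin v (dL b c gs (κ s) (P s))) s :=
  der_logs hd h.ok.self_of_nhds h.gd.self_of_nhds.hB v

lemma Pt.relT (T : Tr b c gs ks AM) (hx : (⟨[0, 1], [], 1⟩ : El) ∈ gs)
    (h : Pt b c gs ks P κ s) :
    Rel (AM.map Prod.snd) (aL gs ks (P s)) (dL b c gs (κ s) (P s))
      (aL gs ks (Tn (b : ℝ) (P s))) (dL b c gs (κ s) (Tn (b : ℝ) (P s))) := by
  have hev : ∀ v, ∀ᶠ t in 𝓝 s, lin v (aL gs ks (Tn (b : ℝ) (P t))) =
      lin (vm v (AM.map Prod.snd)) (aL gs ks (P t)) := by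
    intro v
    filter_upwards [h.gd] with t ht
    rw [step_aL T ht, lin_vm]
  refine ⟨fun v => (hev v).self_of_nhds, fun v => ?_⟩
  have h1 := (h.next T hx).der T.den v
  have h2 := (h.der T.den (vm v (AM.map Prod.snd))).congr_of_eventuallyEq (hev v)
  exact h1.unique h2

lemma Pt.relS (hd : chkDen gs = true) (S : Sg b c gs ks SM) (h : Pt b c gs ks P κ s) :
    Rel (SM.map Prod.snd) (aL gs ks (P s)) (dL b c gs (κ s) (P s))
      (aL gs ks (Sn (b : ℝ) c (P s))) (dL b c gs (-κ s) (Sn (b : ℝ) c (P s))) := by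
  have hev : ∀ v, ∀ᶠ t in 𝓝 s, lin v (aL gs ks (Sn (b : ℝ) c (P t))) =
      lin (vm v (SM.map Prod.snd)) (aL gs ks (P t)) := by
    intro v
    filter_upwards [h.gd] with t ht
    rw [aL, S.step _ ht, log_map ht.hB, lin_vm]
    rfl
  refine ⟨fun v => (hev v).self_of_nhds, fun v => ?_⟩
  have h1 := (h.sig S).der hd v
  have h2 := (h.der hd (vm v (SM.map Prod.snd))).congr_of_eventuallyEq (hev v)
  exact h1.unique h2

/-- the path of the translates -/
lemma Pt.iter (T : Tr b c gs ks AM) (hx : (⟨[0, 1], [], 1⟩ : El) ∈ gs)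
    (h : Pt b c gs ks P κ s) (n : ℕ) : Pt b c gs ks (fun t => It (b : ℝ) n (P t)) κ s := by
  induction n with
  | zero => exact h
  | succ n ih =>
    have := ih.next T hx
    simp only [It_succ]
    exact this

/-- one translation -/
lemma Pt.FF_next (T : Tr b c gs ks AM) (hx : (⟨[0, 1], [], 1⟩ : El) ∈ gs)
    (h : Pt b c gs ks P κ s) (L : List LA.Tm) :
    FF b c gs ks L (Tn (b : ℝ) (P s)) (κ s) =
      FF b c gs ks (L.map (Tm.act (AM.map Prod.snd))) (P s) (κ s) := by
  unfold FF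
  rw [List.map_map]
  exact congrArg List.sum (List.map_congr_left fun t _ => (h.relT T hx).tri t)

/-- `n` translations -/
lemma Pt.FF_iter (T : Tr b c gs ks AM) (hx : (⟨[0, 1], [], 1⟩ : El) ∈ gs)
    (h : Pt b c gs ks P κ s) (n : ℕ) (L : List LA.Tm) :
    FF b c gs ks L (It (b : ℝ) n (P s)) (κ s) =
      FF b c gs ks ((List.map (Tm.act (AM.map Prod.snd)))^[n] L) (P s) (κ s) := by
  induction n generalizing L with
  | zero => rfl
  | succ n ih =>
    rw [It_succ, (h.iter T hx n).FF_next T hx L, ih, Function.iterate_succ_apply]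

lemma FF_tab {L L' : List LA.Tm} (e : sumTab2 gs.length L' = sumTab2 gs.length L) (p : ℝ × ℝ)
    (κ : ℝ) : FF b c gs ks L' p κ = FF b c gs ks L p κ := by
  have h := congrArg (fun M => ev3 M (aL gs ks p) (aL gs ks p) (dL b c gs κ p)) e
  simp only [ev3_sumTab2 gs.length _ (dL_length _ _ _ _ _)] at h
  unfold FF
  linarith

/-- invariance under multiples of `k` translations -/
lemma Pt.FF_mul (T : Tr b c gs ks AM) (hx : (⟨[0, 1], [], 1⟩ : El) ∈ gs)
    (h : Pt b c gs ks P κ s) {k : ℕ} {L : List LA.Tm}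
    (hT : sumTab2 gs.length ((List.map (Tm.act (AM.map Prod.snd)))^[k] L) =
      sumTab2 gs.length L) (n : ℕ) :
    FF b c gs ks L (It (b : ℝ) (k * n) (P s)) (κ s) = FF b c gs ks L (P s) (κ s) := by
  induction n with
  | zero => rfl
  | succ n ih =>
    have e : It (b : ℝ) (k * (n + 1)) (P s) = It (b : ℝ) k (It (b : ℝ) (k * n) (P s)) := by
      unfold It
      rw [mul_add, mul_one, add_comm, Function.iterate_add_apply]
    rw [e, (h.iter T hx (k * n)).FF_iter T hx k L, FF_tab hT, ih]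

lemma sum_neg_map {ι : Type*} (f : ι → ℝ) (L : List ι) :
    (L.map fun t => -f t).sum = -(L.map f).sum := by
  induction L with
  | nil => simp
  | cons a l ih => simp only [List.map_cons, List.sum_cons, ih]; ring

/-- invariance under the reflection -/
lemma Pt.FF_sig (hd : chkDen gs = true) (S : Sg b c gs ks SM) (h : Pt b c gs ks P κ s)
    {L : List LA.Tm} (hS : sumTab2 gs.length (L.map (Tm.act (SM.map Prod.snd))) =
      scl3 (-1) (sumTab2 gs.length L)) :
    FF b c gs ks L (Sn (b : ℝ) c (P s)) (κ s) = FF b c gs ks L (P s) (κ s) := by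
  have h1 : (L.map fun t => t.tri (aL gs ks (Sn (b : ℝ) c (P s)))
      (dL b c gs (-κ s) (Sn (b : ℝ) c (P s)))).sum =
      ((L.map (Tm.act (SM.map Prod.snd))).map fun t => t.tri (aL gs ks (P s))
        (dL b c gs (κ s) (P s))).sum := by
    rw [List.map_map]
    exact congrArg List.sum (List.map_congr_left fun t _ => (h.relS hd S).tri t)
  have h2 := congrArg (fun M => ev3 M (aL gs ks (P s)) (aL gs ks (P s)) (dL b c gs (κ s) (P s))) hS
  simp only [ev3_scl, ev3_sumTab2 gs.length _ (dL_length _ _ _ _ _)] at h2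
  have h3 : ∀ t : LA.Tm, t.tri (aL gs ks (Sn (b : ℝ) c (P s)))
      (dL b c gs (-κ s) (Sn (b : ℝ) c (P s))) =
      -t.tri (aL gs ks (Sn (b : ℝ) c (P s))) (dL b c gs (κ s) (Sn (b : ℝ) c (P s))) := by
    intro t
    unfold Tm.tri
    rw [dL_smul b c gs (-κ s), dL_smul b c gs (κ s)]
    simp only [lin_smul]
    ring
  have h4 : (L.map fun t => t.tri (aL gs ks (Sn (b : ℝ) c (P s)))
      (dL b c gs (-κ s) (Sn (b : ℝ) c (P s)))).sum =
      -(L.map fun t => t.tri (aL gs ks (Sn (b : ℝ) c (P s)))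
        (dL b c gs (κ s) (Sn (b : ℝ) c (P s)))).sum := by
    simp only [h3]
    rw [sum_neg_map]
  unfold FF
  push_cast at h2
  linarith

/-- a path of the engine is a path -/
lemma Pt.of_path {N : ℕ} (hN : 0 < N) {X Y : ℝ → ℝ}
    (h : Path (b : ℝ) c (NQ gs ks sp) N X Y κ s) : Pt b c gs ks (fun t => (X t, Y t)) κ s := by
  constructor
  · filter_upwards [h.ok] with t ht
    exact ht 0 hN
  · filter_upwards [good_of h] with t ht
    have := ht 0 hN
    exact ⟨this.he, this.h0, this.hB, by simp⟩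

/-- **from a half arc to the component**: every good point with `C` has a translate in `H`, or a
translate of its opposite point, or of the opposite point of a translate; the numbers of
translations are multiples of `k` -/
theorem pos_half (T : Tr b c gs ks AM) (S : Sg b c gs ks SM)
    (hx : (⟨[0, 1], [], 1⟩ : El) ∈ gs) {k : ℕ} {L : List LA.Tm}
    (hT : sumTab2 gs.length ((List.map (Tm.act (AM.map Prod.snd)))^[k] L) =
      sumTab2 gs.length L)
    (hS : sumTab2 gs.length (L.map (Tm.act (SM.map Prod.snd))) =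
      scl3 (-1) (sumTab2 gs.length L)) {H : ℝ × ℝ → Prop}
    (hH : ∀ (p : ℝ × ℝ) (κ : ℝ), 0 < κ → Good b c gs ks [] p → H p →
      0 < (L.map fun t => t.tri (aL gs ks p) (dL b c gs κ p)).sum)
    {N : ℕ} (hN : 0 < N) {X Y : ℝ → ℝ} (h : Path (b : ℝ) c (NQ gs ks sp) N X Y κ s)
    (hr : ∃ n, H (It (b : ℝ) (k * n) (X s, Y s)) ∨
      ∃ m, H (It (b : ℝ) (k * m) (Sn (b : ℝ) c (It (b : ℝ) (k * n) (X s, Y s))))) :
    0 < (L.map fun t => t.tri (aL gs ks (X s, Y s)) (dL b c gs (κ s) (X s, Y s))).sum := by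
  have hp := Pt.of_path hN h
  obtain ⟨n, hn⟩ := hr
  have hpn := hp.iter T hx (k * n)
  have e1 := hp.FF_mul T hx hT n
  show 0 < FF b c gs ks L (X s, Y s) (κ s)
  rw [← e1]
  rcases hn with hn | ⟨m, hn⟩
  · exact hH _ _ h.pos hpn.gd.self_of_nhds hn
  · have hps := hpn.sig S
    have hpm := hps.iter T hx (k * m)
    have e2 := hpn.FF_sig T.den S hS
    have e3 := hps.FF_mul T hx hT m
    rw [← e2]
    -- the speed has the other sign along the reflected path
    have e4 : ∀ (q : ℝ × ℝ), FF b c gs ks L q (-κ s) = -FF b c gs ks L q (κ s) := by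
      intro q
      unfold FF
      have h3 : ∀ t : LA.Tm, t.tri (aL gs ks q) (dL b c gs (-κ s) q) =
          -t.tri (aL gs ks q) (dL b c gs (κ s) q) := by
        intro t
        unfold Tm.tri
        rw [dL_smul b c gs (-κ s), dL_smul b c gs (κ s)]
        simp only [lin_smul]
        ring
      simp only [h3]
      rw [sum_neg_map]
    rw [e4, e4, neg_inj] at e3
    rw [← e3]
    exact hH _ _ h.pos hpm.gd.self_of_nhds hn

end

end Pool.Agent.K4N.PC
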