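import Pool.Agent.Lib_helper54.FAM.Pl10ap1
import Pool.Agent.Lib_helper54.FAM.Pl10ap2
import Pool.Agent.Lib_helper54.FAM.Pl10ap3

set_option autoImplicit false
set_option linter.unusedSectionVars false
set_option linter.unusedVariables false
set_option linter.unusedSimpArgs false

/-!
Local data at the places of The first special curve with a point of order ten.
-/

namespace Pool.Agent.FK4R

open Pool.Agent.K4R Pool.Agent.KC72
open scoped WithZero TensorProduct

section s10a

variable {F : Type*} [Field F] [CharZero F] {v : Valuation F ℤᵐ⁰} {x y : F}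

theorem places10a (hT : Tq v) (heq : y ^ 2 - 5 * x * y - 24 * y = x ^ 3 - 24 * x ^ 2)
    (hne : ∀ z ∈ g10a x y, z ≠ 0) : (∀ z ∈ g10a x y, v z = 1) ∨
      ∃ loc ∈ locs10a, ∃ t : F, t ≠ 0 ∧ v t ≠ 1 ∧ Loc v [2, 3] t (g10a x y) loc := by
  have hbq : v (24 : F) ≤ 1 := by
    have := hT.le 24
    norm_num at this ⊢
    exact this
  have hcq : v (6 : F) ≤ 1 := by
    have := hT.le 6
    norm_num at this ⊢
    exact this
  have hE : y ^ 2 + (1 - 6) * x * y - 24 * y = x ^ 3 - 24 * x ^ 2 := by
    linear_combination heq
  have nx0 : x ≠ 0 := hne _ (by simp [g10a])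
  have nx1 : x - 24 ≠ 0 := hne _ (by simp [g10a])
  have nx2 : x - 6 ≠ 0 := hne _ (by simp [g10a])
  have nx3 : x - 12 ≠ 0 := hne _ (by simp [g10a])
  have nx4 : x - 8 ≠ 0 := hne _ (by simp [g10a])
  have ny0 : y ≠ 0 := hne _ (by simp [g10a])
  have ny1 : y - 6 * x ≠ 0 := hne _ (by simp [g10a])
  have ny2 : y - 3 * x ≠ 0 := hne _ (by simp [g10a])
  have ny3 : y - 4 * x ≠ 0 := hne _ (by simp [g10a])
  have n1 : Nq v (1 : F) 1 := Nq.num _ (by norm_num)
  have n2 : Nq v (2 : F) 2 := Nq.num _ (by norm_num)
  have n3 : Nq v (3 : F) 3 := Nq.num _ (by norm_num)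
  have n4 : Nq v (4 : F) 4 := Nq.num _ (by norm_num)
  have n5 : Nq v (5 : F) 5 := Nq.num _ (by norm_num)
  have n6 : Nq v (6 : F) 6 := Nq.num _ (by norm_num)
  have n8 : Nq v (8 : F) 8 := Nq.num _ (by norm_num)
  have n12 : Nq v (12 : F) 12 := Nq.num _ (by norm_num)
  have n24 : Nq v (24 : F) 24 := Nq.num _ (by norm_num)
  have P1 := pl10a_P1 hT heq hne
  have M1 := pl10a_M1 hT heq hne
  have P2 := pl10a_P2 hT heq hne
  have M2 := pl10a_M2 hT heq hne
  have P3 := pl10a_P3 hT heq hne
  have M3 := pl10a_M3 hT heq hne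
  have P4 := pl10a_P4 hT heq hne
  have M4 := pl10a_M4 hT heq hne
  have P5 := pl10a_P5 hT heq hne
  by_cases hO : 1 < v x
  · right
    obtain ⟨h1, h2, h3, h4⟩ := at_O hE hbq hcq hO
    refine ⟨[(2, (false, [])), (2, (false, [])), (2, (false, [])), (2, (false, [])), (2, (false, [])), (3, (false, [])), (3, (false, [])), (3, (false, [])), (3, (false, [])), (0, (false, [1])), (0, (false, [0, 1]))], by decide, y / x, h2, h1, List.Forall₂.cons ?_ (List.Forall₂.cons ?_ (List.Forall₂.cons ?_ (List.Forall₂.cons ?_ (List.Forall₂.cons ?_ (List.Forall₂.cons ?_ (List.Forall₂.cons ?_ (List.Forall₂.cons ?_ (List.Forall₂.cons ?_ (List.Forall₂.cons ?_ (List.Forall₂.cons ?_ (List.Forall₂.nil)))))))))))⟩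
    · have h := h3 0 (by simpa using hT.le 0)
      simp only [sub_zero, zero_mul] at h
      exact h
    · exact (h3 24 (by simpa using hT.le 24))
    · exact (h3 6 (by simpa using hT.le 6))
    · exact (h3 12 (by simpa using hT.le 12))
    · exact (h3 8 (by simpa using hT.le 8))
    · have h := h4 0 (by simpa using hT.le 0)
      simp only [sub_zero, zero_mul] at h
      exact h
    · exact (h4 6 (by simpa using hT.le 6))
    · exact (h4 3 (by simpa using hT.le 3))
    · exact (h4 4 (by simpa using hT.le 4))
    · exact Lc_unit hT n2 (by norm_num) (by norm_num [ev, evl]) _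
    · exact Lc_unit hT n3 (by norm_num) (by norm_num [ev, evl]) _
  rw [not_lt] at hO
  have hy1 := vy_le hE hbq hcq hO
  by_cases h : v (x) < 1
  · right
    have hx : Nq v x 0 := by
      unfold Nq
      norm_num
      exact h
    have hd := two_pts hE hbq hcq hO (α := 0) (β := 0) (γ := 24)
      (by norm_num; exact h) (by simpa using hT.le 0) (by norm_num) (by norm_num)
    rcases hd with hd | hd
    · exact P1 hx (by unfold Nq; norm_num at hd ⊢; exact hd)
    · exact M1 hx (by unfold Nq; norm_num at hd ⊢; exact hd)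
  have hx0 : v (x) = 1 := one_of_not_lt (hO) h
  clear h
  by_cases h : v (x - 24) < 1
  · right
    have hx : Nq v x 24 := by
      unfold Nq
      norm_num
      exact h
    have hd := two_pts hE hbq hcq hO (α := 24) (β := 144) (γ := 0)
      (by norm_num; exact h) (by simpa using hT.le 24) (by norm_num) (by norm_num)
    rcases hd with hd | hd
    · exact P2 hx (by unfold Nq; norm_num at hd ⊢; exact hd)
    · exact M2 hx (by unfold Nq; norm_num at hd ⊢; exact hd)
  have hx1 : v (x - 24) = 1 := one_of_not_lt (Valuation.map_sub_le _ hO (by simpa using hT.le 24)) h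
  clear h
  by_cases h : v (x - 6) < 1
  · right
    have hx : Nq v x 6 := by
      unfold Nq
      norm_num
      exact h
    have hd := two_pts hE hbq hcq hO (α := 6) (β := 18) (γ := 36)
      (by norm_num; exact h) (by simpa using hT.le 6) (by norm_num) (by norm_num)
    rcases hd with hd | hd
    · exact P3 hx (by unfold Nq; norm_num at hd ⊢; exact hd)
    · exact M3 hx (by unfold Nq; norm_num at hd ⊢; exact hd)
  have hx2 : v (x - 6) = 1 := one_of_not_lt (Valuation.map_sub_le _ hO (by simpa using hT.le 6)) h
  clear h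
  by_cases h : v (x - 12) < 1
  · right
    have hx : Nq v x 12 := by
      unfold Nq
      norm_num
      exact h
    have hd := two_pts hE hbq hcq hO (α := 12) (β := 48) (γ := 36)
      (by norm_num; exact h) (by simpa using hT.le 12) (by norm_num) (by norm_num)
    rcases hd with hd | hd
    · exact P4 hx (by unfold Nq; norm_num at hd ⊢; exact hd)
    · exact M4 hx (by unfold Nq; norm_num at hd ⊢; exact hd)
  have hx3 : v (x - 12) = 1 := one_of_not_lt (Valuation.map_sub_le _ hO (by simpa using hT.le 12)) h
  clear h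
  by_cases h : v (x - 8) < 1
  · right
    have hx : Nq v x 8 := by
      unfold Nq
      norm_num
      exact h
    have hd := two_pts hE hbq hcq hO (α := 8) (β := 32) (γ := 32)
      (by norm_num; exact h) (by simpa using hT.le 8) (by norm_num) (by norm_num)
    rcases hd with hd | hd
    · exact P5 hx (by unfold Nq; norm_num at hd ⊢; exact hd)
    · exact P5 hx (by unfold Nq; norm_num at hd ⊢; exact hd)
  have hx4 : v (x - 8) = 1 := one_of_not_lt (Valuation.map_sub_le _ hO (by simpa using hT.le 8)) h
  clear h
  left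
  have hy_0 : v (y) = 1 := by
    refine one_of_mul (B := y - 5 * x - 24) (C := (x) * (x) * (x - 24)) hy1
      (Valuation.map_sub_le _ (Valuation.map_sub_le _ hy1 (by
      rw [map_mul]
      exact mul_le_one' (by simpa using hT.le 5) hO)) (by simpa using hT.le 24)) (by linear_combination heq) ?_
    simp only [map_mul, hx0, hx1, mul_one]
  have hy_1 : v (y - 6 * x) = 1 := by
    refine one_of_mul (B := y + x - 24) (C := (x) * (x - 24) * (x - 6)) (Valuation.map_sub_le _ hy1 (by
      rw [map_mul]
      exact mul_le_one' (by simpa using hT.le 6) hO))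
      (Valuation.map_sub_le _ (Valuation.map_add_le _ hy1 hO) (by simpa using hT.le 24)) (by linear_combination heq) ?_
    simp only [map_mul, hx0, hx1, hx2, mul_one]
  have hy_2 : v (y - 3 * x) = 1 := by
    refine one_of_mul (B := y - 2 * x - 24) (C := (x) * (x - 6) * (x - 12)) (Valuation.map_sub_le _ hy1 (by
      rw [map_mul]
      exact mul_le_one' (by simpa using hT.le 3) hO))
      (Valuation.map_sub_le _ (Valuation.map_sub_le _ hy1 (by
      rw [map_mul]
      exact mul_le_one' (by simpa using hT.le 2) hO)) (by simpa using hT.le 24)) (by linear_combination heq) ?_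
    simp only [map_mul, hx0, hx2, hx3, mul_one]
  have hy_3 : v (y - 4 * x) = 1 := by
    refine one_of_mul (B := y - x - 24) (C := (x) * (x - 12) * (x - 8)) (Valuation.map_sub_le _ hy1 (by
      rw [map_mul]
      exact mul_le_one' (by simpa using hT.le 4) hO))
      (Valuation.map_sub_le _ (Valuation.map_sub_le _ hy1 hO) (by simpa using hT.le 24)) (by linear_combination heq) ?_
    simp only [map_mul, hx0, hx3, hx4, mul_one]
  intro z hz
  simp only [g10a, List.mem_cons, List.not_mem_nil, or_false] at hz
  rcases hz with rfl | rfl | rfl | rfl | rfl | rfl | rfl | rfl | rfl | rfl | rfl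
  · exact hx0
  · exact hx1
  · exact hx2
  · exact hx3
  · exact hx4
  · exact hy_0
  · exact hy_1
  · exact hy_2
  · exact hy_3
  · simpa using hT 2 (by norm_num)
  · simpa using hT 3 (by norm_num)

end s10a

end Pool.Agent.FK4R
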