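import Pool.Agent.Lib_helper54.FAM.Pl10ab

set_option autoImplicit false
set_option linter.unusedSectionVars false
set_option linter.unusedVariables false
set_option linter.unusedSimpArgs false

/-!
Local data at the places of The first special curve with a point of order ten: the points, part 1.
-/

namespace Pool.Agent.FK4R

open Pool.Agent.K4R Pool.Agent.KC72
open scoped WithZero TensorProduct

section s10a

variable {F : Type*} [Field F] [CharZero F] {v : Valuation F ℤᵐ⁰} {x y : F}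

theorem pl10a_P1 (hT : Tq v) (heq : y ^ 2 - 5 * x * y - 24 * y = x ^ 3 - 24 * x ^ 2)
    (hne : ∀ z ∈ g10a x y, z ≠ 0) :
    Nq v x 0 → Nq v y 0 →
      ∃ loc ∈ locs10a, ∃ t : F, t ≠ 0 ∧ v t ≠ 1 ∧ Loc v [2, 3] t (g10a x y) loc := by
  have hbq : v (24 : F) ≤ 1 := by
    have := hT.le 24
    norm_num at this ⊢
    exact this
  have hcq : v (6 : F) ≤ 1 := by
    have := hT.le 6
    norm_num at this ⊢
    exact this
  have hE : y ^ 2 + (1 - 6) * x * y - 24 * y = x ^ 3 - 24 * x ^ 2 := by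
    linear_combination heq
  have nx0 : x ≠ 0 := hne _ (by simp [g10a])
  have nx1 : x - 24 ≠ 0 := hne _ (by simp [g10a])
  have nx2 : x - 6 ≠ 0 := hne _ (by simp [g10a])
  have nx3 : x - 12 ≠ 0 := hne _ (by simp [g10a])
  have nx4 : x - 8 ≠ 0 := hne _ (by simp [g10a])
  have ny0 : y ≠ 0 := hne _ (by simp [g10a])
  have ny1 : y - 6 * x ≠ 0 := hne _ (by simp [g10a])
  have ny2 : y - 3 * x ≠ 0 := hne _ (by simp [g10a])
  have ny3 : y - 4 * x ≠ 0 := hne _ (by simp [g10a])
  have n1 : Nq v (1 : F) 1 := Nq.num _ (by norm_num)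
  have n2 : Nq v (2 : F) 2 := Nq.num _ (by norm_num)
  have n3 : Nq v (3 : F) 3 := Nq.num _ (by norm_num)
  have n4 : Nq v (4 : F) 4 := Nq.num _ (by norm_num)
  have n5 : Nq v (5 : F) 5 := Nq.num _ (by norm_num)
  have n6 : Nq v (6 : F) 6 := Nq.num _ (by norm_num)
  have n8 : Nq v (8 : F) 8 := Nq.num _ (by norm_num)
  have n12 : Nq v (12 : F) 12 := Nq.num _ (by norm_num)
  have n24 : Nq v (24 : F) 24 := Nq.num _ (by norm_num)
  have P1 : Nq v x 0 → Nq v y 0 →
      ∃ loc ∈ locs10a, ∃ t : F, t ≠ 0 ∧ v t ≠ 1 ∧ Loc v [2, 3] t (g10a x y) loc := by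
    intro hx hy
    refine ⟨[(1, (false, [])), (0, (true, [3, 1])), (0, (true, [1, 1])), (0, (true, [2, 1])), (0, (true, [3])), (2, (false, [])), (1, (true, [1, 1])), (1, (true, [0, 1])), (1, (true, [2])), (0, (false, [1])), (0, (false, [0, 1]))], by decide, x, nx0, ?_, ?_⟩
    · have h := hx
      have h' : v (x) < 1 := by
        unfold Nq at h
        norm_num at h
        exact h
      exact h'.ne
    · refine List.Forall₂.cons ?_ (List.Forall₂.cons ?_ (List.Forall₂.cons ?_ (List.Forall₂.cons ?_ (List.Forall₂.cons ?_ (List.Forall₂.cons ?_ (List.Forall₂.cons ?_ (List.Forall₂.cons ?_ (List.Forall₂.cons ?_ (List.Forall₂.cons ?_ (List.Forall₂.cons ?_ (List.Forall₂.nil)))))))))))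
      · exact Lc_self _
      · exact Lc_unit hT (hx.sub n24) (by norm_num) (by norm_num [ev, evl]) _
      · exact Lc_unit hT (hx.sub n6) (by norm_num) (by norm_num [ev, evl]) _
      · exact Lc_unit hT (hx.sub n12) (by norm_num) (by norm_num [ev, evl]) _
      · exact Lc_unit hT (hx.sub n8) (by norm_num) (by norm_num [ev, evl]) _
      · exact Lc_quot (m := 2) hT (A := y) (B := y - 5 * x - 24) (C := (x - 24))
          (by linear_combination heq) ((hy.sub (n5.mul hT hx)).sub n24)
          (hx.sub n24) (by norm_num) (by norm_num) (by norm_num [ev, evl])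
      · exact Lc_quot (m := 1) hT (A := y - 6 * x) (B := y + x - 24) (C := ((x - 24) * (x - 6)))
          (by linear_combination heq) ((hy.add hx).sub n24)
          ((hx.sub n24).mul hT (hx.sub n6)) (by norm_num) (by norm_num) (by norm_num [ev, evl])
      · exact Lc_quot (m := 1) hT (A := y - 3 * x) (B := y - 2 * x - 24) (C := ((x - 6) * (x - 12)))
          (by linear_combination heq) ((hy.sub (n2.mul hT hx)).sub n24)
          ((hx.sub n6).mul hT (hx.sub n12)) (by norm_num) (by norm_num) (by norm_num [ev, evl])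
      · exact Lc_quot (m := 1) hT (A := y - 4 * x) (B := y - x - 24) (C := ((x - 12) * (x - 8)))
          (by linear_combination heq) ((hy.sub hx).sub n24)
          ((hx.sub n12).mul hT (hx.sub n8)) (by norm_num) (by norm_num) (by norm_num [ev, evl])
      · exact Lc_unit hT n2 (by norm_num) (by norm_num [ev, evl]) _
      · exact Lc_unit hT n3 (by norm_num) (by norm_num [ev, evl]) _
  exact P1

theorem pl10a_M1 (hT : Tq v) (heq : y ^ 2 - 5 * x * y - 24 * y = x ^ 3 - 24 * x ^ 2)
    (hne : ∀ z ∈ g10a x y, z ≠ 0) :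
    Nq v x 0 → Nq v y 24 →
      ∃ loc ∈ locs10a, ∃ t : F, t ≠ 0 ∧ v t ≠ 1 ∧ Loc v [2, 3] t (g10a x y) loc := by
  have hbq : v (24 : F) ≤ 1 := by
    have := hT.le 24
    norm_num at this ⊢
    exact this
  have hcq : v (6 : F) ≤ 1 := by
    have := hT.le 6
    norm_num at this ⊢
    exact this
  have hE : y ^ 2 + (1 - 6) * x * y - 24 * y = x ^ 3 - 24 * x ^ 2 := by
    linear_combination heq
  have nx0 : x ≠ 0 := hne _ (by simp [g10a])
  have nx1 : x - 24 ≠ 0 := hne _ (by simp [g10a])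
  have nx2 : x - 6 ≠ 0 := hne _ (by simp [g10a])
  have nx3 : x - 12 ≠ 0 := hne _ (by simp [g10a])
  have nx4 : x - 8 ≠ 0 := hne _ (by simp [g10a])
  have ny0 : y ≠ 0 := hne _ (by simp [g10a])
  have ny1 : y - 6 * x ≠ 0 := hne _ (by simp [g10a])
  have ny2 : y - 3 * x ≠ 0 := hne _ (by simp [g10a])
  have ny3 : y - 4 * x ≠ 0 := hne _ (by simp [g10a])
  have n1 : Nq v (1 : F) 1 := Nq.num _ (by norm_num)
  have n2 : Nq v (2 : F) 2 := Nq.num _ (by norm_num)
  have n3 : Nq v (3 : F) 3 := Nq.num _ (by norm_num)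
  have n4 : Nq v (4 : F) 4 := Nq.num _ (by norm_num)
  have n5 : Nq v (5 : F) 5 := Nq.num _ (by norm_num)
  have n6 : Nq v (6 : F) 6 := Nq.num _ (by norm_num)
  have n8 : Nq v (8 : F) 8 := Nq.num _ (by norm_num)
  have n12 : Nq v (12 : F) 12 := Nq.num _ (by norm_num)
  have n24 : Nq v (24 : F) 24 := Nq.num _ (by norm_num)
  have M1 : Nq v x 0 → Nq v y 24 →
      ∃ loc ∈ locs10a, ∃ t : F, t ≠ 0 ∧ v t ≠ 1 ∧ Loc v [2, 3] t (g10a x y) loc := by
    intro hx hy
    refine ⟨[(1, (false, [])), (0, (true, [3, 1])), (0, (true, [1, 1])), (0, (true, [2, 1])), (0, (true, [3])), (0, (false, [3, 1])), (0, (false, [3, 1])), (0, (false, [3, 1])), (0, (false, [3, 1])), (0, (false, [1])), (0, (false, [0, 1]))], by decide, x, nx0, ?_, ?_⟩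
    · have h := hx
      have h' : v (x) < 1 := by
        unfold Nq at h
        norm_num at h
        exact h
      exact h'.ne
    · refine List.Forall₂.cons ?_ (List.Forall₂.cons ?_ (List.Forall₂.cons ?_ (List.Forall₂.cons ?_ (List.Forall₂.cons ?_ (List.Forall₂.cons ?_ (List.Forall₂.cons ?_ (List.Forall₂.cons ?_ (List.Forall₂.cons ?_ (List.Forall₂.cons ?_ (List.Forall₂.cons ?_ (List.Forall₂.nil)))))))))))
      · exact Lc_self _
      · exact Lc_unit hT (hx.sub n24) (by norm_num) (by norm_num [ev, evl]) _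
      · exact Lc_unit hT (hx.sub n6) (by norm_num) (by norm_num [ev, evl]) _
      · exact Lc_unit hT (hx.sub n12) (by norm_num) (by norm_num [ev, evl]) _
      · exact Lc_unit hT (hx.sub n8) (by norm_num) (by norm_num [ev, evl]) _
      · exact Lc_unit hT hy (by norm_num) (by norm_num [ev, evl]) _
      · exact Lc_unit hT (hy.sub (n6.mul hT hx)) (by norm_num) (by norm_num [ev, evl]) _
      · exact Lc_unit hT (hy.sub (n3.mul hT hx)) (by norm_num) (by norm_num [ev, evl]) _
      · exact Lc_unit hT (hy.sub (n4.mul hT hx)) (by norm_num) (by norm_num [ev, evl]) _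
      · exact Lc_unit hT n2 (by norm_num) (by norm_num [ev, evl]) _
      · exact Lc_unit hT n3 (by norm_num) (by norm_num [ev, evl]) _
  exact M1

theorem pl10a_P2 (hT : Tq v) (heq : y ^ 2 - 5 * x * y - 24 * y = x ^ 3 - 24 * x ^ 2)
    (hne : ∀ z ∈ g10a x y, z ≠ 0) :
    Nq v x 24 → Nq v y 144 →
      ∃ loc ∈ locs10a, ∃ t : F, t ≠ 0 ∧ v t ≠ 1 ∧ Loc v [2, 3] t (g10a x y) loc := by
  have hbq : v (24 : F) ≤ 1 := by
    have := hT.le 24
    norm_num at this ⊢
    exact this
  have hcq : v (6 : F) ≤ 1 := by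
    have := hT.le 6
    norm_num at this ⊢
    exact this
  have hE : y ^ 2 + (1 - 6) * x * y - 24 * y = x ^ 3 - 24 * x ^ 2 := by
    linear_combination heq
  have nx0 : x ≠ 0 := hne _ (by simp [g10a])
  have nx1 : x - 24 ≠ 0 := hne _ (by simp [g10a])
  have nx2 : x - 6 ≠ 0 := hne _ (by simp [g10a])
  have nx3 : x - 12 ≠ 0 := hne _ (by simp [g10a])
  have nx4 : x - 8 ≠ 0 := hne _ (by simp [g10a])
  have ny0 : y ≠ 0 := hne _ (by simp [g10a])
  have ny1 : y - 6 * x ≠ 0 := hne _ (by simp [g10a])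
  have ny2 : y - 3 * x ≠ 0 := hne _ (by simp [g10a])
  have ny3 : y - 4 * x ≠ 0 := hne _ (by simp [g10a])
  have n1 : Nq v (1 : F) 1 := Nq.num _ (by norm_num)
  have n2 : Nq v (2 : F) 2 := Nq.num _ (by norm_num)
  have n3 : Nq v (3 : F) 3 := Nq.num _ (by norm_num)
  have n4 : Nq v (4 : F) 4 := Nq.num _ (by norm_num)
  have n5 : Nq v (5 : F) 5 := Nq.num _ (by norm_num)
  have n6 : Nq v (6 : F) 6 := Nq.num _ (by norm_num)
  have n8 : Nq v (8 : F) 8 := Nq.num _ (by norm_num)
  have n12 : Nq v (12 : F) 12 := Nq.num _ (by norm_num)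
  have n24 : Nq v (24 : F) 24 := Nq.num _ (by norm_num)
  have P2 : Nq v x 24 → Nq v y 144 →
      ∃ loc ∈ locs10a, ∃ t : F, t ≠ 0 ∧ v t ≠ 1 ∧ Loc v [2, 3] t (g10a x y) loc := by
    intro hx hy
    refine ⟨[(0, (false, [3, 1])), (1, (false, [])), (0, (false, [1, 2])), (0, (false, [2, 1])), (0, (false, [4])), (0, (false, [4, 2])), (1, (false, [0, 1])), (0, (false, [3, 2])), (0, (false, [4, 1])), (0, (false, [1])), (0, (false, [0, 1]))], by decide, x - 24, nx1, ?_, ?_⟩
    · have h := (hx.sub n24)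
      have h' : v (x - 24) < 1 := by
        unfold Nq at h
        norm_num at h
        exact h
      exact h'.ne
    · refine List.Forall₂.cons ?_ (List.Forall₂.cons ?_ (List.Forall₂.cons ?_ (List.Forall₂.cons ?_ (List.Forall₂.cons ?_ (List.Forall₂.cons ?_ (List.Forall₂.cons ?_ (List.Forall₂.cons ?_ (List.Forall₂.cons ?_ (List.Forall₂.cons ?_ (List.Forall₂.cons ?_ (List.Forall₂.nil)))))))))))
      · exact Lc_unit hT hx (by norm_num) (by norm_num [ev, evl]) _
      · exact Lc_self _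
      · exact Lc_unit hT (hx.sub n6) (by norm_num) (by norm_num [ev, evl]) _
      · exact Lc_unit hT (hx.sub n12) (by norm_num) (by norm_num [ev, evl]) _
      · exact Lc_unit hT (hx.sub n8) (by norm_num) (by norm_num [ev, evl]) _
      · exact Lc_unit hT hy (by norm_num) (by norm_num [ev, evl]) _
      · exact Lc_quot (m := 1) hT (A := y - 6 * x) (B := y + x - 24) (C := ((x) * (x - 6)))
          (by linear_combination heq) ((hy.add hx).sub n24)
          (hx.mul hT (hx.sub n6)) (by norm_num) (by norm_num) (by norm_num [ev, evl])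
      · exact Lc_unit hT (hy.sub (n3.mul hT hx)) (by norm_num) (by norm_num [ev, evl]) _
      · exact Lc_unit hT (hy.sub (n4.mul hT hx)) (by norm_num) (by norm_num [ev, evl]) _
      · exact Lc_unit hT n2 (by norm_num) (by norm_num [ev, evl]) _
      · exact Lc_unit hT n3 (by norm_num) (by norm_num [ev, evl]) _
  exact P2

end s10a

end Pool.Agent.FK4R
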