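import Pool.Agent.Lib_helper54.FAM.Pl12ab

set_option autoImplicit false
set_option linter.unusedSectionVars false
set_option linter.unusedVariables false
set_option linter.unusedSimpArgs false

/-!
Local data at the places of the special curve with a point of order twelve: the points, part 3.
-/

namespace Pool.Agent.FK4R

open Pool.Agent.K4R Pool.Agent.KC72
open scoped WithZero TensorProduct

section s12a

variable {F : Type*} [Field F] [CharZero F] {v : Valuation F ℤᵐ⁰} {x y : F}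

theorem pl12a_M4 (hT : Tq v) (heq : y ^ 2 - x * y - (10 / 3) * y = x ^ 3 - (10 / 3) * x ^ 2)
    (hne : ∀ z ∈ g12a x y, z ≠ 0) :
    Nq v x (10 / 9) → Nq v y (20 / 27) →
      ∃ loc ∈ locs12a, ∃ t : F, t ≠ 0 ∧ v t ≠ 1 ∧ Loc v [2, 3, 5] t (g12a x y) loc := by
  have hbq : v ((10 / 3) : F) ≤ 1 := by
    have := hT.le (10 / 3)
    norm_num at this ⊢
    exact this
  have hcq : v (2 : F) ≤ 1 := by
    have := hT.le 2
    norm_num at this ⊢
    exact this
  have hE : y ^ 2 + (1 - 2) * x * y - (10 / 3) * y = x ^ 3 - (10 / 3) * x ^ 2 := by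
    linear_combination heq
  have nx0 : x ≠ 0 := hne _ (by simp [g12a])
  have nx1 : x - (10 / 3) ≠ 0 := hne _ (by simp [g12a])
  have nx2 : x - 2 ≠ 0 := hne _ (by simp [g12a])
  have nx3 : x - (10 / 9) ≠ 0 := hne _ (by simp [g12a])
  have nx4 : x - 10 ≠ 0 := hne _ (by simp [g12a])
  have nx5 : x + (2 / 3) ≠ 0 := hne _ (by simp [g12a])
  have ny0 : y ≠ 0 := hne _ (by simp [g12a])
  have ny1 : y - 2 * x ≠ 0 := hne _ (by simp [g12a])
  have ny2 : y - (2 / 3) * x ≠ 0 := hne _ (by simp [g12a])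
  have ny3 : y - (10 / 3) * x ≠ 0 := hne _ (by simp [g12a])
  have ny4 : y + 2 * x ≠ 0 := hne _ (by simp [g12a])
  have n1d3 : Nq v ((1 / 3) : F) (1 / 3) := Nq.num _ (by norm_num)
  have n2d3 : Nq v ((2 / 3) : F) (2 / 3) := Nq.num _ (by norm_num)
  have n1 : Nq v (1 : F) 1 := Nq.num _ (by norm_num)
  have n10d9 : Nq v ((10 / 9) : F) (10 / 9) := Nq.num _ (by norm_num)
  have n2 : Nq v (2 : F) 2 := Nq.num _ (by norm_num)
  have n7d3 : Nq v ((7 / 3) : F) (7 / 3) := Nq.num _ (by norm_num)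
  have n3 : Nq v (3 : F) 3 := Nq.num _ (by norm_num)
  have n10d3 : Nq v ((10 / 3) : F) (10 / 3) := Nq.num _ (by norm_num)
  have n5 : Nq v (5 : F) 5 := Nq.num _ (by norm_num)
  have n10 : Nq v (10 : F) 10 := Nq.num _ (by norm_num)
  have M4 : Nq v x (10 / 9) → Nq v y (20 / 27) →
      ∃ loc ∈ locs12a, ∃ t : F, t ≠ 0 ∧ v t ≠ 1 ∧ Loc v [2, 3, 5] t (g12a x y) loc := by
    intro hx hy
    refine ⟨[(0, (false, [1, -2, 1])), (0, (true, [2, -2, 1])), (0, (true, [3, -2])), (1, (false, [])), (0, (true, [4, -2, 1])), (0, (false, [4, -2])), (0, (false, [2, -3, 1])), (0, (true, [3, -3, 1])), (1, (false, [0, -1])), (0, (true, [4, -3, 1])), (0, (false, [4, -3, 1])), (0, (false, [1])), (0, (false, [0, 1])), (0, (false, [0, 0, 1]))], by decide, x - (10 / 9), nx3, ?_, ?_⟩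
    · have h := (hx.sub n10d9)
      have h' : v (x - (10 / 9)) < 1 := by
        unfold Nq at h
        norm_num at h
        exact h
      exact h'.ne
    · refine List.Forall₂.cons ?_ (List.Forall₂.cons ?_ (List.Forall₂.cons ?_ (List.Forall₂.cons ?_ (List.Forall₂.cons ?_ (List.Forall₂.cons ?_ (List.Forall₂.cons ?_ (List.Forall₂.cons ?_ (List.Forall₂.cons ?_ (List.Forall₂.cons ?_ (List.Forall₂.cons ?_ (List.Forall₂.cons ?_ (List.Forall₂.cons ?_ (List.Forall₂.cons ?_ (List.Forall₂.nil))))))))))))))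
      · exact Lc_unit5 hT hx (by norm_num) (by norm_num [ev, evl]) _
      · exact Lc_unit5 hT (hx.sub n10d3) (by norm_num) (by norm_num [ev, evl]) _
      · exact Lc_unit5 hT (hx.sub n2) (by norm_num) (by norm_num [ev, evl]) _
      · exact Lc_self5 _
      · exact Lc_unit5 hT (hx.sub n10) (by norm_num) (by norm_num [ev, evl]) _
      · exact Lc_unit5 hT (hx.add n2d3) (by norm_num) (by norm_num [ev, evl]) _
      · exact Lc_unit5 hT hy (by norm_num) (by norm_num [ev, evl]) _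
      · exact Lc_unit5 hT (hy.sub (n2.mul hT hx)) (by norm_num) (by norm_num [ev, evl]) _
      · exact Lc_quot5 (m := 1) hT (A := y - (2 / 3) * x) (B := y - (1 / 3) * x - (10 / 3)) (C := ((x) * (x - 2)))
          (by linear_combination heq) ((hy.sub (n1d3.mul hT hx)).sub n10d3)
          (hx.mul hT (hx.sub n2)) (by norm_num) (by norm_num) (by norm_num [ev, evl])
      · exact Lc_unit5 hT (hy.sub (n10d3.mul hT hx)) (by norm_num) (by norm_num [ev, evl]) _
      · exact Lc_unit5 hT (hy.add (n2.mul hT hx)) (by norm_num) (by norm_num [ev, evl]) _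
      · exact Lc_unit5 hT n2 (by norm_num) (by norm_num [ev, evl]) _
      · exact Lc_unit5 hT n3 (by norm_num) (by norm_num [ev, evl]) _
      · exact Lc_unit5 hT n5 (by norm_num) (by norm_num [ev, evl]) _
  exact M4

theorem pl12a_P5 (hT : Tq v) (heq : y ^ 2 - x * y - (10 / 3) * y = x ^ 3 - (10 / 3) * x ^ 2)
    (hne : ∀ z ∈ g12a x y, z ≠ 0) :
    Nq v x 10 → Nq v y (-20) →
      ∃ loc ∈ locs12a, ∃ t : F, t ≠ 0 ∧ v t ≠ 1 ∧ Loc v [2, 3, 5] t (g12a x y) loc := by
  have hbq : v ((10 / 3) : F) ≤ 1 := by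
    have := hT.le (10 / 3)
    norm_num at this ⊢
    exact this
  have hcq : v (2 : F) ≤ 1 := by
    have := hT.le 2
    norm_num at this ⊢
    exact this
  have hE : y ^ 2 + (1 - 2) * x * y - (10 / 3) * y = x ^ 3 - (10 / 3) * x ^ 2 := by
    linear_combination heq
  have nx0 : x ≠ 0 := hne _ (by simp [g12a])
  have nx1 : x - (10 / 3) ≠ 0 := hne _ (by simp [g12a])
  have nx2 : x - 2 ≠ 0 := hne _ (by simp [g12a])
  have nx3 : x - (10 / 9) ≠ 0 := hne _ (by simp [g12a])
  have nx4 : x - 10 ≠ 0 := hne _ (by simp [g12a])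
  have nx5 : x + (2 / 3) ≠ 0 := hne _ (by simp [g12a])
  have ny0 : y ≠ 0 := hne _ (by simp [g12a])
  have ny1 : y - 2 * x ≠ 0 := hne _ (by simp [g12a])
  have ny2 : y - (2 / 3) * x ≠ 0 := hne _ (by simp [g12a])
  have ny3 : y - (10 / 3) * x ≠ 0 := hne _ (by simp [g12a])
  have ny4 : y + 2 * x ≠ 0 := hne _ (by simp [g12a])
  have n1d3 : Nq v ((1 / 3) : F) (1 / 3) := Nq.num _ (by norm_num)
  have n2d3 : Nq v ((2 / 3) : F) (2 / 3) := Nq.num _ (by norm_num)
  have n1 : Nq v (1 : F) 1 := Nq.num _ (by norm_num)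
  have n10d9 : Nq v ((10 / 9) : F) (10 / 9) := Nq.num _ (by norm_num)
  have n2 : Nq v (2 : F) 2 := Nq.num _ (by norm_num)
  have n7d3 : Nq v ((7 / 3) : F) (7 / 3) := Nq.num _ (by norm_num)
  have n3 : Nq v (3 : F) 3 := Nq.num _ (by norm_num)
  have n10d3 : Nq v ((10 / 3) : F) (10 / 3) := Nq.num _ (by norm_num)
  have n5 : Nq v (5 : F) 5 := Nq.num _ (by norm_num)
  have n10 : Nq v (10 : F) 10 := Nq.num _ (by norm_num)
  have P5 : Nq v x 10 → Nq v y (-20) →
      ∃ loc ∈ locs12a, ∃ t : F, t ≠ 0 ∧ v t ≠ 1 ∧ Loc v [2, 3, 5] t (g12a x y) loc := by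
    intro hx hy
    refine ⟨[(0, (false, [1, 0, 1])), (0, (false, [2, -1, 1])), (0, (false, [3])), (0, (false, [4, -2, 1])), (1, (false, [])), (0, (false, [5, -1])), (0, (true, [2, 0, 1])), (0, (true, [3, 0, 1])), (0, (true, [4, -1, 1])), (0, (true, [5, -1, 1])), (1, (true, [1])), (0, (false, [1])), (0, (false, [0, 1])), (0, (false, [0, 0, 1]))], by decide, x - 10, nx4, ?_, ?_⟩
    · have h := (hx.sub n10)
      have h' : v (x - 10) < 1 := by
        unfold Nq at h
        norm_num at h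
        exact h
      exact h'.ne
    · refine List.Forall₂.cons ?_ (List.Forall₂.cons ?_ (List.Forall₂.cons ?_ (List.Forall₂.cons ?_ (List.Forall₂.cons ?_ (List.Forall₂.cons ?_ (List.Forall₂.cons ?_ (List.Forall₂.cons ?_ (List.Forall₂.cons ?_ (List.Forall₂.cons ?_ (List.Forall₂.cons ?_ (List.Forall₂.cons ?_ (List.Forall₂.cons ?_ (List.Forall₂.cons ?_ (List.Forall₂.nil))))))))))))))
      · exact Lc_unit5 hT hx (by norm_num) (by norm_num [ev, evl]) _
      · exact Lc_unit5 hT (hx.sub n10d3) (by norm_num) (by norm_num [ev, evl]) _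
      · exact Lc_unit5 hT (hx.sub n2) (by norm_num) (by norm_num [ev, evl]) _
      · exact Lc_unit5 hT (hx.sub n10d9) (by norm_num) (by norm_num [ev, evl]) _
      · exact Lc_self5 _
      · exact Lc_unit5 hT (hx.add n2d3) (by norm_num) (by norm_num [ev, evl]) _
      · exact Lc_unit5 hT hy (by norm_num) (by norm_num [ev, evl]) _
      · exact Lc_unit5 hT (hy.sub (n2.mul hT hx)) (by norm_num) (by norm_num [ev, evl]) _
      · exact Lc_unit5 hT (hy.sub (n2d3.mul hT hx)) (by norm_num) (by norm_num [ev, evl]) _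
      · exact Lc_unit5 hT (hy.sub (n10d3.mul hT hx)) (by norm_num) (by norm_num [ev, evl]) _
      · exact Lc_quot5 (m := 1) hT (A := y + 2 * x) (B := y - 3 * x - (10 / 3)) (C := ((x) * (x + (2 / 3))))
          (by linear_combination heq) ((hy.sub (n3.mul hT hx)).sub n10d3)
          (hx.mul hT (hx.add n2d3)) (by norm_num) (by norm_num) (by norm_num [ev, evl])
      · exact Lc_unit5 hT n2 (by norm_num) (by norm_num [ev, evl]) _
      · exact Lc_unit5 hT n3 (by norm_num) (by norm_num [ev, evl]) _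
      · exact Lc_unit5 hT n5 (by norm_num) (by norm_num [ev, evl]) _
  exact P5

theorem pl12a_M5 (hT : Tq v) (heq : y ^ 2 - x * y - (10 / 3) * y = x ^ 3 - (10 / 3) * x ^ 2)
    (hne : ∀ z ∈ g12a x y, z ≠ 0) :
    Nq v x 10 → Nq v y (100 / 3) →
      ∃ loc ∈ locs12a, ∃ t : F, t ≠ 0 ∧ v t ≠ 1 ∧ Loc v [2, 3, 5] t (g12a x y) loc := by
  have hbq : v ((10 / 3) : F) ≤ 1 := by
    have := hT.le (10 / 3)
    norm_num at this ⊢
    exact this
  have hcq : v (2 : F) ≤ 1 := by
    have := hT.le 2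
    norm_num at this ⊢
    exact this
  have hE : y ^ 2 + (1 - 2) * x * y - (10 / 3) * y = x ^ 3 - (10 / 3) * x ^ 2 := by
    linear_combination heq
  have nx0 : x ≠ 0 := hne _ (by simp [g12a])
  have nx1 : x - (10 / 3) ≠ 0 := hne _ (by simp [g12a])
  have nx2 : x - 2 ≠ 0 := hne _ (by simp [g12a])
  have nx3 : x - (10 / 9) ≠ 0 := hne _ (by simp [g12a])
  have nx4 : x - 10 ≠ 0 := hne _ (by simp [g12a])
  have nx5 : x + (2 / 3) ≠ 0 := hne _ (by simp [g12a])
  have ny0 : y ≠ 0 := hne _ (by simp [g12a])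
  have ny1 : y - 2 * x ≠ 0 := hne _ (by simp [g12a])
  have ny2 : y - (2 / 3) * x ≠ 0 := hne _ (by simp [g12a])
  have ny3 : y - (10 / 3) * x ≠ 0 := hne _ (by simp [g12a])
  have ny4 : y + 2 * x ≠ 0 := hne _ (by simp [g12a])
  have n1d3 : Nq v ((1 / 3) : F) (1 / 3) := Nq.num _ (by norm_num)
  have n2d3 : Nq v ((2 / 3) : F) (2 / 3) := Nq.num _ (by norm_num)
  have n1 : Nq v (1 : F) 1 := Nq.num _ (by norm_num)
  have n10d9 : Nq v ((10 / 9) : F) (10 / 9) := Nq.num _ (by norm_num)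
  have n2 : Nq v (2 : F) 2 := Nq.num _ (by norm_num)
  have n7d3 : Nq v ((7 / 3) : F) (7 / 3) := Nq.num _ (by norm_num)
  have n3 : Nq v (3 : F) 3 := Nq.num _ (by norm_num)
  have n10d3 : Nq v ((10 / 3) : F) (10 / 3) := Nq.num _ (by norm_num)
  have n5 : Nq v (5 : F) 5 := Nq.num _ (by norm_num)
  have n10 : Nq v (10 : F) 10 := Nq.num _ (by norm_num)
  have M5 : Nq v x 10 → Nq v y (100 / 3) →
      ∃ loc ∈ locs12a, ∃ t : F, t ≠ 0 ∧ v t ≠ 1 ∧ Loc v [2, 3, 5] t (g12a x y) loc := by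
    intro hx hy
    refine ⟨[(0, (false, [1, 0, 1])), (0, (false, [2, -1, 1])), (0, (false, [3])), (0, (false, [4, -2, 1])), (1, (false, [])), (0, (false, [5, -1])), (0, (false, [2, -1, 2])), (0, (false, [3, -1, 1])), (0, (false, [4, -1, 1])), (1, (false, [0, -1, 1])), (0, (false, [5, -1, 1])), (0, (false, [1])), (0, (false, [0, 1])), (0, (false, [0, 0, 1]))], by decide, x - 10, nx4, ?_, ?_⟩
    · have h := (hx.sub n10)
      have h' : v (x - 10) < 1 := by
        unfold Nq at h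
        norm_num at h
        exact h
      exact h'.ne
    · refine List.Forall₂.cons ?_ (List.Forall₂.cons ?_ (List.Forall₂.cons ?_ (List.Forall₂.cons ?_ (List.Forall₂.cons ?_ (List.Forall₂.cons ?_ (List.Forall₂.cons ?_ (List.Forall₂.cons ?_ (List.Forall₂.cons ?_ (List.Forall₂.cons ?_ (List.Forall₂.cons ?_ (List.Forall₂.cons ?_ (List.Forall₂.cons ?_ (List.Forall₂.cons ?_ (List.Forall₂.nil))))))))))))))
      · exact Lc_unit5 hT hx (by norm_num) (by norm_num [ev, evl]) _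
      · exact Lc_unit5 hT (hx.sub n10d3) (by norm_num) (by norm_num [ev, evl]) _
      · exact Lc_unit5 hT (hx.sub n2) (by norm_num) (by norm_num [ev, evl]) _
      · exact Lc_unit5 hT (hx.sub n10d9) (by norm_num) (by norm_num [ev, evl]) _
      · exact Lc_self5 _
      · exact Lc_unit5 hT (hx.add n2d3) (by norm_num) (by norm_num [ev, evl]) _
      · exact Lc_unit5 hT hy (by norm_num) (by norm_num [ev, evl]) _
      · exact Lc_unit5 hT (hy.sub (n2.mul hT hx)) (by norm_num) (by norm_num [ev, evl]) _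
      · exact Lc_unit5 hT (hy.sub (n2d3.mul hT hx)) (by norm_num) (by norm_num [ev, evl]) _
      · exact Lc_quot5 (m := 1) hT (A := y - (10 / 3) * x) (B := y + (7 / 3) * x - (10 / 3)) (C := ((x) * (x - (10 / 9))))
          (by linear_combination heq) ((hy.add (n7d3.mul hT hx)).sub n10d3)
          (hx.mul hT (hx.sub n10d9)) (by norm_num) (by norm_num) (by norm_num [ev, evl])
      · exact Lc_unit5 hT (hy.add (n2.mul hT hx)) (by norm_num) (by norm_num [ev, evl]) _
      · exact Lc_unit5 hT n2 (by norm_num) (by norm_num [ev, evl]) _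
      · exact Lc_unit5 hT n3 (by norm_num) (by norm_num [ev, evl]) _
      · exact Lc_unit5 hT n5 (by norm_num) (by norm_num [ev, evl]) _
  exact M5

theorem pl12a_P6 (hT : Tq v) (heq : y ^ 2 - x * y - (10 / 3) * y = x ^ 3 - (10 / 3) * x ^ 2)
    (hne : ∀ z ∈ g12a x y, z ≠ 0) :
    Nq v x (-2 / 3) → Nq v y (4 / 3) →
      ∃ loc ∈ locs12a, ∃ t : F, t ≠ 0 ∧ v t ≠ 1 ∧ Loc v [2, 3, 5] t (g12a x y) loc := by
  have hbq : v ((10 / 3) : F) ≤ 1 := by
    have := hT.le (10 / 3)
    norm_num at this ⊢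
    exact this
  have hcq : v (2 : F) ≤ 1 := by
    have := hT.le 2
    norm_num at this ⊢
    exact this
  have hE : y ^ 2 + (1 - 2) * x * y - (10 / 3) * y = x ^ 3 - (10 / 3) * x ^ 2 := by
    linear_combination heq
  have nx0 : x ≠ 0 := hne _ (by simp [g12a])
  have nx1 : x - (10 / 3) ≠ 0 := hne _ (by simp [g12a])
  have nx2 : x - 2 ≠ 0 := hne _ (by simp [g12a])
  have nx3 : x - (10 / 9) ≠ 0 := hne _ (by simp [g12a])
  have nx4 : x - 10 ≠ 0 := hne _ (by simp [g12a])
  have nx5 : x + (2 / 3) ≠ 0 := hne _ (by simp [g12a])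
  have ny0 : y ≠ 0 := hne _ (by simp [g12a])
  have ny1 : y - 2 * x ≠ 0 := hne _ (by simp [g12a])
  have ny2 : y - (2 / 3) * x ≠ 0 := hne _ (by simp [g12a])
  have ny3 : y - (10 / 3) * x ≠ 0 := hne _ (by simp [g12a])
  have ny4 : y + 2 * x ≠ 0 := hne _ (by simp [g12a])
  have n1d3 : Nq v ((1 / 3) : F) (1 / 3) := Nq.num _ (by norm_num)
  have n2d3 : Nq v ((2 / 3) : F) (2 / 3) := Nq.num _ (by norm_num)
  have n1 : Nq v (1 : F) 1 := Nq.num _ (by norm_num)
  have n10d9 : Nq v ((10 / 9) : F) (10 / 9) := Nq.num _ (by norm_num)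
  have n2 : Nq v (2 : F) 2 := Nq.num _ (by norm_num)
  have n7d3 : Nq v ((7 / 3) : F) (7 / 3) := Nq.num _ (by norm_num)
  have n3 : Nq v (3 : F) 3 := Nq.num _ (by norm_num)
  have n10d3 : Nq v ((10 / 3) : F) (10 / 3) := Nq.num _ (by norm_num)
  have n5 : Nq v (5 : F) 5 := Nq.num _ (by norm_num)
  have n10 : Nq v (10 : F) 10 := Nq.num _ (by norm_num)
  have P6 : Nq v x (-2 / 3) → Nq v y (4 / 3) →
      ∃ loc ∈ locs12a, ∃ t : F, t ≠ 0 ∧ v t ≠ 1 ∧ Loc v [2, 3, 5] t (g12a x y) loc := by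
    intro hx hy
    refine ⟨[(0, (true, [1, -1])), (0, (true, [2])), (0, (true, [3, -1])), (0, (true, [4, -2])), (0, (true, [5, -1])), (2, (false, [-6, 2])), (0, (false, [2, -1])), (0, (false, [3, -1])), (0, (false, [4, -2])), (0, (false, [5, -2])), (1, (false, [])), (0, (false, [1])), (0, (false, [0, 1])), (0, (false, [0, 0, 1]))], by decide, y + 2 * x, ny4, ?_, ?_⟩
    · have h := (hy.add (n2.mul hT hx))
      have h' : v (y + 2 * x) < 1 := by
        unfold Nq at h
        norm_num at h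
        exact h
      exact h'.ne
    · refine List.Forall₂.cons ?_ (List.Forall₂.cons ?_ (List.Forall₂.cons ?_ (List.Forall₂.cons ?_ (List.Forall₂.cons ?_ (List.Forall₂.cons ?_ (List.Forall₂.cons ?_ (List.Forall₂.cons ?_ (List.Forall₂.cons ?_ (List.Forall₂.cons ?_ (List.Forall₂.cons ?_ (List.Forall₂.cons ?_ (List.Forall₂.cons ?_ (List.Forall₂.cons ?_ (List.Forall₂.nil))))))))))))))
      · exact Lc_unit5 hT hx (by norm_num) (by norm_num [ev, evl]) _
      · exact Lc_unit5 hT (hx.sub n10d3) (by norm_num) (by norm_num [ev, evl]) _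
      · exact Lc_unit5 hT (hx.sub n2) (by norm_num) (by norm_num [ev, evl]) _
      · exact Lc_unit5 hT (hx.sub n10d9) (by norm_num) (by norm_num [ev, evl]) _
      · exact Lc_unit5 hT (hx.sub n10) (by norm_num) (by norm_num [ev, evl]) _
      · exact Lc_quot5 (m := 2) hT (A := x + (2 / 3)) (B := x * (x - 10) + 5 * (y + 2 * x)) (C := 1) (by linear_combination (-1) * heq)
          ((hx.mul hT (hx.sub n10)).add (n5.mul hT (hy.add (n2.mul hT hx)))) n1 (by norm_num) (by norm_num) (by norm_num [ev, evl])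
      · exact Lc_unit5 hT hy (by norm_num) (by norm_num [ev, evl]) _
      · exact Lc_unit5 hT (hy.sub (n2.mul hT hx)) (by norm_num) (by norm_num [ev, evl]) _
      · exact Lc_unit5 hT (hy.sub (n2d3.mul hT hx)) (by norm_num) (by norm_num [ev, evl]) _
      · exact Lc_unit5 hT (hy.sub (n10d3.mul hT hx)) (by norm_num) (by norm_num [ev, evl]) _
      · exact Lc_self5 _
      · exact Lc_unit5 hT n2 (by norm_num) (by norm_num [ev, evl]) _
      · exact Lc_unit5 hT n3 (by norm_num) (by norm_num [ev, evl]) _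
      · exact Lc_unit5 hT n5 (by norm_num) (by norm_num [ev, evl]) _
  exact P6

end s12a

end Pool.Agent.FK4R
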