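import Pool.Agent.Lib_helper54.FAM.Pl12ap1
import Pool.Agent.Lib_helper54.FAM.Pl12ap2
import Pool.Agent.Lib_helper54.FAM.Pl12ap3

set_option autoImplicit false
set_option linter.unusedSectionVars false
set_option linter.unusedVariables false
set_option linter.unusedSimpArgs false

/-!
Local data at the places of the special curve with a point of order twelve.
-/

namespace Pool.Agent.FK4R

open Pool.Agent.K4R Pool.Agent.KC72
open scoped WithZero TensorProduct

section s12a

variable {F : Type*} [Field F] [CharZero F] {v : Valuation F ℤᵐ⁰} {x y : F}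

theorem places12a (hT : Tq v) (heq : y ^ 2 - x * y - (10 / 3) * y = x ^ 3 - (10 / 3) * x ^ 2)
    (hne : ∀ z ∈ g12a x y, z ≠ 0) : (∀ z ∈ g12a x y, v z = 1) ∨
      ∃ loc ∈ locs12a, ∃ t : F, t ≠ 0 ∧ v t ≠ 1 ∧ Loc v [2, 3, 5] t (g12a x y) loc := by
  have hbq : v ((10 / 3) : F) ≤ 1 := by
    have := hT.le (10 / 3)
    norm_num at this ⊢
    exact this
  have hcq : v (2 : F) ≤ 1 := by
    have := hT.le 2
    norm_num at this ⊢
    exact this
  have hE : y ^ 2 + (1 - 2) * x * y - (10 / 3) * y = x ^ 3 - (10 / 3) * x ^ 2 := by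
    linear_combination heq
  have nx0 : x ≠ 0 := hne _ (by simp [g12a])
  have nx1 : x - (10 / 3) ≠ 0 := hne _ (by simp [g12a])
  have nx2 : x - 2 ≠ 0 := hne _ (by simp [g12a])
  have nx3 : x - (10 / 9) ≠ 0 := hne _ (by simp [g12a])
  have nx4 : x - 10 ≠ 0 := hne _ (by simp [g12a])
  have nx5 : x + (2 / 3) ≠ 0 := hne _ (by simp [g12a])
  have ny0 : y ≠ 0 := hne _ (by simp [g12a])
  have ny1 : y - 2 * x ≠ 0 := hne _ (by simp [g12a])
  have ny2 : y - (2 / 3) * x ≠ 0 := hne _ (by simp [g12a])
  have ny3 : y - (10 / 3) * x ≠ 0 := hne _ (by simp [g12a])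
  have ny4 : y + 2 * x ≠ 0 := hne _ (by simp [g12a])
  have n1d3 : Nq v ((1 / 3) : F) (1 / 3) := Nq.num _ (by norm_num)
  have n2d3 : Nq v ((2 / 3) : F) (2 / 3) := Nq.num _ (by norm_num)
  have n1 : Nq v (1 : F) 1 := Nq.num _ (by norm_num)
  have n10d9 : Nq v ((10 / 9) : F) (10 / 9) := Nq.num _ (by norm_num)
  have n2 : Nq v (2 : F) 2 := Nq.num _ (by norm_num)
  have n7d3 : Nq v ((7 / 3) : F) (7 / 3) := Nq.num _ (by norm_num)
  have n3 : Nq v (3 : F) 3 := Nq.num _ (by norm_num)
  have n10d3 : Nq v ((10 / 3) : F) (10 / 3) := Nq.num _ (by norm_num)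
  have n5 : Nq v (5 : F) 5 := Nq.num _ (by norm_num)
  have n10 : Nq v (10 : F) 10 := Nq.num _ (by norm_num)
  have P1 := pl12a_P1 hT heq hne
  have M1 := pl12a_M1 hT heq hne
  have P2 := pl12a_P2 hT heq hne
  have M2 := pl12a_M2 hT heq hne
  have P3 := pl12a_P3 hT heq hne
  have M3 := pl12a_M3 hT heq hne
  have P4 := pl12a_P4 hT heq hne
  have M4 := pl12a_M4 hT heq hne
  have P5 := pl12a_P5 hT heq hne
  have M5 := pl12a_M5 hT heq hne
  have P6 := pl12a_P6 hT heq hne
  by_cases hO : 1 < v x
  · right
    obtain ⟨h1, h2, h3, h4⟩ := at_O hE hbq hcq hO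
    refine ⟨[(2, (false, [])), (2, (false, [])), (2, (false, [])), (2, (false, [])), (2, (false, [])), (2, (false, [])), (3, (false, [])), (3, (false, [])), (3, (false, [])), (3, (false, [])), (3, (false, [])), (0, (false, [1])), (0, (false, [0, 1])), (0, (false, [0, 0, 1]))], by decide, y / x, h2, h1, List.Forall₂.cons ?_ (List.Forall₂.cons ?_ (List.Forall₂.cons ?_ (List.Forall₂.cons ?_ (List.Forall₂.cons ?_ (List.Forall₂.cons ?_ (List.Forall₂.cons ?_ (List.Forall₂.cons ?_ (List.Forall₂.cons ?_ (List.Forall₂.cons ?_ (List.Forall₂.cons ?_ (List.Forall₂.cons ?_ (List.Forall₂.cons ?_ (List.Forall₂.cons ?_ (List.Forall₂.nil))))))))))))))⟩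
    · have h := h3 0 (by simpa using hT.le 0)
      simp only [sub_zero, zero_mul] at h
      exact h.five
    · exact (h3 (10 / 3) (by simpa using hT.le (10 / 3))).five
    · exact (h3 2 (by simpa using hT.le 2)).five
    · exact (h3 (10 / 9) (by simpa using hT.le (10 / 9))).five
    · exact (h3 10 (by simpa using hT.le 10)).five
    · have h := h3 (-((2 / 3))) (by simpa using hT.le (-2 / 3))
      rw [sub_neg_eq_add] at h
      exact h.five
    · have h := h4 0 (by simpa using hT.le 0)
      simp only [sub_zero, zero_mul] at h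
      exact h.five
    · exact (h4 2 (by simpa using hT.le 2)).five
    · exact (h4 (2 / 3) (by simpa using hT.le (2 / 3))).five
    · exact (h4 (10 / 3) (by simpa using hT.le (10 / 3))).five
    · have h := h4 (-(2)) (by simpa using hT.le (-2))
      rw [neg_mul, sub_neg_eq_add] at h
      exact h.five
    · exact Lc_unit5 hT n2 (by norm_num) (by norm_num [ev, evl]) _
    · exact Lc_unit5 hT n3 (by norm_num) (by norm_num [ev, evl]) _
    · exact Lc_unit5 hT n5 (by norm_num) (by norm_num [ev, evl]) _
  rw [not_lt] at hO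
  have hy1 := vy_le hE hbq hcq hO
  by_cases h : v (x) < 1
  · right
    have hx : Nq v x 0 := by
      unfold Nq
      norm_num
      exact h
    have hd := two_pts hE hbq hcq hO (α := 0) (β := 0) (γ := (10 / 3))
      (by norm_num; exact h) (by simpa using hT.le 0) (by norm_num) (by norm_num)
    rcases hd with hd | hd
    · exact P1 hx (by unfold Nq; norm_num at hd ⊢; exact hd)
    · exact M1 hx (by unfold Nq; norm_num at hd ⊢; exact hd)
  have hx0 : v (x) = 1 := one_of_not_lt (hO) h
  clear h
  by_cases h : v (x - (10 / 3)) < 1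
  · right
    have hx : Nq v x (10 / 3) := by
      unfold Nq
      norm_num
      exact h
    have hd := two_pts hE hbq hcq hO (α := (10 / 3)) (β := (20 / 3)) (γ := 0)
      (by norm_num; exact h) (by simpa using hT.le (10 / 3)) (by norm_num) (by norm_num)
    rcases hd with hd | hd
    · exact P2 hx (by unfold Nq; norm_num at hd ⊢; exact hd)
    · exact M2 hx (by unfold Nq; norm_num at hd ⊢; exact hd)
  have hx1 : v (x - (10 / 3)) = 1 := one_of_not_lt (Valuation.map_sub_le _ hO (by simpa using hT.le (10 / 3))) h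
  clear h
  by_cases h : v (x - 2) < 1
  · right
    have hx : Nq v x 2 := by
      unfold Nq
      norm_num
      exact h
    have hd := two_pts hE hbq hcq hO (α := 2) (β := (4 / 3)) (γ := 4)
      (by norm_num; exact h) (by simpa using hT.le 2) (by norm_num) (by norm_num)
    rcases hd with hd | hd
    · exact P3 hx (by unfold Nq; norm_num at hd ⊢; exact hd)
    · exact M3 hx (by unfold Nq; norm_num at hd ⊢; exact hd)
  have hx2 : v (x - 2) = 1 := one_of_not_lt (Valuation.map_sub_le _ hO (by simpa using hT.le 2)) h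
  clear h
  by_cases h : v (x - (10 / 9)) < 1
  · right
    have hx : Nq v x (10 / 9) := by
      unfold Nq
      norm_num
      exact h
    have hd := two_pts hE hbq hcq hO (α := (10 / 9)) (β := (100 / 27)) (γ := (20 / 27))
      (by norm_num; exact h) (by simpa using hT.le (10 / 9)) (by norm_num) (by norm_num)
    rcases hd with hd | hd
    · exact P4 hx (by unfold Nq; norm_num at hd ⊢; exact hd)
    · exact M4 hx (by unfold Nq; norm_num at hd ⊢; exact hd)
  have hx3 : v (x - (10 / 9)) = 1 := one_of_not_lt (Valuation.map_sub_le _ hO (by simpa using hT.le (10 / 9))) h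
  clear h
  by_cases h : v (x - 10) < 1
  · right
    have hx : Nq v x 10 := by
      unfold Nq
      norm_num
      exact h
    have hd := two_pts hE hbq hcq hO (α := 10) (β := (-20)) (γ := (100 / 3))
      (by norm_num; exact h) (by simpa using hT.le 10) (by norm_num) (by norm_num)
    rcases hd with hd | hd
    · exact P5 hx (by unfold Nq; norm_num at hd ⊢; exact hd)
    · exact M5 hx (by unfold Nq; norm_num at hd ⊢; exact hd)
  have hx4 : v (x - 10) = 1 := one_of_not_lt (Valuation.map_sub_le _ hO (by simpa using hT.le 10)) h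
  clear h
  by_cases h : v (x + (2 / 3)) < 1
  · right
    have hx : Nq v x (-2 / 3) := by
      unfold Nq
      norm_num
      exact h
    have hd := two_pts hE hbq hcq hO (α := (-2 / 3)) (β := (4 / 3)) (γ := (4 / 3))
      (by norm_num; exact h) (by simpa using hT.le (-2 / 3)) (by norm_num) (by norm_num)
    rcases hd with hd | hd
    · exact P6 hx (by unfold Nq; norm_num at hd ⊢; exact hd)
    · exact P6 hx (by unfold Nq; norm_num at hd ⊢; exact hd)
  have hx5 : v (x + (2 / 3)) = 1 := one_of_not_lt (Valuation.map_add_le _ hO (by simpa using hT.le (2 / 3))) h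
  clear h
  left
  have hy_0 : v (y) = 1 := by
    refine one_of_mul (B := y - x - (10 / 3)) (C := (x) * (x) * (x - (10 / 3))) hy1
      (Valuation.map_sub_le _ (Valuation.map_sub_le _ hy1 hO) (by simpa using hT.le (10 / 3))) (by linear_combination heq) ?_
    simp only [map_mul, hx0, hx1, mul_one]
  have hy_1 : v (y - 2 * x) = 1 := by
    refine one_of_mul (B := y + x - (10 / 3)) (C := (x) * (x - (10 / 3)) * (x - 2)) (Valuation.map_sub_le _ hy1 (by
      rw [map_mul]
      exact mul_le_one' (by simpa using hT.le 2) hO))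
      (Valuation.map_sub_le _ (Valuation.map_add_le _ hy1 hO) (by simpa using hT.le (10 / 3))) (by linear_combination heq) ?_
    simp only [map_mul, hx0, hx1, hx2, mul_one]
  have hy_2 : v (y - (2 / 3) * x) = 1 := by
    refine one_of_mul (B := y - (1 / 3) * x - (10 / 3)) (C := (x) * (x - 2) * (x - (10 / 9))) (Valuation.map_sub_le _ hy1 (by
      rw [map_mul]
      exact mul_le_one' (by simpa using hT.le (2 / 3)) hO))
      (Valuation.map_sub_le _ (Valuation.map_sub_le _ hy1 (by
      rw [map_mul]
      exact mul_le_one' (by simpa using hT.le (1 / 3)) hO)) (by simpa using hT.le (10 / 3))) (by linear_combination heq) ?_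
    simp only [map_mul, hx0, hx2, hx3, mul_one]
  have hy_3 : v (y - (10 / 3) * x) = 1 := by
    refine one_of_mul (B := y + (7 / 3) * x - (10 / 3)) (C := (x) * (x - (10 / 9)) * (x - 10)) (Valuation.map_sub_le _ hy1 (by
      rw [map_mul]
      exact mul_le_one' (by simpa using hT.le (10 / 3)) hO))
      (Valuation.map_sub_le _ (Valuation.map_add_le _ hy1 (by
      rw [map_mul]
      exact mul_le_one' (by simpa using hT.le (7 / 3)) hO)) (by simpa using hT.le (10 / 3))) (by linear_combination heq) ?_
    simp only [map_mul, hx0, hx3, hx4, mul_one]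
  have hy_4 : v (y + 2 * x) = 1 := by
    refine one_of_mul (B := y - 3 * x - (10 / 3)) (C := (x) * (x - 10) * (x + (2 / 3))) (Valuation.map_add_le _ hy1 (by
      rw [map_mul]
      exact mul_le_one' (by simpa using hT.le 2) hO))
      (Valuation.map_sub_le _ (Valuation.map_sub_le _ hy1 (by
      rw [map_mul]
      exact mul_le_one' (by simpa using hT.le 3) hO)) (by simpa using hT.le (10 / 3))) (by linear_combination heq) ?_
    simp only [map_mul, hx0, hx4, hx5, mul_one]
  intro z hz
  simp only [g12a, List.mem_cons, List.not_mem_nil, or_false] at hz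
  rcases hz with rfl | rfl | rfl | rfl | rfl | rfl | rfl | rfl | rfl | rfl | rfl | rfl | rfl | rfl
  · exact hx0
  · exact hx1
  · exact hx2
  · exact hx3
  · exact hx4
  · exact hx5
  · exact hy_0
  · exact hy_1
  · exact hy_2
  · exact hy_3
  · exact hy_4
  · simpa using hT 2 (by norm_num)
  · simpa using hT 3 (by norm_num)
  · simpa using hT 5 (by norm_num)

end s12a

end Pool.Agent.FK4R
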