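import Pool.Agent.Lib_helper54.FAM.RC2

set_option autoImplicit false
set_option linter.unusedSectionVars false
set_option linter.unusedVariables false
set_option linter.unusedSimpArgs false

/-!
Local data at the places of the special curve with a point of order seven.
-/

namespace Pool.Agent.FK4R

open Pool.Agent.K4R Pool.Agent.KC72
open scoped WithZero TensorProduct

/-- the generators -/
def g7 {F : Type*} [Field F] (x y : F) : List F :=
  [x, x - 4, x - 2, y, y - 2 * x, y - x, 2]

/-- the local data at the points -/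
def locs7 : List (List (ℤ × Mo)) :=
  [[(2, (false, [])), (2, (false, [])), (2, (false, [])), (3, (false, [])), (3, (false, [])), (3, (false, [])), (0, (false, [1]))],
   [(1, (false, [])), (0, (true, [2])), (0, (true, [1])), (2, (false, [])), (1, (true, [1])), (1, (true, [])), (0, (false, [1]))],
   [(1, (false, [])), (0, (true, [2])), (0, (true, [1])), (0, (false, [2])), (0, (false, [2])), (0, (false, [2])), (0, (false, [1]))],
   [(0, (false, [2])), (1, (false, [])), (0, (false, [1])), (0, (false, [3])), (1, (false, [])), (0, (false, [2])), (0, (false, [1]))],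
   [(0, (false, [2])), (1, (false, [])), (0, (false, [1])), (1, (true, [1])), (0, (true, [3])), (0, (true, [2])), (0, (false, [1]))],
   [(0, (false, [1])), (0, (true, [1])), (1, (false, [])), (0, (false, [1])), (0, (true, [1])), (2, (true, [])), (0, (false, [1]))],
   [(0, (false, [1])), (0, (true, [1])), (1, (false, [])), (0, (false, [2])), (1, (true, [1])), (0, (false, [1])), (0, (false, [1]))]]

section s7

variable {F : Type*} [Field F] [CharZero F] {v : Valuation F ℤᵐ⁰} {x y : F}

theorem places7 (hT : Tq v) (heq : y ^ 2 - x * y - 4 * y = x ^ 3 - 4 * x ^ 2)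
    (hne : ∀ z ∈ g7 x y, z ≠ 0) : (∀ z ∈ g7 x y, v z = 1) ∨
      ∃ loc ∈ locs7, ∃ t : F, t ≠ 0 ∧ v t ≠ 1 ∧ Loc v [2, 3] t (g7 x y) loc := by
  have hbq : v (4 : F) ≤ 1 := by
    have := hT.le 4
    norm_num at this ⊢
    exact this
  have hcq : v (2 : F) ≤ 1 := by
    have := hT.le 2
    norm_num at this ⊢
    exact this
  have hE : y ^ 2 + (1 - 2) * x * y - 4 * y = x ^ 3 - 4 * x ^ 2 := by
    linear_combination heq
  have nx0 : x ≠ 0 := hne _ (by simp [g7])
  have nx1 : x - 4 ≠ 0 := hne _ (by simp [g7])
  have nx2 : x - 2 ≠ 0 := hne _ (by simp [g7])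
  have ny0 : y ≠ 0 := hne _ (by simp [g7])
  have ny1 : y - 2 * x ≠ 0 := hne _ (by simp [g7])
  have ny2 : y - x ≠ 0 := hne _ (by simp [g7])
  have n2 : Nq v (2 : F) 2 := Nq.num _ (by norm_num)
  have n4 : Nq v (4 : F) 4 := Nq.num _ (by norm_num)
  have P1 : Nq v x 0 → Nq v y 0 →
      ∃ loc ∈ locs7, ∃ t : F, t ≠ 0 ∧ v t ≠ 1 ∧ Loc v [2, 3] t (g7 x y) loc := by
    intro hx hy
    refine ⟨[(1, (false, [])), (0, (true, [2])), (0, (true, [1])), (2, (false, [])), (1, (true, [1])), (1, (true, [])), (0, (false, [1]))], by decide, x, nx0, ?_, ?_⟩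
    · have h := hx
      have h' : v (x) < 1 := by
        unfold Nq at h
        norm_num at h
        exact h
      exact h'.ne
    · refine List.Forall₂.cons ?_ (List.Forall₂.cons ?_ (List.Forall₂.cons ?_ (List.Forall₂.cons ?_ (List.Forall₂.cons ?_ (List.Forall₂.cons ?_ (List.Forall₂.cons ?_ (List.Forall₂.nil)))))))
      · exact Lc_self _
      · exact Lc_unit hT (hx.sub n4) (by norm_num) (by norm_num [ev, evl]) _
      · exact Lc_unit hT (hx.sub n2) (by norm_num) (by norm_num [ev, evl]) _
      · exact Lc_quot (m := 2) hT (A := y) (B := y - x - 4) (C := (x - 4))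
          (by linear_combination heq) ((hy.sub hx).sub n4)
          (hx.sub n4) (by norm_num) (by norm_num) (by norm_num [ev, evl])
      · exact Lc_quot (m := 1) hT (A := y - 2 * x) (B := y + x - 4) (C := ((x - 4) * (x - 2)))
          (by linear_combination heq) ((hy.add hx).sub n4)
          ((hx.sub n4).mul hT (hx.sub n2)) (by norm_num) (by norm_num) (by norm_num [ev, evl])
      · exact Lc_quot (m := 1) hT (A := y - x) (B := y - 4) (C := ((x - 2) * (x - 2)))
          (by linear_combination heq) (hy.sub n4)
          ((hx.sub n2).mul hT (hx.sub n2)) (by norm_num) (by norm_num) (by norm_num [ev, evl])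
      · exact Lc_unit hT n2 (by norm_num) (by norm_num [ev, evl]) _
  have M1 : Nq v x 0 → Nq v y 4 →
      ∃ loc ∈ locs7, ∃ t : F, t ≠ 0 ∧ v t ≠ 1 ∧ Loc v [2, 3] t (g7 x y) loc := by
    intro hx hy
    refine ⟨[(1, (false, [])), (0, (true, [2])), (0, (true, [1])), (0, (false, [2])), (0, (false, [2])), (0, (false, [2])), (0, (false, [1]))], by decide, x, nx0, ?_, ?_⟩
    · have h := hx
      have h' : v (x) < 1 := by
        unfold Nq at h
        norm_num at h
        exact h
      exact h'.ne
    · refine List.Forall₂.cons ?_ (List.Forall₂.cons ?_ (List.Forall₂.cons ?_ (List.Forall₂.cons ?_ (List.Forall₂.cons ?_ (List.Forall₂.cons ?_ (List.Forall₂.cons ?_ (List.Forall₂.nil)))))))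
      · exact Lc_self _
      · exact Lc_unit hT (hx.sub n4) (by norm_num) (by norm_num [ev, evl]) _
      · exact Lc_unit hT (hx.sub n2) (by norm_num) (by norm_num [ev, evl]) _
      · exact Lc_unit hT hy (by norm_num) (by norm_num [ev, evl]) _
      · exact Lc_unit hT (hy.sub (n2.mul hT hx)) (by norm_num) (by norm_num [ev, evl]) _
      · exact Lc_unit hT (hy.sub hx) (by norm_num) (by norm_num [ev, evl]) _
      · exact Lc_unit hT n2 (by norm_num) (by norm_num [ev, evl]) _
  have P2 : Nq v x 4 → Nq v y 8 →
      ∃ loc ∈ locs7, ∃ t : F, t ≠ 0 ∧ v t ≠ 1 ∧ Loc v [2, 3] t (g7 x y) loc := by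
    intro hx hy
    refine ⟨[(0, (false, [2])), (1, (false, [])), (0, (false, [1])), (0, (false, [3])), (1, (false, [])), (0, (false, [2])), (0, (false, [1]))], by decide, x - 4, nx1, ?_, ?_⟩
    · have h := (hx.sub n4)
      have h' : v (x - 4) < 1 := by
        unfold Nq at h
        norm_num at h
        exact h
      exact h'.ne
    · refine List.Forall₂.cons ?_ (List.Forall₂.cons ?_ (List.Forall₂.cons ?_ (List.Forall₂.cons ?_ (List.Forall₂.cons ?_ (List.Forall₂.cons ?_ (List.Forall₂.cons ?_ (List.Forall₂.nil)))))))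
      · exact Lc_unit hT hx (by norm_num) (by norm_num [ev, evl]) _
      · exact Lc_self _
      · exact Lc_unit hT (hx.sub n2) (by norm_num) (by norm_num [ev, evl]) _
      · exact Lc_unit hT hy (by norm_num) (by norm_num [ev, evl]) _
      · exact Lc_quot (m := 1) hT (A := y - 2 * x) (B := y + x - 4) (C := ((x) * (x - 2)))
          (by linear_combination heq) ((hy.add hx).sub n4)
          (hx.mul hT (hx.sub n2)) (by norm_num) (by norm_num) (by norm_num [ev, evl])
      · exact Lc_unit hT (hy.sub hx) (by norm_num) (by norm_num [ev, evl]) _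
      · exact Lc_unit hT n2 (by norm_num) (by norm_num [ev, evl]) _
  have M2 : Nq v x 4 → Nq v y 0 →
      ∃ loc ∈ locs7, ∃ t : F, t ≠ 0 ∧ v t ≠ 1 ∧ Loc v [2, 3] t (g7 x y) loc := by
    intro hx hy
    refine ⟨[(0, (false, [2])), (1, (false, [])), (0, (false, [1])), (1, (true, [1])), (0, (true, [3])), (0, (true, [2])), (0, (false, [1]))], by decide, x - 4, nx1, ?_, ?_⟩
    · have h := (hx.sub n4)
      have h' : v (x - 4) < 1 := by
        unfold Nq at h
        norm_num at h
        exact h
      exact h'.ne
    · refine List.Forall₂.cons ?_ (List.Forall₂.cons ?_ (List.Forall₂.cons ?_ (List.Forall₂.cons ?_ (List.Forall₂.cons ?_ (List.Forall₂.cons ?_ (List.Forall₂.cons ?_ (List.Forall₂.nil)))))))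
      · exact Lc_unit hT hx (by norm_num) (by norm_num [ev, evl]) _
      · exact Lc_self _
      · exact Lc_unit hT (hx.sub n2) (by norm_num) (by norm_num [ev, evl]) _
      · exact Lc_quot (m := 1) hT (A := y) (B := y - x - 4) (C := ((x) * (x)))
          (by linear_combination heq) ((hy.sub hx).sub n4)
          (hx.mul hT hx) (by norm_num) (by norm_num) (by norm_num [ev, evl])
      · exact Lc_unit hT (hy.sub (n2.mul hT hx)) (by norm_num) (by norm_num [ev, evl]) _
      · exact Lc_unit hT (hy.sub hx) (by norm_num) (by norm_num [ev, evl]) _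
      · exact Lc_unit hT n2 (by norm_num) (by norm_num [ev, evl]) _
  have P3 : Nq v x 2 → Nq v y 2 →
      ∃ loc ∈ locs7, ∃ t : F, t ≠ 0 ∧ v t ≠ 1 ∧ Loc v [2, 3] t (g7 x y) loc := by
    intro hx hy
    refine ⟨[(0, (false, [1])), (0, (true, [1])), (1, (false, [])), (0, (false, [1])), (0, (true, [1])), (2, (true, [])), (0, (false, [1]))], by decide, x - 2, nx2, ?_, ?_⟩
    · have h := (hx.sub n2)
      have h' : v (x - 2) < 1 := by
        unfold Nq at h
        norm_num at h
        exact h
      exact h'.ne
    · refine List.Forall₂.cons ?_ (List.Forall₂.cons ?_ (List.Forall₂.cons ?_ (List.Forall₂.cons ?_ (List.Forall₂.cons ?_ (List.Forall₂.cons ?_ (List.Forall₂.cons ?_ (List.Forall₂.nil)))))))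
      · exact Lc_unit hT hx (by norm_num) (by norm_num [ev, evl]) _
      · exact Lc_unit hT (hx.sub n4) (by norm_num) (by norm_num [ev, evl]) _
      · exact Lc_self _
      · exact Lc_unit hT hy (by norm_num) (by norm_num [ev, evl]) _
      · exact Lc_unit hT (hy.sub (n2.mul hT hx)) (by norm_num) (by norm_num [ev, evl]) _
      · exact Lc_quot (m := 2) hT (A := y - x) (B := y - 4) (C := (x))
          (by linear_combination heq) (hy.sub n4)
          hx (by norm_num) (by norm_num) (by norm_num [ev, evl])
      · exact Lc_unit hT n2 (by norm_num) (by norm_num [ev, evl]) _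
  have M3 : Nq v x 2 → Nq v y 4 →
      ∃ loc ∈ locs7, ∃ t : F, t ≠ 0 ∧ v t ≠ 1 ∧ Loc v [2, 3] t (g7 x y) loc := by
    intro hx hy
    refine ⟨[(0, (false, [1])), (0, (true, [1])), (1, (false, [])), (0, (false, [2])), (1, (true, [1])), (0, (false, [1])), (0, (false, [1]))], by decide, x - 2, nx2, ?_, ?_⟩
    · have h := (hx.sub n2)
      have h' : v (x - 2) < 1 := by
        unfold Nq at h
        norm_num at h
        exact h
      exact h'.ne
    · refine List.Forall₂.cons ?_ (List.Forall₂.cons ?_ (List.Forall₂.cons ?_ (List.Forall₂.cons ?_ (List.Forall₂.cons ?_ (List.Forall₂.cons ?_ (List.Forall₂.cons ?_ (List.Forall₂.nil)))))))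
      · exact Lc_unit hT hx (by norm_num) (by norm_num [ev, evl]) _
      · exact Lc_unit hT (hx.sub n4) (by norm_num) (by norm_num [ev, evl]) _
      · exact Lc_self _
      · exact Lc_unit hT hy (by norm_num) (by norm_num [ev, evl]) _
      · exact Lc_quot (m := 1) hT (A := y - 2 * x) (B := y + x - 4) (C := ((x) * (x - 4)))
          (by linear_combination heq) ((hy.add hx).sub n4)
          (hx.mul hT (hx.sub n4)) (by norm_num) (by norm_num) (by norm_num [ev, evl])
      · exact Lc_unit hT (hy.sub hx) (by norm_num) (by norm_num [ev, evl]) _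
      · exact Lc_unit hT n2 (by norm_num) (by norm_num [ev, evl]) _
  by_cases hO : 1 < v x
  · right
    obtain ⟨h1, h2, h3, h4⟩ := at_O hE hbq hcq hO
    refine ⟨[(2, (false, [])), (2, (false, [])), (2, (false, [])), (3, (false, [])), (3, (false, [])), (3, (false, [])), (0, (false, [1]))], by decide, y / x, h2, h1, List.Forall₂.cons ?_ (List.Forall₂.cons ?_ (List.Forall₂.cons ?_ (List.Forall₂.cons ?_ (List.Forall₂.cons ?_ (List.Forall₂.cons ?_ (List.Forall₂.cons ?_ (List.Forall₂.nil)))))))⟩
    · simpa using h3 0 (by simpa using hT.le 0)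
    · simpa using h3 4 (by simpa using hT.le 4)
    · simpa using h3 2 (by simpa using hT.le 2)
    · simpa using h4 0 (by simpa using hT.le 0)
    · simpa using h4 2 (by simpa using hT.le 2)
    · simpa using h4 1 (by simpa using hT.le 1)
    · exact Lc_unit hT n2 (by norm_num) (by norm_num [ev, evl]) _
  rw [not_lt] at hO
  have hy1 := vy_le hE hbq hcq hO
  by_cases h : v (x) < 1
  · right
    have hx : Nq v x 0 := by
      unfold Nq
      norm_num
      exact h
    have hd := two_pts hE hbq hcq hO (α := 0) (β := 0) (γ := 4)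
      (by norm_num; exact h) (by simpa using hT.le 0) (by norm_num) (by norm_num)
    rcases hd with hd | hd
    · exact P1 hx (by unfold Nq; norm_num at hd ⊢; exact hd)
    · exact M1 hx (by unfold Nq; norm_num at hd ⊢; exact hd)
  have hx0 : v (x) = 1 := one_of_not_lt (hO) h
  clear h
  by_cases h : v (x - 4) < 1
  · right
    have hx : Nq v x 4 := by
      unfold Nq
      norm_num
      exact h
    have hd := two_pts hE hbq hcq hO (α := 4) (β := 8) (γ := 0)
      (by norm_num; exact h) (by simpa using hT.le 4) (by norm_num) (by norm_num)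
    rcases hd with hd | hd
    · exact P2 hx (by unfold Nq; norm_num at hd ⊢; exact hd)
    · exact M2 hx (by unfold Nq; norm_num at hd ⊢; exact hd)
  have hx1 : v (x - 4) = 1 := one_of_not_lt (Valuation.map_sub_le _ hO (by simpa using hT.le 4)) h
  clear h
  by_cases h : v (x - 2) < 1
  · right
    have hx : Nq v x 2 := by
      unfold Nq
      norm_num
      exact h
    have hd := two_pts hE hbq hcq hO (α := 2) (β := 2) (γ := 4)
      (by norm_num; exact h) (by simpa using hT.le 2) (by norm_num) (by norm_num)
    rcases hd with hd | hd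
    · exact P3 hx (by unfold Nq; norm_num at hd ⊢; exact hd)
    · exact M3 hx (by unfold Nq; norm_num at hd ⊢; exact hd)
  have hx2 : v (x - 2) = 1 := one_of_not_lt (Valuation.map_sub_le _ hO (by simpa using hT.le 2)) h
  clear h
  left
  have hy_0 : v (y) = 1 := by
    refine one_of_mul (B := y - x - 4) (C := (x) * (x) * (x - 4)) hy1
      (Valuation.map_sub_le _ (Valuation.map_sub_le _ hy1 hO) (by simpa using hT.le 4)) (by linear_combination heq) ?_
    simp only [map_mul, hx0, hx1, mul_one]
  have hy_1 : v (y - 2 * x) = 1 := by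
    refine one_of_mul (B := y + x - 4) (C := (x) * (x - 4) * (x - 2)) (Valuation.map_sub_le _ hy1 (by
      rw [map_mul]
      exact mul_le_one' (by simpa using hT.le 2) hO))
      (Valuation.map_sub_le _ (Valuation.map_add_le _ hy1 hO) (by simpa using hT.le 4)) (by linear_combination heq) ?_
    simp only [map_mul, hx0, hx1, hx2, mul_one]
  have hy_2 : v (y - x) = 1 := by
    refine one_of_mul (B := y - 4) (C := (x) * (x - 2) * (x - 2)) (Valuation.map_sub_le _ hy1 hO)
      (Valuation.map_sub_le _ hy1 (by simpa using hT.le 4)) (by linear_combination heq) ?_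
    simp only [map_mul, hx0, hx2, mul_one]
  intro z hz
  simp only [g7, List.mem_cons, List.not_mem_nil, or_false] at hz
  rcases hz with rfl | rfl | rfl | rfl | rfl | rfl | rfl
  · exact hx0
  · exact hx1
  · exact hx2
  · exact hy_0
  · exact hy_1
  · exact hy_2
  · simpa using hT 2 (by norm_num)

end s7

end Pool.Agent.FK4R
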