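import Pool.Agent.Lib_helper2.K4N.Q7X
import Pool.Agent.Lib_helper2.K4N.Eng2

set_option autoImplicit false
set_option linter.unusedSimpArgs false
set_option linter.unusedSectionVars false

/-!
The class for points of order twelve at `t = 2/3` (`b = 10/3`, `c = 2`), and its nonvanishing.
-/

namespace Pool.Agent.K4N

open Filter Topology Pool.Agent.TN
open scoped TensorProduct

namespace Q12

/-- the circle -/
noncomputable def circ12 : Circ ((10 / 3 : ℚ) : ℝ) ((2 : ℚ) : ℝ) (fun _ _ => True) := by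
  refine mkCirc _ _ (-2 / 3) (-15) (50 / 3) _ ?_ ?_ ?_
  · intro x
    push_cast
    ring
  · intro x _
    nlinarith [sq_nonneg (8 * x - 15)]
  · intro s _ V _
    trivial

/-- `(2-x)/2` -/
def f1 : Q2 := (.c 2 - .x) / .c 2
/-- `(3x+2)/12` -/
def f2 : Q2 := (.c 3 * .x + .c 2) / .c 12
/-- `(10-x)/(2x)` -/
def f3 : Q2 := (.c 10 - .x) / (.c 2 * .x)
/-- `(10-x)/(4x)` -/
def f4 : Q2 := (.c 10 - .x) / (.c 4 * .x)
/-- the first odd unit -/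
def uA : Q2 := (.y - .c (4 / 3)) / (.x + .c 2 - .y)
/-- its inverse -/
def uA' : Q2 := (.x + .c 2 - .y) / (.y - .c (4 / 3))
/-- the second odd unit -/
def uB : Q2 := (.y + .c 2 * .x) / (.c 3 * .x + .c (10 / 3) - .y)
/-- the third odd unit -/
def uL : Q2 := (.y + .c (1 / 3) * .x - .c (10 / 9)) / (.c (4 / 3) * .x + .c (20 / 9) - .y)

section ev
variable {K : Type*} [Field K] [CharZero K] (u v : K)

lemma ev_f1 : f1.ev u v = (2 - u) / 2 := by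
  simp only [f1, Q2.ev_sub, Q2.ev_add, Q2.ev_mul, Q2.ev_div, Q2.ev_c, Q2.ev_x, Q2.ev_y]
  push_cast
  rfl
lemma ev_f2 : f2.ev u v = (3 * u + 2) / 12 := by
  simp only [f2, Q2.ev_sub, Q2.ev_add, Q2.ev_mul, Q2.ev_div, Q2.ev_c, Q2.ev_x, Q2.ev_y]
  push_cast
  rfl
lemma ev_f3 : f3.ev u v = (10 - u) / (2 * u) := by
  simp only [f3, Q2.ev_sub, Q2.ev_add, Q2.ev_mul, Q2.ev_div, Q2.ev_c, Q2.ev_x, Q2.ev_y]
  push_cast
  rfl
lemma ev_f4 : f4.ev u v = (10 - u) / (4 * u) := by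
  simp only [f4, Q2.ev_sub, Q2.ev_add, Q2.ev_mul, Q2.ev_div, Q2.ev_c, Q2.ev_x, Q2.ev_y]
  push_cast
  rfl
lemma ev_uA : uA.ev u v = (v - 4 / 3) / (u + 2 - v) := by
  simp only [uA, Q2.ev_sub, Q2.ev_add, Q2.ev_mul, Q2.ev_div, Q2.ev_c, Q2.ev_x, Q2.ev_y]
  push_cast
  rfl
lemma ev_uA' : uA'.ev u v = (u + 2 - v) / (v - 4 / 3) := by
  simp only [uA', Q2.ev_sub, Q2.ev_add, Q2.ev_mul, Q2.ev_div, Q2.ev_c, Q2.ev_x, Q2.ev_y]
  push_cast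
  rfl
lemma ev_uB : uB.ev u v = (v + 2 * u) / (3 * u + 10 / 3 - v) := by
  simp only [uB, Q2.ev_sub, Q2.ev_add, Q2.ev_mul, Q2.ev_div, Q2.ev_c, Q2.ev_x, Q2.ev_y]
  push_cast
  rfl
lemma ev_uL : uL.ev u v = (v + 1 / 3 * u - 10 / 9) / (4 / 3 * u + 20 / 9 - v) := by
  simp only [uL, Q2.ev_sub, Q2.ev_add, Q2.ev_mul, Q2.ev_div, Q2.ev_c, Q2.ev_x, Q2.ev_y]
  push_cast
  rfl

end ev

section dv

variable {U V : ℝ}

lemma d_f1 : Q2.dv ((10 / 3 : ℚ) : ℝ) ((2 : ℚ) : ℝ) f1 U V =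
    -(2 * (2 * V - U - 10 / 3) / 2 ^ 2) := by
  simp only [f1, Q2.dv_div, Q2.dv_sub, Q2.dv_c, Q2.dv_x, Q2.ev_sub, Q2.ev_c, Q2.ev_x]
  push_cast
  ring

lemma d_f2 : Q2.dv ((10 / 3 : ℚ) : ℝ) ((2 : ℚ) : ℝ) f2 U V =
    36 * (2 * V - U - 10 / 3) / 12 ^ 2 := by
  simp only [f2, Q2.dv_div, Q2.dv_add, Q2.dv_mul, Q2.dv_c, Q2.dv_x, Q2.ev_add, Q2.ev_mul, Q2.ev_c,
    Q2.ev_x]
  push_cast
  ring

lemma d_f3 : Q2.dv ((10 / 3 : ℚ) : ℝ) ((2 : ℚ) : ℝ) f3 U V =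
    -(20 * (2 * V - U - 10 / 3) / (2 * U) ^ 2) := by
  simp only [f3, Q2.dv_div, Q2.dv_sub, Q2.dv_mul, Q2.dv_c, Q2.dv_x, Q2.ev_sub, Q2.ev_mul, Q2.ev_c,
    Q2.ev_x]
  push_cast
  rw [← neg_div]
  congr 1
  ring

lemma d_f4 : Q2.dv ((10 / 3 : ℚ) : ℝ) ((2 : ℚ) : ℝ) f4 U V =
    -(40 * (2 * V - U - 10 / 3) / (4 * U) ^ 2) := by
  simp only [f4, Q2.dv_div, Q2.dv_sub, Q2.dv_mul, Q2.dv_c, Q2.dv_x, Q2.ev_sub, Q2.ev_mul, Q2.ev_c,
    Q2.ev_x]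
  push_cast
  rw [← neg_div]
  congr 1
  ring

lemma U_nonneg (he : V ^ 2 - U * V - 10 / 3 * V = U ^ 3 - 10 / 3 * U ^ 2) : 0 ≤ U + 2 / 3 := by
  have h1 : (U + 2 / 3) * (4 * U ^ 2 - 15 * U + 50 / 3) = (2 * V - U - 10 / 3) ^ 2 := by
    linear_combination -4 * he
  have h2 : 0 < 4 * U ^ 2 - 15 * U + 50 / 3 := by nlinarith [sq_nonneg (8 * U - 15)]
  by_contra h
  have h3 := mul_neg_of_neg_of_pos (not_le.mp h) h2
  have h4 := sq_nonneg (2 * V - U - 10 / 3)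
  linarith

lemma U_pos (he : V ^ 2 - U * V - 10 / 3 * V = U ^ 3 - 10 / 3 * U ^ 2)
    (hψ : 2 * V - U - 10 / 3 ≠ 0) : 0 < U + 2 / 3 := by
  have h1 : (U + 2 / 3) * (4 * U ^ 2 - 15 * U + 50 / 3) = (2 * V - U - 10 / 3) ^ 2 := by
    linear_combination -4 * he
  rcases (U_nonneg he).lt_or_eq with h | h
  · exact h
  · rw [← h, zero_mul] at h1
    exact absurd h1.symm (pow_ne_zero 2 hψ)

lemma sA (he : V ^ 2 - U * V - 10 / 3 * V = U ^ 3 - 10 / 3 * U ^ 2) :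
    0 ≤ (2 * V - U - 10 / 3) * Real.log ((V - 4 / 3) / (U + 2 - V)) := by
  have h := psi_log_nonpos (ψ := -(2 * V - U - 10 / 3)) (A := V - 4 / 3) (B := U + 2 - V)
    (U_nonneg he) (by ring)
  linarith

lemma sA' (he : V ^ 2 - U * V - 10 / 3 * V = U ^ 3 - 10 / 3 * U ^ 2) :
    (2 * V - U - 10 / 3) * Real.log ((U + 2 - V) / (V - 4 / 3)) ≤ 0 :=
  psi_log_nonpos (U_nonneg he) (by ring)

lemma sB (he : V ^ 2 - U * V - 10 / 3 * V = U ^ 3 - 10 / 3 * U ^ 2) :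
    0 ≤ (2 * V - U - 10 / 3) * Real.log ((V + 2 * U) / (3 * U + 10 / 3 - V)) := by
  have h := psi_log_nonpos (ψ := -(2 * V - U - 10 / 3)) (A := V + 2 * U)
    (B := 3 * U + 10 / 3 - V) (E := 5 * (U + 2 / 3)) (mul_nonneg (by norm_num) (U_nonneg he))
    (by ring)
  linarith

lemma sL (he : V ^ 2 - U * V - 10 / 3 * V = U ^ 3 - 10 / 3 * U ^ 2) :
    0 ≤ (2 * V - U - 10 / 3) *
      Real.log ((V + 1 / 3 * U - 10 / 9) / (4 / 3 * U + 20 / 9 - V)) := by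
  have h := psi_log_nonpos (ψ := -(2 * V - U - 10 / 3)) (A := V + 1 / 3 * U - 10 / 9)
    (B := 4 / 3 * U + 20 / 9 - V) (E := 5 / 3 * (U + 2 / 3))
    (mul_nonneg (by norm_num) (U_nonneg he)) (by ring)
  linarith

lemma sA0 (he : V ^ 2 - U * V - 10 / 3 * V = U ^ 3 - 10 / 3 * U ^ 2)
    (hψ : 2 * V - U - 10 / 3 ≠ 0) (h1 : V - 4 / 3 ≠ 0) (h2 : U + 2 - V ≠ 0) :
    0 < (2 * V - U - 10 / 3) * Real.log ((V - 4 / 3) / (U + 2 - V)) :=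
  psi_log_pos hψ h1 h2 (U_pos he hψ) (by ring)

end dv

/-- a product of signs -/
lemma sg {κ ψ D L : ℝ} (hκ : 0 ≤ κ) (h : ψ * L ≤ 0) : κ * ψ / D ^ 2 * L ≤ 0 := by
  have e : κ * ψ / D ^ 2 * L = κ / D ^ 2 * (ψ * L) := by ring
  rw [e]
  exact mul_nonpos_of_nonneg_of_nonpos (div_nonneg hκ (sq_nonneg D)) h

lemma sg' {κ ψ D L : ℝ} (hκ : 0 ≤ κ) (h : 0 ≤ ψ * L) : -(κ * ψ / D ^ 2) * L ≤ 0 := by
  have e : -(κ * ψ / D ^ 2) * L = -(κ / D ^ 2 * (ψ * L)) := by ring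
  rw [e, neg_nonpos]
  exact mul_nonneg (div_nonneg hκ (sq_nonneg D)) h

/-- the functions -/
def f12 : Fin 8 → Q2 := ![f1, f1, f2, f3, f3, f3, f4, f4]
/-- the units -/
def u12 : Fin 8 → Q2 := ![uA, uL, uA', uA, uL, uB, uA, uB]
/-- the multiplicities -/
def w12 : Fin 8 → ℕ := ![6, 4, 3, 2, 6, 2, 2, 4]

/-- the nonvanishing functions -/
def nz12 : List Q2 := [.x, .c 2 * .y - .x - .c (10 / 3), .y - .c (4 / 3), .x + .c 2 - .y]

variable {k F : Type*} [Field k] [Field F] [Algebra k F] {x y : F}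

lemma nz12_ne [CharZero k] [CharZero F] (h : Gen ((10 / 3 : ℚ) : k) ((2 : ℚ) : k) x y) :
    x ≠ 0 ∧ 2 * y - x - 10 / 3 ≠ 0 ∧ y - 4 / 3 ≠ 0 ∧ x + 2 - y ≠ 0 := by
  have h3 := h.yab_ne (-1 / 2) (-5 / 3)
  have h4 := h.yab_ne 0 (-4 / 3)
  have h5 := h.yab_ne (-1) (-2)
  simp only [map_neg, map_one, map_zero, map_ofNat, map_div₀] at h3 h4 h5
  refine ⟨h.x_ne, fun e => h3 ?_, fun e => h4 ?_, fun e => h5 ?_⟩
  · linear_combination (1 / 2) * e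
  · linear_combination e
  · linear_combination -e

lemma nz12_ne' [CharZero k] [CharZero F] (h : Gen ((10 / 3 : ℚ) : k) ((2 : ℚ) : k) x y) :
    x - 2 ≠ 0 ∧ x - 10 ≠ 0 ∧ x - 10 / 3 ≠ 0 ∧ x + 2 / 3 ≠ 0 ∧ x - 10 / 9 ≠ 0 ∧
    y ≠ 0 ∧ y - 2 * x ≠ 0 ∧ y - 2 / 3 * x ≠ 0 ∧ y - 10 / 3 * x ≠ 0 ∧ y + 2 * x ≠ 0 ∧
    3 * x + 10 / 3 - y ≠ 0 ∧ y + 1 / 3 * x - 10 / 9 ≠ 0 ∧ 4 / 3 * x + 20 / 9 - y ≠ 0 := by
  have h1 := h.xc_ne 2
  have h2 := h.xc_ne 10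
  have h3 := h.xc_ne (10 / 3)
  have h4 := h.xc_ne (-2 / 3)
  have h5 := h.xc_ne (10 / 9)
  have h6 := h.yab_ne (-2) 0
  have h7 := h.yab_ne (-2 / 3) 0
  have h8 := h.yab_ne (-10 / 3) 0
  have h9 := h.yab_ne 2 0
  have h10 := h.yab_ne (-3) (-10 / 3)
  have h11 := h.yab_ne (1 / 3) (-10 / 9)
  have h12 := h.yab_ne (-4 / 3) (-20 / 9)
  simp only [map_neg, map_one, map_zero, map_ofNat, map_div₀] at h1 h2 h3 h4 h5 h6 h7 h8 h9 h10 h11 h12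
  refine ⟨h1, h2, h3, fun e => h4 ?_, h5, h.y_ne, fun e => h6 ?_, fun e => h7 ?_, fun e => h8 ?_,
    fun e => h9 ?_, fun e => h10 ?_, fun e => h11 ?_, fun e => h12 ?_⟩
  · linear_combination e
  · linear_combination e
  · linear_combination e
  · linear_combination e
  · linear_combination e
  · linear_combination -e
  · linear_combination e
  · linear_combination -e

lemma real12 (U V : ℝ) (hnz : ∀ e ∈ nz12, e.ev U V ≠ 0) :
    U ≠ 0 ∧ 2 * V - U - 10 / 3 ≠ 0 ∧ V - 4 / 3 ≠ 0 ∧ U + 2 - V ≠ 0 := by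
  simp only [nz12, List.mem_cons, List.not_mem_nil, or_false, forall_eq_or_imp, forall_eq,
    Q2.ev_x, Q2.ev_y, Q2.ev_c, Q2.ev_sub, Q2.ev_add, Q2.ev_mul] at hnz
  push_cast at hnz
  exact hnz

theorem rz12a [CharZero k] (φ : k →+* ℝ) (h : Gen ((10 / 3 : ℚ) : k) ((2 : ℚ) : k) x y)
    (htop : IntermediateField.adjoin k {x, y} = ⊤) : RZ φ x y circ12.X circ12.Y (
    ∑ i : Fin 12 × Fin 8, w12 i.2 • K4M.hk (K4M.sy ((f12 i.2).ev
        (It (10 / 3 : F) i.1.val (x, y)).1 (It (10 / 3 : F) i.1.val (x, y)).2))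
      (K4M.lg ((u12 i.2).ev (It (10 / 3 : F) i.1.val (x, y)).1
        (It (10 / 3 : F) i.1.val (x, y)).2))) := by
  have : CharZero F := charZero_of_injective_algebraMap (algebraMap k F).injective
  have ebF : ((10 / 3 : ℚ) : F) = 10 / 3 := by norm_num
  have ebR : ((10 / 3 : ℚ) : ℝ) = 10 / 3 := by norm_num
  have ecR : ((2 : ℚ) : ℝ) = 2 := by norm_num
  have heq : ∀ {U V : ℝ}, V ^ 2 + (1 - ((2 : ℚ) : ℝ)) * U * V - ((10 / 3 : ℚ) : ℝ) * V =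
      U ^ 3 - ((10 / 3 : ℚ) : ℝ) * U ^ 2 → V ^ 2 - U * V - 10 / 3 * V = U ^ 3 - 10 / 3 * U ^ 2 := by
    intro U V he
    rw [ebR, ecR] at he
    linear_combination he
  have key := eng3R φ (10 / 3) 2 (by norm_num) h htop (fun _ _ _ => True) circ12
    (fun i : Fin 12 × Fin 8 => f12 i.2) (fun i => u12 i.2) (fun i => i.1.val)
    (fun i => i.1.val) (fun i => w12 i.2) nz12 ?_ ?_ ?_ ?_ ?_
    (0, 0) rfl (by decide) ?_
  · rw [ebF] at key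
    exact key
  · intro x' y' hg
    simp only [nz12, List.mem_cons, List.not_mem_nil, or_false, forall_eq_or_imp, forall_eq,
      Q2.ev_x, Q2.ev_y, Q2.ev_c, Q2.ev_sub, Q2.ev_add, Q2.ev_mul]
    have := nz12_ne hg
    push_cast
    exact this
  · intro x' y' hg i
    obtain ⟨a1, a2, a3, a4⟩ := nz12_ne hg
    obtain ⟨b1, b2, b3, b4, b5, b6, b7, b8, b9, b10, b11, b12, b13⟩ := nz12_ne' hg
    have n2 : (2 : F) ≠ 0 := by norm_num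
    have n4 : (4 : F) ≠ 0 := by norm_num
    have n12 : (12 : F) ≠ 0 := by norm_num
    have d2 : (2 : F) * x' ≠ 0 := mul_ne_zero n2 a1
    have d4 : (4 : F) * x' ≠ 0 := mul_ne_zero n4 a1
    have m10 : (10 : F) - x' ≠ 0 := fun e => b2 (by linear_combination -e)
    have c1 : f1.ev x' y' ≠ 0 ∧ f1.ev x' y' ≠ 1 := by
      rw [ev_f1]
      refine ⟨div_ne_zero (fun e => b1 (by linear_combination -e)) n2, fun e => a1 ?_⟩
      rw [div_eq_one_iff_eq n2] at e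
      linear_combination -e
    have c2 : f2.ev x' y' ≠ 0 ∧ f2.ev x' y' ≠ 1 := by
      rw [ev_f2]
      refine ⟨div_ne_zero (fun e => b4 (by linear_combination (1 / 3) * e)) n12, fun e => b3 ?_⟩
      rw [div_eq_one_iff_eq n12] at e
      linear_combination (1 / 3) * e
    have c3 : f3.ev x' y' ≠ 0 ∧ f3.ev x' y' ≠ 1 := by
      rw [ev_f3]
      refine ⟨div_ne_zero m10 d2, fun e => b3 ?_⟩
      rw [div_eq_one_iff_eq d2] at e
      linear_combination (-1 / 3) * e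
    have c4 : f4.ev x' y' ≠ 0 ∧ f4.ev x' y' ≠ 1 := by
      rw [ev_f4]
      refine ⟨div_ne_zero m10 d4, fun e => b1 ?_⟩
      rw [div_eq_one_iff_eq d4] at e
      linear_combination (-1 / 5) * e
    have tA : uA.ev x' y' ≠ 0 := by
      rw [ev_uA]; exact div_ne_zero a3 a4
    have tA' : uA'.ev x' y' ≠ 0 := by
      rw [ev_uA']; exact div_ne_zero a4 a3
    have tB : uB.ev x' y' ≠ 0 := by
      rw [ev_uB]
      exact div_ne_zero b10 b11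
    have tL : uL.ev x' y' ≠ 0 := by
      rw [ev_uL]; exact div_ne_zero b12 b13
    obtain ⟨i, m⟩ := i
    fin_cases m
    · exact ⟨c1.1, c1.2, tA⟩
    · exact ⟨c1.1, c1.2, tL⟩
    · exact ⟨c2.1, c2.2, tA'⟩
    · exact ⟨c3.1, c3.2, tA⟩
    · exact ⟨c3.1, c3.2, tL⟩
    · exact ⟨c3.1, c3.2, tB⟩
    · exact ⟨c4.1, c4.2, tA⟩
    · exact ⟨c4.1, c4.2, tB⟩
  · intro i U V hnz
    obtain ⟨a1, a2, a3, a4⟩ := real12 U V hnz
    have o1 : f1.ok U V := by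
      refine ⟨⟨trivial, trivial⟩, trivial, ?_⟩
      show ((2 : ℚ) : ℝ) ≠ 0
      norm_num
    have o2 : f2.ok U V := by
      refine ⟨⟨⟨trivial, trivial⟩, trivial⟩, trivial, ?_⟩
      show ((12 : ℚ) : ℝ) ≠ 0
      norm_num
    have o3 : f3.ok U V := by
      refine ⟨⟨trivial, trivial⟩, ⟨trivial, trivial⟩, ?_⟩
      show ((2 : ℚ) : ℝ) * U ≠ 0
      exact mul_ne_zero (by norm_num) a1
    have o4 : f4.ok U V := by
      refine ⟨⟨trivial, trivial⟩, ⟨trivial, trivial⟩, ?_⟩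
      show ((4 : ℚ) : ℝ) * U ≠ 0
      exact mul_ne_zero (by norm_num) a1
    obtain ⟨i, m⟩ := i
    fin_cases m
    · exact o1
    · exact o1
    · exact o2
    · exact o3
    · exact o3
    · exact o3
    · exact o4
    · exact o4
  · intro n U V he hU hnz hC
    trivial
  · intro i U V U' V' he hU hnz hC he' hU' hnz' hC' hjl
    obtain ⟨rfl, rfl⟩ := hjl rfl
    replace he := heq he
    have SA := sA he
    have SA' := sA' he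
    have SB := sB he
    have SL := sL he
    obtain ⟨i, m⟩ := i
    fin_cases m
    · show f1.dv ((10 / 3 : ℚ) : ℝ) ((2 : ℚ) : ℝ) _ _ * Real.log (uA.ev _ _) ≤ 0
      rw [d_f1, ev_uA]
      exact sg' (by norm_num) SA
    · show f1.dv ((10 / 3 : ℚ) : ℝ) ((2 : ℚ) : ℝ) _ _ * Real.log (uL.ev _ _) ≤ 0
      rw [d_f1, ev_uL]
      exact sg' (by norm_num) SL
    · show f2.dv ((10 / 3 : ℚ) : ℝ) ((2 : ℚ) : ℝ) _ _ * Real.log (uA'.ev _ _) ≤ 0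
      rw [d_f2, ev_uA']
      exact sg (by norm_num) SA'
    · show f3.dv ((10 / 3 : ℚ) : ℝ) ((2 : ℚ) : ℝ) _ _ * Real.log (uA.ev _ _) ≤ 0
      rw [d_f3, ev_uA]
      exact sg' (by norm_num) SA
    · show f3.dv ((10 / 3 : ℚ) : ℝ) ((2 : ℚ) : ℝ) _ _ * Real.log (uL.ev _ _) ≤ 0
      rw [d_f3, ev_uL]
      exact sg' (by norm_num) SL
    · show f3.dv ((10 / 3 : ℚ) : ℝ) ((2 : ℚ) : ℝ) _ _ * Real.log (uB.ev _ _) ≤ 0
      rw [d_f3, ev_uB]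
      exact sg' (by norm_num) SB
    · show f4.dv ((10 / 3 : ℚ) : ℝ) ((2 : ℚ) : ℝ) _ _ * Real.log (uA.ev _ _) ≤ 0
      rw [d_f4, ev_uA]
      exact sg' (by norm_num) SA
    · show f4.dv ((10 / 3 : ℚ) : ℝ) ((2 : ℚ) : ℝ) _ _ * Real.log (uB.ev _ _) ≤ 0
      rw [d_f4, ev_uB]
      exact sg' (by norm_num) SB
  · intro U V he hU hnz hC
    replace he := heq he
    obtain ⟨a1, a2, a3, a4⟩ := real12 _ _ hnz
    have h1 := sA0 he a2 a3 a4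
    show f1.dv ((10 / 3 : ℚ) : ℝ) ((2 : ℚ) : ℝ) U V * Real.log (uA.ev U V) < 0
    rw [d_f1, ev_uA]
    have e : ∀ L : ℝ, -(2 * (2 * V - U - 10 / 3) / 2 ^ 2) * L =
        -(2 / 2 ^ 2 * ((2 * V - U - 10 / 3) * L)) := fun L => by ring
    rw [e]
    exact neg_neg_of_pos (mul_pos (by norm_num) h1)

end Q12

end Pool.Agent.K4N
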