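import Pool.Agent.Lib_helper54.FAM.D6c
import Pool.Agent.Lib_helper60.N6S.J
import Pool.Agent.Lib_helper24.TN.KB

set_option autoImplicit false
set_option linter.unusedVariables false
set_option linter.unusedSectionVars false

/-!
# The regulator for points of order six, `t = 1/3`
-/

namespace Pool.Agent.K4N.R6c

open Filter Topology Pool.Agent.K4N.LA Pool.Agent.K4N.PC Pool.Agent.KC72 Pool.Agent.TN
open Pool.Agent.AX (El pev)
open Pool.Agent.N6S (clsS0 glS)
open scoped TensorProduct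

/-- the largest root -/
noncomputable def e0 : ℝ := Real.sqrt (4 / 27)

lemma e0_sq : e0 ^ 2 = 4 / 27 := Real.sq_sqrt (by norm_num)

lemma e0_gt : 1 / 3 < e0 := by
  have h0 : 0 ≤ e0 := Real.sqrt_nonneg _
  have h := e0_sq
  by_contra hh
  push Not at hh
  nlinarith

/-- the component of the origin -/
noncomputable def circ : Circ ((4 / 9 : ℚ) : ℝ) ((1 / 3 : ℚ) : ℝ) (fun U _ => 1 / 3 < U) := by
  refine mkCirc _ _ e0 (4 * (e0 - 1 / 3)) (-(4 / 3) * e0) _ ?_ ?_ ?_
  · intro x
    have h := e0_sq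
    push_cast
    linear_combination (4 * x - 4 / 3 : ℝ) * h
  · intro x hx
    have h := e0_gt
    have h1 : 0 < x - 1 / 3 := by linarith
    have h2 : 0 < x + e0 := by linarith
    have := mul_pos h1 h2
    nlinarith
  · intro s hs V _
    have h := e0_gt
    have := sq_nonneg s
    linarith

/-- the pattern of the arc -/
def p0 : List Bool := [false, false, false, false, false, false, false]

/-- the patterns on the component -/
def pats : List (List Bool) :=
  [[false, false, false, false, false, false, false],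
   [false, true, false, false, true, false, false],
   [false, false, false, true, true, false, false]]

theorem cR : chkReach AM 2 p0 pats = true := by decide +kernel

/-- the values of the generators -/
lemma BV_eq {K : Type*} [Field K] [CharZero K] (U V : K) : BV gs ks U V =
    [U, (9 * U - 4) / 9, (3 * U - 1) / 3, V, (3 * V - U) / 3, 2, 3] := by
  simp only [BV, BE, gs, ks, List.map_cons, List.map_nil, List.cons_append, List.nil_append, El.v,
    pev]
  push_cast
  congr 1
  · ring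
  congr 1
  · ring
  congr 1
  · ring
  congr 1
  · ring
  congr 1
  · ring
  congr 1
  · ring
  congr 1
  · ring

lemma BV_gl {k F : Type*} [Field k] [CharZero k] [Field F] [Algebra k F] (x y : F) :
    BV gs ks x y = glS 0 (1 / 3 : k) x y := by
  have : CharZero F := charZero_of_injective_algebraMap (algebraMap k F).injective
  rw [BV_eq]
  unfold glS
  have e1 : algebraMap k F ((1 / 3) ^ 2 + 1 / 3) = 4 / 9 := by
    rw [map_add, map_pow, map_div₀, map_one, map_ofNat]
    norm_num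
  have e2 : algebraMap k F (1 / 3) = 1 / 3 := by
    rw [map_div₀, map_one, map_ofNat]
  have e3 : (N6S.pr 0 : F) = 3 := by
    show ((3 : ℕ) : F) = 3
    norm_num
  rw [e1, e2, e3]
  congr 1
  congr 1
  · field_simp
  congr 1
  · field_simp
  congr 1
  congr 1
  · field_simp

lemma gen_ne {k F : Type*} [Field k] [CharZero k] [Field F] [Algebra k F] {x y : F}
    (h : Gen ((4 / 9 : ℚ) : k) ((1 / 3 : ℚ) : k) x y) :
    (∀ z ∈ BV gs ks x y, z ≠ 0) ∧ ∀ l ∈ sp, pev x l ≠ 0 := by
  have : CharZero F := charZero_of_injective_algebraMap (algebraMap k F).injective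
  have h1 := h.xc_ne (4 / 9)
  have h2 := h.xc_ne (1 / 3)
  have h3 := h.yab_ne (-1 / 3) 0
  have h4 := h.xc_ne (2 / 3)
  have h5 := h.xc_ne (4 / 3)
  simp only [map_neg, map_one, map_zero, map_ofNat, map_div₀] at h1 h2 h3 h4 h5
  constructor
  · rw [BV_eq]
    simp only [List.forall_mem_cons]
    refine ⟨h.x_ne, fun e => h1 ?_, fun e => h2 ?_, h.y_ne, fun e => h3 ?_, two_ne_zero,
      three_ne_zero, by simp⟩
    · linear_combination e
    · linear_combination e
    · linear_combination e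
  · simp only [sp, List.forall_mem_cons, pev]
    push_cast
    refine ⟨fun e => h4 ?_, fun e => h5 ?_, by simp⟩
    · linear_combination (1 / 3) * e
    · linear_combination (1 / 3) * e

lemma hden : chkDen gs = true := by decide

/-- the classes -/
lemma sols {K : Type*} [Field K] [CharZero K] {U V : K} (he : V ^ 2 + (1 - ((1 / 3 : ℚ) : K)) * U *
    V - ((4 / 9 : ℚ) : K) * V = U ^ 3 - ((4 / 9 : ℚ) : K) * U ^ 2)
    (hB : ∀ z ∈ BV gs ks U V, z ≠ 0) : Sols (BV gs ks U V) clsS0 :=
  AX.sols_chk (cv_eq (bn := 4) (bd := 9) (cn := 1) (ce := 3) (by norm_num) (by norm_num) he)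
    (by decide) (BE_d hden) hB cS

/-- the signs on the component -/
lemma pat_mem {U V : ℝ} (he : V ^ 2 + (1 - ((1 / 3 : ℚ) : ℝ)) * U * V - ((4 / 9 : ℚ) : ℝ) * V =
    U ^ 3 - ((4 / 9 : ℚ) : ℝ) * U ^ 2) (hU : 1 / 3 < U) (hB : ∀ z ∈ BV gs ks U V, z ≠ 0) :
    pat (BV gs ks U V) ∈ pats := by
  rw [BV_eq] at hB ⊢
  push_cast at he
  simp only [List.forall_mem_cons] at hB
  obtain ⟨-, h1, -, h3, h4, -⟩ := hB
  have k1 : V * (V + 2 / 3 * U - 4 / 9) = U ^ 2 * (U - 4 / 9) := by linear_combination he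
  have k2 : (V - U / 3) * (V + U - 4 / 9) = U * (U - 1 / 3) * (U - 4 / 9) := by
    linear_combination he
  have a0 : ¬ (U < 0) := by linarith
  have a2 : ¬ ((3 * U - 1) / 3 < 0) := by linarith
  have a5 : ¬ ((2 : ℝ) < 0) := by norm_num
  have a6 : ¬ ((3 : ℝ) < 0) := by norm_num
  have u2 : 0 < U ^ 2 := by positivity
  have u3 : 0 < U * (U - 1 / 3) := mul_pos (by linarith) (by linarith)
  rcases lt_or_gt_of_ne h1 with g1 | g1
  · -- the middle arc
    have b1 : U - 4 / 9 < 0 := by linarith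
    have c1 : V * (V + 2 / 3 * U - 4 / 9) < 0 := by
      rw [k1]
      exact mul_neg_of_pos_of_neg u2 b1
    have c2 : (V - U / 3) * (V + U - 4 / 9) < 0 := by
      rw [k2]
      exact mul_neg_of_pos_of_neg u3 b1
    have a3 : ¬ (V < 0) := by
      intro h
      have : 0 < V * (V + 2 / 3 * U - 4 / 9) := mul_pos_of_neg_of_neg h (by linarith)
      linarith
    have a4 : (3 * V - U) / 3 < 0 := by
      by_contra h
      push Not at h
      have : 0 ≤ (V - U / 3) * (V + U - 4 / 9) := mul_nonneg (by linarith) (by linarith)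
      linarith
    simp [pat, pats, a0, g1, a2, a3, a4, a5, a6]
  · have b1 : 0 < U - 4 / 9 := by linarith
    have c1 : 0 < V * (V + 2 / 3 * U - 4 / 9) := by
      rw [k1]
      exact mul_pos u2 b1
    have c2 : 0 < (V - U / 3) * (V + U - 4 / 9) := by
      rw [k2]
      exact mul_pos u3 b1
    have g1' : ¬ ((9 * U - 4) / 9 < 0) := by linarith
    rcases lt_or_gt_of_ne h3 with g3 | g3
    · have a4 : (3 * V - U) / 3 < 0 := by linarith
      simp [pat, pats, a0, g1', a2, g3, a4, a5, a6]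
    · have a3 : ¬ (V < 0) := by linarith
      have a4 : ¬ ((3 * V - U) / 3 < 0) := by
        intro h
        have : (V - U / 3) * (V + U - 4 / 9) < 0 := mul_neg_of_neg_of_pos (by linarith) (by linarith)
        linarith
      simp [pat, pats, a0, g1', a2, a3, a4, a5, a6]

lemma tr : Tr (4 / 9) (1 / 3) gs ks AM :=
  Tr.of_chk (bn := 4) (bd := 9) (cn := 1) (ce := 3) (by norm_num) (by norm_num) (by norm_num)
    (by norm_num) (by decide) cT

/-- positivity on the arc -/
lemma arc_pos (p : ℝ × ℝ) (κ : ℝ) (hκ : 0 < κ)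
    (hg : Good ((4 / 9 : ℚ) : ℝ) ((1 / 3 : ℚ) : ℝ) gs ks sp p)
    (hp : pat (BV gs ks p.1 p.2) = p0) :
    0 < ((L6cs.map (lt clsS0)).map fun t => t.tri (aL gs ks p)
      (dL ((4 / 9 : ℚ) : ℝ) ((1 / 3 : ℚ) : ℝ) gs κ p)).sum := by
  have h0 := hg.hB
  rw [BV_eq] at hp h0
  simp only [List.forall_mem_cons] at h0
  obtain ⟨n0, n1, n2, n3, n4, -⟩ := h0
  simp only [pat, p0, List.map_cons, List.map_nil, List.cons.injEq, decide_eq_false_iff_not,
    not_lt] at hp
  obtain ⟨q0, q1, q2, q3, q4, -⟩ := hp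
  have m0 := lt_of_le_of_ne q0 (Ne.symm n0)
  have m1 := lt_of_le_of_ne q1 (Ne.symm n1)
  have m2 := lt_of_le_of_ne q2 (Ne.symm n2)
  have m3 := lt_of_le_of_ne q3 (Ne.symm n3)
  have m4 := lt_of_le_of_ne q4 (Ne.symm n4)
  have hb : (4 / 9 : ℚ) * ((9 : ℤ) : ℚ) = ((4 : ℤ) : ℚ) := by norm_num
  have hc : (1 / 3 : ℚ) * ((3 : ℤ) : ℚ) = ((1 : ℤ) : ℚ) := by norm_num
  have hl : chkLin gs = true := by decide
  have hP : arc.chkP gs.length (L6cs.map (lt clsS0)) = true := cP
  refine Arc.pos hb hc (by norm_num) (by norm_num) hl hP cU cW hκ hg ?_ ?_ ?_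
  · rw [BV_eq]
    simp only [List.forall_mem_cons]
    exact ⟨m0, m1, m2, m3, m4, two_pos, three_pos, by simp⟩
  · constructor
    · show ((4 : ℤ) : ℝ) < ((9 : ℤ) : ℝ) * p.1
      push_cast
      linarith
    · show ((0 : ℤ) : ℝ) * p.1 < ((1 : ℤ) : ℝ)
      push_cast
      linarith
  · push_cast
    linarith

/-- **The sum of the densities is positive** along any path on the component. -/
theorem pos6c {X Y κ : ℝ → ℝ} {s : ℝ}
    (hp : Path ((4 / 9 : ℚ) : ℝ) ((1 / 3 : ℚ) : ℝ) (NQ gs ks sp) 5 X Y κ s) (hC : 1 / 3 < X s) :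
    0 < ((L6cs.map (lt clsS0)).map fun t => t.tri (aL gs ks (X s, Y s))
      (dL ((4 / 9 : ℚ) : ℝ) ((1 / 3 : ℚ) : ℝ) gs (κ s) (X s, Y s))).sum := by
  refine pos_arc tr hp cI (M := 2) (by norm_num) (p0 := p0) ?_ arc_pos
  refine reach cR (pat_mem ((hp.ok.self_of_nhds 0 (by norm_num)).eq) hC ?_)
  exact ((good_of hp).self_of_nhds 0 (by norm_num)).hB

section

variable {k F : Type*} [Field k] [Field F] [Algebra k F] {x y : F}

/-- **The regulator is not zero.** -/
theorem rz6c [CharZero k] (φ : k →+* ℝ) (h : Gen ((4 / 9 : ℚ) : k) ((1 / 3 : ℚ) : k) x y)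
    (htop : IntermediateField.adjoin k {x, y} = ⊤) :
    RZ φ x y circ.X circ.Y (KC72.zt (glS 0 (1 / 3 : k) x y) clsS0 L6cs) := by
  have : CharZero F := charZero_of_injective_algebraMap (algebraMap k F).injective
  rw [← BV_gl]
  have he : y ^ 2 + (1 - ((1 / 3 : ℚ) : F)) * x * y - ((4 / 9 : ℚ) : F) * y =
      x ^ 3 - ((4 / 9 : ℚ) : F) * x ^ 2 := by
    have := h.eq
    rwa [map_ratCast, map_ratCast] at this
  refine rz_zt φ (4 / 9) (1 / 3) (by norm_num) h htop circ sp 5 (by norm_num) hden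
    (fun x' y' h' => gen_ne h') (sols he (gen_ne h).1) (fun U V heR hBR => sols heR hBR)
    (by decide) fun X Y κ s hp hC => pos6c hp hC

/-- **The regulator is not zero.** -/
theorem rn6c [CharZero k] (φ : k →+* ℝ) (h : Gen (4 / 9 : k) (1 / 3) x y)
    (htop : IntermediateField.adjoin k {x, y} = ⊤) :
    FK4.RegNe φ (KC72.zt (glS 0 (1 / 3 : k) x y) clsS0 L6cs) := by
  have h' : Gen ((4 / 9 : ℚ) : k) ((1 / 3 : ℚ) : k) x y := by
    push_cast
    exact h
  exact (rz6c φ h' htop).regNe (Xp_tendsto _) h' htop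

/-- **The regulator is not zero** for the elements of which the class is a multiple. -/
theorem rn6c_of [CharZero k] {t : k} (ht : 3 * t = 1) (φ : k →+* ℝ) (h : N6.G6 t x y)
    (htop : IntermediateField.adjoin k {x, y} = ⊤) (β : ℚ) (ξ : MK4.HK F)
    (hβ : KC72.zt (glS 0 t x y) clsS0 L6cs - β • ξ ∈ MK4.Cst k F) : FK4.RegNe φ ξ := by
  have ht' : t = 1 / 3 := by
    rw [eq_div_iff three_ne_zero]
    linear_combination ht
  subst ht'
  have h' : Gen ((4 / 9 : ℚ) : k) ((1 / 3 : ℚ) : k) x y := by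
    have e1 : ((4 / 9 : ℚ) : k) = (1 / 3) ^ 2 + 1 / 3 := by
      push_cast
      norm_num
    have e2 : ((1 / 3 : ℚ) : k) = 1 / 3 := by
      push_cast
      rfl
    rw [e1, e2]
    exact h
  rw [← TN.KC_eq] at hβ
  exact ((rz6c φ h' htop).of_smul β (mem_span_of_KC hβ)).regNe (Xp_tendsto _) h' htop

end

end Pool.Agent.K4N.R6c
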