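import Pool.Agent.Lib_helper54.FAM.Res

set_option autoImplicit false
set_option linter.unusedSectionVars false

/-!
Residues at the places (valuations trivial on the constants) for a point of order six:
`b = c + c²`, `y² + (1-c)xy - by = x³ - bx²`, `ψ = (x+y-b)/(y-cx)`, `ȳ = -y-(1-c)x+b`.
-/

namespace Pool.Agent.FK4R

open Pool.Agent.K4R
open scoped WithZero TensorProduct

section sym

variable {F : Type*} [Field F] [CharZero F] {v : Valuation F ℤᵐ⁰} [Infinite (rf v)]

lemma b2_self_neg {M : Type*} [AddCommGroup M] [Module ℚ M] {x : M} (h : x = -x) : x = 0 := by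
  have h2 : (2 : ℚ) • x = 0 := by
    rw [two_smul]; nth_rewrite 1 [h]; abel
  exact (smul_eq_zero.mp h2).resolve_left two_ne_zero

lemma sp_two : sp v (2 : F) = 0 := by
  have h : sp v (2 : F)⁻¹ = - sp v (2 : F)⁻¹ := by
    have := sp_compl v ((2 : F)⁻¹)
    rw [show 1 - (2 : F)⁻¹ = 2⁻¹ by norm_num] at this
    exact this
  have h2 := b2_self_neg h
  rw [sp_inv] at h2
  exact neg_eq_zero.mp h2

lemma sp_neg_one : sp v (-1 : F) = 0 := by
  have := sp_compl v (2 : F)
  rw [show 1 - (2 : F) = -1 by norm_num, sp_two, neg_zero] at this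
  exact this

/-- near a nonzero constant -/
lemma sp_close {r s d : F} (hs : s ≠ 0) (h : r - d = s) (ho : 0 < od v s) :
    sp v r = sp v d := by
  classical
  refine sp_congr v ?_
  rw [h]
  exact v_lt_of_od hs ho

end sym

section six

variable {F : Type*} [Field F] [CharZero F] [DecidableEq F] {v : Valuation F ℤᵐ⁰}
  {b c x y : F}

/-- `ψ` -/
def psi (b c x y : F) : F := (x + y - b) / (y - c * x)

/-- `ȳ` -/
def yb (b c x y : F) : F := -y - (1 - c) * x + b

/-- a point of order six, in general position, and a valuation for which the constants are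
units -/
structure Six (v : Valuation F ℤᵐ⁰) (b c x y : F) : Prop where
  eq : y ^ 2 + (1 - c) * x * y - b * y = x ^ 3 - b * x ^ 2
  hb : b = c + c ^ 2
  x0 : x ≠ 0
  xb : x - b ≠ 0
  xc : x - c ≠ 0
  y0 : y ≠ 0
  z0 : y - c * x ≠ 0
  vc : v c = 1
  vc1 : v (1 + c) = 1

namespace Six

variable (h : Six v b c x y)
include h

lemma c0 : c ≠ 0 := by
  rintro rfl
  have := h.vc
  rw [map_zero] at this
  exact zero_ne_one this

lemma c1 : 1 + c ≠ 0 := by
  intro h1
  have := h.vc1
  rw [h1, map_zero] at this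
  exact zero_ne_one this

lemma b_eq : b = c * (1 + c) := by rw [h.hb]; ring

lemma b0 : b ≠ 0 := by
  rw [h.b_eq]; exact mul_ne_zero h.c0 h.c1

lemma odc : od v c = 0 := od_of_v_one h.vc

lemma odc1 : od v (1 + c) = 0 := od_of_v_one h.vc1

lemma odb : od v b = 0 := by
  rw [h.b_eq, od_mul v h.c0 h.c1, h.odc, h.odc1, add_zero]

lemma prod : (x + y - b) * (y - c * x) = x * (x - b) * (x - c) := by
  linear_combination h.eq

lemma s0 : x + y - b ≠ 0 := by
  intro h1
  have := h.prod
  rw [h1, zero_mul] at this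
  exact mul_ne_zero (mul_ne_zero h.x0 h.xb) h.xc this.symm

lemma prodb : y * yb b c x y = - (x ^ 2 * (x - b)) := by
  unfold yb
  linear_combination (-1) * h.eq

lemma yb0 : yb b c x y ≠ 0 := by
  intro h1
  have := h.prodb
  rw [h1, mul_zero] at this
  exact mul_ne_zero (pow_ne_zero 2 h.x0) h.xb (neg_eq_zero.mp this.symm)

lemma psi0 : psi b c x y ≠ 0 := div_ne_zero h.s0 h.z0

lemma compl : psi b c x y - 1 = (1 + c) * (x - c) / (y - c * x) := by
  unfold psi
  rw [div_sub_one h.z0, h.hb]
  congr 1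
  ring

lemma e1 : od v (x + y - b) + od v (y - c * x) = od v x + od v (x - b) + od v (x - c) := by
  rw [← od_mul v h.s0 h.z0, h.prod, od_mul v (mul_ne_zero h.x0 h.xb) h.xc,
    od_mul v h.x0 h.xb]

lemma e2 : od v y + od v (yb b c x y) = 2 * od v x + od v (x - b) := by
  rw [← od_mul v h.y0 h.yb0, h.prodb, od_neg, od_mul v (pow_ne_zero 2 h.x0) h.xb, pow_two,
    od_mul v h.x0 h.x0]
  ring

lemma tA : min (od v (x - b)) 0 ≤ od v x ∧ min (od v x) 0 ≤ od v (x - b) ∧
    min (od v x) (od v (x - b)) ≤ 0 := by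
  have := tri (v := v) h.xb h.b0 h.x0 (by ring)
  rwa [h.odb] at this

lemma tC : min (od v (x - c)) 0 ≤ od v x ∧ min (od v x) 0 ≤ od v (x - c) ∧
    min (od v x) (od v (x - c)) ≤ 0 := by
  have := tri (v := v) h.xc h.c0 h.x0 (by ring)
  rwa [h.odc] at this

lemma tAC : min (od v (x - b)) (od v (x - c)) ≤ 0 := by
  have e : x - b + c ^ 2 = x - c := by rw [h.hb]; ring
  have := tri (v := v) h.xb (pow_ne_zero 2 h.c0) h.xc e
  rw [pow_two, od_mul v h.c0 h.c0, h.odc] at this
  have := this.2.2
  omega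

lemma tZ : min (od v (y - c * x)) (od v (x - c)) ≤ od v (x + y - b) ∧
    min (od v (x + y - b)) (od v (x - c)) ≤ od v (y - c * x) ∧
    min (od v (x + y - b)) (od v (y - c * x)) ≤ od v (x - c) := by
  have e : y - c * x + (1 + c) * (x - c) = x + y - b := by rw [h.hb]; ring
  have := tri (v := v) h.z0 (mul_ne_zero h.c1 h.xc) h.s0 e
  rwa [od_mul v h.c1 h.xc, h.odc1, zero_add] at this

lemma od_psi : od v (psi b c x y) = od v (x + y - b) - od v (y - c * x) := by
  unfold psi
  rw [od_div v h.s0 h.z0]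

/-- at every place the symbol of `ψ` is zero, or `x`, `x - b`, `x - c` are units -/
theorem psi_or : sp v (psi b c x y) = 0 ∨
    (od v x = 0 ∧ od v (x - b) = 0 ∧ od v (x - c) = 0) := by
  have a1 := h.e1
  have a2 := h.tA
  have a3 := h.tC
  have a4 := h.tAC
  have a5 := h.tZ
  have a6 := h.od_psi
  by_cases h1 : od v (psi b c x y) = 0
  · by_cases h2 : 0 < od v (x - c) - od v (y - c * x)
    · left
      refine sp_near (div_ne_zero (mul_ne_zero h.c1 h.xc) h.z0) h.compl ?_
      rw [od_div v (mul_ne_zero h.c1 h.xc) h.z0, od_mul v h.c1 h.xc, h.odc1, zero_add]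
      exact h2
    · right
      generalize od v (psi b c x y) = P at *
      generalize od v (x + y - b) = S at *
      generalize od v (y - c * x) = Z at *
      generalize od v (x - b) = A at *
      generalize od v (x - c) = C at *
      generalize od v x = X at *
      omega
  · exact Or.inl (sp_od v h1)

/-- at every place, either `x` is not a unit, or `x ≡ b`, or `x`, `x - b`, `ψ` are units -/
theorem x_or : od v x ≠ 0 ∨ 0 < od v (x - b) ∨
    (od v x = 0 ∧ od v (x - b) = 0 ∧ od v (psi b c x y) = 0) := by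
  have a1 := h.e1
  have a2 := h.tA
  have a3 := h.tC
  have a4 := h.tAC
  have a5 := h.tZ
  have a6 := h.od_psi
  generalize od v (psi b c x y) = P at *
  generalize od v (x + y - b) = S at *
  generalize od v (y - c * x) = Z at *
  generalize od v (x - b) = A at *
  generalize od v (x - c) = C at *
  generalize od v x = X at *
  omega

/-- the same with `y` and `ȳ`, for `c = 1` -/
theorem y_or (hc : c = 1) : od v x ≠ 0 ∨ 0 < od v (x - b) ∨
    (od v y = 0 ∧ od v (yb b c x y) = 0 ∧ od v (psi b c x y) = 0) := by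
  have a0 := h.x_or
  have a2 := h.e2
  have a3 := h.tA
  have e : y + yb b c x y = b := by
    unfold yb
    rw [hc]; ring
  have a4 := tri (v := v) h.y0 h.yb0 h.b0 e
  rw [h.odb] at a4
  generalize od v (psi b c x y) = P at *
  generalize od v (x - b) = A at *
  generalize od v (yb b c x y) = B at *
  generalize od v y = Y at *
  generalize od v x = X at *
  omega

variable [Infinite (rf v)]

/-- `{ψ} ⊗ u`, `u` a product of powers of `x`, `x - b`, `x - c` and a unit -/
theorem res_psi {u : F} (hu : u ≠ 0)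
    (ho : od v x = 0 → od v (x - b) = 0 → od v (x - c) = 0 → od v u = 0) :
    resL v (K4M.hk (K4M.sy (psi b c x y)) (K4M.lg u)) = 0 := by
  refine term_zero hu fun h0 => ?_
  rcases h.psi_or with h1 | ⟨h1, h2, h3⟩
  · exact h1
  · exact absurd (ho h1 h2 h3) h0

/-- `{κ x} ⊗ u`, `u` a product of powers of `x`, `x - b`, `ψ`, if the symbol of `κ b` vanishes -/
theorem res_x {u κ : F} (hu : u ≠ 0) (hκ : v κ = 1) (hk : sp v (κ * b) = 0)
    (ho : od v x = 0 → od v (x - b) = 0 → od v (psi b c x y) = 0 → od v u = 0) :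
    resL v (K4M.hk (K4M.sy (κ * x)) (K4M.lg u)) = 0 := by
  have hκ0 : κ ≠ 0 := by
    rintro rfl
    rw [map_zero] at hκ
    exact zero_ne_one hκ
  refine term_zero hu fun h0 => ?_
  rcases h.x_or with h1 | h1 | ⟨h1, h2, h3⟩
  · refine sp_od v ?_
    rw [od_mul v hκ0 h.x0, od_of_v_one hκ, zero_add]
    exact h1
  · rw [← hk]
    refine sp_close (s := κ * (x - b)) (mul_ne_zero hκ0 h.xb) (by ring) ?_
    rw [od_mul v hκ0 h.xb, od_of_v_one hκ, zero_add]
    exact h1
  · exact absurd (ho h1 h2 h3) h0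

/-- `{κ x} ⊗ u`, `u` a product of powers of `y`, `ȳ`, `ψ`, `c = 1` -/
theorem res_xy (hc : c = 1) {u κ : F} (hu : u ≠ 0) (hκ : v κ = 1) (hk : sp v (κ * b) = 0)
    (ho : od v y = 0 → od v (yb b c x y) = 0 → od v (psi b c x y) = 0 → od v u = 0) :
    resL v (K4M.hk (K4M.sy (κ * x)) (K4M.lg u)) = 0 := by
  have hκ0 : κ ≠ 0 := by
    rintro rfl
    rw [map_zero] at hκ
    exact zero_ne_one hκ
  refine term_zero hu fun h0 => ?_
  rcases h.y_or hc with h1 | h1 | ⟨h1, h2, h3⟩
  · refine sp_od v ?_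
    rw [od_mul v hκ0 h.x0, od_of_v_one hκ, zero_add]
    exact h1
  · rw [← hk]
    refine sp_close (s := κ * (x - b)) (mul_ne_zero hκ0 h.xb) (by ring) ?_
    rw [od_mul v hκ0 h.xb, od_of_v_one hκ, zero_add]
    exact h1
  · exact absurd (ho h1 h2 h3) h0

end Six

end six

end Pool.Agent.FK4R
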