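import Pool.Agent.Lib_helper24.FAM.LK
import Pool.Agent.Lib_helper54.FAM.Res6

set_option autoImplicit false
set_option linter.unusedSectionVars false

/-!
Residues of explicit elements from local data: the order and the leading coefficient of every
generator at the place.
-/

namespace Pool.Agent.FK4R

open Pool.Agent.K4R Pool.Agent.KC72
open scoped WithZero TensorProduct

/-- a power of `± c_1^a_1 ⋯` -/
def mpw (a : Mo) (e : ℤ) : Mo := (a.1 && decide (e % 2 ≠ 0), a.2.map (fun z => e * z))

/-- the order and the leading coefficient of a monomial -/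
def lval : List (ℤ × Mo) → List ℤ → ℤ × Mo
  | l :: ls, e :: es => (l.1 * e + (lval ls es).1, (mpw l.2 e).mul (lval ls es).2)
  | _, _ => (0, (false, []))

/-- the symbol of a constant -/
def lkp (tab : List (Mo × ℤ)) (a : Mo) : Option ℤ :=
  match tab.find? (fun p => eqM p.1 a) with
  | some p => some p.2
  | none => none

/-- the residue of a term -/
def ctr (loc : List (ℤ × Mo)) (tab : List (Mo × ℤ)) (f : Mo) (u : List ℤ) : Option ℤ :=
  if (lval loc u).1 = 0 then some 0
  else if (lval loc f.2).1 ≠ 0 then some 0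
  else match lkp tab (xor f.1 (lval loc f.2).2.1, (lval loc f.2).2.2) with
    | some c => some ((lval loc u).1 * c)
    | none => none

/-- the residue of an element -/
def rsum (loc : List (ℤ × Mo)) (tab : List (Mo × ℤ)) (cls : List (Mo × Mo)) : List Tm → Option ℤ
  | [] => some 0
  | t :: L => match ctr loc tab (oo cls (t.c, t.s)) t.u, rsum loc tab cls L with
    | some a, some b => some (a + b)
    | _, _ => none

/-- all the residues vanish -/
def chkRes (locs : List (List (ℤ × Mo))) (tab : List (Mo × ℤ)) (cls : List (Mo × Mo))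
    (L : List Tm) : Bool :=
  locs.all fun loc => decide (rsum loc tab cls L = some 0)

section units

variable {F : Type*} [Field F] {v : Valuation F ℤᵐ⁰}

lemma u1_one : v ((1 : F) - 1) < 1 := by
  rw [sub_self, map_zero]; exact zero_lt_one

lemma u1_mul {u w : F} (hu : v (u - 1) < 1) (hw : v (w - 1) < 1) : v (u * w - 1) < 1 := by
  have e : u * w - 1 = u * (w - 1) + (u - 1) := by ring
  rw [e]
  refine Valuation.map_add_lt _ ?_ hu
  rw [map_mul, v_one_of v hu, one_mul]
  exact hw

lemma u1_inv {u : F} (hu : v (u - 1) < 1) : v (u⁻¹ - 1) < 1 := by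
  have h1 := v_one_of v hu
  have h0 : u ≠ 0 := by
    rintro rfl
    rw [map_zero] at h1
    exact zero_ne_one h1
  have e : u⁻¹ - 1 = -(u - 1) * u⁻¹ := by field_simp; ring
  rw [e, map_mul, map_inv₀, h1, inv_one, mul_one, Valuation.map_neg]
  exact hu

lemma u1_pow {u : F} (hu : v (u - 1) < 1) (n : ℕ) : v (u ^ n - 1) < 1 := by
  induction n with
  | zero => rw [pow_zero]; exact u1_one
  | succ n ih => rw [pow_succ]; exact u1_mul ih hu

lemma u1_zpow {u : F} (hu : v (u - 1) < 1) (n : ℤ) : v (u ^ n - 1) < 1 := by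
  obtain ⟨m, rfl | rfl⟩ := n.eq_nat_or_neg
  · rw [zpow_natCast]; exact u1_pow hu m
  · rw [zpow_neg, zpow_natCast]; exact u1_inv (u1_pow hu m)

/-- `z = κ t ^ m`, up to a unit congruent to one -/
def Lc (v : Valuation F ℤᵐ⁰) (z κ t : F) (m : ℤ) : Prop :=
  ∃ u : F, v (u - 1) < 1 ∧ z = κ * t ^ m * u

lemma Lc.zpow {z κ t : F} {m : ℤ} (h : Lc v z κ t m) (e : ℤ) :
    Lc v (z ^ e) (κ ^ e) t (m * e) := by
  obtain ⟨u, hu, rfl⟩ := h
  refine ⟨u ^ e, u1_zpow hu e, ?_⟩
  rw [mul_zpow, mul_zpow, ← zpow_mul]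

lemma Lc.mul {z κ z' κ' t : F} {m m' : ℤ} (ht : t ≠ 0) (h : Lc v z κ t m)
    (h' : Lc v z' κ' t m') : Lc v (z * z') (κ * κ') t (m + m') := by
  obtain ⟨u, hu, rfl⟩ := h
  obtain ⟨w, hw, rfl⟩ := h'
  refine ⟨u * w, u1_mul hu hw, ?_⟩
  rw [zpow_add₀ ht]
  ring

lemma Lc.ne {z κ t : F} {m : ℤ} (ht : t ≠ 0) (hκ : κ ≠ 0) (h : Lc v z κ t m) : z ≠ 0 := by
  obtain ⟨u, hu, rfl⟩ := h
  have h1 := v_one_of v hu
  have h0 : u ≠ 0 := by
    rintro rfl
    rw [map_zero] at h1
    exact zero_ne_one h1
  exact mul_ne_zero (mul_ne_zero hκ (zpow_ne_zero _ ht)) h0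

end units

section check

variable {F : Type*} [Field F] {v : Valuation F ℤᵐ⁰}

lemma ev_mpw {g : List F} (hg : ∀ x ∈ g, x ≠ 0) (a : Mo) (e : ℤ) :
    ev g (mpw a e) = ev g a ^ e := by
  have key : ∀ (g : List F) (l : List ℤ), evl g (l.map (fun z => e * z)) = evl g l ^ e := by
    intro g
    induction g with
    | nil => intro l; rw [evl_nil_left, evl_nil_left, one_zpow]
    | cons z g ih =>
      intro l
      cases l with
      | nil => rw [List.map_nil, evl_nil_right, one_zpow]
      | cons n l =>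
        rw [List.map_cons, evl_cons, evl_cons, ih, mul_zpow, mul_comm e n, zpow_mul]
  unfold ev mpw
  rw [key, mul_zpow]
  congr 1
  rcases a with ⟨_ | _, a⟩
  · simp
  · rcases Int.emod_two_eq_zero_or_one e with h | h
    · have : Even e := Int.even_iff.mpr h
      simp [h, this.neg_one_zpow]
    · have : Odd e := Int.odd_iff.mpr h
      simp [h, this.neg_one_zpow]

/-- the local data of the list of the generators -/
def Loc (v : Valuation F ℤᵐ⁰) (gc : List F) (t : F) (g : List F) (loc : List (ℤ × Mo)) : Prop :=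
  List.Forall₂ (fun z l => Lc v z (ev gc l.2) t l.1) g loc

lemma lval_spec {gc : List F} (hgc : ∀ x ∈ gc, x ≠ 0) {t : F} (ht : t ≠ 0) {g : List F}
    {loc : List (ℤ × Mo)} (h : Loc v gc t g loc) (a : List ℤ) :
    Lc v (evl g a) (ev gc (lval loc a).2) t (lval loc a).1 := by
  have nil : Lc v (1 : F) (ev gc (false, [])) t 0 := ⟨1, u1_one, by simp [ev]⟩
  induction h generalizing a with
  | nil =>
    rw [evl_nil_left]
    cases a <;> exact nil
  | @cons z l g loc h1 _ ih =>
    cases a with
    | nil => rw [evl_nil_right]; exact nil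
    | cons e es =>
      rw [evl_cons]
      show Lc v _ (ev gc ((mpw l.2 e).mul (lval loc es).2)) t (l.1 * e + (lval loc es).1)
      rw [ev_mul hgc, ev_mpw hgc]
      exact (h1.zpow e).mul ht (ih es)

lemma lval_ev {gc : List F} (hgc : ∀ x ∈ gc, x ≠ 0) {t : F} (ht : t ≠ 0) {g : List F}
    {loc : List (ℤ × Mo)} (h : Loc v gc t g loc) (a : Mo) :
    Lc v (ev g a) (ev gc (xor a.1 (lval loc a.2).2.1, (lval loc a.2).2.2)) t
      (lval loc a.2).1 := by
  obtain ⟨u, hu, e⟩ := lval_spec hgc ht h a.2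
  refine ⟨u, hu, ?_⟩
  unfold ev at e ⊢
  rw [e]
  rcases a with ⟨_ | _, a⟩ <;> rcases (lval loc a).2 with ⟨_ | _, w⟩ <;> simp

lemma v_ev {gc : List F} (hgc : ∀ x ∈ gc, v x = 1) (a : Mo) : v (ev gc a) = 1 := by
  have key : ∀ (g : List F) (_ : ∀ x ∈ g, v x = 1) (l : List ℤ), v (evl g l) = 1 := by
    intro g
    induction g with
    | nil => intro _ l; rw [evl_nil_left, map_one]
    | cons z g ih =>
      intro hg l
      cases l with
      | nil => rw [evl_nil_right, map_one]
      | cons n l =>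
        rw [evl_cons, map_mul, map_zpow₀, hg z (by simp), one_zpow, one_mul]
        exact ih (fun x hx => hg x (by simp [hx])) l
  unfold ev
  rw [map_mul, key gc hgc, mul_one]
  rcases a.1 with _ | _
  · exact map_one v
  · show v (-1 : F) = 1
    rw [Valuation.map_neg, map_one]

lemma log_Lc {z κ t : F} {m : ℤ} (hκ : v κ = 1) (h : Lc v z κ t m) :
    WithZero.log (v z) = m * WithZero.log (v t) := by
  obtain ⟨u, hu, rfl⟩ := h
  rw [map_mul, map_mul, hκ, one_mul, v_one_of v hu, mul_one, map_zpow₀, WithZero.log_zpow]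
  rfl

lemma lkp_spec [Infinite (rf v)] {gc : List F} (hgc : ∀ x ∈ gc, x ≠ 0) {tab : List (Mo × ℤ)}
    {s : K4M.B2 (rf v)} (htab : ∀ p ∈ tab, sp v (ev gc p.1) = (p.2 : ℚ) • s) {a : Mo} {c : ℤ}
    (h : lkp tab a = some c) : sp v (ev gc a) = (c : ℚ) • s := by
  unfold lkp at h
  split at h
  · next p hp =>
    rw [Option.some.injEq] at h
    rw [← h, ← htab p (List.mem_of_find?_eq_some hp)]
    have := List.find?_some hp
    rw [ev_eqM hgc this]
  · exact absurd h (by simp)

lemma ctr_spec [Infinite (rf v)] {gc : List F} (hgc : ∀ x ∈ gc, v x = 1) {t : F}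
    (ht : v t ≠ 1) (ht0 : t ≠ 0) {g : List F} {loc : List (ℤ × Mo)} (h : Loc v gc t g loc)
    {tab : List (Mo × ℤ)}
    {s : K4M.B2 (rf v)} (htab : ∀ p ∈ tab, sp v (ev gc p.1) = (p.2 : ℚ) • s) {f : Mo}
    {u : List ℤ} {c : ℤ} (hc : ctr loc tab f u = some c) :
    resL v (K4M.hk (K4M.sy (ev g f)) (K4M.lg (evl g u))) =
      ((WithZero.log (v t) * c : ℤ) : ℚ) • s := by
  have hgc' : ∀ x ∈ gc, x ≠ 0 := fun x hx h0 => by
    have := hgc x hx
    rw [h0, map_zero] at this
    exact zero_ne_one this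
  have Hu := lval_spec hgc' ht0 h u
  have Hf := lval_ev hgc' ht0 h f
  have hu0 : evl g u ≠ 0 := Hu.ne ht0 (ev_ne hgc' _)
  rw [resL_hk, valL_lg v hu0, spL_sy, log_Lc (v_ev hgc _) Hu]
  unfold ctr at hc
  split_ifs at hc with h1 h2
  · rw [Option.some.injEq] at hc
    rw [h1, ← hc, zero_mul, mul_zero]
    simp
  · rw [Option.some.injEq] at hc
    have h3 : v (ev g f) ≠ 1 := by
      intro h4
      have h5 := log_Lc (v_ev hgc _) Hf
      rw [h4, WithZero.log_one] at h5
      rcases mul_eq_zero.mp h5.symm with h6 | h6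
      · exact h2 h6
      · apply ht
        have hvt : v t ≠ 0 := (Valuation.ne_zero_iff v).mpr ht0
        rw [← WithZero.exp_log hvt, h6]
        rfl
    rw [sp_ne v h3, ← hc, mul_zero]
    simp
  · split at hc
    · next c' hc' =>
      rw [Option.some.injEq] at hc
      have h3 : sp v (ev g f) = (c' : ℚ) • s := by
        rw [← lkp_spec hgc' htab hc']
        obtain ⟨w, hw, e⟩ := Hf
        have h2' : (lval loc f.2).1 = 0 := not_not.mp h2
        rw [h2', zpow_zero, mul_one] at e
        rw [e]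
        exact sp_mul_one v hw
      rw [h3, ← hc, smul_smul]
      congr 1
      push_cast
      ring
    · exact absurd hc (by simp)

theorem rsum_spec [Infinite (rf v)] {gc : List F} (hgc : ∀ x ∈ gc, v x = 1) {t : F}
    (ht : v t ≠ 1) (ht0 : t ≠ 0) {g : List F} {loc : List (ℤ × Mo)} (h : Loc v gc t g loc)
    {tab : List (Mo × ℤ)}
    {s : K4M.B2 (rf v)} (htab : ∀ p ∈ tab, sp v (ev gc p.1) = (p.2 : ℚ) • s)
    {cls : List (Mo × Mo)} {L : List Tm} {c : ℤ} (hc : rsum loc tab cls L = some c) :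
    resL v (zt g cls L) = ((WithZero.log (v t) * c : ℤ) : ℚ) • s := by
  induction L generalizing c with
  | nil =>
    unfold rsum at hc
    rw [Option.some.injEq] at hc
    rw [← hc]
    have : (resL v (zt g cls [])) = 0 := map_zero (resL v)
    rw [this]
    simp
  | cons t' L ih =>
    unfold rsum at hc
    split at hc
    · next a b ha hb =>
      rw [Option.some.injEq] at hc
      have e1 := ctr_spec hgc ht ht0 h htab ha
      have e2 := ih hb
      have e3 : resL v (zt g cls (t' :: L)) =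
          resL v (K4M.hk (K4M.sy (ev g (oo cls (t'.c, t'.s)))) (K4M.lg (evl g t'.u))) +
            resL v (zt g cls L) := map_add (resL v) _ _
      rw [e3, e1, e2, ← hc, ← add_smul]
      congr 1
      push_cast
      ring
    · exact absurd hc (by simp)

/-- **the residue at a place with local data** -/
theorem noRes_zt [Infinite (rf v)] {gc : List F} (hgc : ∀ x ∈ gc, v x = 1) {t : F}
    (ht : v t ≠ 1) (ht0 : t ≠ 0) {g : List F} {loc : List (ℤ × Mo)} (h : Loc v gc t g loc)
    {tab : List (Mo × ℤ)}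
    {s : K4M.B2 (rf v)} (htab : ∀ p ∈ tab, sp v (ev gc p.1) = (p.2 : ℚ) • s)
    {cls : List (Mo × Mo)} {L : List Tm} (hc : rsum loc tab cls L = some 0) :
    MK4.NoRes v (zt g cls L) := by
  rw [noRes_iff, rsum_spec hgc ht ht0 h htab hc, mul_zero]
  simp

/-- **the residue at a place where all the generators are units** -/
theorem noRes_zt_unit [Infinite (rf v)] {g : List F} (hg : ∀ x ∈ g, v x = 1)
    {cls : List (Mo × Mo)} {L : List Tm} : MK4.NoRes v (zt g cls L) := by
  rw [noRes_iff]
  induction L with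
  | nil => exact map_zero (resL v)
  | cons t' L ih =>
    have e3 : resL v (zt g cls (t' :: L)) =
        resL v (K4M.hk (K4M.sy (ev g (oo cls (t'.c, t'.s)))) (K4M.lg (evl g t'.u))) +
          resL v (zt g cls L) := map_add (resL v) _ _
    have h1 : v (ev g (false, t'.u)) = 1 := v_ev hg _
    have h2 : ev g (false, t'.u) = evl g t'.u := by simp [ev]
    rw [h2] at h1
    have h0 : evl g t'.u ≠ 0 := by
      intro h0
      rw [h0, map_zero] at h1
      exact zero_ne_one h1
    rw [e3, ih, add_zero, resL_hk, valL_lg v h0, h1, WithZero.log_one]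
    simp

end check

end Pool.Agent.FK4R
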