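import Pool.Agent.Lib_helper54.FAM.RC

set_option autoImplicit false
set_option linter.unusedSectionVars false

/-!
Local data at the places of a curve in Tate's form: general lemmas.
-/

namespace Pool.Agent.FK4R

open Pool.Agent.K4R Pool.Agent.KC72
open scoped WithZero TensorProduct

section near

variable {F : Type*} [Field F] [CharZero F] {v : Valuation F ℤᵐ⁰}

/-- the nonzero rational numbers are units -/
def Tq (v : Valuation F ℤᵐ⁰) : Prop := ∀ q : ℚ, q ≠ 0 → v (q : F) = 1

/-- `z` is close to the rational number `q` -/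
def Nq (v : Valuation F ℤᵐ⁰) (z : F) (q : ℚ) : Prop := v (z - (q : F)) < 1

lemma Tq.le (h : Tq v) (q : ℚ) : v (q : F) ≤ 1 := by
  by_cases hq : q = 0
  · rw [hq, Rat.cast_zero, map_zero]; exact zero_le_one
  · exact (h q hq).le

lemma Nq.le (h : Tq v) {z : F} {q : ℚ} (hz : Nq v z q) : v z ≤ 1 := by
  have e : z = (z - q) + q := by ring
  rw [e]
  exact Valuation.map_add_le _ (le_of_lt hz) (h.le q)

lemma Nq.add {z w : F} {p q : ℚ} (hz : Nq v z p) (hw : Nq v w q) : Nq v (z + w) (p + q) := by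
  unfold Nq at *
  have e : z + w - ((p + q : ℚ) : F) = (z - p) + (w - q) := by push_cast; ring
  rw [e]
  exact Valuation.map_add_lt _ hz hw

lemma Nq.sub {z w : F} {p q : ℚ} (hz : Nq v z p) (hw : Nq v w q) : Nq v (z - w) (p - q) := by
  unfold Nq at *
  have e : z - w - ((p - q : ℚ) : F) = (z - p) + (-(w - q)) := by push_cast; ring
  rw [e]
  refine Valuation.map_add_lt _ hz ?_
  rw [Valuation.map_neg]
  exact hw

lemma Nq.mul (h : Tq v) {z w : F} {p q : ℚ} (hz : Nq v z p) (hw : Nq v w q) :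
    Nq v (z * w) (p * q) := by
  have hz1 := hz.le h
  unfold Nq at *
  have e : z * w - ((p * q : ℚ) : F) = z * (w - q) + (z - p) * q := by push_cast; ring
  rw [e]
  refine Valuation.map_add_lt _ ?_ ?_
  · rw [map_mul]
    calc v z * v (w - q) ≤ 1 * v (w - q) := mul_le_mul_left hz1 _
      _ < 1 := by rw [one_mul]; exact hw
  · rw [map_mul]
    calc v (z - p) * v (q : F) ≤ v (z - p) * 1 := mul_le_mul_right (h.le q) _
      _ < 1 := by rw [mul_one]; exact hz

lemma Nq.num {r : F} (q : ℚ) (h : r = (q : F)) : Nq v r q := by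
  unfold Nq
  rw [h, sub_self, map_zero]
  exact zero_lt_one

lemma Nq.v_one (h : Tq v) {z : F} {q : ℚ} (hz : Nq v z q) (hq : q ≠ 0) : v z = 1 := by
  have h1 : v (z - q) < v (q : F) := by rw [h q hq]; exact hz
  have h2 := Valuation.map_add_eq_of_lt_right v h1
  rw [sub_add_cancel, h q hq] at h2
  exact h2

lemma Nq.unit (h : Tq v) {z : F} {q : ℚ} (hz : Nq v z q) (hq : q ≠ 0) :
    ∃ u : F, v (u - 1) < 1 ∧ z = q * u := by
  have hq' : (q : F) ≠ 0 := by exact_mod_cast hq
  refine ⟨z / q, ?_, by field_simp⟩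
  have e : z / q - 1 = (z - q) / q := by field_simp
  rw [e, map_div₀, h q hq, div_one]
  exact hz

lemma evl_map (f : ℚ →+* F) (g : List ℚ) (a : List ℤ) : evl (g.map f) a = f (evl g a) := by
  induction g generalizing a with
  | nil => simp
  | cons x g ih =>
    cases a with
    | nil => simp
    | cons e a => rw [List.map_cons, evl_cons, evl_cons, ih, map_mul, map_zpow₀]

lemma ev_cast (a : Mo) : ev ([2, 3] : List F) a = ((ev ([2, 3] : List ℚ) a : ℚ) : F) := by
  have h := evl_map (F := F) (Rat.castHom F) [2, 3] a.2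
  have e : List.map (Rat.castHom F) [2, 3] = ([2, 3] : List F) := by simp
  rw [e] at h
  unfold ev
  rw [h]
  rcases a with ⟨_ | _, a⟩ <;> simp

lemma Lc_unit (h : Tq v) {z : F} {q : ℚ} (hz : Nq v z q) (hq : q ≠ 0) {l : Mo}
    (he : ev ([2, 3] : List ℚ) l = q) (t : F) : Lc v z (ev ([2, 3] : List F) l) t 0 := by
  obtain ⟨u, hu, e⟩ := hz.unit h hq
  refine ⟨u, hu, ?_⟩
  rw [ev_cast, he, zpow_zero, mul_one]
  exact e

lemma Lc_quot (h : Tq v) {A B C T : F} {β γ : ℚ} {m : ℕ} (hAB : A * B = C * T ^ m)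
    (hB : Nq v B β) (hC : Nq v C γ) (hβ : β ≠ 0) (hγ : γ ≠ 0) {l : Mo}
    (he : ev ([2, 3] : List ℚ) l = γ / β) : Lc v A (ev ([2, 3] : List F) l) T m := by
  obtain ⟨u, hu, e⟩ := hB.unit h hβ
  obtain ⟨w, hw, e'⟩ := hC.unit h hγ
  have hβ' : (β : F) ≠ 0 := by exact_mod_cast hβ
  have h1 := v_one_of v hu
  have h0 : u ≠ 0 := by
    rintro rfl
    rw [map_zero] at h1
    exact zero_ne_one h1
  refine ⟨w * u⁻¹, u1_mul hw (u1_inv hu), ?_⟩
  rw [ev_cast, he, zpow_natCast, Rat.cast_div]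
  rw [e, e'] at hAB
  field_simp
  linear_combination hAB

lemma Lc_self (t : F) : Lc v t (ev ([2, 3] : List F) (false, [])) t 1 := by
  refine ⟨1, u1_one, ?_⟩
  simp [ev]

end near

section curve

variable {F : Type*} [Field F] {v : Valuation F ℤᵐ⁰} {b c x y : F}

lemma lt_of_mul {A B : F} (h : v (A * B) < 1) : v A < 1 ∨ v B < 1 := by
  by_contra h1
  rw [not_or, not_lt, not_lt] at h1
  rw [map_mul] at h
  exact absurd (one_le_mul h1.1 h1.2) (not_le.mpr h)

lemma one_of_mul {A B C : F} (hA : v A ≤ 1) (hB : v B ≤ 1) (h : A * B = C) (hC : v C = 1) :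
    v A = 1 := by
  refine le_antisymm hA ?_
  by_contra h1
  rw [not_le] at h1
  have h2 : v (A * B) < 1 := by
    rw [map_mul]
    calc v A * v B ≤ v A * 1 := mul_le_mul_right hB _
      _ < 1 := by rw [mul_one]; exact h1
  rw [h, hC] at h2
  exact lt_irrefl _ h2

lemma one_of_not_lt {A : F} (hA : v A ≤ 1) (h : ¬ v A < 1) : v A = 1 :=
  le_antisymm hA (not_lt.mp h)

variable (heq : y ^ 2 + (1 - c) * x * y - b * y = x ^ 3 - b * x ^ 2) (hb : v b ≤ 1)
  (hc : v c ≤ 1)
include heq hb hc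

lemma vx_lt_vy (hx : 1 < v x) : v x < v y := by
  by_contra h
  rw [not_lt] at h
  have hx0 : v x ≠ 0 := (zero_lt_one.trans hx).ne'
  have h1c : v (1 - c) ≤ 1 := Valuation.map_sub_le _ (map_one v).le hc
  -- the left hand side
  have hl : v (y ^ 2 + (1 - c) * x * y - b * y) ≤ v x ^ 2 := by
    refine Valuation.map_sub_le _ (Valuation.map_add_le _ ?_ ?_) ?_
    · rw [map_pow]; exact pow_le_pow_left' h 2
    · rw [map_mul, map_mul, pow_two]
      calc v (1 - c) * v x * v y ≤ 1 * v x * v x :=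
            mul_le_mul' (mul_le_mul' h1c le_rfl) h
        _ = v x * v x := by rw [one_mul]
    · rw [map_mul, pow_two]
      calc v b * v y ≤ v x * v x := mul_le_mul' (hb.trans hx.le) h
        _ = v x * v x := rfl
  have hr : v (x ^ 3 - b * x ^ 2) = v x ^ 3 := by
    have e : x ^ 3 - b * x ^ 2 = x ^ 2 * (x - b) := by ring
    have h2 : v (x - b) = v x := by
      rw [sub_eq_add_neg]
      refine Valuation.map_add_eq_of_lt_left v ?_
      rw [Valuation.map_neg]
      exact hb.trans_lt hx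
    rw [e, map_mul, h2, map_pow, ← pow_succ]
  rw [heq, hr] at hl
  have h3 : v x ^ 2 < v x ^ 3 := by
    rw [pow_succ (v x) 2]
    calc v x ^ 2 = v x ^ 2 * 1 := (mul_one _).symm
      _ < v x ^ 2 * v x := by
        refine (mul_lt_mul_iff_right₀ ?_).mpr hx
        exact pow_pos (zero_lt_one.trans hx) 2
  exact absurd hl (not_le.mpr h3)

/-- the local data at the origin -/
lemma at_O [CharZero F] (hx : 1 < v x) : v (y / x) ≠ 1 ∧ y / x ≠ 0 ∧
    (∀ β : F, v β ≤ 1 → Lc v (x - β) (ev ([2, 3] : List F) (false, [])) (y / x) 2) ∧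
    (∀ β : F, v β ≤ 1 → Lc v (y - β * x) (ev ([2, 3] : List F) (false, [])) (y / x) 3) := by
  have hxy := vx_lt_vy heq hb hc hx
  have hx0 : x ≠ 0 := by
    rintro rfl
    rw [map_zero] at hx
    exact absurd hx (not_lt.mpr zero_le_one)
  have hy0 : y ≠ 0 := by
    rintro rfl
    rw [map_zero] at hxy
    exact absurd hxy (not_lt.mpr zero_le)
  have hvx : 0 < v x := zero_lt_one.trans hx
  have hvy : 0 < v y := hvx.trans hxy
  have ha : v (x / y) < 1 := by
    rw [map_div₀]
    exact (div_lt_one₀ hvy).mpr hxy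
  have hb' : v (y⁻¹) < 1 := by
    rw [map_inv₀]
    exact inv_lt_one_of_one_lt₀ (hx.trans hxy)
  have h1c : v (1 - c) ≤ 1 := Valuation.map_sub_le _ (map_one v).le hc
  have lt1 : ∀ {a w : F}, v a ≤ 1 → v w < 1 → v (a * w) < 1 := by
    intro a w h1 h2
    rw [map_mul]
    calc v a * v w ≤ 1 * v w := mul_le_mul_left h1 _
      _ < 1 := by rw [one_mul]; exact h2
  have hu : v (x ^ 3 / y ^ 2 - 1) < 1 := by
    have e : x ^ 3 / y ^ 2 - 1 = (1 - c) * (x / y) + -(b * y⁻¹) + b * ((x / y) * (x / y)) := by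
      field_simp
      linear_combination (-1) * heq
    rw [e]
    refine Valuation.map_add_lt _ (Valuation.map_add_lt _ (lt1 h1c ha) ?_)
      (lt1 hb (lt1 ha.le ha))
    rw [Valuation.map_neg]
    exact lt1 hb hb'
  have hxi : v (x⁻¹) < 1 := by
    rw [map_inv₀]
    exact inv_lt_one_of_one_lt₀ hx
  refine ⟨?_, div_ne_zero hy0 hx0, fun β hβ => ?_, fun β hβ => ?_⟩
  · rw [map_div₀]
    exact ((one_lt_div₀ hvx).mpr hxy).ne'
  · refine ⟨x ^ 3 / y ^ 2 * (1 - β * x⁻¹), u1_mul hu ?_, ?_⟩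
    · have e : 1 - β * x⁻¹ - 1 = -(β * x⁻¹) := by ring
      rw [e, Valuation.map_neg]
      exact lt1 hβ hxi
    · have e : ev ([2, 3] : List F) (false, []) = 1 := by simp [ev]
      have e2 : (y / x) ^ (2 : ℤ) = (y / x) ^ 2 := by norm_cast
      rw [e, e2]
      field_simp
  · refine ⟨x ^ 3 / y ^ 2 * (1 - β * (x / y)), u1_mul hu ?_, ?_⟩
    · have e : 1 - β * (x / y) - 1 = -(β * (x / y)) := by ring
      rw [e, Valuation.map_neg]
      exact lt1 hβ ha
    · have e : ev ([2, 3] : List F) (false, []) = 1 := by simp [ev]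
      have e2 : (y / x) ^ (3 : ℤ) = (y / x) ^ 3 := by norm_cast
      rw [e, e2]
      field_simp

lemma vy_le (hx : v x ≤ 1) : v y ≤ 1 := by
  by_contra h
  rw [not_le] at h
  have h1c : v (1 - c) ≤ 1 := Valuation.map_sub_le _ (map_one v).le hc
  have e : y ^ 2 = (x ^ 3 - b * x ^ 2) - ((1 - c) * x - b) * y := by linear_combination heq
  have h1 : v (x ^ 3 - b * x ^ 2) ≤ 1 := by
    refine Valuation.map_sub_le _ ?_ ?_
    · rw [map_pow]; exact pow_le_one' hx 3
    · rw [map_mul, map_pow]; exact mul_le_one' hb (pow_le_one' hx 2)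
  have h2 : v (((1 - c) * x - b) * y) ≤ v y := by
    rw [map_mul]
    have h3 : v ((1 - c) * x - b) ≤ 1 := by
      refine Valuation.map_sub_le _ ?_ hb
      rw [map_mul]; exact mul_le_one' h1c hx
    calc v ((1 - c) * x - b) * v y ≤ 1 * v y := mul_le_mul' h3 le_rfl
      _ = v y := one_mul _
  have h4 : v (y ^ 2) ≤ v y := by
    rw [e]
    exact Valuation.map_sub_le _ (h1.trans h.le) h2
  rw [map_pow, pow_two] at h4
  have h5 : v y < v y * v y := by
    calc v y = v y * 1 := (mul_one _).symm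
      _ < v y * v y := (mul_lt_mul_iff_right₀ (zero_lt_one.trans h)).mpr h
  exact absurd h4 (not_le.mpr h5)

/-- two points over one abscissa -/
lemma two_pts (hx : v x ≤ 1) {α β γ : F} (hα : v (x - α) < 1) (hα1 : v α ≤ 1)
    (h1 : β + γ = b - (1 - c) * α) (h2 : β * γ = b * α ^ 2 - α ^ 3) :
    v (y - β) < 1 ∨ v (y - γ) < 1 := by
  have hy := vy_le heq hb hc hx
  have h1c : v (1 - c) ≤ 1 := Valuation.map_sub_le _ (map_one v).le hc
  refine lt_of_mul ?_
  have e : (y - β) * (y - γ) = (x - α) * (-((1 - c) * y) + (x * x + α * x + α * α) -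
      b * (x + α)) := by
    linear_combination heq - y * h1 + h2
  rw [e, map_mul]
  have h3 : v (-((1 - c) * y) + (x * x + α * x + α * α) - b * (x + α)) ≤ 1 := by
    refine Valuation.map_sub_le _ (Valuation.map_add_le _ ?_ ?_) ?_
    · rw [Valuation.map_neg, map_mul]; exact mul_le_one' h1c hy
    · refine Valuation.map_add_le _ (Valuation.map_add_le _ ?_ ?_) ?_
      · rw [map_mul]; exact mul_le_one' hx hx
      · rw [map_mul]; exact mul_le_one' hα1 hx
      · rw [map_mul]; exact mul_le_one' hα1 hα1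
    · rw [map_mul]
      exact mul_le_one' hb (Valuation.map_add_le _ hx hα1)
  calc v (x - α) * _ ≤ v (x - α) * 1 := mul_le_mul' le_rfl h3
    _ < 1 := by rw [mul_one]; exact hα

end curve

end Pool.Agent.FK4R
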