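import Pool.Agent.Lib_helper54.FAM.RC3a

set_option autoImplicit false
set_option linter.unusedSectionVars false

/-!
Residues of explicit elements from local data, with three symbols of constants.
-/

namespace Pool.Agent.FK4R

open Pool.Agent.K4R Pool.Agent.KC72
open scoped WithZero TensorProduct

/-- the sum of two vectors -/
def add3 (a b : ℤ × ℤ × ℤ) : ℤ × ℤ × ℤ := (a.1 + b.1, a.2.1 + b.2.1, a.2.2 + b.2.2)

/-- a multiple of a vector -/
def mul3 (n : ℤ) (a : ℤ × ℤ × ℤ) : ℤ × ℤ × ℤ := (n * a.1, n * a.2.1, n * a.2.2)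

/-- the symbol of a constant -/
def lkp3 (tab : List (Mo × ℤ × ℤ × ℤ)) (a : Mo) : Option (ℤ × ℤ × ℤ) :=
  match tab.find? (fun p => eqM p.1 a) with
  | some p => some p.2
  | none => none

/-- the residue of a term -/
def ctr3 (loc : List (ℤ × Mo)) (tab : List (Mo × ℤ × ℤ × ℤ)) (f : Mo) (u : List ℤ) :
    Option (ℤ × ℤ × ℤ) :=
  if (lval loc u).1 = 0 then some (0, 0, 0)
  else if (lval loc f.2).1 ≠ 0 then some (0, 0, 0)
  else match lkp3 tab (xor f.1 (lval loc f.2).2.1, (lval loc f.2).2.2) with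
    | some c => some (mul3 (lval loc u).1 c)
    | none => none

/-- the residue of an element -/
def rsum3 (loc : List (ℤ × Mo)) (tab : List (Mo × ℤ × ℤ × ℤ)) (cls : List (Mo × Mo)) :
    List Tm → Option (ℤ × ℤ × ℤ)
  | [] => some (0, 0, 0)
  | t :: L => match ctr3 loc tab (oo cls (t.c, t.s)) t.u, rsum3 loc tab cls L with
    | some a, some b => some (add3 a b)
    | _, _ => none

/-- all the residues vanish -/
def chkRes3 (locs : List (List (ℤ × Mo))) (tab : List (Mo × ℤ × ℤ × ℤ)) (cls : List (Mo × Mo))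
    (L : List Tm) : Bool :=
  locs.all fun loc => decide (rsum3 loc tab cls L = some (0, 0, 0))

section sm

variable {M : Type*} [AddCommGroup M] [Module ℚ M]

/-- a combination of three elements -/
def sm (s : M × M × M) (c : ℤ × ℤ × ℤ) : M :=
  (c.1 : ℚ) • s.1 + (c.2.1 : ℚ) • s.2.1 + (c.2.2 : ℚ) • s.2.2

lemma sm_zero (s : M × M × M) : sm s (0, 0, 0) = 0 := by
  simp [sm]

lemma sm_add (s : M × M × M) (a b : ℤ × ℤ × ℤ) : sm s (add3 a b) = sm s a + sm s b := by
  unfold sm add3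
  push_cast
  module

lemma sm_mul (s : M × M × M) (n : ℤ) (a : ℤ × ℤ × ℤ) : sm s (mul3 n a) = (n : ℚ) • sm s a := by
  unfold sm mul3
  push_cast
  module

end sm

section check

variable {F : Type*} [Field F] {v : Valuation F ℤᵐ⁰}

lemma lkp3_spec [Infinite (rf v)] {gc : List F} (hgc : ∀ x ∈ gc, x ≠ 0)
    {tab : List (Mo × ℤ × ℤ × ℤ)} {s : K4M.B2 (rf v) × K4M.B2 (rf v) × K4M.B2 (rf v)}
    (htab : ∀ p ∈ tab, sp v (ev gc p.1) = sm s p.2) {a : Mo} {c : ℤ × ℤ × ℤ}
    (h : lkp3 tab a = some c) : sp v (ev gc a) = sm s c := by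
  unfold lkp3 at h
  split at h
  · next p hp =>
    rw [Option.some.injEq] at h
    rw [← h, ← htab p (List.mem_of_find?_eq_some hp)]
    have := List.find?_some hp
    rw [ev_eqM hgc this]
  · exact absurd h (by simp)

lemma ctr3_spec [Infinite (rf v)] {gc : List F} (hgc : ∀ x ∈ gc, v x = 1) {t : F}
    (ht : v t ≠ 1) (ht0 : t ≠ 0) {g : List F} {loc : List (ℤ × Mo)} (h : Loc v gc t g loc)
    {tab : List (Mo × ℤ × ℤ × ℤ)} {s : K4M.B2 (rf v) × K4M.B2 (rf v) × K4M.B2 (rf v)}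
    (htab : ∀ p ∈ tab, sp v (ev gc p.1) = sm s p.2) {f : Mo}
    {u : List ℤ} {c : ℤ × ℤ × ℤ} (hc : ctr3 loc tab f u = some c) :
    resL v (K4M.hk (K4M.sy (ev g f)) (K4M.lg (evl g u))) =
      ((WithZero.log (v t) : ℤ) : ℚ) • sm s c := by
  have hgc' : ∀ x ∈ gc, x ≠ 0 := fun x hx h0 => by
    have := hgc x hx
    rw [h0, map_zero] at this
    exact zero_ne_one this
  have Hu := lval_spec hgc' ht0 h u
  have Hf := lval_ev hgc' ht0 h f
  have hu0 : evl g u ≠ 0 := Hu.ne ht0 (ev_ne hgc' _)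
  rw [resL_hk, valL_lg v hu0, spL_sy, log_Lc (v_ev hgc _) Hu]
  unfold ctr3 at hc
  split_ifs at hc with h1 h2
  · rw [Option.some.injEq] at hc
    rw [h1, ← hc, zero_mul, sm_zero]
    simp
  · rw [Option.some.injEq] at hc
    have h3 : v (ev g f) ≠ 1 := by
      intro h4
      have h5 := log_Lc (v_ev hgc _) Hf
      rw [h4, WithZero.log_one] at h5
      rcases mul_eq_zero.mp h5.symm with h6 | h6
      · exact h2 h6
      · apply ht
        have hvt : v t ≠ 0 := (Valuation.ne_zero_iff v).mpr ht0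
        rw [← WithZero.exp_log hvt, h6]
        rfl
    rw [sp_ne v h3, ← hc, sm_zero]
    simp
  · split at hc
    · next c' hc' =>
      rw [Option.some.injEq] at hc
      have h3 : sp v (ev g f) = sm s c' := by
        rw [← lkp3_spec hgc' htab hc']
        obtain ⟨w, hw, e⟩ := Hf
        have h2' : (lval loc f.2).1 = 0 := not_not.mp h2
        rw [h2', zpow_zero, mul_one] at e
        rw [e]
        exact sp_mul_one v hw
      rw [h3, ← hc, sm_mul, smul_smul]
      congr 1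
      push_cast
      ring
    · exact absurd hc (by simp)

theorem rsum3_spec [Infinite (rf v)] {gc : List F} (hgc : ∀ x ∈ gc, v x = 1) {t : F}
    (ht : v t ≠ 1) (ht0 : t ≠ 0) {g : List F} {loc : List (ℤ × Mo)} (h : Loc v gc t g loc)
    {tab : List (Mo × ℤ × ℤ × ℤ)} {s : K4M.B2 (rf v) × K4M.B2 (rf v) × K4M.B2 (rf v)}
    (htab : ∀ p ∈ tab, sp v (ev gc p.1) = sm s p.2)
    {cls : List (Mo × Mo)} {L : List Tm} {c : ℤ × ℤ × ℤ} (hc : rsum3 loc tab cls L = some c) :
    resL v (zt g cls L) = ((WithZero.log (v t) : ℤ) : ℚ) • sm s c := by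
  induction L generalizing c with
  | nil =>
    unfold rsum3 at hc
    rw [Option.some.injEq] at hc
    rw [← hc, sm_zero, smul_zero]
    exact map_zero (resL v)
  | cons t' L ih =>
    unfold rsum3 at hc
    split at hc
    · next a b ha hb =>
      rw [Option.some.injEq] at hc
      have e1 := ctr3_spec hgc ht ht0 h htab ha
      have e2 := ih hb
      have e3 : resL v (zt g cls (t' :: L)) =
          resL v (K4M.hk (K4M.sy (ev g (oo cls (t'.c, t'.s)))) (K4M.lg (evl g t'.u))) +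
            resL v (zt g cls L) := map_add (resL v) _ _
      rw [e3, e1, e2, ← hc, sm_add, smul_add]
    · exact absurd hc (by simp)

/-- **the residue at a place with local data** -/
theorem noRes_zt3 [Infinite (rf v)] {gc : List F} (hgc : ∀ x ∈ gc, v x = 1) {t : F}
    (ht : v t ≠ 1) (ht0 : t ≠ 0) {g : List F} {loc : List (ℤ × Mo)} (h : Loc v gc t g loc)
    {tab : List (Mo × ℤ × ℤ × ℤ)} {s : K4M.B2 (rf v) × K4M.B2 (rf v) × K4M.B2 (rf v)}
    (htab : ∀ p ∈ tab, sp v (ev gc p.1) = sm s p.2)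
    {cls : List (Mo × Mo)} {L : List Tm} (hc : rsum3 loc tab cls L = some (0, 0, 0)) :
    MK4.NoRes v (zt g cls L) := by
  rw [noRes_iff, rsum3_spec hgc ht ht0 h htab hc, sm_zero, smul_zero]

end check

section near

variable {F : Type*} [Field F] [CharZero F] {v : Valuation F ℤᵐ⁰}

lemma ev_cast5 (a : Mo) : ev ([2, 3, 5] : List F) a = ((ev ([2, 3, 5] : List ℚ) a : ℚ) : F) := by
  have h := evl_map (F := F) (Rat.castHom F) [2, 3, 5] a.2
  have e : List.map (Rat.castHom F) [2, 3, 5] = ([2, 3, 5] : List F) := by simp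
  rw [e] at h
  unfold ev
  rw [h]
  rcases a with ⟨_ | _, a⟩ <;> simp

lemma Lc_unit5 (h : Tq v) {z : F} {q : ℚ} (hz : Nq v z q) (hq : q ≠ 0) {l : Mo}
    (he : ev ([2, 3, 5] : List ℚ) l = q) (t : F) : Lc v z (ev ([2, 3, 5] : List F) l) t 0 := by
  obtain ⟨u, hu, e⟩ := hz.unit h hq
  refine ⟨u, hu, ?_⟩
  rw [ev_cast5, he, zpow_zero, mul_one]
  exact e

lemma Lc_quot5 (h : Tq v) {A B C T : F} {β γ : ℚ} {m : ℕ} (hAB : A * B = C * T ^ m)
    (hB : Nq v B β) (hC : Nq v C γ) (hβ : β ≠ 0) (hγ : γ ≠ 0) {l : Mo}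
    (he : ev ([2, 3, 5] : List ℚ) l = γ / β) : Lc v A (ev ([2, 3, 5] : List F) l) T m := by
  obtain ⟨u, hu, e⟩ := hB.unit h hβ
  obtain ⟨w, hw, e'⟩ := hC.unit h hγ
  have hβ' : (β : F) ≠ 0 := by exact_mod_cast hβ
  have h1 := v_one_of v hu
  have h0 : u ≠ 0 := by
    rintro rfl
    rw [map_zero] at h1
    exact zero_ne_one h1
  refine ⟨w * u⁻¹, u1_mul hw (u1_inv hu), ?_⟩
  rw [ev_cast5, he, zpow_natCast, Rat.cast_div]
  rw [e, e'] at hAB
  field_simp
  linear_combination hAB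

lemma Lc_self5 (t : F) : Lc v t (ev ([2, 3, 5] : List F) (false, [])) t 1 := by
  refine ⟨1, u1_one, ?_⟩
  simp [ev]

lemma Lc.five {z t : F} {m : ℤ} (h : Lc v z (ev ([2, 3] : List F) (false, [])) t m) :
    Lc v z (ev ([2, 3, 5] : List F) (false, [])) t m := by
  have e : ev ([2, 3, 5] : List F) (false, []) = ev ([2, 3] : List F) (false, []) := by simp [ev]
  rw [e]
  exact h

end near

end Pool.Agent.FK4R
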