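import Pool.Agent.Lib_helper54.FAM.RC4

set_option autoImplicit false
set_option linter.unusedSectionVars false

/-!
The symbols of the constants with the primes two, three, five.
-/

namespace Pool.Agent.FK4R

open Pool.Agent.K4R Pool.Agent.KC72
open scoped WithZero TensorProduct

/-- the symbols of the constants, in terms of three symbols -/
def tab235 : List (Mo × ℤ × ℤ × ℤ) :=
  [((false, []), 0, 0, 0),
   ((false, [1]), 0, 0, 0),
   ((true, []), 0, 0, 0),
   ((false, [-1]), 0, 0, 0),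
   ((false, [-2, 2]), 2, 0, 0),
   ((true, [-2, 0, 1]), -2, 0, 0),
   ((false, [2, -2]), -2, 0, 0),
   ((false, [0, -2, 1]), 2, 0, 0),
   ((true, [2, 0, -1]), 2, 0, 0),
   ((false, [0, 2, -1]), -2, 0, 0),
   ((false, [-1, 0, 1]), 0, 1, 0),
   ((true, [-1, 1]), 0, -1, 0),
   ((false, [1, 0, -1]), 0, -1, 0),
   ((false, [0, 1, -1]), 0, 1, 0),
   ((true, [1, -1]), 0, 1, 0),
   ((false, [0, -1, 1]), 0, -1, 0),
   ((false, [3, -1]), 0, 0, 1),
   ((true, [0, -1, 1]), 0, 0, -1),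
   ((false, [-3, 1]), 0, 0, -1),
   ((false, [-3, 0, 1]), 0, 0, 1),
   ((true, [0, 1, -1]), 0, 0, 1),
   ((false, [3, 0, -1]), 0, 0, -1),
   ((false, [0, -2, 2]), 0, -2, -2),
   ((true, [4, -2]), 0, 2, 2),
   ((false, [0, 2, -2]), 0, 2, 2),
   ((false, [4, 0, -2]), 0, -2, -2),
   ((true, [-4, 2]), 0, -2, -2),
   ((false, [-4, 0, 2]), 0, 2, 2),
   ((false, [0, 1]), -1, -1, 0),
   ((true, [1]), 1, 1, 0),
   ((false, [0, -1]), 1, 1, 0),
   ((false, [1, -1]), -1, -1, 0),
   ((true, [-1]), -1, -1, 0),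
   ((false, [-1, 1]), 1, 1, 0),
   ((false, [2]), 2, 2, 0),
   ((true, [0, 1]), -2, -2, 0),
   ((false, [-2]), -2, -2, 0),
   ((false, [-2, 1]), 2, 2, 0),
   ((true, [0, -1]), 2, 2, 0),
   ((false, [2, -1]), -2, -2, 0),
   ((false, [0, 0, 1]), -2, -1, -1),
   ((true, [2]), 2, 1, 1),
   ((false, [0, 0, -1]), 2, 1, 1),
   ((false, [2, 0, -1]), -2, -1, -1),
   ((true, [-2]), -2, -1, -1),
   ((false, [-2, 0, 1]), 2, 1, 1),
   ((false, [1, 1]), 1, -1, 1),
   ((true, [0, 0, 1]), -1, 1, -1),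
   ((false, [-1, -1]), -1, 1, -1),
   ((false, [-1, -1, 1]), 1, -1, 1),
   ((true, [0, 0, -1]), 1, -1, 1),
   ((false, [1, 1, -1]), -1, 1, -1),
   ((false, [0, 2]), -6, -6, 0),
   ((true, [3]), 6, 6, 0),
   ((false, [0, -2]), 6, 6, 0),
   ((false, [3, -2]), -6, -6, 0),
   ((true, [-3]), -6, -6, 0),
   ((false, [-3, 2]), 6, 6, 0),
   ((false, [1, 0, 1]), 2, 5, -1),
   ((true, [0, 2]), -2, -5, 1),
   ((false, [-1, 0, -1]), -2, -5, 1),
   ((false, [-1, 2, -1]), 2, 5, -1),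
   ((true, [0, -2]), 2, 5, -1),
   ((false, [1, -2, 1]), -2, -5, 1),
   ((false, [4]), 8, 6, 2),
   ((true, [0, 1, 1]), -8, -6, -2),
   ((false, [-4]), -8, -6, -2),
   ((false, [-4, 1, 1]), 8, 6, 2),
   ((true, [0, -1, -1]), 8, 6, 2),
   ((false, [4, -1, -1]), -8, -6, -2),
   ((false, [0, 0, 2]), -6, 0, -4),
   ((true, [3, 1]), 6, 0, 4),
   ((false, [0, 0, -2]), 6, 0, 4),
   ((false, [3, 1, -2]), -6, 0, -4),
   ((true, [-3, -1]), -6, 0, -4),
   ((false, [-3, -1, 2]), 6, 0, 4)]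

section tab

variable {F : Type*} [Field F] [CharZero F] {v : Valuation F ℤᵐ⁰} [Infinite (rf v)]

variable (v) in
/-- the three symbols -/
noncomputable def s235 : K4M.B2 (rf v) × K4M.B2 (rf v) × K4M.B2 (rf v) :=
  ((1 / 2 : ℚ) • sp v (9 / 4 : F), sp v (5 / 2 : F), sp v (8 / 3 : F))

lemma sp_cases3 {z : F} {c : ℤ × ℤ × ℤ} (h : sp v z = sm (s235 v) c) (w : F) :
    (w = z → sp v w = sm (s235 v) c) ∧
    (w = 1 - z → sp v w = sm (s235 v) (mul3 (-1) c)) ∧
    (w = z⁻¹ → sp v w = sm (s235 v) (mul3 (-1) c)) ∧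
    (w = 1 - z⁻¹ → sp v w = sm (s235 v) c) ∧
    (w = (1 - z)⁻¹ → sp v w = sm (s235 v) c) ∧
    (w = 1 - (1 - z)⁻¹ → sp v w = sm (s235 v) (mul3 (-1) c)) := by
  refine ⟨?_, ?_, ?_, ?_, ?_, ?_⟩ <;> rintro rfl
  · exact h
  · rw [sp_compl, h, sm_mul]; simp
  · rw [sp_inv, h, sm_mul]; simp
  · rw [sp_compl, sp_inv, h, neg_neg]
  · rw [sp_inv, sp_compl, h, neg_neg]
  · rw [sp_compl, sp_inv, sp_compl, h, neg_neg, sm_mul]; simp

/-- the same with an unknown symbol -/
lemma sp_orb6 (z w : F) :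
    (w = z → sp v w = sp v z) ∧ (w = 1 - z → sp v w = -sp v z) ∧
    (w = z⁻¹ → sp v w = -sp v z) ∧ (w = 1 - z⁻¹ → sp v w = sp v z) ∧
    (w = (1 - z)⁻¹ → sp v w = sp v z) ∧ (w = 1 - (1 - z)⁻¹ → sp v w = -sp v z) := by
  refine ⟨?_, ?_, ?_, ?_, ?_, ?_⟩ <;> rintro rfl
  · rfl
  · rw [sp_compl]
  · rw [sp_inv]
  · rw [sp_compl, sp_inv, neg_neg]
  · rw [sp_inv, sp_compl, neg_neg]
  · rw [sp_compl, sp_inv, sp_compl, neg_neg]

lemma q2 : sp v (2 : F) = sm (s235 v) (0, 0, 0) := by rw [sm_zero, sp_two]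

lemma q9d4 : sp v (9 / 4 : F) = sm (s235 v) (2, 0, 0) := by
  simp only [sm, s235]
  push_cast
  module

lemma q5d2 : sp v (5 / 2 : F) = sm (s235 v) (0, 1, 0) := by
  simp only [sm, s235]
  push_cast
  module

lemma q8d3 : sp v (8 / 3 : F) = sm (s235 v) (0, 0, 1) := by
  simp only [sm, s235]
  push_cast
  module

lemma q3 : sp v (3 : F) = sm (s235 v) (-1, -1, 0) := by
  have h := zz_zero v (x := (-2 : F)) (y := -4 / 5) (by norm_num) (by norm_num)
    (by norm_num) (by norm_num)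
  unfold zz at h
  have e1 : (-4 / 5 : F) / (-2) = 2 / 5 := by norm_num
  have e2 : (1 - (-2 : F)⁻¹) / (1 - (-4 / 5)⁻¹) = 2 / 3 := by norm_num
  have e3 : (1 - (-2 : F)) / (1 - (-4 / 5)) = 5 / 3 := by norm_num
  rw [e1, e2, e3] at h
  have t0 : sp v (-2 : F) = -sp v (3 : F) :=
    (sp_orb6 _ _).2.1 (by norm_num)
  have t1 : sp v (-4 / 5 : F) = sm (s235 v) (2, 0, 0) :=
    (sp_cases3 q9d4 _).2.2.2.2.1 (by norm_num)
  have t2 : sp v (2 / 5 : F) = sm (s235 v) (0, -1, 0) :=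
    (sp_cases3 q5d2 _).2.2.1 (by norm_num)
  have t3 : sp v (2 / 3 : F) = sp v (3 : F) :=
    (sp_orb6 _ _).2.2.2.1 (by norm_num)
  have t4 : sp v (5 / 3 : F) = sm (s235 v) (0, -1, 0) :=
    (sp_cases3 q5d2 _).2.2.2.2.2 (by norm_num)
  rw [t0, t1, t2, t3, t4] at h
  simp only [sm] at h ⊢
  push_cast at h ⊢
  linear_combination (norm := module) (-1/2 : ℚ) • h

lemma q4 : sp v (4 : F) = sm (s235 v) (2, 2, 0) := by
  have h := zz_zero v (x := (-3 : F)) (y := -1) (by norm_num) (by norm_num)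
    (by norm_num) (by norm_num)
  unfold zz at h
  have e1 : (-1 : F) / (-3) = 1 / 3 := by norm_num
  have e2 : (1 - (-3 : F)⁻¹) / (1 - (-1)⁻¹) = 2 / 3 := by norm_num
  have e3 : (1 - (-3 : F)) / (1 - (-1)) = 2 := by norm_num
  rw [e1, e2, e3] at h
  have t0 : sp v (-3 : F) = -sp v (4 : F) :=
    (sp_orb6 _ _).2.1 (by norm_num)
  have t1 : sp v (-1 : F) = sm (s235 v) (0, 0, 0) :=
    (sp_cases3 q2 _).2.1 (by norm_num)
  have t2 : sp v (1 / 3 : F) = sm (s235 v) (1, 1, 0) :=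
    (sp_cases3 q3 _).2.2.1 (by norm_num)
  have t3 : sp v (2 / 3 : F) = sm (s235 v) (-1, -1, 0) :=
    (sp_cases3 q3 _).2.2.2.1 (by norm_num)
  have t4 : sp v (2 : F) = sm (s235 v) (0, 0, 0) :=
    (sp_cases3 q2 _).1 (by norm_num)
  rw [t0, t1, t2, t3, t4] at h
  simp only [sm] at h ⊢
  push_cast at h ⊢
  linear_combination (norm := module) (-1 : ℚ) • h

lemma q9 : sp v (9 : F) = sm (s235 v) (-6, -6, 0) := by
  have h := zz_zero v (x := (-8 : F)) (y := -2) (by norm_num) (by norm_num)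
    (by norm_num) (by norm_num)
  unfold zz at h
  have e1 : (-2 : F) / (-8) = 1 / 4 := by norm_num
  have e2 : (1 - (-8 : F)⁻¹) / (1 - (-2)⁻¹) = 3 / 4 := by norm_num
  have e3 : (1 - (-8 : F)) / (1 - (-2)) = 3 := by norm_num
  rw [e1, e2, e3] at h
  have t0 : sp v (-8 : F) = -sp v (9 : F) :=
    (sp_orb6 _ _).2.1 (by norm_num)
  have t1 : sp v (-2 : F) = sm (s235 v) (1, 1, 0) :=
    (sp_cases3 q3 _).2.1 (by norm_num)
  have t2 : sp v (1 / 4 : F) = sm (s235 v) (-2, -2, 0) :=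
    (sp_cases3 q4 _).2.2.1 (by norm_num)
  have t3 : sp v (3 / 4 : F) = sm (s235 v) (2, 2, 0) :=
    (sp_cases3 q4 _).2.2.2.1 (by norm_num)
  have t4 : sp v (3 : F) = sm (s235 v) (-1, -1, 0) :=
    (sp_cases3 q3 _).1 (by norm_num)
  rw [t0, t1, t2, t3, t4] at h
  simp only [sm] at h ⊢
  push_cast at h ⊢
  linear_combination (norm := module) (-1 : ℚ) • h

lemma q25d9 : sp v (25 / 9 : F) = sm (s235 v) (0, -2, -2) := by
  have h := zz_zero v (x := (-16 / 9 : F)) (y := -2 / 3) (by norm_num) (by norm_num)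
    (by norm_num) (by norm_num)
  unfold zz at h
  have e1 : (-2 / 3 : F) / (-16 / 9) = 3 / 8 := by norm_num
  have e2 : (1 - (-16 / 9 : F)⁻¹) / (1 - (-2 / 3)⁻¹) = 5 / 8 := by norm_num
  have e3 : (1 - (-16 / 9 : F)) / (1 - (-2 / 3)) = 5 / 3 := by norm_num
  rw [e1, e2, e3] at h
  have t0 : sp v (-16 / 9 : F) = -sp v (25 / 9 : F) :=
    (sp_orb6 _ _).2.1 (by norm_num)
  have t1 : sp v (-2 / 3 : F) = sm (s235 v) (0, 1, 0) :=
    (sp_cases3 q5d2 _).2.2.2.2.1 (by norm_num)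
  have t2 : sp v (3 / 8 : F) = sm (s235 v) (0, 0, -1) :=
    (sp_cases3 q8d3 _).2.2.1 (by norm_num)
  have t3 : sp v (5 / 8 : F) = sm (s235 v) (0, 0, 1) :=
    (sp_cases3 q8d3 _).2.2.2.1 (by norm_num)
  have t4 : sp v (5 / 3 : F) = sm (s235 v) (0, -1, 0) :=
    (sp_cases3 q5d2 _).2.2.2.2.2 (by norm_num)
  rw [t0, t1, t2, t3, t4] at h
  simp only [sm] at h ⊢
  push_cast at h ⊢
  linear_combination (norm := module) (-1 : ℚ) • h

lemma q5 : sp v (5 : F) = sm (s235 v) (-2, -1, -1) := by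
  have h := zz_zero v (x := (-4 : F)) (y := -16 / 9) (by norm_num) (by norm_num)
    (by norm_num) (by norm_num)
  unfold zz at h
  have e1 : (-16 / 9 : F) / (-4) = 4 / 9 := by norm_num
  have e2 : (1 - (-4 : F)⁻¹) / (1 - (-16 / 9)⁻¹) = 4 / 5 := by norm_num
  have e3 : (1 - (-4 : F)) / (1 - (-16 / 9)) = 9 / 5 := by norm_num
  rw [e1, e2, e3] at h
  have t0 : sp v (-4 : F) = -sp v (5 : F) :=
    (sp_orb6 _ _).2.1 (by norm_num)
  have t1 : sp v (-16 / 9 : F) = sm (s235 v) (0, 2, 2) :=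
    (sp_cases3 q25d9 _).2.1 (by norm_num)
  have t2 : sp v (4 / 9 : F) = sm (s235 v) (-2, 0, 0) :=
    (sp_cases3 q9d4 _).2.2.1 (by norm_num)
  have t3 : sp v (4 / 5 : F) = sp v (5 : F) :=
    (sp_orb6 _ _).2.2.2.1 (by norm_num)
  have t4 : sp v (9 / 5 : F) = sm (s235 v) (-2, 0, 0) :=
    (sp_cases3 q9d4 _).2.2.2.2.2 (by norm_num)
  rw [t0, t1, t2, t3, t4] at h
  simp only [sm] at h ⊢
  push_cast at h ⊢
  linear_combination (norm := module) (-1/2 : ℚ) • h

lemma q16 : sp v (16 : F) = sm (s235 v) (8, 6, 2) := by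
  have h := zz_zero v (x := (-15 : F)) (y := -3) (by norm_num) (by norm_num)
    (by norm_num) (by norm_num)
  unfold zz at h
  have e1 : (-3 : F) / (-15) = 1 / 5 := by norm_num
  have e2 : (1 - (-15 : F)⁻¹) / (1 - (-3)⁻¹) = 4 / 5 := by norm_num
  have e3 : (1 - (-15 : F)) / (1 - (-3)) = 4 := by norm_num
  rw [e1, e2, e3] at h
  have t0 : sp v (-15 : F) = -sp v (16 : F) :=
    (sp_orb6 _ _).2.1 (by norm_num)
  have t1 : sp v (-3 : F) = sm (s235 v) (-2, -2, 0) :=
    (sp_cases3 q4 _).2.1 (by norm_num)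
  have t2 : sp v (1 / 5 : F) = sm (s235 v) (2, 1, 1) :=
    (sp_cases3 q5 _).2.2.1 (by norm_num)
  have t3 : sp v (4 / 5 : F) = sm (s235 v) (-2, -1, -1) :=
    (sp_cases3 q5 _).2.2.2.1 (by norm_num)
  have t4 : sp v (4 : F) = sm (s235 v) (2, 2, 0) :=
    (sp_cases3 q4 _).1 (by norm_num)
  rw [t0, t1, t2, t3, t4] at h
  simp only [sm] at h ⊢
  push_cast at h ⊢
  linear_combination (norm := module) (-1 : ℚ) • h

lemma q10 : sp v (10 : F) = sm (s235 v) (2, 5, -1) := by
  have h := zz_zero v (x := (-9 : F)) (y := -4) (by norm_num) (by norm_num)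
    (by norm_num) (by norm_num)
  unfold zz at h
  have e1 : (-4 : F) / (-9) = 4 / 9 := by norm_num
  have e2 : (1 - (-9 : F)⁻¹) / (1 - (-4)⁻¹) = 8 / 9 := by norm_num
  have e3 : (1 - (-9 : F)) / (1 - (-4)) = 2 := by norm_num
  rw [e1, e2, e3] at h
  have t0 : sp v (-9 : F) = -sp v (10 : F) :=
    (sp_orb6 _ _).2.1 (by norm_num)
  have t1 : sp v (-4 : F) = sm (s235 v) (2, 1, 1) :=
    (sp_cases3 q5 _).2.1 (by norm_num)
  have t2 : sp v (4 / 9 : F) = sm (s235 v) (-2, 0, 0) :=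
    (sp_cases3 q9d4 _).2.2.1 (by norm_num)
  have t3 : sp v (8 / 9 : F) = sm (s235 v) (-6, -6, 0) :=
    (sp_cases3 q9 _).2.2.2.1 (by norm_num)
  have t4 : sp v (2 : F) = sm (s235 v) (0, 0, 0) :=
    (sp_cases3 q2 _).1 (by norm_num)
  rw [t0, t1, t2, t3, t4] at h
  simp only [sm] at h ⊢
  push_cast at h ⊢
  linear_combination (norm := module) (-1 : ℚ) • h

lemma q6 : sp v (6 : F) = sm (s235 v) (1, -1, 1) := by
  have h := zz_zero v (x := (-5 : F)) (y := -2) (by norm_num) (by norm_num)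
    (by norm_num) (by norm_num)
  unfold zz at h
  have e1 : (-2 : F) / (-5) = 2 / 5 := by norm_num
  have e2 : (1 - (-5 : F)⁻¹) / (1 - (-2)⁻¹) = 4 / 5 := by norm_num
  have e3 : (1 - (-5 : F)) / (1 - (-2)) = 2 := by norm_num
  rw [e1, e2, e3] at h
  have t0 : sp v (-5 : F) = -sp v (6 : F) :=
    (sp_orb6 _ _).2.1 (by norm_num)
  have t1 : sp v (-2 : F) = sm (s235 v) (1, 1, 0) :=
    (sp_cases3 q3 _).2.1 (by norm_num)
  have t2 : sp v (2 / 5 : F) = sm (s235 v) (0, -1, 0) :=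
    (sp_cases3 q5d2 _).2.2.1 (by norm_num)
  have t3 : sp v (4 / 5 : F) = sm (s235 v) (-2, -1, -1) :=
    (sp_cases3 q5 _).2.2.2.1 (by norm_num)
  have t4 : sp v (2 : F) = sm (s235 v) (0, 0, 0) :=
    (sp_cases3 q2 _).1 (by norm_num)
  rw [t0, t1, t2, t3, t4] at h
  simp only [sm] at h ⊢
  push_cast at h ⊢
  linear_combination (norm := module) (-1 : ℚ) • h

lemma q25 : sp v (25 : F) = sm (s235 v) (-6, 0, -4) := by
  have h := zz_zero v (x := (-24 : F)) (y := -4) (by norm_num) (by norm_num)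
    (by norm_num) (by norm_num)
  unfold zz at h
  have e1 : (-4 : F) / (-24) = 1 / 6 := by norm_num
  have e2 : (1 - (-24 : F)⁻¹) / (1 - (-4)⁻¹) = 5 / 6 := by norm_num
  have e3 : (1 - (-24 : F)) / (1 - (-4)) = 5 := by norm_num
  rw [e1, e2, e3] at h
  have t0 : sp v (-24 : F) = -sp v (25 : F) :=
    (sp_orb6 _ _).2.1 (by norm_num)
  have t1 : sp v (-4 : F) = sm (s235 v) (2, 1, 1) :=
    (sp_cases3 q5 _).2.1 (by norm_num)
  have t2 : sp v (1 / 6 : F) = sm (s235 v) (-1, 1, -1) :=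
    (sp_cases3 q6 _).2.2.1 (by norm_num)
  have t3 : sp v (5 / 6 : F) = sm (s235 v) (1, -1, 1) :=
    (sp_cases3 q6 _).2.2.2.1 (by norm_num)
  have t4 : sp v (5 : F) = sm (s235 v) (-2, -1, -1) :=
    (sp_cases3 q5 _).1 (by norm_num)
  rw [t0, t1, t2, t3, t4] at h
  simp only [sm] at h ⊢
  push_cast at h ⊢
  linear_combination (norm := module) (-1 : ℚ) • h

theorem tab235_spec : ∀ p ∈ tab235, sp v (ev ([2, 3, 5] : List F) p.1) = sm (s235 v) p.2 := by
  intro p hp
  simp only [tab235, List.mem_cons, List.not_mem_nil, or_false] at hp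
  rcases hp with rfl | rfl | rfl | rfl | rfl | rfl | rfl | rfl | rfl | rfl | rfl | rfl |
    rfl | rfl | rfl | rfl | rfl | rfl | rfl | rfl | rfl | rfl | rfl | rfl |
    rfl | rfl | rfl | rfl | rfl | rfl | rfl | rfl | rfl | rfl | rfl | rfl |
    rfl | rfl | rfl | rfl | rfl | rfl | rfl | rfl | rfl | rfl | rfl | rfl |
    rfl | rfl | rfl | rfl | rfl | rfl | rfl | rfl | rfl | rfl | rfl | rfl |
    rfl | rfl | rfl | rfl | rfl | rfl | rfl | rfl | rfl | rfl | rfl | rfl |
    rfl | rfl | rfl | rfl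
  · have e : ev ([2, 3, 5] : List F) (false, []) = 1 := by norm_num [ev, evl]
    refine (congrArg (sp v) e).trans ?_
    rw [sm_zero]
    exact sp_one v
  · have e : ev ([2, 3, 5] : List F) (false, [1]) = 2 := by norm_num [ev, evl]
    refine (congrArg (sp v) e).trans ?_
    exact (sp_cases3 q2 _).1 (by norm_num)
  · have e : ev ([2, 3, 5] : List F) (true, []) = -1 := by norm_num [ev, evl]
    refine (congrArg (sp v) e).trans ?_
    exact (sp_cases3 q2 _).2.1 (by norm_num)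
  · have e : ev ([2, 3, 5] : List F) (false, [-1]) = 1 / 2 := by norm_num [ev, evl]
    refine (congrArg (sp v) e).trans ?_
    exact (sp_cases3 q2 _).2.2.1 (by norm_num)
  · have e : ev ([2, 3, 5] : List F) (false, [-2, 2]) = 9 / 4 := by norm_num [ev, evl]
    refine (congrArg (sp v) e).trans ?_
    exact (sp_cases3 q9d4 _).1 (by norm_num)
  · have e : ev ([2, 3, 5] : List F) (true, [-2, 0, 1]) = -5 / 4 := by norm_num [ev, evl]
    refine (congrArg (sp v) e).trans ?_
    exact (sp_cases3 q9d4 _).2.1 (by norm_num)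
  · have e : ev ([2, 3, 5] : List F) (false, [2, -2]) = 4 / 9 := by norm_num [ev, evl]
    refine (congrArg (sp v) e).trans ?_
    exact (sp_cases3 q9d4 _).2.2.1 (by norm_num)
  · have e : ev ([2, 3, 5] : List F) (false, [0, -2, 1]) = 5 / 9 := by norm_num [ev, evl]
    refine (congrArg (sp v) e).trans ?_
    exact (sp_cases3 q9d4 _).2.2.2.1 (by norm_num)
  · have e : ev ([2, 3, 5] : List F) (true, [2, 0, -1]) = -4 / 5 := by norm_num [ev, evl]
    refine (congrArg (sp v) e).trans ?_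
    exact (sp_cases3 q9d4 _).2.2.2.2.1 (by norm_num)
  · have e : ev ([2, 3, 5] : List F) (false, [0, 2, -1]) = 9 / 5 := by norm_num [ev, evl]
    refine (congrArg (sp v) e).trans ?_
    exact (sp_cases3 q9d4 _).2.2.2.2.2 (by norm_num)
  · have e : ev ([2, 3, 5] : List F) (false, [-1, 0, 1]) = 5 / 2 := by norm_num [ev, evl]
    refine (congrArg (sp v) e).trans ?_
    exact (sp_cases3 q5d2 _).1 (by norm_num)
  · have e : ev ([2, 3, 5] : List F) (true, [-1, 1]) = -3 / 2 := by norm_num [ev, evl]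
    refine (congrArg (sp v) e).trans ?_
    exact (sp_cases3 q5d2 _).2.1 (by norm_num)
  · have e : ev ([2, 3, 5] : List F) (false, [1, 0, -1]) = 2 / 5 := by norm_num [ev, evl]
    refine (congrArg (sp v) e).trans ?_
    exact (sp_cases3 q5d2 _).2.2.1 (by norm_num)
  · have e : ev ([2, 3, 5] : List F) (false, [0, 1, -1]) = 3 / 5 := by norm_num [ev, evl]
    refine (congrArg (sp v) e).trans ?_
    exact (sp_cases3 q5d2 _).2.2.2.1 (by norm_num)
  · have e : ev ([2, 3, 5] : List F) (true, [1, -1]) = -2 / 3 := by norm_num [ev, evl]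
    refine (congrArg (sp v) e).trans ?_
    exact (sp_cases3 q5d2 _).2.2.2.2.1 (by norm_num)
  · have e : ev ([2, 3, 5] : List F) (false, [0, -1, 1]) = 5 / 3 := by norm_num [ev, evl]
    refine (congrArg (sp v) e).trans ?_
    exact (sp_cases3 q5d2 _).2.2.2.2.2 (by norm_num)
  · have e : ev ([2, 3, 5] : List F) (false, [3, -1]) = 8 / 3 := by norm_num [ev, evl]
    refine (congrArg (sp v) e).trans ?_
    exact (sp_cases3 q8d3 _).1 (by norm_num)
  · have e : ev ([2, 3, 5] : List F) (true, [0, -1, 1]) = -5 / 3 := by norm_num [ev, evl]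
    refine (congrArg (sp v) e).trans ?_
    exact (sp_cases3 q8d3 _).2.1 (by norm_num)
  · have e : ev ([2, 3, 5] : List F) (false, [-3, 1]) = 3 / 8 := by norm_num [ev, evl]
    refine (congrArg (sp v) e).trans ?_
    exact (sp_cases3 q8d3 _).2.2.1 (by norm_num)
  · have e : ev ([2, 3, 5] : List F) (false, [-3, 0, 1]) = 5 / 8 := by norm_num [ev, evl]
    refine (congrArg (sp v) e).trans ?_
    exact (sp_cases3 q8d3 _).2.2.2.1 (by norm_num)
  · have e : ev ([2, 3, 5] : List F) (true, [0, 1, -1]) = -3 / 5 := by norm_num [ev, evl]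
    refine (congrArg (sp v) e).trans ?_
    exact (sp_cases3 q8d3 _).2.2.2.2.1 (by norm_num)
  · have e : ev ([2, 3, 5] : List F) (false, [3, 0, -1]) = 8 / 5 := by norm_num [ev, evl]
    refine (congrArg (sp v) e).trans ?_
    exact (sp_cases3 q8d3 _).2.2.2.2.2 (by norm_num)
  · have e : ev ([2, 3, 5] : List F) (false, [0, -2, 2]) = 25 / 9 := by norm_num [ev, evl]
    refine (congrArg (sp v) e).trans ?_
    exact (sp_cases3 q25d9 _).1 (by norm_num)
  · have e : ev ([2, 3, 5] : List F) (true, [4, -2]) = -16 / 9 := by norm_num [ev, evl]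
    refine (congrArg (sp v) e).trans ?_
    exact (sp_cases3 q25d9 _).2.1 (by norm_num)
  · have e : ev ([2, 3, 5] : List F) (false, [0, 2, -2]) = 9 / 25 := by norm_num [ev, evl]
    refine (congrArg (sp v) e).trans ?_
    exact (sp_cases3 q25d9 _).2.2.1 (by norm_num)
  · have e : ev ([2, 3, 5] : List F) (false, [4, 0, -2]) = 16 / 25 := by norm_num [ev, evl]
    refine (congrArg (sp v) e).trans ?_
    exact (sp_cases3 q25d9 _).2.2.2.1 (by norm_num)
  · have e : ev ([2, 3, 5] : List F) (true, [-4, 2]) = -9 / 16 := by norm_num [ev, evl]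
    refine (congrArg (sp v) e).trans ?_
    exact (sp_cases3 q25d9 _).2.2.2.2.1 (by norm_num)
  · have e : ev ([2, 3, 5] : List F) (false, [-4, 0, 2]) = 25 / 16 := by norm_num [ev, evl]
    refine (congrArg (sp v) e).trans ?_
    exact (sp_cases3 q25d9 _).2.2.2.2.2 (by norm_num)
  · have e : ev ([2, 3, 5] : List F) (false, [0, 1]) = 3 := by norm_num [ev, evl]
    refine (congrArg (sp v) e).trans ?_
    exact (sp_cases3 q3 _).1 (by norm_num)
  · have e : ev ([2, 3, 5] : List F) (true, [1]) = -2 := by norm_num [ev, evl]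
    refine (congrArg (sp v) e).trans ?_
    exact (sp_cases3 q3 _).2.1 (by norm_num)
  · have e : ev ([2, 3, 5] : List F) (false, [0, -1]) = 1 / 3 := by norm_num [ev, evl]
    refine (congrArg (sp v) e).trans ?_
    exact (sp_cases3 q3 _).2.2.1 (by norm_num)
  · have e : ev ([2, 3, 5] : List F) (false, [1, -1]) = 2 / 3 := by norm_num [ev, evl]
    refine (congrArg (sp v) e).trans ?_
    exact (sp_cases3 q3 _).2.2.2.1 (by norm_num)
  · have e : ev ([2, 3, 5] : List F) (true, [-1]) = -1 / 2 := by norm_num [ev, evl]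
    refine (congrArg (sp v) e).trans ?_
    exact (sp_cases3 q3 _).2.2.2.2.1 (by norm_num)
  · have e : ev ([2, 3, 5] : List F) (false, [-1, 1]) = 3 / 2 := by norm_num [ev, evl]
    refine (congrArg (sp v) e).trans ?_
    exact (sp_cases3 q3 _).2.2.2.2.2 (by norm_num)
  · have e : ev ([2, 3, 5] : List F) (false, [2]) = 4 := by norm_num [ev, evl]
    refine (congrArg (sp v) e).trans ?_
    exact (sp_cases3 q4 _).1 (by norm_num)
  · have e : ev ([2, 3, 5] : List F) (true, [0, 1]) = -3 := by norm_num [ev, evl]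
    refine (congrArg (sp v) e).trans ?_
    exact (sp_cases3 q4 _).2.1 (by norm_num)
  · have e : ev ([2, 3, 5] : List F) (false, [-2]) = 1 / 4 := by norm_num [ev, evl]
    refine (congrArg (sp v) e).trans ?_
    exact (sp_cases3 q4 _).2.2.1 (by norm_num)
  · have e : ev ([2, 3, 5] : List F) (false, [-2, 1]) = 3 / 4 := by norm_num [ev, evl]
    refine (congrArg (sp v) e).trans ?_
    exact (sp_cases3 q4 _).2.2.2.1 (by norm_num)
  · have e : ev ([2, 3, 5] : List F) (true, [0, -1]) = -1 / 3 := by norm_num [ev, evl]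
    refine (congrArg (sp v) e).trans ?_
    exact (sp_cases3 q4 _).2.2.2.2.1 (by norm_num)
  · have e : ev ([2, 3, 5] : List F) (false, [2, -1]) = 4 / 3 := by norm_num [ev, evl]
    refine (congrArg (sp v) e).trans ?_
    exact (sp_cases3 q4 _).2.2.2.2.2 (by norm_num)
  · have e : ev ([2, 3, 5] : List F) (false, [0, 0, 1]) = 5 := by norm_num [ev, evl]
    refine (congrArg (sp v) e).trans ?_
    exact (sp_cases3 q5 _).1 (by norm_num)
  · have e : ev ([2, 3, 5] : List F) (true, [2]) = -4 := by norm_num [ev, evl]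
    refine (congrArg (sp v) e).trans ?_
    exact (sp_cases3 q5 _).2.1 (by norm_num)
  · have e : ev ([2, 3, 5] : List F) (false, [0, 0, -1]) = 1 / 5 := by norm_num [ev, evl]
    refine (congrArg (sp v) e).trans ?_
    exact (sp_cases3 q5 _).2.2.1 (by norm_num)
  · have e : ev ([2, 3, 5] : List F) (false, [2, 0, -1]) = 4 / 5 := by norm_num [ev, evl]
    refine (congrArg (sp v) e).trans ?_
    exact (sp_cases3 q5 _).2.2.2.1 (by norm_num)
  · have e : ev ([2, 3, 5] : List F) (true, [-2]) = -1 / 4 := by norm_num [ev, evl]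
    refine (congrArg (sp v) e).trans ?_
    exact (sp_cases3 q5 _).2.2.2.2.1 (by norm_num)
  · have e : ev ([2, 3, 5] : List F) (false, [-2, 0, 1]) = 5 / 4 := by norm_num [ev, evl]
    refine (congrArg (sp v) e).trans ?_
    exact (sp_cases3 q5 _).2.2.2.2.2 (by norm_num)
  · have e : ev ([2, 3, 5] : List F) (false, [1, 1]) = 6 := by norm_num [ev, evl]
    refine (congrArg (sp v) e).trans ?_
    exact (sp_cases3 q6 _).1 (by norm_num)
  · have e : ev ([2, 3, 5] : List F) (true, [0, 0, 1]) = -5 := by norm_num [ev, evl]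
    refine (congrArg (sp v) e).trans ?_
    exact (sp_cases3 q6 _).2.1 (by norm_num)
  · have e : ev ([2, 3, 5] : List F) (false, [-1, -1]) = 1 / 6 := by norm_num [ev, evl]
    refine (congrArg (sp v) e).trans ?_
    exact (sp_cases3 q6 _).2.2.1 (by norm_num)
  · have e : ev ([2, 3, 5] : List F) (false, [-1, -1, 1]) = 5 / 6 := by norm_num [ev, evl]
    refine (congrArg (sp v) e).trans ?_
    exact (sp_cases3 q6 _).2.2.2.1 (by norm_num)
  · have e : ev ([2, 3, 5] : List F) (true, [0, 0, -1]) = -1 / 5 := by norm_num [ev, evl]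
    refine (congrArg (sp v) e).trans ?_
    exact (sp_cases3 q6 _).2.2.2.2.1 (by norm_num)
  · have e : ev ([2, 3, 5] : List F) (false, [1, 1, -1]) = 6 / 5 := by norm_num [ev, evl]
    refine (congrArg (sp v) e).trans ?_
    exact (sp_cases3 q6 _).2.2.2.2.2 (by norm_num)
  · have e : ev ([2, 3, 5] : List F) (false, [0, 2]) = 9 := by norm_num [ev, evl]
    refine (congrArg (sp v) e).trans ?_
    exact (sp_cases3 q9 _).1 (by norm_num)
  · have e : ev ([2, 3, 5] : List F) (true, [3]) = -8 := by norm_num [ev, evl]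
    refine (congrArg (sp v) e).trans ?_
    exact (sp_cases3 q9 _).2.1 (by norm_num)
  · have e : ev ([2, 3, 5] : List F) (false, [0, -2]) = 1 / 9 := by norm_num [ev, evl]
    refine (congrArg (sp v) e).trans ?_
    exact (sp_cases3 q9 _).2.2.1 (by norm_num)
  · have e : ev ([2, 3, 5] : List F) (false, [3, -2]) = 8 / 9 := by norm_num [ev, evl]
    refine (congrArg (sp v) e).trans ?_
    exact (sp_cases3 q9 _).2.2.2.1 (by norm_num)
  · have e : ev ([2, 3, 5] : List F) (true, [-3]) = -1 / 8 := by norm_num [ev, evl]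
    refine (congrArg (sp v) e).trans ?_
    exact (sp_cases3 q9 _).2.2.2.2.1 (by norm_num)
  · have e : ev ([2, 3, 5] : List F) (false, [-3, 2]) = 9 / 8 := by norm_num [ev, evl]
    refine (congrArg (sp v) e).trans ?_
    exact (sp_cases3 q9 _).2.2.2.2.2 (by norm_num)
  · have e : ev ([2, 3, 5] : List F) (false, [1, 0, 1]) = 10 := by norm_num [ev, evl]
    refine (congrArg (sp v) e).trans ?_
    exact (sp_cases3 q10 _).1 (by norm_num)
  · have e : ev ([2, 3, 5] : List F) (true, [0, 2]) = -9 := by norm_num [ev, evl]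
    refine (congrArg (sp v) e).trans ?_
    exact (sp_cases3 q10 _).2.1 (by norm_num)
  · have e : ev ([2, 3, 5] : List F) (false, [-1, 0, -1]) = 1 / 10 := by norm_num [ev, evl]
    refine (congrArg (sp v) e).trans ?_
    exact (sp_cases3 q10 _).2.2.1 (by norm_num)
  · have e : ev ([2, 3, 5] : List F) (false, [-1, 2, -1]) = 9 / 10 := by norm_num [ev, evl]
    refine (congrArg (sp v) e).trans ?_
    exact (sp_cases3 q10 _).2.2.2.1 (by norm_num)
  · have e : ev ([2, 3, 5] : List F) (true, [0, -2]) = -1 / 9 := by norm_num [ev, evl]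
    refine (congrArg (sp v) e).trans ?_
    exact (sp_cases3 q10 _).2.2.2.2.1 (by norm_num)
  · have e : ev ([2, 3, 5] : List F) (false, [1, -2, 1]) = 10 / 9 := by norm_num [ev, evl]
    refine (congrArg (sp v) e).trans ?_
    exact (sp_cases3 q10 _).2.2.2.2.2 (by norm_num)
  · have e : ev ([2, 3, 5] : List F) (false, [4]) = 16 := by norm_num [ev, evl]
    refine (congrArg (sp v) e).trans ?_
    exact (sp_cases3 q16 _).1 (by norm_num)
  · have e : ev ([2, 3, 5] : List F) (true, [0, 1, 1]) = -15 := by norm_num [ev, evl]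
    refine (congrArg (sp v) e).trans ?_
    exact (sp_cases3 q16 _).2.1 (by norm_num)
  · have e : ev ([2, 3, 5] : List F) (false, [-4]) = 1 / 16 := by norm_num [ev, evl]
    refine (congrArg (sp v) e).trans ?_
    exact (sp_cases3 q16 _).2.2.1 (by norm_num)
  · have e : ev ([2, 3, 5] : List F) (false, [-4, 1, 1]) = 15 / 16 := by norm_num [ev, evl]
    refine (congrArg (sp v) e).trans ?_
    exact (sp_cases3 q16 _).2.2.2.1 (by norm_num)
  · have e : ev ([2, 3, 5] : List F) (true, [0, -1, -1]) = -1 / 15 := by norm_num [ev, evl]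
    refine (congrArg (sp v) e).trans ?_
    exact (sp_cases3 q16 _).2.2.2.2.1 (by norm_num)
  · have e : ev ([2, 3, 5] : List F) (false, [4, -1, -1]) = 16 / 15 := by norm_num [ev, evl]
    refine (congrArg (sp v) e).trans ?_
    exact (sp_cases3 q16 _).2.2.2.2.2 (by norm_num)
  · have e : ev ([2, 3, 5] : List F) (false, [0, 0, 2]) = 25 := by norm_num [ev, evl]
    refine (congrArg (sp v) e).trans ?_
    exact (sp_cases3 q25 _).1 (by norm_num)
  · have e : ev ([2, 3, 5] : List F) (true, [3, 1]) = -24 := by norm_num [ev, evl]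
    refine (congrArg (sp v) e).trans ?_
    exact (sp_cases3 q25 _).2.1 (by norm_num)
  · have e : ev ([2, 3, 5] : List F) (false, [0, 0, -2]) = 1 / 25 := by norm_num [ev, evl]
    refine (congrArg (sp v) e).trans ?_
    exact (sp_cases3 q25 _).2.2.1 (by norm_num)
  · have e : ev ([2, 3, 5] : List F) (false, [3, 1, -2]) = 24 / 25 := by norm_num [ev, evl]
    refine (congrArg (sp v) e).trans ?_
    exact (sp_cases3 q25 _).2.2.2.1 (by norm_num)
  · have e : ev ([2, 3, 5] : List F) (true, [-3, -1]) = -1 / 24 := by norm_num [ev, evl]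
    refine (congrArg (sp v) e).trans ?_
    exact (sp_cases3 q25 _).2.2.2.2.1 (by norm_num)
  · have e : ev ([2, 3, 5] : List F) (false, [-3, -1, 2]) = 25 / 24 := by norm_num [ev, evl]
    refine (congrArg (sp v) e).trans ?_
    exact (sp_cases3 q25 _).2.2.2.2.2 (by norm_num)

end tab

end Pool.Agent.FK4R
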