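import Pool.Agent.Lib_helper24.FAM.LK
import Pool.Agent.Lib_helper2.K4N.Q7X

set_option autoImplicit false
set_option linter.unusedSectionVars false
set_option linter.unusedVariables false
set_option linter.unusedSimpArgs false
set_option maxRecDepth 100000

/-!
# The first special curve with a point of order ten: the units at the translates
-/

open scoped TensorProduct

namespace Pool.Agent.FK4

open Pool.Agent.MK4 Pool.Agent.TN Pool.Agent.KC72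

section tup

variable {F : Type*} [Field F] {x y A B C H K D E G J : F}

/-- the units at a point of the curve -/
structure Q10a (x y A B C H K D E G J : F) : Prop where
  hA : x = A
  hB : x - 24 = B
  hC : x - 6 = C
  hH : x - 12 = H
  hK : x - 8 = K
  hD : y = D
  hE : y - 6 * x = E
  hG : y - 3 * x = G
  hJ : y - 4 * x = J
  A0 : A ≠ 0
  B0 : B ≠ 0
  C0 : C ≠ 0
  H0 : H ≠ 0
  K0 : K ≠ 0
  D0 : D ≠ 0
  E0 : E ≠ 0
  G0 : G ≠ 0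
  J0 : J ≠ 0
  eq : y ^ 2 - 5 * x * y - 24 * y = x ^ 3 - 24 * x ^ 2

lemma Q10a.congr {A' B' C' H' K' D' E' G' J' : F} (h : Q10a x y A B C H K D E G J)
    (h0 : A = A') (h1 : B = B') (h2 : C = C') (h3 : H = H') (h4 : K = K') (h5 : D = D') (h6 : E = E') (h7 : G = G') (h8 : J = J') :
    Q10a x y A' B' C' H' K' D' E' G' J' := by
  subst h0 h1 h2 h3 h4 h5 h6 h7 h8
  exact h

/-- translation by `P` -/
lemma Q10a.step [CharZero F] {p : F × F} (h : Q10a p.1 p.2 A B C H K D E G J) :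
    Q10a (K4N.Tn (24 : F) p).1 (K4N.Tn (24 : F) p).2
      (24 * D / (A ^ 2))
      (-(24 * D * E) / (A ^ 2 * B))
      (-(6 * E * G) / (A ^ 2 * C))
      (-(12 * G * J) / (A ^ 2 * H))
      (-(8 * J ^ 2) / (A ^ 2 * K))
      (576 * D * E / (A ^ 3 * B))
      (-(144 * D * E * G) / (A ^ 3 * B * C))
      (-(72 * E * G * J) / (A ^ 3 * C * H))
      (-(96 * G * J ^ 2) / (A ^ 3 * H * K)) := by
  obtain ⟨x, y⟩ := p
  obtain ⟨hA, hB, hC, hH, hK, hD, hE, hG, hJ, A0, B0, C0, H0, K0, D0, E0, G0, J0, he⟩ := h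
  dsimp only at hA hB hC hH hK hD hE hG hJ he
  subst hA hB hC hH hK hD hE hG hJ
  have x2 : x ^ 2 ≠ 0 := pow_ne_zero 2 A0
  have x3 : x ^ 3 ≠ 0 := pow_ne_zero 3 A0
  have d0 : x ^ 2 ≠ 0 := by
    exact (pow_ne_zero 2 A0)
  have d1 : x ^ 2 * (x - 24) ≠ 0 := by
    exact (mul_ne_zero (pow_ne_zero 2 A0) B0)
  have d2 : x ^ 2 * (x - 6) ≠ 0 := by
    exact (mul_ne_zero (pow_ne_zero 2 A0) C0)
  have d3 : x ^ 2 * (x - 12) ≠ 0 := by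
    exact (mul_ne_zero (pow_ne_zero 2 A0) H0)
  have d4 : x ^ 2 * (x - 8) ≠ 0 := by
    exact (mul_ne_zero (pow_ne_zero 2 A0) K0)
  have d5 : x ^ 3 * (x - 24) ≠ 0 := by
    exact (mul_ne_zero (pow_ne_zero 3 A0) B0)
  have d6 : x ^ 3 * (x - 24) * (x - 6) ≠ 0 := by
    exact (mul_ne_zero (mul_ne_zero (pow_ne_zero 3 A0) B0) C0)
  have d7 : x ^ 3 * (x - 6) * (x - 12) ≠ 0 := by
    exact (mul_ne_zero (mul_ne_zero (pow_ne_zero 3 A0) C0) H0)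
  have d8 : x ^ 3 * (x - 12) * (x - 8) ≠ 0 := by
    exact (mul_ne_zero (mul_ne_zero (pow_ne_zero 3 A0) H0) K0)
  refine ⟨?_, ?_, ?_, ?_, ?_, ?_, ?_, ?_, ?_, ?_, ?_, ?_, ?_, ?_, ?_, ?_, ?_, ?_, ?_⟩
  · show 24 * y / x ^ 2 = 24 * y / (x ^ 2)
    rfl
  · show 24 * y / x ^ 2 - 24 = -(24 * y * (y - 6 * x)) / (x ^ 2 * (x - 24))
    have e : 24 * y / x ^ 2 - 24 = (24 * y - 24 * x ^ 2) / x ^ 2 := by
      field_simp
    rw [e, div_eq_div_iff x2 d1]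
    linear_combination (24 * x ^ 2) * he
  · show 24 * y / x ^ 2 - 6 = -(6 * (y - 6 * x) * (y - 3 * x)) / (x ^ 2 * (x - 6))
    have e : 24 * y / x ^ 2 - 6 = (24 * y - 6 * x ^ 2) / x ^ 2 := by
      field_simp
    rw [e, div_eq_div_iff x2 d2]
    linear_combination (6 * x ^ 2) * he
  · show 24 * y / x ^ 2 - 12 = -(12 * (y - 3 * x) * (y - 4 * x)) / (x ^ 2 * (x - 12))
    have e : 24 * y / x ^ 2 - 12 = (24 * y - 12 * x ^ 2) / x ^ 2 := by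
      field_simp
    rw [e, div_eq_div_iff x2 d3]
    linear_combination (12 * x ^ 2) * he
  · show 24 * y / x ^ 2 - 8 = -(8 * (y - 4 * x) ^ 2) / (x ^ 2 * (x - 8))
    have e : 24 * y / x ^ 2 - 8 = (24 * y - 8 * x ^ 2) / x ^ 2 := by
      field_simp
    rw [e, div_eq_div_iff x2 d4]
    linear_combination (8 * x ^ 2) * he
  · show 24 ^ 2 * (x ^ 2 - y) / x ^ 3 = 576 * y * (y - 6 * x) / (x ^ 3 * (x - 24))
    have e : 24 ^ 2 * (x ^ 2 - y) / x ^ 3 = (24 ^ 2 * (x ^ 2 - y)) / x ^ 3 := by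
      field_simp
    rw [e, div_eq_div_iff x3 d5]
    linear_combination ((-576) * x ^ 3) * he
  · show 24 ^ 2 * (x ^ 2 - y) / x ^ 3 - 6 * (24 * y / x ^ 2) = -(144 * y * (y - 6 * x) * (y - 3 * x)) / (x ^ 3 * (x - 24) * (x - 6))
    have e : 24 ^ 2 * (x ^ 2 - y) / x ^ 3 - 6 * (24 * y / x ^ 2) = (24 ^ 2 * (x ^ 2 - y) - 6 * 24 * x * y) / x ^ 3 := by
      field_simp
    rw [e, div_eq_div_iff x3 d6]
    linear_combination (3456 * x ^ 3 + 144 * x ^ 3 * y + (-576) * x ^ 4) * he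
  · show 24 ^ 2 * (x ^ 2 - y) / x ^ 3 - 3 * (24 * y / x ^ 2) = -(72 * (y - 6 * x) * (y - 3 * x) * (y - 4 * x)) / (x ^ 3 * (x - 6) * (x - 12))
    have e : 24 ^ 2 * (x ^ 2 - y) / x ^ 3 - 3 * (24 * y / x ^ 2) = (24 ^ 2 * (x ^ 2 - y) - 3 * 24 * x * y) / x ^ 3 := by
      field_simp
    rw [e, div_eq_div_iff x3 d7]
    linear_combination (1728 * x ^ 3 + 72 * x ^ 3 * y + (-576) * x ^ 4) * he
  · show 24 ^ 2 * (x ^ 2 - y) / x ^ 3 - 4 * (24 * y / x ^ 2) = -(96 * (y - 3 * x) * (y - 4 * x) ^ 2) / (x ^ 3 * (x - 12) * (x - 8))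
    have e : 24 ^ 2 * (x ^ 2 - y) / x ^ 3 - 4 * (24 * y / x ^ 2) = (24 ^ 2 * (x ^ 2 - y) - 4 * 24 * x * y) / x ^ 3 := by
      field_simp
    rw [e, div_eq_div_iff x3 d8]
    linear_combination (2304 * x ^ 3 + 96 * x ^ 3 * y + (-576) * x ^ 4) * he
  · exact div_ne_zero (mul_ne_zero (by norm_num : (24 : F) ≠ 0) D0) d0
  · exact div_ne_zero (neg_ne_zero.mpr (mul_ne_zero (mul_ne_zero (by norm_num : (24 : F) ≠ 0) D0) E0)) d1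
  · exact div_ne_zero (neg_ne_zero.mpr (mul_ne_zero (mul_ne_zero (by norm_num : (6 : F) ≠ 0) E0) G0)) d2
  · exact div_ne_zero (neg_ne_zero.mpr (mul_ne_zero (mul_ne_zero (by norm_num : (12 : F) ≠ 0) G0) J0)) d3
  · exact div_ne_zero (neg_ne_zero.mpr (mul_ne_zero (by norm_num : (8 : F) ≠ 0) (pow_ne_zero 2 J0))) d4
  · exact div_ne_zero (mul_ne_zero (mul_ne_zero (by norm_num : (576 : F) ≠ 0) D0) E0) d5
  · exact div_ne_zero (neg_ne_zero.mpr (mul_ne_zero (mul_ne_zero (mul_ne_zero (by norm_num : (144 : F) ≠ 0) D0) E0) G0)) d6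
  · exact div_ne_zero (neg_ne_zero.mpr (mul_ne_zero (mul_ne_zero (mul_ne_zero (by norm_num : (72 : F) ≠ 0) E0) G0) J0)) d7
  · exact div_ne_zero (neg_ne_zero.mpr (mul_ne_zero (mul_ne_zero (by norm_num : (96 : F) ≠ 0) G0) (pow_ne_zero 2 J0))) d8
  · show (24 ^ 2 * (x ^ 2 - y) / x ^ 3) ^ 2 - 5 * (24 * y / x ^ 2) * (24 ^ 2 * (x ^ 2 - y) / x ^ 3) - 24 * (24 ^ 2 * (x ^ 2 - y) / x ^ 3) = (24 * y / x ^ 2) ^ 3 - 24 * (24 * y / x ^ 2) ^ 2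
    have e1 : (24 ^ 2 * (x ^ 2 - y) / x ^ 3) ^ 2 - 5 * (24 * y / x ^ 2) * (24 ^ 2 * (x ^ 2 - y) / x ^ 3) - 24 * (24 ^ 2 * (x ^ 2 - y) / x ^ 3) = ((24 ^ 2 * (x ^ 2 - y)) ^ 2 - 5 * (24 * y * x * (24 ^ 2 * (x ^ 2 - y))) - 24 * (x ^ 3 * (24 ^ 2 * (x ^ 2 - y)))) / x ^ 6 := by
      field_simp
    have e2 : (24 * y / x ^ 2) ^ 3 - 24 * (24 * y / x ^ 2) ^ 2 = ((24 * y) ^ 3 - 24 * (x ^ 2 * (24 * y) ^ 2)) / x ^ 6 := by
      field_simp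
    rw [e1, e2]
    congr 1
    linear_combination ((-13824) * y + 13824 * x ^ 2) * he

/-- the units at the translates -/
lemma Q10a.all [CharZero F] (h : Q10a x y A B C H K D E G J) :
    Q10a (K4N.It (24 : F) 0 (x, y)).1 (K4N.It (24 : F) 0 (x, y)).2
      (A) (B) (C)
      (H) (K) (D)
      (E) (G) (J) ∧
    Q10a (K4N.It (24 : F) 1 (x, y)).1 (K4N.It (24 : F) 1 (x, y)).2
      (24 * D / (A ^ 2)) (-(24 * D * E) / (A ^ 2 * B)) (-(6 * E * G) / (A ^ 2 * C))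
      (-(12 * G * J) / (A ^ 2 * H)) (-(8 * J ^ 2) / (A ^ 2 * K)) (576 * D * E / (A ^ 3 * B))
      (-(144 * D * E * G) / (A ^ 3 * B * C)) (-(72 * E * G * J) / (A ^ 3 * C * H)) (-(96 * G * J ^ 2) / (A ^ 3 * H * K)) ∧
    Q10a (K4N.It (24 : F) 2 (x, y)).1 (K4N.It (24 : F) 2 (x, y)).2
      (24 * A * E / (B * D)) (-(144 * E * G) / (B * C * D)) (18 * E * G * J / (B * C * H * D))
      (12 * E * G * J ^ 2 / (C * H * K * D ^ 2)) (16 * G ^ 2 * J ^ 2 / (H ^ 2 * K * D ^ 2)) (144 * A ^ 2 * E * G / (B * C * D ^ 2))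
      (-(432 * A * E * G * J) / (B * C * H * D ^ 2)) (72 * A * E * G * J ^ 2 / (B * C * H * K * D ^ 2)) (48 * A * E * G ^ 2 * J ^ 2 / (C * H ^ 2 * K * D ^ 3)) ∧
    Q10a (K4N.It (24 : F) 3 (x, y)).1 (K4N.It (24 : F) 3 (x, y)).2
      (6 * B * G / (C * E)) (-(18 * A * B * G * J) / (C * H * D * E)) (18 * B * G * J ^ 2 / (C * H * K * D * E))
      (-(6 * B * G ^ 2 * J ^ 2) / (C * H ^ 2 * K * D * E)) (-(2 * B ^ 2 * G ^ 2 * J ^ 2) / (C ^ 2 * H ^ 2 * K * D ^ 2)) (18 * B ^ 2 * G * J / (C * H * E ^ 2))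
      (-(18 * A * B ^ 2 * G * J ^ 2) / (C * H * K * D * E ^ 2)) (36 * B ^ 2 * G ^ 2 * J ^ 2 / (C * H ^ 2 * K * D * E ^ 2)) (-(6 * B ^ 2 * G ^ 2 * J ^ 2) / (C ^ 2 * H ^ 2 * K * D * E)) ∧
    Q10a (K4N.It (24 : F) 4 (x, y)).1 (K4N.It (24 : F) 4 (x, y)).2
      (12 * C * J / (H * G)) (-(12 * B * C * J ^ 2) / (H * K * E * G)) (6 * A * B * C * J ^ 2 / (H ^ 2 * K * D * E))
      (-(12 * B * J ^ 2) / (H ^ 2 * K * D)) (4 * J ^ 2 / (H ^ 2 * K)) (48 * C ^ 2 * J ^ 2 / (H * K * G ^ 2))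
      (-(24 * B * C ^ 2 * J ^ 2) / (H ^ 2 * K * E * G)) (12 * A * B * C * J ^ 2 / (H ^ 2 * K * D * G)) (-(48 * C * J ^ 2) / (H ^ 2 * K * G)) ∧
    Q10a (K4N.It (24 : F) 5 (x, y)).1 (K4N.It (24 : F) 5 (x, y)).2
      (8 * H / K) (-(16 * C) / K) (2 * B / K)
      (-(4 * A) / K) (-(32) / K) (32 * H * G / (K * J))
      (-(16 * H * E) / (K * J)) (8 * H * D / (K * J)) (32 * A * H / (K * J)) ∧
    Q10a (K4N.It (24 : F) 6 (x, y)).1 (K4N.It (24 : F) 6 (x, y)).2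
      (12 * K * G / (H * J)) (-(12 * K * E * G) / (C * J ^ 2)) (6 * K * D * E / (B * J ^ 2))
      (12 * K * D / (J ^ 2)) (4 * A ^ 2 * K / (J ^ 2)) (36 * K ^ 2 * E * G / (C * H * J ^ 2))
      (-(36 * K ^ 2 * D * E * G) / (B * C * J ^ 3)) (-(72 * K ^ 2 * D * E) / (B * J ^ 3)) (-(12 * A * K ^ 2 * D) / (J ^ 3)) ∧
    Q10a (K4N.It (24 : F) 7 (x, y)).1 (K4N.It (24 : F) 7 (x, y)).2
      (6 * H * E / (C * G)) (-(18 * H * K * D * E) / (B * C * G * J)) (-(18 * H ^ 2 * K * D * E) / (B * C * G * J ^ 2))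
      (-(6 * A * H ^ 2 * K * D * E) / (B * G ^ 2 * J ^ 2)) (-(2 * H ^ 2 * K * D ^ 2) / (G ^ 2 * J ^ 2)) (36 * H ^ 2 * D * E / (B * C * G ^ 2))
      (108 * H ^ 2 * K * D * E / (B * C * G ^ 2 * J)) (18 * A * H ^ 3 * K * D * E / (B * C * G ^ 2 * J ^ 2)) (12 * H ^ 3 * K * D ^ 2 * E / (B * G ^ 3 * J ^ 2)) ∧
    Q10a (K4N.It (24 : F) 8 (x, y)).1 (K4N.It (24 : F) 8 (x, y)).2
      (24 * C * D / (B * E)) (144 * C * H * D / (B * E * G)) (18 * A * C * H * K * D / (B * E * G * J))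
      (12 * C * H ^ 2 * K * D ^ 2 / (B * E * G * J ^ 2)) (16 * C ^ 2 * H ^ 2 * K * D ^ 2 / (B ^ 2 * G ^ 2 * J ^ 2)) (-(576 * C ^ 2 * D) / (B * E ^ 2))
      (-(144 * A * C ^ 2 * H * D) / (B * E ^ 2 * G)) (-(72 * C ^ 2 * H * K * D ^ 2) / (B * E ^ 2 * G * J)) (-(96 * C ^ 2 * H ^ 2 * K * D ^ 2) / (B ^ 2 * E * G * J ^ 2)) ∧
    Q10a (K4N.It (24 : F) 9 (x, y)).1 (K4N.It (24 : F) 9 (x, y)).2
      (-(24 * B) / D) (-(24 * A * B * C) / (D * E)) (-(6 * B * C * H) / (E * G))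
      (-(12 * C * H * K) / (G * J)) (-(8 * H ^ 2 * K) / (J ^ 2)) (24 * A * B ^ 2 / (D ^ 2))
      (24 * B ^ 2 * C / (D * E)) (24 * B * C * H / (D * G)) (24 * B * H * K / (D * J)) := by
  have A0 := h.A0
  have B0 := h.B0
  have C0 := h.C0
  have H0 := h.H0
  have K0 := h.K0
  have D0 := h.D0
  have E0 := h.E0
  have G0 := h.G0
  have J0 := h.J0
  have h0 : Q10a (K4N.It (24 : F) 0 (x, y)).1 (K4N.It (24 : F) 0 (x, y)).2 A B C H K D E G J := h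
  have h1 :
    Q10a (K4N.It (24 : F) 1 (x, y)).1 (K4N.It (24 : F) 1 (x, y)).2
      (24 * D / (A ^ 2)) (-(24 * D * E) / (A ^ 2 * B)) (-(6 * E * G) / (A ^ 2 * C))
      (-(12 * G * J) / (A ^ 2 * H)) (-(8 * J ^ 2) / (A ^ 2 * K)) (576 * D * E / (A ^ 3 * B))
      (-(144 * D * E * G) / (A ^ 3 * B * C)) (-(72 * E * G * J) / (A ^ 3 * C * H)) (-(96 * G * J ^ 2) / (A ^ 3 * H * K)) := by
    rw [K4N.It_succ]
    refine h0.step.congr ?_ ?_ ?_ ?_ ?_ ?_ ?_ ?_ ?_ <;> (field_simp; try ring)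
  have h2 :
    Q10a (K4N.It (24 : F) 2 (x, y)).1 (K4N.It (24 : F) 2 (x, y)).2
      (24 * A * E / (B * D)) (-(144 * E * G) / (B * C * D)) (18 * E * G * J / (B * C * H * D))
      (12 * E * G * J ^ 2 / (C * H * K * D ^ 2)) (16 * G ^ 2 * J ^ 2 / (H ^ 2 * K * D ^ 2)) (144 * A ^ 2 * E * G / (B * C * D ^ 2))
      (-(432 * A * E * G * J) / (B * C * H * D ^ 2)) (72 * A * E * G * J ^ 2 / (B * C * H * K * D ^ 2)) (48 * A * E * G ^ 2 * J ^ 2 / (C * H ^ 2 * K * D ^ 3)) := by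
    rw [K4N.It_succ]
    refine h1.step.congr ?_ ?_ ?_ ?_ ?_ ?_ ?_ ?_ ?_ <;> (field_simp; try ring)
  have h3 :
    Q10a (K4N.It (24 : F) 3 (x, y)).1 (K4N.It (24 : F) 3 (x, y)).2
      (6 * B * G / (C * E)) (-(18 * A * B * G * J) / (C * H * D * E)) (18 * B * G * J ^ 2 / (C * H * K * D * E))
      (-(6 * B * G ^ 2 * J ^ 2) / (C * H ^ 2 * K * D * E)) (-(2 * B ^ 2 * G ^ 2 * J ^ 2) / (C ^ 2 * H ^ 2 * K * D ^ 2)) (18 * B ^ 2 * G * J / (C * H * E ^ 2))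
      (-(18 * A * B ^ 2 * G * J ^ 2) / (C * H * K * D * E ^ 2)) (36 * B ^ 2 * G ^ 2 * J ^ 2 / (C * H ^ 2 * K * D * E ^ 2)) (-(6 * B ^ 2 * G ^ 2 * J ^ 2) / (C ^ 2 * H ^ 2 * K * D * E)) := by
    rw [K4N.It_succ]
    refine h2.step.congr ?_ ?_ ?_ ?_ ?_ ?_ ?_ ?_ ?_ <;> (field_simp; try ring)
  have h4 :
    Q10a (K4N.It (24 : F) 4 (x, y)).1 (K4N.It (24 : F) 4 (x, y)).2
      (12 * C * J / (H * G)) (-(12 * B * C * J ^ 2) / (H * K * E * G)) (6 * A * B * C * J ^ 2 / (H ^ 2 * K * D * E))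
      (-(12 * B * J ^ 2) / (H ^ 2 * K * D)) (4 * J ^ 2 / (H ^ 2 * K)) (48 * C ^ 2 * J ^ 2 / (H * K * G ^ 2))
      (-(24 * B * C ^ 2 * J ^ 2) / (H ^ 2 * K * E * G)) (12 * A * B * C * J ^ 2 / (H ^ 2 * K * D * G)) (-(48 * C * J ^ 2) / (H ^ 2 * K * G)) := by
    rw [K4N.It_succ]
    refine h3.step.congr ?_ ?_ ?_ ?_ ?_ ?_ ?_ ?_ ?_ <;> (field_simp; try ring)
  have h5 :
    Q10a (K4N.It (24 : F) 5 (x, y)).1 (K4N.It (24 : F) 5 (x, y)).2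
      (8 * H / K) (-(16 * C) / K) (2 * B / K)
      (-(4 * A) / K) (-(32) / K) (32 * H * G / (K * J))
      (-(16 * H * E) / (K * J)) (8 * H * D / (K * J)) (32 * A * H / (K * J)) := by
    rw [K4N.It_succ]
    refine h4.step.congr ?_ ?_ ?_ ?_ ?_ ?_ ?_ ?_ ?_ <;> (field_simp; try ring)
  have h6 :
    Q10a (K4N.It (24 : F) 6 (x, y)).1 (K4N.It (24 : F) 6 (x, y)).2
      (12 * K * G / (H * J)) (-(12 * K * E * G) / (C * J ^ 2)) (6 * K * D * E / (B * J ^ 2))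
      (12 * K * D / (J ^ 2)) (4 * A ^ 2 * K / (J ^ 2)) (36 * K ^ 2 * E * G / (C * H * J ^ 2))
      (-(36 * K ^ 2 * D * E * G) / (B * C * J ^ 3)) (-(72 * K ^ 2 * D * E) / (B * J ^ 3)) (-(12 * A * K ^ 2 * D) / (J ^ 3)) := by
    rw [K4N.It_succ]
    refine h5.step.congr ?_ ?_ ?_ ?_ ?_ ?_ ?_ ?_ ?_ <;> (field_simp; try ring)
  have h7 :
    Q10a (K4N.It (24 : F) 7 (x, y)).1 (K4N.It (24 : F) 7 (x, y)).2
      (6 * H * E / (C * G)) (-(18 * H * K * D * E) / (B * C * G * J)) (-(18 * H ^ 2 * K * D * E) / (B * C * G * J ^ 2))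
      (-(6 * A * H ^ 2 * K * D * E) / (B * G ^ 2 * J ^ 2)) (-(2 * H ^ 2 * K * D ^ 2) / (G ^ 2 * J ^ 2)) (36 * H ^ 2 * D * E / (B * C * G ^ 2))
      (108 * H ^ 2 * K * D * E / (B * C * G ^ 2 * J)) (18 * A * H ^ 3 * K * D * E / (B * C * G ^ 2 * J ^ 2)) (12 * H ^ 3 * K * D ^ 2 * E / (B * G ^ 3 * J ^ 2)) := by
    rw [K4N.It_succ]
    refine h6.step.congr ?_ ?_ ?_ ?_ ?_ ?_ ?_ ?_ ?_ <;> (field_simp; try ring)
  have h8 :
    Q10a (K4N.It (24 : F) 8 (x, y)).1 (K4N.It (24 : F) 8 (x, y)).2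
      (24 * C * D / (B * E)) (144 * C * H * D / (B * E * G)) (18 * A * C * H * K * D / (B * E * G * J))
      (12 * C * H ^ 2 * K * D ^ 2 / (B * E * G * J ^ 2)) (16 * C ^ 2 * H ^ 2 * K * D ^ 2 / (B ^ 2 * G ^ 2 * J ^ 2)) (-(576 * C ^ 2 * D) / (B * E ^ 2))
      (-(144 * A * C ^ 2 * H * D) / (B * E ^ 2 * G)) (-(72 * C ^ 2 * H * K * D ^ 2) / (B * E ^ 2 * G * J)) (-(96 * C ^ 2 * H ^ 2 * K * D ^ 2) / (B ^ 2 * E * G * J ^ 2)) := by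
    rw [K4N.It_succ]
    refine h7.step.congr ?_ ?_ ?_ ?_ ?_ ?_ ?_ ?_ ?_ <;> (field_simp; try ring)
  have h9 :
    Q10a (K4N.It (24 : F) 9 (x, y)).1 (K4N.It (24 : F) 9 (x, y)).2
      (-(24 * B) / D) (-(24 * A * B * C) / (D * E)) (-(6 * B * C * H) / (E * G))
      (-(12 * C * H * K) / (G * J)) (-(8 * H ^ 2 * K) / (J ^ 2)) (24 * A * B ^ 2 / (D ^ 2))
      (24 * B ^ 2 * C / (D * E)) (24 * B * C * H / (D * G)) (24 * B * H * K / (D * J)) := by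
    rw [K4N.It_succ]
    refine h8.step.congr ?_ ?_ ?_ ?_ ?_ ?_ ?_ ?_ ?_ <;> (field_simp; try ring)
  exact ⟨h0, h1, h2, h3, h4, h5, h6, h7, h8, h9⟩

end tup

end Pool.Agent.FK4
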