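import Pool.Agent.Lib_helper24.FAM.LK
import Pool.Agent.Lib_helper2.K4N.Q7X

set_option autoImplicit false
set_option linter.unusedSectionVars false
set_option linter.unusedVariables false
set_option linter.unusedSimpArgs false
set_option maxRecDepth 100000

/-!
# The second special curve with a point of order ten: the units at the translates
-/

open scoped TensorProduct

namespace Pool.Agent.FK4

open Pool.Agent.MK4 Pool.Agent.TN Pool.Agent.KC72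

section tup

variable {F : Type*} [Field F] {x y A B C H K D E G J : F}

/-- the units at a point of the curve -/
structure Q10b (x y A B C H K D E G J : F) : Prop where
  hA : x = A
  hB : x + (6 / 25) = B
  hC : x - (6 / 5) = C
  hH : x - (6 / 25) = H
  hK : x + (2 / 5) = K
  hD : y = D
  hE : y - (6 / 5) * x = E
  hG : y + (6 / 5) * x = G
  hJ : y - (2 / 5) * x = J
  A0 : A ≠ 0
  B0 : B ≠ 0
  C0 : C ≠ 0
  H0 : H ≠ 0
  K0 : K ≠ 0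
  D0 : D ≠ 0
  E0 : E ≠ 0
  G0 : G ≠ 0
  J0 : J ≠ 0
  eq : y ^ 2 - (1 / 5) * x * y + (6 / 25) * y = x ^ 3 + (6 / 25) * x ^ 2

lemma Q10b.congr {A' B' C' H' K' D' E' G' J' : F} (h : Q10b x y A B C H K D E G J)
    (h0 : A = A') (h1 : B = B') (h2 : C = C') (h3 : H = H') (h4 : K = K') (h5 : D = D') (h6 : E = E') (h7 : G = G') (h8 : J = J') :
    Q10b x y A' B' C' H' K' D' E' G' J' := by
  subst h0 h1 h2 h3 h4 h5 h6 h7 h8
  exact h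

/-- translation by `P` -/
lemma Q10b.step [CharZero F] {p : F × F} (h : Q10b p.1 p.2 A B C H K D E G J) :
    Q10b (K4N.Tn ((-6 / 25) : F) p).1 (K4N.Tn ((-6 / 25) : F) p).2
      (-(6 * D) / (25 * A ^ 2))
      (6 * D * E / (25 * A ^ 2 * B))
      (-(6 * E * G) / (5 * A ^ 2 * C))
      (-(6 * G * J) / (25 * A ^ 2 * H))
      (2 * J ^ 2 / (5 * A ^ 2 * K))
      (36 * D * E / (625 * A ^ 3 * B))
      (36 * D * E * G / (125 * A ^ 3 * B * C))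
      (-(36 * E * G * J) / (125 * A ^ 3 * C * H))
      (12 * G * J ^ 2 / (125 * A ^ 3 * H * K)) := by
  obtain ⟨x, y⟩ := p
  obtain ⟨hA, hB, hC, hH, hK, hD, hE, hG, hJ, A0, B0, C0, H0, K0, D0, E0, G0, J0, he⟩ := h
  dsimp only at hA hB hC hH hK hD hE hG hJ he
  subst hA hB hC hH hK hD hE hG hJ
  have x2 : x ^ 2 ≠ 0 := pow_ne_zero 2 A0
  have x3 : x ^ 3 ≠ 0 := pow_ne_zero 3 A0
  have d0 : 25 * x ^ 2 ≠ 0 := by
    exact (mul_ne_zero (by norm_num : (25 : F) ≠ 0) (pow_ne_zero 2 A0))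
  have d1 : 25 * x ^ 2 * (x + (6 / 25)) ≠ 0 := by
    exact (mul_ne_zero (mul_ne_zero (by norm_num : (25 : F) ≠ 0) (pow_ne_zero 2 A0)) B0)
  have d2 : 5 * x ^ 2 * (x - (6 / 5)) ≠ 0 := by
    exact (mul_ne_zero (mul_ne_zero (by norm_num : (5 : F) ≠ 0) (pow_ne_zero 2 A0)) C0)
  have d3 : 25 * x ^ 2 * (x - (6 / 25)) ≠ 0 := by
    exact (mul_ne_zero (mul_ne_zero (by norm_num : (25 : F) ≠ 0) (pow_ne_zero 2 A0)) H0)
  have d4 : 5 * x ^ 2 * (x + (2 / 5)) ≠ 0 := by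
    exact (mul_ne_zero (mul_ne_zero (by norm_num : (5 : F) ≠ 0) (pow_ne_zero 2 A0)) K0)
  have d5 : 625 * x ^ 3 * (x + (6 / 25)) ≠ 0 := by
    exact (mul_ne_zero (mul_ne_zero (by norm_num : (625 : F) ≠ 0) (pow_ne_zero 3 A0)) B0)
  have d6 : 125 * x ^ 3 * (x + (6 / 25)) * (x - (6 / 5)) ≠ 0 := by
    exact (mul_ne_zero (mul_ne_zero (mul_ne_zero (by norm_num : (125 : F) ≠ 0) (pow_ne_zero 3 A0)) B0) C0)
  have d7 : 125 * x ^ 3 * (x - (6 / 5)) * (x - (6 / 25)) ≠ 0 := by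
    exact (mul_ne_zero (mul_ne_zero (mul_ne_zero (by norm_num : (125 : F) ≠ 0) (pow_ne_zero 3 A0)) C0) H0)
  have d8 : 125 * x ^ 3 * (x - (6 / 25)) * (x + (2 / 5)) ≠ 0 := by
    exact (mul_ne_zero (mul_ne_zero (mul_ne_zero (by norm_num : (125 : F) ≠ 0) (pow_ne_zero 3 A0)) H0) K0)
  refine ⟨?_, ?_, ?_, ?_, ?_, ?_, ?_, ?_, ?_, ?_, ?_, ?_, ?_, ?_, ?_, ?_, ?_, ?_, ?_⟩
  · show (-6 / 25) * y / x ^ 2 = -(6 * y) / (25 * x ^ 2)
    have e : (-6 / 25) * y / x ^ 2 = ((-6 / 25) * y) / x ^ 2 := by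
      field_simp
    rw [e, div_eq_div_iff x2 d0]
    linear_combination (0) * he
  · show (-6 / 25) * y / x ^ 2 + (6 / 25) = 6 * y * (y - (6 / 5) * x) / (25 * x ^ 2 * (x + (6 / 25)))
    have e : (-6 / 25) * y / x ^ 2 + (6 / 25) = ((-6 / 25) * y + (6 / 25) * x ^ 2) / x ^ 2 := by
      field_simp
    rw [e, div_eq_div_iff x2 d1]
    linear_combination ((-6) * x ^ 2) * he
  · show (-6 / 25) * y / x ^ 2 - (6 / 5) = -(6 * (y - (6 / 5) * x) * (y + (6 / 5) * x)) / (5 * x ^ 2 * (x - (6 / 5)))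
    have e : (-6 / 25) * y / x ^ 2 - (6 / 5) = ((-6 / 25) * y - (6 / 5) * x ^ 2) / x ^ 2 := by
      field_simp
    rw [e, div_eq_div_iff x2 d2]
    linear_combination (6 * x ^ 2) * he
  · show (-6 / 25) * y / x ^ 2 - (6 / 25) = -(6 * (y + (6 / 5) * x) * (y - (2 / 5) * x)) / (25 * x ^ 2 * (x - (6 / 25)))
    have e : (-6 / 25) * y / x ^ 2 - (6 / 25) = ((-6 / 25) * y - (6 / 25) * x ^ 2) / x ^ 2 := by
      field_simp
    rw [e, div_eq_div_iff x2 d3]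
    linear_combination (6 * x ^ 2) * he
  · show (-6 / 25) * y / x ^ 2 + (2 / 5) = 2 * (y - (2 / 5) * x) ^ 2 / (5 * x ^ 2 * (x + (2 / 5)))
    have e : (-6 / 25) * y / x ^ 2 + (2 / 5) = ((-6 / 25) * y + (2 / 5) * x ^ 2) / x ^ 2 := by
      field_simp
    rw [e, div_eq_div_iff x2 d4]
    linear_combination ((-2) * x ^ 2) * he
  · show (-6 / 25) ^ 2 * (x ^ 2 - y) / x ^ 3 = 36 * y * (y - (6 / 5) * x) / (625 * x ^ 3 * (x + (6 / 25)))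
    have e : (-6 / 25) ^ 2 * (x ^ 2 - y) / x ^ 3 = ((-6 / 25) ^ 2 * (x ^ 2 - y)) / x ^ 3 := by
      field_simp
    rw [e, div_eq_div_iff x3 d5]
    linear_combination ((-36) * x ^ 3) * he
  · show (-6 / 25) ^ 2 * (x ^ 2 - y) / x ^ 3 - (6 / 5) * ((-6 / 25) * y / x ^ 2) = 36 * y * (y - (6 / 5) * x) * (y + (6 / 5) * x) / (125 * x ^ 3 * (x + (6 / 25)) * (x - (6 / 5)))
    have e : (-6 / 25) ^ 2 * (x ^ 2 - y) / x ^ 3 - (6 / 5) * ((-6 / 25) * y / x ^ 2) = ((-6 / 25) ^ 2 * (x ^ 2 - y) - (6 / 5) * (-6 / 25) * x * y) / x ^ 3 := by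
      field_simp
    rw [e, div_eq_div_iff x3 d6]
    linear_combination ((216 / 25) * x ^ 3 + (-36) * x ^ 3 * y + (-36 / 5) * x ^ 4) * he
  · show (-6 / 25) ^ 2 * (x ^ 2 - y) / x ^ 3 + (6 / 5) * ((-6 / 25) * y / x ^ 2) = -(36 * (y - (6 / 5) * x) * (y + (6 / 5) * x) * (y - (2 / 5) * x)) / (125 * x ^ 3 * (x - (6 / 5)) * (x - (6 / 25)))
    have e : (-6 / 25) ^ 2 * (x ^ 2 - y) / x ^ 3 + (6 / 5) * ((-6 / 25) * y / x ^ 2) = ((-6 / 25) ^ 2 * (x ^ 2 - y) + (6 / 5) * (-6 / 25) * x * y) / x ^ 3 := by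
      field_simp
    rw [e, div_eq_div_iff x3 d7]
    linear_combination ((-216 / 25) * x ^ 3 + 36 * x ^ 3 * y + (-36 / 5) * x ^ 4) * he
  · show (-6 / 25) ^ 2 * (x ^ 2 - y) / x ^ 3 - (2 / 5) * ((-6 / 25) * y / x ^ 2) = 12 * (y + (6 / 5) * x) * (y - (2 / 5) * x) ^ 2 / (125 * x ^ 3 * (x - (6 / 25)) * (x + (2 / 5)))
    have e : (-6 / 25) ^ 2 * (x ^ 2 - y) / x ^ 3 - (2 / 5) * ((-6 / 25) * y / x ^ 2) = ((-6 / 25) ^ 2 * (x ^ 2 - y) - (2 / 5) * (-6 / 25) * x * y) / x ^ 3 := by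
      field_simp
    rw [e, div_eq_div_iff x3 d8]
    linear_combination ((72 / 25) * x ^ 3 + (-12) * x ^ 3 * y + (-36 / 5) * x ^ 4) * he
  · exact div_ne_zero (neg_ne_zero.mpr (mul_ne_zero (by norm_num : (6 : F) ≠ 0) D0)) d0
  · exact div_ne_zero (mul_ne_zero (mul_ne_zero (by norm_num : (6 : F) ≠ 0) D0) E0) d1
  · exact div_ne_zero (neg_ne_zero.mpr (mul_ne_zero (mul_ne_zero (by norm_num : (6 : F) ≠ 0) E0) G0)) d2
  · exact div_ne_zero (neg_ne_zero.mpr (mul_ne_zero (mul_ne_zero (by norm_num : (6 : F) ≠ 0) G0) J0)) d3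
  · exact div_ne_zero (mul_ne_zero (by norm_num : (2 : F) ≠ 0) (pow_ne_zero 2 J0)) d4
  · exact div_ne_zero (mul_ne_zero (mul_ne_zero (by norm_num : (36 : F) ≠ 0) D0) E0) d5
  · exact div_ne_zero (mul_ne_zero (mul_ne_zero (mul_ne_zero (by norm_num : (36 : F) ≠ 0) D0) E0) G0) d6
  · exact div_ne_zero (neg_ne_zero.mpr (mul_ne_zero (mul_ne_zero (mul_ne_zero (by norm_num : (36 : F) ≠ 0) E0) G0) J0)) d7
  · exact div_ne_zero (mul_ne_zero (mul_ne_zero (by norm_num : (12 : F) ≠ 0) G0) (pow_ne_zero 2 J0)) d8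
  · show ((-6 / 25) ^ 2 * (x ^ 2 - y) / x ^ 3) ^ 2 - (1 / 5) * ((-6 / 25) * y / x ^ 2) * ((-6 / 25) ^ 2 * (x ^ 2 - y) / x ^ 3) + (6 / 25) * ((-6 / 25) ^ 2 * (x ^ 2 - y) / x ^ 3) = ((-6 / 25) * y / x ^ 2) ^ 3 + (6 / 25) * ((-6 / 25) * y / x ^ 2) ^ 2
    have e1 : ((-6 / 25) ^ 2 * (x ^ 2 - y) / x ^ 3) ^ 2 - (1 / 5) * ((-6 / 25) * y / x ^ 2) * ((-6 / 25) ^ 2 * (x ^ 2 - y) / x ^ 3) + (6 / 25) * ((-6 / 25) ^ 2 * (x ^ 2 - y) / x ^ 3) = (((-6 / 25) ^ 2 * (x ^ 2 - y)) ^ 2 - (1 / 5) * ((-6 / 25) * y * x * ((-6 / 25) ^ 2 * (x ^ 2 - y))) - (-6 / 25) * (x ^ 3 * ((-6 / 25) ^ 2 * (x ^ 2 - y)))) / x ^ 6 := by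
      field_simp ; ring
    have e2 : ((-6 / 25) * y / x ^ 2) ^ 3 + (6 / 25) * ((-6 / 25) * y / x ^ 2) ^ 2 = (((-6 / 25) * y) ^ 3 - (-6 / 25) * (x ^ 2 * ((-6 / 25) * y) ^ 2)) / x ^ 6 := by
      field_simp ; ring
    rw [e1, e2]
    congr 1
    linear_combination ((216 / 15625) * y + (-216 / 15625) * x ^ 2) * he

/-- the units at the translates -/
lemma Q10b.all [CharZero F] (h : Q10b x y A B C H K D E G J) :
    Q10b (K4N.It ((-6 / 25) : F) 0 (x, y)).1 (K4N.It ((-6 / 25) : F) 0 (x, y)).2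
      (A) (B) (C)
      (H) (K) (D)
      (E) (G) (J) ∧
    Q10b (K4N.It ((-6 / 25) : F) 1 (x, y)).1 (K4N.It ((-6 / 25) : F) 1 (x, y)).2
      (-(6 * D) / (25 * A ^ 2)) (6 * D * E / (25 * A ^ 2 * B)) (-(6 * E * G) / (5 * A ^ 2 * C))
      (-(6 * G * J) / (25 * A ^ 2 * H)) (2 * J ^ 2 / (5 * A ^ 2 * K)) (36 * D * E / (625 * A ^ 3 * B))
      (36 * D * E * G / (125 * A ^ 3 * B * C)) (-(36 * E * G * J) / (125 * A ^ 3 * C * H)) (12 * G * J ^ 2 / (125 * A ^ 3 * H * K)) ∧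
    Q10b (K4N.It ((-6 / 25) : F) 2 (x, y)).1 (K4N.It ((-6 / 25) : F) 2 (x, y)).2
      (-(6 * A * E) / (25 * B * D)) (36 * E * G / (125 * B * C * D)) (-(36 * E * G * J) / (25 * B * C * H * D))
      (-(12 * E * G * J ^ 2) / (25 * C * H * K * D ^ 2)) (4 * G ^ 2 * J ^ 2 / (25 * H ^ 2 * K * D ^ 2)) (-(36 * A ^ 2 * E * G) / (125 * B * C * D ^ 2))
      (-(216 * A * E * G * J) / (625 * B * C * H * D ^ 2)) (-(72 * A * E * G * J ^ 2) / (125 * B * C * H * K * D ^ 2)) (-(24 * A * E * G ^ 2 * J ^ 2) / (125 * C * H ^ 2 * K * D ^ 3)) ∧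
    Q10b (K4N.It ((-6 / 25) : F) 3 (x, y)).1 (K4N.It ((-6 / 25) : F) 3 (x, y)).2
      (6 * B * G / (5 * C * E)) (36 * A * B * G * J / (25 * C * H * D * E)) (72 * B * G * J ^ 2 / (25 * C * H * K * D * E))
      (24 * B * G ^ 2 * J ^ 2 / (25 * C * H ^ 2 * K * D * E)) (8 * B ^ 2 * G ^ 2 * J ^ 2 / (5 * C ^ 2 * H ^ 2 * K * D ^ 2)) (-(36 * B ^ 2 * G * J) / (25 * C * H * E ^ 2))
      (-(72 * A * B ^ 2 * G * J ^ 2) / (25 * C * H * K * D * E ^ 2)) (-(144 * B ^ 2 * G ^ 2 * J ^ 2) / (125 * C * H ^ 2 * K * D * E ^ 2)) (-(48 * B ^ 2 * G ^ 2 * J ^ 2) / (25 * C ^ 2 * H ^ 2 * K * D * E)) ∧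
    Q10b (K4N.It ((-6 / 25) : F) 4 (x, y)).1 (K4N.It ((-6 / 25) : F) 4 (x, y)).2
      (6 * C * J / (25 * H * G)) (12 * B * C * J ^ 2 / (25 * H * K * E * G)) (-(24 * A * B * C * J ^ 2) / (25 * H ^ 2 * K * D * E))
      (-(48 * B * J ^ 2) / (125 * H ^ 2 * K * D)) (16 * J ^ 2 / (25 * H ^ 2 * K)) (12 * C ^ 2 * J ^ 2 / (125 * H * K * G ^ 2))
      (-(24 * B * C ^ 2 * J ^ 2) / (125 * H ^ 2 * K * E * G)) (48 * A * B * C * J ^ 2 / (125 * H ^ 2 * K * D * G)) (-(96 * C * J ^ 2) / (625 * H ^ 2 * K * G)) ∧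
    Q10b (K4N.It ((-6 / 25) : F) 5 (x, y)).1 (K4N.It ((-6 / 25) : F) 5 (x, y)).2
      (-(2 * H) / (5 * K)) (-(4 * C) / (25 * K)) (-(8 * B) / (5 * K))
      (-(16 * A) / (25 * K)) (32 / (125 * K)) (-(4 * H * G) / (25 * K * J))
      (8 * H * E / (25 * K * J)) (-(16 * H * D) / (25 * K * J)) (-(32 * A * H) / (125 * K * J)) ∧
    Q10b (K4N.It ((-6 / 25) : F) 6 (x, y)).1 (K4N.It ((-6 / 25) : F) 6 (x, y)).2
      (6 * K * G / (25 * H * J)) (12 * K * E * G / (25 * C * J ^ 2)) (-(24 * K * D * E) / (25 * B * J ^ 2))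
      (48 * K * D / (125 * J ^ 2)) (16 * A ^ 2 * K / (25 * J ^ 2)) (-(36 * K ^ 2 * E * G) / (125 * C * H * J ^ 2))
      (-(72 * K ^ 2 * D * E * G) / (125 * B * C * J ^ 3)) (144 * K ^ 2 * D * E / (625 * B * J ^ 3)) (-(48 * A * K ^ 2 * D) / (125 * J ^ 3)) ∧
    Q10b (K4N.It ((-6 / 25) : F) 7 (x, y)).1 (K4N.It ((-6 / 25) : F) 7 (x, y)).2
      (6 * H * E / (5 * C * G)) (36 * H * K * D * E / (25 * B * C * G * J)) (-(72 * H ^ 2 * K * D * E) / (25 * B * C * G * J ^ 2))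
      (24 * A * H ^ 2 * K * D * E / (25 * B * G ^ 2 * J ^ 2)) (8 * H ^ 2 * K * D ^ 2 / (5 * G ^ 2 * J ^ 2)) (36 * H ^ 2 * D * E / (25 * B * C * G ^ 2))
      (-(216 * H ^ 2 * K * D * E) / (125 * B * C * G ^ 2 * J)) (72 * A * H ^ 3 * K * D * E / (25 * B * C * G ^ 2 * J ^ 2)) (24 * H ^ 3 * K * D ^ 2 * E / (25 * B * G ^ 3 * J ^ 2)) ∧
    Q10b (K4N.It ((-6 / 25) : F) 8 (x, y)).1 (K4N.It ((-6 / 25) : F) 8 (x, y)).2
      (-(6 * C * D) / (25 * B * E)) (-(36 * C * H * D) / (125 * B * E * G)) (-(36 * A * C * H * K * D) / (25 * B * E * G * J))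
      (-(12 * C * H ^ 2 * K * D ^ 2) / (25 * B * E * G * J ^ 2)) (4 * C ^ 2 * H ^ 2 * K * D ^ 2 / (25 * B ^ 2 * G ^ 2 * J ^ 2)) (-(36 * C ^ 2 * D) / (625 * B * E ^ 2))
      (36 * A * C ^ 2 * H * D / (125 * B * E ^ 2 * G)) (-(36 * C ^ 2 * H * K * D ^ 2) / (125 * B * E ^ 2 * G * J)) (12 * C ^ 2 * H ^ 2 * K * D ^ 2 / (125 * B ^ 2 * E * G * J ^ 2)) ∧
    Q10b (K4N.It ((-6 / 25) : F) 9 (x, y)).1 (K4N.It ((-6 / 25) : F) 9 (x, y)).2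
      (6 * B / (25 * D)) (6 * A * B * C / (25 * D * E)) (-(6 * B * C * H) / (5 * E * G))
      (-(6 * C * H * K) / (25 * G * J)) (2 * H ^ 2 * K / (5 * J ^ 2)) (-(6 * A * B ^ 2) / (25 * D ^ 2))
      (-(6 * B ^ 2 * C) / (25 * D * E)) (-(6 * B * C * H) / (25 * D * G)) (-(6 * B * H * K) / (25 * D * J)) := by
  have A0 := h.A0
  have B0 := h.B0
  have C0 := h.C0
  have H0 := h.H0
  have K0 := h.K0
  have D0 := h.D0
  have E0 := h.E0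
  have G0 := h.G0
  have J0 := h.J0
  have h0 : Q10b (K4N.It ((-6 / 25) : F) 0 (x, y)).1 (K4N.It ((-6 / 25) : F) 0 (x, y)).2 A B C H K D E G J := h
  have h1 :
    Q10b (K4N.It ((-6 / 25) : F) 1 (x, y)).1 (K4N.It ((-6 / 25) : F) 1 (x, y)).2
      (-(6 * D) / (25 * A ^ 2)) (6 * D * E / (25 * A ^ 2 * B)) (-(6 * E * G) / (5 * A ^ 2 * C))
      (-(6 * G * J) / (25 * A ^ 2 * H)) (2 * J ^ 2 / (5 * A ^ 2 * K)) (36 * D * E / (625 * A ^ 3 * B))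
      (36 * D * E * G / (125 * A ^ 3 * B * C)) (-(36 * E * G * J) / (125 * A ^ 3 * C * H)) (12 * G * J ^ 2 / (125 * A ^ 3 * H * K)) := by
    rw [K4N.It_succ]
    refine h0.step.congr ?_ ?_ ?_ ?_ ?_ ?_ ?_ ?_ ?_ <;> (field_simp; try ring)
  have h2 :
    Q10b (K4N.It ((-6 / 25) : F) 2 (x, y)).1 (K4N.It ((-6 / 25) : F) 2 (x, y)).2
      (-(6 * A * E) / (25 * B * D)) (36 * E * G / (125 * B * C * D)) (-(36 * E * G * J) / (25 * B * C * H * D))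
      (-(12 * E * G * J ^ 2) / (25 * C * H * K * D ^ 2)) (4 * G ^ 2 * J ^ 2 / (25 * H ^ 2 * K * D ^ 2)) (-(36 * A ^ 2 * E * G) / (125 * B * C * D ^ 2))
      (-(216 * A * E * G * J) / (625 * B * C * H * D ^ 2)) (-(72 * A * E * G * J ^ 2) / (125 * B * C * H * K * D ^ 2)) (-(24 * A * E * G ^ 2 * J ^ 2) / (125 * C * H ^ 2 * K * D ^ 3)) := by
    rw [K4N.It_succ]
    refine h1.step.congr ?_ ?_ ?_ ?_ ?_ ?_ ?_ ?_ ?_ <;> (field_simp; try ring)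
  have h3 :
    Q10b (K4N.It ((-6 / 25) : F) 3 (x, y)).1 (K4N.It ((-6 / 25) : F) 3 (x, y)).2
      (6 * B * G / (5 * C * E)) (36 * A * B * G * J / (25 * C * H * D * E)) (72 * B * G * J ^ 2 / (25 * C * H * K * D * E))
      (24 * B * G ^ 2 * J ^ 2 / (25 * C * H ^ 2 * K * D * E)) (8 * B ^ 2 * G ^ 2 * J ^ 2 / (5 * C ^ 2 * H ^ 2 * K * D ^ 2)) (-(36 * B ^ 2 * G * J) / (25 * C * H * E ^ 2))
      (-(72 * A * B ^ 2 * G * J ^ 2) / (25 * C * H * K * D * E ^ 2)) (-(144 * B ^ 2 * G ^ 2 * J ^ 2) / (125 * C * H ^ 2 * K * D * E ^ 2)) (-(48 * B ^ 2 * G ^ 2 * J ^ 2) / (25 * C ^ 2 * H ^ 2 * K * D * E)) := by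
    rw [K4N.It_succ]
    refine h2.step.congr ?_ ?_ ?_ ?_ ?_ ?_ ?_ ?_ ?_ <;> (field_simp; try ring)
  have h4 :
    Q10b (K4N.It ((-6 / 25) : F) 4 (x, y)).1 (K4N.It ((-6 / 25) : F) 4 (x, y)).2
      (6 * C * J / (25 * H * G)) (12 * B * C * J ^ 2 / (25 * H * K * E * G)) (-(24 * A * B * C * J ^ 2) / (25 * H ^ 2 * K * D * E))
      (-(48 * B * J ^ 2) / (125 * H ^ 2 * K * D)) (16 * J ^ 2 / (25 * H ^ 2 * K)) (12 * C ^ 2 * J ^ 2 / (125 * H * K * G ^ 2))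
      (-(24 * B * C ^ 2 * J ^ 2) / (125 * H ^ 2 * K * E * G)) (48 * A * B * C * J ^ 2 / (125 * H ^ 2 * K * D * G)) (-(96 * C * J ^ 2) / (625 * H ^ 2 * K * G)) := by
    rw [K4N.It_succ]
    refine h3.step.congr ?_ ?_ ?_ ?_ ?_ ?_ ?_ ?_ ?_ <;> (field_simp; try ring)
  have h5 :
    Q10b (K4N.It ((-6 / 25) : F) 5 (x, y)).1 (K4N.It ((-6 / 25) : F) 5 (x, y)).2
      (-(2 * H) / (5 * K)) (-(4 * C) / (25 * K)) (-(8 * B) / (5 * K))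
      (-(16 * A) / (25 * K)) (32 / (125 * K)) (-(4 * H * G) / (25 * K * J))
      (8 * H * E / (25 * K * J)) (-(16 * H * D) / (25 * K * J)) (-(32 * A * H) / (125 * K * J)) := by
    rw [K4N.It_succ]
    refine h4.step.congr ?_ ?_ ?_ ?_ ?_ ?_ ?_ ?_ ?_ <;> (field_simp; try ring)
  have h6 :
    Q10b (K4N.It ((-6 / 25) : F) 6 (x, y)).1 (K4N.It ((-6 / 25) : F) 6 (x, y)).2
      (6 * K * G / (25 * H * J)) (12 * K * E * G / (25 * C * J ^ 2)) (-(24 * K * D * E) / (25 * B * J ^ 2))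
      (48 * K * D / (125 * J ^ 2)) (16 * A ^ 2 * K / (25 * J ^ 2)) (-(36 * K ^ 2 * E * G) / (125 * C * H * J ^ 2))
      (-(72 * K ^ 2 * D * E * G) / (125 * B * C * J ^ 3)) (144 * K ^ 2 * D * E / (625 * B * J ^ 3)) (-(48 * A * K ^ 2 * D) / (125 * J ^ 3)) := by
    rw [K4N.It_succ]
    refine h5.step.congr ?_ ?_ ?_ ?_ ?_ ?_ ?_ ?_ ?_ <;> (field_simp; try ring)
  have h7 :
    Q10b (K4N.It ((-6 / 25) : F) 7 (x, y)).1 (K4N.It ((-6 / 25) : F) 7 (x, y)).2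
      (6 * H * E / (5 * C * G)) (36 * H * K * D * E / (25 * B * C * G * J)) (-(72 * H ^ 2 * K * D * E) / (25 * B * C * G * J ^ 2))
      (24 * A * H ^ 2 * K * D * E / (25 * B * G ^ 2 * J ^ 2)) (8 * H ^ 2 * K * D ^ 2 / (5 * G ^ 2 * J ^ 2)) (36 * H ^ 2 * D * E / (25 * B * C * G ^ 2))
      (-(216 * H ^ 2 * K * D * E) / (125 * B * C * G ^ 2 * J)) (72 * A * H ^ 3 * K * D * E / (25 * B * C * G ^ 2 * J ^ 2)) (24 * H ^ 3 * K * D ^ 2 * E / (25 * B * G ^ 3 * J ^ 2)) := by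
    rw [K4N.It_succ]
    refine h6.step.congr ?_ ?_ ?_ ?_ ?_ ?_ ?_ ?_ ?_ <;> (field_simp; try ring)
  have h8 :
    Q10b (K4N.It ((-6 / 25) : F) 8 (x, y)).1 (K4N.It ((-6 / 25) : F) 8 (x, y)).2
      (-(6 * C * D) / (25 * B * E)) (-(36 * C * H * D) / (125 * B * E * G)) (-(36 * A * C * H * K * D) / (25 * B * E * G * J))
      (-(12 * C * H ^ 2 * K * D ^ 2) / (25 * B * E * G * J ^ 2)) (4 * C ^ 2 * H ^ 2 * K * D ^ 2 / (25 * B ^ 2 * G ^ 2 * J ^ 2)) (-(36 * C ^ 2 * D) / (625 * B * E ^ 2))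
      (36 * A * C ^ 2 * H * D / (125 * B * E ^ 2 * G)) (-(36 * C ^ 2 * H * K * D ^ 2) / (125 * B * E ^ 2 * G * J)) (12 * C ^ 2 * H ^ 2 * K * D ^ 2 / (125 * B ^ 2 * E * G * J ^ 2)) := by
    rw [K4N.It_succ]
    refine h7.step.congr ?_ ?_ ?_ ?_ ?_ ?_ ?_ ?_ ?_ <;> (field_simp; try ring)
  have h9 :
    Q10b (K4N.It ((-6 / 25) : F) 9 (x, y)).1 (K4N.It ((-6 / 25) : F) 9 (x, y)).2
      (6 * B / (25 * D)) (6 * A * B * C / (25 * D * E)) (-(6 * B * C * H) / (5 * E * G))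
      (-(6 * C * H * K) / (25 * G * J)) (2 * H ^ 2 * K / (5 * J ^ 2)) (-(6 * A * B ^ 2) / (25 * D ^ 2))
      (-(6 * B ^ 2 * C) / (25 * D * E)) (-(6 * B * C * H) / (25 * D * G)) (-(6 * B * H * K) / (25 * D * J)) := by
    rw [K4N.It_succ]
    refine h8.step.congr ?_ ?_ ?_ ?_ ?_ ?_ ?_ ?_ ?_ <;> (field_simp; try ring)
  exact ⟨h0, h1, h2, h3, h4, h5, h6, h7, h8, h9⟩

end tup

end Pool.Agent.FK4
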