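import Pool.Agent.Lib_helper24.FAM.LK
import Pool.Agent.Lib_helper2.K4N.Q7X

set_option autoImplicit false
set_option linter.unusedSectionVars false
set_option linter.unusedVariables false
set_option linter.unusedSimpArgs false
set_option maxRecDepth 100000

/-!
# The special curve with a point of order twelve: the units at the translates
-/

open scoped TensorProduct

namespace Pool.Agent.FK4

open Pool.Agent.MK4 Pool.Agent.TN Pool.Agent.KC72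

section tup

variable {F : Type*} [Field F] {x y A B C H K M D E G J N : F}

/-- the units at a point of the curve -/
structure Q12a (x y A B C H K M D E G J N : F) : Prop where
  hA : x = A
  hB : x - (10 / 3) = B
  hC : x - 2 = C
  hH : x - (10 / 9) = H
  hK : x - 10 = K
  hM : x + (2 / 3) = M
  hD : y = D
  hE : y - 2 * x = E
  hG : y - (2 / 3) * x = G
  hJ : y - (10 / 3) * x = J
  hN : y + 2 * x = N
  A0 : A ≠ 0
  B0 : B ≠ 0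
  C0 : C ≠ 0
  H0 : H ≠ 0
  K0 : K ≠ 0
  M0 : M ≠ 0
  D0 : D ≠ 0
  E0 : E ≠ 0
  G0 : G ≠ 0
  J0 : J ≠ 0
  N0 : N ≠ 0
  eq : y ^ 2 - x * y - (10 / 3) * y = x ^ 3 - (10 / 3) * x ^ 2

lemma Q12a.congr {A' B' C' H' K' M' D' E' G' J' N' : F} (h : Q12a x y A B C H K M D E G J N)
    (h0 : A = A') (h1 : B = B') (h2 : C = C') (h3 : H = H') (h4 : K = K') (h5 : M = M') (h6 : D = D') (h7 : E = E') (h8 : G = G') (h9 : J = J') (h10 : N = N') :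
    Q12a x y A' B' C' H' K' M' D' E' G' J' N' := by
  subst h0 h1 h2 h3 h4 h5 h6 h7 h8 h9 h10
  exact h

/-- translation by `P` -/
lemma Q12a.step [CharZero F] {p : F × F} (h : Q12a p.1 p.2 A B C H K M D E G J N) :
    Q12a (K4N.Tn ((10 / 3) : F) p).1 (K4N.Tn ((10 / 3) : F) p).2
      (10 * D / (3 * A ^ 2))
      (-(10 * D * E) / (3 * A ^ 2 * B))
      (-(2 * E * G) / (A ^ 2 * C))
      (-(10 * G * J) / (9 * A ^ 2 * H))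
      (-(10 * J * N) / (A ^ 2 * K))
      (2 * N ^ 2 / (3 * A ^ 2 * M))
      (100 * D * E / (9 * A ^ 3 * B))
      (-(20 * D * E * G) / (3 * A ^ 3 * B * C))
      (-(20 * E * G * J) / (9 * A ^ 3 * C * H))
      (-(100 * G * J * N) / (9 * A ^ 3 * H * K))
      (20 * J * N ^ 2 / (3 * A ^ 3 * K * M)) := by
  obtain ⟨x, y⟩ := p
  obtain ⟨hA, hB, hC, hH, hK, hM, hD, hE, hG, hJ, hN, A0, B0, C0, H0, K0, M0, D0, E0, G0, J0, N0, he⟩ := h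
  dsimp only at hA hB hC hH hK hM hD hE hG hJ hN he
  subst hA hB hC hH hK hM hD hE hG hJ hN
  have x2 : x ^ 2 ≠ 0 := pow_ne_zero 2 A0
  have x3 : x ^ 3 ≠ 0 := pow_ne_zero 3 A0
  have d0 : 3 * x ^ 2 ≠ 0 := by
    exact (mul_ne_zero (by norm_num : (3 : F) ≠ 0) (pow_ne_zero 2 A0))
  have d1 : 3 * x ^ 2 * (x - (10 / 3)) ≠ 0 := by
    exact (mul_ne_zero (mul_ne_zero (by norm_num : (3 : F) ≠ 0) (pow_ne_zero 2 A0)) B0)
  have d2 : x ^ 2 * (x - 2) ≠ 0 := by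
    exact (mul_ne_zero (pow_ne_zero 2 A0) C0)
  have d3 : 9 * x ^ 2 * (x - (10 / 9)) ≠ 0 := by
    exact (mul_ne_zero (mul_ne_zero (by norm_num : (9 : F) ≠ 0) (pow_ne_zero 2 A0)) H0)
  have d4 : x ^ 2 * (x - 10) ≠ 0 := by
    exact (mul_ne_zero (pow_ne_zero 2 A0) K0)
  have d5 : 3 * x ^ 2 * (x + (2 / 3)) ≠ 0 := by
    exact (mul_ne_zero (mul_ne_zero (by norm_num : (3 : F) ≠ 0) (pow_ne_zero 2 A0)) M0)
  have d6 : 9 * x ^ 3 * (x - (10 / 3)) ≠ 0 := by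
    exact (mul_ne_zero (mul_ne_zero (by norm_num : (9 : F) ≠ 0) (pow_ne_zero 3 A0)) B0)
  have d7 : 3 * x ^ 3 * (x - (10 / 3)) * (x - 2) ≠ 0 := by
    exact (mul_ne_zero (mul_ne_zero (mul_ne_zero (by norm_num : (3 : F) ≠ 0) (pow_ne_zero 3 A0)) B0) C0)
  have d8 : 9 * x ^ 3 * (x - 2) * (x - (10 / 9)) ≠ 0 := by
    exact (mul_ne_zero (mul_ne_zero (mul_ne_zero (by norm_num : (9 : F) ≠ 0) (pow_ne_zero 3 A0)) C0) H0)
  have d9 : 9 * x ^ 3 * (x - (10 / 9)) * (x - 10) ≠ 0 := by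
    exact (mul_ne_zero (mul_ne_zero (mul_ne_zero (by norm_num : (9 : F) ≠ 0) (pow_ne_zero 3 A0)) H0) K0)
  have d10 : 3 * x ^ 3 * (x - 10) * (x + (2 / 3)) ≠ 0 := by
    exact (mul_ne_zero (mul_ne_zero (mul_ne_zero (by norm_num : (3 : F) ≠ 0) (pow_ne_zero 3 A0)) K0) M0)
  refine ⟨?_, ?_, ?_, ?_, ?_, ?_, ?_, ?_, ?_, ?_, ?_, ?_, ?_, ?_, ?_, ?_, ?_, ?_, ?_, ?_, ?_, ?_, ?_⟩
  · show (10 / 3) * y / x ^ 2 = 10 * y / (3 * x ^ 2)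
    have e : (10 / 3) * y / x ^ 2 = ((10 / 3) * y) / x ^ 2 := by
      field_simp
    rw [e, div_eq_div_iff x2 d0]
    linear_combination (0) * he
  · show (10 / 3) * y / x ^ 2 - (10 / 3) = -(10 * y * (y - 2 * x)) / (3 * x ^ 2 * (x - (10 / 3)))
    have e : (10 / 3) * y / x ^ 2 - (10 / 3) = ((10 / 3) * y - (10 / 3) * x ^ 2) / x ^ 2 := by
      field_simp
    rw [e, div_eq_div_iff x2 d1]
    linear_combination (10 * x ^ 2) * he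
  · show (10 / 3) * y / x ^ 2 - 2 = -(2 * (y - 2 * x) * (y - (2 / 3) * x)) / (x ^ 2 * (x - 2))
    have e : (10 / 3) * y / x ^ 2 - 2 = ((10 / 3) * y - 2 * x ^ 2) / x ^ 2 := by
      field_simp
    rw [e, div_eq_div_iff x2 d2]
    linear_combination (2 * x ^ 2) * he
  · show (10 / 3) * y / x ^ 2 - (10 / 9) = -(10 * (y - (2 / 3) * x) * (y - (10 / 3) * x)) / (9 * x ^ 2 * (x - (10 / 9)))
    have e : (10 / 3) * y / x ^ 2 - (10 / 9) = ((10 / 3) * y - (10 / 9) * x ^ 2) / x ^ 2 := by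
      field_simp
    rw [e, div_eq_div_iff x2 d3]
    linear_combination (10 * x ^ 2) * he
  · show (10 / 3) * y / x ^ 2 - 10 = -(10 * (y - (10 / 3) * x) * (y + 2 * x)) / (x ^ 2 * (x - 10))
    have e : (10 / 3) * y / x ^ 2 - 10 = ((10 / 3) * y - 10 * x ^ 2) / x ^ 2 := by
      field_simp
    rw [e, div_eq_div_iff x2 d4]
    linear_combination (10 * x ^ 2) * he
  · show (10 / 3) * y / x ^ 2 + (2 / 3) = 2 * (y + 2 * x) ^ 2 / (3 * x ^ 2 * (x + (2 / 3)))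
    have e : (10 / 3) * y / x ^ 2 + (2 / 3) = ((10 / 3) * y + (2 / 3) * x ^ 2) / x ^ 2 := by
      field_simp
    rw [e, div_eq_div_iff x2 d5]
    linear_combination ((-2) * x ^ 2) * he
  · show (10 / 3) ^ 2 * (x ^ 2 - y) / x ^ 3 = 100 * y * (y - 2 * x) / (9 * x ^ 3 * (x - (10 / 3)))
    have e : (10 / 3) ^ 2 * (x ^ 2 - y) / x ^ 3 = ((10 / 3) ^ 2 * (x ^ 2 - y)) / x ^ 3 := by
      field_simp
    rw [e, div_eq_div_iff x3 d6]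
    linear_combination ((-100) * x ^ 3) * he
  · show (10 / 3) ^ 2 * (x ^ 2 - y) / x ^ 3 - 2 * ((10 / 3) * y / x ^ 2) = -(20 * y * (y - 2 * x) * (y - (2 / 3) * x)) / (3 * x ^ 3 * (x - (10 / 3)) * (x - 2))
    have e : (10 / 3) ^ 2 * (x ^ 2 - y) / x ^ 3 - 2 * ((10 / 3) * y / x ^ 2) = ((10 / 3) ^ 2 * (x ^ 2 - y) - 2 * (10 / 3) * x * y) / x ^ 3 := by
      field_simp
    rw [e, div_eq_div_iff x3 d7]
    linear_combination ((200 / 3) * x ^ 3 + 20 * x ^ 3 * y + (-100 / 3) * x ^ 4) * he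
  · show (10 / 3) ^ 2 * (x ^ 2 - y) / x ^ 3 - (2 / 3) * ((10 / 3) * y / x ^ 2) = -(20 * (y - 2 * x) * (y - (2 / 3) * x) * (y - (10 / 3) * x)) / (9 * x ^ 3 * (x - 2) * (x - (10 / 9)))
    have e : (10 / 3) ^ 2 * (x ^ 2 - y) / x ^ 3 - (2 / 3) * ((10 / 3) * y / x ^ 2) = ((10 / 3) ^ 2 * (x ^ 2 - y) - (2 / 3) * (10 / 3) * x * y) / x ^ 3 := by
      field_simp
    rw [e, div_eq_div_iff x3 d8]
    linear_combination ((200 / 3) * x ^ 3 + 20 * x ^ 3 * y + (-100) * x ^ 4) * he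
  · show (10 / 3) ^ 2 * (x ^ 2 - y) / x ^ 3 - (10 / 3) * ((10 / 3) * y / x ^ 2) = -(100 * (y - (2 / 3) * x) * (y - (10 / 3) * x) * (y + 2 * x)) / (9 * x ^ 3 * (x - (10 / 9)) * (x - 10))
    have e : (10 / 3) ^ 2 * (x ^ 2 - y) / x ^ 3 - (10 / 3) * ((10 / 3) * y / x ^ 2) = ((10 / 3) ^ 2 * (x ^ 2 - y) - (10 / 3) * (10 / 3) * x * y) / x ^ 3 := by
      field_simp
    rw [e, div_eq_div_iff x3 d9]
    linear_combination ((1000 / 3) * x ^ 3 + 100 * x ^ 3 * y + (-100) * x ^ 4) * he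
  · show (10 / 3) ^ 2 * (x ^ 2 - y) / x ^ 3 + 2 * ((10 / 3) * y / x ^ 2) = 20 * (y - (10 / 3) * x) * (y + 2 * x) ^ 2 / (3 * x ^ 3 * (x - 10) * (x + (2 / 3)))
    have e : (10 / 3) ^ 2 * (x ^ 2 - y) / x ^ 3 + 2 * ((10 / 3) * y / x ^ 2) = ((10 / 3) ^ 2 * (x ^ 2 - y) + 2 * (10 / 3) * x * y) / x ^ 3 := by
      field_simp
    rw [e, div_eq_div_iff x3 d10]
    linear_combination ((-200 / 3) * x ^ 3 + (-20) * x ^ 3 * y + (-100 / 3) * x ^ 4) * he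
  · exact div_ne_zero (mul_ne_zero (by norm_num : (10 : F) ≠ 0) D0) d0
  · exact div_ne_zero (neg_ne_zero.mpr (mul_ne_zero (mul_ne_zero (by norm_num : (10 : F) ≠ 0) D0) E0)) d1
  · exact div_ne_zero (neg_ne_zero.mpr (mul_ne_zero (mul_ne_zero (by norm_num : (2 : F) ≠ 0) E0) G0)) d2
  · exact div_ne_zero (neg_ne_zero.mpr (mul_ne_zero (mul_ne_zero (by norm_num : (10 : F) ≠ 0) G0) J0)) d3
  · exact div_ne_zero (neg_ne_zero.mpr (mul_ne_zero (mul_ne_zero (by norm_num : (10 : F) ≠ 0) J0) N0)) d4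
  · exact div_ne_zero (mul_ne_zero (by norm_num : (2 : F) ≠ 0) (pow_ne_zero 2 N0)) d5
  · exact div_ne_zero (mul_ne_zero (mul_ne_zero (by norm_num : (100 : F) ≠ 0) D0) E0) d6
  · exact div_ne_zero (neg_ne_zero.mpr (mul_ne_zero (mul_ne_zero (mul_ne_zero (by norm_num : (20 : F) ≠ 0) D0) E0) G0)) d7
  · exact div_ne_zero (neg_ne_zero.mpr (mul_ne_zero (mul_ne_zero (mul_ne_zero (by norm_num : (20 : F) ≠ 0) E0) G0) J0)) d8
  · exact div_ne_zero (neg_ne_zero.mpr (mul_ne_zero (mul_ne_zero (mul_ne_zero (by norm_num : (100 : F) ≠ 0) G0) J0) N0)) d9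
  · exact div_ne_zero (mul_ne_zero (mul_ne_zero (by norm_num : (20 : F) ≠ 0) J0) (pow_ne_zero 2 N0)) d10
  · show ((10 / 3) ^ 2 * (x ^ 2 - y) / x ^ 3) ^ 2 - ((10 / 3) * y / x ^ 2) * ((10 / 3) ^ 2 * (x ^ 2 - y) / x ^ 3) - (10 / 3) * ((10 / 3) ^ 2 * (x ^ 2 - y) / x ^ 3) = ((10 / 3) * y / x ^ 2) ^ 3 - (10 / 3) * ((10 / 3) * y / x ^ 2) ^ 2
    have e1 : ((10 / 3) ^ 2 * (x ^ 2 - y) / x ^ 3) ^ 2 - ((10 / 3) * y / x ^ 2) * ((10 / 3) ^ 2 * (x ^ 2 - y) / x ^ 3) - (10 / 3) * ((10 / 3) ^ 2 * (x ^ 2 - y) / x ^ 3) = (((10 / 3) ^ 2 * (x ^ 2 - y)) ^ 2 - ((10 / 3) * y * x * ((10 / 3) ^ 2 * (x ^ 2 - y))) - (10 / 3) * (x ^ 3 * ((10 / 3) ^ 2 * (x ^ 2 - y)))) / x ^ 6 := by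
      field_simp
    have e2 : ((10 / 3) * y / x ^ 2) ^ 3 - (10 / 3) * ((10 / 3) * y / x ^ 2) ^ 2 = (((10 / 3) * y) ^ 3 - (10 / 3) * (x ^ 2 * ((10 / 3) * y) ^ 2)) / x ^ 6 := by
      field_simp
    rw [e1, e2]
    congr 1
    linear_combination ((-1000 / 27) * y + (1000 / 27) * x ^ 2) * he

/-- the units at the translates -/
lemma Q12a.all [CharZero F] (h : Q12a x y A B C H K M D E G J N) :
    Q12a (K4N.It ((10 / 3) : F) 0 (x, y)).1 (K4N.It ((10 / 3) : F) 0 (x, y)).2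
      (A) (B) (C)
      (H) (K) (M)
      (D) (E) (G)
      (J) (N) ∧
    Q12a (K4N.It ((10 / 3) : F) 1 (x, y)).1 (K4N.It ((10 / 3) : F) 1 (x, y)).2
      (10 * D / (3 * A ^ 2)) (-(10 * D * E) / (3 * A ^ 2 * B)) (-(2 * E * G) / (A ^ 2 * C))
      (-(10 * G * J) / (9 * A ^ 2 * H)) (-(10 * J * N) / (A ^ 2 * K)) (2 * N ^ 2 / (3 * A ^ 2 * M))
      (100 * D * E / (9 * A ^ 3 * B)) (-(20 * D * E * G) / (3 * A ^ 3 * B * C)) (-(20 * E * G * J) / (9 * A ^ 3 * C * H))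
      (-(100 * G * J * N) / (9 * A ^ 3 * H * K)) (20 * J * N ^ 2 / (3 * A ^ 3 * K * M)) ∧
    Q12a (K4N.It ((10 / 3) : F) 2 (x, y)).1 (K4N.It ((10 / 3) : F) 2 (x, y)).2
      (10 * A * E / (3 * B * D)) (-(20 * E * G) / (3 * B * C * D)) (4 * E * G * J / (3 * B * C * H * D))
      (20 * E * G * J * N / (9 * C * H * K * D ^ 2)) (-(20 * G * J * N ^ 2) / (3 * H * K * M * D ^ 2)) (4 * J ^ 2 * N ^ 2 / (K ^ 2 * M * D ^ 2))
      (20 * A ^ 2 * E * G / (3 * B * C * D ^ 2)) (-(40 * A * E * G * J) / (9 * B * C * H * D ^ 2)) (40 * A * E * G * J * N / (9 * B * C * H * K * D ^ 2))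
      (-(40 * A * E * G * J * N ^ 2) / (9 * C * H * K * M * D ^ 3)) (40 * A * G * J ^ 2 * N ^ 2 / (3 * H * K ^ 2 * M * D ^ 3)) ∧
    Q12a (K4N.It ((10 / 3) : F) 3 (x, y)).1 (K4N.It ((10 / 3) : F) 3 (x, y)).2
      (2 * B * G / (C * E)) (-(4 * A * B * G * J) / (3 * C * H * D * E)) (8 * B * G * J * N / (3 * C * H * K * D * E))
      (8 * B * G * J * N ^ 2 / (9 * C * H * K * M * D * E)) (-(8 * B ^ 2 * G * J ^ 2 * N ^ 2) / (C * H * K ^ 2 * M * D ^ 2 * E)) (8 * B ^ 2 * G ^ 2 * J ^ 2 * N ^ 2 / (3 * H ^ 2 * K ^ 2 * M * D ^ 2 * E ^ 2))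
      (4 * B ^ 2 * G * J / (3 * C * H * E ^ 2)) (-(8 * A * B ^ 2 * G * J * N) / (3 * C * H * K * D * E ^ 2)) (-(16 * B ^ 2 * G * J * N ^ 2) / (9 * C * H * K * M * D * E ^ 2))
      (-(16 * B ^ 2 * G * J ^ 2 * N ^ 2) / (3 * C * H * K ^ 2 * M * D * E ^ 2)) (16 * B ^ 3 * G ^ 2 * J ^ 2 * N ^ 2 / (3 * C * H ^ 2 * K ^ 2 * M * D ^ 2 * E ^ 2)) ∧
    Q12a (K4N.It ((10 / 3) : F) 4 (x, y)).1 (K4N.It ((10 / 3) : F) 4 (x, y)).2
      (10 * C * J / (9 * H * G)) (-(20 * B * C * J * N) / (9 * H * K * E * G)) (-(8 * A * B * C * J * N ^ 2) / (9 * H * K * M * D * E * G))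
      (-(80 * B * C * J ^ 2 * N ^ 2) / (27 * H * K ^ 2 * M * D * E * G)) (-(80 * B * C * J ^ 2 * N ^ 2) / (9 * H ^ 2 * K ^ 2 * M * D * E)) (16 * B ^ 2 * J ^ 2 * N ^ 2 / (9 * H ^ 2 * K ^ 2 * M * D ^ 2))
      (100 * C ^ 2 * J * N / (27 * H * K * G ^ 2)) (40 * B * C ^ 2 * J * N ^ 2 / (27 * H * K * M * E * G ^ 2)) (80 * A * B * C ^ 2 * J ^ 2 * N ^ 2 / (27 * H * K ^ 2 * M * D * E * G ^ 2))
      (800 * B * C ^ 2 * J ^ 2 * N ^ 2 / (81 * H ^ 2 * K ^ 2 * M * D * E * G)) (160 * B * C * J ^ 2 * N ^ 2 / (27 * H ^ 2 * K ^ 2 * M * D * G)) ∧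
    Q12a (K4N.It ((10 / 3) : F) 5 (x, y)).1 (K4N.It ((10 / 3) : F) 5 (x, y)).2
      (10 * H * N / (K * J)) (20 * C * H * N ^ 2 / (3 * K * M * G * J)) (8 * B * C * H * N ^ 2 / (K ^ 2 * M * E * G))
      (80 * A * B * C * N ^ 2 / (9 * K ^ 2 * M * D * E)) (160 * B * N ^ 2 / (3 * K ^ 2 * M * D)) (32 * N ^ 2 / (3 * K ^ 2 * M))
      (-(20 * H ^ 2 * N ^ 2) / (K * M * J ^ 2)) (-(40 * C * H ^ 2 * N ^ 2) / (K ^ 2 * M * G * J)) (-(80 * B * C * H * N ^ 2) / (3 * K ^ 2 * M * E * J))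
      (-(160 * A * B * H * N ^ 2) / (3 * K ^ 2 * M * D * J)) (-(320 * H * N ^ 2) / (3 * K ^ 2 * M * J)) ∧
    Q12a (K4N.It ((10 / 3) : F) 6 (x, y)).1 (K4N.It ((10 / 3) : F) 6 (x, y)).2
      (-(2 * K) / (3 * M)) (-(4 * H) / M) (-(8 * C) / (3 * M))
      (-(16 * B) / (9 * M)) (-(32 * A) / (3 * M)) (64 / (9 * M))
      (4 * K * J / (3 * M * N)) (8 * K * G / (3 * M * N)) (16 * K * E / (9 * M * N))
      (32 * K * D / (9 * M * N)) (-(64 * A * K) / (9 * M * N)) ∧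
    Q12a (K4N.It ((10 / 3) : F) 7 (x, y)).1 (K4N.It ((10 / 3) : F) 7 (x, y)).2
      (10 * M * J / (K * N)) (20 * M * G * J / (3 * H * N ^ 2)) (8 * M * E * G / (C * N ^ 2))
      (80 * M * D * E / (9 * B * N ^ 2)) (-(160 * M * D) / (3 * N ^ 2)) (32 * A ^ 2 * M / (3 * N ^ 2))
      (100 * M ^ 2 * G * J / (3 * H * K * N ^ 2)) (40 * M ^ 2 * E * G * J / (3 * C * H * N ^ 3)) (80 * M ^ 2 * D * E * G / (3 * B * C * N ^ 3))
      (-(800 * M ^ 2 * D * E) / (9 * B * N ^ 3)) (160 * A * M ^ 2 * D / (3 * N ^ 3)) ∧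
    Q12a (K4N.It ((10 / 3) : F) 8 (x, y)).1 (K4N.It ((10 / 3) : F) 8 (x, y)).2
      (10 * K * G / (9 * H * J)) (-(20 * K * M * E * G) / (9 * C * H * J * N)) (-(8 * K ^ 2 * M * D * E * G) / (9 * B * C * H * J * N ^ 2))
      (80 * K ^ 2 * M * D * E * G / (27 * B * C * J ^ 2 * N ^ 2)) (-(80 * A * K ^ 2 * M * D * E) / (9 * B * J ^ 2 * N ^ 2)) (16 * K ^ 2 * M * D ^ 2 / (9 * J ^ 2 * N ^ 2))
      (20 * K ^ 2 * E * G / (27 * C * H * J ^ 2)) (-(40 * K ^ 2 * M * D * E * G) / (27 * B * C * H * J ^ 2 * N)) (80 * K ^ 3 * M * D * E * G / (81 * B * C * H * J ^ 2 * N ^ 2))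
      (-(80 * A * K ^ 3 * M * D * E * G) / (27 * B * C * J ^ 3 * N ^ 2)) (80 * K ^ 3 * M * D ^ 2 * E / (27 * B * J ^ 3 * N ^ 2)) ∧
    Q12a (K4N.It ((10 / 3) : F) 9 (x, y)).1 (K4N.It ((10 / 3) : F) 9 (x, y)).2
      (2 * H * E / (C * G)) (-(4 * H * K * D * E) / (3 * B * C * G * J)) (-(8 * H * K * M * D * E) / (3 * B * C * G * J * N))
      (8 * A * H * K ^ 2 * M * D * E / (9 * B * C * G * J * N ^ 2)) (-(8 * H ^ 2 * K ^ 2 * M * D ^ 2 * E) / (B * C * G * J ^ 2 * N ^ 2)) (8 * H ^ 2 * K ^ 2 * M * D ^ 2 * E ^ 2 / (3 * B ^ 2 * G ^ 2 * J ^ 2 * N ^ 2))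
      (4 * H ^ 2 * D * E / (B * C * G ^ 2)) (8 * H ^ 2 * K * D * E / (3 * B * C * G ^ 2 * J)) (8 * A * H ^ 2 * K * M * D * E / (3 * B * C * G ^ 2 * J * N))
      (-(8 * H ^ 2 * K ^ 2 * M * D ^ 2 * E) / (3 * B * C * G ^ 2 * J * N ^ 2)) (8 * H ^ 3 * K ^ 2 * M * D ^ 2 * E ^ 2 / (B ^ 2 * C * G ^ 2 * J ^ 2 * N ^ 2)) ∧
    Q12a (K4N.It ((10 / 3) : F) 10 (x, y)).1 (K4N.It ((10 / 3) : F) 10 (x, y)).2
      (10 * C * D / (3 * B * E)) (20 * C * H * D / (3 * B * E * G)) (4 * A * C * H * K * D / (3 * B * E * G * J))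
      (20 * C * H * K * M * D ^ 2 / (9 * B * E * G * J * N)) (-(20 * C * H * K ^ 2 * M * D ^ 2) / (3 * B ^ 2 * G * J * N ^ 2)) (4 * H ^ 2 * K ^ 2 * M * D ^ 2 / (B ^ 2 * J ^ 2 * N ^ 2))
      (-(100 * C ^ 2 * D) / (9 * B * E ^ 2)) (-(20 * A * C ^ 2 * H * D) / (3 * B * E ^ 2 * G)) (-(20 * C ^ 2 * H * K * D ^ 2) / (9 * B * E ^ 2 * G * J))
      (-(100 * C ^ 2 * H * K * M * D ^ 2) / (9 * B ^ 2 * E * G * J * N)) (20 * C * H * K ^ 2 * M * D ^ 2 / (3 * B ^ 2 * E * J * N ^ 2)) ∧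
    Q12a (K4N.It ((10 / 3) : F) 11 (x, y)).1 (K4N.It ((10 / 3) : F) 11 (x, y)).2
      (-(10 * B) / (3 * D)) (-(10 * A * B * C) / (3 * D * E)) (-(2 * B * C * H) / (E * G))
      (-(10 * C * H * K) / (9 * G * J)) (-(10 * H * K * M) / (J * N)) (2 * K ^ 2 * M / (3 * N ^ 2))
      (10 * A * B ^ 2 / (3 * D ^ 2)) (10 * B ^ 2 * C / (3 * D * E)) (10 * B * C * H / (3 * D * G))
      (10 * B * H * K / (3 * D * J)) (10 * B * K * M / (3 * D * N)) := by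
  have A0 := h.A0
  have B0 := h.B0
  have C0 := h.C0
  have H0 := h.H0
  have K0 := h.K0
  have M0 := h.M0
  have D0 := h.D0
  have E0 := h.E0
  have G0 := h.G0
  have J0 := h.J0
  have N0 := h.N0
  have h0 : Q12a (K4N.It ((10 / 3) : F) 0 (x, y)).1 (K4N.It ((10 / 3) : F) 0 (x, y)).2 A B C H K M D E G J N := h
  have h1 :
    Q12a (K4N.It ((10 / 3) : F) 1 (x, y)).1 (K4N.It ((10 / 3) : F) 1 (x, y)).2
      (10 * D / (3 * A ^ 2)) (-(10 * D * E) / (3 * A ^ 2 * B)) (-(2 * E * G) / (A ^ 2 * C))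
      (-(10 * G * J) / (9 * A ^ 2 * H)) (-(10 * J * N) / (A ^ 2 * K)) (2 * N ^ 2 / (3 * A ^ 2 * M))
      (100 * D * E / (9 * A ^ 3 * B)) (-(20 * D * E * G) / (3 * A ^ 3 * B * C)) (-(20 * E * G * J) / (9 * A ^ 3 * C * H))
      (-(100 * G * J * N) / (9 * A ^ 3 * H * K)) (20 * J * N ^ 2 / (3 * A ^ 3 * K * M)) := by
    rw [K4N.It_succ]
    refine h0.step.congr ?_ ?_ ?_ ?_ ?_ ?_ ?_ ?_ ?_ ?_ ?_ <;> (field_simp; try ring)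
  have h2 :
    Q12a (K4N.It ((10 / 3) : F) 2 (x, y)).1 (K4N.It ((10 / 3) : F) 2 (x, y)).2
      (10 * A * E / (3 * B * D)) (-(20 * E * G) / (3 * B * C * D)) (4 * E * G * J / (3 * B * C * H * D))
      (20 * E * G * J * N / (9 * C * H * K * D ^ 2)) (-(20 * G * J * N ^ 2) / (3 * H * K * M * D ^ 2)) (4 * J ^ 2 * N ^ 2 / (K ^ 2 * M * D ^ 2))
      (20 * A ^ 2 * E * G / (3 * B * C * D ^ 2)) (-(40 * A * E * G * J) / (9 * B * C * H * D ^ 2)) (40 * A * E * G * J * N / (9 * B * C * H * K * D ^ 2))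
      (-(40 * A * E * G * J * N ^ 2) / (9 * C * H * K * M * D ^ 3)) (40 * A * G * J ^ 2 * N ^ 2 / (3 * H * K ^ 2 * M * D ^ 3)) := by
    rw [K4N.It_succ]
    refine h1.step.congr ?_ ?_ ?_ ?_ ?_ ?_ ?_ ?_ ?_ ?_ ?_ <;> (field_simp; try ring)
  have h3 :
    Q12a (K4N.It ((10 / 3) : F) 3 (x, y)).1 (K4N.It ((10 / 3) : F) 3 (x, y)).2
      (2 * B * G / (C * E)) (-(4 * A * B * G * J) / (3 * C * H * D * E)) (8 * B * G * J * N / (3 * C * H * K * D * E))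
      (8 * B * G * J * N ^ 2 / (9 * C * H * K * M * D * E)) (-(8 * B ^ 2 * G * J ^ 2 * N ^ 2) / (C * H * K ^ 2 * M * D ^ 2 * E)) (8 * B ^ 2 * G ^ 2 * J ^ 2 * N ^ 2 / (3 * H ^ 2 * K ^ 2 * M * D ^ 2 * E ^ 2))
      (4 * B ^ 2 * G * J / (3 * C * H * E ^ 2)) (-(8 * A * B ^ 2 * G * J * N) / (3 * C * H * K * D * E ^ 2)) (-(16 * B ^ 2 * G * J * N ^ 2) / (9 * C * H * K * M * D * E ^ 2))
      (-(16 * B ^ 2 * G * J ^ 2 * N ^ 2) / (3 * C * H * K ^ 2 * M * D * E ^ 2)) (16 * B ^ 3 * G ^ 2 * J ^ 2 * N ^ 2 / (3 * C * H ^ 2 * K ^ 2 * M * D ^ 2 * E ^ 2)) := by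
    rw [K4N.It_succ]
    refine h2.step.congr ?_ ?_ ?_ ?_ ?_ ?_ ?_ ?_ ?_ ?_ ?_ <;> (field_simp; try ring)
  have h4 :
    Q12a (K4N.It ((10 / 3) : F) 4 (x, y)).1 (K4N.It ((10 / 3) : F) 4 (x, y)).2
      (10 * C * J / (9 * H * G)) (-(20 * B * C * J * N) / (9 * H * K * E * G)) (-(8 * A * B * C * J * N ^ 2) / (9 * H * K * M * D * E * G))
      (-(80 * B * C * J ^ 2 * N ^ 2) / (27 * H * K ^ 2 * M * D * E * G)) (-(80 * B * C * J ^ 2 * N ^ 2) / (9 * H ^ 2 * K ^ 2 * M * D * E)) (16 * B ^ 2 * J ^ 2 * N ^ 2 / (9 * H ^ 2 * K ^ 2 * M * D ^ 2))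
      (100 * C ^ 2 * J * N / (27 * H * K * G ^ 2)) (40 * B * C ^ 2 * J * N ^ 2 / (27 * H * K * M * E * G ^ 2)) (80 * A * B * C ^ 2 * J ^ 2 * N ^ 2 / (27 * H * K ^ 2 * M * D * E * G ^ 2))
      (800 * B * C ^ 2 * J ^ 2 * N ^ 2 / (81 * H ^ 2 * K ^ 2 * M * D * E * G)) (160 * B * C * J ^ 2 * N ^ 2 / (27 * H ^ 2 * K ^ 2 * M * D * G)) := by
    rw [K4N.It_succ]
    refine h3.step.congr ?_ ?_ ?_ ?_ ?_ ?_ ?_ ?_ ?_ ?_ ?_ <;> (field_simp; try ring)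
  have h5 :
    Q12a (K4N.It ((10 / 3) : F) 5 (x, y)).1 (K4N.It ((10 / 3) : F) 5 (x, y)).2
      (10 * H * N / (K * J)) (20 * C * H * N ^ 2 / (3 * K * M * G * J)) (8 * B * C * H * N ^ 2 / (K ^ 2 * M * E * G))
      (80 * A * B * C * N ^ 2 / (9 * K ^ 2 * M * D * E)) (160 * B * N ^ 2 / (3 * K ^ 2 * M * D)) (32 * N ^ 2 / (3 * K ^ 2 * M))
      (-(20 * H ^ 2 * N ^ 2) / (K * M * J ^ 2)) (-(40 * C * H ^ 2 * N ^ 2) / (K ^ 2 * M * G * J)) (-(80 * B * C * H * N ^ 2) / (3 * K ^ 2 * M * E * J))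
      (-(160 * A * B * H * N ^ 2) / (3 * K ^ 2 * M * D * J)) (-(320 * H * N ^ 2) / (3 * K ^ 2 * M * J)) := by
    rw [K4N.It_succ]
    refine h4.step.congr ?_ ?_ ?_ ?_ ?_ ?_ ?_ ?_ ?_ ?_ ?_ <;> (field_simp; try ring)
  have h6 :
    Q12a (K4N.It ((10 / 3) : F) 6 (x, y)).1 (K4N.It ((10 / 3) : F) 6 (x, y)).2
      (-(2 * K) / (3 * M)) (-(4 * H) / M) (-(8 * C) / (3 * M))
      (-(16 * B) / (9 * M)) (-(32 * A) / (3 * M)) (64 / (9 * M))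
      (4 * K * J / (3 * M * N)) (8 * K * G / (3 * M * N)) (16 * K * E / (9 * M * N))
      (32 * K * D / (9 * M * N)) (-(64 * A * K) / (9 * M * N)) := by
    rw [K4N.It_succ]
    refine h5.step.congr ?_ ?_ ?_ ?_ ?_ ?_ ?_ ?_ ?_ ?_ ?_ <;> (field_simp; try ring)
  have h7 :
    Q12a (K4N.It ((10 / 3) : F) 7 (x, y)).1 (K4N.It ((10 / 3) : F) 7 (x, y)).2
      (10 * M * J / (K * N)) (20 * M * G * J / (3 * H * N ^ 2)) (8 * M * E * G / (C * N ^ 2))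
      (80 * M * D * E / (9 * B * N ^ 2)) (-(160 * M * D) / (3 * N ^ 2)) (32 * A ^ 2 * M / (3 * N ^ 2))
      (100 * M ^ 2 * G * J / (3 * H * K * N ^ 2)) (40 * M ^ 2 * E * G * J / (3 * C * H * N ^ 3)) (80 * M ^ 2 * D * E * G / (3 * B * C * N ^ 3))
      (-(800 * M ^ 2 * D * E) / (9 * B * N ^ 3)) (160 * A * M ^ 2 * D / (3 * N ^ 3)) := by
    rw [K4N.It_succ]
    refine h6.step.congr ?_ ?_ ?_ ?_ ?_ ?_ ?_ ?_ ?_ ?_ ?_ <;> (field_simp; try ring)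
  have h8 :
    Q12a (K4N.It ((10 / 3) : F) 8 (x, y)).1 (K4N.It ((10 / 3) : F) 8 (x, y)).2
      (10 * K * G / (9 * H * J)) (-(20 * K * M * E * G) / (9 * C * H * J * N)) (-(8 * K ^ 2 * M * D * E * G) / (9 * B * C * H * J * N ^ 2))
      (80 * K ^ 2 * M * D * E * G / (27 * B * C * J ^ 2 * N ^ 2)) (-(80 * A * K ^ 2 * M * D * E) / (9 * B * J ^ 2 * N ^ 2)) (16 * K ^ 2 * M * D ^ 2 / (9 * J ^ 2 * N ^ 2))
      (20 * K ^ 2 * E * G / (27 * C * H * J ^ 2)) (-(40 * K ^ 2 * M * D * E * G) / (27 * B * C * H * J ^ 2 * N)) (80 * K ^ 3 * M * D * E * G / (81 * B * C * H * J ^ 2 * N ^ 2))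
      (-(80 * A * K ^ 3 * M * D * E * G) / (27 * B * C * J ^ 3 * N ^ 2)) (80 * K ^ 3 * M * D ^ 2 * E / (27 * B * J ^ 3 * N ^ 2)) := by
    rw [K4N.It_succ]
    refine h7.step.congr ?_ ?_ ?_ ?_ ?_ ?_ ?_ ?_ ?_ ?_ ?_ <;> (field_simp; try ring)
  have h9 :
    Q12a (K4N.It ((10 / 3) : F) 9 (x, y)).1 (K4N.It ((10 / 3) : F) 9 (x, y)).2
      (2 * H * E / (C * G)) (-(4 * H * K * D * E) / (3 * B * C * G * J)) (-(8 * H * K * M * D * E) / (3 * B * C * G * J * N))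
      (8 * A * H * K ^ 2 * M * D * E / (9 * B * C * G * J * N ^ 2)) (-(8 * H ^ 2 * K ^ 2 * M * D ^ 2 * E) / (B * C * G * J ^ 2 * N ^ 2)) (8 * H ^ 2 * K ^ 2 * M * D ^ 2 * E ^ 2 / (3 * B ^ 2 * G ^ 2 * J ^ 2 * N ^ 2))
      (4 * H ^ 2 * D * E / (B * C * G ^ 2)) (8 * H ^ 2 * K * D * E / (3 * B * C * G ^ 2 * J)) (8 * A * H ^ 2 * K * M * D * E / (3 * B * C * G ^ 2 * J * N))
      (-(8 * H ^ 2 * K ^ 2 * M * D ^ 2 * E) / (3 * B * C * G ^ 2 * J * N ^ 2)) (8 * H ^ 3 * K ^ 2 * M * D ^ 2 * E ^ 2 / (B ^ 2 * C * G ^ 2 * J ^ 2 * N ^ 2)) := by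
    rw [K4N.It_succ]
    refine h8.step.congr ?_ ?_ ?_ ?_ ?_ ?_ ?_ ?_ ?_ ?_ ?_ <;> (field_simp; try ring)
  have h10 :
    Q12a (K4N.It ((10 / 3) : F) 10 (x, y)).1 (K4N.It ((10 / 3) : F) 10 (x, y)).2
      (10 * C * D / (3 * B * E)) (20 * C * H * D / (3 * B * E * G)) (4 * A * C * H * K * D / (3 * B * E * G * J))
      (20 * C * H * K * M * D ^ 2 / (9 * B * E * G * J * N)) (-(20 * C * H * K ^ 2 * M * D ^ 2) / (3 * B ^ 2 * G * J * N ^ 2)) (4 * H ^ 2 * K ^ 2 * M * D ^ 2 / (B ^ 2 * J ^ 2 * N ^ 2))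
      (-(100 * C ^ 2 * D) / (9 * B * E ^ 2)) (-(20 * A * C ^ 2 * H * D) / (3 * B * E ^ 2 * G)) (-(20 * C ^ 2 * H * K * D ^ 2) / (9 * B * E ^ 2 * G * J))
      (-(100 * C ^ 2 * H * K * M * D ^ 2) / (9 * B ^ 2 * E * G * J * N)) (20 * C * H * K ^ 2 * M * D ^ 2 / (3 * B ^ 2 * E * J * N ^ 2)) := by
    rw [K4N.It_succ]
    refine h9.step.congr ?_ ?_ ?_ ?_ ?_ ?_ ?_ ?_ ?_ ?_ ?_ <;> (field_simp; try ring)
  have h11 :
    Q12a (K4N.It ((10 / 3) : F) 11 (x, y)).1 (K4N.It ((10 / 3) : F) 11 (x, y)).2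
      (-(10 * B) / (3 * D)) (-(10 * A * B * C) / (3 * D * E)) (-(2 * B * C * H) / (E * G))
      (-(10 * C * H * K) / (9 * G * J)) (-(10 * H * K * M) / (J * N)) (2 * K ^ 2 * M / (3 * N ^ 2))
      (10 * A * B ^ 2 / (3 * D ^ 2)) (10 * B ^ 2 * C / (3 * D * E)) (10 * B * C * H / (3 * D * G))
      (10 * B * H * K / (3 * D * J)) (10 * B * K * M / (3 * D * N)) := by
    rw [K4N.It_succ]
    refine h10.step.congr ?_ ?_ ?_ ?_ ?_ ?_ ?_ ?_ ?_ ?_ ?_ <;> (field_simp; try ring)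
  exact ⟨h0, h1, h2, h3, h4, h5, h6, h7, h8, h9, h10, h11⟩

end tup

end Pool.Agent.FK4
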