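import Pool.Agent.Lib_helper24.FAM.LK
import Pool.Agent.Lib_helper2.K4N.Q7X
import Pool.Agent.Lib_helper54.FAM.Pl8d

set_option autoImplicit false
set_option linter.unusedSectionVars false
set_option linter.unusedVariables false
set_option linter.unusedSimpArgs false
set_option maxRecDepth 100000

/-!
# The fourth special curve with a point of order eight: the units at the translates
-/

open scoped TensorProduct

namespace Pool.Agent.FK4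

open Pool.Agent.MK4 Pool.Agent.TN Pool.Agent.KC72

section tup

variable {F : Type*} [Field F] {x y A B C H D E G : F}

/-- the units at a point of the curve -/
structure Q8d (x y A B C H D E G : F) : Prop where
  hA : x = A
  hB : x + (1 / 8) = B
  hC : x + (1 / 6) = C
  hH : x + (3 / 16) = H
  hD : y = D
  hE : y + (1 / 6) * x = E
  hG : y + (1 / 4) * x = G
  A0 : A ≠ 0
  B0 : B ≠ 0
  C0 : C ≠ 0
  H0 : H ≠ 0
  D0 : D ≠ 0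
  E0 : E ≠ 0
  G0 : G ≠ 0
  eq : y ^ 2 + (7 / 6) * x * y + (1 / 8) * y = x ^ 3 + (1 / 8) * x ^ 2

lemma Q8d.congr {A' B' C' H' D' E' G' : F} (h : Q8d x y A B C H D E G)
    (h0 : A = A') (h1 : B = B') (h2 : C = C') (h3 : H = H') (h4 : D = D') (h5 : E = E') (h6 : G = G') :
    Q8d x y A' B' C' H' D' E' G' := by
  subst h0 h1 h2 h3 h4 h5 h6
  exact h

/-- translation by `P` -/
lemma Q8d.step [CharZero F] {p : F × F} (h : Q8d p.1 p.2 A B C H D E G) :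
    Q8d (K4N.Tn ((-1 / 8) : F) p).1 (K4N.Tn ((-1 / 8) : F) p).2
      (-(D) / (8 * A ^ 2))
      (D * E / (8 * A ^ 2 * B))
      (E * G / (6 * A ^ 2 * C))
      (3 * G ^ 2 / (16 * A ^ 2 * H))
      (D * E / (64 * A ^ 3 * B))
      (-(D * E * G) / (48 * A ^ 3 * B * C))
      (-(E * G ^ 2) / (32 * A ^ 3 * C * H)) := by
  obtain ⟨x, y⟩ := p
  obtain ⟨hA, hB, hC, hH, hD, hE, hG, A0, B0, C0, H0, D0, E0, G0, he⟩ := h
  dsimp only at hA hB hC hH hD hE hG he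
  subst hA hB hC hH hD hE hG
  have x2 : x ^ 2 ≠ 0 := pow_ne_zero 2 A0
  have x3 : x ^ 3 ≠ 0 := pow_ne_zero 3 A0
  have d0 : 8 * x ^ 2 ≠ 0 := by
    exact (mul_ne_zero (by norm_num : (8 : F) ≠ 0) (pow_ne_zero 2 A0))
  have d1 : 8 * x ^ 2 * (x + (1 / 8)) ≠ 0 := by
    exact (mul_ne_zero (mul_ne_zero (by norm_num : (8 : F) ≠ 0) (pow_ne_zero 2 A0)) B0)
  have d2 : 6 * x ^ 2 * (x + (1 / 6)) ≠ 0 := by
    exact (mul_ne_zero (mul_ne_zero (by norm_num : (6 : F) ≠ 0) (pow_ne_zero 2 A0)) C0)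
  have d3 : 16 * x ^ 2 * (x + (3 / 16)) ≠ 0 := by
    exact (mul_ne_zero (mul_ne_zero (by norm_num : (16 : F) ≠ 0) (pow_ne_zero 2 A0)) H0)
  have d4 : 64 * x ^ 3 * (x + (1 / 8)) ≠ 0 := by
    exact (mul_ne_zero (mul_ne_zero (by norm_num : (64 : F) ≠ 0) (pow_ne_zero 3 A0)) B0)
  have d5 : 48 * x ^ 3 * (x + (1 / 8)) * (x + (1 / 6)) ≠ 0 := by
    exact (mul_ne_zero (mul_ne_zero (mul_ne_zero (by norm_num : (48 : F) ≠ 0) (pow_ne_zero 3 A0)) B0) C0)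
  have d6 : 32 * x ^ 3 * (x + (1 / 6)) * (x + (3 / 16)) ≠ 0 := by
    exact (mul_ne_zero (mul_ne_zero (mul_ne_zero (by norm_num : (32 : F) ≠ 0) (pow_ne_zero 3 A0)) C0) H0)
  refine ⟨?_, ?_, ?_, ?_, ?_, ?_, ?_, ?_, ?_, ?_, ?_, ?_, ?_, ?_, ?_⟩
  · show (-1 / 8) * y / x ^ 2 = -(y) / (8 * x ^ 2)
    have e : (-1 / 8) * y / x ^ 2 = ((-1 / 8) * y) / x ^ 2 := by
      field_simp
    rw [e, div_eq_div_iff x2 d0]
    linear_combination (0) * he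
  · show (-1 / 8) * y / x ^ 2 + (1 / 8) = y * (y + (1 / 6) * x) / (8 * x ^ 2 * (x + (1 / 8)))
    have e : (-1 / 8) * y / x ^ 2 + (1 / 8) = ((-1 / 8) * y + (1 / 8) * x ^ 2) / x ^ 2 := by
      field_simp
    rw [e, div_eq_div_iff x2 d1]
    linear_combination ((-1) * x ^ 2) * he
  · show (-1 / 8) * y / x ^ 2 + (1 / 6) = (y + (1 / 6) * x) * (y + (1 / 4) * x) / (6 * x ^ 2 * (x + (1 / 6)))
    have e : (-1 / 8) * y / x ^ 2 + (1 / 6) = ((-1 / 8) * y + (1 / 6) * x ^ 2) / x ^ 2 := by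
      field_simp
    rw [e, div_eq_div_iff x2 d2]
    linear_combination ((-1) * x ^ 2) * he
  · show (-1 / 8) * y / x ^ 2 + (3 / 16) = 3 * (y + (1 / 4) * x) ^ 2 / (16 * x ^ 2 * (x + (3 / 16)))
    have e : (-1 / 8) * y / x ^ 2 + (3 / 16) = ((-1 / 8) * y + (3 / 16) * x ^ 2) / x ^ 2 := by
      field_simp
    rw [e, div_eq_div_iff x2 d3]
    linear_combination ((-3) * x ^ 2) * he
  · show (-1 / 8) ^ 2 * (x ^ 2 - y) / x ^ 3 = y * (y + (1 / 6) * x) / (64 * x ^ 3 * (x + (1 / 8)))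
    have e : (-1 / 8) ^ 2 * (x ^ 2 - y) / x ^ 3 = ((-1 / 8) ^ 2 * (x ^ 2 - y)) / x ^ 3 := by
      field_simp
    rw [e, div_eq_div_iff x3 d4]
    linear_combination ((-1) * x ^ 3) * he
  · show (-1 / 8) ^ 2 * (x ^ 2 - y) / x ^ 3 + (1 / 6) * ((-1 / 8) * y / x ^ 2) = -(y * (y + (1 / 6) * x) * (y + (1 / 4) * x)) / (48 * x ^ 3 * (x + (1 / 8)) * (x + (1 / 6)))
    have e : (-1 / 8) ^ 2 * (x ^ 2 - y) / x ^ 3 + (1 / 6) * ((-1 / 8) * y / x ^ 2) = ((-1 / 8) ^ 2 * (x ^ 2 - y) + (1 / 6) * (-1 / 8) * x * y) / x ^ 3 := by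
      field_simp
    rw [e, div_eq_div_iff x3 d5]
    linear_combination ((-1 / 8) * x ^ 3 + 1 * x ^ 3 * y + (-3 / 4) * x ^ 4) * he
  · show (-1 / 8) ^ 2 * (x ^ 2 - y) / x ^ 3 + (1 / 4) * ((-1 / 8) * y / x ^ 2) = -((y + (1 / 6) * x) * (y + (1 / 4) * x) ^ 2) / (32 * x ^ 3 * (x + (1 / 6)) * (x + (3 / 16)))
    have e : (-1 / 8) ^ 2 * (x ^ 2 - y) / x ^ 3 + (1 / 4) * ((-1 / 8) * y / x ^ 2) = ((-1 / 8) ^ 2 * (x ^ 2 - y) + (1 / 4) * (-1 / 8) * x * y) / x ^ 3 := by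
      field_simp
    rw [e, div_eq_div_iff x3 d6]
    linear_combination ((-1 / 8) * x ^ 3 + 1 * x ^ 3 * y + (-1 / 2) * x ^ 4) * he
  · exact div_ne_zero (neg_ne_zero.mpr D0) d0
  · exact div_ne_zero (mul_ne_zero D0 E0) d1
  · exact div_ne_zero (mul_ne_zero E0 G0) d2
  · exact div_ne_zero (mul_ne_zero (by norm_num : (3 : F) ≠ 0) (pow_ne_zero 2 G0)) d3
  · exact div_ne_zero (mul_ne_zero D0 E0) d4
  · exact div_ne_zero (neg_ne_zero.mpr (mul_ne_zero (mul_ne_zero D0 E0) G0)) d5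
  · exact div_ne_zero (neg_ne_zero.mpr (mul_ne_zero E0 (pow_ne_zero 2 G0))) d6
  · show ((-1 / 8) ^ 2 * (x ^ 2 - y) / x ^ 3) ^ 2 + (7 / 6) * ((-1 / 8) * y / x ^ 2) * ((-1 / 8) ^ 2 * (x ^ 2 - y) / x ^ 3) + (1 / 8) * ((-1 / 8) ^ 2 * (x ^ 2 - y) / x ^ 3) = ((-1 / 8) * y / x ^ 2) ^ 3 + (1 / 8) * ((-1 / 8) * y / x ^ 2) ^ 2
    have e1 : ((-1 / 8) ^ 2 * (x ^ 2 - y) / x ^ 3) ^ 2 + (7 / 6) * ((-1 / 8) * y / x ^ 2) * ((-1 / 8) ^ 2 * (x ^ 2 - y) / x ^ 3) + (1 / 8) * ((-1 / 8) ^ 2 * (x ^ 2 - y) / x ^ 3) = (((-1 / 8) ^ 2 * (x ^ 2 - y)) ^ 2 + (7 / 6) * ((-1 / 8) * y * x * ((-1 / 8) ^ 2 * (x ^ 2 - y))) - (-1 / 8) * (x ^ 3 * ((-1 / 8) ^ 2 * (x ^ 2 - y)))) / x ^ 6 := by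
      field_simp ; ring
    have e2 : ((-1 / 8) * y / x ^ 2) ^ 3 + (1 / 8) * ((-1 / 8) * y / x ^ 2) ^ 2 = (((-1 / 8) * y) ^ 3 - (-1 / 8) * (x ^ 2 * ((-1 / 8) * y) ^ 2)) / x ^ 6 := by
      field_simp ; ring
    rw [e1, e2]
    congr 1
    linear_combination ((1 / 512) * y + (-1 / 512) * x ^ 2) * he

/-- the units at the translates -/
lemma Q8d.all [CharZero F] (h : Q8d x y A B C H D E G) :
    Q8d (K4N.It ((-1 / 8) : F) 0 (x, y)).1 (K4N.It ((-1 / 8) : F) 0 (x, y)).2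
      (A) (B) (C)
      (H) (D) (E)
      (G) ∧
    Q8d (K4N.It ((-1 / 8) : F) 1 (x, y)).1 (K4N.It ((-1 / 8) : F) 1 (x, y)).2
      (-(D) / (8 * A ^ 2)) (D * E / (8 * A ^ 2 * B)) (E * G / (6 * A ^ 2 * C))
      (3 * G ^ 2 / (16 * A ^ 2 * H)) (D * E / (64 * A ^ 3 * B)) (-(D * E * G) / (48 * A ^ 3 * B * C))
      (-(E * G ^ 2) / (32 * A ^ 3 * C * H)) ∧
    Q8d (K4N.It ((-1 / 8) : F) 2 (x, y)).1 (K4N.It ((-1 / 8) : F) 2 (x, y)).2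
      (-(A * E) / (8 * B * D)) (-(E * G) / (48 * B * C * D)) (E * G ^ 2 / (24 * B * C * H * D))
      (E ^ 2 * G ^ 2 / (16 * C ^ 2 * H * D ^ 2)) (A ^ 2 * E * G / (48 * B * C * D ^ 2)) (A * E * G ^ 2 / (192 * B * C * H * D ^ 2))
      (-(A * E ^ 2 * G ^ 2) / (96 * B * C ^ 2 * H * D ^ 2)) ∧
    Q8d (K4N.It ((-1 / 8) : F) 3 (x, y)).1 (K4N.It ((-1 / 8) : F) 3 (x, y)).2
      (-(B * G) / (6 * C * E)) (-(A * B * G ^ 2) / (24 * C * H * D * E)) (-(B * G ^ 2) / (72 * C ^ 2 * H * D))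
      (G ^ 2 / (48 * C ^ 2 * H)) (B ^ 2 * G ^ 2 / (24 * C * H * E ^ 2)) (A * B ^ 2 * G ^ 2 / (72 * C ^ 2 * H * D * E))
      (B * G ^ 2 / (288 * C ^ 2 * H * E)) ∧
    Q8d (K4N.It ((-1 / 8) : F) 4 (x, y)).1 (K4N.It ((-1 / 8) : F) 4 (x, y)).2
      (-(3 * C) / (16 * H)) (-(B) / (16 * H)) (-(A) / (48 * H))
      (1 / (256 * H)) (3 * C * E / (64 * H * G)) (C * D / (64 * H * G))
      (-(A * C) / (256 * H * G)) ∧
    Q8d (K4N.It ((-1 / 8) : F) 5 (x, y)).1 (K4N.It ((-1 / 8) : F) 5 (x, y)).2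
      (-(H * E) / (6 * C * G)) (-(H * D * E) / (24 * B * G ^ 2)) (H * D / (72 * G ^ 2))
      (A ^ 2 * H / (48 * G ^ 2)) (H ^ 2 * D * E / (36 * B * C * G ^ 2)) (-(H ^ 2 * D * E) / (144 * B * G ^ 3))
      (-(A * H ^ 2 * D) / (72 * G ^ 3)) ∧
    Q8d (K4N.It ((-1 / 8) : F) 6 (x, y)).1 (K4N.It ((-1 / 8) : F) 6 (x, y)).2
      (-(C * D) / (8 * B * E)) (C * H * D / (48 * B * E * G)) (A * C ^ 2 * H * D / (24 * B * E * G ^ 2))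
      (C ^ 2 * H * D ^ 2 / (16 * E ^ 2 * G ^ 2)) (-(C ^ 2 * D) / (64 * B * E ^ 2)) (-(A * C ^ 2 * H * D) / (48 * B * E ^ 2 * G))
      (-(C ^ 3 * H * D ^ 2) / (32 * B * E ^ 2 * G ^ 2)) ∧
    Q8d (K4N.It ((-1 / 8) : F) 7 (x, y)).1 (K4N.It ((-1 / 8) : F) 7 (x, y)).2
      (B / (8 * D)) (A * B * C / (8 * D * E)) (B * C * H / (6 * E * G))
      (3 * C ^ 2 * H / (16 * G ^ 2)) (-(A * B ^ 2) / (8 * D ^ 2)) (-(B ^ 2 * C) / (8 * D * E))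
      (-(B * C * H) / (8 * D * G)) := by
  have A0 := h.A0
  have B0 := h.B0
  have C0 := h.C0
  have H0 := h.H0
  have D0 := h.D0
  have E0 := h.E0
  have G0 := h.G0
  have h0 : Q8d (K4N.It ((-1 / 8) : F) 0 (x, y)).1 (K4N.It ((-1 / 8) : F) 0 (x, y)).2 A B C H D E G := h
  have h1 :
    Q8d (K4N.It ((-1 / 8) : F) 1 (x, y)).1 (K4N.It ((-1 / 8) : F) 1 (x, y)).2
      (-(D) / (8 * A ^ 2)) (D * E / (8 * A ^ 2 * B)) (E * G / (6 * A ^ 2 * C))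
      (3 * G ^ 2 / (16 * A ^ 2 * H)) (D * E / (64 * A ^ 3 * B)) (-(D * E * G) / (48 * A ^ 3 * B * C))
      (-(E * G ^ 2) / (32 * A ^ 3 * C * H)) := by
    rw [K4N.It_succ]
    refine h0.step.congr ?_ ?_ ?_ ?_ ?_ ?_ ?_ <;> (field_simp; try ring)
  have h2 :
    Q8d (K4N.It ((-1 / 8) : F) 2 (x, y)).1 (K4N.It ((-1 / 8) : F) 2 (x, y)).2
      (-(A * E) / (8 * B * D)) (-(E * G) / (48 * B * C * D)) (E * G ^ 2 / (24 * B * C * H * D))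
      (E ^ 2 * G ^ 2 / (16 * C ^ 2 * H * D ^ 2)) (A ^ 2 * E * G / (48 * B * C * D ^ 2)) (A * E * G ^ 2 / (192 * B * C * H * D ^ 2))
      (-(A * E ^ 2 * G ^ 2) / (96 * B * C ^ 2 * H * D ^ 2)) := by
    rw [K4N.It_succ]
    refine h1.step.congr ?_ ?_ ?_ ?_ ?_ ?_ ?_ <;> (field_simp; try ring)
  have h3 :
    Q8d (K4N.It ((-1 / 8) : F) 3 (x, y)).1 (K4N.It ((-1 / 8) : F) 3 (x, y)).2
      (-(B * G) / (6 * C * E)) (-(A * B * G ^ 2) / (24 * C * H * D * E)) (-(B * G ^ 2) / (72 * C ^ 2 * H * D))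
      (G ^ 2 / (48 * C ^ 2 * H)) (B ^ 2 * G ^ 2 / (24 * C * H * E ^ 2)) (A * B ^ 2 * G ^ 2 / (72 * C ^ 2 * H * D * E))
      (B * G ^ 2 / (288 * C ^ 2 * H * E)) := by
    rw [K4N.It_succ]
    refine h2.step.congr ?_ ?_ ?_ ?_ ?_ ?_ ?_ <;> (field_simp; try ring)
  have h4 :
    Q8d (K4N.It ((-1 / 8) : F) 4 (x, y)).1 (K4N.It ((-1 / 8) : F) 4 (x, y)).2
      (-(3 * C) / (16 * H)) (-(B) / (16 * H)) (-(A) / (48 * H))
      (1 / (256 * H)) (3 * C * E / (64 * H * G)) (C * D / (64 * H * G))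
      (-(A * C) / (256 * H * G)) := by
    rw [K4N.It_succ]
    refine h3.step.congr ?_ ?_ ?_ ?_ ?_ ?_ ?_ <;> (field_simp; try ring)
  have h5 :
    Q8d (K4N.It ((-1 / 8) : F) 5 (x, y)).1 (K4N.It ((-1 / 8) : F) 5 (x, y)).2
      (-(H * E) / (6 * C * G)) (-(H * D * E) / (24 * B * G ^ 2)) (H * D / (72 * G ^ 2))
      (A ^ 2 * H / (48 * G ^ 2)) (H ^ 2 * D * E / (36 * B * C * G ^ 2)) (-(H ^ 2 * D * E) / (144 * B * G ^ 3))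
      (-(A * H ^ 2 * D) / (72 * G ^ 3)) := by
    rw [K4N.It_succ]
    refine h4.step.congr ?_ ?_ ?_ ?_ ?_ ?_ ?_ <;> (field_simp; try ring)
  have h6 :
    Q8d (K4N.It ((-1 / 8) : F) 6 (x, y)).1 (K4N.It ((-1 / 8) : F) 6 (x, y)).2
      (-(C * D) / (8 * B * E)) (C * H * D / (48 * B * E * G)) (A * C ^ 2 * H * D / (24 * B * E * G ^ 2))
      (C ^ 2 * H * D ^ 2 / (16 * E ^ 2 * G ^ 2)) (-(C ^ 2 * D) / (64 * B * E ^ 2)) (-(A * C ^ 2 * H * D) / (48 * B * E ^ 2 * G))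
      (-(C ^ 3 * H * D ^ 2) / (32 * B * E ^ 2 * G ^ 2)) := by
    rw [K4N.It_succ]
    refine h5.step.congr ?_ ?_ ?_ ?_ ?_ ?_ ?_ <;> (field_simp; try ring)
  have h7 :
    Q8d (K4N.It ((-1 / 8) : F) 7 (x, y)).1 (K4N.It ((-1 / 8) : F) 7 (x, y)).2
      (B / (8 * D)) (A * B * C / (8 * D * E)) (B * C * H / (6 * E * G))
      (3 * C ^ 2 * H / (16 * G ^ 2)) (-(A * B ^ 2) / (8 * D ^ 2)) (-(B ^ 2 * C) / (8 * D * E))
      (-(B * C * H) / (8 * D * G)) := by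
    rw [K4N.It_succ]
    refine h6.step.congr ?_ ?_ ?_ ?_ ?_ ?_ ?_ <;> (field_simp; try ring)
  exact ⟨h0, h1, h2, h3, h4, h5, h6, h7⟩

end tup

end Pool.Agent.FK4
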