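import Pool.Agent.Lib_helper54.FAM.Res6
import Pool.Agent.Lib_helper54.FAM.Xi6

set_option autoImplicit false
set_option linter.unusedSectionVars false

/-!
The classes on the three special curves with a point of order six have no residues at the places.
-/

namespace Pool.Agent.FK4R

open Pool.Agent.K4R
open Pool.Agent.FK4 (nx nx2 psi6 sum6 term6a term6b term6c xi6a xi6b xi6c)
open scoped WithZero TensorProduct

section six

variable {F : Type*} [Field F] [CharZero F] [DecidableEq F] {v : Valuation F ℤᵐ⁰}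
  {b c x y : F}

namespace Six

variable (h : Six v b c x y)
include h

lemma q1 : (x ^ 2 - y) * (x - b) = y * (y - c * x) := by
  linear_combination (-1) * h.eq

lemma q1_ne : x ^ 2 - y ≠ 0 := by
  intro h1
  have := h.q1
  rw [h1, zero_mul] at this
  exact mul_ne_zero h.y0 h.z0 this.symm

lemma q2 : (x - c) * (x ^ 2 - (1 + c) * y) = (y - c * x) ^ 2 := by
  have := h.hb
  subst this
  linear_combination (-1) * h.eq

lemma q2_ne : x ^ 2 - (1 + c) * y ≠ 0 := by
  intro h1
  have := h.q2
  rw [h1, mul_zero] at this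
  exact pow_ne_zero 2 h.z0 this.symm

lemma q3 : (b * (x ^ 2 - y) - c * x * y) * (x - b) = -c * y * (x ^ 2 - (1 + c) * y) := by
  have h1 := h.q1
  have h2 := h.hb
  calc (b * (x ^ 2 - y) - c * x * y) * (x - b)
      = b * ((x ^ 2 - y) * (x - b)) - c * x * y * (x - b) := by ring
    _ = b * (y * (y - c * x)) - c * x * y * (x - b) := by rw [h1]
    _ = _ := by rw [h2]; ring

/-- translation by `P` -/
theorem next : Six v b c (nx b (x, y)).1 (nx b (x, y)).2 where
  eq := by
    have hx := h.x0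
    show (b ^ 2 * (x ^ 2 - y) / x ^ 3) ^ 2 + (1 - c) * (b * y / x ^ 2) *
      (b ^ 2 * (x ^ 2 - y) / x ^ 3) - b * (b ^ 2 * (x ^ 2 - y) / x ^ 3) =
      (b * y / x ^ 2) ^ 3 - b * (b * y / x ^ 2) ^ 2
    field_simp
    linear_combination (b ^ 3 * (x ^ 2 - y)) * h.eq
  hb := h.hb
  x0 := div_ne_zero (mul_ne_zero h.b0 h.y0) (pow_ne_zero 2 h.x0)
  xb := by
    have hx := h.x0
    have e : (nx b (x, y)).1 - b = -(b * (x ^ 2 - y)) / x ^ 2 := by
      show b * y / x ^ 2 - b = _
      field_simp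
      ring
    rw [e]
    exact div_ne_zero (neg_ne_zero.mpr (mul_ne_zero h.b0 h.q1_ne)) (pow_ne_zero 2 hx)
  xc := by
    have hx := h.x0
    have e : (nx b (x, y)).1 - c = -(c * (x ^ 2 - (1 + c) * y)) / x ^ 2 := by
      show b * y / x ^ 2 - c = _
      rw [h.hb]
      field_simp
      ring
    rw [e]
    exact div_ne_zero (neg_ne_zero.mpr (mul_ne_zero h.c0 h.q2_ne)) (pow_ne_zero 2 hx)
  y0 := div_ne_zero (mul_ne_zero (pow_ne_zero 2 h.b0) h.q1_ne) (pow_ne_zero 3 h.x0)
  z0 := by
    have hx := h.x0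
    have e : (nx b (x, y)).2 - c * (nx b (x, y)).1 =
        b * (b * (x ^ 2 - y) - c * x * y) / x ^ 3 := by
      show b ^ 2 * (x ^ 2 - y) / x ^ 3 - c * (b * y / x ^ 2) = _
      field_simp
    rw [e]
    refine div_ne_zero (mul_ne_zero h.b0 fun h1 => ?_) (pow_ne_zero 3 hx)
    have h2 := h.q3
    rw [h1, zero_mul] at h2
    exact mul_ne_zero (mul_ne_zero (neg_ne_zero.mpr h.c0) h.y0) h.q2_ne h2.symm
  vc := h.vc
  vc1 := h.vc1

theorem next2 : Six v b c (nx2 b (x, y)).1 (nx2 b (x, y)).2 := h.next.next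

/-- the sum over the translates -/
theorem sum [Infinite (rf v)] {f : F → F → MK4.HK F}
    (hf : ∀ x y : F, Six v b c x y → MK4.NoRes v (f x y)) : MK4.NoRes v (sum6 b f x y) :=
  noRes_add (noRes_add (hf _ _ h) (hf _ _ h.next2)) (hf _ _ h.next2.next2)

end Six

variable [Infinite (rf v)]

/-- `t = 1` -/
theorem noRes_term6a {x y : F} (h : Six v 2 1 x y) : MK4.NoRes v (term6a x y) := by
  have v2 : v (2 : F) = 1 := by
    have := h.vc1
    rwa [one_add_one_eq_two] at this
  have v2i : v (2 : F)⁻¹ = 1 := by rw [map_inv₀, v2, inv_one]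
  have e0 : yb 2 1 x y = 2 - y := by unfold yb; ring
  have hyb : 2 - y ≠ 0 := by rw [← e0]; exact h.yb0
  have hp : psi6 2 1 x y ≠ 0 := h.psi0
  have n2 : (2 : F) ≠ 0 := h.b0
  refine noRes_add (noRes_add ?_ ?_) ?_
  · rw [noRes_iff]
    have := h.res_xy rfl (κ := 2⁻¹) (u := y / (2 - y)) (div_ne_zero h.y0 hyb) v2i
      (by rw [inv_mul_cancel₀ n2]; exact sp_one v) (fun h1 h2 _ => by
        rw [od_div v h.y0 hyb, h1, ← e0, h2, sub_zero])
    rwa [inv_mul_eq_div] at this
  · rw [noRes_iff]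
    have := h.res_xy rfl (κ := 1) (u := -psi6 2 1 x y * y / (2 - y))
      (div_ne_zero (mul_ne_zero (neg_ne_zero.mpr hp) h.y0) hyb) (map_one v)
      (by rw [one_mul]; exact sp_two) (fun h1 h2 h3 => by
        rw [od_div v (mul_ne_zero (neg_ne_zero.mpr hp) h.y0) hyb,
          od_mul v (neg_ne_zero.mpr hp) h.y0, od_neg, h1, ← e0, h2, sub_zero, add_zero]
        exact h3)
    rwa [one_mul] at this
  · rw [noRes_iff]
    have h4 : (4 : F) * (x - 1) ^ 2 ≠ 0 := by
      refine mul_ne_zero ?_ (pow_ne_zero 2 h.xc)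
      have : (4 : F) = 2 * 2 := by norm_num
      rw [this]
      exact mul_ne_zero n2 n2
    refine h.res_psi (u := (x - 2) / (4 * (x - 1) ^ 2)) (div_ne_zero h.xb h4) fun h1 h2 h3 => ?_
    have o2 : od v (2 : F) = 0 := h.odb
    have e4 : (4 : F) * (x - 1) ^ 2 = (2 * 2) * ((x - 1) * (x - 1)) := by ring
    rw [od_div v h.xb h4, e4, od_mul v (mul_ne_zero n2 n2) (mul_ne_zero h.xc h.xc),
      od_mul v n2 n2, od_mul v h.xc h.xc, o2, h2, h3]
    rfl

/-- `t = -2` -/
theorem noRes_term6b {x y : F} (h : Six v 2 (-2) x y) : MK4.NoRes v (term6b x y) := by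
  have v2 : v (2 : F) = 1 := by
    have := h.vc
    rwa [Valuation.map_neg] at this
  have v2i : v (2 : F)⁻¹ = 1 := by rw [map_inv₀, v2, inv_one]
  have hp : psi6 2 (-2) x y ≠ 0 := h.psi0
  have n2 : (2 : F) ≠ 0 := h.b0
  refine noRes_add (noRes_add ?_ ?_) ?_
  · rw [noRes_iff]
    have := h.res_x (κ := 2⁻¹) (u := (psi6 2 (-2) x y)⁻¹) (inv_ne_zero hp) v2i
      (by rw [inv_mul_cancel₀ n2]; exact sp_one v) (fun h1 h2 h3 => by
        rw [od_inv]
        exact neg_eq_zero.mpr h3)
    rwa [inv_mul_eq_div] at this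
  · rw [noRes_iff]
    have := h.res_x (κ := -2⁻¹) (u := psi6 2 (-2) x y) hp (by rw [Valuation.map_neg]; exact v2i)
      (by rw [neg_mul, inv_mul_cancel₀ n2]; exact sp_neg_one) (fun h1 h2 h3 => h3)
    rwa [neg_mul, inv_mul_eq_div, ← neg_div] at this
  · rw [noRes_iff]
    refine h.res_psi (u := x ^ 2 / (x - 2)) (div_ne_zero (pow_ne_zero 2 h.x0) h.xb)
      fun h1 h2 h3 => ?_
    rw [od_div v (pow_ne_zero 2 h.x0) h.xb, pow_two, od_mul v h.x0 h.x0, h1, h2]
    rfl

/-- `t = -1/2` -/
theorem noRes_term6c {x y : F} (h : Six v (-1 / 4) (-1 / 2) x y) :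
    MK4.NoRes v (term6c x y) := by
  rw [noRes_iff]
  have hb := h.xb
  have hc := h.xc
  have eb : x - -1 / 4 = x + 1 / 4 := by ring
  have ec : x - -1 / 2 = x + 1 / 2 := by ring
  have n4 : (4 : F) ≠ 0 := by norm_num
  have o4 : od v (4 : F) = 0 := by
    have h1 := h.odb
    have e : (-1 / 4 : F) = -(4 : F)⁻¹ := by ring
    rw [e, od_neg, od_inv] at h1
    exact neg_eq_zero.mp h1
  refine h.res_psi (u := x / (4 * (x + 1 / 4) * (x + 1 / 2))) ?_ fun h1 h2 h3 => ?_
  · rw [← eb, ← ec]
    exact div_ne_zero h.x0 (mul_ne_zero (mul_ne_zero n4 hb) hc)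
  · rw [← eb, ← ec, od_div v h.x0 (mul_ne_zero (mul_ne_zero n4 hb) hc),
      od_mul v (mul_ne_zero n4 hb) hc, od_mul v n4 hb, o4, h1, h2, h3]
    rfl

end six

section Final

variable {k : Type*} [Field k] [CharZero k] {F : Type*} [Field F] [Algebra k F] {b c : k}
  {x y : F}

/-- generic points of the curve, at a place -/
theorem six_of_gen (hb : b = c + c ^ 2) (hc : c ≠ 0) (hc1 : 1 + c ≠ 0) (h : TN.Gen b c x y)
    {v : Valuation F ℤᵐ⁰} (hv : ∀ c : k, c ≠ 0 → v (algebraMap k F c) = 1) :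
    Six v (algebraMap k F b) (algebraMap k F c) x y := by
  have hb' : algebraMap k F b = algebraMap k F c + algebraMap k F c ^ 2 := by
    rw [hb, map_add, map_pow]
  have hxc := h.xc_ne c
  have hxb := h.xc_ne b
  have hy := h.y_ne
  have hx := h.x_ne
  refine ⟨h.eq, hb', hx, hxb, hxc, hy, ?_, hv c hc, ?_⟩
  · intro h1
    have h2 : (x + y - algebraMap k F b) * (y - algebraMap k F c * x) =
        x * (x - algebraMap k F b) * (x - algebraMap k F c) := by
      have := h.eq
      linear_combination this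
    rw [h1, mul_zero] at h2
    exact mul_ne_zero (mul_ne_zero hx hxb) hxc h2.symm
  · have := hv (1 + c) hc1
    rwa [map_add, map_one] at this

/-- **Order six, `t = 1`.** -/
theorem unram_six_a (hb : b = c + c ^ 2) (hc : c = 1) (h : TN.Gen b c x y) :
    FK4.Unram k (xi6a x y) := by
  classical
  intro v hv
  have : CharZero F := charZero_of_injective_algebraMap (algebraMap k F).injective
  have : Infinite (rf v) := infinite_RF hv
  subst hc
  have hb2 : b = 2 := by rw [hb]; norm_num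
  subst hb2
  have h6 := six_of_gen hb one_ne_zero (by norm_num) h hv
  rw [map_one, map_ofNat] at h6
  exact h6.sum fun x y h => noRes_term6a h

/-- **Order six, `t = -2`.** -/
theorem unram_six_b (hb : b = c + c ^ 2) (hc : c = -2) (h : TN.Gen b c x y) :
    FK4.Unram k (xi6b x y) := by
  classical
  intro v hv
  have : CharZero F := charZero_of_injective_algebraMap (algebraMap k F).injective
  have : Infinite (rf v) := infinite_RF hv
  subst hc
  have hb2 : b = 2 := by rw [hb]; norm_num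
  subst hb2
  have h6 := six_of_gen hb (by norm_num) (by norm_num) h hv
  rw [map_neg, map_ofNat] at h6
  exact h6.sum fun x y h => noRes_term6b h

/-- **Order six, `t = -1/2`.** -/
theorem unram_six_c (hb : b = c + c ^ 2) (hc : 2 * c = -1) (h : TN.Gen b c x y) :
    FK4.Unram k (xi6c x y) := by
  classical
  intro v hv
  have : CharZero F := charZero_of_injective_algebraMap (algebraMap k F).injective
  have : Infinite (rf v) := infinite_RF hv
  have hc' : c = -1 / 2 := by
    field_simp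
    linear_combination hc
  subst hc'
  have hb2 : b = -1 / 4 := by rw [hb]; norm_num
  subst hb2
  have h6 := six_of_gen hb (by norm_num) (by norm_num) h hv
  have e1 : algebraMap k F (-1 / 4) = -1 / 4 := by
    rw [map_div₀, map_neg, map_one, map_ofNat]
  have e2 : algebraMap k F (-1 / 2) = -1 / 2 := by
    rw [map_div₀, map_neg, map_one, map_ofNat]
  rw [e1, e2] at h6
  exact h6.sum fun x y h => noRes_term6c h

end Final

end Pool.Agent.FK4R
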